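import Pool.Agent.Helper383.NI.Defs

open Complex MeasureTheory Set Filter Topology

namespace Pool.Agent.Helper383.NI


namespace JA

/-- symmetry of a family -/
def Sym {ι : Type} (π : ι → ι) (σ : ℝ) (u : ι → ℂ → ℂ) : Prop :=
  ∀ i, ∀ z ∈ Str σ, u (π i) ((starRingEnd ℂ) z) = (starRingEnd ℂ) (u i z)

theorem ck_isOpen (σ : ℝ) : IsOpen (Str σ) :=
  isOpen_lt (continuous_abs.comp Complex.continuous_im) continuous_const

theorem ck_mono {σ σ' : ℝ} (h : σ ≤ σ') : Str σ ⊆ Str σ' := fun _ hz => lt_of_lt_of_le hz h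

theorem ck_closedBall {σ' s : ℝ} {z : ℂ} (hz : z ∈ Str σ') : Metric.closedBall z (s - σ') ⊆ Str s := by
  intro w hw
  have h1 : |z.im| < σ' := hz
  have h2 : ‖w - z‖ ≤ s - σ' := by simpa [dist_eq_norm] using hw
  have h3 : |(w - z).im| ≤ ‖w - z‖ := Complex.abs_im_le_norm _
  have h4 : w.im = z.im + (w - z).im := by simp
  change |w.im| < s
  rw [h4]
  have := abs_add_le z.im (w - z).im
  linarith

section bd
variable {ι : Type} {wt0 wt1 : ι → ℝ → ℝ}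

theorem ck_diffAt {σ M : ℝ} {u : ι → ℂ → ℂ} (hu : Bd wt0 wt1 σ M u) (i : ι) {z : ℂ} (hz : z ∈ Str σ) :
    DifferentiableAt ℂ (u i) z := (hu.1 i).differentiableAt ((ck_isOpen σ).mem_nhds hz)

theorem ck_add {σ M M' : ℝ} {u v : ι → ℂ → ℂ} (hu : Bd wt0 wt1 σ M u) (hv : Bd wt0 wt1 σ M' v) :
    Bd wt0 wt1 σ (M + M') (fun i z => u i z + v i z) := by
  refine ⟨fun i => (hu.1 i).add (hv.1 i), fun i z hz => ?_, fun i z hz => ?_⟩
  · calc ‖u i z + v i z‖ ≤ ‖u i z‖ + ‖v i z‖ := norm_add_le _ _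
      _ ≤ M * wt0 i σ + M' * wt0 i σ := add_le_add (hu.2.1 i z hz) (hv.2.1 i z hz)
      _ = (M + M') * wt0 i σ := by ring
  · have h1 : deriv (fun z => u i z + v i z) z = deriv (u i) z + deriv (v i) z :=
      ((ck_diffAt hu i hz).hasDerivAt.add (ck_diffAt hv i hz).hasDerivAt).deriv
    rw [h1]
    calc ‖deriv (u i) z + deriv (v i) z‖ ≤ ‖deriv (u i) z‖ + ‖deriv (v i) z‖ := norm_add_le _ _
      _ ≤ M * wt1 i σ + M' * wt1 i σ := add_le_add (hu.2.2 i z hz) (hv.2.2 i z hz)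
      _ = (M + M') * wt1 i σ := by ring

theorem ck_neg_sub {σ M : ℝ} {u v : ι → ℂ → ℂ} (h : Bd wt0 wt1 σ M (fun i z => u i z - v i z)) :
    Bd wt0 wt1 σ M (fun i z => v i z - u i z) := by
  have h0 : ∀ i, (fun z => v i z - u i z) = fun z => -(u i z - v i z) := fun i => by funext z; ring
  refine ⟨fun i => ?_, fun i z hz => ?_, fun i z hz => ?_⟩
  · have := (h.1 i).neg
    simp only [h0]
    exact this
  · rw [norm_sub_rev]; exact h.2.1 i z hz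
  · have h1 : deriv (fun z => v i z - u i z) z = - deriv (fun z => u i z - v i z) z := by
      rw [h0 i]
      exact ((ck_diffAt h i hz).hasDerivAt.neg).deriv
    rw [h1, norm_neg]; exact h.2.2 i z hz

theorem ck_monoM (hp0 : ∀ i σ, 0 < wt0 i σ) (hp1 : ∀ i σ, 0 < wt1 i σ) {σ M M' : ℝ} {u : ι → ℂ → ℂ}
    (h : M ≤ M') (hu : Bd wt0 wt1 σ M u) : Bd wt0 wt1 σ M' u :=
  ⟨hu.1, fun i z hz => (hu.2.1 i z hz).trans (mul_le_mul_of_nonneg_right h (hp0 i σ).le),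
    fun i z hz => (hu.2.2 i z hz).trans (mul_le_mul_of_nonneg_right h (hp1 i σ).le)⟩

theorem ck_congr {σ M : ℝ} {u v : ι → ℂ → ℂ} (h : ∀ i, ∀ z ∈ Str σ, v i z = u i z)
    (hu : Bd wt0 wt1 σ M u) : Bd wt0 wt1 σ M v := by
  refine ⟨fun i => (hu.1 i).congr (h i), fun i z hz => ?_, fun i z hz => ?_⟩
  · rw [h i z hz]; exact hu.2.1 i z hz
  · have : v i =ᶠ[𝓝 z] u i := by
      filter_upwards [(ck_isOpen σ).mem_nhds hz] with w hw using h i w hw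
    rw [this.deriv_eq]; exact hu.2.2 i z hz

theorem ck_monoS {σ0 : ℝ} (hm0 : ∀ i σ' σ, 0 < σ' → σ' ≤ σ → σ ≤ σ0 → wt0 i σ ≤ wt0 i σ')
    (hm1 : ∀ i σ' σ, 0 < σ' → σ' ≤ σ → σ ≤ σ0 → wt1 i σ ≤ wt1 i σ')
    {σ' σ M : ℝ} (hM : 0 ≤ M) (h' : 0 < σ') (h : σ' ≤ σ) (h0 : σ ≤ σ0) {u : ι → ℂ → ℂ}
    (hu : Bd wt0 wt1 σ M u) : Bd wt0 wt1 σ' M u :=
  ⟨fun i => (hu.1 i).mono (ck_mono h),
    fun i z hz => (hu.2.1 i z (ck_mono h hz)).trans (mul_le_mul_of_nonneg_left (hm0 i σ' σ h' h h0) hM),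
    fun i z hz => (hu.2.2 i z (ck_mono h hz)).trans (mul_le_mul_of_nonneg_left (hm1 i σ' σ h' h h0) hM)⟩

theorem ck_zero (hp0 : ∀ i σ, 0 < wt0 i σ) (hp1 : ∀ i σ, 0 < wt1 i σ) {σ M : ℝ} (hM : 0 ≤ M) :
    Bd wt0 wt1 σ M (fun _ _ => (0 : ℂ)) := by
  refine ⟨fun i => differentiableOn_const _, fun i z hz => ?_, fun i z hz => ?_⟩
  · simp only [norm_zero]; exact mul_nonneg hM (hp0 i σ).le
  · simp only [deriv_const, norm_zero]; exact mul_nonneg hM (hp1 i σ).le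

theorem ck_int {Cw σ0 : ℝ} (hCw : 0 < Cw) (hp0 : ∀ i σ, 0 < wt0 i σ) (hp1 : ∀ i σ, 0 < wt1 i σ)
    (hm1 : ∀ i σ' σ, 0 < σ' → σ' ≤ σ → σ ≤ σ0 → wt1 i σ ≤ wt1 i σ')
    (hloss : ∀ i σ' σ, 0 < σ' → σ' < σ → σ ≤ σ0 → wt1 i σ ≤ Cw / (σ - σ') * wt0 i σ')
    {a b σ' η : ℝ} (hab : a ≤ b) (hη : 0 ≤ η) (hσ' : 0 < σ')
    (F : ℝ → ι → ℂ → ℂ) (s g : ℝ → ℝ)
    (hs : ∀ τ ∈ Icc a b, σ' < s τ ∧ s τ ≤ σ0)
    (hg : ContinuousOn g (Icc a b)) (hg0 : ∀ τ ∈ Icc a b, 0 ≤ g τ)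
    (hF : ∀ τ ∈ Icc a b, ∀ i, DifferentiableOn ℂ (F τ i) (Str (s τ)))
    (hbd : ∀ τ ∈ Icc a b, ∀ i, ∀ z ∈ Str (s τ), ‖F τ i z‖ ≤ g τ * (s τ - σ') * wt1 i (s τ))
    (hc : ∀ i, ∀ z ∈ Str σ', ContinuousOn (fun τ => F τ i z) (Icc a b)) :
    Bd wt0 wt1 σ' ((1 + Cw) * (η * ∫ τ in a..b, g τ)) (fun i z => (η : ℂ) * ∫ τ in a..b, F τ i z) := by
  have hgi : IntervalIntegrable g volume a b := by
    apply ContinuousOn.intervalIntegrable; rwa [uIcc_of_le hab]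
  have hI0 : 0 ≤ ∫ τ in a..b, g τ := intervalIntegral.integral_nonneg hab hg0
  have hderb : ∀ τ ∈ Icc a b, ∀ i, ∀ z ∈ Str σ', ‖deriv (F τ i) z‖ ≤ g τ * wt1 i σ' := by
    intro τ hτ i z hz
    have hsub : (0 : ℝ) < s τ - σ' := by linarith [(hs τ hτ).1]
    have hcb := ck_closedBall (s := s τ) hz
    have h1 := Complex.norm_deriv_le_of_forall_mem_sphere_norm_le hsub
      ((hF τ hτ i).diffContOnCl_ball hcb)
      (fun w hw => hbd τ hτ i w (hcb (Metric.sphere_subset_closedBall hw)))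
    calc ‖deriv (F τ i) z‖ ≤ g τ * (s τ - σ') * wt1 i (s τ) / (s τ - σ') := h1
      _ = g τ * wt1 i (s τ) := by field_simp
      _ ≤ g τ * wt1 i σ' := mul_le_mul_of_nonneg_left (hm1 i σ' (s τ) hσ' (hs τ hτ).1.le (hs τ hτ).2) (hg0 τ hτ)
  have hvalb : ∀ τ ∈ Icc a b, ∀ i, ∀ z ∈ Str σ', ‖F τ i z‖ ≤ g τ * (Cw * wt0 i σ') := by
    intro τ hτ i z hz
    have hsub : (0 : ℝ) < s τ - σ' := by linarith [(hs τ hτ).1]
    calc ‖F τ i z‖ ≤ g τ * (s τ - σ') * wt1 i (s τ) := hbd τ hτ i z (ck_mono (hs τ hτ).1.le hz)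
      _ ≤ g τ * (s τ - σ') * (Cw / (s τ - σ') * wt0 i σ') :=
          mul_le_mul_of_nonneg_left (hloss i σ' (s τ) hσ' (hs τ hτ).1 (hs τ hτ).2)
            (mul_nonneg (hg0 τ hτ) hsub.le)
      _ = g τ * (Cw * wt0 i σ') := by field_simp
  have hIoc : ∀ τ, τ ∈ uIoc a b → τ ∈ Icc a b := fun τ hτ => by
    rw [uIoc_of_le hab] at hτ; exact Ioc_subset_Icc_self hτ
  have hmeas : ∀ i, ∀ z ∈ Str σ', AEStronglyMeasurable (fun τ => F τ i z) (volume.restrict (uIoc a b)) := by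
    intro i z hz
    apply ((hc i z hz).aestronglyMeasurable measurableSet_Icc).mono_measure
    exact Measure.restrict_mono_set _ hIoc
  have hii : ∀ i, ∀ z ∈ Str σ', IntervalIntegrable (fun τ => F τ i z) volume a b := by
    intro i z hz
    apply ContinuousOn.intervalIntegrable
    rw [uIcc_of_le hab]; exact hc i z hz
  have key : ∀ i, ∀ z ∈ Str σ', ∃ D, HasDerivAt (fun z => ∫ τ in a..b, F τ i z) D z ∧
      ‖D‖ ≤ (∫ τ in a..b, g τ) * wt1 i σ' := by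
    intro i z hz
    have hnh : Str σ' ∈ 𝓝 z := (ck_isOpen σ').mem_nhds hz
    have hdiff : ∀ τ ∈ Icc a b, ∀ x ∈ Str σ', HasDerivAt (F τ i) (deriv (F τ i) x) x := by
      intro τ hτ x hx
      exact ((hF τ hτ i).differentiableAt ((ck_isOpen _).mem_nhds (ck_mono (hs τ hτ).1.le hx))).hasDerivAt
    have hF'meas : AEStronglyMeasurable (fun τ => deriv (F τ i) z) (volume.restrict (uIoc a b)) := by
      have hseq : Tendsto (fun n : ℕ => ((1 / ((n : ℝ) + 1) : ℝ) : ℂ)) atTop (𝓝[≠] 0) := by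
        rw [tendsto_nhdsWithin_iff]
        constructor
        · have := tendsto_one_div_add_atTop_nhds_zero_nat (𝕜 := ℝ)
          have h2 := (Complex.continuous_ofReal.tendsto 0).comp this
          rw [Complex.ofReal_zero] at h2
          exact h2
        · refine Eventually.of_forall (fun n => ?_)
          have : (0 : ℝ) < 1 / ((n : ℝ) + 1) := by positivity
          simp only [mem_compl_iff, mem_singleton_iff, Complex.ofReal_eq_zero]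
          exact this.ne'
      apply aestronglyMeasurable_of_tendsto_ae (u := atTop)
        (f := fun (n : ℕ) τ => (((1 / ((n : ℝ) + 1) : ℝ) : ℂ))⁻¹ • (F τ i (z + ((1 / ((n : ℝ) + 1) : ℝ) : ℂ)) - F τ i z))
      · intro n
        have hz2 : (z + ((1 / ((n : ℝ) + 1) : ℝ) : ℂ)) ∈ Str σ' := by
          change |(z + ((1 / ((n : ℝ) + 1) : ℝ) : ℂ)).im| < σ'
          rw [Complex.add_im, Complex.ofReal_im, add_zero]; exact hz
        exact ((hmeas i _ hz2).sub (hmeas i z hz)).const_smul ((((1 / ((n : ℝ) + 1) : ℝ) : ℂ))⁻¹)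
      · rw [ae_restrict_iff' measurableSet_uIoc]
        refine Eventually.of_forall (fun τ hτ => ?_)
        exact ((hasDerivAt_iff_tendsto_slope_zero.1 (hdiff τ (hIoc τ hτ) z hz))).comp hseq
    have hmain := intervalIntegral.hasDerivAt_integral_of_dominated_loc_of_deriv_le
      (μ := volume) (a := a) (b := b) (F := fun z τ => F τ i z) (F' := fun z τ => deriv (F τ i) z)
      (bound := fun τ => g τ * wt1 i σ') hnh
      (by filter_upwards [hnh] with x hx using hmeas i x hx) (hii i z hz) hF'meas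
      (Eventually.of_forall (fun τ hτ x hx => hderb τ (hIoc τ hτ) i x hx))
      (hgi.mul_const _)
      (Eventually.of_forall (fun τ hτ x hx => hdiff τ (hIoc τ hτ) x hx))
    refine ⟨_, hmain.2, ?_⟩
    rw [← intervalIntegral.integral_mul_const]
    apply intervalIntegral.norm_integral_le_of_norm_le hab
    · refine Eventually.of_forall (fun τ hτ => hderb τ (Ioc_subset_Icc_self hτ) i z hz)
    · exact hgi.mul_const _
  refine ⟨fun i z hz => ?_, fun i z hz => ?_, fun i z hz => ?_⟩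
  · obtain ⟨D, hD, _⟩ := key i z hz
    exact (hD.differentiableAt.const_mul _).differentiableWithinAt
  · rw [norm_mul, Complex.norm_real, Real.norm_of_nonneg hη]
    have h1 : ‖∫ τ in a..b, F τ i z‖ ≤ (∫ τ in a..b, g τ) * (Cw * wt0 i σ') := by
      rw [← intervalIntegral.integral_mul_const]
      apply intervalIntegral.norm_integral_le_of_norm_le hab
      · refine Eventually.of_forall (fun τ hτ => hvalb τ (Ioc_subset_Icc_self hτ) i z hz)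
      · exact hgi.mul_const _
    have h2 := mul_le_mul_of_nonneg_left h1 hη
    have h3 : 0 ≤ η * (∫ τ in a..b, g τ) * wt0 i σ' := mul_nonneg (mul_nonneg hη hI0) (hp0 i σ').le
    nlinarith
  · obtain ⟨D, hD, hDb⟩ := key i z hz
    have h0 : deriv (fun z => (η : ℂ) * ∫ τ in a..b, F τ i z) z = (η : ℂ) * D := (hD.const_mul _).deriv
    rw [h0, norm_mul, Complex.norm_real, Real.norm_of_nonneg hη]
    have h2 := mul_le_mul_of_nonneg_left hDb hη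
    have h3 : 0 ≤ η * (∫ τ in a..b, g τ) * wt1 i σ' := mul_nonneg (mul_nonneg hη hI0) (hp1 i σ').le
    nlinarith [mul_nonneg hCw.le h3]

theorem ck_lim {σ M : ℝ} {V : ℕ → ι → ℂ → ℂ} {W : ι → ℂ → ℂ} (h : ∀ n, Bd wt0 wt1 σ M (V n))
    (hu : ∀ i, TendstoUniformlyOn (fun n => V n i) (W i) atTop (Str σ)) : Bd wt0 wt1 σ M W := by
  have hl : ∀ i, TendstoLocallyUniformlyOn (fun n => V n i) (W i) atTop (Str σ) := fun i =>
    (hu i).tendstoLocallyUniformlyOn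
  have hd : ∀ i, ∀ᶠ n in atTop, DifferentiableOn ℂ (V n i) (Str σ) := fun i =>
    Eventually.of_forall (fun n => (h n).1 i)
  refine ⟨fun i => (hl i).differentiableOn (hd i) (ck_isOpen σ), fun i z hz => ?_, fun i z hz => ?_⟩
  · have h1 : Tendsto (fun n => V n i z) atTop (𝓝 (W i z)) := (hu i).tendsto_at hz
    exact le_of_tendsto h1.norm (Eventually.of_forall (fun n => (h n).2.1 i z hz))
  · have h1 := ((hl i).deriv (hd i) (ck_isOpen σ)).tendsto_at hz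
    exact le_of_tendsto h1.norm (Eventually.of_forall (fun n => (h n).2.2 i z hz))

end bd

section iter
variable {ι : Type} {wt0 wt1 : ι → ℝ → ℝ} {Cw σ0 K r T η κ : ℝ}
  {N : ℝ → (ι → ℂ → ℂ) → ι → ℂ → ℂ}

/-- Picard iterates -/
noncomputable def ckPic (N : ℝ → (ι → ℂ → ℂ) → ι → ℂ → ℂ) (η : ℝ) : ℕ → ℝ → ι → ℂ → ℂ
  | 0 => fun _ _ _ => 0
  | n + 1 => fun t i z => (η : ℂ) * ∫ τ in (0 : ℝ)..t, N τ (ckPic N η n τ) i z

structure CKd (wt0 wt1 : ι → ℝ → ℝ) (Cw σ0 K r : ℝ) (N : ℝ → (ι → ℂ → ℂ) → ι → ℂ → ℂ)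
    (T η κ : ℝ) : Prop where
  hCw : 0 < Cw
  hσ0 : 0 < σ0
  hK : 0 < K
  hr : 0 < r
  hp0 : ∀ i σ, 0 < wt0 i σ
  hp1 : ∀ i σ, 0 < wt1 i σ
  hm0 : ∀ i σ' σ, 0 < σ' → σ' ≤ σ → σ ≤ σ0 → wt0 i σ ≤ wt0 i σ'
  hm1 : ∀ i σ' σ, 0 < σ' → σ' ≤ σ → σ ≤ σ0 → wt1 i σ ≤ wt1 i σ'
  hloss : ∀ i σ' σ, 0 < σ' → σ' < σ → σ ≤ σ0 → wt1 i σ ≤ Cw / (σ - σ') * wt0 i σ'
  hT : 0 < T
  hη : 0 ≤ η
  hκ : 0 < κ
  hκ1 : 16 * ((1 + Cw) * K) ≤ κ
  hκ2 : 4 * ((1 + Cw) * K) ≤ r * κ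
  n1 : ∀ t ∈ Icc 0 T, ∀ σ, 0 < σ → σ ≤ σ0 → ∀ U, Bd wt0 wt1 σ r U →
        (∀ i, DifferentiableOn ℂ (N t U i) (Str σ)) ∧
        ∀ i, ∀ z ∈ Str σ, ‖N t U i z‖ ≤ K * wt1 i σ
  n2 : ∀ t ∈ Icc 0 T, ∀ σ, 0 < σ → σ ≤ σ0 → ∀ U V D, 0 ≤ D → Bd wt0 wt1 σ r U →
        Bd wt0 wt1 σ r V → Bd wt0 wt1 σ D (fun i z => U i z - V i z) →
        ∀ i, ∀ z ∈ Str σ, ‖N t U i z - N t V i z‖ ≤ K * D * wt1 i σ
  n3 : ∀ t ∈ Icc 0 T, ∀ s ∈ Icc 0 T, ∀ σ, 0 < σ → σ ≤ σ0 → ∀ U, Bd wt0 wt1 σ r U →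
        ∀ i, ∀ z ∈ Str σ, ‖N t U i z - N s U i z‖ ≤ K * |t - s| * wt1 i σ

theorem CKd.cont (h : CKd wt0 wt1 Cw σ0 K r N T η κ) {t σ L : ℝ} (ht : t ∈ Icc 0 T) (hσ : 0 < σ)
    (hσ' : σ ≤ σ0) (hL : 0 ≤ L) {V : ℝ → ι → ℂ → ℂ} (hV : ∀ τ ∈ Icc 0 t, Bd wt0 wt1 σ r (V τ))
    (hLip : ∀ τ1 ∈ Icc 0 t, ∀ τ2 ∈ Icc 0 t,
      Bd wt0 wt1 σ (L * |τ1 - τ2|) (fun i z => V τ1 i z - V τ2 i z))
    (i : ι) {z : ℂ} (hz : z ∈ Str σ) : ContinuousOn (fun τ => N τ (V τ) i z) (Icc 0 t) := by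
  have hsub : ∀ τ ∈ Icc 0 t, τ ∈ Icc 0 T := fun τ hτ => ⟨hτ.1, hτ.2.trans ht.2⟩
  have hC : 0 ≤ (K * L + K) * wt1 i σ :=
    mul_nonneg (add_nonneg (mul_nonneg h.hK.le hL) h.hK.le) (h.hp1 i σ).le
  have : LipschitzOnWith (Real.toNNReal ((K * L + K) * wt1 i σ)) (fun τ => N τ (V τ) i z) (Icc 0 t) := by
    apply LipschitzOnWith.of_dist_le_mul
    intro τ1 h1 τ2 h2
    rw [Real.coe_toNNReal _ hC, dist_eq_norm, Real.dist_eq]
    have e1 := h.n2 τ1 (hsub τ1 h1) σ hσ hσ' (V τ1) (V τ2) (L * |τ1 - τ2|)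
      (mul_nonneg hL (abs_nonneg _)) (hV τ1 h1) (hV τ2 h2) (hLip τ1 h1 τ2 h2) i z hz
    have e2 := h.n3 τ1 (hsub τ1 h1) τ2 (hsub τ2 h2) σ hσ hσ' (V τ2) (hV τ2 h2) i z hz
    calc ‖N τ1 (V τ1) i z - N τ2 (V τ2) i z‖
        = ‖(N τ1 (V τ1) i z - N τ1 (V τ2) i z) + (N τ1 (V τ2) i z - N τ2 (V τ2) i z)‖ := by
          congr 1; ring
      _ ≤ ‖N τ1 (V τ1) i z - N τ1 (V τ2) i z‖ + ‖N τ1 (V τ2) i z - N τ2 (V τ2) i z‖ := norm_add_le _ _
      _ ≤ K * (L * |τ1 - τ2|) * wt1 i σ + K * |τ1 - τ2| * wt1 i σ := add_le_add e1 e2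
      _ = (K * L + K) * wt1 i σ * |τ1 - τ2| := by ring
  exact this.continuousOn

theorem CKd.lipInt (h : CKd wt0 wt1 Cw σ0 K r N T η κ) {t σ s : ℝ} (ht : t ∈ Icc 0 T) (hσ : 0 < σ)
    (hs : σ < s) (hs0 : s ≤ σ0) {V : ℝ → ι → ℂ → ℂ} (hV : ∀ τ ∈ Icc 0 t, Bd wt0 wt1 s r (V τ))
    (hcont : ∀ i, ∀ z ∈ Str σ, ContinuousOn (fun τ => N τ (V τ) i z) (Icc 0 t)) :
    ∀ τ1 ∈ Icc 0 t, ∀ τ2 ∈ Icc 0 t, Bd wt0 wt1 σ ((1 + Cw) * (η * (K / (s - σ))) * |τ1 - τ2|)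
      (fun i z => (η : ℂ) * (∫ τ in (0 : ℝ)..τ1, N τ (V τ) i z) -
        (η : ℂ) * ∫ τ in (0 : ℝ)..τ2, N τ (V τ) i z) := by
  have hsub : ∀ τ ∈ Icc 0 t, τ ∈ Icc 0 T := fun τ hτ => ⟨hτ.1, hτ.2.trans ht.2⟩
  have hd : 0 < s - σ := by linarith
  have main : ∀ τ1 ∈ Icc 0 t, ∀ τ2 ∈ Icc 0 t, τ2 ≤ τ1 →
      Bd wt0 wt1 σ ((1 + Cw) * (η * (K / (s - σ))) * |τ1 - τ2|)
      (fun i z => (η : ℂ) * (∫ τ in (0 : ℝ)..τ1, N τ (V τ) i z) -
        (η : ℂ) * ∫ τ in (0 : ℝ)..τ2, N τ (V τ) i z) := by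
    intro τ1 h1 τ2 h2 h21
    have hIcc : Icc τ2 τ1 ⊆ Icc 0 t := Icc_subset_Icc h2.1 h1.2
    have e := ck_int (wt0 := wt0) (wt1 := wt1) h.hCw h.hp0 h.hp1 h.hm1 h.hloss h21 h.hη hσ
      (fun τ => N τ (V τ)) (fun _ => s) (fun _ => K / (s - σ))
      (fun τ _ => ⟨hs, hs0⟩) continuousOn_const (fun τ _ => (div_pos h.hK hd).le)
      (fun τ hτ i => (h.n1 τ (hsub τ (hIcc hτ)) s (hσ.trans hs) hs0 (V τ) (hV τ (hIcc hτ))).1 i)
      (fun τ hτ i z hz => by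
        have := (h.n1 τ (hsub τ (hIcc hτ)) s (hσ.trans hs) hs0 (V τ) (hV τ (hIcc hτ))).2 i z hz
        rw [div_mul_cancel₀ _ hd.ne']
        exact this)
      (fun i z hz => (hcont i z hz).mono hIcc)
    rw [intervalIntegral.integral_const, smul_eq_mul] at e
    have e2 : (1 + Cw) * (η * ((τ1 - τ2) * (K / (s - σ)))) =
        (1 + Cw) * (η * (K / (s - σ))) * |τ1 - τ2| := by
      rw [abs_of_nonneg (by linarith : (0 : ℝ) ≤ τ1 - τ2)]; ring
    rw [e2] at e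
    refine ck_congr ?_ e
    intro i z hz
    have hii : ∀ τ' ∈ Icc 0 t, IntervalIntegrable (fun τ => N τ (V τ) i z) volume 0 τ' := by
      intro τ' hτ'
      apply ContinuousOn.intervalIntegrable
      rw [uIcc_of_le hτ'.1]
      exact (hcont i z hz).mono (Icc_subset_Icc_right hτ'.2)
    rw [← mul_sub, intervalIntegral.integral_interval_sub_left (hii τ1 h1) (hii τ2 h2)]
  intro τ1 h1 τ2 h2
  rcases le_total τ2 τ1 with h21 | h21
  · exact main τ1 h1 τ2 h2 h21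
  · have := ck_neg_sub (main τ2 h2 τ1 h1 h21)
    rw [abs_sub_comm]; exact this

/-- the constants `κ_n` -/
noncomputable def kap (κ : ℝ) (n : ℕ) : ℝ := κ * (2 - (1 / 2) ^ n)

theorem kap_succ (κ : ℝ) (n : ℕ) : kap κ (n + 1) = kap κ n + κ * (1 / 2) ^ (n + 1) := by
  unfold kap; ring

theorem kap_ge {κ : ℝ} (h : 0 < κ) (n : ℕ) : κ ≤ kap κ n := by
  unfold kap
  have : ((1 : ℝ) / 2) ^ n ≤ 1 := pow_le_one₀ (by norm_num) (by norm_num)
  nlinarith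

theorem kap_le {κ : ℝ} (h : 0 < κ) (n : ℕ) : kap κ n ≤ 2 * κ := by
  unfold kap
  have : (0 : ℝ) < ((1 : ℝ) / 2) ^ n := by positivity
  nlinarith

structure CKP (wt0 wt1 : ι → ℝ → ℝ) (Cw σ0 K r : ℝ) (N : ℝ → (ι → ℂ → ℂ) → ι → ℂ → ℂ)
    (T η κ : ℝ) (n : ℕ) : Prop where
  b : ∀ t ∈ Icc 0 T, ∀ σ, 0 < σ → σ + kap κ n * η * t < σ0 →
    Bd wt0 wt1 σ (r * (1 - (1 / 2) ^ n)) (ckPic N η n t)
  l : ∀ t ∈ Icc 0 T, ∀ σ, 0 < σ → σ + kap κ n * η * t < σ0 →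
    ∃ L, 0 ≤ L ∧ ∀ τ1 ∈ Icc 0 t, ∀ τ2 ∈ Icc 0 t,
      Bd wt0 wt1 σ (L * |τ1 - τ2|) (fun i z => ckPic N η n τ1 i z - ckPic N η n τ2 i z)
  d : ∀ t ∈ Icc 0 T, ∀ σ, 0 < σ → σ + kap κ n * η * t < σ0 →
    Bd wt0 wt1 σ ((1 + Cw) * K * (1 / 4) ^ n * (η * t) / (σ0 - σ - kap κ n * η * t))
      (fun i z => ckPic N η (n + 1) t i z - ckPic N η n t i z)

theorem CKP.br (h : CKd wt0 wt1 Cw σ0 K r N T η κ) {n : ℕ} (P : CKP wt0 wt1 Cw σ0 K r N T η κ n)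
    {t σ : ℝ} (ht : t ∈ Icc 0 T) (hσ : 0 < σ) (hD : σ + kap κ n * η * t < σ0) :
    Bd wt0 wt1 σ r (ckPic N η n t) := by
  apply ck_monoM h.hp0 h.hp1 _ (P.b t ht σ hσ hD)
  have : (0 : ℝ) < ((1 : ℝ) / 2) ^ n := by positivity
  nlinarith [h.hr]

theorem ck_dom (h : CKd wt0 wt1 Cw σ0 K r N T η κ) {n : ℕ} {t σ τ : ℝ} (hτ : τ ∈ Icc 0 t)
    (hD : σ + kap κ n * η * t < σ0) : σ + kap κ n * η * τ < σ0 := by
  have h1 : 0 ≤ kap κ n * η := mul_nonneg (h.hκ.le.trans (kap_ge h.hκ n)) h.hη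
  have := mul_le_mul_of_nonneg_left hτ.2 h1
  linarith

theorem ck_sigma_le (h : CKd wt0 wt1 Cw σ0 K r N T η κ) {n : ℕ} {t σ : ℝ} (ht : 0 ≤ t)
    (hD : σ + kap κ n * η * t < σ0) : σ < σ0 := by
  have h1 : 0 ≤ kap κ n * η * t :=
    mul_nonneg (mul_nonneg (h.hκ.le.trans (kap_ge h.hκ n)) h.hη) ht
  linarith

theorem CKP.cont (h : CKd wt0 wt1 Cw σ0 K r N T η κ) {n : ℕ} (P : CKP wt0 wt1 Cw σ0 K r N T η κ n)
    {t σ : ℝ} (ht : t ∈ Icc 0 T) (hσ : 0 < σ) (hD : σ + kap κ n * η * t < σ0) (i : ι) {z : ℂ}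
    (hz : z ∈ Str σ) : ContinuousOn (fun τ => N τ (ckPic N η n τ) i z) (Icc 0 t) := by
  obtain ⟨L, hL, hlip⟩ := P.l t ht σ hσ hD
  have hσ0 := ck_sigma_le h ht.1 hD
  exact h.cont ht hσ hσ0.le hL
    (fun τ hτ => P.br h ⟨hτ.1, hτ.2.trans ht.2⟩ hσ (ck_dom h hτ hD)) hlip i hz

theorem ck_integral {k d t : ℝ} (hk : 0 ≤ k) (ht : 0 ≤ t) (hd : 0 < d - k * t) :
    (∫ τ in (0 : ℝ)..t, k / (d - k * τ) ^ 2) ≤ 1 / (d - k * t) := by
  have hpos : ∀ τ ∈ Icc 0 t, 0 < d - k * τ := by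
    intro τ hτ
    have := mul_le_mul_of_nonneg_left hτ.2 hk
    linarith
  have hder : ∀ τ ∈ uIcc 0 t, HasDerivAt (fun τ => (d - k * τ)⁻¹) (k / (d - k * τ) ^ 2) τ := by
    intro τ hτ
    rw [uIcc_of_le ht] at hτ
    have h1 : HasDerivAt (fun τ : ℝ => d - k * τ) (-k) τ := by
      have := ((hasDerivAt_id τ).const_mul k).const_sub d
      simpa using this
    have h2 := h1.inv (hpos τ hτ).ne'
    rw [neg_neg] at h2
    exact h2
  have hcont : ContinuousOn (fun τ => k / (d - k * τ) ^ 2) (uIcc 0 t) := by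
    rw [uIcc_of_le ht]
    apply ContinuousOn.div continuousOn_const (by fun_prop)
    intro τ hτ
    exact pow_ne_zero _ (hpos τ hτ).ne'
  rw [intervalIntegral.integral_eq_sub_of_hasDerivAt hder hcont.intervalIntegrable]
  have h3 : 0 < d := by
    have := hpos 0 ⟨le_rfl, ht⟩
    simpa using this
  have : 0 < (d - k * 0)⁻¹ := by
    rw [mul_zero, sub_zero]; exact inv_pos.2 h3
  rw [one_div]
  linarith

end iter

section iter2
variable {ι : Type} {wt0 wt1 : ι → ℝ → ℝ} {Cw σ0 K r T η κ : ℝ}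
  {N : ℝ → (ι → ℂ → ℂ) → ι → ℂ → ℂ}

theorem ck_dsucc (h : CKd wt0 wt1 Cw σ0 K r N T η κ) {n : ℕ} {t σ : ℝ} (ht : 0 ≤ t)
    (hD : σ + kap κ (n + 1) * η * t < σ0) : σ + kap κ n * η * t < σ0 := by
  have h1 : 0 ≤ κ * (1 / 2) ^ (n + 1) * η * t := by
    have := h.hκ; have := h.hη; positivity
  rw [kap_succ] at hD
  nlinarith

theorem CKP.zero (h : CKd wt0 wt1 Cw σ0 K r N T η κ) : CKP wt0 wt1 Cw σ0 K r N T η κ 0 := by
  have h0 : ∀ t σ, Bd wt0 wt1 σ r (ckPic N η 0 t) := fun t σ => ck_zero h.hp0 h.hp1 h.hr.le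
  refine ⟨fun t ht σ hσ hD => ?_, fun t ht σ hσ hD => ?_, fun t ht σ hσ hD => ?_⟩
  · exact ck_zero h.hp0 h.hp1 (by simp)
  · refine ⟨0, le_rfl, fun τ1 _ τ2 _ => ?_⟩
    have := ck_zero (ι := ι) (wt0 := wt0) (wt1 := wt1) h.hp0 h.hp1 (σ := σ) (M := 0 * |τ1 - τ2|) (by simp)
    refine ck_congr ?_ this
    intro i z _
    simp [ckPic]
  · have hσσ := ck_sigma_le h ht.1 hD
    have hd : 0 < σ0 - σ := by linarith
    have hsub : ∀ τ ∈ Icc 0 t, τ ∈ Icc 0 T := fun τ hτ => ⟨hτ.1, hτ.2.trans ht.2⟩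
    have hcont : ∀ i, ∀ z ∈ Str σ, ContinuousOn (fun τ => N τ (ckPic N η 0 τ) i z) (Icc 0 t) := by
      intro i z hz
      refine h.cont ht hσ hσσ.le le_rfl (V := ckPic N η 0) (fun τ _ => h0 τ σ) ?_ i hz
      intro τ1 _ τ2 _
      refine ck_congr ?_ (ck_zero (ι := ι) (wt0 := wt0) (wt1 := wt1) h.hp0 h.hp1 (σ := σ) (M := 0 * |τ1 - τ2|) (by simp))
      intro i z _
      simp [ckPic]
    have e := ck_int (wt0 := wt0) (wt1 := wt1) h.hCw h.hp0 h.hp1 h.hm1 h.hloss ht.1 h.hη hσ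
      (fun τ => N τ (ckPic N η 0 τ)) (fun _ => σ0) (fun _ => K / (σ0 - σ))
      (fun τ _ => ⟨hσσ, le_rfl⟩) continuousOn_const (fun τ _ => (div_pos h.hK hd).le)
      (fun τ hτ i => (h.n1 τ (hsub τ hτ) σ0 h.hσ0 le_rfl _ (h0 τ σ0)).1 i)
      (fun τ hτ i z hz => by
        have := (h.n1 τ (hsub τ hτ) σ0 h.hσ0 le_rfl _ (h0 τ σ0)).2 i z hz
        rw [div_mul_cancel₀ _ hd.ne']
        exact this)
      hcont
    rw [intervalIntegral.integral_const, smul_eq_mul] at e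
    refine ck_congr (u := fun i z => (η : ℂ) * ∫ τ in (0 : ℝ)..t, N τ (ckPic N η 0 τ) i z) ?_
      (ck_monoM h.hp0 h.hp1 ?_ e)
    · intro i z _
      simp [ckPic]
    · have hk : 0 ≤ kap κ 0 * η * t :=
        mul_nonneg (mul_nonneg (h.hκ.le.trans (kap_ge h.hκ 0)) h.hη) ht.1
      have hx : 0 < σ0 - σ - kap κ 0 * η * t := by linarith
      have hnum : 0 ≤ (1 + Cw) * K * (1 / 4) ^ 0 * (η * t) := by
        have := h.hCw; have := h.hK; have := h.hη; have := ht.1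
        positivity
      calc (1 + Cw) * (η * ((t - 0) * (K / (σ0 - σ)))) = (1 + Cw) * K * (1 / 4) ^ 0 * (η * t) / (σ0 - σ) := by
            rw [sub_zero, pow_zero]; ring
        _ ≤ _ := div_le_div_of_nonneg_left hnum hx (by linarith)

theorem CKP.succ (h : CKd wt0 wt1 Cw σ0 K r N T η κ) {n : ℕ} (P : CKP wt0 wt1 Cw σ0 K r N T η κ n) :
    CKP wt0 wt1 Cw σ0 K r N T η κ (n + 1) := by
  have hCw := h.hCw
  have hK := h.hK
  have hη := h.hη
  have hκ := h.hκ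
  have hr := h.hr
  have q2 : (0 : ℝ) < ((1 : ℝ) / 2) ^ n := by positivity
  have q4 : (0 : ℝ) < ((1 : ℝ) / 4) ^ n := by positivity
  have q24 : ((1 : ℝ) / 4) ^ n = (1 / 2) ^ n * (1 / 2) ^ n := by
    rw [← mul_pow]; norm_num
  -- the bound
  have hb : ∀ t ∈ Icc 0 T, ∀ σ, 0 < σ → σ + kap κ (n + 1) * η * t < σ0 →
      Bd wt0 wt1 σ (r * (1 - (1 / 2) ^ (n + 1))) (ckPic N η (n + 1) t) := by
    intro t ht σ hσ hD
    have hD' := ck_dsucc h ht.1 hD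
    have e := ck_add (P.b t ht σ hσ hD') (P.d t ht σ hσ hD')
    refine ck_congr (u := fun i z => ckPic N η n t i z + (ckPic N η (n + 1) t i z - ckPic N η n t i z)) ?_
      (ck_monoM h.hp0 h.hp1 ?_ e)
    · intro i z _; ring
    · have hx : 0 < σ0 - σ - kap κ n * η * t := by linarith
      have hx2 : κ * (1 / 2) ^ (n + 1) * η * t ≤ σ0 - σ - kap κ n * η * t := by
        rw [kap_succ] at hD; nlinarith
      have : (1 + Cw) * K * (1 / 4) ^ n * (η * t) / (σ0 - σ - kap κ n * η * t) ≤ r * (1 / 2) ^ (n + 1) := by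
        rw [div_le_iff₀ hx]
        have hηt : 0 ≤ η * t := mul_nonneg hη ht.1
        calc (1 + Cw) * K * (1 / 4) ^ n * (η * t) = (4 * ((1 + Cw) * K)) * ((1 / 4) ^ n * (1 / 4) * (η * t)) := by ring
          _ ≤ (r * κ) * ((1 / 4) ^ n * (1 / 4) * (η * t)) :=
              mul_le_mul_of_nonneg_right h.hκ2 (by positivity)
          _ = r * (1 / 2) ^ (n + 1) * (κ * (1 / 2) ^ (n + 1) * η * t) := by rw [q24]; ring
          _ ≤ r * (1 / 2) ^ (n + 1) * (σ0 - σ - kap κ n * η * t) :=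
              mul_le_mul_of_nonneg_left hx2 (by positivity)
      calc r * (1 - (1 / 2) ^ n) + (1 + Cw) * K * (1 / 4) ^ n * (η * t) / (σ0 - σ - kap κ n * η * t)
          ≤ r * (1 - (1 / 2) ^ n) + r * (1 / 2) ^ (n + 1) := by linarith
        _ = r * (1 - (1 / 2) ^ (n + 1)) := by ring
  have hbr : ∀ t ∈ Icc 0 T, ∀ σ, 0 < σ → σ + kap κ (n + 1) * η * t < σ0 →
      Bd wt0 wt1 σ r (ckPic N η (n + 1) t) := by
    intro t ht σ hσ hD
    apply ck_monoM h.hp0 h.hp1 _ (hb t ht σ hσ hD)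
    have : (0 : ℝ) < ((1 : ℝ) / 2) ^ (n + 1) := by positivity
    nlinarith
  have hl : ∀ t ∈ Icc 0 T, ∀ σ, 0 < σ → σ + kap κ (n + 1) * η * t < σ0 →
    ∃ L, 0 ≤ L ∧ ∀ τ1 ∈ Icc 0 t, ∀ τ2 ∈ Icc 0 t,
      Bd wt0 wt1 σ (L * |τ1 - τ2|) (fun i z => ckPic N η (n + 1) τ1 i z - ckPic N η (n + 1) τ2 i z) := by
    intro t ht σ hσ hD
    have hD' := ck_dsucc h ht.1 hD
    have hk : 0 ≤ kap κ n * η * t :=
      mul_nonneg (mul_nonneg (hκ.le.trans (kap_ge hκ n)) hη) ht.1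
    obtain ⟨s, hs⟩ : ∃ s, s = (σ + (σ0 - kap κ n * η * t)) / 2 := ⟨_, rfl⟩
    have hs1 : σ < s := by rw [hs]; linarith
    have hs2 : s + kap κ n * η * t < σ0 := by rw [hs]; linarith
    have hs3 : s ≤ σ0 := by linarith
    have hd : 0 < s - σ := by linarith
    refine ⟨(1 + Cw) * (η * (K / (s - σ))), by positivity, ?_⟩
    exact h.lipInt ht hσ hs1 hs3 (V := ckPic N η n)
      (fun τ hτ => P.br h ⟨hτ.1, hτ.2.trans ht.2⟩ (hσ.trans hs1) (ck_dom h hτ hs2))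
      (fun i z hz => P.cont h ht hσ hD' i hz)
  refine ⟨hb, hl, fun t ht σ hσ hD => ?_⟩
  have hD' := ck_dsucc h ht.1 hD
  have hsub : ∀ τ ∈ Icc 0 t, τ ∈ Icc 0 T := fun τ hτ => ⟨hτ.1, hτ.2.trans ht.2⟩
  obtain ⟨k, hk⟩ : ∃ k, k = kap κ (n + 1) * η := ⟨_, rfl⟩
  obtain ⟨d, hd⟩ : ∃ d, d = σ0 - σ := ⟨_, rfl⟩
  obtain ⟨B, hB⟩ : ∃ B, B = (1 + Cw) * K * (1 / 4) ^ n := ⟨_, rfl⟩
  have hB0 : 0 < B := by rw [hB]; positivity
  have hk0 : 0 ≤ k := by rw [hk]; exact mul_nonneg (hκ.le.trans (kap_ge hκ _)) hη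
  have hkt : 0 < d - k * t := by rw [hd, hk]; linarith
  have hkτ : ∀ τ ∈ Icc 0 t, 0 < d - k * τ := by
    intro τ hτ
    have := mul_le_mul_of_nonneg_left hτ.2 hk0
    linarith
  have hηt : 0 ≤ η * t := mul_nonneg hη ht.1
  have hlev : ∀ τ ∈ Icc 0 t, σ < (σ0 - k * τ + σ) / 2 ∧ (σ0 - k * τ + σ) / 2 ≤ σ0 ∧
      (σ0 - k * τ + σ) / 2 + kap κ (n + 1) * η * τ < σ0 := by
    intro τ hτ
    have h1 := hkτ τ hτ
    have h2 : 0 ≤ k * τ := mul_nonneg hk0 hτ.1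
    rw [hd] at h1
    refine ⟨by linarith, by linarith, ?_⟩
    rw [← hk]; linarith
  have hcn : ∀ i, ∀ z ∈ Str σ, ContinuousOn (fun τ => N τ (ckPic N η n τ) i z) (Icc 0 t) :=
    fun i z hz => P.cont h ht hσ hD' i hz
  have hcn1 : ∀ i, ∀ z ∈ Str σ, ContinuousOn (fun τ => N τ (ckPic N η (n + 1) τ) i z) (Icc 0 t) := by
    intro i z hz
    obtain ⟨L, hL, hlip⟩ := hl t ht σ hσ hD
    exact h.cont ht hσ (ck_sigma_le h ht.1 hD).le hL
      (fun τ hτ => hbr τ (hsub τ hτ) σ hσ (ck_dom h hτ hD)) hlip i hz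
  have e := ck_int (wt0 := wt0) (wt1 := wt1) hCw h.hp0 h.hp1 h.hm1 h.hloss ht.1 hη hσ
      (fun τ i z => N τ (ckPic N η (n + 1) τ) i z - N τ (ckPic N η n τ) i z)
      (fun τ => (σ0 - k * τ + σ) / 2) (fun τ => 4 * K * B * (η * t) * (1 / (d - k * τ) ^ 2))
      (fun τ hτ => ⟨(hlev τ hτ).1, (hlev τ hτ).2.1⟩)
      (by
        apply ContinuousOn.mul continuousOn_const
        apply ContinuousOn.div continuousOn_const (by fun_prop)
        intro τ hτ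
        exact pow_ne_zero _ (hkτ τ hτ).ne')
      (fun τ hτ => by have := hkτ τ hτ; positivity)
      (fun τ hτ i => by
        obtain ⟨h1, h2, h3⟩ := hlev τ hτ
        exact ((h.n1 τ (hsub τ hτ) _ (hσ.trans h1) h2 _ (hbr τ (hsub τ hτ) _ (hσ.trans h1) h3)).1 i).sub
          ((h.n1 τ (hsub τ hτ) _ (hσ.trans h1) h2 _ (P.br h (hsub τ hτ) (hσ.trans h1) (ck_dsucc h hτ.1 h3))).1 i))
      (fun τ hτ i z hz => by
        obtain ⟨h1, h2, h3⟩ := hlev τ hτ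
        have h3' := ck_dsucc h hτ.1 h3
        have hx : 0 < σ0 - (σ0 - k * τ + σ) / 2 - kap κ n * η * τ := by linarith
        have hD0 : 0 ≤ (1 + Cw) * K * (1 / 4) ^ n * (η * τ) / (σ0 - (σ0 - k * τ + σ) / 2 - kap κ n * η * τ) := by
          have := hτ.1; positivity
        have e1 := h.n2 τ (hsub τ hτ) _ (hσ.trans h1) h2 (ckPic N η (n + 1) τ) (ckPic N η n τ) _ hD0
          (hbr τ (hsub τ hτ) _ (hσ.trans h1) h3) (P.br h (hsub τ hτ) (hσ.trans h1) h3')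
          (P.d τ (hsub τ hτ) _ (hσ.trans h1) h3') i z hz
        refine e1.trans (mul_le_mul_of_nonneg_right ?_ (h.hp1 i _).le)
        have hy := hkτ τ hτ
        have hxy : (d - k * τ) / 2 ≤ σ0 - (σ0 - k * τ + σ) / 2 - kap κ n * η * τ := by
          have hh : kap κ n * η * τ ≤ k * τ := by
            rw [hk, kap_succ]
            have : 0 ≤ κ * (1 / 2) ^ (n + 1) * η * τ := by have := hτ.1; positivity
            nlinarith
          rw [hd]; linarith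
        have e2 : (1 + Cw) * K * (1 / 4) ^ n * (η * τ) / (σ0 - (σ0 - k * τ + σ) / 2 - kap κ n * η * τ) ≤
            B * (η * t) / ((d - k * τ) / 2) := by
          rw [← hB]
          apply div_le_div₀ (by positivity) _ (by positivity) hxy
          exact mul_le_mul_of_nonneg_left (mul_le_mul_of_nonneg_left hτ.2 hη) hB0.le
        calc K * ((1 + Cw) * K * (1 / 4) ^ n * (η * τ) / (σ0 - (σ0 - k * τ + σ) / 2 - kap κ n * η * τ))
            ≤ K * (B * (η * t) / ((d - k * τ) / 2)) := mul_le_mul_of_nonneg_left e2 hK.le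
          _ = 4 * K * B * (η * t) * (1 / (d - k * τ) ^ 2) * ((d - k * τ) / 2) := by
              field_simp; ring
          _ = 4 * K * B * (η * t) * (1 / (d - k * τ) ^ 2) * ((σ0 - k * τ + σ) / 2 - σ) := by
              rw [hd]; ring)
      (fun i z hz => (hcn1 i z hz).sub (hcn i z hz))
  refine ck_congr (u := fun i z => (η : ℂ) * ∫ τ in (0 : ℝ)..t,
      (N τ (ckPic N η (n + 1) τ) i z - N τ (ckPic N η n τ) i z)) ?_ (ck_monoM h.hp0 h.hp1 ?_ e)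
  · intro i z hz
    have i1 : IntervalIntegrable (fun τ => N τ (ckPic N η (n + 1) τ) i z) volume 0 t := by
      apply ContinuousOn.intervalIntegrable; rw [uIcc_of_le ht.1]; exact hcn1 i z hz
    have i2 : IntervalIntegrable (fun τ => N τ (ckPic N η n τ) i z) volume 0 t := by
      apply ContinuousOn.intervalIntegrable; rw [uIcc_of_le ht.1]; exact hcn i z hz
    rw [intervalIntegral.integral_sub i1 i2, mul_sub]
    rfl
  · rw [intervalIntegral.integral_const_mul]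
    have hint := ck_integral hk0 ht.1 hkt
    have e3 : (∫ τ in (0 : ℝ)..t, k / (d - k * τ) ^ 2) = k * ∫ τ in (0 : ℝ)..t, 1 / (d - k * τ) ^ 2 := by
      rw [← intervalIntegral.integral_const_mul]
      apply intervalIntegral.integral_congr
      intro τ _
      change k / (d - k * τ) ^ 2 = k * (1 / (d - k * τ) ^ 2)
      ring
    rw [e3] at hint
    obtain ⟨I, hI⟩ : ∃ I, I = ∫ τ in (0 : ℝ)..t, 1 / (d - k * τ) ^ 2 := ⟨_, rfl⟩
    rw [← hI] at hint ⊢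
    have hI0 : 0 ≤ I := by
      rw [hI]; exact intervalIntegral.integral_nonneg ht.1 (fun τ hτ => by positivity)
    have e4 : κ * (η * I) ≤ 1 / (d - k * t) := by
      refine le_trans ?_ hint
      rw [hk]
      have := mul_le_mul_of_nonneg_right (kap_ge hκ (n + 1)) (mul_nonneg hη hI0)
      linarith
    have e5 : d - k * t = σ0 - σ - kap κ (n + 1) * η * t := by rw [hd, hk]
    rw [← e5]
    calc (1 + Cw) * (η * (4 * K * B * (η * t) * I)) = (16 * ((1 + Cw) * K)) * (B * (1 / 4) * (η * t) * (η * I)) := by ring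
      _ ≤ κ * (B * (1 / 4) * (η * t) * (η * I)) :=
          mul_le_mul_of_nonneg_right h.hκ1 (by positivity)
      _ = (B * (1 / 4) * (η * t)) * (κ * (η * I)) := by ring
      _ ≤ (B * (1 / 4) * (η * t)) * (1 / (d - k * t)) :=
          mul_le_mul_of_nonneg_left e4 (by positivity)
      _ = (1 + Cw) * K * (1 / 4) ^ (n + 1) * (η * t) / (d - k * t) := by rw [hB]; ring

theorem CKd.all (h : CKd wt0 wt1 Cw σ0 K r N T η κ) (n : ℕ) : CKP wt0 wt1 Cw σ0 K r N T η κ n := by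
  induction n with
  | zero => exact CKP.zero h
  | succ n ih => exact CKP.succ h ih

end iter2

theorem ck_unif {S : Set ℂ} {f : ℕ → ℂ → ℂ} {g : ℂ → ℂ} {E : ℝ}
    (h : ∀ n, ∀ z ∈ S, ‖f n z - g z‖ ≤ E * (1 / 4) ^ n) : TendstoUniformlyOn f g atTop S := by
  rw [Metric.tendstoUniformlyOn_iff]
  intro ε hε
  have h1 : Tendsto (fun n : ℕ => E * (1 / 4 : ℝ) ^ n) atTop (𝓝 (E * 0)) :=
    (tendsto_pow_atTop_nhds_zero_of_lt_one (by norm_num) (by norm_num)).const_mul E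
  rw [mul_zero] at h1
  filter_upwards [h1.eventually (gt_mem_nhds hε)] with n hn z hz
  rw [dist_comm, dist_eq_norm]
  exact (h n z hz).trans_lt hn

theorem ck_sym {ι : Type} {wt0 wt1 : ι → ℝ → ℝ} {Cw σ0 K r T η κ : ℝ}
    {N : ℝ → (ι → ℂ → ℂ) → ι → ℂ → ℂ} (h : CKd wt0 wt1 Cw σ0 K r N T η κ) (π : ι → ι)
    (hs : ∀ t ∈ Icc 0 T, ∀ σ, 0 < σ → σ ≤ σ0 → ∀ V, Bd wt0 wt1 σ r V →
          Sym π σ V → Sym π σ (N t V)) (n : ℕ) :
    ∀ t ∈ Icc 0 T, ∀ σ, 0 < σ → σ + kap κ n * η * t < σ0 → Sym π σ (ckPic N η n t) := by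
  induction n with
  | zero =>
    intro t _ σ _ _ i z _
    simp [ckPic]
  | succ n ih =>
    intro t ht σ hσ hD i z hz
    have hD' := ck_dsucc h ht.1 hD
    change (η : ℂ) * (∫ τ in (0 : ℝ)..t, N τ (ckPic N η n τ) (π i) ((starRingEnd ℂ) z)) =
      (starRingEnd ℂ) ((η : ℂ) * ∫ τ in (0 : ℝ)..t, N τ (ckPic N η n τ) i z)
    rw [map_mul, Complex.conj_ofReal, ← intervalIntegral.intervalIntegral_conj]
    congr 1
    apply intervalIntegral.integral_congr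
    intro τ hτ
    rw [uIcc_of_le ht.1] at hτ
    have hDτ := ck_dom h hτ hD'
    have hτT : τ ∈ Icc 0 T := ⟨hτ.1, hτ.2.trans ht.2⟩
    exact hs τ hτT σ hσ (ck_sigma_le h ht.1 hD).le _ ((h.all n).br h hτT hσ hDτ) (ih τ hτT σ hσ hDτ) i z hz

theorem abstract_ck {ι : Type} (wt0 wt1 : ι → ℝ → ℝ) (Cw σ0 K r : ℝ)
    (hCw : 0 < Cw) (hσ0 : 0 < σ0) (hK : 0 < K) (hr : 0 < r)
    (hp0 : ∀ i σ, 0 < wt0 i σ) (hp1 : ∀ i σ, 0 < wt1 i σ)
    (hm0 : ∀ i σ' σ, 0 < σ' → σ' ≤ σ → σ ≤ σ0 → wt0 i σ ≤ wt0 i σ')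
    (hm1 : ∀ i σ' σ, 0 < σ' → σ' ≤ σ → σ ≤ σ0 → wt1 i σ ≤ wt1 i σ')
    (hloss : ∀ i σ' σ, 0 < σ' → σ' < σ → σ ≤ σ0 → wt1 i σ ≤ Cw / (σ - σ') * wt0 i σ') :
    ∃ C > 0, ∀ (N : ℝ → (ι → ℂ → ℂ) → ι → ℂ → ℂ) (T η : ℝ), 0 < T → 0 ≤ η → C * (η * T) ≤ 1 →
      (∀ t ∈ Icc 0 T, ∀ σ, 0 < σ → σ ≤ σ0 → ∀ U, Bd wt0 wt1 σ r U →
        (∀ i, DifferentiableOn ℂ (N t U i) (Str σ)) ∧
        ∀ i, ∀ z ∈ Str σ, ‖N t U i z‖ ≤ K * wt1 i σ) →
      (∀ t ∈ Icc 0 T, ∀ σ, 0 < σ → σ ≤ σ0 → ∀ U V D, 0 ≤ D → Bd wt0 wt1 σ r U →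
        Bd wt0 wt1 σ r V → Bd wt0 wt1 σ D (fun i z => U i z - V i z) →
        ∀ i, ∀ z ∈ Str σ, ‖N t U i z - N t V i z‖ ≤ K * D * wt1 i σ) →
      (∀ t ∈ Icc 0 T, ∀ s ∈ Icc 0 T, ∀ σ, 0 < σ → σ ≤ σ0 → ∀ U, Bd wt0 wt1 σ r U →
        ∀ i, ∀ z ∈ Str σ, ‖N t U i z - N s U i z‖ ≤ K * |t - s| * wt1 i σ) →
      ∃ U : ℝ → ι → ℂ → ℂ,
        (∀ t ∈ Icc 0 T, Bd wt0 wt1 (σ0 / 2) (r * (C * (η * T))) (U t)) ∧
        (∀ t ∈ Icc 0 T, ∀ s ∈ Icc 0 T,
          Bd wt0 wt1 (σ0 / 2) (C * η * |t - s|) (fun i z => U t i z - U s i z)) ∧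
        (∀ t ∈ Icc 0 T, ∀ i, ∀ z ∈ Str (σ0 / 2),
          U t i z = (η : ℂ) * ∫ τ in (0 : ℝ)..t, N τ (U τ) i z) ∧
        (∀ π : ι → ι, (∀ t ∈ Icc 0 T, ∀ σ, 0 < σ → σ ≤ σ0 → ∀ V, Bd wt0 wt1 σ r V →
          Sym π σ V → Sym π σ (N t V)) → ∀ t ∈ Icc 0 T, Sym π (σ0 / 2) (U t)) := by
  obtain ⟨κ, hκdef⟩ : ∃ κ, κ = (1 + Cw) * K * (16 + 4 / r) := ⟨_, rfl⟩
  obtain ⟨A, hAdef⟩ : ∃ A, A = (1 + Cw) * K * 8 / σ0 := ⟨_, rfl⟩
  have hκ : 0 < κ := by rw [hκdef]; positivity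
  have hA : 0 < A := by rw [hAdef]; positivity
  obtain ⟨C, hCdef⟩ : ∃ C, C = 16 * κ / σ0 + A / r + (1 + Cw) * K * 4 / σ0 := ⟨_, rfl⟩
  have hC : 0 < C := by rw [hCdef]; positivity
  refine ⟨C, hC, ?_⟩
  intro N T η hT hη hCT n1 n2 n3
  have h : CKd wt0 wt1 Cw σ0 K r N T η κ :=
    { hCw := hCw, hσ0 := hσ0, hK := hK, hr := hr, hp0 := hp0, hp1 := hp1, hm0 := hm0, hm1 := hm1,
      hloss := hloss, hT := hT, hη := hη, hκ := hκ
      hκ1 := by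
        rw [hκdef]
        have : 0 ≤ (1 + Cw) * K * (4 / r) := by positivity
        linarith
      hκ2 := by
        rw [hκdef]
        have h1 : r * ((1 + Cw) * K * (16 + 4 / r)) = 16 * r * ((1 + Cw) * K) + 4 * ((1 + Cw) * K) := by
          field_simp
        rw [h1]
        have : 0 ≤ 16 * r * ((1 + Cw) * K) := by positivity
        linarith
      n1 := n1, n2 := n2, n3 := n3 }
  have hηT : 0 ≤ η * T := mul_nonneg hη hT.le
  have hc1 : 16 * κ / σ0 ≤ C := by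
    rw [hCdef]
    have : 0 ≤ A / r := by positivity
    have : 0 ≤ (1 + Cw) * K * 4 / σ0 := by positivity
    linarith
  have hc2 : A / r ≤ C := by
    rw [hCdef]
    have : 0 ≤ 16 * κ / σ0 := by positivity
    have : 0 ≤ (1 + Cw) * K * 4 / σ0 := by positivity
    linarith
  have hc3 : (1 + Cw) * K * 4 / σ0 ≤ C := by
    rw [hCdef]
    have : 0 ≤ 16 * κ / σ0 := by positivity
    have : 0 ≤ A / r := by positivity
    linarith
  have hkT : 16 * κ * (η * T) ≤ σ0 := by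
    have h1 := (mul_le_mul_of_nonneg_right hc1 hηT).trans hCT
    rw [div_mul_eq_mul_div, div_le_one hσ0] at h1
    exact h1
  have hArC : A ≤ r * C := by
    rw [div_le_iff₀ hr] at hc2; linarith
  have hAT : A * (η * T) ≤ r * (C * (η * T)) := by
    have := mul_le_mul_of_nonneg_right hArC hηT
    linarith
  have hrC : r * (C * (η * T)) ≤ r := by
    have := mul_le_mul_of_nonneg_left hCT hr.le
    linarith
  have hdom : ∀ n : ℕ, ∀ t ∈ Icc 0 T, kap κ n * η * t ≤ σ0 / 8 := by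
    intro n t ht
    have h1 : η * t ≤ η * T := mul_le_mul_of_nonneg_left ht.2 hη
    have h2 : 0 ≤ η * t := mul_nonneg hη ht.1
    have h3 : kap κ n * (η * t) ≤ (2 * κ) * (η * t) := mul_le_mul_of_nonneg_right (kap_le hκ n) h2
    have h4 : (2 * κ) * (η * t) ≤ (2 * κ) * (η * T) := mul_le_mul_of_nonneg_left h1 (by positivity)
    have h5 : kap κ n * η * t = kap κ n * (η * t) := by ring
    rw [h5]; linarith
  have hhalf : 0 < σ0 / 2 := by positivity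
  have hhalf0 : σ0 / 2 ≤ σ0 := by linarith
  -- bounds for the iterates
  have hdiff : ∀ n k : ℕ, ∀ t ∈ Icc 0 T,
      Bd wt0 wt1 (σ0 / 2) (A * (η * t) * ((1 / 4) ^ n - (1 / 4) ^ (n + k)))
        (fun i z => ckPic N η (n + k) t i z - ckPic N η n t i z) := by
    intro n k t ht
    induction k with
    | zero =>
      refine ck_congr (u := fun _ _ => (0 : ℂ)) ?_ (ck_zero hp0 hp1 (by simp))
      intro i z _
      simp
    | succ k ih =>
      have hk := hdom (n + k) t ht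
      have e := ck_add ih ((h.all (n + k)).d t ht (σ0 / 2) hhalf (by linarith))
      refine ck_congr (u := fun i z => (ckPic N η (n + k) t i z - ckPic N η n t i z) +
        (ckPic N η (n + k + 1) t i z - ckPic N η (n + k) t i z)) ?_ (ck_monoM hp0 hp1 ?_ e)
      · intro i z _
        rw [← add_assoc]; ring
      · have hηt : 0 ≤ η * t := mul_nonneg hη ht.1
        have h1 : (1 + Cw) * K * (1 / 4) ^ (n + k) * (η * t) / (σ0 - σ0 / 2 - kap κ (n + k) * η * t) ≤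
            (1 + Cw) * K * (1 / 4) ^ (n + k) * (η * t) / (σ0 / 4) :=
          div_le_div_of_nonneg_left (by positivity) (by positivity) (by linarith)
        have h2 : (1 + Cw) * K * (1 / 4) ^ (n + k) * (η * t) / (σ0 / 4) =
            A * (η * t) * ((1 / 2) * (1 / 4) ^ (n + k)) := by
          rw [hAdef]; field_simp; ring
        have h3 : 0 ≤ A * (η * t) * (1 / 4) ^ (n + k) := by positivity
        have h4 : ((1 : ℝ) / 4) ^ (n + (k + 1)) = (1 / 4) ^ (n + k) * (1 / 4) := by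
          rw [← add_assoc, pow_succ]
        rw [h4]
        nlinarith
  -- the limit
  have hgeo : ∀ n : ℕ, ∀ t ∈ Icc 0 T, ∀ i, ∀ z ∈ Str (σ0 / 2), ∀ k : ℕ,
      ‖ckPic N η (n + k) t i z - ckPic N η n t i z‖ ≤ A * (η * T) * wt0 i (σ0 / 2) * (1 / 4) ^ n := by
    intro n t ht i z hz k
    refine ((hdiff n k t ht).2.1 i z hz).trans ?_
    have q1 : (0 : ℝ) ≤ (1 / 4) ^ (n + k) := by positivity
    have q2 : (0 : ℝ) ≤ (1 / 4) ^ n := by positivity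
    have q3 : ((1 : ℝ) / 4) ^ n - (1 / 4) ^ (n + k) ≤ (1 / 4) ^ n := by linarith
    have hηt : 0 ≤ η * t := mul_nonneg hη ht.1
    have q4 : A * (η * t) ≤ A * (η * T) := mul_le_mul_of_nonneg_left (mul_le_mul_of_nonneg_left ht.2 hη) hA.le
    have q5 : A * (η * t) * ((1 / 4) ^ n - (1 / 4) ^ (n + k)) ≤ A * (η * T) * (1 / 4) ^ n :=
      (mul_le_mul_of_nonneg_left q3 (by positivity)).trans (mul_le_mul_of_nonneg_right q4 q2)
    have := mul_le_mul_of_nonneg_right q5 (hp0 i (σ0 / 2)).le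
    linarith
  have hex : ∀ t i z, ∃ a, t ∈ Icc 0 T → z ∈ Str (σ0 / 2) →
      Tendsto (fun n => ckPic N η n t i z) atTop (𝓝 a) := by
    intro t i z
    by_cases hc : t ∈ Icc 0 T ∧ z ∈ Str (σ0 / 2)
    · have : CauchySeq (fun n => ckPic N η n t i z) := by
        apply cauchySeq_of_le_geometric (1 / 4) (A * (η * T) * wt0 i (σ0 / 2)) (by norm_num)
        intro n
        rw [dist_comm, dist_eq_norm]
        exact hgeo n t hc.1 i z hc.2 1
      obtain ⟨a, ha⟩ := cauchySeq_tendsto_of_complete this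
      exact ⟨a, fun _ _ => ha⟩
    · exact ⟨0, fun h1 h2 => absurd ⟨h1, h2⟩ hc⟩
  choose U hU using hex
  have hUn : ∀ n : ℕ, ∀ t ∈ Icc 0 T, ∀ i, ∀ z ∈ Str (σ0 / 2),
      ‖ckPic N η n t i z - U t i z‖ ≤ A * (η * T) * wt0 i (σ0 / 2) * (1 / 4) ^ n := by
    intro n t ht i z hz
    have h1 : Tendsto (fun k => ckPic N η (n + k) t i z) atTop (𝓝 (U t i z)) := by
      have := (hU t i z ht hz).comp (tendsto_add_atTop_nat n)
      refine this.congr (fun k => ?_)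
      simp only [Function.comp_apply, add_comm]
    have h2 := (h1.sub_const (ckPic N η n t i z)).norm
    rw [norm_sub_rev]
    exact le_of_tendsto h2 (Eventually.of_forall (fun k => hgeo n t ht i z hz k))
  -- `U t - U_n t`
  have hUd : ∀ n : ℕ, ∀ t ∈ Icc 0 T, Bd wt0 wt1 (σ0 / 2) (A * (η * T) * (1 / 4) ^ n)
      (fun i z => U t i z - ckPic N η n t i z) := by
    intro n t ht
    apply ck_lim (V := fun k i z => ckPic N η (n + k) t i z - ckPic N η n t i z)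
    · intro k
      apply ck_monoM hp0 hp1 _ (hdiff n k t ht)
      have q1 : (0 : ℝ) ≤ (1 / 4) ^ (n + k) := by positivity
      have q2 : (0 : ℝ) ≤ (1 / 4) ^ n := by positivity
      have q3 : ((1 : ℝ) / 4) ^ n - (1 / 4) ^ (n + k) ≤ (1 / 4) ^ n := by linarith
      have hηt : 0 ≤ η * t := mul_nonneg hη ht.1
      have q4 : A * (η * t) ≤ A * (η * T) := mul_le_mul_of_nonneg_left (mul_le_mul_of_nonneg_left ht.2 hη) hA.le
      exact (mul_le_mul_of_nonneg_left q3 (by positivity)).trans (mul_le_mul_of_nonneg_right q4 q2)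
    · intro i
      apply ck_unif (E := A * (η * T) * wt0 i (σ0 / 2))
      intro k z hz
      have h1 := hUn (n + k) t ht i z hz
      have h2 : ckPic N η (n + k) t i z - ckPic N η n t i z - (U t i z - ckPic N η n t i z) =
        ckPic N η (n + k) t i z - U t i z := by ring
      rw [h2]
      refine h1.trans (mul_le_mul_of_nonneg_left ?_ (mul_nonneg (by positivity) (hp0 i _).le))
      rw [pow_add]
      have q1 : (0 : ℝ) ≤ (1 / 4) ^ k := by positivity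
      have q2 : ((1 : ℝ) / 4) ^ n ≤ 1 := pow_le_one₀ (by norm_num) (by norm_num)
      nlinarith
  have hUa : ∀ t ∈ Icc 0 T, Bd wt0 wt1 (σ0 / 2) (A * (η * T)) (U t) := by
    intro t ht
    have := hUd 0 t ht
    rw [pow_zero, mul_one] at this
    refine ck_congr ?_ this
    intro i z _
    simp [ckPic]
  have hUr : ∀ t ∈ Icc 0 T, Bd wt0 wt1 (σ0 / 2) r (U t) := fun t ht =>
    ck_monoM hp0 hp1 (hAT.trans hrC) (hUa t ht)
  have hpr : ∀ n, ∀ t ∈ Icc 0 T, Bd wt0 wt1 (σ0 / 2) r (ckPic N η n t) := by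
    intro n t ht
    have := hdom n t ht
    exact (h.all n).br h ht hhalf (by linarith)
  have hpr' : ∀ n, ∀ t ∈ Icc 0 T, Bd wt0 wt1 (3 * σ0 / 4) r (ckPic N η n t) := by
    intro n t ht
    have := hdom n t ht
    exact (h.all n).br h ht (by positivity) (by linarith)
  have hTT : T ∈ Icc 0 T := ⟨hT.le, le_rfl⟩
  have hplip : ∀ n, ∀ t ∈ Icc 0 T, ∀ s ∈ Icc 0 T,
      Bd wt0 wt1 (σ0 / 2) (C * η * |t - s|) (fun i z => ckPic N η n t i z - ckPic N η n s i z) := by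
    intro n t ht s hs
    cases n with
    | zero =>
      refine ck_congr (u := fun _ _ => (0 : ℂ)) ?_ (ck_zero hp0 hp1 (by positivity))
      intro i z _
      simp [ckPic]
    | succ n =>
      have hk := hdom n T hTT
      have e := h.lipInt hTT hhalf (s := 3 * σ0 / 4) (by linarith) (by linarith) (V := ckPic N η n)
        (fun τ hτ => hpr' n τ hτ)
        (fun i z hz => (h.all n).cont h hTT hhalf (by linarith) i hz) t ht s hs
      refine ck_monoM hp0 hp1 ?_ e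
      apply mul_le_mul_of_nonneg_right _ (abs_nonneg _)
      have h1 : (1 + Cw) * (η * (K / (3 * σ0 / 4 - σ0 / 2))) = (1 + Cw) * K * 4 / σ0 * η := by
        have : 3 * σ0 / 4 - σ0 / 2 = σ0 / 4 := by ring
        rw [this]; field_simp
      rw [h1]
      exact mul_le_mul_of_nonneg_right hc3 hη
  have hUlip : ∀ t ∈ Icc 0 T, ∀ s ∈ Icc 0 T,
      Bd wt0 wt1 (σ0 / 2) (C * η * |t - s|) (fun i z => U t i z - U s i z) := by
    intro t ht s hs
    apply ck_lim (V := fun n i z => ckPic N η n t i z - ckPic N η n s i z)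
    · intro n; exact hplip n t ht s hs
    · intro i
      apply ck_unif (E := A * (η * T) * wt0 i (σ0 / 2) + A * (η * T) * wt0 i (σ0 / 2))
      intro n z hz
      have h2 : ckPic N η n t i z - ckPic N η n s i z - (U t i z - U s i z) =
        (ckPic N η n t i z - U t i z) - (ckPic N η n s i z - U s i z) := by ring
      rw [h2, add_mul]
      exact (norm_sub_le _ _).trans (add_le_add (hUn n t ht i z hz) (hUn n s hs i z hz))
  have hCη : 0 ≤ C * η := mul_nonneg hC.le hη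
  refine ⟨U, fun t ht => ck_monoM hp0 hp1 hAT (hUa t ht), hUlip, ?_, ?_⟩
  · intro t ht i z hz
    have hsub : ∀ τ ∈ Icc 0 t, τ ∈ Icc 0 T := fun τ hτ => ⟨hτ.1, hτ.2.trans ht.2⟩
    have c1 : ContinuousOn (fun τ => N τ (U τ) i z) (Icc 0 t) :=
      h.cont ht hhalf hhalf0 hCη (fun τ hτ => hUr τ (hsub τ hτ))
        (fun τ1 h1 τ2 h2 => hUlip τ1 (hsub τ1 h1) τ2 (hsub τ2 h2)) i hz
    have c2 : ∀ n, ContinuousOn (fun τ => N τ (ckPic N η n τ) i z) (Icc 0 t) := fun n =>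
      h.cont ht hhalf hhalf0 hCη (fun τ hτ => hpr n τ (hsub τ hτ))
        (fun τ1 h1 τ2 h2 => hplip n τ1 (hsub τ1 h1) τ2 (hsub τ2 h2)) i hz
    have i1 : IntervalIntegrable (fun τ => N τ (U τ) i z) volume 0 t := by
      apply ContinuousOn.intervalIntegrable; rw [uIcc_of_le ht.1]; exact c1
    have i2 : ∀ n, IntervalIntegrable (fun τ => N τ (ckPic N η n τ) i z) volume 0 t := by
      intro n; apply ContinuousOn.intervalIntegrable; rw [uIcc_of_le ht.1]; exact c2 n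
    have t1 : Tendsto (fun n => ckPic N η (n + 1) t i z) atTop (𝓝 (U t i z)) :=
      (hU t i z ht hz).comp (tendsto_add_atTop_nat 1)
    have t2 : Tendsto (fun n => ckPic N η (n + 1) t i z) atTop
        (𝓝 ((η : ℂ) * ∫ τ in (0 : ℝ)..t, N τ (U τ) i z)) := by
      rw [tendsto_iff_norm_sub_tendsto_zero]
      have hlim : Tendsto (fun n : ℕ => η * (K * (A * (η * T) * (1 / 4) ^ n) * wt1 i (σ0 / 2) * |t - 0|))
          atTop (𝓝 0) := by
        have h1 : Tendsto (fun n : ℕ => (1 / 4 : ℝ) ^ n) atTop (𝓝 0) :=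
          tendsto_pow_atTop_nhds_zero_of_lt_one (by norm_num) (by norm_num)
        have h2 := ((((h1.const_mul (A * (η * T))).const_mul K).mul_const (wt1 i (σ0 / 2))).mul_const
          |t - 0|).const_mul η
        simpa using h2
      refine squeeze_zero (fun n => norm_nonneg _) (fun n => ?_) hlim
      change ‖(η : ℂ) * (∫ τ in (0 : ℝ)..t, N τ (ckPic N η n τ) i z) -
        (η : ℂ) * ∫ τ in (0 : ℝ)..t, N τ (U τ) i z‖ ≤ _
      rw [← mul_sub, ← intervalIntegral.integral_sub (i2 n) i1, norm_mul, Complex.norm_real,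
        Real.norm_of_nonneg hη]
      apply mul_le_mul_of_nonneg_left _ hη
      apply intervalIntegral.norm_integral_le_of_norm_le_const
      intro τ hτ
      rw [uIoc_of_le ht.1] at hτ
      have hτ' : τ ∈ Icc 0 T := hsub τ (Ioc_subset_Icc_self hτ)
      exact n2 τ hτ' (σ0 / 2) hhalf hhalf0 _ _ _ (by positivity) (hpr n τ hτ') (hUr τ hτ')
        (ck_neg_sub (hUd n τ hτ')) i z hz
    exact tendsto_nhds_unique t1 t2
  · intro π hs t ht i z hz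
    have hz' : (starRingEnd ℂ) z ∈ Str (σ0 / 2) := by
      change |((starRingEnd ℂ) z).im| < σ0 / 2
      rw [Complex.conj_im, abs_neg]; exact hz
    have t1 := hU t (π i) _ ht hz'
    have t2 := (Complex.continuous_conj.tendsto _).comp (hU t i z ht hz)
    refine tendsto_nhds_unique t1 (t2.congr (fun n => ?_))
    have := hdom n t ht
    exact (ck_sym h π hs n t ht (σ0 / 2) hhalf (by linarith) i z hz).symm

end JA

end Pool.Agent.Helper383.NI
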