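import Pool.Agent.Helper383.NI.Defs

open Complex MeasureTheory Set Filter Topology

namespace Pool.Agent.Helper383.NI


namespace JB1

theorem b1_isOpen (σ : ℝ) : IsOpen (Str σ) := by
  have : Str σ = (fun z : ℂ => |z.im|) ⁻¹' Iio σ := rfl
  rw [this]
  exact isOpen_Iio.preimage (continuous_abs.comp Complex.continuous_im)

theorem b1_mem {σ : ℝ} {x : ℂ} (hx : x ∈ Str σ) (r : ℝ) : x + (r : ℂ) ∈ Str σ := by
  have h : |x.im| < σ := hx
  change |(x + (r : ℂ)).im| < σ
  rw [Complex.add_im, Complex.ofReal_im, add_zero]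
  exact h

theorem b1_cont {σ : ℝ} {g : ℂ → ℂ} (hg : ContinuousOn g (Str σ)) {x : ℂ} (hx : x ∈ Str σ)
    (φ : ℝ → ℝ) (hφ : Continuous φ) : Continuous fun y : ℝ => g (x + ((φ y : ℝ) : ℂ)) :=
  hg.comp_continuous (continuous_const.add (Complex.continuous_ofReal.comp hφ))
    fun y => b1_mem hx _

theorem b1_intexp (a : ℝ) (ha : 0 < a) : IntegrableOn (fun y : ℝ => Real.exp (-(a * y))) (Ioi 0) ∧
    ∫ y in Ioi (0 : ℝ), Real.exp (-(a * y)) = 1 / a := by
  constructor
  · have := exp_neg_integrableOn_Ioi 0 ha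
    simpa only [neg_mul] using this
  · have := integral_exp_mul_Ioi (a := -a) (by linarith) 0
    simp only [neg_mul, mul_zero, Real.exp_zero] at this
    rw [this]
    simp

theorem b1_intyexp (a : ℝ) (ha : 0 < a) :
    IntegrableOn (fun y : ℝ => y * Real.exp (-(a * y))) (Ioi 0) ∧
    ∫ y in Ioi (0 : ℝ), y * Real.exp (-(a * y)) = 1 / a ^ 2 := by
  constructor
  · have := integrableOn_rpow_mul_exp_neg_mul_rpow (p := 1) (s := 1) (b := a) (by norm_num)
      one_pos ha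
    simpa only [Real.rpow_one, neg_mul] using this
  · have := Real.integral_rpow_mul_exp_neg_mul_Ioi (a := 2) (r := a) (by norm_num) ha
    rw [Real.Gamma_two, mul_one] at this
    have e : ∀ t : ℝ, t ^ ((2 : ℝ) - 1) = t := by
      intro t
      norm_num
    simp only [e] at this
    rw [this]
    norm_num

theorem Qop_basic (n ς τ σ B M M' : ℝ) (β f : ℂ → ℂ) (hn : 40 ≤ n) (hς : ς = 1 ∨ ς = -1)
    (hτ : τ = 1 ∨ τ = -1) (hσ : 0 < σ) (hB : 0 ≤ B) (hM : 0 ≤ M) (hM' : 0 ≤ M')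
    (hβ : DifferentiableOn ℂ β (Str σ)) (hβ0 : ∀ z ∈ Str σ, ‖β z‖ ≤ B)
    (hβi : ∀ z ∈ Str σ, |(β z).im| ≤ 1 / 2) (hβ1 : ∀ z ∈ Str σ, ‖deriv β z‖ ≤ B)
    (hf : DifferentiableOn ℂ f (Str σ))
    (hf0 : ∀ z ∈ Str σ, ‖f z‖ ≤ M * Real.exp (-(5 * |z.re|)))
    (hf1 : ∀ z ∈ Str σ, ‖deriv f z‖ ≤ M' * Real.exp (-(5 * |z.re|))) :
    DifferentiableOn ℂ (Qop n ς τ β f) (Str σ) ∧
    (∀ z ∈ Str σ, ‖Qop n ς τ β f z‖ ≤ 4 * M * Real.exp (-(5 * |z.re|))) ∧
    (∀ z ∈ Str σ, deriv (Qop n ς τ β f) z =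
      ∫ y in Ioi (0 : ℝ), Complex.exp (((-y + 2 * ς * y / n : ℝ) : ℂ)
        - I * ((ς * τ : ℝ) : ℂ) * ∫ s in (0 : ℝ)..y, β (z + ((ς * s / n : ℝ) : ℂ)))
        * (deriv f (z + ((ς * y / n : ℝ) : ℂ)) - I * ((ς * τ : ℝ) : ℂ)
          * (∫ s in (0 : ℝ)..y, deriv β (z + ((ς * s / n : ℝ) : ℂ)))
          * f (z + ((ς * y / n : ℝ) : ℂ)))) ∧
    (∀ z ∈ Str σ, ‖deriv (Qop n ς τ β f) z‖ ≤ (4 * M' + 10 * B * M) * Real.exp (-(5 * |z.re|))) := by
  have hn0 : 0 < n := by linarith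
  have hς2 : |ς| = 1 := by rcases hς with h | h <;> simp [h]
  have hτ2 : |τ| = 1 := by rcases hτ with h | h <;> simp [h]
  have hopen := b1_isOpen σ
  have hβc : ContinuousOn β (Str σ) := hβ.continuousOn
  have hfc : ContinuousOn f (Str σ) := hf.continuousOn
  have hβ'c : ContinuousOn (deriv β) (Str σ) := (hβ.deriv hopen).continuousOn
  have hf'c : ContinuousOn (deriv f) (Str σ) := (hf.deriv hopen).continuousOn
  have hφ : Continuous fun y : ℝ => ς * y / n := by fun_prop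
  set J : ℂ → ℝ → ℂ := fun x y => ∫ s in (0 : ℝ)..y, β (x + ((ς * s / n : ℝ) : ℂ)) with hJ
  set J1 : ℂ → ℝ → ℂ := fun x y => ∫ s in (0 : ℝ)..y, deriv β (x + ((ς * s / n : ℝ) : ℂ)) with hJ1
  have hJc : ∀ x ∈ Str σ, Continuous (J x) := fun x hx =>
    intervalIntegral.continuous_primitive
      (fun a b => (b1_cont hβc hx _ hφ).intervalIntegrable a b) 0
  have hJ1c : ∀ x ∈ Str σ, Continuous (J1 x) := fun x hx =>
    intervalIntegral.continuous_primitive
      (fun a b => (b1_cont hβ'c hx _ hφ).intervalIntegrable a b) 0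
  have hJim : ∀ x ∈ Str σ, ∀ y : ℝ, 0 ≤ y → |(J x y).im| ≤ y / 2 := by
    intro x hx y hy
    have h1 : (J x y).im = ∫ s in (0 : ℝ)..y, (β (x + ((ς * s / n : ℝ) : ℂ))).im := by
      have := Complex.imCLM.intervalIntegral_comp_comm
        ((b1_cont hβc hx _ hφ).intervalIntegrable (μ := volume) 0 y)
      exact this.symm
    rw [h1, ← Real.norm_eq_abs]
    have := intervalIntegral.norm_integral_le_of_norm_le_const (a := 0) (b := y) (C := 1 / 2)
      (f := fun s : ℝ => (β (x + ((ς * s / n : ℝ) : ℂ))).im)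
      (fun s _ => by rw [Real.norm_eq_abs]; exact hβi _ (b1_mem hx _))
    rw [sub_zero, abs_of_nonneg hy] at this
    linarith
  have hJ1n : ∀ x ∈ Str σ, ∀ y : ℝ, 0 ≤ y → ‖J1 x y‖ ≤ B * y := by
    intro x hx y hy
    have := intervalIntegral.norm_integral_le_of_norm_le_const (a := 0) (b := y) (C := B)
      (f := fun s : ℝ => deriv β (x + ((ς * s / n : ℝ) : ℂ)))
      (fun s _ => hβ1 _ (b1_mem hx _))
    rw [sub_zero, abs_of_nonneg hy] at this
    exact this
  have hshift : ∀ (g : ℂ → ℂ), DifferentiableOn ℂ g (Str σ) → ∀ x ∈ Str σ, ∀ r : ℝ,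
      HasDerivAt (fun x : ℂ => g (x + (r : ℂ))) (deriv g (x + (r : ℂ))) x := by
    intro g hg x hx r
    have h1 : HasDerivAt g (deriv g (x + (r : ℂ))) (x + (r : ℂ)) :=
      (hg.differentiableAt (hopen.mem_nhds (b1_mem hx r))).hasDerivAt
    exact h1.comp_add_const x (r : ℂ)
  have hJd : ∀ x ∈ Str σ, ∀ y : ℝ, HasDerivAt (fun x => J x y) (J1 x y) x := by
    intro x hx y
    refine (intervalIntegral.hasDerivAt_integral_of_dominated_loc_of_deriv_le
      (F := fun (x : ℂ) (s : ℝ) => β (x + ((ς * s / n : ℝ) : ℂ)))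
      (F' := fun (x : ℂ) (s : ℝ) => deriv β (x + ((ς * s / n : ℝ) : ℂ)))
      (bound := fun _ => B) (s := Str σ) (hopen.mem_nhds hx) ?_ ?_ ?_ ?_ ?_ ?_).2
    · filter_upwards [hopen.mem_nhds hx] with x' hx'
      exact (b1_cont hβc hx' _ hφ).aestronglyMeasurable
    · exact (b1_cont hβc hx _ hφ).intervalIntegrable 0 y
    · exact (b1_cont hβ'c hx _ hφ).aestronglyMeasurable
    · exact Filter.Eventually.of_forall fun t _ x' hx' => hβ1 _ (b1_mem hx' _)
    · exact intervalIntegrable_const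
    · exact Filter.Eventually.of_forall fun t _ x' hx' => hshift β hβ x' hx' _
  -- the exponential
  set E : ℂ → ℝ → ℂ := fun x y => Complex.exp (((-y + 2 * ς * y / n : ℝ) : ℂ)
      - I * ((ς * τ : ℝ) : ℂ) * J x y) with hE
  have hEn : ∀ x ∈ Str σ, ∀ y : ℝ, 0 ≤ y → ‖E x y‖ ≤ Real.exp (-y + 2 * y / n + y / 2) := by
    intro x hx y hy
    rw [hE]
    simp only [Complex.norm_exp]
    refine Real.exp_le_exp.2 ?_
    have h1 : (((-y + 2 * ς * y / n : ℝ) : ℂ) - I * ((ς * τ : ℝ) : ℂ) * J x y).re =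
        -y + 2 * ς * y / n + ς * τ * (J x y).im := by
      simp only [Complex.sub_re, Complex.ofReal_re, Complex.mul_re, Complex.I_re, Complex.I_im,
        Complex.ofReal_im, Complex.mul_im]
      ring
    rw [h1]
    have h2 : 2 * ς * y / n ≤ 2 * y / n := by
      have : ς ≤ 1 := le_trans (le_abs_self ς) hς2.le
      apply div_le_div_of_nonneg_right _ hn0.le
      nlinarith
    have h3 : ς * τ * (J x y).im ≤ y / 2 := by
      calc ς * τ * (J x y).im ≤ |ς * τ * (J x y).im| := le_abs_self _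
        _ = |(J x y).im| := by rw [abs_mul, abs_mul, hς2, hτ2]; ring
        _ ≤ y / 2 := hJim x hx y hy
    linarith
  have hEc : ∀ x ∈ Str σ, Continuous (E x) := by
    intro x hx
    have := hJc x hx
    rw [hE]
    dsimp only
    refine Complex.continuous_exp.comp ((Complex.continuous_ofReal.comp ?_).sub
      (continuous_const.mul this))
    fun_prop
  have hEd : ∀ x ∈ Str σ, ∀ y : ℝ, HasDerivAt (fun x => E x y)
      (E x y * (-(I * ((ς * τ : ℝ) : ℂ) * J1 x y))) x := by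
    intro x hx y
    have h1 := ((hJd x hx y).const_mul (I * ((ς * τ : ℝ) : ℂ))).const_sub
      (((-y + 2 * ς * y / n : ℝ) : ℂ))
    exact h1.cexp
  set F : ℂ → ℝ → ℂ := fun x y => E x y * f (x + ((ς * y / n : ℝ) : ℂ)) with hF
  set F' : ℂ → ℝ → ℂ := fun x y => E x y * (deriv f (x + ((ς * y / n : ℝ) : ℂ)) -
      I * ((ς * τ : ℝ) : ℂ) * J1 x y * f (x + ((ς * y / n : ℝ) : ℂ))) with hF'
  have hQ : Qop n ς τ β f = fun x => ∫ y in Ioi (0 : ℝ), F x y := rfl
  have hFd : ∀ x ∈ Str σ, ∀ y : ℝ, HasDerivAt (fun x => F x y) (F' x y) x := by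
    intro x hx y
    have h1 := (hEd x hx y).mul (hshift f hf x hx (ς * y / n))
    refine h1.congr_deriv ?_
    simp only [hF']
    ring
  have hFc : ∀ x ∈ Str σ, Continuous (F x) := fun x hx =>
    (hEc x hx).mul (b1_cont hfc hx _ hφ)
  have hF'c : ∀ x ∈ Str σ, Continuous (F' x) := fun x hx =>
    (hEc x hx).mul ((b1_cont hf'c hx _ hφ).sub ((continuous_const.mul (hJ1c x hx)).mul
      (b1_cont hfc hx _ hφ)))
  -- sharp bounds
  have hexp : ∀ x : ℂ, ∀ y : ℝ, 0 ≤ y →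
      Real.exp (-y + 2 * y / n + y / 2) * Real.exp (-(5 * |(x + ((ς * y / n : ℝ) : ℂ)).re|)) ≤
        Real.exp (-(5 * |x.re|)) * Real.exp (-(13 / 40 * y)) := by
    intro x y hy
    rw [← Real.exp_add, ← Real.exp_add]
    refine Real.exp_le_exp.2 ?_
    have h1 : (x + ((ς * y / n : ℝ) : ℂ)).re = x.re + ς * y / n := by simp
    have h2 : |x.re| ≤ |x.re + ς * y / n| + y / n := by
      have : |ς * y / n| = y / n := by
        rw [abs_div, abs_mul, hς2, abs_of_nonneg hy, abs_of_pos hn0, one_mul]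
      calc |x.re| = |(x.re + ς * y / n) - ς * y / n| := by congr 1; ring
        _ ≤ |x.re + ς * y / n| + |ς * y / n| := abs_sub _ _
        _ = _ := by rw [this]
    have h3 : y / n ≤ y / 40 := by
      apply div_le_div_of_nonneg_left hy (by norm_num) hn
    have h4 : 2 * y / n = 2 * (y / n) := by ring
    rw [h1, h4]
    linarith
  have hFn : ∀ x ∈ Str σ, ∀ y : ℝ, 0 ≤ y → ‖F x y‖ ≤
      M * Real.exp (-(5 * |x.re|)) * Real.exp (-(13 / 40 * y)) := by
    intro x hx y hy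
    calc ‖F x y‖ = ‖E x y‖ * ‖f (x + ((ς * y / n : ℝ) : ℂ))‖ := norm_mul _ _
      _ ≤ Real.exp (-y + 2 * y / n + y / 2) *
          (M * Real.exp (-(5 * |(x + ((ς * y / n : ℝ) : ℂ)).re|))) :=
        mul_le_mul (hEn x hx y hy) (hf0 _ (b1_mem hx _)) (norm_nonneg _) (Real.exp_pos _).le
      _ = M * (Real.exp (-y + 2 * y / n + y / 2) *
          Real.exp (-(5 * |(x + ((ς * y / n : ℝ) : ℂ)).re|))) := by ring
      _ ≤ M * (Real.exp (-(5 * |x.re|)) * Real.exp (-(13 / 40 * y))) :=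
        mul_le_mul_of_nonneg_left (hexp x y hy) hM
      _ = _ := by ring
  have hF'n : ∀ x ∈ Str σ, ∀ y : ℝ, 0 ≤ y → ‖F' x y‖ ≤
      Real.exp (-(5 * |x.re|)) * (M' * Real.exp (-(13 / 40 * y)) +
        B * M * (y * Real.exp (-(13 / 40 * y)))) := by
    intro x hx y hy
    have hin : ‖deriv f (x + ((ς * y / n : ℝ) : ℂ)) -
      I * ((ς * τ : ℝ) : ℂ) * J1 x y * f (x + ((ς * y / n : ℝ) : ℂ))‖ ≤
        (M' + B * y * M) * Real.exp (-(5 * |(x + ((ς * y / n : ℝ) : ℂ)).re|)) := by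
      refine (norm_sub_le _ _).trans ?_
      have a1 := hf1 _ (b1_mem hx (ς * y / n))
      have a2 : ‖I * ((ς * τ : ℝ) : ℂ) * J1 x y * f (x + ((ς * y / n : ℝ) : ℂ))‖ ≤
          B * y * (M * Real.exp (-(5 * |(x + ((ς * y / n : ℝ) : ℂ)).re|))) := by
        rw [norm_mul, norm_mul, norm_mul, Complex.norm_I, one_mul, Complex.norm_real,
          Real.norm_eq_abs, abs_mul, hς2, hτ2, one_mul, one_mul]
        exact mul_le_mul (hJ1n x hx y hy) (hf0 _ (b1_mem hx _)) (norm_nonneg _)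
          (mul_nonneg hB hy)
      linarith
    calc ‖F' x y‖ = ‖E x y‖ * ‖deriv f (x + ((ς * y / n : ℝ) : ℂ)) -
      I * ((ς * τ : ℝ) : ℂ) * J1 x y * f (x + ((ς * y / n : ℝ) : ℂ))‖ := norm_mul _ _
      _ ≤ Real.exp (-y + 2 * y / n + y / 2) * ((M' + B * y * M) *
          Real.exp (-(5 * |(x + ((ς * y / n : ℝ) : ℂ)).re|))) :=
        mul_le_mul (hEn x hx y hy) hin (norm_nonneg _) (Real.exp_pos _).le
      _ = (M' + B * y * M) * (Real.exp (-y + 2 * y / n + y / 2) *
          Real.exp (-(5 * |(x + ((ς * y / n : ℝ) : ℂ)).re|))) := by ring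
      _ ≤ (M' + B * y * M) * (Real.exp (-(5 * |x.re|)) * Real.exp (-(13 / 40 * y))) :=
        mul_le_mul_of_nonneg_left (hexp x y hy)
          (add_nonneg hM' (mul_nonneg (mul_nonneg hB hy) hM))
      _ = _ := by ring
  have ha : (0 : ℝ) < 13 / 40 := by norm_num
  obtain ⟨i1, i2⟩ := b1_intexp (13 / 40) ha
  obtain ⟨i3, i4⟩ := b1_intyexp (13 / 40) ha
  have hbdi : Integrable (fun y : ℝ => M' * Real.exp (-(13 / 40 * y)) +
        B * M * (y * Real.exp (-(13 / 40 * y)))) (volume.restrict (Ioi 0)) :=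
    (i1.const_mul M').add (i3.const_mul (B * M))
  have hFint : ∀ x ∈ Str σ, Integrable (F x) (volume.restrict (Ioi 0)) := by
    intro x hx
    refine Integrable.mono' (i1.const_mul (M * Real.exp (-(5 * |x.re|))))
      (hFc x hx).aestronglyMeasurable ?_
    filter_upwards [ae_restrict_mem measurableSet_Ioi] with y hy
    exact hFn x hx y (le_of_lt hy)
  have hexp1 : ∀ x : ℂ, Real.exp (-(5 * |x.re|)) ≤ 1 := by
    intro x
    rw [Real.exp_le_one_iff]
    have := abs_nonneg x.re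
    linarith
  have key : ∀ x ∈ Str σ, HasDerivAt (Qop n ς τ β f) (∫ y in Ioi (0 : ℝ), F' x y) x := by
    intro x hx
    rw [hQ]
    refine (hasDerivAt_integral_of_dominated_loc_of_deriv_le (μ := volume.restrict (Ioi (0 : ℝ)))
      (F := F) (F' := F') (s := Str σ) (bound := fun y : ℝ => M' * Real.exp (-(13 / 40 * y)) +
        B * M * (y * Real.exp (-(13 / 40 * y)))) (hopen.mem_nhds hx) ?_ (hFint x hx) ?_ ?_
      hbdi ?_).2
    · filter_upwards [hopen.mem_nhds hx] with x' hx'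
      exact (hFc x' hx').aestronglyMeasurable
    · exact (hF'c x hx).aestronglyMeasurable
    · filter_upwards [ae_restrict_mem measurableSet_Ioi] with y hy x' hx'
      have hy' : (0 : ℝ) ≤ y := le_of_lt hy
      refine (hF'n x' hx' y hy').trans ?_
      have hnn : 0 ≤ M' * Real.exp (-(13 / 40 * y)) +
        B * M * (y * Real.exp (-(13 / 40 * y))) := by positivity
      have := mul_le_mul_of_nonneg_right (hexp1 x') hnn
      linarith
    · exact Filter.Eventually.of_forall fun y x' hx' => hFd x' hx' y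
  refine ⟨fun x hx => (key x hx).differentiableAt.differentiableWithinAt, ?_,
    fun x hx => (key x hx).deriv, ?_⟩
  · intro x hx
    rw [hQ]
    dsimp only
    have h1 : ‖∫ y in Ioi (0 : ℝ), F x y‖ ≤
        ∫ y in Ioi (0 : ℝ), M * Real.exp (-(5 * |x.re|)) * Real.exp (-(13 / 40 * y)) := by
      refine norm_integral_le_of_norm_le (i1.const_mul (M * Real.exp (-(5 * |x.re|)))) ?_
      filter_upwards [ae_restrict_mem measurableSet_Ioi] with y hy
      exact hFn x hx y (le_of_lt hy)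
    rw [integral_const_mul, i2] at h1
    refine h1.trans ?_
    have h2 : 0 ≤ M * Real.exp (-(5 * |x.re|)) := mul_nonneg hM (Real.exp_pos _).le
    have h3 : (1 : ℝ) / (13 / 40) ≤ 4 := by norm_num
    have := mul_le_mul_of_nonneg_left h3 h2
    linarith
  · intro x hx
    rw [(key x hx).deriv]
    have h1 : ‖∫ y in Ioi (0 : ℝ), F' x y‖ ≤
        ∫ y in Ioi (0 : ℝ), Real.exp (-(5 * |x.re|)) * (M' * Real.exp (-(13 / 40 * y)) +
        B * M * (y * Real.exp (-(13 / 40 * y)))) := by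
      refine norm_integral_le_of_norm_le (hbdi.const_mul (Real.exp (-(5 * |x.re|)))) ?_
      filter_upwards [ae_restrict_mem measurableSet_Ioi] with y hy
      exact hF'n x hx y (le_of_lt hy)
    rw [integral_const_mul, integral_add (i1.const_mul M') (i3.const_mul (B * M)),
      integral_const_mul, integral_const_mul, i2, i4] at h1
    refine h1.trans ?_
    rw [mul_comm]
    refine mul_le_mul_of_nonneg_right ?_ (Real.exp_pos _).le
    have h3 : (1 : ℝ) / (13 / 40) ≤ 4 := by norm_num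
    have h4 : (1 : ℝ) / (13 / 40) ^ 2 ≤ 10 := by norm_num
    have h5 := mul_le_mul_of_nonneg_left h3 hM'
    have h6 := mul_le_mul_of_nonneg_left h4 (mul_nonneg hB hM)
    linarith

end JB1

end Pool.Agent.Helper383.NI
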