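import Pool.Agent.Helper383.NI.Defs

open Complex MeasureTheory Set Filter Topology

namespace Pool.Agent.Helper383.NI


namespace JB2

theorem ql_wI (n : ℕ) : IntegrableOn (fun y : ℝ => y ^ n * Real.exp (-(0.325 * y))) (Ioi 0) ∧
    ∫ y in Ioi (0 : ℝ), y ^ n * Real.exp (-(0.325 * y)) = (1 / 0.325) ^ (n + 1) * (n.factorial : ℝ) := by
  constructor
  · have h1 := integrableOn_rpow_mul_exp_neg_mul_rpow (s := n) (p := 1) (b := 0.325)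
      (by have := Nat.cast_nonneg (α := ℝ) n; linarith) one_pos (by norm_num)
    refine h1.congr_fun ?_ measurableSet_Ioi
    intro y _
    simp only [Real.rpow_natCast, Real.rpow_one, neg_mul]
  · have h1 := Real.integral_rpow_mul_exp_neg_mul_Ioi (a := (n : ℝ) + 1) (r := 0.325)
      (by positivity) (by norm_num)
    simp only [add_sub_cancel_right, Real.rpow_natCast, Real.Gamma_nat_eq_factorial] at h1
    rw [h1]
    congr 1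
    rw [← Real.rpow_natCast]
    push_cast
    rfl

theorem ql_poly (a b c : ℝ) (ha : 0 ≤ a) (hb : 0 ≤ b) (hc : 0 ≤ c) :
    IntegrableOn (fun y : ℝ => Real.exp (-(0.325 * y)) * (a + b * y + c * y ^ 2)) (Ioi 0) ∧
    ∫ y in Ioi (0 : ℝ), Real.exp (-(0.325 * y)) * (a + b * y + c * y ^ 2) ≤ 4 * a + 10 * b + 60 * c := by
  obtain ⟨i0, e0⟩ := ql_wI 0
  obtain ⟨i1, e1⟩ := ql_wI 1
  obtain ⟨i2, e2⟩ := ql_wI 2
  have hfun : (fun y : ℝ => Real.exp (-(0.325 * y)) * (a + b * y + c * y ^ 2)) = fun y =>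
      a * (y ^ 0 * Real.exp (-(0.325 * y))) + b * (y ^ 1 * Real.exp (-(0.325 * y))) +
        c * (y ^ 2 * Real.exp (-(0.325 * y))) := by
    funext y; ring
  rw [hfun]
  have j0 := i0.const_mul a
  have j1 := i1.const_mul b
  have j2 := i2.const_mul c
  refine ⟨(j0.add j1).add j2, ?_⟩
  have s1 : ∫ y in Ioi (0 : ℝ), (a * (y ^ 0 * Real.exp (-(0.325 * y))) + b * (y ^ 1 * Real.exp (-(0.325 * y))) +
        c * (y ^ 2 * Real.exp (-(0.325 * y)))) =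
      (∫ y in Ioi (0 : ℝ), (a * (y ^ 0 * Real.exp (-(0.325 * y))) + b * (y ^ 1 * Real.exp (-(0.325 * y))))) +
      ∫ y in Ioi (0 : ℝ), c * (y ^ 2 * Real.exp (-(0.325 * y))) := integral_add (j0.add j1) j2
  have s2 : ∫ y in Ioi (0 : ℝ), (a * (y ^ 0 * Real.exp (-(0.325 * y))) + b * (y ^ 1 * Real.exp (-(0.325 * y)))) =
      (∫ y in Ioi (0 : ℝ), a * (y ^ 0 * Real.exp (-(0.325 * y)))) +
      ∫ y in Ioi (0 : ℝ), b * (y ^ 1 * Real.exp (-(0.325 * y))) := integral_add j0 j1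
  rw [s1, s2, integral_const_mul, integral_const_mul, integral_const_mul, e0, e1, e2]
  norm_num [Nat.factorial]
  linarith

theorem ql_core (F G : ℝ → ℂ) (hF : Continuous F) (hG : Continuous G) (a b c a' b' c' : ℝ)
    (ha : 0 ≤ a) (hb : 0 ≤ b) (hc : 0 ≤ c) (ha' : 0 ≤ a') (hb' : 0 ≤ b') (hc' : 0 ≤ c')
    (hFb : ∀ y, 0 < y → ‖F y‖ ≤ Real.exp (-(0.325 * y)) * (a' + b' * y + c' * y ^ 2))
    (hGb : ∀ y, 0 < y → ‖G y‖ ≤ Real.exp (-(0.325 * y)) * (a' + b' * y + c' * y ^ 2))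
    (hd : ∀ y, 0 < y → ‖F y - G y‖ ≤ Real.exp (-(0.325 * y)) * (a + b * y + c * y ^ 2)) :
    ‖(∫ y in Ioi (0 : ℝ), F y) - ∫ y in Ioi (0 : ℝ), G y‖ ≤ 4 * a + 10 * b + 60 * c := by
  obtain ⟨i1, -⟩ := ql_poly a' b' c' ha' hb' hc'
  obtain ⟨i2, e2⟩ := ql_poly a b c ha hb hc
  have hFi : IntegrableOn F (Ioi 0) := by
    refine Integrable.mono' i1 hF.aestronglyMeasurable ?_
    exact (ae_restrict_iff' measurableSet_Ioi).mpr (Eventually.of_forall (fun y hy => hFb y hy))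
  have hGi : IntegrableOn G (Ioi 0) := by
    refine Integrable.mono' i1 hG.aestronglyMeasurable ?_
    exact (ae_restrict_iff' measurableSet_Ioi).mpr (Eventually.of_forall (fun y hy => hGb y hy))
  rw [← integral_sub hFi hGi]
  refine le_trans (norm_integral_le_of_norm_le i2 ?_) e2
  exact (ae_restrict_iff' measurableSet_Ioi).mpr (Eventually.of_forall (fun y hy => hd y hy))

theorem ql_exp (a b : ℂ) (R : ℝ) (ha : a.re ≤ R) (hb : b.re ≤ R) :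
    ‖Complex.exp a - Complex.exp b‖ ≤ Real.exp R * ‖a - b‖ := by
  have h := Convex.norm_image_sub_le_of_norm_hasDerivWithin_le (f := Complex.exp) (f' := Complex.exp)
    (s := {z : ℂ | z.re ≤ R}) (x := b) (y := a) (C := Real.exp R)
    (fun x _ => (Complex.hasDerivAt_exp x).hasDerivWithinAt)
    (fun x hx => by
      rw [Complex.norm_exp]
      exact Real.exp_le_exp.mpr hx)
    (convex_halfSpace_re_le R) hb ha
  exact h

theorem ql_mem (σ : ℝ) (z : ℂ) (hz : z ∈ Str σ) (t : ℝ) : z + (t : ℂ) ∈ Str σ := by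
  show |(z + (t : ℂ)).im| < σ
  rw [Complex.add_im, Complex.ofReal_im, add_zero]
  exact hz

theorem ql_isOpen (σ : ℝ) : IsOpen (Str σ) := by
  have : Continuous (fun z : ℂ => |z.im|) := Complex.continuous_im.abs
  exact isOpen_lt this continuous_const

theorem ql_cont (n ς σ : ℝ) (z : ℂ) (hz : z ∈ Str σ) (f : ℂ → ℂ) (hf : ContinuousOn f (Str σ)) :
    Continuous (fun y : ℝ => f (z + ((ς * y / n : ℝ) : ℂ))) := by
  refine hf.comp_continuous ?_ (fun y => ql_mem σ z hz _)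
  fun_prop

theorem ql_prim_cont (n ς σ : ℝ) (z : ℂ) (hz : z ∈ Str σ) (f : ℂ → ℂ) (hf : ContinuousOn f (Str σ)) :
    Continuous (fun y : ℝ => ∫ s in (0 : ℝ)..y, f (z + ((ς * s / n : ℝ) : ℂ))) :=
  intervalIntegral.continuous_primitive
    (fun a b => (ql_cont n ς σ z hz f hf).intervalIntegrable a b) 0

theorem ql_prim_norm (n ς σ : ℝ) (z : ℂ) (hz : z ∈ Str σ) (f : ℂ → ℂ) (B : ℝ)
    (hB : ∀ z ∈ Str σ, ‖f z‖ ≤ B) (y : ℝ) (hy : 0 < y) :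
    ‖∫ s in (0 : ℝ)..y, f (z + ((ς * s / n : ℝ) : ℂ))‖ ≤ y * B := by
  have h1 := intervalIntegral.norm_integral_le_of_norm_le_const (a := 0) (b := y) (C := B)
    (f := fun s : ℝ => f (z + ((ς * s / n : ℝ) : ℂ))) (fun s _ => hB _ (ql_mem σ z hz _))
  rw [sub_zero, abs_of_pos hy] at h1
  linarith

theorem ql_prim_sub (n ς σ : ℝ) (z : ℂ) (hz : z ∈ Str σ) (f g : ℂ → ℂ) (hf : ContinuousOn f (Str σ))
    (hg : ContinuousOn g (Str σ)) (B : ℝ)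
    (hB : ∀ z ∈ Str σ, ‖f z - g z‖ ≤ B) (y : ℝ) (hy : 0 < y) :
    ‖(∫ s in (0 : ℝ)..y, f (z + ((ς * s / n : ℝ) : ℂ))) -
      ∫ s in (0 : ℝ)..y, g (z + ((ς * s / n : ℝ) : ℂ))‖ ≤ y * B := by
  rw [← intervalIntegral.integral_sub ((ql_cont n ς σ z hz f hf).intervalIntegrable _ _)
    ((ql_cont n ς σ z hz g hg).intervalIntegrable _ _)]
  exact ql_prim_norm n ς σ z hz (fun z => f z - g z) B hB y hy

theorem ql_prim_im (n ς σ : ℝ) (z : ℂ) (hz : z ∈ Str σ) (f : ℂ → ℂ) (hf : ContinuousOn f (Str σ))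
    (hi : ∀ z ∈ Str σ, |(f z).im| ≤ 1 / 2) (y : ℝ) (hy : 0 < y) :
    |(∫ s in (0 : ℝ)..y, f (z + ((ς * s / n : ℝ) : ℂ))).im| ≤ y / 2 := by
  have h1 := Complex.imCLM.intervalIntegral_comp_comm
    ((ql_cont n ς σ z hz f hf).intervalIntegrable (μ := volume) 0 y)
  have h2 : (∫ s in (0 : ℝ)..y, f (z + ((ς * s / n : ℝ) : ℂ))).im =
      ∫ s in (0 : ℝ)..y, (f (z + ((ς * s / n : ℝ) : ℂ))).im := h1.symm
  rw [h2, ← Real.norm_eq_abs]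
  have h3 := intervalIntegral.norm_integral_le_of_norm_le_const (a := 0) (b := y) (C := 1 / 2)
    (f := fun s : ℝ => (f (z + ((ς * s / n : ℝ) : ℂ))).im) (fun s _ => hi _ (ql_mem σ z hz _))
  rw [sub_zero, abs_of_pos hy] at h3
  linarith

theorem ql_re (n ς τ y : ℝ) (hn : 40 ≤ n) (hς : ς = 1 ∨ ς = -1) (hτ : τ = 1 ∨ τ = -1) (hy : 0 < y)
    (K : ℂ) (hK : |K.im| ≤ y / 2) :
    (((-y + 2 * ς * y / n : ℝ) : ℂ) - I * ((ς * τ : ℝ) : ℂ) * K).re ≤ -(y / 2) + 2 * y / n := by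
  have h1 : (((-y + 2 * ς * y / n : ℝ) : ℂ) - I * ((ς * τ : ℝ) : ℂ) * K).re =
      -y + 2 * ς * y / n + ς * τ * K.im := by
    rw [Complex.sub_re, Complex.ofReal_re, mul_assoc I, Complex.I_mul_re, Complex.im_ofReal_mul]
    ring
  rw [h1]
  have h2 : 0 ≤ 2 * y / n := by positivity
  have h3 : 2 * ς * y / n ≤ 2 * y / n := by
    rcases hς with h | h
    · rw [h, mul_one]
    · rw [h]
      have : 2 * (-1 : ℝ) * y / n = -(2 * y / n) := by ring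
      linarith
  have h4 := abs_le.mp hK
  have h5 : ς * τ * K.im ≤ y / 2 := by
    rcases hς with h | h <;> rcases hτ with h' | h' <;> rw [h, h'] <;> linarith [h4.1, h4.2]
  linarith

theorem ql_norm_diff (a : ℂ) (ς τ : ℝ) (hς : ς = 1 ∨ ς = -1) (hτ : τ = 1 ∨ τ = -1) (K L : ℂ) :
    ‖(a - I * ((ς * τ : ℝ) : ℂ) * K) - (a - I * ((ς * τ : ℝ) : ℂ) * L)‖ = ‖K - L‖ := by
  have h1 : (a - I * ((ς * τ : ℝ) : ℂ) * K) - (a - I * ((ς * τ : ℝ) : ℂ) * L) =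
      -(I * (((ς * τ : ℝ) : ℂ) * (K - L))) := by ring
  rw [h1, norm_neg, norm_mul, norm_mul, Complex.norm_I, Complex.norm_real, one_mul]
  have h2 : ‖ς * τ‖ = 1 := by
    rcases hς with h | h <;> rcases hτ with h' | h' <;> rw [h, h'] <;> norm_num
  rw [h2, one_mul]

theorem ql_weight (n ς y : ℝ) (hn : 40 ≤ n) (hς : ς = 1 ∨ ς = -1) (hy : 0 < y) (z : ℂ) :
    Real.exp (-(y / 2) + 2 * y / n) * Real.exp (-(5 * |(z + ((ς * y / n : ℝ) : ℂ)).re|)) ≤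
      Real.exp (-(0.325 * y)) * Real.exp (-(5 * |z.re|)) := by
  rw [← Real.exp_add, ← Real.exp_add]
  refine Real.exp_le_exp.mpr ?_
  rw [Complex.add_re, Complex.ofReal_re]
  have h1 : |z.re| ≤ |z.re + ς * y / n| + y / n := by
    have h2 : z.re = (z.re + ς * y / n) - ς * y / n := by ring
    have h3 : |ς * y / n| = y / n := by
      rcases hς with h | h
      · rw [h, one_mul, abs_of_pos (by positivity)]
      · rw [h]
        have : (-1 : ℝ) * y / n = -(y / n) := by ring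
        rw [this, abs_neg, abs_of_pos (by positivity)]
    calc |z.re| = |(z.re + ς * y / n) - ς * y / n| := by rw [← h2]
      _ ≤ |z.re + ς * y / n| + |ς * y / n| := abs_sub _ _
      _ = _ := by rw [h3]
  have h4 : y / n ≤ y / 40 := div_le_div_of_nonneg_left hy.le (by norm_num) hn
  have h5 : 2 * y / n = 2 * (y / n) := by ring
  rw [h5]
  linarith

theorem Qop_lip (n ς τ σ B M M' δb δ δ' : ℝ) (β₁ f₁ β₂ f₂ : ℂ → ℂ) (hn : 40 ≤ n)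
    (hς : ς = 1 ∨ ς = -1) (hτ : τ = 1 ∨ τ = -1) (hσ : 0 < σ) (hB : 0 ≤ B) (hM : 0 ≤ M)
    (hM' : 0 ≤ M') (hδb : 0 ≤ δb) (hδ : 0 ≤ δ) (hδ' : 0 ≤ δ')
    (hβ : DifferentiableOn ℂ β₁ (Str σ)) (hβ0 : ∀ z ∈ Str σ, ‖β₁ z‖ ≤ B)
    (hβi : ∀ z ∈ Str σ, |(β₁ z).im| ≤ 1 / 2) (hβ1 : ∀ z ∈ Str σ, ‖deriv β₁ z‖ ≤ B)
    (hf : DifferentiableOn ℂ f₁ (Str σ))
    (hf0 : ∀ z ∈ Str σ, ‖f₁ z‖ ≤ M * Real.exp (-(5 * |z.re|)))
    (hf1 : ∀ z ∈ Str σ, ‖deriv f₁ z‖ ≤ M' * Real.exp (-(5 * |z.re|)))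
    (gβ : DifferentiableOn ℂ β₂ (Str σ)) (gβ0 : ∀ z ∈ Str σ, ‖β₂ z‖ ≤ B)
    (gβi : ∀ z ∈ Str σ, |(β₂ z).im| ≤ 1 / 2) (gβ1 : ∀ z ∈ Str σ, ‖deriv β₂ z‖ ≤ B)
    (gf : DifferentiableOn ℂ f₂ (Str σ))
    (gf0 : ∀ z ∈ Str σ, ‖f₂ z‖ ≤ M * Real.exp (-(5 * |z.re|)))
    (gf1 : ∀ z ∈ Str σ, ‖deriv f₂ z‖ ≤ M' * Real.exp (-(5 * |z.re|)))
    (cβ0 : ∀ z ∈ Str σ, ‖β₁ z - β₂ z‖ ≤ δb) (cβ1 : ∀ z ∈ Str σ, ‖deriv β₁ z - deriv β₂ z‖ ≤ δb)
    (cf0 : ∀ z ∈ Str σ, ‖f₁ z - f₂ z‖ ≤ δ * Real.exp (-(5 * |z.re|)))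
    (cf1 : ∀ z ∈ Str σ, ‖deriv f₁ z - deriv f₂ z‖ ≤ δ' * Real.exp (-(5 * |z.re|)))
    (hder : ∀ β f : ℂ → ℂ, (β = β₁ ∧ f = f₁ ∨ β = β₂ ∧ f = f₂) → ∀ z ∈ Str σ,
      deriv (Qop n ς τ β f) z =
      ∫ y in Ioi (0 : ℝ), Complex.exp (((-y + 2 * ς * y / n : ℝ) : ℂ)
        - I * ((ς * τ : ℝ) : ℂ) * ∫ s in (0 : ℝ)..y, β (z + ((ς * s / n : ℝ) : ℂ)))
        * (deriv f (z + ((ς * y / n : ℝ) : ℂ)) - I * ((ς * τ : ℝ) : ℂ)
          * (∫ s in (0 : ℝ)..y, deriv β (z + ((ς * s / n : ℝ) : ℂ)))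
          * f (z + ((ς * y / n : ℝ) : ℂ)))) :
    (∀ z ∈ Str σ, ‖Qop n ς τ β₁ f₁ z - Qop n ς τ β₂ f₂ z‖
      ≤ (4 * δ + 10 * M * δb) * Real.exp (-(5 * |z.re|))) ∧
    (∀ z ∈ Str σ, ‖deriv (Qop n ς τ β₁ f₁) z - deriv (Qop n ς τ β₂ f₂) z‖
      ≤ (4 * δ' + 10 * M' * δb + 10 * B * δ + 10 * M * δb + 60 * B * M * δb)
        * Real.exp (-(5 * |z.re|))) := by
  have hςτ1 : ‖((ς * τ : ℝ) : ℂ)‖ = 1 := by
    rw [Complex.norm_real]
    rcases hς with h | h <;> rcases hτ with h' | h' <;> rw [h, h'] <;> norm_num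
  have hIc : ‖I * ((ς * τ : ℝ) : ℂ)‖ = 1 := by rw [norm_mul, Complex.norm_I, hςτ1, one_mul]
  have cb1 := hβ.continuousOn
  have cb2 := gβ.continuousOn
  have cf1' := hf.continuousOn
  have cf2' := gf.continuousOn
  have cdb1 := (hβ.deriv (ql_isOpen σ)).continuousOn
  have cdb2 := (gβ.deriv (ql_isOpen σ)).continuousOn
  have cdf1 := (hf.deriv (ql_isOpen σ)).continuousOn
  have cdf2 := (gf.deriv (ql_isOpen σ)).continuousOn
  -- pointwise facts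
  have hpt : ∀ z ∈ Str σ, ∀ y : ℝ, 0 < y → ∃ X Y : ℝ, 0 ≤ X ∧ 0 ≤ Y ∧
      X * Y ≤ Real.exp (-(0.325 * y)) * Real.exp (-(5 * |z.re|)) ∧
      ‖Complex.exp (((-y + 2 * ς * y / n : ℝ) : ℂ)
        - I * ((ς * τ : ℝ) : ℂ) * ∫ s in (0 : ℝ)..y, β₁ (z + ((ς * s / n : ℝ) : ℂ)))‖ ≤ X ∧
      ‖Complex.exp (((-y + 2 * ς * y / n : ℝ) : ℂ)
        - I * ((ς * τ : ℝ) : ℂ) * ∫ s in (0 : ℝ)..y, β₂ (z + ((ς * s / n : ℝ) : ℂ)))‖ ≤ X ∧
      ‖Complex.exp (((-y + 2 * ς * y / n : ℝ) : ℂ)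
        - I * ((ς * τ : ℝ) : ℂ) * ∫ s in (0 : ℝ)..y, β₁ (z + ((ς * s / n : ℝ) : ℂ))) -
       Complex.exp (((-y + 2 * ς * y / n : ℝ) : ℂ)
        - I * ((ς * τ : ℝ) : ℂ) * ∫ s in (0 : ℝ)..y, β₂ (z + ((ς * s / n : ℝ) : ℂ)))‖ ≤ X * (y * δb) ∧
      ‖f₁ (z + ((ς * y / n : ℝ) : ℂ))‖ ≤ M * Y ∧ ‖f₂ (z + ((ς * y / n : ℝ) : ℂ))‖ ≤ M * Y ∧
      ‖deriv f₁ (z + ((ς * y / n : ℝ) : ℂ))‖ ≤ M' * Y ∧ ‖deriv f₂ (z + ((ς * y / n : ℝ) : ℂ))‖ ≤ M' * Y ∧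
      ‖f₁ (z + ((ς * y / n : ℝ) : ℂ)) - f₂ (z + ((ς * y / n : ℝ) : ℂ))‖ ≤ δ * Y ∧
      ‖deriv f₁ (z + ((ς * y / n : ℝ) : ℂ)) - deriv f₂ (z + ((ς * y / n : ℝ) : ℂ))‖ ≤ δ' * Y := by
    intro z hz y hy
    refine ⟨Real.exp (-(y / 2) + 2 * y / n), Real.exp (-(5 * |(z + ((ς * y / n : ℝ) : ℂ)).re|)),
      (Real.exp_pos _).le, (Real.exp_pos _).le, ql_weight n ς y hn hς hy z, ?_, ?_, ?_,
      hf0 _ (ql_mem σ z hz _), gf0 _ (ql_mem σ z hz _), hf1 _ (ql_mem σ z hz _),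
      gf1 _ (ql_mem σ z hz _), cf0 _ (ql_mem σ z hz _), cf1 _ (ql_mem σ z hz _)⟩
    · rw [Complex.norm_exp]
      exact Real.exp_le_exp.mpr (ql_re n ς τ y hn hς hτ hy _ (ql_prim_im n ς σ z hz β₁ cb1 hβi y hy))
    · rw [Complex.norm_exp]
      exact Real.exp_le_exp.mpr (ql_re n ς τ y hn hς hτ hy _ (ql_prim_im n ς σ z hz β₂ cb2 gβi y hy))
    · refine (ql_exp _ _ _ (ql_re n ς τ y hn hς hτ hy _ (ql_prim_im n ς σ z hz β₁ cb1 hβi y hy))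
        (ql_re n ς τ y hn hς hτ hy _ (ql_prim_im n ς σ z hz β₂ cb2 gβi y hy))).trans ?_
      rw [ql_norm_diff _ ς τ hς hτ]
      exact mul_le_mul_of_nonneg_left (ql_prim_sub n ς σ z hz β₁ β₂ cb1 cb2 δb cβ0 y hy) (Real.exp_pos _).le
  have cE : ∀ β : ℂ → ℂ, ContinuousOn β (Str σ) → ∀ z ∈ Str σ, Continuous (fun y : ℝ =>
      Complex.exp (((-y + 2 * ς * y / n : ℝ) : ℂ)
        - I * ((ς * τ : ℝ) : ℂ) * ∫ s in (0 : ℝ)..y, β (z + ((ς * s / n : ℝ) : ℂ)))) := by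
    intro β hβc z hz
    have h1 := ql_prim_cont n ς σ z hz β hβc
    have h2 : Continuous (fun y : ℝ => (((-y + 2 * ς * y / n : ℝ) : ℂ))) := by fun_prop
    exact Complex.continuous_exp.comp (h2.sub (continuous_const.mul h1))
  constructor
  · intro z hz
    have e0pos : 0 < Real.exp (-(5 * |z.re|)) := Real.exp_pos _
    obtain ⟨e0, he0⟩ : ∃ e0 : ℝ, e0 = Real.exp (-(5 * |z.re|)) := ⟨_, rfl⟩
    rw [← he0] at e0pos
    have hmain := ql_core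
      (fun y : ℝ => Complex.exp (((-y + 2 * ς * y / n : ℝ) : ℂ)
        - I * ((ς * τ : ℝ) : ℂ) * ∫ s in (0 : ℝ)..y, β₁ (z + ((ς * s / n : ℝ) : ℂ)))
        * f₁ (z + ((ς * y / n : ℝ) : ℂ)))
      (fun y : ℝ => Complex.exp (((-y + 2 * ς * y / n : ℝ) : ℂ)
        - I * ((ς * τ : ℝ) : ℂ) * ∫ s in (0 : ℝ)..y, β₂ (z + ((ς * s / n : ℝ) : ℂ)))
        * f₂ (z + ((ς * y / n : ℝ) : ℂ)))
      ((cE β₁ cb1 z hz).mul (ql_cont n ς σ z hz f₁ cf1'))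
      ((cE β₂ cb2 z hz).mul (ql_cont n ς σ z hz f₂ cf2'))
      (δ * e0) (M * δb * e0) 0 (M * e0) 0 0 (by positivity) (by positivity) le_rfl (by positivity)
      le_rfl le_rfl ?_ ?_ ?_
    · have : 4 * (δ * e0) + 10 * (M * δb * e0) + 60 * 0 = (4 * δ + 10 * M * δb) * e0 := by ring
      rw [this, he0] at hmain
      exact hmain
    · intro y hy
      obtain ⟨X, Y, hX, hY, hXY, hA1, hA2, hAd, hφ1, hφ2, hd1, hd2, hφd, hdd⟩ := hpt z hz y hy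
      rw [← he0] at hXY
      rw [norm_mul]
      calc _ ≤ X * (M * Y) := mul_le_mul hA1 hφ1 (norm_nonneg _) hX
        _ = (X * Y) * M := by ring
        _ ≤ (Real.exp (-(0.325 * y)) * e0) * M := mul_le_mul_of_nonneg_right hXY hM
        _ = _ := by ring
    · intro y hy
      obtain ⟨X, Y, hX, hY, hXY, hA1, hA2, hAd, hφ1, hφ2, hd1, hd2, hφd, hdd⟩ := hpt z hz y hy
      rw [← he0] at hXY
      rw [norm_mul]
      calc _ ≤ X * (M * Y) := mul_le_mul hA2 hφ2 (norm_nonneg _) hX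
        _ = (X * Y) * M := by ring
        _ ≤ (Real.exp (-(0.325 * y)) * e0) * M := mul_le_mul_of_nonneg_right hXY hM
        _ = _ := by ring
    · intro y hy
      obtain ⟨X, Y, hX, hY, hXY, hA1, hA2, hAd, hφ1, hφ2, hd1, hd2, hφd, hdd⟩ := hpt z hz y hy
      rw [← he0] at hXY
      obtain ⟨A1, hA1e⟩ : ∃ A : ℂ, A = Complex.exp (((-y + 2 * ς * y / n : ℝ) : ℂ)
        - I * ((ς * τ : ℝ) : ℂ) * ∫ s in (0 : ℝ)..y, β₁ (z + ((ς * s / n : ℝ) : ℂ))) := ⟨_, rfl⟩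
      obtain ⟨A2, hA2e⟩ : ∃ A : ℂ, A = Complex.exp (((-y + 2 * ς * y / n : ℝ) : ℂ)
        - I * ((ς * τ : ℝ) : ℂ) * ∫ s in (0 : ℝ)..y, β₂ (z + ((ς * s / n : ℝ) : ℂ))) := ⟨_, rfl⟩
      obtain ⟨p1, hp1⟩ : ∃ p : ℂ, p = f₁ (z + ((ς * y / n : ℝ) : ℂ)) := ⟨_, rfl⟩
      obtain ⟨p2, hp2⟩ : ∃ p : ℂ, p = f₂ (z + ((ς * y / n : ℝ) : ℂ)) := ⟨_, rfl⟩
      show ‖_ * _ - _ * _‖ ≤ _
      rw [← hA1e, ← hA2e] at hAd
      rw [← hA1e] at hA1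
      rw [← hp1, ← hp2] at hφd
      rw [← hp2] at hφ2
      rw [← hA1e, ← hA2e, ← hp1, ← hp2]
      have h1 : A1 * p1 - A2 * p2 = A1 * (p1 - p2) + (A1 - A2) * p2 := by ring
      rw [h1]
      calc ‖A1 * (p1 - p2) + (A1 - A2) * p2‖ ≤ ‖A1 * (p1 - p2)‖ + ‖(A1 - A2) * p2‖ := norm_add_le _ _
        _ = ‖A1‖ * ‖p1 - p2‖ + ‖A1 - A2‖ * ‖p2‖ := by rw [norm_mul, norm_mul]
        _ ≤ X * (δ * Y) + (X * (y * δb)) * (M * Y) :=
            add_le_add (mul_le_mul hA1 hφd (norm_nonneg _) hX)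
              (mul_le_mul hAd hφ2 (norm_nonneg _) (by positivity))
        _ = (X * Y) * (δ + M * δb * y) := by ring
        _ ≤ (Real.exp (-(0.325 * y)) * e0) * (δ + M * δb * y) :=
            mul_le_mul_of_nonneg_right hXY (by positivity)
        _ = _ := by ring
  · intro z hz
    have e0pos : 0 < Real.exp (-(5 * |z.re|)) := Real.exp_pos _
    obtain ⟨e0, he0⟩ : ∃ e0 : ℝ, e0 = Real.exp (-(5 * |z.re|)) := ⟨_, rfl⟩
    rw [← he0] at e0pos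
    rw [hder β₁ f₁ (Or.inl ⟨rfl, rfl⟩) z hz, hder β₂ f₂ (Or.inr ⟨rfl, rfl⟩) z hz]
    have cF : ∀ β f : ℂ → ℂ, ContinuousOn β (Str σ) → ContinuousOn (deriv β) (Str σ) →
        ContinuousOn f (Str σ) → ContinuousOn (deriv f) (Str σ) → Continuous (fun y : ℝ =>
        Complex.exp (((-y + 2 * ς * y / n : ℝ) : ℂ)
        - I * ((ς * τ : ℝ) : ℂ) * ∫ s in (0 : ℝ)..y, β (z + ((ς * s / n : ℝ) : ℂ)))
        * (deriv f (z + ((ς * y / n : ℝ) : ℂ)) - I * ((ς * τ : ℝ) : ℂ)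
          * (∫ s in (0 : ℝ)..y, deriv β (z + ((ς * s / n : ℝ) : ℂ)))
          * f (z + ((ς * y / n : ℝ) : ℂ)))) := by
      intro β f h1 h2 h3 h4
      exact (cE β h1 z hz).mul ((ql_cont n ς σ z hz _ h4).sub
        ((continuous_const.mul (ql_prim_cont n ς σ z hz _ h2)).mul (ql_cont n ς σ z hz _ h3)))
    have hmain := ql_core _ _ (cF β₁ f₁ cb1 cdb1 cf1' cdf1) (cF β₂ f₂ cb2 cdb2 cf2' cdf2)
      (δ' * e0) ((M' * δb + B * δ + M * δb) * e0) (B * M * δb * e0)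
      (M' * e0) (B * M * e0) 0 (by positivity) (by positivity) (by positivity) (by positivity)
      (by positivity) le_rfl ?_ ?_ ?_
    · have : 4 * (δ' * e0) + 10 * ((M' * δb + B * δ + M * δb) * e0) + 60 * (B * M * δb * e0) =
          (4 * δ' + 10 * M' * δb + 10 * B * δ + 10 * M * δb + 60 * B * M * δb) * e0 := by ring
      rw [this, he0] at hmain
      exact hmain
    · intro y hy
      obtain ⟨X, Y, hX, hY, hXY, hA1, hA2, hAd, hφ1, hφ2, hd1, hd2, hφd, hdd⟩ := hpt z hz y hy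
      rw [← he0] at hXY
      have hL := ql_prim_norm n ς σ z hz (deriv β₁) B hβ1 y hy
      rw [norm_mul]
      have h1 : ‖deriv f₁ (z + ((ς * y / n : ℝ) : ℂ)) - I * ((ς * τ : ℝ) : ℂ)
          * (∫ s in (0 : ℝ)..y, deriv β₁ (z + ((ς * s / n : ℝ) : ℂ)))
          * f₁ (z + ((ς * y / n : ℝ) : ℂ))‖ ≤ M' * Y + (y * B) * (M * Y) := by
        refine (norm_sub_le _ _).trans (add_le_add hd1 ?_)
        rw [norm_mul, norm_mul, hIc, one_mul]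
        exact mul_le_mul hL hφ1 (norm_nonneg _) (by positivity)
      calc _ ≤ X * (M' * Y + (y * B) * (M * Y)) := mul_le_mul hA1 h1 (norm_nonneg _) hX
        _ = (X * Y) * (M' + B * M * y) := by ring
        _ ≤ (Real.exp (-(0.325 * y)) * e0) * (M' + B * M * y) :=
            mul_le_mul_of_nonneg_right hXY (by positivity)
        _ = _ := by ring
    · intro y hy
      obtain ⟨X, Y, hX, hY, hXY, hA1, hA2, hAd, hφ1, hφ2, hd1, hd2, hφd, hdd⟩ := hpt z hz y hy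
      rw [← he0] at hXY
      have hL := ql_prim_norm n ς σ z hz (deriv β₂) B gβ1 y hy
      rw [norm_mul]
      have h1 : ‖deriv f₂ (z + ((ς * y / n : ℝ) : ℂ)) - I * ((ς * τ : ℝ) : ℂ)
          * (∫ s in (0 : ℝ)..y, deriv β₂ (z + ((ς * s / n : ℝ) : ℂ)))
          * f₂ (z + ((ς * y / n : ℝ) : ℂ))‖ ≤ M' * Y + (y * B) * (M * Y) := by
        refine (norm_sub_le _ _).trans (add_le_add hd2 ?_)
        rw [norm_mul, norm_mul, hIc, one_mul]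
        exact mul_le_mul hL hφ2 (norm_nonneg _) (by positivity)
      calc _ ≤ X * (M' * Y + (y * B) * (M * Y)) := mul_le_mul hA2 h1 (norm_nonneg _) hX
        _ = (X * Y) * (M' + B * M * y) := by ring
        _ ≤ (Real.exp (-(0.325 * y)) * e0) * (M' + B * M * y) :=
            mul_le_mul_of_nonneg_right hXY (by positivity)
        _ = _ := by ring
    · intro y hy
      obtain ⟨X, Y, hX, hY, hXY, hA1, hA2, hAd, hφ1, hφ2, hd1, hd2, hφd, hdd⟩ := hpt z hz y hy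
      rw [← he0] at hXY
      have hL2 := ql_prim_norm n ς σ z hz (deriv β₂) B gβ1 y hy
      have hLd := ql_prim_sub n ς σ z hz (deriv β₁) (deriv β₂) cdb1 cdb2 δb cβ1 y hy
      obtain ⟨A1, hA1e⟩ : ∃ A : ℂ, A = Complex.exp (((-y + 2 * ς * y / n : ℝ) : ℂ)
        - I * ((ς * τ : ℝ) : ℂ) * ∫ s in (0 : ℝ)..y, β₁ (z + ((ς * s / n : ℝ) : ℂ))) := ⟨_, rfl⟩
      obtain ⟨A2, hA2e⟩ : ∃ A : ℂ, A = Complex.exp (((-y + 2 * ς * y / n : ℝ) : ℂ)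
        - I * ((ς * τ : ℝ) : ℂ) * ∫ s in (0 : ℝ)..y, β₂ (z + ((ς * s / n : ℝ) : ℂ))) := ⟨_, rfl⟩
      obtain ⟨p1, hp1⟩ : ∃ p : ℂ, p = f₁ (z + ((ς * y / n : ℝ) : ℂ)) := ⟨_, rfl⟩
      obtain ⟨p2, hp2⟩ : ∃ p : ℂ, p = f₂ (z + ((ς * y / n : ℝ) : ℂ)) := ⟨_, rfl⟩
      obtain ⟨q1, hq1⟩ : ∃ p : ℂ, p = deriv f₁ (z + ((ς * y / n : ℝ) : ℂ)) := ⟨_, rfl⟩
      obtain ⟨q2, hq2⟩ : ∃ p : ℂ, p = deriv f₂ (z + ((ς * y / n : ℝ) : ℂ)) := ⟨_, rfl⟩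
      obtain ⟨L1, hL1e⟩ : ∃ p : ℂ, p = ∫ s in (0 : ℝ)..y, deriv β₁ (z + ((ς * s / n : ℝ) : ℂ)) := ⟨_, rfl⟩
      obtain ⟨L2, hL2e⟩ : ∃ p : ℂ, p = ∫ s in (0 : ℝ)..y, deriv β₂ (z + ((ς * s / n : ℝ) : ℂ)) := ⟨_, rfl⟩
      obtain ⟨c, hce⟩ : ∃ p : ℂ, p = I * ((ς * τ : ℝ) : ℂ) := ⟨_, rfl⟩
      show ‖_ * (_ - _ * _ * _) - _ * (_ - _ * _ * _)‖ ≤ _
      rw [← hA1e, ← hA2e] at hAd
      rw [← hA1e] at hA1
      rw [← hp1, ← hp2] at hφd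
      rw [← hp2] at hφ2
      rw [← hp1] at hφ1
      rw [← hq1, ← hq2] at hdd
      rw [← hq2] at hd2
      rw [← hL2e] at hL2
      rw [← hL1e, ← hL2e] at hLd
      rw [← hce] at hIc
      rw [← hA1e, ← hA2e, ← hp1, ← hp2, ← hq1, ← hq2, ← hL1e, ← hL2e, ← hce]
      have h1 : A1 * (q1 - c * L1 * p1) - A2 * (q2 - c * L2 * p2) =
          (A1 * (q1 - q2) + (A1 - A2) * q2) -
          c * (A1 * ((L1 - L2) * p1) + A1 * (L2 * (p1 - p2)) + (A1 - A2) * (L2 * p2)) := by ring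
      rw [h1]
      have t1 : ‖A1 * (q1 - q2)‖ ≤ X * (δ' * Y) := by
        rw [norm_mul]; exact mul_le_mul hA1 hdd (norm_nonneg _) hX
      have t2 : ‖(A1 - A2) * q2‖ ≤ (X * (y * δb)) * (M' * Y) := by
        rw [norm_mul]; exact mul_le_mul hAd hd2 (norm_nonneg _) (by positivity)
      have t3 : ‖A1 * ((L1 - L2) * p1)‖ ≤ X * ((y * δb) * (M * Y)) := by
        rw [norm_mul, norm_mul]
        exact mul_le_mul hA1 (mul_le_mul hLd hφ1 (norm_nonneg _) (by positivity)) (by positivity) hX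
      have t4 : ‖A1 * (L2 * (p1 - p2))‖ ≤ X * ((y * B) * (δ * Y)) := by
        rw [norm_mul, norm_mul]
        exact mul_le_mul hA1 (mul_le_mul hL2 hφd (norm_nonneg _) (by positivity)) (by positivity) hX
      have t5 : ‖(A1 - A2) * (L2 * p2)‖ ≤ (X * (y * δb)) * ((y * B) * (M * Y)) := by
        rw [norm_mul, norm_mul]
        exact mul_le_mul hAd (mul_le_mul hL2 hφ2 (norm_nonneg _) (by positivity)) (by positivity)
          (by positivity)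
      calc _ ≤ ‖A1 * (q1 - q2) + (A1 - A2) * q2‖ +
            ‖c * (A1 * ((L1 - L2) * p1) + A1 * (L2 * (p1 - p2)) + (A1 - A2) * (L2 * p2))‖ :=
            norm_sub_le _ _
        _ ≤ (‖A1 * (q1 - q2)‖ + ‖(A1 - A2) * q2‖) +
            (‖A1 * ((L1 - L2) * p1)‖ + ‖A1 * (L2 * (p1 - p2))‖ + ‖(A1 - A2) * (L2 * p2)‖) := by
            refine add_le_add (norm_add_le _ _) ?_
            rw [norm_mul, hIc, one_mul]
            exact norm_add₃_le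
        _ ≤ (X * (δ' * Y) + (X * (y * δb)) * (M' * Y)) +
            (X * ((y * δb) * (M * Y)) + X * ((y * B) * (δ * Y)) +
              (X * (y * δb)) * ((y * B) * (M * Y))) := by linarith
        _ = (X * Y) * (δ' + (M' * δb + B * δ + M * δb) * y + (B * M * δb) * y ^ 2) := by ring
        _ ≤ (Real.exp (-(0.325 * y)) * e0) *
            (δ' + (M' * δb + B * δ + M * δb) * y + (B * M * δb) * y ^ 2) :=
            mul_le_mul_of_nonneg_right hXY (by positivity)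
        _ = _ := by ring

end JB2

end Pool.Agent.Helper383.NI
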