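import Pool.Agent.Helper383.NI.Defs

open Complex MeasureTheory Set Filter Topology

namespace Pool.Agent.Helper383.NI


namespace JB3

theorem Qop_ode (n ς τ σ B M M' : ℝ) (β f : ℂ → ℂ) (hn : 40 ≤ n) (hς : ς = 1 ∨ ς = -1)
    (hτ : τ = 1 ∨ τ = -1) (hσ : 0 < σ) (hB : 0 ≤ B) (hM : 0 ≤ M) (hM' : 0 ≤ M')
    (hβ : DifferentiableOn ℂ β (Str σ)) (hβ0 : ∀ z ∈ Str σ, ‖β z‖ ≤ B)
    (hβi : ∀ z ∈ Str σ, |(β z).im| ≤ 1 / 2) (hβ1 : ∀ z ∈ Str σ, ‖deriv β z‖ ≤ B)
    (hf : DifferentiableOn ℂ f (Str σ))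
    (hf0 : ∀ z ∈ Str σ, ‖f z‖ ≤ M * Real.exp (-(5 * |z.re|)))
    (hf1 : ∀ z ∈ Str σ, ‖deriv f z‖ ≤ M' * Real.exp (-(5 * |z.re|)))
    (hder : ∀ z ∈ Str σ, deriv (Qop n ς τ β f) z =
      ∫ y in Ioi (0 : ℝ), Complex.exp (((-y + 2 * ς * y / n : ℝ) : ℂ)
        - I * ((ς * τ : ℝ) : ℂ) * ∫ s in (0 : ℝ)..y, β (z + ((ς * s / n : ℝ) : ℂ)))
        * (deriv f (z + ((ς * y / n : ℝ) : ℂ)) - I * ((ς * τ : ℝ) : ℂ)
          * (∫ s in (0 : ℝ)..y, deriv β (z + ((ς * s / n : ℝ) : ℂ)))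
          * f (z + ((ς * y / n : ℝ) : ℂ)))) :
    ∀ z ∈ Str σ, deriv (Qop n ς τ β f) z + 2 * Qop n ς τ β f z =
      (ς : ℂ) * (n : ℂ) * (Qop n ς τ β f z - f z) + I * (τ : ℂ) * (n : ℂ) * β z * Qop n ς τ β f z := by
  intro z hz
  have hn0 : (0:ℝ) < n := by linarith
  have hnC : (n : ℂ) ≠ 0 := by exact_mod_cast hn0.ne'
  have hopen : IsOpen (Str σ) :=
    isOpen_lt (continuous_abs.comp Complex.continuous_im) continuous_const
  have hς2 : ς ^ 2 = 1 := by rcases hς with h | h <;> rw [h] <;> norm_num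
  have hςa : |ς| = 1 := by rcases hς with h | h <;> rw [h] <;> norm_num
  have hτa : |τ| = 1 := by rcases hτ with h | h <;> rw [h] <;> norm_num
  have hςC : (ς : ℂ) ^ 2 = 1 := by exact_mod_cast hς2
  have hmem : ∀ r : ℝ, z + (r : ℂ) ∈ Str σ := by
    intro r
    have : |z.im| < σ := hz
    simpa [Str] using this
  have hpath : ∀ y : ℝ, HasDerivAt (fun y : ℝ => z + ((ς * y / n : ℝ) : ℂ))
      ((ς / n : ℝ) : ℂ) y := by
    intro y
    have h1 : HasDerivAt (fun y : ℝ => ς * y / n) (ς / n) y := by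
      have := ((hasDerivAt_id y).const_mul ς).div_const n
      simpa using this
    exact (h1.ofReal_comp).const_add z
  have hpathc : Continuous (fun y : ℝ => z + ((ς * y / n : ℝ) : ℂ)) :=
    continuous_iff_continuousAt.mpr fun y => (hpath y).continuousAt
  obtain ⟨b, hb⟩ : ∃ b : ℝ → ℂ, b = fun y => β (z + ((ς * y / n : ℝ) : ℂ)) := ⟨_, rfl⟩
  obtain ⟨b', hb'⟩ : ∃ b' : ℝ → ℂ, b' = fun y => deriv β (z + ((ς * y / n : ℝ) : ℂ)) := ⟨_, rfl⟩
  obtain ⟨g, hg⟩ : ∃ g : ℝ → ℂ, g = fun y => f (z + ((ς * y / n : ℝ) : ℂ)) := ⟨_, rfl⟩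
  obtain ⟨g', hg'⟩ : ∃ g' : ℝ → ℂ, g' = fun y => deriv f (z + ((ς * y / n : ℝ) : ℂ)) := ⟨_, rfl⟩
  have hbd : ∀ y, HasDerivAt b (b' y * ((ς / n : ℝ) : ℂ)) y := by
    intro y
    have h1 : HasDerivAt β (deriv β (z + ((ς * y / n : ℝ) : ℂ))) (z + ((ς * y / n : ℝ) : ℂ)) :=
      (hβ.differentiableAt (hopen.mem_nhds (hmem _))).hasDerivAt
    rw [hb, hb']
    exact h1.comp y (hpath y)
  have hgd : ∀ y, HasDerivAt g (g' y * ((ς / n : ℝ) : ℂ)) y := by
    intro y
    have h1 : HasDerivAt f (deriv f (z + ((ς * y / n : ℝ) : ℂ))) (z + ((ς * y / n : ℝ) : ℂ)) :=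
      (hf.differentiableAt (hopen.mem_nhds (hmem _))).hasDerivAt
    rw [hg, hg']
    exact h1.comp y (hpath y)
  have hbc : Continuous b := continuous_iff_continuousAt.mpr fun y => (hbd y).continuousAt
  have hgc : Continuous g := continuous_iff_continuousAt.mpr fun y => (hgd y).continuousAt
  have hb'c : Continuous b' := by
    rw [hb']
    exact (hβ.deriv hopen).continuousOn.comp_continuous hpathc fun y => hmem _
  have hg'c : Continuous g' := by
    rw [hg']
    exact (hf.deriv hopen).continuousOn.comp_continuous hpathc fun y => hmem _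
  have hexp1 : ∀ r : ℝ, Real.exp (-(5 * |r|)) ≤ 1 := by
    intro r
    rw [Real.exp_le_one_iff]
    have := abs_nonneg r
    linarith
  have hbB : ∀ y, ‖b y‖ ≤ B := by
    intro y; rw [hb]; exact hβ0 _ (hmem _)
  have hbi : ∀ y, |(b y).im| ≤ 1 / 2 := by
    intro y; rw [hb]; exact hβi _ (hmem _)
  have hgM : ∀ y, ‖g y‖ ≤ M := by
    intro y; rw [hg]
    exact (hf0 _ (hmem _)).trans (by simpa using mul_le_mul_of_nonneg_left (hexp1 _) hM)
  have hg'M : ∀ y, ‖g' y‖ ≤ M' := by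
    intro y; rw [hg']
    exact (hf1 _ (hmem _)).trans (by simpa using mul_le_mul_of_nonneg_left (hexp1 _) hM')
  obtain ⟨J, hJ⟩ : ∃ J : ℝ → ℂ, J = fun y => ∫ s in (0 : ℝ)..y, b s := ⟨_, rfl⟩
  have hJd : ∀ y, HasDerivAt J (b y) y := by
    intro y
    rw [hJ]
    exact intervalIntegral.integral_hasDerivAt_right (hbc.intervalIntegrable _ _)
      hbc.stronglyMeasurable.stronglyMeasurableAtFilter hbc.continuousAt
  obtain ⟨E, hE⟩ : ∃ E : ℝ → ℂ, E = fun y => Complex.exp (((-y + 2 * ς * y / n : ℝ) : ℂ)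
        - I * ((ς * τ : ℝ) : ℂ) * J y) := ⟨_, rfl⟩
  have hEd : ∀ y, HasDerivAt E
      (E y * (((-1 + 2 * ς / n : ℝ) : ℂ) - I * ((ς * τ : ℝ) : ℂ) * b y)) y := by
    intro y
    have h1 : HasDerivAt (fun y : ℝ => -y + 2 * ς * y / n) (-1 + 2 * ς / n) y := by
      have e1 : HasDerivAt (fun y : ℝ => -y) (-1) y := hasDerivAt_neg y
      have e2 : HasDerivAt (fun y : ℝ => 2 * ς * y / n) (2 * ς / n) y := by
        simpa using ((hasDerivAt_id y).const_mul (2 * ς)).div_const n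
      exact e1.add e2
    have h2 := (h1.ofReal_comp).sub ((hJd y).const_mul (I * ((ς * τ : ℝ) : ℂ)))
    have h3 := h2.cexp
    rw [hE]
    exact h3
  have hEc : Continuous E := continuous_iff_continuousAt.mpr fun y => (hEd y).continuousAt
  have hJim : ∀ y, 0 ≤ y → |(J y).im| ≤ y / 2 := by
    intro y hy
    have h1 : (J y).im = ∫ s in (0 : ℝ)..y, (b s).im := by
      rw [hJ]
      have := (Complex.imCLM).intervalIntegral_comp_comm (hbc.intervalIntegrable (μ := volume) 0 y)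
      simpa using this.symm
    rw [h1]
    have h2 := intervalIntegral.norm_integral_le_of_norm_le_const (a := (0:ℝ)) (b := y)
      (f := fun s => (b s).im) (C := 1 / 2) (fun s _ => by
        rw [Real.norm_eq_abs]; exact hbi s)
    rw [Real.norm_eq_abs, sub_zero, abs_of_nonneg hy] at h2
    linarith
  have hEn : ∀ y, 0 ≤ y → ‖E y‖ ≤ Real.exp (-(9 / 20) * y) := by
    intro y hy
    have h1 : ‖E y‖ = Real.exp ((-y + 2 * ς * y / n) + ς * τ * (J y).im) := by
      rw [hE]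
      simp only [Complex.norm_exp]
      congr 1
      simp only [Complex.sub_re, Complex.ofReal_re, Complex.mul_re, Complex.I_re, Complex.I_im,
        Complex.ofReal_im, Complex.mul_im]
      ring
    rw [h1]
    apply Real.exp_le_exp.mpr
    have h2 : 2 * ς * y / n ≤ y / 20 := by
      have h3 : 2 * ς * y / n ≤ 2 * y / n := by
        apply div_le_div_of_nonneg_right _ hn0.le
        have : ς ≤ 1 := (le_abs_self ς).trans hςa.le
        nlinarith
      have h4 : 2 * y / n ≤ 2 * y / 40 :=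
        div_le_div_of_nonneg_left (by positivity) (by norm_num) hn
      linarith
    have h5 : ς * τ * (J y).im ≤ y / 2 := by
      calc ς * τ * (J y).im ≤ |ς * τ * (J y).im| := le_abs_self _
        _ = |(J y).im| := by rw [abs_mul, abs_mul, hςa, hτa]; ring
        _ ≤ y / 2 := hJim y hy
    linarith
  have hint : ∀ (h : ℝ → ℂ) (C : ℝ), Continuous h → (∀ y, ‖h y‖ ≤ C) →
      Integrable (fun y => E y * h y) (volume.restrict (Ioi (0:ℝ))) := by
    intro h C hc hC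
    have h1 : IntegrableOn (fun y : ℝ => C * Real.exp (-(9 / 20) * y)) (Ioi (0:ℝ)) :=
      (exp_neg_integrableOn_Ioi 0 (by norm_num : (0:ℝ) < 9 / 20)).const_mul C
    refine Integrable.mono' h1 (hEc.mul hc).aestronglyMeasurable ?_
    refine ae_restrict_of_forall_mem measurableSet_Ioi fun y hy => ?_
    rw [norm_mul, mul_comm]
    exact mul_le_mul (hC y) (hEn y (le_of_lt hy)) (norm_nonneg _) ((norm_nonneg _).trans (hC y))
  have hQ : Qop n ς τ β f z = ∫ y in Ioi (0:ℝ), E y * g y := by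
    rw [hE, hJ, hg, hb]; rfl
  have hJ' : ∀ y, ∫ s in (0:ℝ)..y, b' s = (ς : ℂ) * n * (b y - b 0) := by
    intro y
    have h1 : ∫ s in (0:ℝ)..y, b' s * ((ς / n : ℝ) : ℂ) = b y - b 0 :=
      intervalIntegral.integral_eq_sub_of_hasDerivAt (fun s _ => hbd s)
        ((hb'c.mul continuous_const).intervalIntegrable _ _)
    rw [intervalIntegral.integral_mul_const] at h1
    rw [← h1]
    push_cast
    have h2 : (ς : ℂ) * n * ((∫ s in (0:ℝ)..y, b' s) * (ς / n))
        = ς ^ 2 * ∫ s in (0:ℝ)..y, b' s := by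
      field_simp
    rw [h2, hςC, one_mul]
  have hb0 : b 0 = β z := by rw [hb]; simp
  have hg0 : g 0 = f z := by rw [hg]; simp
  have hE0 : E 0 = 1 := by rw [hE, hJ]; simp
  have hi1 := hint g M hgc hgM
  have hi2 := hint g' M' hg'c hg'M
  have hi3 := hint (fun y => b y * g y) (B * M) (hbc.mul hgc) (fun y => by
    rw [norm_mul]; exact mul_le_mul (hbB y) (hgM y) (norm_nonneg _) hB)
  have hD : deriv (Qop n ς τ β f) z = (∫ y in Ioi (0:ℝ), E y * g' y)
      - I * τ * n * (∫ y in Ioi (0:ℝ), E y * (b y * g y))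
      + I * τ * n * β z * ∫ y in Ioi (0:ℝ), E y * g y := by
    have h1 : deriv (Qop n ς τ β f) z = ∫ y in Ioi (0:ℝ), E y * (g' y - I * ((ς * τ : ℝ) : ℂ)
        * (∫ s in (0:ℝ)..y, b' s) * g y) := by
      rw [hder z hz, hE, hJ, hg, hb, hb', hg']
    rw [h1]
    have h2 : ∀ y, E y * (g' y - I * ((ς * τ : ℝ) : ℂ) * (∫ s in (0:ℝ)..y, b' s) * g y)
        = (E y * g' y - I * τ * n * (E y * (b y * g y))) + I * τ * n * β z * (E y * g y) := by
      intro y
      rw [hJ' y, hb0]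
      push_cast
      have h3 : I * ((ς : ℂ) * τ) * ((ς : ℂ) * n * (b y - β z)) * g y
          = ς ^ 2 * (I * τ * n * (b y - β z) * g y) := by ring
      rw [h3, hςC]
      ring
    simp_rw [h2]
    have hj1 : Integrable (fun y => E y * g' y - I * τ * n * (E y * (b y * g y)))
        (volume.restrict (Ioi (0:ℝ))) := hi2.sub (hi3.const_mul _)
    have hj2 : Integrable (fun y => I * τ * n * β z * (E y * g y))
        (volume.restrict (Ioi (0:ℝ))) := hi1.const_mul _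
    rw [integral_add hj1 hj2, integral_sub hi2 (hi3.const_mul _), integral_const_mul,
      integral_const_mul]
  -- integration by parts
  have hF : ∀ y, HasDerivAt (fun y => E y * g y)
      ((((-1 + 2 * ς / n : ℝ) : ℂ) * (E y * g y) - I * ((ς * τ : ℝ) : ℂ) * (E y * (b y * g y)))
        + ((ς / n : ℝ) : ℂ) * (E y * g' y)) y := by
    intro y
    have h1 := (hEd y).mul (hgd y)
    have h2 : E y * (((-1 + 2 * ς / n : ℝ) : ℂ) - I * ((ς * τ : ℝ) : ℂ) * b y) * g y
        + E y * (g' y * ((ς / n : ℝ) : ℂ))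
        = (((-1 + 2 * ς / n : ℝ) : ℂ) * (E y * g y)
          - I * ((ς * τ : ℝ) : ℂ) * (E y * (b y * g y))) + ((ς / n : ℝ) : ℂ) * (E y * g' y) := by
      ring
    rw [← h2]
    exact h1
  have hk1 : Integrable (fun y => ((-1 + 2 * ς / n : ℝ) : ℂ) * (E y * g y)
      - I * ((ς * τ : ℝ) : ℂ) * (E y * (b y * g y))) (volume.restrict (Ioi (0:ℝ))) :=
    (hi1.const_mul _).sub (hi3.const_mul _)
  have hk2 : Integrable (fun y => ((ς / n : ℝ) : ℂ) * (E y * g' y))
      (volume.restrict (Ioi (0:ℝ))) := hi2.const_mul _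
  have hlim : Tendsto (fun y => E y * g y) atTop (𝓝 0) := by
    have h1 : Tendsto (fun y : ℝ => M * Real.exp (-(9 / 20) * y)) atTop (𝓝 0) := by
      have h2 : Tendsto (fun y : ℝ => -(9 / 20) * y) atTop atBot :=
        tendsto_id.const_mul_atTop_of_neg (by norm_num)
      have h3 := (Real.tendsto_exp_atBot.comp h2).const_mul M
      simpa using h3
    refine squeeze_zero_norm' ?_ h1
    filter_upwards [eventually_ge_atTop (0:ℝ)] with y hy
    rw [norm_mul, mul_comm]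
    exact mul_le_mul (hgM y) (hEn y hy) (norm_nonneg _) hM
  have hibp := integral_Ioi_of_hasDerivAt_of_tendsto' (a := (0:ℝ)) (fun y _ => hF y)
    (hk1.add hk2) hlim
  rw [integral_add hk1 hk2, integral_sub (hi1.const_mul _) (hi3.const_mul _),
    integral_const_mul, integral_const_mul, integral_const_mul, hE0, hg0, zero_sub, one_mul]
    at hibp
  rw [hD, hQ]
  generalize (∫ y in Ioi (0:ℝ), E y * g' y) = A at hibp ⊢
  generalize (∫ y in Ioi (0:ℝ), E y * (b y * g y)) = C at hibp ⊢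
  generalize (∫ y in Ioi (0:ℝ), E y * g y) = Q at hibp ⊢
  push_cast at hibp
  have hfz : f z = -(((-1 + 2 * (ς : ℂ) / n) * Q - I * ((ς : ℂ) * τ) * C) + (ς : ℂ) / n * A) := by
    rw [hibp]; ring
  rw [hfz]
  have h9 : (ς : ℂ) * n * (Q - -(((-1 + 2 * (ς : ℂ) / n) * Q - I * ((ς : ℂ) * τ) * C)
      + (ς : ℂ) / n * A)) = 2 * ς ^ 2 * Q - ς ^ 2 * (I * n * τ * C) + ς ^ 2 * A := by
    field_simp
    ring
  rw [h9, hςC]
  ring

end JB3

end Pool.Agent.Helper383.NI
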