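import Pool.Agent.Helper383.NI.Defs

open Complex MeasureTheory Set Filter Topology

namespace Pool.Agent.Helper383.NI


namespace JB4

theorem core_norm_exp (a c : ℝ) (b : ℝ → ℂ) (hbr : ∀ y, (b y).im = 0) (y : ℝ) :
    ‖cexp (((-(a * y) : ℝ) : ℂ) - I * (c : ℂ) * ∫ s in (0 : ℝ)..y, b s)‖ = Real.exp (-(a * y)) := by
  have h : (∫ s in (0 : ℝ)..y, b s) = ((∫ s in (0 : ℝ)..y, (b s).re : ℝ) : ℂ) := by
    rw [← intervalIntegral.integral_ofReal]
    congr 1
    funext s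
    apply Complex.ext
    · simp
    · simpa using hbr s
  rw [h, Complex.norm_exp]
  congr 1
  simp

theorem core_D (a c : ℝ) (ha : 0.95 ≤ a) (w : ℂ) (hw : w.im = 0) :
    0.95 ≤ ‖(a : ℂ) + I * (c : ℂ) * w‖ := by
  have h := Complex.re_le_norm ((a : ℂ) + I * (c : ℂ) * w)
  have h2 : ((a : ℂ) + I * (c : ℂ) * w).re = a := by
    simp [hw]
  rw [h2] at h
  exact ha.trans h

theorem core (a c : ℝ) (b b' F F' : ℝ → ℂ) (ha : 0.95 ≤ a) (hc : |c| = 1)
    (hb : ∀ y, HasDerivAt b (b' y) y) (hF : ∀ y, HasDerivAt F (F' y) y)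
    (hb'c : Continuous b') (hF'c : Continuous F')
    (hbr : ∀ y, (b y).im = 0) (C0 C1 C2 : ℝ) (h0 : 0 ≤ C0) (h1 : 0 ≤ C1) (h2 : 0 ≤ C2)
    (hF0 : ∀ y, 0 < y → ‖F y‖ ≤ C0 * Real.exp (y / 8))
    (hF1 : ∀ y, 0 < y → ‖F' y‖ ≤ C1 * Real.exp (y / 8)) (hb1 : ∀ y, ‖b' y‖ ≤ C2) :
    ‖(∫ y in Ioi (0:ℝ), cexp (((-(a * y) : ℝ) : ℂ) - I * (c : ℂ) * ∫ s in (0 : ℝ)..y, b s) * F y)
      - F 0 / ((a : ℂ) + I * (c : ℂ) * b 0)‖ ≤ 2 * (C1 + C0 * C2) := by
  have hbc : Continuous b := continuous_iff_continuousAt.2 fun y => (hb y).continuousAt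
  have hFc : Continuous F := continuous_iff_continuousAt.2 fun y => (hF y).continuousAt
  set D : ℝ → ℂ := fun y => (a : ℂ) + I * (c : ℂ) * b y with hD
  set X : ℝ → ℂ := fun y => cexp (((-(a * y) : ℝ) : ℂ) - I * (c : ℂ) * ∫ s in (0 : ℝ)..y, b s) with hX
  have hDn : ∀ y, 0.95 ≤ ‖D y‖ := fun y => core_D a c ha (b y) (hbr y)
  have hD0 : ∀ y, D y ≠ 0 := by
    intro y h
    have := hDn y
    rw [h, norm_zero] at this
    norm_num at this
  have hDd : ∀ y, HasDerivAt D (I * (c : ℂ) * b' y) y := fun y =>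
    ((hb y).const_mul (I * (c : ℂ))).const_add (a : ℂ)
  have hDc : Continuous D := continuous_iff_continuousAt.2 fun y => (hDd y).continuousAt
  have hXn : ∀ y, ‖X y‖ = Real.exp (-(a * y)) := core_norm_exp a c b hbr
  have hXd : ∀ y, HasDerivAt X (- (X y * D y)) y := by
    intro y
    have e1 : HasDerivAt (fun y : ℝ => (((-(a * y) : ℝ)) : ℂ)) (-(a : ℂ)) y := by
      have := ((hasDerivAt_id y).const_mul a).neg.ofReal_comp
      simpa using this
    have e2 : HasDerivAt (fun y : ℝ => ∫ s in (0 : ℝ)..y, b s) (b y) y :=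
      intervalIntegral.integral_hasDerivAt_right (hbc.intervalIntegrable _ _)
        (hbc.stronglyMeasurableAtFilter _ _) hbc.continuousAt
    have e3 := (e1.sub (e2.const_mul (I * (c : ℂ)))).cexp
    refine e3.congr_deriv ?_
    simp only [hX, hD, Pi.sub_apply]
    ring
  have hXc : Continuous X := continuous_iff_continuousAt.2 fun y => (hXd y).continuousAt
  set R : ℝ → ℂ := fun y => X y * (F' y / D y - F y * (I * (c : ℂ) * b' y) / D y ^ 2) with hR
  have hRc : Continuous R := by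
    apply hXc.mul
    apply Continuous.sub
    · exact hF'c.div hDc hD0
    · exact (hFc.mul (continuous_const.mul hb'c)).div (hDc.pow 2) (fun y => pow_ne_zero 2 (hD0 y))
  have hGd : ∀ y, HasDerivAt (fun y => X y * (F y / D y)) (- (X y * F y) + R y) y := by
    intro y
    have := (hXd y).mul ((hF y).div (hDd y) (hD0 y))
    refine this.congr_deriv ?_
    simp only [hR, Pi.div_apply]
    field_simp [hD0 y]
    try ring
  have hexp : ∀ y : ℝ, 0 < y → Real.exp (-(a * y)) * Real.exp (y / 8) ≤ Real.exp (-0.8 * y) := by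
    intro y hy
    rw [← Real.exp_add]
    apply Real.exp_le_exp.2
    norm_num at ha ⊢
    nlinarith
  have hPb : ∀ y : ℝ, 0 < y → ‖X y * F y‖ ≤ C0 * Real.exp (-0.8 * y) := by
    intro y hy
    rw [norm_mul, hXn]
    calc Real.exp (-(a * y)) * ‖F y‖ ≤ Real.exp (-(a * y)) * (C0 * Real.exp (y / 8)) :=
          mul_le_mul_of_nonneg_left (hF0 y hy) (Real.exp_pos _).le
      _ = C0 * (Real.exp (-(a * y)) * Real.exp (y / 8)) := by ring
      _ ≤ _ := mul_le_mul_of_nonneg_left (hexp y hy) h0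
  have hRb : ∀ y : ℝ, 0 < y → ‖R y‖ ≤ (1.6 * (C1 + C0 * C2)) * Real.exp (-0.8 * y) := by
    intro y hy
    have hd := hDn y
    have hdp : 0 < ‖D y‖ := lt_of_lt_of_le (by norm_num) hd
    have k1 : ‖F' y / D y‖ ≤ 1.1 * (C1 * Real.exp (y / 8)) := by
      rw [norm_div, div_le_iff₀ hdp]
      have := hF1 y hy
      have h3 : 0 ≤ C1 * Real.exp (y / 8) := mul_nonneg h1 (Real.exp_pos _).le
      nlinarith
    have k2 : ‖F y * (I * (c : ℂ) * b' y) / D y ^ 2‖ ≤ 1.2 * (C0 * C2 * Real.exp (y / 8)) := by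
      rw [norm_div, norm_pow, div_le_iff₀ (pow_pos hdp 2), norm_mul, norm_mul, norm_mul,
        Complex.norm_I, one_mul, Complex.norm_real, Real.norm_eq_abs, hc, one_mul]
      have h3 : ‖F y‖ * ‖b' y‖ ≤ C0 * C2 * Real.exp (y / 8) := by
        calc ‖F y‖ * ‖b' y‖ ≤ (C0 * Real.exp (y / 8)) * C2 :=
            mul_le_mul (hF0 y hy) (hb1 y) (norm_nonneg _) (mul_nonneg h0 (Real.exp_pos _).le)
          _ = _ := by ring
      have h4 : 0 ≤ C0 * C2 * Real.exp (y / 8) := mul_nonneg (mul_nonneg h0 h2) (Real.exp_pos _).le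
      have h5 : 0.9 ≤ ‖D y‖ ^ 2 := by norm_num at hd ⊢; nlinarith
      have h6 := mul_le_mul_of_nonneg_left h5 h4
      norm_num at h6 ⊢
      linarith
    simp only [hR]
    rw [norm_mul, hXn]
    have k3 : ‖F' y / D y - F y * (I * (c : ℂ) * b' y) / D y ^ 2‖ ≤
        (1.6 * (C1 + C0 * C2)) * Real.exp (y / 8) := by
      refine (norm_sub_le _ _).trans ?_
      have h3 : 0 ≤ C1 * Real.exp (y / 8) := mul_nonneg h1 (Real.exp_pos _).le
      have h4 : 0 ≤ C0 * C2 * Real.exp (y / 8) := mul_nonneg (mul_nonneg h0 h2) (Real.exp_pos _).le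
      norm_num at k1 k2 ⊢
      linarith
    calc _ ≤ Real.exp (-(a * y)) * ((1.6 * (C1 + C0 * C2)) * Real.exp (y / 8)) :=
          mul_le_mul_of_nonneg_left k3 (Real.exp_pos _).le
      _ = (1.6 * (C1 + C0 * C2)) * (Real.exp (-(a * y)) * Real.exp (y / 8)) := by ring
      _ ≤ _ := mul_le_mul_of_nonneg_left (hexp y hy) (by have := mul_nonneg h0 h2; positivity)
  have hint : IntegrableOn (fun y : ℝ => Real.exp (-0.8 * y)) (Ioi 0) :=
    integrableOn_exp_mul_Ioi (by norm_num) 0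
  have hval : ∫ y in Ioi (0:ℝ), Real.exp (-0.8 * y) = 1.25 := by
    rw [integral_exp_mul_Ioi (by norm_num) 0]
    norm_num
  have hPi : IntegrableOn (fun y => X y * F y) (Ioi 0) := by
    refine Integrable.mono' (hint.const_mul C0) (hXc.mul hFc).aestronglyMeasurable ?_
    exact (ae_restrict_mem measurableSet_Ioi).mono fun y hy => hPb y hy
  have hRi : IntegrableOn R (Ioi 0) := by
    refine Integrable.mono' (hint.const_mul (1.6 * (C1 + C0 * C2))) hRc.aestronglyMeasurable ?_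
    exact (ae_restrict_mem measurableSet_Ioi).mono fun y hy => hRb y hy
  have hlim : Tendsto (fun y => X y * (F y / D y)) atTop (𝓝 0) := by
    have hl : Tendsto (fun y : ℝ => (1.1 * C0) * Real.exp (-0.8 * y)) atTop (𝓝 0) := by
      have : Tendsto (fun y : ℝ => Real.exp (-0.8 * y)) atTop (𝓝 0) := by
        apply Real.tendsto_exp_atBot.comp
        exact tendsto_id.const_mul_atTop_of_neg (by norm_num)
      simpa using this.const_mul (1.1 * C0)
    refine squeeze_zero_norm' ?_ hl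
    filter_upwards [eventually_gt_atTop 0] with y hy
    have hd := hDn y
    have hdp : 0 < ‖D y‖ := lt_of_lt_of_le (by norm_num) hd
    rw [← mul_div_assoc, norm_div, div_le_iff₀ hdp]
    have h3 := hPb y hy
    have h4 : 0 ≤ C0 * Real.exp (-0.8 * y) := mul_nonneg h0 (Real.exp_pos _).le
    have h6 := mul_le_mul_of_nonneg_left hd h4
    norm_num at h6 h3 h4 ⊢
    linarith
  have hI := integral_Ioi_of_hasDerivAt_of_tendsto' (a := (0:ℝ)) (fun y _ => hGd y)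
    (hPi.neg.add hRi) hlim
  have hI2 : ∫ y in Ioi (0:ℝ), (- (X y * F y) + R y) = - (∫ y in Ioi (0:ℝ), X y * F y) + ∫ y in Ioi (0:ℝ), R y := by
    rw [← integral_neg]
    exact integral_add hPi.neg hRi
  rw [hI2] at hI
  have hX0 : X 0 = 1 := by simp [hX]
  rw [hX0, one_mul] at hI
  have hfin : (∫ y in Ioi (0:ℝ), X y * F y) - F 0 / D 0 = ∫ y in Ioi (0:ℝ), R y := by
    linear_combination -hI
  change ‖(∫ y in Ioi (0:ℝ), X y * F y) - F 0 / D 0‖ ≤ _
  rw [hfin]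
  refine (norm_integral_le_of_norm_le (hint.const_mul (1.6 * (C1 + C0 * C2)))
    ((ae_restrict_mem measurableSet_Ioi).mono fun y hy => hRb y hy)).trans ?_
  rw [integral_const_mul, hval]
  apply le_of_eq
  ring

theorem main_term (n ς τ M ex : ℝ) (w v : ℂ) (hn : 40 ≤ n) (hς : ς = 1 ∨ ς = -1)
    (hτ : τ = 1 ∨ τ = -1) (hw : w.im = 0) (hv : ‖v‖ ≤ M * ex) :
    ‖v / (((1 - 2 * ς / n : ℝ) : ℂ) + I * ((ς * τ : ℝ) : ℂ) * w)‖ ≤
      ‖v‖ / Real.sqrt (1 + ‖w‖ ^ 2) + 3 / n * (M * ex) := by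
  have hn0 : (0:ℝ) < n := by linarith
  have h2n : 2 / n ≤ 0.05 := by
    rw [div_le_iff₀ hn0]; norm_num; linarith
  have h2n0 : 0 < 2 / n := by positivity
  have hww : w = (w.re : ℂ) := by
    apply Complex.ext
    · simp
    · simpa using hw
  have hnw : ‖w‖ ^ 2 = w.re ^ 2 := by
    rw [hww, Complex.norm_real, Real.norm_eq_abs, sq_abs, Complex.ofReal_re]
  have hst : (ς * τ) ^ 2 = 1 := by
    rcases hς with rfl | rfl <;> rcases hτ with rfl | rfl <;> norm_num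
  have hnD : ‖(((1 - 2 * ς / n : ℝ) : ℂ) + I * ((ς * τ : ℝ) : ℂ) * w)‖
      = Real.sqrt ((1 - 2 * ς / n) ^ 2 + ‖w‖ ^ 2) := by
    rw [hnw, Complex.norm_eq_sqrt_sq_add_sq]
    congr 1
    have e1 : (((1 - 2 * ς / n : ℝ) : ℂ) + I * ((ς * τ : ℝ) : ℂ) * w).re = 1 - 2 * ς / n := by
      rw [hww]
      simp
    have e2 : (((1 - 2 * ς / n : ℝ) : ℂ) + I * ((ς * τ : ℝ) : ℂ) * w).im = ς * τ * w.re := by
      conv_lhs => rw [hww]
      simp
    rw [e1, e2, mul_pow, hst, one_mul]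
  rw [norm_div, hnD]
  have hs0 : 0 < Real.sqrt (1 + ‖w‖ ^ 2) := Real.sqrt_pos.2 (by positivity)
  have hs1 : 1 ≤ Real.sqrt (1 + ‖w‖ ^ 2) := by
    rw [show (1:ℝ) = Real.sqrt 1 by simp]
    apply Real.sqrt_le_sqrt
    simp only [Real.sqrt_one]
    nlinarith [sq_nonneg ‖w‖]
  set q : ℝ := 1 - 2 / n with hq
  have hq1 : 0.95 ≤ q := by norm_num [hq] at h2n ⊢; linarith
  have hq2 : q ≤ 1 := by rw [hq]; linarith
  have hq0 : 0 < q := lt_of_lt_of_le (by norm_num) hq1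
  have hge : q * Real.sqrt (1 + ‖w‖ ^ 2) ≤ Real.sqrt ((1 - 2 * ς / n) ^ 2 + ‖w‖ ^ 2) := by
    have : q = Real.sqrt (q ^ 2) := (Real.sqrt_sq hq0.le).symm
    rw [this, ← Real.sqrt_mul (sq_nonneg q)]
    apply Real.sqrt_le_sqrt
    have h3 : q ^ 2 ≤ (1 - 2 * ς / n) ^ 2 := by
      apply pow_le_pow_left₀ hq0.le
      rcases hς with rfl | rfl
      · rw [hq]; linarith [show (2:ℝ) * 1 / n = 2 / n by ring]
      · rw [hq]; have : (2:ℝ) * (-1) / n = - (2 / n) := by ring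
        linarith
    have h4 : q ^ 2 ≤ 1 := pow_le_one₀ hq0.le hq2
    nlinarith [sq_nonneg ‖w‖]
  have hM : 0 ≤ M * ex := (norm_nonneg v).trans hv
  calc ‖v‖ / Real.sqrt ((1 - 2 * ς / n) ^ 2 + ‖w‖ ^ 2)
      ≤ ‖v‖ / (q * Real.sqrt (1 + ‖w‖ ^ 2)) :=
        div_le_div_of_nonneg_left (norm_nonneg v) (by positivity) hge
    _ = ‖v‖ / Real.sqrt (1 + ‖w‖ ^ 2) + (1 / q - 1) * (‖v‖ / Real.sqrt (1 + ‖w‖ ^ 2)) := by
        field_simp
        ring
    _ ≤ ‖v‖ / Real.sqrt (1 + ‖w‖ ^ 2) + 3 / n * (M * ex) := by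
        have h5 : 1 / q - 1 ≤ 3 / n := by
          have : 1 / q ≤ 1 + 3 / n := by
            rw [div_le_iff₀ hq0]
            have h6 : 3 / n = 3 / 2 * (2 / n) := by ring
            rw [h6, hq]
            norm_num at h2n ⊢
            nlinarith
          linarith
        have h6 : 0 ≤ 1 / q - 1 := by
          have : 1 ≤ 1 / q := by rw [le_div_iff₀ hq0]; linarith
          linarith
        have h7 : ‖v‖ / Real.sqrt (1 + ‖w‖ ^ 2) ≤ M * ex :=
          (div_le_self (norm_nonneg v) hs1).trans hv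
        have h8 := mul_le_mul h5 h7 (by positivity) (by positivity)
        linarith

theorem Qop_symm (n ς τ : ℝ) (β f f₂ : ℂ → ℂ) (σ : ℝ) (z : ℂ) (hz : z ∈ Str σ)
    (hβ : ∀ z ∈ Str σ, β ((starRingEnd ℂ) z) = (starRingEnd ℂ) (β z))
    (hf : ∀ z ∈ Str σ, f₂ ((starRingEnd ℂ) z) = (starRingEnd ℂ) (f z)) :
    Qop n ς (-τ) β f₂ ((starRingEnd ℂ) z) = (starRingEnd ℂ) (Qop n ς τ β f z) := by
  unfold Qop
  rw [← integral_conj]
  apply integral_congr_ae
  refine Filter.Eventually.of_forall fun y => ?_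
  have hmem : ∀ r : ℝ, z + (r : ℂ) ∈ Str σ := by
    intro r
    unfold Str at hz ⊢
    simpa using hz
  have hadd : ∀ r : ℝ, (starRingEnd ℂ) z + (r : ℂ) = (starRingEnd ℂ) (z + (r : ℂ)) := by
    intro r
    rw [map_add, Complex.conj_ofReal]
  simp only []
  rw [map_mul, ← Complex.exp_conj, hadd, hf _ (hmem _)]
  congr 2
  have hint : (∫ s in (0 : ℝ)..y, β ((starRingEnd ℂ) z + ((ς * s / n : ℝ) : ℂ)))
      = (starRingEnd ℂ) (∫ s in (0 : ℝ)..y, β (z + ((ς * s / n : ℝ) : ℂ))) := by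
    have h1 : (fun s : ℝ => β ((starRingEnd ℂ) z + ((ς * s / n : ℝ) : ℂ)))
        = fun s : ℝ => (starRingEnd ℂ) (β (z + ((ς * s / n : ℝ) : ℂ))) := by
      funext s
      rw [hadd, hβ _ (hmem _)]
    rw [h1]
    unfold intervalIntegral
    rw [integral_conj, integral_conj, map_sub]
  rw [hint, map_sub, map_mul, map_mul, Complex.conj_ofReal, Complex.conj_I, Complex.conj_ofReal]
  push_cast
  ring

/-- asymptotic bound on the real axis (integration by parts) -/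
theorem Qop_real_bound (n ς τ σ B M M' : ℝ) (β f : ℂ → ℂ) (hn : 40 ≤ n) (hς : ς = 1 ∨ ς = -1)
    (hτ : τ = 1 ∨ τ = -1) (hσ : 0 < σ) (hB : 0 ≤ B) (hM : 0 ≤ M) (hM' : 0 ≤ M')
    (hβ : DifferentiableOn ℂ β (Str σ)) (hβ0 : ∀ z ∈ Str σ, ‖β z‖ ≤ B)
    (hβr : ∀ x : ℝ, (β x).im = 0) (hβ1 : ∀ z ∈ Str σ, ‖deriv β z‖ ≤ B)
    (hf : DifferentiableOn ℂ f (Str σ))
    (hf0 : ∀ z ∈ Str σ, ‖f z‖ ≤ M * Real.exp (-(5 * |z.re|)))
    (hf1 : ∀ z ∈ Str σ, ‖deriv f z‖ ≤ M' * Real.exp (-(5 * |z.re|))) :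
    ∀ x : ℝ, ‖Qop n ς τ β f x‖ ≤ ‖f x‖ / Real.sqrt (1 + ‖β x‖ ^ 2)
      + 40 * (1 + B) * (M + M') / n * Real.exp (-(5 * |x|)) := by
  intro x
  have hn0 : (0:ℝ) < n := by linarith
  have hmem : ∀ r : ℝ, (x : ℂ) + (r : ℂ) ∈ Str σ := by
    intro r
    unfold Str
    simpa using hσ
  have hopen : IsOpen (Str σ) := by
    unfold Str
    exact isOpen_lt (continuous_abs.comp Complex.continuous_im) continuous_const
  have hςabs : |ς| = 1 := by rcases hς with rfl | rfl <;> simp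
  have hpath : ∀ y : ℝ, HasDerivAt (fun y : ℝ => (x : ℂ) + ((ς * y / n : ℝ) : ℂ)) ((ς / n : ℝ) : ℂ) y := by
    intro y
    have h1 : HasDerivAt (fun y : ℝ => ς * y / n) (ς / n) y := by
      have := ((hasDerivAt_id y).const_mul ς).div_const n
      simpa using this
    exact h1.ofReal_comp.const_add _
  have hpc : Continuous (fun y : ℝ => (x : ℂ) + ((ς * y / n : ℝ) : ℂ)) :=
    continuous_iff_continuousAt.2 fun y => (hpath y).continuousAt
  have hd : ∀ g : ℂ → ℂ, DifferentiableOn ℂ g (Str σ) → ∀ y : ℝ,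
      HasDerivAt (fun y : ℝ => g ((x : ℂ) + ((ς * y / n : ℝ) : ℂ)))
        (deriv g ((x : ℂ) + ((ς * y / n : ℝ) : ℂ)) * ((ς / n : ℝ) : ℂ)) y := by
    intro g hg y
    have h1 : HasDerivAt g (deriv g ((x : ℂ) + ((ς * y / n : ℝ) : ℂ))) ((x : ℂ) + ((ς * y / n : ℝ) : ℂ)) :=
      (hg.differentiableAt (hopen.mem_nhds (hmem _))).hasDerivAt
    exact h1.comp y (hpath y)
  have hdc : ∀ g : ℂ → ℂ, DifferentiableOn ℂ g (Str σ) →
      Continuous (fun y : ℝ => deriv g ((x : ℂ) + ((ς * y / n : ℝ) : ℂ)) * ((ς / n : ℝ) : ℂ)) := by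
    intro g hg
    apply Continuous.mul _ continuous_const
    exact (hg.deriv hopen).continuousOn.comp_continuous hpc (fun y => hmem _)
  have hnς : ‖((ς / n : ℝ) : ℂ)‖ = 1 / n := by
    rw [Complex.norm_real, Real.norm_eq_abs, abs_div, hςabs, abs_of_pos hn0]
  have hexb : ∀ y : ℝ, 0 < y → Real.exp (-(5 * |((x : ℂ) + ((ς * y / n : ℝ) : ℂ)).re|))
      ≤ Real.exp (-(5 * |x|)) * Real.exp (y / 8) := by
    intro y hy
    rw [← Real.exp_add]
    apply Real.exp_le_exp.2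
    have e : ((x : ℂ) + ((ς * y / n : ℝ) : ℂ)).re = x + ς * y / n := by
      rw [Complex.add_re, Complex.ofReal_re, Complex.ofReal_re]
    rw [e]
    have h1 : |x| ≤ |x + ς * y / n| + |ς * y / n| := by
      have := abs_sub (x + ς * y / n) (ς * y / n)
      rwa [add_sub_cancel_right] at this
    have h2 : |ς * y / n| ≤ y / 40 := by
      rw [abs_div, abs_mul, hςabs, one_mul, abs_of_pos hy, abs_of_pos hn0]
      exact div_le_div_of_nonneg_left hy.le (by norm_num) hn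
    linarith
  have hcore := core (1 - 2 * ς / n) (ς * τ) (fun y => β ((x : ℂ) + ((ς * y / n : ℝ) : ℂ)))
    (fun y => deriv β ((x : ℂ) + ((ς * y / n : ℝ) : ℂ)) * ((ς / n : ℝ) : ℂ))
    (fun y => f ((x : ℂ) + ((ς * y / n : ℝ) : ℂ)))
    (fun y => deriv f ((x : ℂ) + ((ς * y / n : ℝ) : ℂ)) * ((ς / n : ℝ) : ℂ))
    (by
      have h2n : 2 / n ≤ 0.05 := by
        rw [div_le_iff₀ hn0]; norm_num; linarith
      have h2n0 : 0 < 2 / n := by positivity
      rcases hς with rfl | rfl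
      · rw [show (2:ℝ) * 1 / n = 2 / n by ring]; norm_num at h2n ⊢; linarith
      · rw [show (2:ℝ) * (-1) / n = - (2 / n) by ring]; norm_num at h2n ⊢; linarith)
    (by rcases hς with rfl | rfl <;> rcases hτ with rfl | rfl <;> norm_num)
    (hd β hβ) (hd f hf) (hdc β hβ) (hdc f hf)
    (fun y => by
      have := hβr (x + ς * y / n)
      simpa using this)
    (M * Real.exp (-(5 * |x|))) (M' / n * Real.exp (-(5 * |x|))) (B / n)
    (by positivity) (by positivity) (by positivity)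
    (fun y hy => by
      refine (hf0 _ (hmem _)).trans ?_
      rw [mul_assoc]
      exact mul_le_mul_of_nonneg_left (hexb y hy) hM)
    (fun y hy => by
      rw [norm_mul, hnς]
      have h1 := (hf1 _ (hmem (ς * y / n))).trans (mul_le_mul_of_nonneg_left (hexb y hy) hM')
      have h2 := mul_le_mul_of_nonneg_right h1 (show (0:ℝ) ≤ 1 / n by positivity)
      refine h2.trans (le_of_eq ?_)
      ring)
    (fun y => by
      rw [norm_mul, hnς]
      have h2 := mul_le_mul_of_nonneg_right (hβ1 _ (hmem (ς * y / n))) (show (0:ℝ) ≤ 1 / n by positivity)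
      refine h2.trans (le_of_eq ?_)
      ring)
  have hx0 : (x : ℂ) + ((ς * 0 / n : ℝ) : ℂ) = (x : ℂ) := by simp
  have hQ : Qop n ς τ β f x = ∫ y in Ioi (0:ℝ), cexp (((-((1 - 2 * ς / n) * y) : ℝ) : ℂ)
      - I * ((ς * τ : ℝ) : ℂ) * ∫ s in (0 : ℝ)..y, β ((x : ℂ) + ((ς * s / n : ℝ) : ℂ)))
        * f ((x : ℂ) + ((ς * y / n : ℝ) : ℂ)) := by
    unfold Qop
    apply integral_congr_ae
    refine Filter.Eventually.of_forall fun y => ?_
    have : -((1 - 2 * ς / n) * y) = -y + 2 * ς * y / n := by ring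
    simp only [this]
  simp only [hx0] at hcore
  rw [← hQ] at hcore
  have hfx : ‖f x‖ ≤ M * Real.exp (-(5 * |x|)) := by
    have := hf0 x (by have := hmem 0; simpa using this)
    simpa using this
  have hmain := main_term n ς τ M (Real.exp (-(5 * |x|))) (β x) (f x) hn hς hτ (hβr x) hfx
  have htri : ‖Qop n ς τ β f x‖ ≤
      ‖Qop n ς τ β f x - f x / (((1 - 2 * ς / n : ℝ) : ℂ) + I * ((ς * τ : ℝ) : ℂ) * β x)‖
      + ‖f x / (((1 - 2 * ς / n : ℝ) : ℂ) + I * ((ς * τ : ℝ) : ℂ) * β x)‖ := by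
    have := norm_add_le (Qop n ς τ β f x - f x / (((1 - 2 * ς / n : ℝ) : ℂ) + I * ((ς * τ : ℝ) : ℂ) * β x))
      (f x / (((1 - 2 * ς / n : ℝ) : ℂ) + I * ((ς * τ : ℝ) : ℂ) * β x))
    rwa [sub_add_cancel] at this
  refine htri.trans ((add_le_add hcore hmain).trans ?_)
  have hex : 0 < Real.exp (-(5 * |x|)) := Real.exp_pos _
  set ex := Real.exp (-(5 * |x|)) with hexdef
  have e1 : 2 * (M' / n * ex + M * ex * (B / n)) + (‖f x‖ / Real.sqrt (1 + ‖β x‖ ^ 2) + 3 / n * (M * ex))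
      = ‖f x‖ / Real.sqrt (1 + ‖β x‖ ^ 2) + (2 * M' + 2 * M * B + 3 * M) * (ex / n) := by ring
  have e2 : 40 * (1 + B) * (M + M') / n * ex = (40 * (1 + B) * (M + M')) * (ex / n) := by ring
  rw [e1, e2]
  have h3 : (2 * M' + 2 * M * B + 3 * M) ≤ 40 * (1 + B) * (M + M') := by
    nlinarith [mul_nonneg hM hB, mul_nonneg hM' hB]
  have h4 := mul_le_mul_of_nonneg_right h3 (show 0 ≤ ex / n by positivity)
  linarith

end JB4

end Pool.Agent.Helper383.NI
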