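import Pool.Agent.Helper383.NI.Defs

open Complex MeasureTheory Set Filter Topology

namespace Pool.Agent.Helper383.NI


namespace JCA

noncomputable section

/-! ### Vendored from Helper897/ZS (Cauchy–Pompeiu) -/

namespace CTaux

/-- `2i ∂̄` of a function whose real derivative is `L`. -/
def db (L : ℂ →L[ℝ] ℂ) : ℂ := I * L 1 - L I

lemma clm_apply (L : ℂ →L[ℝ] ℂ) (z : ℂ) : L z = z.re * L 1 + z.im * L I := by
  conv_lhs => rw [← re_add_im z]
  have h1 : (z.re : ℂ) = z.re • (1 : ℂ) := by simp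
  have h2 : (z.im : ℂ) * I = z.im • I := by simp
  rw [map_add, h2]
  nth_rewrite 1 [h1]
  rw [map_smul, map_smul]
  simp

/-- integrability of `1/|w|` on discs, with value -/
lemma integrable_inv_norm (δ : ℝ) :
    Integrable (fun w : ℂ => (Set.Ioc 0 δ).indicator (fun y : ℝ => y⁻¹) ‖w‖) := by
  rw [integrable_fun_norm_addHaar (μ := (volume : Measure ℂ)) (f := (Set.Ioc 0 δ).indicator (fun y : ℝ => y⁻¹))]
  have hE : Module.finrank ℝ ℂ - 1 = 1 := by simp [Complex.finrank_real_complex]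
  rw [hE]
  have h0 : IntegrableOn ((Set.Ioc 0 δ).indicator (fun _ : ℝ => (1 : ℝ))) (Ioi 0) := by
    refine Integrable.integrableOn ?_
    rw [integrable_indicator_iff measurableSet_Ioc]
    exact integrableOn_const (by simp)
  refine h0.congr_fun ?_ measurableSet_Ioi
  intro y hy
  simp only [Set.indicator, smul_eq_mul, pow_one]
  split_ifs with h
  · have : y ≠ 0 := ne_of_gt hy
    field_simp
  · simp

lemma integral_inv_norm {δ : ℝ} (hδ : 0 ≤ δ) :
    ∫ w : ℂ, (Set.Ioc 0 δ).indicator (fun y : ℝ => y⁻¹) ‖w‖ = 2 * Real.pi * δ := by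
  rw [integral_fun_norm_addHaar (μ := (volume : Measure ℂ)) (f := (Set.Ioc 0 δ).indicator (fun y : ℝ => y⁻¹))]
  have hE : Module.finrank ℝ ℂ - 1 = 1 := by simp [Complex.finrank_real_complex]
  rw [hE]
  have h1 : ∫ y in Ioi (0:ℝ), y ^ 1 • (Set.Ioc 0 δ).indicator (fun y : ℝ => y⁻¹) y
      = ∫ y in Ioi (0:ℝ), (Set.Ioc 0 δ).indicator (fun _ : ℝ => (1 : ℝ)) y := by
    refine setIntegral_congr_fun measurableSet_Ioi ?_
    intro y hy
    simp only [Set.indicator, smul_eq_mul, pow_one]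
    split_ifs with h
    · have : y ≠ 0 := ne_of_gt hy
      field_simp
    · simp
  rw [h1, integral_indicator measurableSet_Ioc]
  rw [Measure.restrict_restrict measurableSet_Ioc]
  have h2 : Set.Ioc 0 δ ∩ Ioi 0 = Set.Ioc 0 δ := by
    ext x
    simp only [Set.mem_inter_iff, Set.mem_Ioc, Set.mem_Ioi]
    tauto
  rw [h2]
  simp [Complex.finrank_real_complex, hδ]
  have h3 : (volume : Measure ℂ).real (Metric.ball 0 1) = Real.pi := by
    simp [Measure.real, Complex.volume_ball]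
  rw [h3]; ring

/-- direction `e^{iθ}` -/
def ex (θ : ℝ) : ℂ := Real.cos θ + Real.sin θ * I

lemma continuous_ex : Continuous ex := by unfold ex; fun_prop

lemma norm_ex (θ : ℝ) : ‖ex θ‖ = 1 := by
  unfold ex
  rw [Complex.norm_eq_sqrt_sq_add_sq]
  simp [Complex.cos_ofReal_re, Complex.sin_ofReal_re]

lemma ex_ne (θ : ℝ) : ex θ ≠ 0 := by
  intro h
  have := norm_ex θ
  rw [h] at this
  simp at this

lemma db_ex (L : ℂ →L[ℝ] ℂ) (θ : ℝ) : (ex θ)⁻¹ * db L = I * L (ex θ) - L (I * ex θ) := by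
  have h1 : L (ex θ) = Real.cos θ * L 1 + Real.sin θ * L I := by
    rw [clm_apply L (ex θ)]
    simp [ex]
  have h2 : L (I * ex θ) = - Real.sin θ * L 1 + Real.cos θ * L I := by
    rw [clm_apply L (I * ex θ)]
    simp [ex]
  have h3 : ex θ * (Real.cos θ - Real.sin θ * I) = 1 := by
    unfold ex
    have : ((Real.cos θ : ℂ)) ^ 2 + (Real.sin θ : ℂ) ^ 2 = 1 := by
      have := Real.cos_sq_add_sin_sq θ
      exact_mod_cast this
    ring_nf
    rw [I_sq]
    linear_combination this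
  have h4 : (ex θ)⁻¹ = Real.cos θ - Real.sin θ * I := by
    exact inv_eq_of_mul_eq_one_right h3
  rw [h4, h1, h2]
  unfold db
  ring_nf
  rw [I_sq]
  ring

lemma hasDerivAt_ex (θ : ℝ) : HasDerivAt ex (I * ex θ) θ := by
  unfold ex
  have h1 : HasDerivAt (fun θ : ℝ => ((Real.cos θ : ℝ) : ℂ)) ((-Real.sin θ : ℝ) : ℂ) θ :=
    (Real.hasDerivAt_cos θ).ofReal_comp
  have h2 : HasDerivAt (fun θ : ℝ => ((Real.sin θ : ℝ) : ℂ)) ((Real.cos θ : ℝ) : ℂ) θ :=
    (Real.hasDerivAt_sin θ).ofReal_comp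
  have h3 := h1.add (h2.mul_const I)
  refine h3.congr_deriv ?_
  push_cast
  ring_nf
  rw [I_sq]
  ring

/-- Cauchy–Pompeiu formula for compactly supported `C¹` functions. -/
lemma cauchy_pompeiu {ψ : ℂ → ℂ} (hψ : ContDiff ℝ 1 ψ) (hc : HasCompactSupport ψ) :
    ∫ w, w⁻¹ * db (fderiv ℝ ψ w) = - (2 * Real.pi * I) * ψ 0 := by
  obtain ⟨R, hR0, hR⟩ : ∃ R : ℝ, 0 < R ∧ tsupport ψ ⊆ Metric.closedBall 0 R := by
    obtain ⟨R, hR⟩ := hc.isCompact.isBounded.subset_closedBall 0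
    exact ⟨max R 1, by positivity, hR.trans (Metric.closedBall_subset_closedBall (le_max_left _ _))⟩
  have hd : ∀ w : ℂ, R < ‖w‖ → fderiv ℝ ψ w = 0 := by
    intro w hw
    have : w ∉ tsupport ψ := fun h => by
      have := hR h
      simp at this
      linarith
    have h2 : w ∉ tsupport (fderiv ℝ ψ) := fun h => this (tsupport_fderiv_subset ℝ h)
    exact image_eq_zero_of_notMem_tsupport h2
  have hd0 : ∀ w : ℂ, R < ‖w‖ → ψ w = 0 := by
    intro w hw
    have : w ∉ tsupport ψ := fun h => by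
      have := hR h
      simp at this
      linarith
    exact image_eq_zero_of_notMem_tsupport this
  have hcf : Continuous (fderiv ℝ ψ) := hψ.continuous_fderiv one_ne_zero
  rw [← Complex.integral_comp_polarCoord_symm]
  let A : ℝ × ℝ → ℂ := fun p => fderiv ℝ ψ (p.1 * ex p.2) (ex p.2)
  let B : ℝ × ℝ → ℂ := fun p => fderiv ℝ ψ (p.1 * ex p.2) (I * ex p.2)
  have hex := continuous_ex
  have hA : Continuous A := by
    have h1 : Continuous (fun p : ℝ × ℝ => fderiv ℝ ψ (p.1 * ex p.2)) := by fun_prop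
    exact h1.clm_apply (by fun_prop)
  have hB : Continuous B := by
    have h1 : Continuous (fun p : ℝ × ℝ => fderiv ℝ ψ (p.1 * ex p.2)) := by fun_prop
    exact h1.clm_apply (by fun_prop)
  have htar : polarCoord.target = Ioi (0:ℝ) ×ˢ Ioo (-Real.pi) Real.pi := rfl
  have hdA : ∀ p : ℝ × ℝ, R < p.1 → fderiv ℝ ψ (p.1 * ex p.2) = 0 := by
    intro p hp
    apply hd
    rw [norm_mul, norm_ex, mul_one]
    simp only [Complex.norm_real, Real.norm_eq_abs]
    exact hp.trans_le (le_abs_self _)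
  have hint : ∀ F : ℝ × ℝ → ℂ, Continuous F → (∀ p : ℝ × ℝ, R < p.1 → F p = 0) →
      IntegrableOn F (Ioi (0:ℝ) ×ˢ Ioo (-Real.pi) Real.pi) := by
    intro F hF h0
    have hcomp : IsCompact (Icc (0:ℝ) R ×ˢ Icc (-Real.pi) Real.pi) := isCompact_Icc.prod isCompact_Icc
    refine (hF.continuousOn.integrableOn_compact hcomp).of_forall_sdiff_eq_zero
      (measurableSet_Ioi.prod measurableSet_Ioo) ?_
    rintro ⟨r, θ⟩ ⟨⟨h1, h2⟩, h3⟩
    apply h0
    by_contra hcon
    push Not at hcon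
    apply h3
    simp only [Set.mem_Ioi, Set.mem_Ioo] at h1 h2
    exact ⟨⟨h1.le, hcon⟩, ⟨h2.1.le, h2.2.le⟩⟩
  have hiA := hint A hA (fun p hp => by simp only [A]; rw [hdA p hp]; rfl)
  have hiB := hint B hB (fun p hp => by simp only [B]; rw [hdA p hp]; rfl)
  have e1 : ∫ p in polarCoord.target, p.1 • ((Complex.polarCoord.symm p)⁻¹ *
      db (fderiv ℝ ψ (Complex.polarCoord.symm p))) =
      ∫ p in Ioi (0:ℝ) ×ˢ Ioo (-Real.pi) Real.pi, (I * A p - B p) := by
    rw [htar]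
    refine setIntegral_congr_fun (measurableSet_Ioi.prod measurableSet_Ioo) ?_
    rintro ⟨r, θ⟩ ⟨h1, h2⟩
    have hr : (r:ℂ) ≠ 0 := by
      simp only [Set.mem_Ioi] at h1
      exact_mod_cast (ne_of_gt h1)
    have e2 : Complex.polarCoord.symm (r, θ) = r * ex θ := by
      rw [Complex.polarCoord_symm_apply]; rfl
    simp only [A, B]
    rw [e2, ← db_ex, mul_inv]
    simp only [Complex.real_smul]
    field_simp
  rw [e1, integral_sub (hiA.const_mul I) hiB, integral_const_mul]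
  have hAv : ∫ p in Ioi (0:ℝ) ×ˢ Ioo (-Real.pi) Real.pi, A p = - (2 * Real.pi) * ψ 0 := by
    rw [Measure.volume_eq_prod, ← Measure.prod_restrict]
    rw [integral_prod_symm]
    swap
    · rw [Measure.prod_restrict, ← Measure.volume_eq_prod]; exact hiA
    have : ∀ θ : ℝ, ∫ r in Ioi (0:ℝ), A (r, θ) = - ψ 0 := by
      intro θ
      have hder : ∀ r : ℝ, HasDerivAt (fun r : ℝ => ψ (r * ex θ)) (A (r, θ)) r := by
        intro r
        have h1 : HasFDerivAt ψ (fderiv ℝ ψ (r * ex θ)) (r * ex θ) :=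
          (hψ.differentiable one_ne_zero _).hasFDerivAt
        have h2 : HasDerivAt (fun r : ℝ => (r:ℂ) * ex θ) (ex θ) r := by
          simpa using (hasDerivAt_id r).ofReal_comp.mul_const (ex θ)
        exact h1.comp_hasDerivAt r h2
      have hint1 : IntegrableOn (fun r => A (r, θ)) (Ioi 0) := by
        have hc1 : Continuous (fun r => A (r, θ)) := by fun_prop
        refine (hc1.continuousOn.integrableOn_compact (isCompact_Icc (a := (0:ℝ)) (b := R))).of_forall_sdiff_eq_zero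
          measurableSet_Ioi ?_
        rintro r ⟨h1, h2⟩
        simp only [Set.mem_Ioi, Set.mem_Icc, not_and, not_le] at h1 h2
        simp only [A]
        rw [hdA (r, θ) (h2 h1.le)]; rfl
      have htend : Tendsto (fun r : ℝ => ψ (r * ex θ)) atTop (𝓝 0) := by
        refine tendsto_const_nhds.congr' ?_
        filter_upwards [eventually_gt_atTop R] with r hr
        symm
        apply hd0
        rw [norm_mul, norm_ex, mul_one]
        simp only [Complex.norm_real, Real.norm_eq_abs]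
        exact hr.trans_le (le_abs_self _)
      have := integral_Ioi_of_hasDerivAt_of_tendsto (a := (0:ℝ)) (f := fun r : ℝ => ψ (r * ex θ))
        (f' := fun r => A (r, θ)) (m := 0) (hder 0).continuousAt.continuousWithinAt
        (fun x _ => hder x) hint1 htend
      rw [this]
      simp
    simp_rw [this]
    rw [setIntegral_const]
    have hvol : (volume : Measure ℝ).real (Ioo (-Real.pi) Real.pi) = 2 * Real.pi := by
      rw [Real.volume_real_Ioo_of_le (by linarith [Real.pi_pos])]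
      ring
    rw [hvol, Complex.real_smul]
    push_cast
    ring
  have hBv : ∫ p in Ioi (0:ℝ) ×ˢ Ioo (-Real.pi) Real.pi, B p = 0 := by
    rw [Measure.volume_eq_prod, ← Measure.prod_restrict]
    rw [integral_prod]
    swap
    · rw [Measure.prod_restrict, ← Measure.volume_eq_prod]; exact hiB
    have : ∀ r ∈ Ioi (0:ℝ), ∫ θ in Ioo (-Real.pi) Real.pi, B (r, θ) = 0 := by
      intro r hr
      have hr' : (r:ℂ) ≠ 0 := by
        simp only [Set.mem_Ioi] at hr
        exact_mod_cast (ne_of_gt hr)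
      have hder : ∀ θ : ℝ, HasDerivAt (fun θ : ℝ => (r:ℂ)⁻¹ * ψ (r * ex θ)) (B (r, θ)) θ := by
        intro θ
        have h1 : HasFDerivAt ψ (fderiv ℝ ψ (r * ex θ)) (r * ex θ) :=
          (hψ.differentiable one_ne_zero _).hasFDerivAt
        have h2 : HasDerivAt (fun θ : ℝ => (r:ℂ) * ex θ) (r * (I * ex θ)) θ :=
          (hasDerivAt_ex θ).const_mul _
        have h3 := (h1.comp_hasDerivAt θ h2).const_mul ((r:ℂ)⁻¹)
        refine h3.congr_deriv ?_
        have h4 : (r:ℂ) * (I * ex θ) = r • (I * ex θ) := by simp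
        change (r:ℂ)⁻¹ * (fderiv ℝ ψ (r * ex θ)) (r * (I * ex θ)) = fderiv ℝ ψ (r * ex θ) (I * ex θ)
        rw [h4, map_smul, Complex.real_smul, ← mul_assoc, inv_mul_cancel₀ hr', one_mul]
      rw [← integral_Ioc_eq_integral_Ioo, ← intervalIntegral.integral_of_le (by linarith [Real.pi_pos])]
      rw [intervalIntegral.integral_eq_sub_of_hasDerivAt (fun θ _ => hder θ)]
      · have : ex Real.pi = ex (-Real.pi) := by simp [ex]
        rw [this]; ring
      · apply Continuous.intervalIntegrable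
        fun_prop
    rw [setIntegral_congr_fun measurableSet_Ioi this]
    exact integral_zero _ _
  rw [hAv, hBv]
  ring

end CTaux

namespace CTaux

lemma integrable_cube : Integrable (fun w : ℂ => ((1 + ‖w‖) ^ 3)⁻¹) := by
  have h := integrable_one_add_norm (E := ℂ) (μ := (volume : Measure ℂ)) (r := 3)
    (by simp [Complex.finrank_real_complex]; norm_num)
  refine h.congr (Filter.Eventually.of_forall fun w => ?_)
  show (1 + ‖w‖) ^ (-(3 : ℝ)) = _
  rw [Real.rpow_neg (by positivity)]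
  congr 1
  exact_mod_cast Real.rpow_natCast (1 + ‖w‖) 3

lemma ptw (z w : ℂ) : (1 + ‖z‖) * (‖w‖⁻¹ * ((1 + ‖z - w‖) ^ 3)⁻¹) ≤
    (Set.Ioc 0 1).indicator (fun y : ℝ => y⁻¹) ‖w‖ + 3 * ((1 + ‖z - w‖) ^ 3)⁻¹
      + 2 * ((1 + ‖w‖) ^ 3)⁻¹ := by
  have hc : ‖z‖ ≤ ‖w‖ + ‖z - w‖ := by
    have := norm_add_le w (z - w)
    simpa using this
  have hb0 : 0 ≤ ‖z - w‖ := norm_nonneg _
  have ha0 : 0 ≤ ‖w‖ := norm_nonneg _
  generalize ‖z‖ = c at hc ⊢
  generalize ‖z - w‖ = b at hc hb0 ⊢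
  generalize ‖w‖ = a at hc ha0 ⊢
  have hB : 0 < ((1 + b) ^ 3)⁻¹ := by positivity
  have hA : 0 < ((1 + a) ^ 3)⁻¹ := by positivity
  rcases eq_or_lt_of_le ha0 with h0 | h0
  · rw [← h0]
    have : 0 ≤ (Set.Ioc (0:ℝ) 1).indicator (fun y : ℝ => y⁻¹) 0 := by simp [Set.indicator]
    simp only [inv_zero, zero_mul, mul_zero]
    positivity
  have h1 : (1 + c) * (a⁻¹ * ((1 + b) ^ 3)⁻¹) ≤ a⁻¹ * ((1 + b) ^ 2)⁻¹ + ((1 + b) ^ 3)⁻¹ := by
    have e : a⁻¹ * ((1 + b) ^ 2)⁻¹ + ((1 + b) ^ 3)⁻¹ = ((1 + b) + a) * (a⁻¹ * ((1 + b) ^ 3)⁻¹) := by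
      field_simp
    rw [e]
    apply mul_le_mul_of_nonneg_right (by linarith) (by positivity)
  refine h1.trans ?_
  by_cases h : a ≤ 1
  · rw [Set.indicator_of_mem (show a ∈ Set.Ioc (0:ℝ) 1 from ⟨h0, h⟩)]
    have h2 : a⁻¹ * ((1 + b) ^ 2)⁻¹ ≤ a⁻¹ * 1 := by
      apply mul_le_mul_of_nonneg_left _ (by positivity)
      apply inv_le_one_of_one_le₀
      apply one_le_pow₀
      linarith
    linarith
  · push Not at h
    rw [Set.indicator_of_notMem (show a ∉ Set.Ioc (0:ℝ) 1 from fun h' => absurd h'.2 (not_le.2 h))]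
    have h2 : a⁻¹ ≤ 2 * (1 + a)⁻¹ := by
      rw [inv_eq_one_div, ← div_eq_mul_inv, div_le_div_iff₀ h0 (by linarith)]
      linarith
    have h3 : (1 + a)⁻¹ * ((1 + b) ^ 2)⁻¹ ≤ ((1 + a) ^ 3)⁻¹ + ((1 + b) ^ 3)⁻¹ := by
      rcases le_total a b with hab | hab
      · have : (1 + a)⁻¹ * ((1 + b) ^ 2)⁻¹ ≤ ((1 + a) ^ 3)⁻¹ := by
          rw [← mul_inv]
          apply inv_anti₀ (by positivity)
          have : (1 + a) ^ 2 ≤ (1 + b) ^ 2 := pow_le_pow_left₀ (by linarith) (by linarith) 2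
          calc (1 + a) ^ 3 = (1 + a) * (1 + a) ^ 2 := by ring
            _ ≤ (1 + a) * (1 + b) ^ 2 := mul_le_mul_of_nonneg_left this (by linarith)
        linarith
      · have : (1 + a)⁻¹ * ((1 + b) ^ 2)⁻¹ ≤ ((1 + b) ^ 3)⁻¹ := by
          rw [← mul_inv]
          apply inv_anti₀ (by positivity)
          calc (1 + b) ^ 3 = (1 + b) * (1 + b) ^ 2 := by ring
            _ ≤ (1 + a) * (1 + b) ^ 2 := mul_le_mul_of_nonneg_right (by linarith) (by positivity)
        linarith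
    have h4 : a⁻¹ * ((1 + b) ^ 2)⁻¹ ≤ 2 * ((1 + a)⁻¹ * ((1 + b) ^ 2)⁻¹) := by
      have := mul_le_mul_of_nonneg_right h2 (show (0:ℝ) ≤ ((1 + b) ^ 2)⁻¹ by positivity)
      linarith
    linarith

lemma integrable_rhs (z : ℂ) : Integrable (fun w : ℂ =>
    (Set.Ioc 0 1).indicator (fun y : ℝ => y⁻¹) ‖w‖ + 3 * ((1 + ‖z - w‖) ^ 3)⁻¹
      + 2 * ((1 + ‖w‖) ^ 3)⁻¹) :=
  ((integrable_inv_norm 1).add ((integrable_cube.comp_sub_left z).const_mul 3)).add
    (integrable_cube.const_mul 2)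

lemma integrable_key (z : ℂ) : Integrable (fun w : ℂ => ‖w‖⁻¹ * ((1 + ‖z - w‖) ^ 3)⁻¹) := by
  refine (integrable_rhs z).mono' ?_ ?_
  · apply Measurable.aestronglyMeasurable
    fun_prop
  · refine Filter.Eventually.of_forall fun w => ?_
    rw [Real.norm_of_nonneg (by positivity)]
    refine le_trans ?_ (ptw z w)
    apply le_mul_of_one_le_left (by positivity)
    linarith [norm_nonneg z]

/-- the constant -/
def K0 : ℝ := 2 * Real.pi + 5 * ∫ w : ℂ, ((1 + ‖w‖) ^ 3)⁻¹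

lemma K0_pos : 0 < K0 := by
  have h : 0 ≤ ∫ w : ℂ, ((1 + ‖w‖) ^ 3)⁻¹ := integral_nonneg fun w => by positivity
  have := Real.pi_pos
  unfold K0
  linarith

lemma key (z : ℂ) : ∫ w : ℂ, ‖w‖⁻¹ * ((1 + ‖z - w‖) ^ 3)⁻¹ ≤ K0 / (1 + ‖z‖) := by
  rw [le_div_iff₀ (by positivity), mul_comm, ← integral_const_mul]
  refine (integral_mono ((integrable_key z).const_mul _) (integrable_rhs z) (ptw z)).trans ?_
  have e1 : ∫ w : ℂ, ((1 + ‖z - w‖) ^ 3)⁻¹ = ∫ w : ℂ, ((1 + ‖w‖) ^ 3)⁻¹ :=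
    integral_sub_left_eq_self (fun w : ℂ => ((1 + ‖w‖) ^ 3)⁻¹) volume z
  have i1 : Integrable (fun w : ℂ => (Set.Ioc 0 1).indicator (fun y : ℝ => y⁻¹) ‖w‖) :=
    integrable_inv_norm 1
  have i2 : Integrable (fun w : ℂ => 3 * ((1 + ‖z - w‖) ^ 3)⁻¹) :=
    (integrable_cube.comp_sub_left z).const_mul 3
  have i3 : Integrable (fun w : ℂ => 2 * ((1 + ‖w‖) ^ 3)⁻¹) := integrable_cube.const_mul 2
  have i12 : Integrable (fun w : ℂ => (Set.Ioc 0 1).indicator (fun y : ℝ => y⁻¹) ‖w‖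
      + 3 * ((1 + ‖z - w‖) ^ 3)⁻¹) := i1.add i2
  rw [integral_add i12 i3, integral_add i1 i2, integral_const_mul, integral_const_mul, e1,
    integral_inv_norm zero_le_one]
  unfold K0
  linarith

lemma bd3 {C b : ℝ} (hC : 0 ≤ C) (hb : 0 ≤ b) : C / (1 + b) ^ 4 ≤ C * ((1 + b) ^ 3)⁻¹ := by
  rw [div_eq_mul_inv]
  apply mul_le_mul_of_nonneg_left _ hC
  apply inv_anti₀ (by positivity)
  apply pow_le_pow_right₀ (by linarith) (by norm_num)

lemma C_nonneg {g : ℂ → ℂ} {C : ℝ} (hb : ∀ z, ‖g z‖ ≤ C / (1 + ‖z‖) ^ 4) : 0 ≤ C := by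
  have := (norm_nonneg _).trans (hb 0)
  simpa using this

lemma norm_div_le {g : ℂ → ℂ} {C : ℝ} (hb : ∀ z, ‖g z‖ ≤ C / (1 + ‖z‖) ^ 4) (z w : ℂ) :
    ‖g (z - w) / w‖ ≤ C * (‖w‖⁻¹ * ((1 + ‖z - w‖) ^ 3)⁻¹) := by
  have hC := C_nonneg hb
  rw [norm_div, div_eq_mul_inv]
  have h1 := (hb (z - w)).trans (bd3 hC (norm_nonneg (z - w)))
  have := mul_le_mul_of_nonneg_right h1 (inv_nonneg.2 (norm_nonneg w))
  linarith

lemma integrable_div {g : ℂ → ℂ} {C : ℝ} (hm : Continuous g)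
    (hb : ∀ z, ‖g z‖ ≤ C / (1 + ‖z‖) ^ 4) (z : ℂ) : Integrable (fun w : ℂ => g (z - w) / w) := by
  refine ((integrable_key z).const_mul C).mono' ?_ ?_
  · apply Measurable.aestronglyMeasurable
    have : Measurable (fun w : ℂ => g (z - w)) := (hm.comp (by fun_prop)).measurable
    exact this.div measurable_id
  · exact Filter.Eventually.of_forall fun w => norm_div_le hb z w

lemma integrable_of_decay {g : ℂ → ℂ} {C : ℝ} (hm : Continuous g)
    (hb : ∀ z, ‖g z‖ ≤ C / (1 + ‖z‖) ^ 4) : Integrable g := by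
  refine (integrable_cube.const_mul C).mono' hm.aestronglyMeasurable ?_
  exact Filter.Eventually.of_forall fun w => (hb w).trans (bd3 (C_nonneg hb) (norm_nonneg w))


lemma norm_db_le (L : ℂ →L[ℝ] ℂ) : ‖db L‖ ≤ 2 * ‖L‖ := by
  unfold db
  have h1 : ‖I * L 1‖ ≤ ‖L‖ := by
    rw [norm_mul, norm_I, one_mul]
    simpa using L.le_opNorm 1
  have h2 : ‖L I‖ ≤ ‖L‖ := by
    simpa using L.le_opNorm I
  linarith [norm_sub_le (I * L 1) (L I)]

lemma norm_inv_smul_le {g' : ℂ → ℂ →L[ℝ] ℂ} {C : ℝ} (hC : 0 ≤ C)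
    (hb : ∀ z, ‖g' z‖ ≤ C / (1 + ‖z‖) ^ 4) {z z0 : ℂ} (hz : ‖z - z0‖ ≤ 1) (w : ℂ) :
    ‖(w⁻¹ : ℂ) • g' (z - w)‖ ≤ 8 * C * (‖w‖⁻¹ * ((1 + ‖z0 - w‖) ^ 3)⁻¹) := by
  rw [norm_smul, norm_inv]
  have h1 := (hb (z - w)).trans (bd3 hC (norm_nonneg (z - w)))
  have h2 : ‖z0 - w‖ ≤ ‖z - w‖ + 1 := by
    have e : z0 - w = (z - w) - (z - z0) := by ring
    rw [e]
    exact (norm_sub_le _ _).trans (by linarith)
  have h3 : ((1 + ‖z - w‖) ^ 3)⁻¹ ≤ 8 * ((1 + ‖z0 - w‖) ^ 3)⁻¹ := by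
    rw [inv_eq_one_div, ← div_eq_mul_inv, div_le_div_iff₀ (by positivity) (by positivity)]
    have := pow_le_pow_left₀ (by positivity) (show 1 + ‖z0 - w‖ ≤ 2 * (1 + ‖z - w‖) by
      linarith [norm_nonneg (z - w)]) 3
    linarith [this, (by ring : (2 * (1 + ‖z - w‖)) ^ 3 = 8 * (1 + ‖z - w‖) ^ 3)]
  have h4 : ‖g' (z - w)‖ ≤ C * (8 * ((1 + ‖z0 - w‖) ^ 3)⁻¹) :=
    h1.trans (mul_le_mul_of_nonneg_left h3 hC)
  have := mul_le_mul_of_nonneg_left h4 (inv_nonneg.2 (norm_nonneg w))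
  linarith

lemma measurable_smul {g' : ℂ → ℂ →L[ℝ] ℂ} (hc : Continuous g') (z : ℂ) :
    AEStronglyMeasurable (fun w : ℂ => (w⁻¹ : ℂ) • g' (z - w)) volume := by
  have h1 : AEStronglyMeasurable (fun w : ℂ => (w⁻¹ : ℂ)) volume :=
    measurable_inv.aestronglyMeasurable
  have h2 : Continuous (fun w : ℂ => g' (z - w)) := hc.comp (by fun_prop)
  exact h1.smul h2.aestronglyMeasurable

lemma integrable_smul {g' : ℂ → ℂ →L[ℝ] ℂ} {C : ℝ} (hC : 0 ≤ C) (hc : Continuous g')
    (hb : ∀ z, ‖g' z‖ ≤ C / (1 + ‖z‖) ^ 4) (z : ℂ) :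
    Integrable (fun w : ℂ => (w⁻¹ : ℂ) • g' (z - w)) :=
  ((integrable_key z).const_mul (8 * C)).mono' (measurable_smul hc z)
    (Filter.Eventually.of_forall fun w => norm_inv_smul_le hC hb (by simp) w)

lemma hasFDeriv_int (g : ℂ → ℂ) (g' : ℂ → ℂ →L[ℝ] ℂ) (C : ℝ) (hg : ∀ z, HasFDerivAt g (g' z) z)
    (hc : Continuous g') (hb : ∀ z, ‖g z‖ ≤ C / (1 + ‖z‖) ^ 4)
    (hb' : ∀ z, ‖g' z‖ ≤ C / (1 + ‖z‖) ^ 4) (z0 : ℂ) :
    HasFDerivAt (fun z => ∫ w : ℂ, g (z - w) / w) (∫ w : ℂ, (w⁻¹ : ℂ) • g' (z0 - w)) z0 := by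
  have hC := C_nonneg hb
  have hgc : Continuous g := continuous_iff_continuousAt.2 fun z => (hg z).continuousAt
  apply hasFDerivAt_integral_of_dominated_of_fderiv_le (s := Metric.ball z0 1)
    (F := fun z w => g (z - w) / w) (F' := fun z w => (w⁻¹ : ℂ) • g' (z - w))
    (bound := fun w => 8 * C * (‖w‖⁻¹ * ((1 + ‖z0 - w‖) ^ 3)⁻¹))
  · exact Metric.ball_mem_nhds _ one_pos
  · exact Filter.Eventually.of_forall fun z => (integrable_div hgc hb z).aestronglyMeasurable
  · exact integrable_div hgc hb z0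
  · exact measurable_smul hc z0
  · refine Filter.Eventually.of_forall fun w z hz => ?_
    apply norm_inv_smul_le hC hb'
    rw [← dist_eq_norm]
    exact (Metric.mem_ball.1 hz).le
  · exact (integrable_key z0).const_mul _
  · refine Filter.Eventually.of_forall fun w z _ => ?_
    have h1 : HasFDerivAt (fun z : ℂ => z - w) (ContinuousLinearMap.id ℝ ℂ) z :=
      (hasFDerivAt_id z).sub_const w
    have h2 : HasFDerivAt (fun z : ℂ => g (z - w)) ((g' (z - w)).comp (ContinuousLinearMap.id ℝ ℂ)) z :=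
      (hg (z - w)).comp z h1
    have h3 := h2.const_mul (w⁻¹)
    rw [ContinuousLinearMap.comp_id] at h3
    refine h3.congr_of_eventuallyEq (Filter.Eventually.of_forall fun y => ?_)
    show g (y - w) / w = w⁻¹ * g (y - w)
    rw [div_eq_inv_mul]

/-- cutoff functions -/
lemma exists_cutoff : ∃ (χ : ℕ → ℂ → ℝ) (M : ℝ), 0 ≤ M ∧ (∀ n, ContDiff ℝ 1 (χ n)) ∧
    (∀ n, HasCompactSupport (χ n)) ∧ (∀ n w, |χ n w| ≤ 1) ∧
    (∀ n w, ‖fderiv ℝ (χ n) w‖ ≤ M * ((n : ℝ) + 1)⁻¹) ∧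
    (∀ w, ∀ᶠ n in atTop, χ n w = 1) ∧ (∀ n, χ n 0 = 1) := by
  let f : ContDiffBump (0 : ℂ) := ⟨1, 2, one_pos, by norm_num⟩
  have hf1 : ContDiff ℝ 1 f := f.contDiff
  have hfc : HasCompactSupport f := f.hasCompactSupport
  have hcf : Continuous (fderiv ℝ f) := hf1.continuous_fderiv one_ne_zero
  obtain ⟨M, hM⟩ := hcf.bounded_above_of_compact_support (hfc.fderiv ℝ)
  have hM0 : 0 ≤ M := (norm_nonneg _).trans (hM 0)
  refine ⟨fun n w => f ((((n : ℝ) + 1)⁻¹ : ℝ) • w), M, hM0, ?_, ?_, ?_, ?_, ?_, ?_⟩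
  · intro n
    exact hf1.comp (by fun_prop)
  · intro n
    have hne : (((n : ℝ) + 1)⁻¹ : ℝ) ≠ 0 := by positivity
    exact hfc.comp_homeomorph (Homeomorph.smulOfNeZero _ hne)
  · intro n w
    rw [abs_of_nonneg f.nonneg]
    exact f.le_one
  · intro n w
    have h1 : HasFDerivAt (fun w : ℂ => ((((n : ℝ) + 1)⁻¹ : ℝ) • w))
        ((((n : ℝ) + 1)⁻¹ : ℝ) • ContinuousLinearMap.id ℝ ℂ) w :=
      ((((n : ℝ) + 1)⁻¹ : ℝ) • ContinuousLinearMap.id ℝ ℂ).hasFDerivAt
    have h2 : HasFDerivAt f (fderiv ℝ f ((((n : ℝ) + 1)⁻¹ : ℝ) • w)) ((((n : ℝ) + 1)⁻¹ : ℝ) • w) :=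
      (hf1.differentiable one_ne_zero _).hasFDerivAt
    have h3 : HasFDerivAt (fun w : ℂ => f ((((n : ℝ) + 1)⁻¹ : ℝ) • w)) _ w := h2.comp w h1
    rw [h3.fderiv, ContinuousLinearMap.comp_smul, ContinuousLinearMap.comp_id, norm_smul,
      Real.norm_of_nonneg (by positivity), mul_comm]
    exact mul_le_mul_of_nonneg_right (hM _) (by positivity)
  · intro w
    filter_upwards [Filter.eventually_ge_atTop ⌈‖w‖⌉₊] with n hn
    apply f.one_of_mem_closedBall
    rw [mem_closedBall_zero_iff, norm_smul, Real.norm_of_nonneg (by positivity)]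
    show _ ≤ (1 : ℝ)
    rw [inv_mul_le_iff₀ (by positivity), mul_one]
    have := (Nat.ceil_le.1 hn)
    linarith
  · intro n
    apply f.one_of_mem_closedBall
    rw [smul_zero]
    exact Metric.mem_closedBall_self zero_le_one

lemma dbar_int (g : ℂ → ℂ) (g' : ℂ → ℂ →L[ℝ] ℂ) (C : ℝ) (hg : ∀ z, HasFDerivAt g (g' z) z)
    (hc : Continuous g') (hb : ∀ z, ‖g z‖ ≤ C / (1 + ‖z‖) ^ 4)
    (hb' : ∀ z, ‖g' z‖ ≤ C / (1 + ‖z‖) ^ 4) (z : ℂ) :
    ∫ w : ℂ, w⁻¹ * db (g' (z - w)) = 2 * Real.pi * I * g z := by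
  have hC := C_nonneg hb
  have hgc : Continuous g := continuous_iff_continuousAt.2 fun z => (hg z).continuousAt
  obtain ⟨χ, M, hM0, hχ1, hχc, hχb, hχd, hχl, hχ0⟩ := exists_cutoff
  -- the derivative of `χ n w * g (z - w)`
  have hder : ∀ n w, HasFDerivAt (fun w : ℂ => (χ n w : ℂ) * g (z - w))
      ((χ n w : ℂ) • (-g' (z - w)) + (g (z - w)) • (Complex.ofRealCLM.comp (fderiv ℝ (χ n) w))) w := by
    intro n w
    have h1 : HasFDerivAt (fun w : ℂ => (χ n w : ℂ)) (Complex.ofRealCLM.comp (fderiv ℝ (χ n) w)) w :=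
      (Complex.ofRealCLM.hasFDerivAt (x := χ n w)).comp w
        ((hχ1 n).differentiable one_ne_zero w).hasFDerivAt
    have h2 : HasFDerivAt (fun w : ℂ => z - w) (-ContinuousLinearMap.id ℝ ℂ) w :=
      (hasFDerivAt_id w).const_sub z
    have h3 : HasFDerivAt (fun w : ℂ => g (z - w)) ((g' (z - w)).comp (-ContinuousLinearMap.id ℝ ℂ)) w :=
      (hg (z - w)).comp w h2
    have h4 := h1.mul h3
    refine h4.congr_fderiv ?_
    ext <;> simp
  have hψ : ∀ n, ContDiff ℝ 1 (fun w : ℂ => (χ n w : ℂ) * g (z - w)) := by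
    intro n
    apply ContDiff.mul
    · exact Complex.ofRealCLM.contDiff.comp (hχ1 n)
    · have : ContDiff ℝ 1 g := contDiff_one_iff_hasFDerivAt.2 ⟨g', hc, hg⟩
      exact this.comp (by fun_prop)
  have hψc : ∀ n, HasCompactSupport (fun w : ℂ => (χ n w : ℂ) * g (z - w)) := by
    intro n
    apply HasCompactSupport.mul_right
    exact (hχc n).comp_left Complex.ofReal_zero
  have hcp : ∀ n, ∫ w : ℂ, w⁻¹ * db ((χ n w : ℂ) • (-g' (z - w)) + (g (z - w)) •
      (Complex.ofRealCLM.comp (fderiv ℝ (χ n) w))) = - (2 * Real.pi * I) * g z := by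
    intro n
    have := cauchy_pompeiu (hψ n) (hψc n)
    simp only [(hder n _).fderiv] at this
    rw [this, hχ0]
    simp
  have hdbe : ∀ n w, db ((χ n w : ℂ) • (-g' (z - w)) + (g (z - w)) •
      (Complex.ofRealCLM.comp (fderiv ℝ (χ n) w))) = -((χ n w : ℂ) * db (g' (z - w)))
        + g (z - w) * db (Complex.ofRealCLM.comp (fderiv ℝ (χ n) w)) := by
    intro n w
    unfold db
    simp
    ring
  have hnd : ∀ n w, ‖db (Complex.ofRealCLM.comp (fderiv ℝ (χ n) w))‖ ≤ 2 * (M * ((n : ℝ) + 1)⁻¹) := by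
    intro n w
    refine (norm_db_le _).trans ?_
    apply mul_le_mul_of_nonneg_left _ (by norm_num)
    refine le_trans ?_ (hχd n w)
    refine (ContinuousLinearMap.opNorm_comp_le _ _).trans ?_
    rw [Complex.ofRealCLM_norm, one_mul]
  have hlim : Tendsto (fun n : ℕ => ∫ w : ℂ, w⁻¹ * db ((χ n w : ℂ) • (-g' (z - w)) + (g (z - w)) •
      (Complex.ofRealCLM.comp (fderiv ℝ (χ n) w)))) atTop
      (𝓝 (∫ w : ℂ, w⁻¹ * (-db (g' (z - w))))) := by
    apply tendsto_integral_of_dominated_convergence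
      (fun w => (2 * C + 2 * M * C) * (‖w‖⁻¹ * ((1 + ‖z - w‖) ^ 3)⁻¹))
    · intro n
      apply Measurable.aestronglyMeasurable
      apply measurable_inv.mul
      apply Continuous.measurable
      simp only [hdbe]
      have c1 : Continuous (χ n) := (hχ1 n).continuous
      have c2 : Continuous (fderiv ℝ (χ n)) := (hχ1 n).continuous_fderiv one_ne_zero
      unfold db
      simp only [ContinuousLinearMap.comp_apply, Complex.ofRealCLM_apply]
      fun_prop
    · exact (integrable_key z).const_mul _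
    · intro n
      refine Filter.Eventually.of_forall fun w => ?_
      rw [norm_mul, norm_inv, hdbe]
      have e1 : ‖-((χ n w : ℂ) * db (g' (z - w)))‖ ≤ 2 * (C * ((1 + ‖z - w‖) ^ 3)⁻¹) := by
        rw [norm_neg, norm_mul, Complex.norm_real, Real.norm_eq_abs]
        have a1 : ‖db (g' (z - w))‖ ≤ 2 * (C * ((1 + ‖z - w‖) ^ 3)⁻¹) := by
          refine (norm_db_le _).trans ?_
          exact mul_le_mul_of_nonneg_left ((hb' _).trans (bd3 hC (norm_nonneg _))) (by norm_num)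
        calc |χ n w| * ‖db (g' (z - w))‖ ≤ 1 * ‖db (g' (z - w))‖ :=
              mul_le_mul_of_nonneg_right (hχb n w) (norm_nonneg _)
          _ ≤ _ := by rw [one_mul]; exact a1
      have e2 : ‖g (z - w) * db (Complex.ofRealCLM.comp (fderiv ℝ (χ n) w))‖ ≤
          (C * ((1 + ‖z - w‖) ^ 3)⁻¹) * (2 * M) := by
        rw [norm_mul]
        apply mul_le_mul ((hb _).trans (bd3 hC (norm_nonneg _))) _ (norm_nonneg _) (by positivity)
        refine (hnd n w).trans ?_
        have : ((n : ℝ) + 1)⁻¹ ≤ 1 := inv_le_one_of_one_le₀ (by linarith [n.cast_nonneg (α := ℝ)])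
        nlinarith
      have e3 := (norm_add_le (-((χ n w : ℂ) * db (g' (z - w))))
        (g (z - w) * db (Complex.ofRealCLM.comp (fderiv ℝ (χ n) w)))).trans (add_le_add e1 e2)
      have := mul_le_mul_of_nonneg_left e3 (inv_nonneg.2 (norm_nonneg w))
      linarith
    · refine Filter.Eventually.of_forall fun w => ?_
      apply Filter.Tendsto.const_mul
      simp only [hdbe]
      have t1 : Tendsto (fun n : ℕ => -((χ n w : ℂ) * db (g' (z - w)))) atTop
          (𝓝 (-db (g' (z - w)))) := by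
        refine tendsto_const_nhds.congr' ?_
        filter_upwards [hχl w] with n hn
        rw [hn]
        simp
      have t2 : Tendsto (fun n : ℕ => g (z - w) * db (Complex.ofRealCLM.comp (fderiv ℝ (χ n) w)))
          atTop (𝓝 0) := by
        rw [← mul_zero (g (z - w))]
        apply Filter.Tendsto.const_mul
        apply squeeze_zero_norm (hnd · w)
        have : Tendsto (fun n : ℕ => 2 * (M * ((n : ℝ) + 1)⁻¹)) atTop (𝓝 (2 * (M * 0))) := by
          apply Filter.Tendsto.const_mul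
          apply Filter.Tendsto.const_mul
          have := tendsto_one_div_add_atTop_nhds_zero_nat (𝕜 := ℝ)
          simpa using this
        simpa using this
      simpa using t1.add t2
  simp only [hcp] at hlim
  have := tendsto_nhds_unique hlim tendsto_const_nhds
  simp only [mul_neg, integral_neg] at this
  linear_combination -this

end CTaux

open CTaux in
/-- Cauchy transform of a C^1 function with decay: derivative, d-bar equation -/
theorem CT_deriv (g : ℂ → ℂ) (g' : ℂ → ℂ →L[ℝ] ℂ) (C : ℝ) (hg : ∀ z, HasFDerivAt g (g' z) z)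
    (hc : Continuous g') (hb : ∀ z, ‖g z‖ ≤ C / (1 + ‖z‖) ^ 4) (hb' : ∀ z, ‖g' z‖ ≤ C / (1 + ‖z‖) ^ 4) :
    (∀ z, Integrable (fun w : ℂ => g (z - w) / w)) ∧
    (∀ z, HasFDerivAt (CT g) (dfm (CT (fun y => (g' y 1 - I * g' y I) / 2) z) (g z)) z) ∧
    (∀ z, CT (fun y => (g' y 1 + I * g' y I) / 2) z = g z) := by
  have hC := C_nonneg hb
  have hpi : (Real.pi : ℂ) ≠ 0 := by exact_mod_cast Real.pi_ne_zero
  have hgc : Continuous g := continuous_iff_continuousAt.2 fun z => (hg z).continuousAt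
  have h3 : ∀ z, CT (fun y => (g' y 1 + I * g' y I) / 2) z = g z := by
    intro z
    unfold CT
    have e1 : ∀ w : ℂ, (g' (z - w) 1 + I * g' (z - w) I) / 2 / w =
        (-(I / 2)) * (w⁻¹ * db (g' (z - w))) := by
      intro w
      unfold db
      rw [div_eq_mul_inv _ w]
      linear_combination ((1 / 2) * w⁻¹ * g' (z - w) 1) * I_sq
    simp only [e1]
    rw [integral_const_mul, dbar_int g g' C hg hc hb hb' z]
    field_simp
    linear_combination (-g z) * I_sq
  refine ⟨fun z => integrable_div hgc hb z, fun z => ?_, h3⟩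
  have h1 := (hasFDeriv_int g g' C hg hc hb hb' z).const_mul (1 / (Real.pi : ℂ))
  refine h1.congr_fderiv ?_
  have hint := integrable_smul hC hc hb' z
  have hi : ∀ v : ℂ, Integrable (fun w : ℂ => w⁻¹ * g' (z - w) v) := by
    intro v
    exact (ContinuousLinearMap.apply ℝ ℂ v).integrable_comp hint
  refine ContinuousLinearMap.ext fun v => ?_
  have hA : CT (fun y => (g' y 1 - I * g' y I) / 2) z = (1 / (Real.pi : ℂ)) *
      (((∫ w : ℂ, w⁻¹ * g' (z - w) 1) - I * ∫ w : ℂ, w⁻¹ * g' (z - w) I) / 2) := by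
    unfold CT
    congr 1
    rw [← integral_const_mul I, ← integral_sub (hi 1) ((hi I).const_mul I), ← integral_div]
    congr 1
    ext w
    rw [div_eq_mul_inv _ w]
    ring
  have hB : g z = (1 / (Real.pi : ℂ)) *
      (((∫ w : ℂ, w⁻¹ * g' (z - w) 1) + I * ∫ w : ℂ, w⁻¹ * g' (z - w) I) / 2) := by
    rw [← h3 z]
    unfold CT
    congr 1
    rw [← integral_const_mul I, ← integral_add (hi 1) ((hi I).const_mul I), ← integral_div]
    congr 1
    ext w
    rw [div_eq_mul_inv _ w]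
    ring
  have hv : (∫ w : ℂ, (w⁻¹ : ℂ) • g' (z - w)) v = v.re * (∫ w : ℂ, w⁻¹ * g' (z - w) 1)
      + v.im * ∫ w : ℂ, w⁻¹ * g' (z - w) I := by
    rw [ContinuousLinearMap.integral_apply hint, ← integral_const_mul, ← integral_const_mul,
      ← integral_add ((hi 1).const_mul _) ((hi I).const_mul _)]
    congr 1
    ext w
    show w⁻¹ * g' (z - w) v = _
    rw [clm_apply (g' (z - w)) v]
    ring
  have hd : ∀ A B : ℂ, dfm A B v = A * v + B * (starRingEnd ℂ) v := fun A B => rfl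
  rw [hd, hA, hB]
  show (1 / (Real.pi : ℂ)) * (∫ w : ℂ, (w⁻¹ : ℂ) • g' (z - w)) v = _
  rw [hv]
  generalize (∫ w : ℂ, w⁻¹ * g' (z - w) 1) = A
  generalize (∫ w : ℂ, w⁻¹ * g' (z - w) I) = B
  have e1 : (v : ℂ) = v.re + v.im * I := (re_add_im v).symm
  have e2 : (starRingEnd ℂ) v = v.re - v.im * I := by
    apply Complex.ext <;> simp
  rw [e2]
  nth_rewrite 3 [e1]
  ring_nf
  rw [I_sq]
  ring

open CTaux in
/-- decay of the Cauchy transform -/
theorem CT_decay : ∃ K > 0, ∀ (g : ℂ → ℂ) (C : ℝ), Continuous g → (∀ z, ‖g z‖ ≤ C / (1 + ‖z‖) ^ 4) →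
    (∀ z, ‖CT g z‖ ≤ K * C / (1 + ‖z‖)) ∧
    ((∫ z, g z) = 0 → ∀ z, ‖CT g z‖ ≤ K * C / (1 + ‖z‖) ^ 2) := by
  have hpi := Real.pi_pos
  have hK := K0_pos
  refine ⟨2 * K0 / Real.pi, by positivity, fun g C hg hb => ?_⟩
  have hC := C_nonneg hb
  have hnpi : ‖(1 / (Real.pi : ℂ))‖ = 1 / Real.pi := by
    rw [norm_div, norm_one, Complex.norm_real, Real.norm_of_nonneg hpi.le]
  have h1 : ∀ z, ‖CT g z‖ ≤ K0 / Real.pi * C / (1 + ‖z‖) := by
    intro z
    unfold CT
    rw [norm_mul, hnpi]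
    have h2 : ‖∫ w : ℂ, g (z - w) / w‖ ≤ C * (K0 / (1 + ‖z‖)) := by
      refine (norm_integral_le_of_norm_le ((integrable_key z).const_mul C)
        (Filter.Eventually.of_forall fun w => norm_div_le hb z w)).trans ?_
      rw [integral_const_mul]
      exact mul_le_mul_of_nonneg_left (key z) hC
    calc 1 / Real.pi * ‖∫ w : ℂ, g (z - w) / w‖ ≤ 1 / Real.pi * (C * (K0 / (1 + ‖z‖))) :=
          mul_le_mul_of_nonneg_left h2 (by positivity)
      _ = K0 / Real.pi * C / (1 + ‖z‖) := by field_simp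
  refine ⟨fun z => (h1 z).trans ?_, fun h0 z => ?_⟩
  · apply div_le_div_of_nonneg_right _ (by positivity)
    apply mul_le_mul_of_nonneg_right _ hC
    apply div_le_div_of_nonneg_right _ hpi.le
    linarith
  · by_cases hz : ‖z‖ < 1
    · refine (h1 z).trans ?_
      rw [div_le_div_iff₀ (by positivity) (by positivity)]
      have e : 2 * K0 / Real.pi * C * (1 + ‖z‖) = (K0 / Real.pi * C * (1 + ‖z‖)) * 2 := by ring
      rw [e, sq, ← mul_assoc]
      apply mul_le_mul_of_nonneg_left (by linarith)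
      have := norm_nonneg z
      positivity
    · push Not at hz
      have hz0 : 0 < ‖z‖ := by linarith
      have hzne : z ≠ 0 := norm_pos_iff.1 hz0
      have hi1 := integrable_div hg hb z
      have hi2 : Integrable (fun w : ℂ => g (z - w) / z) :=
        ((integrable_of_decay hg hb).comp_sub_left z).div_const z
      have e1 : ∫ w : ℂ, g (z - w) / z = 0 := by
        rw [integral_div, integral_sub_left_eq_self g volume z, h0, zero_div]
      have e2 : ∫ w : ℂ, g (z - w) / w = ∫ w : ℂ, (g (z - w) / w - g (z - w) / z) := by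
        rw [integral_sub hi1 hi2, e1, sub_zero]
      have h3 : ‖∫ w : ℂ, g (z - w) / w‖ ≤ (C / ‖z‖) * (K0 / (1 + ‖z‖)) := by
        rw [e2]
        refine (norm_integral_le_of_norm_le ((integrable_key z).const_mul (C / ‖z‖)) ?_).trans ?_
        · have hae : ∀ᵐ w : ℂ, w ≠ 0 := by
            have : ({0}ᶜ : Set ℂ) ∈ ae (volume : Measure ℂ) := compl_mem_ae_iff.2 (measure_singleton 0)
            filter_upwards [this] with w hw
            exact hw
          filter_upwards [hae] with w hw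
          have hw0 : 0 < ‖w‖ := norm_pos_iff.2 hw
          have e3 : g (z - w) / w - g (z - w) / z = g (z - w) * (z - w) / (z * w) := by
            field_simp
          rw [e3, norm_div, norm_mul, norm_mul]
          have h4 : ‖g (z - w)‖ * ‖z - w‖ ≤ C * ((1 + ‖z - w‖) ^ 3)⁻¹ := by
            have hb0 := norm_nonneg (z - w)
            have h5 := mul_le_mul_of_nonneg_right (hb (z - w)) hb0
            refine h5.trans ?_
            rw [div_mul_eq_mul_div, mul_div_assoc]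
            apply mul_le_mul_of_nonneg_left _ hC
            rw [inv_eq_one_div, div_le_div_iff₀ (by positivity) (by positivity)]
            have e4 : (1 + ‖z - w‖) ^ 4 = (1 + ‖z - w‖) * (1 + ‖z - w‖) ^ 3 := by ring
            rw [e4, one_mul]
            apply mul_le_mul_of_nonneg_right (by linarith) (by positivity)
          calc ‖g (z - w)‖ * ‖z - w‖ / (‖z‖ * ‖w‖) ≤ C * ((1 + ‖z - w‖) ^ 3)⁻¹ / (‖z‖ * ‖w‖) :=
                div_le_div_of_nonneg_right h4 (by positivity)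
            _ = C / ‖z‖ * (‖w‖⁻¹ * ((1 + ‖z - w‖) ^ 3)⁻¹) := by
                field_simp
        · rw [integral_const_mul]
          exact mul_le_mul_of_nonneg_left (key z) (by positivity)
      unfold CT
      rw [norm_mul, hnpi]
      calc 1 / Real.pi * ‖∫ w : ℂ, g (z - w) / w‖ ≤ 1 / Real.pi * ((C / ‖z‖) * (K0 / (1 + ‖z‖))) :=
            mul_le_mul_of_nonneg_left h3 (by positivity)
        _ = K0 * C / (Real.pi * (‖z‖ * (1 + ‖z‖))) := by field_simp
        _ ≤ K0 * C / (Real.pi * ((1 + ‖z‖) ^ 2 / 2)) := by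
            apply div_le_div_of_nonneg_left (by positivity) (by positivity)
            apply mul_le_mul_of_nonneg_left _ hpi.le
            nlinarith
        _ = 2 * K0 / Real.pi * C / (1 + ‖z‖) ^ 2 := by field_simp

end

end JCA

end Pool.Agent.Helper383.NI
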