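import Pool.Agent.Helper383.NI.Defs
import Pool.Agent.Helper383.NI.CA

open Complex MeasureTheory Set Filter Topology

namespace Pool.Agent.Helper383.NI

open JCA (CT_deriv CT_decay)

namespace JCB

open LineDeriv in
/-- holomorphic derivative of a Schwartz function -/
noncomputable def dS (f : SchwartzMap ℂ ℂ) : SchwartzMap ℂ ℂ :=
  (1 / 2 : ℂ) • (∂_{(1 : ℂ)} f - I • ∂_{I} f)

theorem dS_apply (f : SchwartzMap ℂ ℂ) (z : ℂ) :
    dS f z = (fderiv ℝ f z 1 - I * fderiv ℝ f z I) / 2 := by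
  simp [dS, SchwartzMap.lineDerivOp_apply_eq_fderiv]
  ring

open LineDeriv in
theorem integral_lineDerivOp_zero (f : SchwartzMap ℂ ℂ) (v : ℂ) :
    ∫ x, (∂_{v} f : SchwartzMap ℂ ℂ) x = 0 := by
  have h := integral_bilinear_hasLineDerivAt_right_eq_neg_left_of_integrable
    (f := fun _ : ℂ => (1 : ℂ)) (f' := fun _ => (0 : ℂ)) (g := f)
    (g' := fun x => (∂_{v} f : SchwartzMap ℂ ℂ) x) (v := v)
    (B := ContinuousLinearMap.mul ℝ ℂ) (μ := (volume : Measure ℂ))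
    (by simp) (by simpa using (∂_{v} f : SchwartzMap ℂ ℂ).integrable) (by simpa using f.integrable)
    (fun x _ => by simpa using (hasFDerivAt_const (1 : ℂ) x).hasLineDerivAt (𝕜 := ℝ) v)
    (fun x _ => (f.hasFDerivAt x).hasLineDerivAt v)
  simpa using h

theorem integral_dS (f : SchwartzMap ℂ ℂ) : ∫ z, dS f z = 0 := by
  have h1 := integral_lineDerivOp_zero f 1
  have h2 := integral_lineDerivOp_zero f I
  have e : (fun z => dS f z) = fun z => (1 / 2 : ℂ) * ((LineDeriv.lineDerivOp (1 : ℂ) f : SchwartzMap ℂ ℂ) z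
      - I * (LineDeriv.lineDerivOp I f : SchwartzMap ℂ ℂ) z) := by
    funext z; simp [dS]
  rw [e, integral_const_mul, integral_sub (SchwartzMap.integrable _)
    ((SchwartzMap.integrable _).const_mul _), integral_const_mul, h1, h2]
  simp

theorem schw_bd (f : SchwartzMap ℂ ℂ) (n k : ℕ) :
    ∃ C : ℝ, ∀ z, ‖iteratedFDeriv ℝ n f z‖ ≤ C / (1 + ‖z‖) ^ k := by
  refine ⟨2 ^ k * (Finset.Iic (k, n)).sup (fun m => SchwartzMap.seminorm ℝ m.1 m.2) f,
    fun z => ?_⟩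
  rw [le_div_iff₀ (by positivity), mul_comm]
  exact SchwartzMap.one_add_le_sup_seminorm_apply (𝕜 := ℝ) (m := (k, n)) le_rfl le_rfl f z

theorem CT_schw (f : SchwartzMap ℂ ℂ) (z : ℂ) :
    HasFDerivAt (CT f) (dfm (CT (dS f) z) (f z)) z := by
  obtain ⟨C0, h0⟩ := schw_bd f 0 4
  obtain ⟨C1, h1⟩ := schw_bd f 1 4
  have hb : ∀ z, ‖f z‖ ≤ max C0 C1 / (1 + ‖z‖) ^ 4 := fun z => by
    have := h0 z
    rw [norm_iteratedFDeriv_zero] at this
    exact this.trans (by gcongr; exact le_max_left _ _)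
  have hb' : ∀ z, ‖fderiv ℝ f z‖ ≤ max C0 C1 / (1 + ‖z‖) ^ 4 := fun z => by
    have := h1 z
    rw [norm_iteratedFDeriv_one] at this
    exact this.trans (by gcongr; exact le_max_right _ _)
  have h := (CT_deriv f (fderiv ℝ f) (max C0 C1) (fun z => f.hasFDerivAt z)
    ((f.smooth 1).continuous_fderiv (by simp)) hb hb').2.1 z
  have e : (fun y => (fderiv ℝ f y 1 - I * fderiv ℝ f y I) / 2) = dS f := by
    funext y; rw [dS_apply]
  rwa [e] at h

theorem dfm_eq (A B : ℂ) : dfm A B =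
    (ContinuousLinearMap.id ℝ ℂ).smulRight (ContinuousLinearMap.id ℝ ℂ) A
    + (ContinuousLinearMap.id ℝ ℂ).smulRight (Complex.conjCLE : ℂ →L[ℝ] ℂ) B := by
  ext <;> simp [dfm]

theorem CT_fderiv (f : SchwartzMap ℂ ℂ) : fderiv ℝ (CT f) =
    (⇑((ContinuousLinearMap.id ℝ ℂ).smulRight (ContinuousLinearMap.id ℝ ℂ) :
        ℂ →L[ℝ] (ℂ →L[ℝ] ℂ)) ∘ (CT (dS f)))
    + (⇑((ContinuousLinearMap.id ℝ ℂ).smulRight (Complex.conjCLE : ℂ →L[ℝ] ℂ) :
        ℂ →L[ℝ] (ℂ →L[ℝ] ℂ)) ∘ f) := by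
  funext z
  rw [(CT_schw f z).fderiv, dfm_eq]
  rfl

theorem CT_contDiff (n : ℕ) : ∀ f : SchwartzMap ℂ ℂ, ContDiff ℝ n (CT f) := by
  induction n with
  | zero =>
    intro f
    exact contDiff_zero.2 (continuous_iff_continuousAt.2 fun z => (CT_schw f z).continuousAt)
  | succ n ih =>
    intro f
    have : ((n + 1 : ℕ) : WithTop ℕ∞) = (n : WithTop ℕ∞) + 1 := by push_cast; rfl
    rw [this, contDiff_succ_iff_fderiv]
    refine ⟨fun z => (CT_schw f z).differentiableAt, fun h => ?_, ?_⟩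
    · simp at h
    · rw [CT_fderiv]
      exact (ContinuousLinearMap.contDiff _ |>.comp (ih (dS f))).add
        (ContinuousLinearMap.contDiff _ |>.comp (f.smooth n))

theorem CT_step (f : SchwartzMap ℂ ℂ) (n : ℕ) (C : ℝ)
    (h : ∀ z, ‖iteratedFDeriv ℝ n (CT (dS f)) z‖ ≤ C / (1 + ‖z‖) ^ 2) :
    ∃ C' : ℝ, ∀ z, ‖iteratedFDeriv ℝ (n + 1) (CT f) z‖ ≤ C' / (1 + ‖z‖) ^ 2 := by
  obtain ⟨C1, h1⟩ := schw_bd f n 2
  set L1 : ℂ →L[ℝ] (ℂ →L[ℝ] ℂ) := (ContinuousLinearMap.id ℝ ℂ).smulRight (ContinuousLinearMap.id ℝ ℂ) with hL1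
  set L2 : ℂ →L[ℝ] (ℂ →L[ℝ] ℂ) := (ContinuousLinearMap.id ℝ ℂ).smulRight (Complex.conjCLE : ℂ →L[ℝ] ℂ) with hL2
  refine ⟨‖L1‖ * C + ‖L2‖ * C1, fun z => ?_⟩
  rw [← norm_iteratedFDeriv_fderiv, CT_fderiv, iteratedFDeriv_add_apply]
  · refine (norm_add_le _ _).trans ?_
    have a1 := L1.norm_iteratedFDeriv_comp_left (x := z) (n := n) (N := n)
      (CT_contDiff n (dS f)).contDiffAt le_rfl
    have a2 := L2.norm_iteratedFDeriv_comp_left (x := z) (n := n) (N := n)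
      (f.smooth n).contDiffAt le_rfl
    rw [add_div]
    refine add_le_add (a1.trans ?_) (a2.trans ?_)
    · rw [mul_div_assoc]
      exact mul_le_mul_of_nonneg_left (h z) (norm_nonneg _)
    · rw [mul_div_assoc]
      exact mul_le_mul_of_nonneg_left (h1 z) (norm_nonneg _)
  · exact (L1.contDiff.comp (CT_contDiff n (dS f))).contDiffAt
  · exact (L2.contDiff.comp (f.smooth n)).contDiffAt

theorem CT_zero_mean (n : ℕ) : ∀ f : SchwartzMap ℂ ℂ, (∫ z, f z) = 0 →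
    ∃ C : ℝ, ∀ z, ‖iteratedFDeriv ℝ n (CT f) z‖ ≤ C / (1 + ‖z‖) ^ 2 := by
  induction n with
  | zero =>
    intro f hf
    obtain ⟨K, hK, h⟩ := CT_decay
    obtain ⟨C0, h0⟩ := schw_bd f 0 4
    refine ⟨K * C0, fun z => ?_⟩
    rw [norm_iteratedFDeriv_zero]
    exact (h f C0 f.continuous (fun z => by simpa using h0 z)).2 hf z
  | succ n ih =>
    intro f hf
    obtain ⟨C, hC⟩ := ih (dS f) (integral_dS f)
    exact CT_step f n C hC

/-- Cauchy transforms of Schwartz functions are smooth, with square integrable derivatives -/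
theorem CT_smooth (f : SchwartzMap ℂ ℂ) :
    ContDiff ℝ (⊤ : ℕ∞) (CT f) ∧
    ∀ n : ℕ, 1 ≤ n → ∃ C : ℝ, ∀ z, ‖iteratedFDeriv ℝ n (CT f) z‖ ≤ C / (1 + ‖z‖) ^ 2 := by
  refine ⟨contDiff_infty.2 fun n => CT_contDiff n f, fun n hn => ?_⟩
  obtain ⟨m, rfl⟩ : ∃ m, n = m + 1 := ⟨n - 1, by omega⟩
  obtain ⟨C, hC⟩ := CT_zero_mean m (dS f) (integral_dS f)
  exact CT_step f m C hC


theorem int_ker (z : ℂ) : Integrable (fun w : ℂ => 1 / ((1 + ‖z - w‖) ^ 4 * ‖w‖)) := by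
  have hpos : ∀ y : ℂ, 0 < 1 + ‖y‖ ^ 2 := fun y => by positivity
  have hsq : ∀ y : ℂ, (1 + ‖y‖) ^ 4 ≤ 4 * (1 + ‖y‖ ^ 2) ^ 2 := fun y => by
    have h1 : (1 + ‖y‖) ^ 2 ≤ 2 * (1 + ‖y‖ ^ 2) := by nlinarith [sq_nonneg (1 - ‖y‖)]
    calc (1 + ‖y‖) ^ 4 = ((1 + ‖y‖) ^ 2) ^ 2 := by ring
      _ ≤ (2 * (1 + ‖y‖ ^ 2)) ^ 2 := by gcongr
      _ = 4 * (1 + ‖y‖ ^ 2) ^ 2 := by ring
  set g : ℂ → ℂ := fun y => ((((1 + ‖y‖ ^ 2) ^ 2)⁻¹ : ℝ) : ℂ) with hg
  set g' : ℂ → ℂ →L[ℝ] ℂ := fun y =>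
    Complex.ofRealCLM.comp ((-(4 * ((1 + ‖y‖ ^ 2) ^ 3)⁻¹)) • (innerSL ℝ y)) with hg'
  have hd : ∀ y, HasFDerivAt g (g' y) y := by
    intro y
    have h1 : HasFDerivAt (fun y : ℂ => ‖y‖ ^ 2) (2 • (innerSL ℝ y)) y :=
      (hasStrictFDerivAt_norm_sq y).hasFDerivAt
    have h2 : HasFDerivAt (fun y : ℂ => 1 + ‖y‖ ^ 2) (2 • (innerSL ℝ y)) y := h1.const_add 1
    have h3 : HasDerivAt (fun x : ℝ => (x ^ 2)⁻¹) (-(2 * (1 + ‖y‖ ^ 2)) / ((1 + ‖y‖ ^ 2) ^ 2) ^ 2)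
        (1 + ‖y‖ ^ 2) := by
      have := (hasDerivAt_pow 2 (1 + ‖y‖ ^ 2)).fun_inv (by positivity)
      simpa using this
    have h4 := h3.comp_hasFDerivAt y h2
    have h5 := Complex.ofRealCLM.hasFDerivAt.comp y h4
    refine h5.congr_fderiv ?_
    rw [hg']
    congr 1
    rw [← Nat.cast_smul_eq_nsmul ℝ, smul_smul]
    congr 1
    have := (hpos y).ne'
    field_simp
    norm_num
  have hcont : Continuous g' := by
    rw [hg']
    refine (ContinuousLinearMap.compL ℝ ℂ ℝ ℂ Complex.ofRealCLM).continuous.comp ?_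
    refine Continuous.fun_smul ?_ (innerSL ℝ).continuous
    refine (continuous_const.mul (Continuous.inv₀ (by fun_prop) fun y => ?_)).neg
    have := hpos y
    positivity
  have hb : ∀ y, ‖g y‖ ≤ 16 / (1 + ‖y‖) ^ 4 := by
    intro y
    rw [hg]
    simp only
    rw [Complex.norm_real, Real.norm_of_nonneg (by positivity), le_div_iff₀ (by positivity),
      inv_mul_le_iff₀ (by positivity)]
    have := hsq y
    have := hpos y
    nlinarith [sq_nonneg (1 + ‖y‖ ^ 2)]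
  have hb' : ∀ y, ‖g' y‖ ≤ 16 / (1 + ‖y‖) ^ 4 := by
    intro y
    have h1 : ‖g' y‖ ≤ 4 * ((1 + ‖y‖ ^ 2) ^ 3)⁻¹ * ‖y‖ := by
      refine (ContinuousLinearMap.opNorm_comp_le _ _).trans ?_
      rw [Complex.ofRealCLM_norm, one_mul, norm_smul, innerSL_apply_norm, norm_neg,
        Real.norm_of_nonneg (by positivity)]
    refine h1.trans ?_
    have h2 : ‖y‖ ≤ 1 + ‖y‖ ^ 2 := by nlinarith [sq_nonneg (1 - ‖y‖), norm_nonneg y]
    rw [le_div_iff₀ (by positivity)]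
    calc 4 * ((1 + ‖y‖ ^ 2) ^ 3)⁻¹ * ‖y‖ * (1 + ‖y‖) ^ 4
        ≤ 4 * ((1 + ‖y‖ ^ 2) ^ 3)⁻¹ * (1 + ‖y‖ ^ 2) * (4 * (1 + ‖y‖ ^ 2) ^ 2) := by
          gcongr
          exact hsq y
      _ = 16 := by
          have := (hpos y).ne'
          field_simp
          norm_num
  have hi := (CT_deriv g g' 16 hd hcont hb hb').1 z
  refine (hi.norm.const_mul 1).mono' ?_ (Eventually.of_forall fun w => ?_)
  · exact (Measurable.div measurable_const (by fun_prop)).aestronglyMeasurable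
  · rw [Real.norm_of_nonneg (by positivity), one_mul, norm_div, hg]
    simp only
    rw [Complex.norm_real, Real.norm_of_nonneg (by positivity)]
    rw [div_eq_mul_inv, mul_inv, one_mul, div_eq_mul_inv]
    gcongr
    have h1 : 1 + ‖z - w‖ ^ 2 ≤ (1 + ‖z - w‖) ^ 2 := by nlinarith [norm_nonneg (z - w)]
    calc (1 + ‖z - w‖ ^ 2) ^ 2 ≤ ((1 + ‖z - w‖) ^ 2) ^ 2 := by gcongr
      _ = (1 + ‖z - w‖) ^ 4 := by ring

theorem ker_bd (C : ℝ) (y w : ℂ) (a : ℂ) (h : ‖a‖ ≤ C / (1 + ‖y‖) ^ 4) :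
    ‖a / w‖ ≤ C * (1 / ((1 + ‖y‖) ^ 4 * ‖w‖)) := by
  rw [norm_div]
  calc ‖a‖ / ‖w‖ ≤ (C / (1 + ‖y‖) ^ 4) / ‖w‖ := by gcongr
    _ = C * (1 / ((1 + ‖y‖) ^ 4 * ‖w‖)) := by
      rw [div_div, mul_one_div]

theorem int_g (C : ℝ) (g : ℂ → ℂ) (hc : Continuous g) (hb : ∀ z, ‖g z‖ ≤ C / (1 + ‖z‖) ^ 4)
    (z : ℂ) : Integrable (fun w : ℂ => g (z - w) / w) := by
  refine ((int_ker z).const_mul C).mono' ?_ (Eventually.of_forall fun w => ?_)
  · exact (Measurable.div (hc.comp (continuous_const.sub continuous_id)).measurable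
      measurable_id).aestronglyMeasurable
  · exact ker_bd C _ _ _ (hb _)

/-- joint continuity and time derivative of Cauchy transforms -/
theorem CT_time (T C : ℝ) (g g' : ℝ → ℂ → ℂ)
    (hg : ContinuousOn (fun p : ℝ × ℂ => g p.1 p.2) (Icc 0 T ×ˢ univ))
    (hg' : ContinuousOn (fun p : ℝ × ℂ => g' p.1 p.2) (Icc 0 T ×ˢ univ))
    (hb : ∀ t ∈ Icc 0 T, ∀ z, ‖g t z‖ ≤ C / (1 + ‖z‖) ^ 4)
    (hb' : ∀ t ∈ Icc 0 T, ∀ z, ‖g' t z‖ ≤ C / (1 + ‖z‖) ^ 4)
    (hd : ∀ t ∈ Icc 0 T, ∀ z, HasDerivWithinAt (fun τ => g τ z) (g' t z) (Icc 0 T) t) :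
    ContinuousOn (fun p : ℝ × ℂ => CT (g p.1) p.2) (Icc 0 T ×ˢ univ) ∧
    ∀ t ∈ Icc 0 T, ∀ z, HasDerivWithinAt (fun τ => CT (g τ) z) (CT (g' t) z) (Icc 0 T) t := by
  have hgc : ∀ t ∈ Icc 0 T, Continuous (g t) := fun t ht => by
    have h : ContinuousOn ((fun p : ℝ × ℂ => g p.1 p.2) ∘ fun z => (t, z)) univ :=
      hg.comp (by fun_prop) fun z _ => ⟨ht, mem_univ _⟩
    exact continuousOn_univ.1 h
  have hgc' : ∀ t ∈ Icc 0 T, Continuous (g' t) := fun t ht => by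
    have h : ContinuousOn ((fun p : ℝ × ℂ => g' p.1 p.2) ∘ fun z => (t, z)) univ :=
      hg'.comp (by fun_prop) fun z _ => ⟨ht, mem_univ _⟩
    exact continuousOn_univ.1 h
  have hC : 0 ≤ C ∨ Icc 0 T = ∅ := by
    rcases (Icc 0 T).eq_empty_or_nonempty with h | ⟨t, ht⟩
    · exact Or.inr h
    · left
      have h1 := (norm_nonneg _).trans (hb t ht 0)
      simpa using h1
  constructor
  · rintro ⟨t0, z0⟩ ⟨ht0, -⟩
    have hC' : 0 ≤ C := by
      rcases hC with h | h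
      · exact h
      · rw [h] at ht0; exact absurd ht0 (notMem_empty _)
    unfold ContinuousWithinAt CT
    refine Tendsto.const_mul _ ?_
    have hev : ∀ᶠ p : ℝ × ℂ in 𝓝[Icc 0 T ×ˢ univ] (t0, z0), p.1 ∈ Icc 0 T ∧ ‖p.2 - z0‖ < 1 := by
      have h1 : ∀ᶠ p : ℝ × ℂ in 𝓝[Icc 0 T ×ˢ univ] (t0, z0), p ∈ Icc 0 T ×ˢ (univ : Set ℂ) :=
        self_mem_nhdsWithin
      have h2 : ∀ᶠ p : ℝ × ℂ in 𝓝[Icc 0 T ×ˢ univ] (t0, z0), ‖p.2 - z0‖ < 1 := by
        have h3 : Continuous fun p : ℝ × ℂ => ‖p.2 - z0‖ := by fun_prop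
        have h4 : ∀ᶠ p : ℝ × ℂ in 𝓝 (t0, z0), ‖p.2 - z0‖ < 1 :=
          h3.continuousAt.eventually_lt continuousAt_const (by simp)
        exact h4.filter_mono nhdsWithin_le_nhds
      filter_upwards [h1, h2] with p hp1 hp2
      exact ⟨hp1.1, hp2⟩
    refine tendsto_integral_filter_of_dominated_convergence
      (fun w => (16 * C) * (1 / ((1 + ‖z0 - w‖) ^ 4 * ‖w‖))) ?_ ?_ ((int_ker z0).const_mul _) ?_
    · filter_upwards [hev] with p hp
      exact (int_g C (g p.1) (hgc _ hp.1) (hb _ hp.1) p.2).aestronglyMeasurable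
    · filter_upwards [hev] with p hp
      refine Eventually.of_forall fun w => ker_bd _ _ _ _ ?_
      refine (hb _ hp.1 _).trans ?_
      have h1 : 1 + ‖z0 - w‖ ≤ 2 * (1 + ‖p.2 - w‖) := by
        have : ‖z0 - w‖ ≤ ‖p.2 - z0‖ + ‖p.2 - w‖ := by
          calc ‖z0 - w‖ = ‖(p.2 - w) - (p.2 - z0)‖ := by congr 1; ring
            _ ≤ ‖p.2 - w‖ + ‖p.2 - z0‖ := norm_sub_le _ _
            _ = _ := add_comm _ _
        have := hp.2
        have := norm_nonneg (p.2 - w)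
        linarith
      have h2 : (1 + ‖z0 - w‖) ^ 4 ≤ 16 * (1 + ‖p.2 - w‖) ^ 4 := by
        calc (1 + ‖z0 - w‖) ^ 4 ≤ (2 * (1 + ‖p.2 - w‖)) ^ 4 := by gcongr
          _ = _ := by ring
      rw [div_le_div_iff₀ (by positivity) (by positivity)]
      calc C * (1 + ‖z0 - w‖) ^ 4 ≤ C * (16 * (1 + ‖p.2 - w‖) ^ 4) := by gcongr
        _ = _ := by ring
    · refine Eventually.of_forall fun w => ?_
      refine Tendsto.div_const ?_ _
      have h1 : ContinuousWithinAt (fun p : ℝ × ℂ => g p.1 p.2) (Icc 0 T ×ˢ univ) (t0, z0 - w) :=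
        hg _ ⟨ht0, mem_univ _⟩
      have h2 : Tendsto (fun p : ℝ × ℂ => (p.1, p.2 - w)) (𝓝[Icc 0 T ×ˢ univ] (t0, z0))
          (𝓝[Icc 0 T ×ˢ univ] (t0, z0 - w)) := by
        refine tendsto_nhdsWithin_of_tendsto_nhds_of_eventually_within _ ?_ ?_
        · have : Continuous fun p : ℝ × ℂ => (p.1, p.2 - w) := by fun_prop
          exact (this.tendsto (t0, z0)).mono_left nhdsWithin_le_nhds
        · filter_upwards [hev] with p hp
          exact ⟨hp.1, mem_univ _⟩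
      exact h1.tendsto.comp h2
  · intro t ht z
    have hC' : 0 ≤ C := by
      rcases hC with h | h
      · exact h
      · rw [h] at ht; exact absurd ht (notMem_empty _)
    rw [hasDerivWithinAt_iff_tendsto_slope]
    have hmem : ∀ᶠ τ in 𝓝[Icc 0 T \ {t}] t, τ ∈ Icc 0 T \ {t} := self_mem_nhdsWithin
    have heq : ∀ᶠ τ in 𝓝[Icc 0 T \ {t}] t, (1 / (Real.pi : ℂ)) *
        ∫ w : ℂ, (slope (fun τ => g τ (z - w)) t τ) / w = slope (fun τ => CT (g τ) z) t τ := by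
      filter_upwards [hmem] with τ hτ
      have e : (fun w : ℂ => (slope (fun τ => g τ (z - w)) t τ) / w) =
          fun w : ℂ => ((τ - t)⁻¹ : ℝ) • (g τ (z - w) / w - g t (z - w) / w) := by
        funext w
        simp only [slope, vsub_eq_sub, Complex.real_smul]
        ring
      rw [e, integral_smul, integral_sub (int_g C _ (hgc _ hτ.1) (hb _ hτ.1) z)
        (int_g C _ (hgc _ ht) (hb _ ht) z)]
      simp only [slope, vsub_eq_sub, Complex.real_smul, CT]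
      ring
    refine Tendsto.congr' heq ?_
    unfold CT
    refine Tendsto.const_mul _ ?_
    refine tendsto_integral_filter_of_dominated_convergence
      (fun w => C * (1 / ((1 + ‖z - w‖) ^ 4 * ‖w‖))) ?_ ?_ ((int_ker z).const_mul _) ?_
    · filter_upwards [hmem] with τ hτ
      have e : (fun w : ℂ => (slope (fun τ => g τ (z - w)) t τ) / w) =
          fun w : ℂ => ((τ - t)⁻¹ : ℝ) • (g τ (z - w) / w - g t (z - w) / w) := by
        funext w
        simp only [slope, vsub_eq_sub, Complex.real_smul]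
        ring
      rw [e]
      exact (((int_g C _ (hgc _ hτ.1) (hb _ hτ.1) z).sub
        (int_g C _ (hgc _ ht) (hb _ ht) z)).smul ((τ - t)⁻¹ : ℝ)).aestronglyMeasurable
    · filter_upwards [hmem] with τ hτ
      refine Eventually.of_forall fun w => ker_bd _ _ _ _ ?_
      have h1 := (convex_Icc (0 : ℝ) T).norm_image_sub_le_of_norm_hasDerivWithin_le
        (f := fun τ => g τ (z - w)) (f' := fun τ => g' τ (z - w))
        (C := C / (1 + ‖z - w‖) ^ 4) (x := t) (y := τ)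
        (fun x hx => hd x hx _) (fun x hx => hb' x hx _) ht hτ.1
      have hne : ‖τ - t‖ ≠ 0 := by
        rw [norm_ne_zero_iff, sub_ne_zero]
        exact fun h => hτ.2 h
      simp only [slope, vsub_eq_sub, norm_smul, norm_inv]
      rw [inv_mul_le_iff₀ (lt_of_le_of_ne (norm_nonneg _) hne.symm), mul_comm]
      exact h1
    · refine Eventually.of_forall fun w => ?_
      refine Tendsto.div_const ?_ _
      exact hasDerivWithinAt_iff_tendsto_slope.1 (hd t ht (z - w))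

/-- uniqueness: a solution of the d-bar equation in the punctured plane, bounded and decaying -/
theorem CT_unique (g V : ℂ → ℂ) (g' : ℂ → ℂ →L[ℝ] ℂ) (C : ℝ)
    (hg : ∀ z, HasFDerivAt g (g' z) z)
    (hc : Continuous g') (hb : ∀ z, ‖g z‖ ≤ C / (1 + ‖z‖) ^ 4) (hb' : ∀ z, ‖g' z‖ ≤ C / (1 + ‖z‖) ^ 4)
    (hV : ∀ z : ℂ, z ≠ 0 → ∃ A : ℂ, HasFDerivAt V (dfm A (-(I / 2) * g z)) z)
    (hVb : ∀ z : ℂ, z ≠ 0 → ‖V z‖ ≤ C / (1 + ‖z‖)) :
    ∀ z : ℂ, z ≠ 0 → V z = -(I / 2) * CT g z := by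
  have hgc : Continuous g := continuous_iff_continuousAt.2 fun z => (hg z).continuousAt
  obtain ⟨K, hK, hdec⟩ := CT_decay
  have hder := (CT_deriv g g' C hg hc hb hb').2.1
  have hdc := (hdec g C hgc hb).1
  set D : ℂ → ℂ := fun z => V z + (I / 2) * CT g z with hD
  have hDd : ∀ z : ℂ, z ≠ 0 → DifferentiableAt ℂ D z := by
    intro z hz
    obtain ⟨A, hA⟩ := hV z hz
    set B := CT (fun y => (g' y 1 - I * g' y I) / 2) z with hB
    have h1 : HasFDerivAt (fun z => (I / 2) • CT g z) ((I / 2) • dfm B (g z)) z :=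
      (hder z).const_smul (I / 2)
    have h2 := hA.add h1
    have h3 : HasFDerivAt D ((ContinuousLinearMap.toSpanSingleton ℂ (A + (I / 2) * B))) z := by
      refine hasFDerivAt_of_restrictScalars ℝ h2 ?_
      ext
      simp [dfm]; ring
    exact h3.differentiableAt
  have hDb : ∀ z : ℂ, z ≠ 0 → ‖D z‖ ≤ (C + K * C) / (1 + ‖z‖) := by
    intro z hz
    rw [add_div]
    refine (norm_add_le _ _).trans (add_le_add (hVb z hz) ?_)
    rw [norm_mul]
    have h1 : ‖(I / 2 : ℂ)‖ ≤ 1 := by simp; norm_num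
    calc ‖(I / 2 : ℂ)‖ * ‖CT g z‖ ≤ 1 * ‖CT g z‖ := by gcongr
      _ ≤ _ := by rw [one_mul]; exact hdc z
  have hC0 : 0 ≤ C + K * C := by
    have h1 : 0 ≤ C := by simpa using (norm_nonneg _).trans (hb 0)
    positivity
  have hDb' : ∀ z : ℂ, z ≠ 0 → ‖D z‖ ≤ C + K * C := fun z hz =>
    (hDb z hz).trans (div_le_self hC0 (by linarith [norm_nonneg z]))
  have hE := Complex.differentiableOn_update_limUnder_of_bddAbove (f := D) (s := univ) (c := 0)
    univ_mem (fun z hz => (hDd z (by simpa using hz)).differentiableWithinAt)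
    ⟨C + K * C, by rintro _ ⟨z, hz, rfl⟩; exact hDb' z (by simpa using hz)⟩
  set E := Function.update D 0 (limUnder (𝓝[≠] 0) D) with hEd
  have hEdiff : Differentiable ℂ E := differentiableOn_univ.1 hE
  have hbdd : Bornology.IsBounded (range E) := by
    rw [isBounded_iff_forall_norm_le]
    refine ⟨max (C + K * C) ‖E 0‖, ?_⟩
    rintro _ ⟨z, rfl⟩
    by_cases hz : z = 0
    · rw [hz]; exact le_max_right _ _
    · refine le_trans ?_ (le_max_left _ _)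
      rw [hEd, Function.update_of_ne hz]
      exact hDb' z hz
  intro z hz
  have hconst : ∀ n : ℕ, ‖D z‖ ≤ (C + K * C) / (1 + (n + 1 : ℝ)) := by
    intro n
    have hn : ((n + 1 : ℕ) : ℂ) ≠ 0 := Nat.cast_ne_zero.2 (Nat.succ_ne_zero n)
    have h1 := hEdiff.apply_eq_apply_of_bounded hbdd z ((n + 1 : ℕ) : ℂ)
    rw [hEd, Function.update_of_ne hz, Function.update_of_ne hn] at h1
    rw [h1]
    have h2 := hDb _ hn
    rw [Complex.norm_natCast] at h2
    push_cast at h2 ⊢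
    exact h2
  have hlim : Tendsto (fun n : ℕ => (C + K * C) / (1 + (n + 1 : ℝ))) atTop (𝓝 0) := by
    refine Tendsto.const_div_atTop ?_ _
    refine tendsto_atTop_add_const_left _ _ ?_
    exact tendsto_atTop_add_const_right _ _ tendsto_natCast_atTop_atTop
  have h0 : ‖D z‖ ≤ 0 := ge_of_tendsto' hlim hconst
  have h1 : D z = 0 := norm_le_zero_iff.1 h0
  rw [hD] at h1
  simp only at h1
  linear_combination h1

end JCB

end Pool.Agent.Helper383.NI
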