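import Pool.Agent.Helper383.NI.Defs

open Complex MeasureTheory Set Filter Topology

namespace Pool.Agent.Helper383.NI


namespace JCC

theorem int_japan (z : ℂ) : Integrable (fun w : ℂ => 1 / (1 + ‖z - w‖) ^ 4) := by
  have h := integrable_one_add_norm (E := ℂ) (μ := volume) (r := 4)
    (by rw [Complex.finrank_real_complex]; norm_num)
  have h2 := h.comp_sub_left z
  refine h2.congr (Eventually.of_forall fun w => ?_)
  show (1 + ‖z - w‖) ^ (-(4:ℝ)) = 1 / (1 + ‖z - w‖) ^ 4
  rw [Real.rpow_neg (by positivity), one_div]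
  norm_cast

theorem int_inv_ball : Integrable ((Metric.ball (0:ℂ) 1).indicator (fun w : ℂ => ‖w‖⁻¹)) := by
  rw [integrable_indicator_iff Metric.isOpen_ball.measurableSet]
  refine integrableOn_ball_of_norm_le_rpow (C := 1) (α := 1)
    (by rw [Complex.finrank_real_complex]; norm_num)
    (by rw [Complex.finrank_real_complex]; norm_num) ?_ ?_
  · refine Eventually.of_forall fun w => ?_
    rw [Real.rpow_neg (norm_nonneg _), Real.rpow_one, one_mul, norm_inv, norm_norm]
  · exact (measurable_norm.inv).aestronglyMeasurable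

/-- joint continuity of Cauchy transforms (no time derivative needed) -/
theorem CT_cont (T C : ℝ) (g : ℝ → ℂ → ℂ)
    (hg : ContinuousOn (fun p : ℝ × ℂ => g p.1 p.2) (Icc 0 T ×ˢ univ))
    (hb : ∀ t ∈ Icc 0 T, ∀ z, ‖g t z‖ ≤ C / (1 + ‖z‖) ^ 4) :
    ContinuousOn (fun p : ℝ × ℂ => CT (g p.1) p.2) (Icc 0 T ×ˢ univ) := by
  rintro ⟨t0, z0⟩ hp
  have ht0 : t0 ∈ Icc 0 T := hp.1
  have hC : 0 ≤ C := by
    have := (norm_nonneg _).trans (hb t0 ht0 0)
    simpa using this
  unfold CT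
  refine ContinuousWithinAt.mul continuousWithinAt_const ?_
  refine continuousWithinAt_of_dominated (bound := fun w : ℂ => (16 * C) *
    ((Metric.ball (0:ℂ) 1).indicator (fun w : ℂ => ‖w‖⁻¹) w + 1 / (1 + ‖z0 - w‖) ^ 4)) ?_ ?_ ?_ ?_
  · filter_upwards [self_mem_nhdsWithin] with p hp'
    have h1 : Continuous (g p.1) := by
      have : ContinuousOn (fun z : ℂ => g p.1 z) univ := by
        have h2 : ContinuousOn (fun z : ℂ => ((p.1, z) : ℝ × ℂ)) univ := by fun_prop
        exact ContinuousOn.comp (g := fun q : ℝ × ℂ => g q.1 q.2) (t := Icc 0 T ×ˢ univ) hg h2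
          (fun z _ => ⟨hp'.1, mem_univ _⟩)
      exact continuousOn_univ.mp this
    have h3 : Measurable (fun w : ℂ => g p.1 (p.2 - w) / w) := by
      exact ((h1.comp (continuous_const.sub continuous_id)).measurable).div measurable_id
    exact h3.aestronglyMeasurable
  · have hnear : ∀ᶠ p : ℝ × ℂ in 𝓝[Icc 0 T ×ˢ univ] (t0, z0), ‖z0 - p.2‖ < 1 := by
      refine nhdsWithin_le_nhds ?_
      have hc : Continuous (fun p : ℝ × ℂ => ‖z0 - p.2‖) := by fun_prop
      have := hc.continuousAt (x := (t0, z0))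
      refine this.eventually_lt_const ?_
      simp
    filter_upwards [self_mem_nhdsWithin, hnear] with p hp' hn
    refine Eventually.of_forall fun w => ?_
    have h1 := hb p.1 hp'.1 (p.2 - w)
    have h2 : 1 + ‖z0 - w‖ ≤ 2 * (1 + ‖p.2 - w‖) := by
      have : ‖z0 - w‖ ≤ ‖z0 - p.2‖ + ‖p.2 - w‖ := by
        have := norm_add_le (z0 - p.2) (p.2 - w)
        simpa using this
      have := norm_nonneg (p.2 - w)
      linarith
    have h3 : C / (1 + ‖p.2 - w‖) ^ 4 ≤ (16 * C) * (1 / (1 + ‖z0 - w‖) ^ 4) := by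
      have hpos : 0 < (1 + ‖z0 - w‖) ^ 4 := by positivity
      have hpos2 : 0 < (1 + ‖p.2 - w‖) ^ 4 := by positivity
      rw [mul_one_div, div_le_div_iff₀ hpos2 hpos]
      have h4 : (1 + ‖z0 - w‖) ^ 4 ≤ (2 * (1 + ‖p.2 - w‖)) ^ 4 :=
        pow_le_pow_left₀ (by positivity) h2 4
      have h5 : (2 * (1 + ‖p.2 - w‖)) ^ 4 = 16 * (1 + ‖p.2 - w‖) ^ 4 := by ring
      rw [h5] at h4
      nlinarith
    have h6 : ‖g p.1 (p.2 - w) / w‖ ≤ (16 * C) * (1 / (1 + ‖z0 - w‖) ^ 4) * ‖w‖⁻¹ := by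
      rw [norm_div, div_eq_mul_inv]
      exact mul_le_mul_of_nonneg_right (h1.trans h3) (by positivity)
    refine h6.trans ?_
    rw [mul_assoc]
    refine mul_le_mul_of_nonneg_left ?_ (by positivity)
    by_cases hw : w ∈ Metric.ball (0:ℂ) 1
    · rw [Set.indicator_of_mem hw]
      have h7 : 1 / (1 + ‖z0 - w‖) ^ 4 ≤ 1 := by
        rw [div_le_one (by positivity)]
        exact one_le_pow₀ (by linarith [norm_nonneg (z0 - w)])
      have h8 : 0 ≤ ‖w‖⁻¹ := by positivity
      have h9 : 0 ≤ 1 / (1 + ‖z0 - w‖) ^ 4 := by positivity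
      nlinarith
    · rw [Set.indicator_of_notMem hw]
      have h7 : 1 ≤ ‖w‖ := by
        rw [Metric.mem_ball, dist_zero_right] at hw
        linarith
      have h8 : ‖w‖⁻¹ ≤ 1 := inv_le_one_of_one_le₀ h7
      have h9 : 0 ≤ 1 / (1 + ‖z0 - w‖) ^ 4 := by positivity
      nlinarith
  · exact (int_inv_ball.add (int_japan z0)).const_mul _
  · refine Eventually.of_forall fun w => ?_
    refine ContinuousWithinAt.div_const ?_ _
    have h1 : ContinuousWithinAt (fun p : ℝ × ℂ => g p.1 p.2) (Icc 0 T ×ˢ univ) (t0, z0 - w) :=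
      hg _ ⟨ht0, mem_univ _⟩
    have h2 : ContinuousWithinAt (fun p : ℝ × ℂ => ((p.1, p.2 - w) : ℝ × ℂ))
        (Icc 0 T ×ˢ univ) (t0, z0) := by
      have : Continuous (fun p : ℝ × ℂ => ((p.1, p.2 - w) : ℝ × ℂ)) := by fun_prop
      exact this.continuousWithinAt
    exact ContinuousWithinAt.comp (t := Icc 0 T ×ˢ univ)
      (f := fun p : ℝ × ℂ => ((p.1, p.2 - w) : ℝ × ℂ)) h1 h2 (fun p hp' => ⟨hp'.1, mem_univ _⟩)

/-- integrals of derivatives vanish -/
theorem deriv_mean_zero (g : ℂ → ℂ) (g' : ℂ → ℂ →L[ℝ] ℂ) (C : ℝ) (hg : ∀ z, HasFDerivAt g (g' z) z)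
    (hc : Continuous g') (hb : ∀ z, ‖g z‖ ≤ C / (1 + ‖z‖) ^ 4) (hb' : ∀ z, ‖g' z‖ ≤ C / (1 + ‖z‖) ^ 4)
    (a : ℂ) : (∫ z, g' z a) = 0 := by
  have hgc : Continuous g := continuous_iff_continuousAt.mpr fun z => (hg z).continuousAt
  have hJ : Integrable (fun w : ℂ => C * (1 / (1 + ‖w‖) ^ 4)) := by
    have := (int_japan 0).const_mul C
    simpa using this
  have hi1 : Integrable g := by
    refine hJ.mono' hgc.aestronglyMeasurable (Eventually.of_forall fun z => ?_)
    rw [mul_one_div]; exact hb z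
  have hc2 : Continuous (fun z => g' z a) := by fun_prop
  have hi2 : Integrable (fun z => g' z a) := by
    refine (hJ.mul_const ‖a‖).mono' hc2.aestronglyMeasurable (Eventually.of_forall fun z => ?_)
    refine ((g' z).le_opNorm a).trans ?_
    rw [mul_one_div]
    exact mul_le_mul_of_nonneg_right (hb' z) (norm_nonneg _)
  have key := integral_bilinear_hasFDerivAt_right_eq_neg_left_of_integrable
    (μ := (volume : Measure ℂ)) (f := fun _ : ℂ => (1:ℂ)) (f' := fun _ => (0 : ℂ →L[ℝ] ℂ))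
    (g := g) (g' := g') (v := a) (B := ContinuousLinearMap.mul ℝ ℂ)
    (by simp) (by simpa using hi2) (by simpa using hi1)
    (fun x _ => hasFDerivAt_const _ _) (fun x _ => hg x)
  simpa using key

end JCC

end Pool.Agent.Helper383.NI
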