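import Pool.Agent.Helper383.NI.Defs

open Complex MeasureTheory Set Filter Topology

namespace Pool.Agent.Helper383.NI


namespace JD0

/-- decay of the weight -/
theorem E_bound : ∃ C > 0, ∀ z ∈ Str 1, ‖Complex.exp (-Complex.cosh z)‖ * Real.exp (20 * |z.re|) ≤ C := by
  refine ⟨Real.exp 800, Real.exp_pos _, fun z hz => ?_⟩
  have hz' : |z.im| < 1 := hz
  have hre : (Complex.cosh z).re = Real.cosh z.re * Real.cos z.im := by
    have h := Complex.cosh_add (z.re : ℂ) (z.im * I)
    rw [Complex.re_add_im] at h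
    rw [h, Complex.cosh_mul_I, Complex.sinh_mul_I, ← Complex.ofReal_cosh, ← Complex.ofReal_sinh,
      ← Complex.ofReal_cos, ← Complex.ofReal_sin]
    simp only [Complex.add_re, Complex.mul_re, Complex.mul_im, Complex.ofReal_re, Complex.ofReal_im,
      Complex.I_re, Complex.I_im]
    ring
  have hcos : 1 / 2 ≤ Real.cos z.im := by
    rw [← Real.cos_abs, ← Real.cos_pi_div_three]
    apply Real.cos_le_cos_of_nonneg_of_le_pi (abs_nonneg _)
    · have := Real.pi_gt_three; linarith
    · have := Real.pi_gt_three; linarith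
  have hcosh : Real.exp |z.re| / 2 ≤ Real.cosh z.re := by
    rw [← Real.cosh_abs, Real.cosh_eq]
    have := Real.exp_pos (-|z.re|)
    linarith
  have hq := Real.quadratic_le_exp_of_nonneg (abs_nonneg z.re)
  have hu := abs_nonneg z.re
  rw [Complex.norm_exp, ← Real.exp_add]
  apply Real.exp_le_exp.mpr
  rw [Complex.neg_re, hre]
  have h1 : Real.exp |z.re| / 2 * (1 / 2) ≤ Real.cosh z.re * Real.cos z.im := by
    apply mul_le_mul hcosh hcos (by norm_num)
    have := Real.cosh_pos z.re
    exact this.le
  nlinarith [sq_nonneg (|z.re| - 80)]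

end JD0

end Pool.Agent.Helper383.NI
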