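import Pool.Agent.Helper383.NI.Defs
import Pool.Agent.Helper383.NI.D0
import Pool.Agent.Helper383.NI.B1
import Pool.Agent.Helper383.NI.B2

open Complex MeasureTheory Set Filter Topology

namespace Pool.Agent.Helper383.NI

open JD0 (E_bound)
open JB1 (Qop_basic)
open JB2 (Qop_lip)

namespace JD1

theorem str_open (σ : ℝ) : IsOpen (Str σ) := by
  unfold Str
  exact isOpen_lt (continuous_abs.comp Complex.continuous_im) continuous_const

theorem str_sub {σ : ℝ} (h : σ ≤ 1) {z : ℂ} (hz : z ∈ Str σ) : z ∈ Str 1 := lt_of_lt_of_le hz h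

theorem norm_sinh_le (z : ℂ) : ‖Complex.sinh z‖ ≤ Real.exp |z.re| := by
  unfold Complex.sinh
  rw [norm_div]
  have h1 : ‖Complex.exp z - Complex.exp (-z)‖ ≤ ‖Complex.exp z‖ + ‖Complex.exp (-z)‖ := norm_sub_le _ _
  rw [Complex.norm_exp, Complex.norm_exp] at h1
  have h2 : Real.exp z.re ≤ Real.exp |z.re| := Real.exp_le_exp.2 (le_abs_self _)
  have h3 : Real.exp (-z).re ≤ Real.exp |z.re| := Real.exp_le_exp.2 (by simpa using neg_le_abs z.re)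
  have h4 : ‖(2 : ℂ)‖ = 2 := by simp
  rw [h4]
  linarith

theorem expE {C : ℝ} (hE : ∀ z ∈ Str 1, ‖Complex.exp (-Complex.cosh z)‖ * Real.exp (20 * |z.re|) ≤ C)
    {z : ℂ} (hz : z ∈ Str 1) : ‖Complex.exp (-Complex.cosh z)‖ ≤ C * Real.exp (-(20 * |z.re|)) := by
  have h := hE z hz
  have h1 : Real.exp (20 * |z.re|) * Real.exp (-(20 * |z.re|)) = 1 := by
    rw [← Real.exp_add]
    simp
  calc ‖Complex.exp (-Complex.cosh z)‖
      = ‖Complex.exp (-Complex.cosh z)‖ * Real.exp (20 * |z.re|) * Real.exp (-(20 * |z.re|)) := by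
        rw [mul_assoc, h1, mul_one]
    _ ≤ _ := mul_le_mul_of_nonneg_right h (Real.exp_pos _).le

theorem wsE1 {C : ℝ} (hC : 0 < C)
    (hE : ∀ z ∈ Str 1, ‖Complex.exp (-Complex.cosh z)‖ * Real.exp (20 * |z.re|) ≤ C)
    {z : ℂ} (hz : z ∈ Str 1) (a : ℂ) (A : ℝ) (ha : ‖a‖ ≤ A) :
    ‖Complex.exp (-Complex.cosh z) * a‖ ≤ C * A * Real.exp (-(5 * |z.re|)) := by
  have hA : 0 ≤ A := (norm_nonneg _).trans ha
  rw [norm_mul]
  calc _ ≤ (C * Real.exp (-(20 * |z.re|))) * A :=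
        mul_le_mul (expE hE hz) ha (norm_nonneg _) (mul_nonneg hC.le (Real.exp_pos _).le)
    _ = (C * A) * Real.exp (-(20 * |z.re|)) := by ring
    _ ≤ _ := by
      refine mul_le_mul_of_nonneg_left (Real.exp_le_exp.2 ?_) (mul_nonneg hC.le hA)
      have := abs_nonneg z.re
      linarith

theorem wsE2 {C : ℝ} (hC : 0 < C)
    (hE : ∀ z ∈ Str 1, ‖Complex.exp (-Complex.cosh z)‖ * Real.exp (20 * |z.re|) ≤ C)
    {z : ℂ} (hz : z ∈ Str 1) (a b : ℂ) (A : ℝ) (ha : ‖a‖ ≤ A) (hb : ‖b‖ ≤ A) :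
    ‖Complex.exp (-Complex.cosh z) * (b - Complex.sinh z * a)‖ ≤ 2 * C * A * Real.exp (-(5 * |z.re|)) := by
  have hA : 0 ≤ A := (norm_nonneg _).trans ha
  have h1 : ‖b - Complex.sinh z * a‖ ≤ 2 * A * Real.exp |z.re| := by
    calc _ ≤ ‖b‖ + ‖Complex.sinh z * a‖ := norm_sub_le _ _
      _ ≤ A + Real.exp |z.re| * A := by
        refine add_le_add hb ?_
        rw [norm_mul]
        exact mul_le_mul (norm_sinh_le z) ha (norm_nonneg _) (Real.exp_pos _).le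
      _ ≤ _ := by
        have h2 : 1 ≤ Real.exp |z.re| := Real.one_le_exp (abs_nonneg _)
        nlinarith
  rw [norm_mul]
  calc _ ≤ (C * Real.exp (-(20 * |z.re|))) * (2 * A * Real.exp |z.re|) :=
        mul_le_mul (expE hE hz) h1 (norm_nonneg _) (mul_nonneg hC.le (Real.exp_pos _).le)
    _ = (2 * C * A) * (Real.exp (-(20 * |z.re|)) * Real.exp |z.re|) := by ring
    _ ≤ _ := by
      refine mul_le_mul_of_nonneg_left ?_ (by positivity)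
      rw [← Real.exp_add]
      refine Real.exp_le_exp.2 ?_
      have := abs_nonneg z.re
      linarith

theorem Ws_hasDeriv {σ : ℝ} {w : ℤ → ℂ → ℂ} {k : ℤ} (hw : DifferentiableOn ℂ (w k) (Str σ))
    {z : ℂ} (hz : z ∈ Str σ) :
    HasDerivAt (Ws w k) (Complex.exp (-Complex.cosh z) * (deriv (w k) z - Complex.sinh z * w k z)) z := by
  have h1 : HasDerivAt (w k) (deriv (w k) z) z :=
    (hw.differentiableAt ((str_open σ).mem_nhds hz)).hasDerivAt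
  have h2 : HasDerivAt (fun z => Complex.exp (-Complex.cosh z))
      (Complex.exp (-Complex.cosh z) * (-Complex.sinh z)) z :=
    ((Complex.hasDerivAt_cosh z).neg).cexp
  have h3 := h2.mul h1
  refine (h3.congr_deriv ?_)
  ring

theorem Ws_diff {σ : ℝ} {w : ℤ → ℂ → ℂ} {k : ℤ} (hw : DifferentiableOn ℂ (w k) (Str σ)) :
    DifferentiableOn ℂ (Ws w k) (Str σ) := fun _ hz =>
  (Ws_hasDeriv hw hz).differentiableAt.differentiableWithinAt

theorem wt_nonneg (p : ℕ) (k : ℤ) (σ : ℝ) : 0 ≤ wt p k σ := by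
  unfold wt
  positivity

theorem wt32 (k : ℤ) (σ : ℝ) : wt 3 k σ ≤ wt 2 k σ := by
  unfold wt
  have h : (0 : ℝ) ≤ |(k : ℝ)| := abs_nonneg _
  refine div_le_div_of_nonneg_left (Real.exp_pos _).le (by positivity) ?_
  exact pow_le_pow_right₀ (by linarith) (by norm_num)

theorem one_le_abs {k : ℤ} (hk : k ≠ 0) : (1 : ℝ) ≤ |(k : ℝ)| := by
  have : (1 : ℤ) ≤ |k| := Int.one_le_abs hk
  exact_mod_cast this

theorem wt_div (p : ℕ) {k : ℤ} (hk : k ≠ 0) (σ : ℝ) :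
    1 / |(k : ℝ)| * wt p k σ ≤ 2 * wt (p + 1) k σ := by
  have h := one_le_abs hk
  unfold wt
  have hE := Real.exp_pos (-(σ * |(k : ℝ)|))
  rw [pow_succ, one_div, inv_mul_eq_div, div_div, ← mul_div_assoc, div_le_div_iff₀ (by positivity) (by positivity)]
  have h2 : (1 + |(k : ℝ)|) ≤ 2 * |(k : ℝ)| := by linarith
  have h3 : 0 ≤ Real.exp (-(σ * |(k : ℝ)|)) * (1 + |(k : ℝ)|) ^ p := by positivity
  nlinarith [mul_le_mul_of_nonneg_left h2 h3]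

theorem wt_div2 (p : ℕ) {k : ℤ} (hk : k ≠ 0) (σ : ℝ) :
    1 / |(k : ℝ)| ^ 2 * wt p k σ ≤ 4 * wt (p + 2) k σ := by
  have h := one_le_abs hk
  have h1 := wt_div p hk σ
  have h2 := wt_div (p + 1) hk σ
  have h3 : 0 ≤ 1 / |(k : ℝ)| := by positivity
  calc 1 / |(k : ℝ)| ^ 2 * wt p k σ = 1 / |(k : ℝ)| * (1 / |(k : ℝ)| * wt p k σ) := by
        field_simp
    _ ≤ 1 / |(k : ℝ)| * (2 * wt (p + 1) k σ) := mul_le_mul_of_nonneg_left h1 h3
    _ = 2 * (1 / |(k : ℝ)| * wt (p + 1) k σ) := by ring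
    _ ≤ _ := by
      have : wt (p + 2) k σ = wt (p + 1 + 1) k σ := rfl
      rw [this]
      linarith

theorem nk_ge {m : ℕ} (hm : 40 ≤ m) {k : ℤ} (hk : k ≠ 0) : (40 : ℝ) ≤ nk m k := by
  unfold nk
  have h := one_le_abs hk
  have h2 : (40 : ℝ) ≤ m := by exact_mod_cast hm
  nlinarith

theorem sg_cases (k : ℤ) : sg k = 1 ∨ sg k = -1 := by
  unfold sg
  split_ifs
  · left; rfl
  · right; rfl

theorem Ws_b0 {C : ℝ} (hC : 0 < C)
    (hE : ∀ z ∈ Str 1, ‖Complex.exp (-Complex.cosh z)‖ * Real.exp (20 * |z.re|) ≤ C)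
    {σ B M : ℝ} (h1 : σ ≤ 1) {β : ℂ → ℂ} {w : ℤ → ℂ → ℂ} (hg : Good σ B M β w) (k : ℤ) :
    ∀ z ∈ Str σ, ‖Ws w k z‖ ≤ (C * (M * wt 3 k σ)) * Real.exp (-(5 * |z.re|)) := fun z hz =>
  wsE1 hC hE (str_sub h1 hz) _ _ (hg.w0 k z hz)

theorem Ws_b1 {C : ℝ} (hC : 0 < C)
    (hE : ∀ z ∈ Str 1, ‖Complex.exp (-Complex.cosh z)‖ * Real.exp (20 * |z.re|) ≤ C)
    {σ B M : ℝ} (hM : 0 ≤ M) (h1 : σ ≤ 1) {β : ℂ → ℂ} {w : ℤ → ℂ → ℂ} (hg : Good σ B M β w) (k : ℤ) :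
    ∀ z ∈ Str σ, ‖deriv (Ws w k) z‖ ≤ (2 * C * (M * wt 2 k σ)) * Real.exp (-(5 * |z.re|)) := by
  intro z hz
  rw [(Ws_hasDeriv (hg.wd k) hz).deriv]
  exact wsE2 hC hE (str_sub h1 hz) _ _ _
    ((hg.w0 k z hz).trans (mul_le_mul_of_nonneg_left (wt32 k σ) hM)) (hg.w1 k z hz)

theorem Ws_c0 {C : ℝ} (hC : 0 < C)
    (hE : ∀ z ∈ Str 1, ‖Complex.exp (-Complex.cosh z)‖ * Real.exp (20 * |z.re|) ≤ C)
    {σ δ : ℝ} (h1 : σ ≤ 1) {β β' : ℂ → ℂ} {w w' : ℤ → ℂ → ℂ} (hc : Close σ δ β w β' w') (k : ℤ) :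
    ∀ z ∈ Str σ, ‖Ws w k z - Ws w' k z‖ ≤ (C * (δ * wt 3 k σ)) * Real.exp (-(5 * |z.re|)) := by
  intro z hz
  have : Ws w k z - Ws w' k z = Complex.exp (-Complex.cosh z) * (w k z - w' k z) := by
    unfold Ws; ring
  rw [this]
  exact wsE1 hC hE (str_sub h1 hz) _ _ (hc.w0 k z hz)

theorem Ws_c1 {C : ℝ} (hC : 0 < C)
    (hE : ∀ z ∈ Str 1, ‖Complex.exp (-Complex.cosh z)‖ * Real.exp (20 * |z.re|) ≤ C)
    {σ δ B M : ℝ} (hδ : 0 ≤ δ) (h1 : σ ≤ 1) {β β' : ℂ → ℂ} {w w' : ℤ → ℂ → ℂ}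
    (hg : Good σ B M β w) (hg' : Good σ B M β' w') (hc : Close σ δ β w β' w') (k : ℤ) :
    ∀ z ∈ Str σ, ‖deriv (Ws w k) z - deriv (Ws w' k) z‖
      ≤ (2 * C * (δ * wt 2 k σ)) * Real.exp (-(5 * |z.re|)) := by
  intro z hz
  rw [(Ws_hasDeriv (hg.wd k) hz).deriv, (Ws_hasDeriv (hg'.wd k) hz).deriv]
  have : Complex.exp (-Complex.cosh z) * (deriv (w k) z - Complex.sinh z * w k z) -
      Complex.exp (-Complex.cosh z) * (deriv (w' k) z - Complex.sinh z * w' k z) =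
      Complex.exp (-Complex.cosh z) * ((deriv (w k) z - deriv (w' k) z) -
        Complex.sinh z * (w k z - w' k z)) := by ring
  rw [this]
  exact wsE2 hC hE (str_sub h1 hz) _ _ _
    ((hc.w0 k z hz).trans (mul_le_mul_of_nonneg_left (wt32 k σ) hδ)) (hc.w1 k z hz)

theorem Q_est {C : ℝ} (hC : 0 < C)
    (hE : ∀ z ∈ Str 1, ‖Complex.exp (-Complex.cosh z)‖ * Real.exp (20 * |z.re|) ≤ C)
    {σ B M : ℝ} (hB : 0 ≤ B) (hM : 0 ≤ M) (h0 : 0 < σ) (h1 : σ ≤ 1) {m : ℕ} (hm : 40 ≤ m)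
    {β : ℂ → ℂ} {w : ℤ → ℂ → ℂ} (hg : Good σ B M β w) {k : ℤ} (hk : k ≠ 0) {ς : ℝ}
    (hς : ς = 1 ∨ ς = -1) :
    DifferentiableOn ℂ (Qop (nk m k) ς (sg k) β (Ws w k)) (Str σ) ∧
    (∀ z ∈ Str σ, ‖Qop (nk m k) ς (sg k) β (Ws w k) z‖ ≤
      (4 * C * M) * wt 3 k σ * Real.exp (-(5 * |z.re|))) ∧
    (∀ z ∈ Str σ, ‖deriv (Qop (nk m k) ς (sg k) β (Ws w k)) z‖ ≤
      (8 * C * M + 10 * B * C * M) * wt 2 k σ * Real.exp (-(5 * |z.re|))) ∧
    (∀ z ∈ Str σ, deriv (Qop (nk m k) ς (sg k) β (Ws w k)) z =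
      ∫ y in Ioi (0 : ℝ), Complex.exp (((-y + 2 * ς * y / (nk m k) : ℝ) : ℂ)
        - I * ((ς * (sg k) : ℝ) : ℂ) * ∫ s in (0 : ℝ)..y, β (z + ((ς * s / (nk m k) : ℝ) : ℂ)))
        * (deriv (Ws w k) (z + ((ς * y / (nk m k) : ℝ) : ℂ)) - I * ((ς * (sg k) : ℝ) : ℂ)
          * (∫ s in (0 : ℝ)..y, deriv β (z + ((ς * s / (nk m k) : ℝ) : ℂ)))
          * (Ws w k) (z + ((ς * y / (nk m k) : ℝ) : ℂ)))) := by
  have w3 := wt_nonneg 3 k σ
  have w2 := wt_nonneg 2 k σ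
  obtain ⟨q1, q2, q3, q4⟩ := Qop_basic (nk m k) ς (sg k) σ B (C * (M * wt 3 k σ)) (2 * C * (M * wt 2 k σ))
    β (Ws w k) (nk_ge hm hk) hς (sg_cases k) h0 hB (by positivity) (by positivity) hg.bd hg.b0 hg.bi hg.b1
    (Ws_diff (hg.wd k)) (Ws_b0 hC hE h1 hg k) (Ws_b1 hC hE hM h1 hg k)
  refine ⟨q1, ?_, ?_, q3⟩
  · intro z hz
    refine (q2 z hz).trans (le_of_eq ?_)
    ring
  · intro z hz
    refine (q4 z hz).trans ?_
    refine mul_le_mul_of_nonneg_right ?_ (Real.exp_pos _).le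
    have := mul_le_mul_of_nonneg_left (wt32 k σ) (by positivity : 0 ≤ 10 * B * C * M)
    nlinarith

theorem Q_lipE {C : ℝ} (hC : 0 < C)
    (hE : ∀ z ∈ Str 1, ‖Complex.exp (-Complex.cosh z)‖ * Real.exp (20 * |z.re|) ≤ C)
    {σ B M δ : ℝ} (hB : 0 ≤ B) (hM : 0 ≤ M) (hδ : 0 ≤ δ) (h0 : 0 < σ) (h1 : σ ≤ 1) {m : ℕ} (hm : 40 ≤ m)
    {β β' : ℂ → ℂ} {w w' : ℤ → ℂ → ℂ} (hg : Good σ B M β w) (hg' : Good σ B M β' w')
    (hc : Close σ δ β w β' w') {k : ℤ} (hk : k ≠ 0) {ς : ℝ}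
    (hς : ς = 1 ∨ ς = -1) :
    (∀ z ∈ Str σ, ‖Qop (nk m k) ς (sg k) β (Ws w k) z - Qop (nk m k) ς (sg k) β' (Ws w' k) z‖ ≤
      ((4 * C + 10 * C * M) * δ) * wt 3 k σ * Real.exp (-(5 * |z.re|))) ∧
    (∀ z ∈ Str σ, ‖deriv (Qop (nk m k) ς (sg k) β (Ws w k)) z -
        deriv (Qop (nk m k) ς (sg k) β' (Ws w' k)) z‖ ≤
      ((8 * C + 30 * C * M + 10 * B * C + 60 * B * C * M) * δ) * wt 2 k σ * Real.exp (-(5 * |z.re|))) := by
  have w3 := wt_nonneg 3 k σ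
  have w2 := wt_nonneg 2 k σ
  have e1 := Q_est hC hE hB hM h0 h1 hm hg hk hς
  have e2 := Q_est hC hE hB hM h0 h1 hm hg' hk hς
  obtain ⟨q1, q2⟩ := Qop_lip (nk m k) ς (sg k) σ B (C * (M * wt 3 k σ)) (2 * C * (M * wt 2 k σ))
    δ (C * (δ * wt 3 k σ)) (2 * C * (δ * wt 2 k σ))
    β (Ws w k) β' (Ws w' k) (nk_ge hm hk) hς (sg_cases k) h0 hB (by positivity) (by positivity)
    hδ (by positivity) (by positivity)
    hg.bd hg.b0 hg.bi hg.b1 (Ws_diff (hg.wd k)) (Ws_b0 hC hE h1 hg k) (Ws_b1 hC hE hM h1 hg k)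
    hg'.bd hg'.b0 hg'.bi hg'.b1 (Ws_diff (hg'.wd k)) (Ws_b0 hC hE h1 hg' k) (Ws_b1 hC hE hM h1 hg' k)
    hc.b0 hc.b1 (Ws_c0 hC hE h1 hc k) (Ws_c1 hC hE hδ h1 hg hg' hc k)
    (by
      rintro b f (⟨rfl, rfl⟩ | ⟨rfl, rfl⟩)
      · exact e1.2.2.2
      · exact e2.2.2.2)
  have h32 := wt32 k σ
  refine ⟨?_, ?_⟩
  · intro z hz
    refine (q1 z hz).trans (le_of_eq ?_)
    ring
  · intro z hz
    refine (q2 z hz).trans ?_
    refine mul_le_mul_of_nonneg_right ?_ (Real.exp_pos _).le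
    have t1 := mul_le_mul_of_nonneg_left h32 (by positivity : 0 ≤ 10 * B * C * δ)
    have t2 := mul_le_mul_of_nonneg_left h32 (by positivity : 0 ≤ 10 * C * M * δ)
    have t3 := mul_le_mul_of_nonneg_left h32 (by positivity : 0 ≤ 60 * B * C * M * δ)
    nlinarith

theorem Gk_eq {m : ℕ} {β : ℂ → ℂ} {w : ℤ → ℂ → ℂ} {k : ℤ} (hk : k ≠ 0) :
    Gk m β w k = fun z => -(1 / (2 * (k : ℂ) ^ 2)) * (Qop (nk m k) 1 (sg k) β (Ws w k) z
    + Qop (nk m k) (-1) (sg k) β (Ws w k) z) := by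
  funext z
  unfold Gk
  rw [if_neg hk]

theorem Hk_eq {m : ℕ} {β : ℂ → ℂ} {w : ℤ → ℂ → ℂ} {k : ℤ} (hk : k ≠ 0) :
    Hk m β w k = fun z => -(1 / (2 * ((|(k : ℝ)| : ℝ) : ℂ))) * (Qop (nk m k) 1 (sg k) β (Ws w k) z
    - Qop (nk m k) (-1) (sg k) β (Ws w k) z) := by
  funext z
  unfold Hk
  rw [if_neg hk]

theorem Gk_zero {m : ℕ} {β : ℂ → ℂ} {w : ℤ → ℂ → ℂ} : Gk m β w 0 = fun _ => 0 := by
  funext z
  unfold Gk
  rw [if_pos rfl]

theorem Hk_zero {m : ℕ} {β : ℂ → ℂ} {w : ℤ → ℂ → ℂ} : Hk m β w 0 = fun _ => 0 := by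
  funext z
  unfold Hk
  rw [if_pos rfl]

theorem cG_norm (k : ℤ) (a b : ℂ) (X : ℝ) (ha : ‖a‖ ≤ X) (hb : ‖b‖ ≤ X) :
    ‖-(1 / (2 * (k : ℂ) ^ 2)) * (a + b)‖ ≤ 1 / |(k : ℝ)| ^ 2 * X := by
  have h1 : ‖-(1 / (2 * (k : ℂ) ^ 2))‖ = 1 / (2 * |(k : ℝ)| ^ 2) := by
    rw [norm_neg, norm_div, norm_one, norm_mul, norm_pow, Complex.norm_intCast]
    norm_num
  rw [norm_mul, h1]
  have h2 : ‖a + b‖ ≤ 2 * X := (norm_add_le _ _).trans (by linarith)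
  calc _ ≤ 1 / (2 * |(k : ℝ)| ^ 2) * (2 * X) := mul_le_mul_of_nonneg_left h2 (by positivity)
    _ = _ := by
      rw [one_div, mul_inv, one_div]
      ring

theorem cH_norm (k : ℤ) (a b : ℂ) (X : ℝ) (ha : ‖a‖ ≤ X) (hb : ‖b‖ ≤ X) :
    ‖-(1 / (2 * ((|(k : ℝ)| : ℝ) : ℂ))) * (a - b)‖ ≤ 1 / |(k : ℝ)| * X := by
  have h1 : ‖-(1 / (2 * ((|(k : ℝ)| : ℝ) : ℂ)))‖ = 1 / (2 * |(k : ℝ)|) := by
    rw [norm_neg, norm_div, norm_one, norm_mul, Complex.norm_real, Real.norm_eq_abs, abs_abs]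
    norm_num
  rw [norm_mul, h1]
  have h2 : ‖a - b‖ ≤ 2 * X := (norm_sub_le _ _).trans (by linarith)
  calc _ ≤ 1 / (2 * |(k : ℝ)|) * (2 * X) := mul_le_mul_of_nonneg_left h2 (by positivity)
    _ = _ := by
      rw [one_div, mul_inv, one_div]
      ring

/-- final weight bookkeeping -/
theorem fin2 (p : ℕ) {k : ℤ} (hk : k ≠ 0) (σ D K e : ℝ) (hD : 0 ≤ D) (hK : 4 * D ≤ K) (he : 0 ≤ e) :
    1 / |(k : ℝ)| ^ 2 * (D * wt p k σ * e) ≤ K * wt (p + 2) k σ * e := by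
  have h1 := wt_div2 p hk σ
  have h2 := wt_nonneg (p + 2) k σ
  calc 1 / |(k : ℝ)| ^ 2 * (D * wt p k σ * e) = D * (1 / |(k : ℝ)| ^ 2 * wt p k σ) * e := by ring
    _ ≤ D * (4 * wt (p + 2) k σ) * e :=
      mul_le_mul_of_nonneg_right (mul_le_mul_of_nonneg_left h1 hD) he
    _ = (4 * D) * wt (p + 2) k σ * e := by ring
    _ ≤ _ := mul_le_mul_of_nonneg_right (mul_le_mul_of_nonneg_right hK h2) he

theorem fin1 (p : ℕ) {k : ℤ} (hk : k ≠ 0) (σ D K e : ℝ) (hD : 0 ≤ D) (hK : 2 * D ≤ K) (he : 0 ≤ e) :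
    1 / |(k : ℝ)| * (D * wt p k σ * e) ≤ K * wt (p + 1) k σ * e := by
  have h1 := wt_div p hk σ
  have h2 := wt_nonneg (p + 1) k σ
  calc 1 / |(k : ℝ)| * (D * wt p k σ * e) = D * (1 / |(k : ℝ)| * wt p k σ) * e := by ring
    _ ≤ D * (2 * wt (p + 1) k σ) * e :=
      mul_le_mul_of_nonneg_right (mul_le_mul_of_nonneg_left h1 hD) he
    _ = (2 * D) * wt (p + 1) k σ * e := by ring
    _ ≤ _ := mul_le_mul_of_nonneg_right (mul_le_mul_of_nonneg_right hK h2) he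

theorem GH_est (B M : ℝ) (hB : 0 ≤ B) (hM : 0 ≤ M) : ∃ K > 0, ∀ m : ℕ, 40 ≤ m → ∀ σ : ℝ,
    0 < σ → σ ≤ 1 → ∀ β w, Good σ B M β w →
    (∀ k, DifferentiableOn ℂ (Gk m β w k) (Str σ)) ∧
    (∀ k, DifferentiableOn ℂ (Hk m β w k) (Str σ)) ∧
    (∀ k, ∀ z ∈ Str σ,
      ‖Gk m β w k z‖ ≤ K * wt 5 k σ * Real.exp (-(5 * |z.re|)) ∧
      ‖deriv (Gk m β w k) z‖ ≤ K * wt 4 k σ * Real.exp (-(5 * |z.re|)) ∧
      ‖Hk m β w k z‖ ≤ K * wt 4 k σ * Real.exp (-(5 * |z.re|)) ∧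
      ‖deriv (Hk m β w k) z‖ ≤ K * wt 3 k σ * Real.exp (-(5 * |z.re|))) ∧
    (∀ β' w' δ, 0 ≤ δ → Good σ B M β' w' → Close σ δ β w β' w' → ∀ k, ∀ z ∈ Str σ,
      ‖Gk m β w k z - Gk m β' w' k z‖ ≤ K * δ * wt 5 k σ * Real.exp (-(5 * |z.re|)) ∧
      ‖deriv (Gk m β w k) z - deriv (Gk m β' w' k) z‖
        ≤ K * δ * wt 4 k σ * Real.exp (-(5 * |z.re|)) ∧
      ‖Hk m β w k z - Hk m β' w' k z‖ ≤ K * δ * wt 4 k σ * Real.exp (-(5 * |z.re|)) ∧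
      ‖deriv (Hk m β w k) z - deriv (Hk m β' w' k) z‖
        ≤ K * δ * wt 3 k σ * Real.exp (-(5 * |z.re|))) := by
  obtain ⟨C, hC, hE⟩ := E_bound
  have n1 : 0 ≤ C * M := by positivity
  have n2 : 0 ≤ B * C * M := by positivity
  have n3 : 0 ≤ B * C := by positivity
  refine ⟨4 * ((4 * C * M) + (8 * C * M + 10 * B * C * M) + (4 * C + 10 * C * M) +
    (8 * C + 30 * C * M + 10 * B * C + 60 * B * C * M)) + 1, by nlinarith, ?_⟩
  set K : ℝ := 4 * ((4 * C * M) + (8 * C * M + 10 * B * C * M) + (4 * C + 10 * C * M) +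
    (8 * C + 30 * C * M + 10 * B * C + 60 * B * C * M)) + 1 with hKdef
  have hK0 : 0 ≤ K := by nlinarith
  have d0 : 0 ≤ 4 * C * M := by positivity
  have d1 : 0 ≤ 8 * C * M + 10 * B * C * M := by positivity
  have l0 : 0 ≤ 4 * C + 10 * C * M := by positivity
  have l1 : 0 ≤ 8 * C + 30 * C * M + 10 * B * C + 60 * B * C * M := by positivity
  have K1 : 4 * (4 * C * M) ≤ K := by rw [hKdef]; linarith
  have K2 : 4 * (8 * C * M + 10 * B * C * M) ≤ K := by rw [hKdef]; linarith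
  have K3 : 4 * (4 * C + 10 * C * M) ≤ K := by rw [hKdef]; linarith
  have K4 : 4 * (8 * C + 30 * C * M + 10 * B * C + 60 * B * C * M) ≤ K := by rw [hKdef]; linarith
  intro m hm σ h0 h1 β w hg
  have hp : (1 : ℝ) = 1 ∨ (1 : ℝ) = -1 := Or.inl rfl
  have hn : (-1 : ℝ) = 1 ∨ (-1 : ℝ) = -1 := Or.inr rfl
  -- derivative formulas
  have dG : ∀ (β : ℂ → ℂ) (w : ℤ → ℂ → ℂ), Good σ B M β w → ∀ k : ℤ, k ≠ 0 → ∀ z ∈ Str σ,
      HasDerivAt (Gk m β w k) (-(1 / (2 * (k : ℂ) ^ 2)) *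
        (deriv (Qop (nk m k) 1 (sg k) β (Ws w k)) z + deriv (Qop (nk m k) (-1) (sg k) β (Ws w k)) z)) z := by
    intro β w hg k hk z hz
    rw [Gk_eq hk]
    have a1 := ((Q_est hC hE hB hM h0 h1 hm hg hk hp).1.differentiableAt ((str_open σ).mem_nhds hz)).hasDerivAt
    have a2 := ((Q_est hC hE hB hM h0 h1 hm hg hk hn).1.differentiableAt ((str_open σ).mem_nhds hz)).hasDerivAt
    exact (a1.add a2).const_mul _
  have dH : ∀ (β : ℂ → ℂ) (w : ℤ → ℂ → ℂ), Good σ B M β w → ∀ k : ℤ, k ≠ 0 → ∀ z ∈ Str σ,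
      HasDerivAt (Hk m β w k) (-(1 / (2 * ((|(k : ℝ)| : ℝ) : ℂ))) *
        (deriv (Qop (nk m k) 1 (sg k) β (Ws w k)) z - deriv (Qop (nk m k) (-1) (sg k) β (Ws w k)) z)) z := by
    intro β w hg k hk z hz
    rw [Hk_eq hk]
    have a1 := ((Q_est hC hE hB hM h0 h1 hm hg hk hp).1.differentiableAt ((str_open σ).mem_nhds hz)).hasDerivAt
    have a2 := ((Q_est hC hE hB hM h0 h1 hm hg hk hn).1.differentiableAt ((str_open σ).mem_nhds hz)).hasDerivAt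
    exact (a1.sub a2).const_mul _
  refine ⟨?_, ?_, ?_, ?_⟩
  · intro k
    by_cases hk : k = 0
    · subst hk
      rw [Gk_zero]
      exact differentiableOn_const 0
    · exact fun z hz => (dG β w hg k hk z hz).differentiableAt.differentiableWithinAt
  · intro k
    by_cases hk : k = 0
    · subst hk
      rw [Hk_zero]
      exact differentiableOn_const 0
    · exact fun z hz => (dH β w hg k hk z hz).differentiableAt.differentiableWithinAt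
  · intro k z hz
    have he : 0 ≤ Real.exp (-(5 * |z.re|)) := (Real.exp_pos _).le
    by_cases hk : k = 0
    · subst hk
      rw [Gk_zero, Hk_zero]
      have w5 := wt_nonneg 5 0 σ
      have w4 := wt_nonneg 4 0 σ
      have w3 := wt_nonneg 3 0 σ
      refine ⟨?_, ?_, ?_, ?_⟩
      · rw [norm_zero]; positivity
      · rw [deriv_const, norm_zero]; positivity
      · rw [norm_zero]; positivity
      · rw [deriv_const, norm_zero]; positivity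
    · have p := Q_est hC hE hB hM h0 h1 hm hg hk hp
      have q := Q_est hC hE hB hM h0 h1 hm hg hk hn
      refine ⟨?_, ?_, ?_, ?_⟩
      · rw [Gk_eq hk]
        exact (cG_norm k _ _ _ (p.2.1 z hz) (q.2.1 z hz)).trans (fin2 3 hk σ _ _ _ d0 K1 he)
      · rw [(dG β w hg k hk z hz).deriv]
        exact (cG_norm k _ _ _ (p.2.2.1 z hz) (q.2.2.1 z hz)).trans (fin2 2 hk σ _ _ _ d1 K2 he)
      · rw [Hk_eq hk]
        exact (cH_norm k _ _ _ (p.2.1 z hz) (q.2.1 z hz)).trans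
          (fin1 3 hk σ _ _ _ d0 (by linarith) he)
      · rw [(dH β w hg k hk z hz).deriv]
        exact (cH_norm k _ _ _ (p.2.2.1 z hz) (q.2.2.1 z hz)).trans
          (fin1 2 hk σ _ _ _ d1 (by linarith) he)
  · intro β' w' δ hδ hg' hc k z hz
    have he : 0 ≤ Real.exp (-(5 * |z.re|)) := (Real.exp_pos _).le
    have hKδ : 0 ≤ K * δ := mul_nonneg hK0 hδ
    by_cases hk : k = 0
    · subst hk
      rw [Gk_zero, Hk_zero, Gk_zero, Hk_zero]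
      have w5 := wt_nonneg 5 0 σ
      have w4 := wt_nonneg 4 0 σ
      have w3 := wt_nonneg 3 0 σ
      refine ⟨?_, ?_, ?_, ?_⟩
      · rw [sub_self, norm_zero]; positivity
      · rw [sub_self, norm_zero]; positivity
      · rw [sub_self, norm_zero]; positivity
      · rw [sub_self, norm_zero]; positivity
    · have p := Q_lipE hC hE hB hM hδ h0 h1 hm hg hg' hc hk hp
      have q := Q_lipE hC hE hB hM hδ h0 h1 hm hg hg' hc hk hn
      have K3' : 4 * ((4 * C + 10 * C * M) * δ) ≤ K * δ := by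
        have := mul_le_mul_of_nonneg_right K3 hδ
        linarith
      have K4' : 4 * ((8 * C + 30 * C * M + 10 * B * C + 60 * B * C * M) * δ) ≤ K * δ := by
        have := mul_le_mul_of_nonneg_right K4 hδ
        linarith
      have l0' : 0 ≤ (4 * C + 10 * C * M) * δ := mul_nonneg l0 hδ
      have l1' : 0 ≤ (8 * C + 30 * C * M + 10 * B * C + 60 * B * C * M) * δ := mul_nonneg l1 hδ
      refine ⟨?_, ?_, ?_, ?_⟩
      · rw [Gk_eq hk, Gk_eq hk]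
        have e : ∀ a b c d x : ℂ, x * (a + b) - x * (c + d) = x * ((a - c) + (b - d)) := by
          intros; ring
        simp only [e]
        exact (cG_norm k _ _ _ (p.1 z hz) (q.1 z hz)).trans (fin2 3 hk σ _ _ _ l0' K3' he)
      · rw [(dG β w hg k hk z hz).deriv, (dG β' w' hg' k hk z hz).deriv]
        have e : ∀ a b c d x : ℂ, x * (a + b) - x * (c + d) = x * ((a - c) + (b - d)) := by
          intros; ring
        rw [e]
        exact (cG_norm k _ _ _ (p.2 z hz) (q.2 z hz)).trans (fin2 2 hk σ _ _ _ l1' K4' he)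
      · rw [Hk_eq hk, Hk_eq hk]
        have e : ∀ a b c d x : ℂ, x * (a - b) - x * (c - d) = x * ((a - c) - (b - d)) := by
          intros; ring
        simp only [e]
        exact (cH_norm k _ _ _ (p.1 z hz) (q.1 z hz)).trans
          (fin1 3 hk σ _ _ _ l0' (by linarith) he)
      · rw [(dH β w hg k hk z hz).deriv, (dH β' w' hg' k hk z hz).deriv]
        have e : ∀ a b c d x : ℂ, x * (a - b) - x * (c - d) = x * ((a - c) - (b - d)) := by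
          intros; ring
        rw [e]
        exact (cH_norm k _ _ _ (p.2 z hz) (q.2 z hz)).trans
          (fin1 2 hk σ _ _ _ l1' (by linarith) he)

end JD1

end Pool.Agent.Helper383.NI
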