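import Pool.Agent.Helper383.NI.Defs
import Pool.Agent.Helper383.NI.D1

open Complex MeasureTheory Set Filter Topology

namespace Pool.Agent.Helper383.NI

open JD1 (GH_est)

namespace JD2

theorem wt_nonneg (p : ℕ) (k : ℤ) (σ : ℝ) : 0 ≤ wt p k σ := by unfold wt; positivity

theorem wt_neg (p : ℕ) (k : ℤ) (σ : ℝ) : wt p (-k) σ = wt p k σ := by
  unfold wt; simp [abs_neg]

theorem wt_succ_mul (p : ℕ) (k : ℤ) (σ : ℝ) : |(k : ℝ)| * wt (p + 1) k σ ≤ wt p k σ := by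
  unfold wt
  have h : (0 : ℝ) < 1 + |(k : ℝ)| := by positivity
  rw [pow_succ, ← mul_div_assoc, div_le_div_iff₀ (by positivity) (by positivity)]
  have hE : 0 ≤ Real.exp (-(σ * |(k : ℝ)|)) * (1 + |(k : ℝ)|) ^ p := by positivity
  nlinarith

theorem wt_anti (p : ℕ) (k : ℤ) (σ : ℝ) : wt (p + 1) k σ ≤ wt p k σ := by
  unfold wt
  have h : (0 : ℝ) < 1 + |(k : ℝ)| := by positivity
  rw [pow_succ, div_le_div_iff₀ (by positivity) (by positivity)]
  have hE : 0 ≤ Real.exp (-(σ * |(k : ℝ)|)) * (1 + |(k : ℝ)|) ^ p := by positivity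
  have h2 := abs_nonneg (k : ℝ)
  nlinarith

theorem wt_conv {σ : ℝ} (hσ : 0 ≤ σ) (j k : ℤ) :
    wt 4 j σ * wt 2 (k - j) σ ≤ wt 2 k σ * (1 / (1 + |(j : ℝ)|) ^ 2) := by
  unfold wt
  have hk : |(k : ℝ)| ≤ |(j : ℝ)| + |((k - j : ℤ) : ℝ)| := by
    have h1 : (k : ℝ) = (j : ℝ) + ((k - j : ℤ) : ℝ) := by push_cast; ring
    have h2 := abs_add_le (j : ℝ) ((k - j : ℤ) : ℝ)
    rw [← h1] at h2
    exact h2
  have h1 := abs_nonneg (j : ℝ)
  have h2 := abs_nonneg ((k - j : ℤ) : ℝ)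
  have h3 := abs_nonneg (k : ℝ)
  generalize |(k : ℝ)| = c at *
  generalize |(j : ℝ)| = a at *
  generalize |((k - j : ℤ) : ℝ)| = b at *
  rw [div_mul_div_comm, div_mul_div_comm, ← Real.exp_add, mul_one]
  apply div_le_div₀ (Real.exp_pos _).le
  · apply Real.exp_le_exp.2
    nlinarith
  · positivity
  · have h4 : 1 + c ≤ (1 + a) * (1 + b) := by nlinarith [mul_nonneg h1 h2]
    have h5 : (1 + c) ^ 2 ≤ ((1 + a) * (1 + b)) ^ 2 := by gcongr
    calc (1 + c) ^ 2 * (1 + a) ^ 2 ≤ ((1 + a) * (1 + b)) ^ 2 * (1 + a) ^ 2 := by gcongr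
      _ = (1 + a) ^ 4 * (1 + b) ^ 2 := by ring

theorem wt_le_one {σ : ℝ} (hσ : 0 ≤ σ) (j : ℤ) :
    wt 3 j σ * wt 4 j σ ≤ 1 / (1 + |(j : ℝ)|) ^ 2 := by
  unfold wt
  have h1 := abs_nonneg (j : ℝ)
  generalize |(j : ℝ)| = a at *
  rw [div_mul_div_comm, ← Real.exp_add]
  apply div_le_div₀ zero_le_one
  · rw [Real.exp_le_one_iff]
    nlinarith [mul_nonneg hσ h1]
  · positivity
  · rw [← pow_add]
    exact pow_le_pow_right₀ (by linarith) (by norm_num)

theorem summable_sq : Summable (fun j : ℤ => 1 / (1 + |(j : ℝ)|) ^ 2) := by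
  have h1 : Summable (fun n : ℕ => 1 / (1 + (n : ℝ)) ^ 2) := by
    have := (summable_nat_add_iff 1).2 (Real.summable_one_div_nat_pow.2 (by norm_num : 1 < 2))
    refine this.congr ?_
    intro n
    push_cast
    rw [add_comm]
  apply Summable.of_nat_of_neg
  · refine h1.congr ?_
    intro n
    simp
  · refine h1.congr ?_
    intro n
    simp

theorem norm_sinh_le (z : ℂ) : ‖Complex.sinh z‖ ≤ Real.exp |z.re| := by
  have h1 : Complex.sinh z = (Complex.exp z - Complex.exp (-z)) / 2 := rfl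
  rw [h1, norm_div]
  have h2 := norm_sub_le (Complex.exp z) (Complex.exp (-z))
  rw [Complex.norm_exp, Complex.norm_exp, Complex.neg_re] at h2
  have h3 : Real.exp z.re ≤ Real.exp |z.re| := Real.exp_le_exp.2 (le_abs_self _)
  have h4 : Real.exp (-z.re) ≤ Real.exp |z.re| := Real.exp_le_exp.2 (neg_le_abs _)
  have h5 : ‖(2 : ℂ)‖ = 2 := by simp
  rw [h5, div_le_iff₀ (by norm_num)]
  linarith

theorem nw_term {a b e σ : ℝ} (ha : 0 ≤ a) (hb : 0 ≤ b) (he0 : 0 ≤ e) (he1 : e ≤ 1) (hσ : 0 ≤ σ)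
    {s : ℂ} (hs : ‖s‖ * e ≤ 1) (g h w wd : ℤ → ℂ)
    (hg : ∀ j, ‖g j‖ ≤ 3 * a * wt 4 j σ * e) (hh : ∀ j, ‖h j‖ ≤ a * wt 4 j σ * e)
    (hw : ∀ j, ‖w j‖ ≤ b * wt 3 j σ) (hwd : ∀ j, ‖wd j‖ ≤ b * wt 2 j σ) (k j : ℤ) :
    ‖g j * (I * ((k - j : ℤ) : ℂ) * w (k - j))‖ ≤
      3 * a * b * (wt 2 k σ * (1 / (1 + |(j : ℝ)|) ^ 2)) ∧
    ‖h j * wd (k - j)‖ ≤ a * b * (wt 2 k σ * (1 / (1 + |(j : ℝ)|) ^ 2)) ∧
    ‖h j * (s * w (k - j))‖ ≤ a * b * (wt 2 k σ * (1 / (1 + |(j : ℝ)|) ^ 2)) := by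
  have hc := wt_conv hσ j k
  have h4 := wt_nonneg 4 j σ
  have h2 := wt_nonneg 2 (k - j) σ
  have h3 := wt_nonneg 3 (k - j) σ
  have h32 : wt 3 (k - j) σ ≤ wt 2 (k - j) σ := wt_anti 2 (k - j) σ
  have hw1 : ‖I * ((k - j : ℤ) : ℂ) * w (k - j)‖ ≤ b * wt 2 (k - j) σ := by
    rw [norm_mul, norm_mul, Complex.norm_I, one_mul, Complex.norm_intCast]
    calc |((k - j : ℤ) : ℝ)| * ‖w (k - j)‖ ≤ |((k - j : ℤ) : ℝ)| * (b * wt 3 (k - j) σ) := by
          gcongr; exact hw _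
      _ = b * (|((k - j : ℤ) : ℝ)| * wt 3 (k - j) σ) := by ring
      _ ≤ b * wt 2 (k - j) σ := by
          gcongr
          exact wt_succ_mul 2 (k - j) σ
  refine ⟨?_, ?_, ?_⟩
  · rw [norm_mul]
    calc ‖g j‖ * ‖I * ((k - j : ℤ) : ℂ) * w (k - j)‖ ≤
          (3 * a * wt 4 j σ * e) * (b * wt 2 (k - j) σ) := by
          gcongr
          exact hg j
      _ ≤ (3 * a * wt 4 j σ * 1) * (b * wt 2 (k - j) σ) := by gcongr
      _ = 3 * a * b * (wt 4 j σ * wt 2 (k - j) σ) := by ring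
      _ ≤ _ := by gcongr
  · rw [norm_mul]
    calc ‖h j‖ * ‖wd (k - j)‖ ≤ (a * wt 4 j σ * e) * (b * wt 2 (k - j) σ) := by
          gcongr
          · exact hh j
          · exact hwd _
      _ ≤ (a * wt 4 j σ * 1) * (b * wt 2 (k - j) σ) := by gcongr
      _ = a * b * (wt 4 j σ * wt 2 (k - j) σ) := by ring
      _ ≤ _ := by gcongr
  · rw [norm_mul, norm_mul]
    calc ‖h j‖ * (‖s‖ * ‖w (k - j)‖) ≤ (a * wt 4 j σ * e) * (‖s‖ * (b * wt 3 (k - j) σ)) := by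
          gcongr
          · exact hh j
          · exact hw _
      _ = (a * wt 4 j σ) * (b * wt 3 (k - j) σ) * (‖s‖ * e) := by ring
      _ ≤ (a * wt 4 j σ) * (b * wt 3 (k - j) σ) * 1 := by gcongr
      _ ≤ (a * wt 4 j σ) * (b * wt 2 (k - j) σ) * 1 := by gcongr
      _ = a * b * (wt 4 j σ * wt 2 (k - j) σ) := by ring
      _ ≤ _ := by gcongr

theorem nw_term' {a b e σ : ℝ} (ha : 0 ≤ a) (hb : 0 ≤ b) (he0 : 0 ≤ e) (he1 : e ≤ 1) (hσ : 0 ≤ σ)
    {s : ℂ} (hs : ‖s‖ * e ≤ 1) (g h w wd : ℤ → ℂ)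
    (hg : ∀ j, ‖g j‖ ≤ 3 * a * wt 4 j σ * e) (hh : ∀ j, ‖h j‖ ≤ a * wt 4 j σ * e)
    (hw : ∀ j, ‖w j‖ ≤ b * wt 3 j σ) (hwd : ∀ j, ‖wd j‖ ≤ b * wt 2 j σ) (k j : ℤ) :
    ‖g j * (I * ((k - j : ℤ) : ℂ) * w (k - j)) - h j * (wd (k - j) - s * w (k - j))‖ ≤
      5 * a * b * (wt 2 k σ * (1 / (1 + |(j : ℝ)|) ^ 2)) := by
  obtain ⟨h1, h2, h3⟩ := nw_term ha hb he0 he1 hσ hs g h w wd hg hh hw hwd k j
  have e1 : g j * (I * ((k - j : ℤ) : ℂ) * w (k - j)) - h j * (wd (k - j) - s * w (k - j)) =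
      g j * (I * ((k - j : ℤ) : ℂ) * w (k - j)) - h j * wd (k - j) + h j * (s * w (k - j)) := by
    ring
  rw [e1]
  refine (norm_add_le _ _).trans ?_
  have := norm_sub_le (g j * (I * ((k - j : ℤ) : ℂ) * w (k - j))) (h j * wd (k - j))
  linarith

theorem nt_term {a b e σ : ℝ} (ha : 0 ≤ a) (hb : 0 ≤ b) (he0 : 0 ≤ e) (hσ : 0 ≤ σ)
    (h hd H Hd : ℤ → ℂ)
    (hh : ∀ j, ‖h j‖ ≤ a * wt 4 j σ * e) (hhd : ∀ j, ‖hd j‖ ≤ a * wt 3 j σ * e)
    (hH : ∀ j, ‖H j‖ ≤ b * wt 4 j σ * e) (hHd : ∀ j, ‖Hd j‖ ≤ b * wt 3 j σ * e) (j : ℤ) :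
    ‖(hd j + 2 * h j) * H (-j)‖ ≤ 3 * a * b * e ^ 2 * (1 / (1 + |(j : ℝ)|) ^ 2) ∧
    ‖h j * (Hd (-j) + 2 * H (-j))‖ ≤ 3 * a * b * e ^ 2 * (1 / (1 + |(j : ℝ)|) ^ 2) := by
  have hc := wt_le_one hσ j
  have h4 := wt_nonneg 4 j σ
  have h3 := wt_nonneg 3 j σ
  have h43 : wt 4 j σ ≤ wt 3 j σ := wt_anti 3 j σ
  have q1 := hh j
  have q2 := hhd j
  have q3 := hH (-j)
  have q4 := hHd (-j)
  rw [wt_neg] at q3 q4
  have k1 : ‖hd j + 2 * h j‖ ≤ 3 * a * wt 3 j σ * e := by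
    refine (norm_add_le _ _).trans ?_
    rw [norm_mul]
    have h5 : ‖(2 : ℂ)‖ = 2 := by simp
    rw [h5]
    have : a * wt 4 j σ * e ≤ a * wt 3 j σ * e := by gcongr
    linarith
  have k2 : ‖Hd (-j) + 2 * H (-j)‖ ≤ 3 * b * wt 3 j σ * e := by
    refine (norm_add_le _ _).trans ?_
    rw [norm_mul]
    have h5 : ‖(2 : ℂ)‖ = 2 := by simp
    rw [h5]
    have : b * wt 4 j σ * e ≤ b * wt 3 j σ * e := by gcongr
    linarith
  constructor
  · rw [norm_mul]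
    calc ‖hd j + 2 * h j‖ * ‖H (-j)‖ ≤ (3 * a * wt 3 j σ * e) * (b * wt 4 j σ * e) := by gcongr
      _ = 3 * a * b * e ^ 2 * (wt 3 j σ * wt 4 j σ) := by ring
      _ ≤ _ := by gcongr
  · rw [norm_mul]
    calc ‖h j‖ * ‖Hd (-j) + 2 * H (-j)‖ ≤ (a * wt 4 j σ * e) * (3 * b * wt 3 j σ * e) := by gcongr
      _ = 3 * a * b * e ^ 2 * (wt 3 j σ * wt 4 j σ) := by ring
      _ ≤ _ := by gcongr

theorem isOpen_Str (σ : ℝ) : IsOpen (Str σ) := by
  unfold Str
  exact isOpen_lt (continuous_abs.comp Complex.continuous_im) continuous_const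

theorem N_est (B M : ℝ) (hB : 0 ≤ B) (hM : 0 ≤ M) : ∃ K > 0, ∀ m : ℕ, 40 ≤ m → ∀ σ : ℝ,
    0 < σ → σ ≤ 1 → ∀ β w, Good σ B M β w →
    (∀ k, DifferentiableOn ℂ (NW m β w k) (Str σ)) ∧
    DifferentiableOn ℂ (NT m β w) (Str σ) ∧
    (∀ k, ∀ z ∈ Str σ, Summable (fun j : ℤ => ‖gk m β w j z * (I * ((k - j : ℤ) : ℂ) * w (k - j) z)‖) ∧
      Summable (fun j : ℤ => ‖hk m β w j z * deriv (w (k - j)) z‖) ∧
      Summable (fun j : ℤ => ‖hk m β w j z * (Complex.sinh z * w (k - j) z)‖)) ∧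
    (∀ z ∈ Str σ, Summable (fun j : ℤ => ‖(deriv (hk m β w j) z + 2 * hk m β w j z) * Hk m β w (-j) z‖) ∧
      Summable (fun j : ℤ => ‖hk m β w j z * (deriv (Hk m β w (-j)) z + 2 * Hk m β w (-j) z)‖)) ∧
    (∀ k, ∀ z ∈ Str σ, ‖NW m β w k z‖ ≤ K * wt 2 k σ) ∧
    (∀ z ∈ Str σ, ‖NT m β w z‖ ≤ K * Real.exp (-(10 * |z.re|))) ∧
    (∀ β' w' δ, 0 ≤ δ → Good σ B M β' w' → Close σ δ β w β' w' →
      (∀ k, ∀ z ∈ Str σ, ‖NW m β w k z - NW m β' w' k z‖ ≤ K * δ * wt 2 k σ) ∧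
      (∀ z ∈ Str σ, ‖NT m β w z - NT m β' w' z‖ ≤ K * δ)) := by
  obtain ⟨K, hK, hE⟩ := GH_est B M hB hM
  obtain ⟨S, hSdef⟩ : ∃ S : ℝ, S = ∑' j : ℤ, 1 / (1 + |(j : ℝ)|) ^ 2 := ⟨_, rfl⟩
  have hSs := summable_sq
  have hS0 : 0 ≤ S := by rw [hSdef]; exact tsum_nonneg (fun j => by positivity)
  refine ⟨5 * K * (M + 1) * S + 12 * K ^ 2 * S + 1, by positivity, ?_⟩
  intro m hm σ hσ0 hσ1 β w hG
  have hσ : 0 ≤ σ := hσ0.le
  have hopen := isOpen_Str σ
  -- auxiliary facts on the exponential factor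
  have he : ∀ z : ℂ, 0 ≤ Real.exp (-(5 * |z.re|)) ∧ Real.exp (-(5 * |z.re|)) ≤ 1 ∧
      ‖Complex.sinh z‖ * Real.exp (-(5 * |z.re|)) ≤ 1 ∧
      Real.exp (-(5 * |z.re|)) ^ 2 = Real.exp (-(10 * |z.re|)) := by
    intro z
    have h0 := abs_nonneg z.re
    refine ⟨(Real.exp_pos _).le, ?_, ?_, ?_⟩
    · rw [Real.exp_le_one_iff]; linarith
    · calc ‖Complex.sinh z‖ * Real.exp (-(5 * |z.re|)) ≤
            Real.exp |z.re| * Real.exp (-(5 * |z.re|)) := by
            gcongr; exact norm_sinh_le z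
        _ = Real.exp (-(4 * |z.re|)) := by rw [← Real.exp_add]; congr 1; ring
        _ ≤ 1 := by rw [Real.exp_le_one_iff]; linarith
    · rw [← Real.exp_nat_mul]; congr 1; push_cast; ring
  have hder : ∀ (β : ℂ → ℂ) (w : ℤ → ℂ → ℂ) (j : ℤ) (z : ℂ),
      deriv (hk m β w j) z = I * (j : ℂ) * deriv (Gk m β w j) z := by
    intro β w j z
    exact deriv_const_mul_field _
  -- bounds for one solution
  have base : ∀ β w, Good σ B M β w → ∀ z ∈ Str σ,
      (∀ j, ‖gk m β w j z‖ ≤ 3 * K * wt 4 j σ * Real.exp (-(5 * |z.re|))) ∧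
      (∀ j, ‖hk m β w j z‖ ≤ K * wt 4 j σ * Real.exp (-(5 * |z.re|))) ∧
      (∀ j, ‖deriv (hk m β w j) z‖ ≤ K * wt 3 j σ * Real.exp (-(5 * |z.re|))) ∧
      (∀ j, ‖Hk m β w j z‖ ≤ K * wt 4 j σ * Real.exp (-(5 * |z.re|))) ∧
      (∀ j, ‖deriv (Hk m β w j) z‖ ≤ K * wt 3 j σ * Real.exp (-(5 * |z.re|))) := by
    intro β w hG z hz
    obtain ⟨-, -, h3, -⟩ := hE m hm σ hσ0 hσ1 β w hG
    obtain ⟨e0, -, -, -⟩ := he z
    refine ⟨fun j => ?_, fun j => ?_, fun j => ?_, fun j => (h3 j z hz).2.2.1,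
      fun j => (h3 j z hz).2.2.2⟩
    · obtain ⟨q1, q2, -, -⟩ := h3 j z hz
      unfold gk
      refine (norm_add_le _ _).trans ?_
      rw [norm_mul]
      have h5 : ‖(2 : ℂ)‖ = 2 := by simp
      rw [h5]
      have h6 : wt 5 j σ ≤ wt 4 j σ := wt_anti 4 j σ
      have h7 : K * wt 5 j σ * Real.exp (-(5 * |z.re|)) ≤
        K * wt 4 j σ * Real.exp (-(5 * |z.re|)) := by gcongr
      linarith
    · obtain ⟨q1, q2, -, -⟩ := h3 j z hz
      unfold hk
      rw [norm_mul, norm_mul, Complex.norm_I, one_mul, Complex.norm_intCast]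
      calc |(j : ℝ)| * ‖Gk m β w j z‖ ≤
            |(j : ℝ)| * (K * wt 5 j σ * Real.exp (-(5 * |z.re|))) := by gcongr
        _ = K * (|(j : ℝ)| * wt 5 j σ) * Real.exp (-(5 * |z.re|)) := by ring
        _ ≤ K * wt 4 j σ * Real.exp (-(5 * |z.re|)) := by
            gcongr
            exact wt_succ_mul 4 j σ
    · obtain ⟨q1, q2, -, -⟩ := h3 j z hz
      rw [hder, norm_mul, norm_mul, Complex.norm_I, one_mul, Complex.norm_intCast]
      calc |(j : ℝ)| * ‖deriv (Gk m β w j) z‖ ≤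
            |(j : ℝ)| * (K * wt 4 j σ * Real.exp (-(5 * |z.re|))) := by gcongr
        _ = K * (|(j : ℝ)| * wt 4 j σ) * Real.exp (-(5 * |z.re|)) := by ring
        _ ≤ K * wt 3 j σ * Real.exp (-(5 * |z.re|)) := by
            gcongr
            exact wt_succ_mul 3 j σ
  -- summability and holomorphy of the terms
  have hNWb : ∀ β w, Good σ B M β w → ∀ k, ∀ z ∈ Str σ, ∀ j : ℤ,
      ‖gk m β w j z * (I * ((k - j : ℤ) : ℂ) * w (k - j) z)
        - hk m β w j z * (deriv (w (k - j)) z - Complex.sinh z * w (k - j) z)‖ ≤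
      5 * K * M * (wt 2 k σ * (1 / (1 + |(j : ℝ)|) ^ 2)) := by
    intro β w hG k z hz j
    obtain ⟨b1, b2, -, -, -⟩ := base β w hG z hz
    obtain ⟨e0, e1, e2, -⟩ := he z
    exact nw_term' hK.le hM e0 e1 hσ e2 (fun j => gk m β w j z) (fun j => hk m β w j z)
      (fun j => w j z) (fun j => deriv (w j) z) b1 b2 (fun j => hG.w0 j z hz)
      (fun j => hG.w1 j z hz) k j
  have hNTb : ∀ β w, Good σ B M β w → ∀ z ∈ Str σ, ∀ j : ℤ,
      ‖(deriv (hk m β w j) z + 2 * hk m β w j z) * Hk m β w (-j) z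
    + hk m β w j z * (deriv (Hk m β w (-j)) z + 2 * Hk m β w (-j) z)‖ ≤
      6 * K ^ 2 * Real.exp (-(10 * |z.re|)) * (1 / (1 + |(j : ℝ)|) ^ 2) := by
    intro β w hG z hz j
    obtain ⟨-, b2, b3, b4, b5⟩ := base β w hG z hz
    obtain ⟨e0, e1, e2, e3⟩ := he z
    obtain ⟨h1, h2⟩ := nt_term hK.le hK.le e0 hσ (fun j => hk m β w j z)
      (fun j => deriv (hk m β w j) z) (fun j => Hk m β w j z) (fun j => deriv (Hk m β w j) z)
      b2 b3 b4 b5 j
    refine (norm_add_le _ _).trans ?_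
    rw [e3] at h1 h2
    linarith
  have hsW : ∀ (c : ℝ) (k : ℤ), Summable (fun j : ℤ => c * (wt 2 k σ * (1 / (1 + |(j : ℝ)|) ^ 2))) :=
    fun c k => (hSs.mul_left _).mul_left _
  have htW : ∀ (c : ℝ) (k : ℤ), ∑' j : ℤ, c * (wt 2 k σ * (1 / (1 + |(j : ℝ)|) ^ 2)) =
      c * S * wt 2 k σ := by
    intro c k
    rw [tsum_mul_left, tsum_mul_left, hSdef]
    ring
  have htT : ∀ (c : ℝ), ∑' j : ℤ, c * (1 / (1 + |(j : ℝ)|) ^ 2) = c * S := by
    intro c
    rw [tsum_mul_left, hSdef]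
  have hNWs : ∀ β w, Good σ B M β w → ∀ k, ∀ z ∈ Str σ, Summable (fun j : ℤ =>
      (gk m β w j z * (I * ((k - j : ℤ) : ℂ) * w (k - j) z)
        - hk m β w j z * (deriv (w (k - j)) z - Complex.sinh z * w (k - j) z))) :=
    fun β w hG k z hz => Summable.of_norm_bounded (hsW _ k) (hNWb β w hG k z hz)
  have hNTs : ∀ β w, Good σ B M β w → ∀ z ∈ Str σ, Summable (fun j : ℤ =>
      ((deriv (hk m β w j) z + 2 * hk m β w j z) * Hk m β w (-j) z
    + hk m β w j z * (deriv (Hk m β w (-j)) z + 2 * Hk m β w (-j) z))) :=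
    fun β w hG z hz => Summable.of_norm_bounded (hSs.mul_left _) (hNTb β w hG z hz)
  obtain ⟨hGd, hHd, -, hLip⟩ := hE m hm σ hσ0 hσ1 β w hG
  have hgkd : ∀ j, DifferentiableOn ℂ (gk m β w j) (Str σ) := by
    intro j
    exact ((hGd j).deriv hopen).add ((hGd j).const_mul 2)
  have hhkd : ∀ j, DifferentiableOn ℂ (hk m β w j) (Str σ) := by
    intro j
    exact (hGd j).const_mul (I * (j : ℂ))
  have hwt2 : ∀ k : ℤ, wt 2 k σ ≤ 1 := by
    intro k
    unfold wt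
    have h1 := abs_nonneg (k : ℝ)
    rw [div_le_one (by positivity)]
    calc Real.exp (-(σ * |(k : ℝ)|)) ≤ 1 := by
          rw [Real.exp_le_one_iff]
          nlinarith [mul_nonneg hσ h1]
      _ ≤ _ := one_le_pow₀ (by linarith)
  refine ⟨?_, ?_, ?_, ?_, ?_, ?_, ?_⟩
  · intro k
    have h1 : DifferentiableOn ℂ (fun z => ∑' j : ℤ,
        (gk m β w j z * (I * ((k - j : ℤ) : ℂ) * w (k - j) z)
        - hk m β w j z * (deriv (w (k - j)) z - Complex.sinh z * w (k - j) z))) (Str σ) := by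
      refine differentiableOn_tsum_of_summable_norm (hsW (5 * K * M) k) (fun j => ?_) hopen
        (fun j z hz => hNWb β w hG k z hz j)
      exact ((hgkd j).mul ((hG.wd (k - j)).const_mul _)).sub
        ((hhkd j).mul (((hG.wd (k - j)).deriv hopen).sub
          (Complex.differentiable_sinh.differentiableOn.mul (hG.wd (k - j)))))
    exact h1.neg
  · refine differentiableOn_tsum_of_summable_norm (hSs.mul_left (6 * K ^ 2)) (fun j => ?_) hopen
      (fun j z hz => (hNTb β w hG z hz j).trans ?_)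
    · exact ((((hhkd j).deriv hopen).add ((hhkd j).const_mul 2)).mul (hHd (-j))).add
        ((hhkd j).mul (((hHd (-j)).deriv hopen).add ((hHd (-j)).const_mul 2)))
    · have h1 : Real.exp (-(10 * |z.re|)) ≤ 1 := by
        rw [Real.exp_le_one_iff]
        have := abs_nonneg z.re
        linarith
      calc 6 * K ^ 2 * Real.exp (-(10 * |z.re|)) * (1 / (1 + |(j : ℝ)|) ^ 2) ≤
            6 * K ^ 2 * 1 * (1 / (1 + |(j : ℝ)|) ^ 2) := by gcongr
        _ = _ := by ring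
  · intro k z hz
    obtain ⟨b1, b2, -, -, -⟩ := base β w hG z hz
    obtain ⟨e0, e1, e2, -⟩ := he z
    have hall := fun j => nw_term hK.le hM e0 e1 hσ e2 (fun j => gk m β w j z)
      (fun j => hk m β w j z)
      (fun j => w j z) (fun j => deriv (w j) z) b1 b2 (fun j => hG.w0 j z hz)
      (fun j => hG.w1 j z hz) k j
    refine ⟨?_, ?_, ?_⟩
    · exact Summable.of_nonneg_of_le (fun _ => norm_nonneg _) (fun j => (hall j).1) (hsW _ k)
    · exact Summable.of_nonneg_of_le (fun _ => norm_nonneg _) (fun j => (hall j).2.1) (hsW _ k)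
    · exact Summable.of_nonneg_of_le (fun _ => norm_nonneg _) (fun j => (hall j).2.2) (hsW _ k)
  · intro z hz
    obtain ⟨-, b2, b3, b4, b5⟩ := base β w hG z hz
    obtain ⟨e0, e1, e2, e3⟩ := he z
    have hall := fun j => nt_term hK.le hK.le e0 hσ (fun j => hk m β w j z)
      (fun j => deriv (hk m β w j) z) (fun j => Hk m β w j z) (fun j => deriv (Hk m β w j) z)
      b2 b3 b4 b5 j
    refine ⟨?_, ?_⟩
    · exact Summable.of_nonneg_of_le (fun _ => norm_nonneg _) (fun j => (hall j).1)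
        (hSs.mul_left _)
    · exact Summable.of_nonneg_of_le (fun _ => norm_nonneg _) (fun j => (hall j).2)
        (hSs.mul_left _)
  · intro k z hz
    unfold NW
    rw [norm_neg]
    refine (tsum_of_norm_bounded (hsW (5 * K * M) k).hasSum (hNWb β w hG k z hz)).trans ?_
    rw [htW]
    have h1 := wt_nonneg 2 k σ
    apply mul_le_mul_of_nonneg_right _ h1
    have : 0 ≤ 5 * K * S + 12 * K ^ 2 * S := by positivity
    nlinarith
  · intro z hz
    unfold NT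
    refine (tsum_of_norm_bounded (hSs.mul_left _).hasSum (hNTb β w hG z hz)).trans ?_
    rw [htT]
    have h1 : 0 ≤ Real.exp (-(10 * |z.re|)) := (Real.exp_pos _).le
    have h2 : 6 * K ^ 2 * Real.exp (-(10 * |z.re|)) * S = 6 * K ^ 2 * S *
      Real.exp (-(10 * |z.re|)) := by ring
    rw [h2]
    apply mul_le_mul_of_nonneg_right _ h1
    have : 0 ≤ 5 * K * (M + 1) * S := by positivity
    have : 0 ≤ K ^ 2 * S := by positivity
    linarith
  · intro β' w' δ hδ hG' hC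
    have hdiff : ∀ z ∈ Str σ,
        (∀ j, ‖gk m β w j z - gk m β' w' j z‖ ≤
          3 * (K * δ) * wt 4 j σ * Real.exp (-(5 * |z.re|))) ∧
        (∀ j, ‖hk m β w j z - hk m β' w' j z‖ ≤ (K * δ) * wt 4 j σ * Real.exp (-(5 * |z.re|))) ∧
        (∀ j, ‖deriv (hk m β w j) z - deriv (hk m β' w' j) z‖ ≤
          (K * δ) * wt 3 j σ * Real.exp (-(5 * |z.re|))) ∧
        (∀ j, ‖Hk m β w j z - Hk m β' w' j z‖ ≤ (K * δ) * wt 4 j σ * Real.exp (-(5 * |z.re|))) ∧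
        (∀ j, ‖deriv (Hk m β w j) z - deriv (Hk m β' w' j) z‖ ≤
          (K * δ) * wt 3 j σ * Real.exp (-(5 * |z.re|))) := by
      intro z hz
      have h3 := fun j => hLip β' w' δ hδ hG' hC j z hz
      obtain ⟨e0, -, -, -⟩ := he z
      refine ⟨fun j => ?_, fun j => ?_, fun j => ?_, fun j => (h3 j).2.2.1,
        fun j => (h3 j).2.2.2⟩
      · obtain ⟨q1, q2, -, -⟩ := h3 j
        have e1 : gk m β w j z - gk m β' w' j z =
            (deriv (Gk m β w j) z - deriv (Gk m β' w' j) z) +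
            2 * (Gk m β w j z - Gk m β' w' j z) := by
          unfold gk; ring
        rw [e1]
        refine (norm_add_le _ _).trans ?_
        rw [norm_mul]
        have h5 : ‖(2 : ℂ)‖ = 2 := by simp
        rw [h5]
        have h6 : wt 5 j σ ≤ wt 4 j σ := wt_anti 4 j σ
        have h7 : K * δ * wt 5 j σ * Real.exp (-(5 * |z.re|)) ≤
          K * δ * wt 4 j σ * Real.exp (-(5 * |z.re|)) := by gcongr
        linarith
      · obtain ⟨q1, q2, -, -⟩ := h3 j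
        have e1 : hk m β w j z - hk m β' w' j z =
            I * (j : ℂ) * (Gk m β w j z - Gk m β' w' j z) := by
          unfold hk; ring
        rw [e1, norm_mul, norm_mul, Complex.norm_I, one_mul, Complex.norm_intCast]
        calc |(j : ℝ)| * ‖Gk m β w j z - Gk m β' w' j z‖ ≤
              |(j : ℝ)| * (K * δ * wt 5 j σ * Real.exp (-(5 * |z.re|))) := by gcongr
          _ = K * δ * (|(j : ℝ)| * wt 5 j σ) * Real.exp (-(5 * |z.re|)) := by ring
          _ ≤ K * δ * wt 4 j σ * Real.exp (-(5 * |z.re|)) := by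
              gcongr
              exact wt_succ_mul 4 j σ
      · obtain ⟨q1, q2, -, -⟩ := h3 j
        rw [hder, hder, ← mul_sub, norm_mul, norm_mul, Complex.norm_I, one_mul,
          Complex.norm_intCast]
        calc |(j : ℝ)| * ‖deriv (Gk m β w j) z - deriv (Gk m β' w' j) z‖ ≤
              |(j : ℝ)| * (K * δ * wt 4 j σ * Real.exp (-(5 * |z.re|))) := by gcongr
          _ = K * δ * (|(j : ℝ)| * wt 4 j σ) * Real.exp (-(5 * |z.re|)) := by ring
          _ ≤ K * δ * wt 3 j σ * Real.exp (-(5 * |z.re|)) := by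
              gcongr
              exact wt_succ_mul 3 j σ
    have hKδ : 0 ≤ K * δ := mul_nonneg hK.le hδ
    constructor
    · intro k z hz
      obtain ⟨b1, b2, -, -, -⟩ := base β' w' hG' z hz
      obtain ⟨d1, d2, -, -, -⟩ := hdiff z hz
      obtain ⟨e0, e1, e2, -⟩ := he z
      unfold NW
      rw [neg_sub_neg, norm_sub_rev, ← (hNWs β w hG k z hz).tsum_sub (hNWs β' w' hG' k z hz)]
      have hb : ∀ j : ℤ, ‖gk m β w j z * (I * ((k - j : ℤ) : ℂ) * w (k - j) z)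
            - hk m β w j z * (deriv (w (k - j)) z - Complex.sinh z * w (k - j) z) -
          (gk m β' w' j z * (I * ((k - j : ℤ) : ℂ) * w' (k - j) z)
            - hk m β' w' j z * (deriv (w' (k - j)) z - Complex.sinh z * w' (k - j) z))‖ ≤
          (5 * (K * δ) * M + 5 * K * δ) * (wt 2 k σ * (1 / (1 + |(j : ℝ)|) ^ 2)) := by
        intro j
        have h1 := nw_term' hKδ hM e0 e1 hσ e2 (fun j => gk m β w j z - gk m β' w' j z)
          (fun j => hk m β w j z - hk m β' w' j z)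
          (fun j => w j z) (fun j => deriv (w j) z) d1 d2 (fun j => hG.w0 j z hz)
          (fun j => hG.w1 j z hz) k j
        have h2 := nw_term' hK.le hδ e0 e1 hσ e2 (fun j => gk m β' w' j z)
          (fun j => hk m β' w' j z)
          (fun j => w j z - w' j z) (fun j => deriv (w j) z - deriv (w' j) z) b1 b2
          (fun j => hC.w0 j z hz) (fun j => hC.w1 j z hz) k j
        have h3 := (norm_add_le _ _).trans (add_le_add h1 h2)
        refine le_trans (le_of_eq ?_) (h3.trans (le_of_eq ?_))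
        · congr 1; ring
        · ring
      refine (tsum_of_norm_bounded (hsW _ k).hasSum hb).trans ?_
      rw [htW]
      have h1 := wt_nonneg 2 k σ
      apply mul_le_mul_of_nonneg_right _ h1
      have h2 : 0 ≤ K ^ 2 * S * δ := by positivity
      nlinarith
    · intro z hz
      obtain ⟨-, b2, b3, b4, b5⟩ := base β' w' hG' z hz
      obtain ⟨-, c2, c3, c4, c5⟩ := base β w hG z hz
      obtain ⟨-, d2, d3, d4, d5⟩ := hdiff z hz
      obtain ⟨e0, e1, e2, e3⟩ := he z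
      unfold NT
      rw [← (hNTs β w hG z hz).tsum_sub (hNTs β' w' hG' z hz)]
      have hb : ∀ j : ℤ, ‖((deriv (hk m β w j) z + 2 * hk m β w j z) * Hk m β w (-j) z
            + hk m β w j z * (deriv (Hk m β w (-j)) z + 2 * Hk m β w (-j) z)) -
          ((deriv (hk m β' w' j) z + 2 * hk m β' w' j z) * Hk m β' w' (-j) z
            + hk m β' w' j z * (deriv (Hk m β' w' (-j)) z + 2 * Hk m β' w' (-j) z))‖ ≤
          (12 * K ^ 2 * δ) * (1 / (1 + |(j : ℝ)|) ^ 2) := by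
        intro j
        obtain ⟨h1, h2⟩ := nt_term hKδ hK.le e0 hσ (fun j => hk m β w j z - hk m β' w' j z)
          (fun j => deriv (hk m β w j) z - deriv (hk m β' w' j) z) (fun j => Hk m β w j z)
          (fun j => deriv (Hk m β w j) z) d2 d3 c4 c5 j
        obtain ⟨h3, h4⟩ := nt_term hK.le hKδ e0 hσ (fun j => hk m β' w' j z)
          (fun j => deriv (hk m β' w' j) z) (fun j => Hk m β w j z - Hk m β' w' j z)
          (fun j => deriv (Hk m β w j) z - deriv (Hk m β' w' j) z) b2 b3 d4 d5 j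
        have h5 := (norm_add_le _ _).trans (add_le_add ((norm_add_le _ _).trans (add_le_add h1 h2))
          ((norm_add_le _ _).trans (add_le_add h3 h4)))
        refine le_trans (le_of_eq ?_) (h5.trans ?_)
        · congr 1; ring
        · have h6 : Real.exp (-(5 * |z.re|)) ^ 2 ≤ 1 := pow_le_one₀ e0 e1
          have h7 : 3 * (K * δ) * K * Real.exp (-(5 * |z.re|)) ^ 2 * (1 / (1 + |(j : ℝ)|) ^ 2) ≤
              3 * (K * δ) * K * 1 * (1 / (1 + |(j : ℝ)|) ^ 2) := by gcongr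
          have h8 : 3 * K * (K * δ) * Real.exp (-(5 * |z.re|)) ^ 2 * (1 / (1 + |(j : ℝ)|) ^ 2) ≤
              3 * K * (K * δ) * 1 * (1 / (1 + |(j : ℝ)|) ^ 2) := by gcongr
          calc _ ≤ _ := add_le_add (add_le_add h7 h7) (add_le_add h8 h8)
            _ = _ := by ring
      refine (tsum_of_norm_bounded (hSs.mul_left _).hasSum hb).trans ?_
      rw [htT]
      have h2 : 0 ≤ 5 * K * (M + 1) * S * δ := by positivity
      nlinarith

end JD2

end Pool.Agent.Helper383.NI
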