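import Pool.Agent.Helper383.NI.Defs
import Pool.Agent.Helper383.NI.B4

open Complex MeasureTheory Set Filter Topology

namespace Pool.Agent.Helper383.NI

open JB4 (Qop_symm Qop_real_bound)

namespace JD4

theorem Str_conj {σ : ℝ} {z : ℂ} (hz : z ∈ Str σ) : (starRingEnd ℂ) z ∈ Str σ := by
  have h : |z.im| < σ := hz
  show |((starRingEnd ℂ) z).im| < σ
  rw [Complex.conj_im, abs_neg]
  exact h

theorem Str_open (σ : ℝ) : IsOpen (Str σ) := by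
  have : Str σ = (fun z : ℂ => |z.im|) ⁻¹' (Iio σ) := rfl
  rw [this]
  exact isOpen_Iio.preimage (by fun_prop)

theorem deriv_symm {σ : ℝ} {F G : ℂ → ℂ}
    (h : ∀ z ∈ Str σ, G ((starRingEnd ℂ) z) = (starRingEnd ℂ) (F z)) :
    ∀ z ∈ Str σ, deriv G ((starRingEnd ℂ) z) = (starRingEnd ℂ) (deriv F z) := by
  intro z hz
  have h1 : G =ᶠ[𝓝 ((starRingEnd ℂ) z)] (starRingEnd ℂ) ∘ F ∘ (starRingEnd ℂ) := by
    filter_upwards [(Str_open σ).mem_nhds (Str_conj hz)] with x hx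
    have h2 := h _ (Str_conj hx)
    rw [Complex.conj_conj] at h2
    exact h2
  rw [h1.deriv_eq, deriv_conj_conj]
  simp

theorem Ws_symm {σ : ℝ} {w : ℤ → ℂ → ℂ}
    (hw : ∀ k, ∀ z ∈ Str σ, w (-k) ((starRingEnd ℂ) z) = (starRingEnd ℂ) (w k z)) (k : ℤ) :
    ∀ z ∈ Str σ, Ws w (-k) ((starRingEnd ℂ) z) = (starRingEnd ℂ) (Ws w k z) := by
  intro z hz
  unfold Ws
  rw [hw k z hz, map_mul, ← Complex.exp_conj, map_neg, ← Complex.cosh_conj]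

theorem sg_neg {k : ℤ} (hk : k ≠ 0) : sg (-k) = - sg k := by
  unfold sg
  rcases lt_trichotomy k 0 with h | h | h
  · rw [if_pos (by omega), if_neg (by omega)]
    ring
  · exact absurd h hk
  · rw [if_neg (by omega), if_pos (by omega)]

theorem nk_neg (m : ℕ) (k : ℤ) : nk m (-k) = nk m k := by
  unfold nk
  push_cast
  rw [abs_neg]

theorem Gk_symm (m : ℕ) {σ : ℝ} {β : ℂ → ℂ} {w : ℤ → ℂ → ℂ}
    (hβ : ∀ z ∈ Str σ, β ((starRingEnd ℂ) z) = (starRingEnd ℂ) (β z))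
    (hw : ∀ k, ∀ z ∈ Str σ, w (-k) ((starRingEnd ℂ) z) = (starRingEnd ℂ) (w k z)) (k : ℤ) :
    ∀ z ∈ Str σ, Gk m β w (-k) ((starRingEnd ℂ) z) = (starRingEnd ℂ) (Gk m β w k z) := by
  intro z hz
  unfold Gk
  by_cases hk : k = 0
  · rw [if_pos hk, if_pos (by omega), map_zero]
  · rw [if_neg hk, if_neg (by omega), nk_neg, sg_neg hk,
      Qop_symm _ _ _ _ _ _ σ z hz hβ (Ws_symm hw k), Qop_symm _ _ _ _ _ _ σ z hz hβ (Ws_symm hw k)]
    simp only [map_mul, map_neg, map_div₀, map_one, map_add, map_pow, map_intCast, map_ofNat]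
    push_cast
    ring

theorem Hk_symm (m : ℕ) {σ : ℝ} {β : ℂ → ℂ} {w : ℤ → ℂ → ℂ}
    (hβ : ∀ z ∈ Str σ, β ((starRingEnd ℂ) z) = (starRingEnd ℂ) (β z))
    (hw : ∀ k, ∀ z ∈ Str σ, w (-k) ((starRingEnd ℂ) z) = (starRingEnd ℂ) (w k z)) (k : ℤ) :
    ∀ z ∈ Str σ, Hk m β w (-k) ((starRingEnd ℂ) z) = (starRingEnd ℂ) (Hk m β w k z) := by
  intro z hz
  unfold Hk
  by_cases hk : k = 0
  · rw [if_pos hk, if_pos (by omega), map_zero]
  · have habs : |((-k : ℤ) : ℝ)| = |(k : ℝ)| := by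
      push_cast
      rw [abs_neg]
    rw [if_neg hk, if_neg (by omega), nk_neg, sg_neg hk,
      Qop_symm _ _ _ _ _ _ σ z hz hβ (Ws_symm hw k), Qop_symm _ _ _ _ _ _ σ z hz hβ (Ws_symm hw k),
      habs]
    simp only [map_mul, map_neg, map_div₀, map_one, map_sub, Complex.conj_ofReal, map_ofNat]

theorem gk_symm (m : ℕ) {σ : ℝ} {β : ℂ → ℂ} {w : ℤ → ℂ → ℂ}
    (hβ : ∀ z ∈ Str σ, β ((starRingEnd ℂ) z) = (starRingEnd ℂ) (β z))
    (hw : ∀ k, ∀ z ∈ Str σ, w (-k) ((starRingEnd ℂ) z) = (starRingEnd ℂ) (w k z)) (k : ℤ) :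
    ∀ z ∈ Str σ, gk m β w (-k) ((starRingEnd ℂ) z) = (starRingEnd ℂ) (gk m β w k z) := by
  intro z hz
  unfold gk
  rw [deriv_symm (Gk_symm m hβ hw k) z hz, Gk_symm m hβ hw k z hz]
  simp only [map_mul, map_add, map_ofNat]

theorem hk_symm (m : ℕ) {σ : ℝ} {β : ℂ → ℂ} {w : ℤ → ℂ → ℂ}
    (hβ : ∀ z ∈ Str σ, β ((starRingEnd ℂ) z) = (starRingEnd ℂ) (β z))
    (hw : ∀ k, ∀ z ∈ Str σ, w (-k) ((starRingEnd ℂ) z) = (starRingEnd ℂ) (w k z)) (k : ℤ) :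
    ∀ z ∈ Str σ, hk m β w (-k) ((starRingEnd ℂ) z) = (starRingEnd ℂ) (hk m β w k z) := by
  intro z hz
  unfold hk
  rw [Gk_symm m hβ hw k z hz]
  simp only [map_mul, Complex.conj_I, map_intCast]
  push_cast
  ring

theorem N_symm (m : ℕ) (σ : ℝ) (hσ : 0 < σ) (β : ℂ → ℂ) (w : ℤ → ℂ → ℂ)
    (hβ : ∀ z ∈ Str σ, β ((starRingEnd ℂ) z) = (starRingEnd ℂ) (β z))
    (hw : ∀ k, ∀ z ∈ Str σ, w (-k) ((starRingEnd ℂ) z) = (starRingEnd ℂ) (w k z)) :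
    (∀ k, ∀ z ∈ Str σ, Gk m β w (-k) ((starRingEnd ℂ) z) = (starRingEnd ℂ) (Gk m β w k z)) ∧
    (∀ k, ∀ z ∈ Str σ, Hk m β w (-k) ((starRingEnd ℂ) z) = (starRingEnd ℂ) (Hk m β w k z)) ∧
    (∀ k, ∀ z ∈ Str σ, NW m β w (-k) ((starRingEnd ℂ) z) = (starRingEnd ℂ) (NW m β w k z)) ∧
    (∀ z ∈ Str σ, NT m β w ((starRingEnd ℂ) z) = (starRingEnd ℂ) (NT m β w z)) := by
  refine ⟨Gk_symm m hβ hw, Hk_symm m hβ hw, ?_, ?_⟩
  · intro k z hz
    unfold NW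
    rw [map_neg, Complex.conj_tsum, ← (Equiv.neg ℤ).tsum_eq]
    congr 1
    refine tsum_congr fun j => ?_
    have e1 : (Equiv.neg ℤ) j = -j := rfl
    have e2 : -k - -j = -(k - j) := by ring
    rw [e1, e2, gk_symm m hβ hw j z hz, hk_symm m hβ hw j z hz, hw (k - j) z hz,
      deriv_symm (hw (k - j)) z hz, Complex.sinh_conj]
    simp only [map_mul, map_sub, Complex.conj_I, map_intCast]
    push_cast
    ring
  · intro z hz
    unfold NT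
    rw [Complex.conj_tsum, ← (Equiv.neg ℤ).tsum_eq]
    refine tsum_congr fun j => ?_
    have e1 : (Equiv.neg ℤ) j = -j := rfl
    rw [e1, hk_symm m hβ hw j z hz, deriv_symm (hk_symm m hβ hw j) z hz,
      Hk_symm m hβ hw (-j) z hz, deriv_symm (Hk_symm m hβ hw (-j)) z hz]
    simp only [map_mul, map_add, map_ofNat]

end JD4

end Pool.Agent.Helper383.NI
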