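import Pool.Agent.Helper383.NI.Defs
import Pool.Agent.Helper383.NI.A
import Pool.Agent.Helper383.NI.D0
import Pool.Agent.Helper383.NI.D2
import Pool.Agent.Helper383.NI.D4

open Complex MeasureTheory Set Filter Topology

namespace Pool.Agent.Helper383.NI

open JA (Sym abstract_ck)
open JD0 (E_bound)
open JD2 (N_est)
open JD4 (N_symm)

namespace JD3

theorem wt_pos (p : ℕ) (k : ℤ) (σ : ℝ) : 0 < wt p k σ := by
  unfold wt; positivity

theorem wt_anti (p : ℕ) (k : ℤ) {σ' σ : ℝ} (h : σ' ≤ σ) : wt p k σ ≤ wt p k σ' := by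
  unfold wt
  have : σ' * |(k : ℝ)| ≤ σ * |(k : ℝ)| := mul_le_mul_of_nonneg_right h (abs_nonneg _)
  gcongr

theorem wt_32 (k : ℤ) (σ : ℝ) : wt 3 k σ ≤ wt 2 k σ := by
  unfold wt
  have h1 : (1 : ℝ) ≤ 1 + |(k : ℝ)| := by linarith [abs_nonneg (k : ℝ)]
  gcongr
  norm_num

theorem wt_loss (k : ℤ) {σ' σ : ℝ} (h : σ' < σ) (h1 : σ - σ' ≤ 1) :
    wt 2 k σ ≤ 2 / (σ - σ') * wt 3 k σ' := by
  have hd : 0 < σ - σ' := by linarith
  have hx : 0 ≤ |(k : ℝ)| := abs_nonneg _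
  have e1 : 1 + (σ - σ') * |(k : ℝ)| ≤ Real.exp ((σ - σ') * |(k : ℝ)|) := by
    linarith [Real.add_one_le_exp ((σ - σ') * |(k : ℝ)|)]
  have key : (σ - σ') * (1 + |(k : ℝ)|) ≤ 2 * Real.exp ((σ - σ') * |(k : ℝ)|) := by nlinarith [mul_nonneg hd.le hx]
  have e2 : Real.exp (-(σ' * |(k : ℝ)|)) = Real.exp (-(σ * |(k : ℝ)|)) * Real.exp ((σ - σ') * |(k : ℝ)|) := by
    rw [← Real.exp_add]; congr 1; ring
  unfold wt
  rw [e2, div_mul_div_comm, div_le_div_iff₀ (by positivity) (by positivity)]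
  have e3 : 0 ≤ Real.exp (-(σ * |(k : ℝ)|)) * (1 + |(k : ℝ)|) ^ 2 := by positivity
  calc Real.exp (-(σ * |(k : ℝ)|)) * ((σ - σ') * (1 + |(k : ℝ)|) ^ 3)
      = (Real.exp (-(σ * |(k : ℝ)|)) * (1 + |(k : ℝ)|) ^ 2) * ((σ - σ') * (1 + |(k : ℝ)|)) := by ring
    _ ≤ (Real.exp (-(σ * |(k : ℝ)|)) * (1 + |(k : ℝ)|) ^ 2) * (2 * Real.exp ((σ - σ') * |(k : ℝ)|)) :=
        mul_le_mul_of_nonneg_left key e3
    _ = _ := by ring

theorem wt_low (k : ℤ) (hk : k = 0 ∨ k = 1 ∨ k = -1) {σ : ℝ} (h1 : σ ≤ 1) :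
    1 ≤ 24 * wt 3 k σ := by
  have e3 : Real.exp 1 ≤ 3 := by linarith [Real.exp_one_lt_d9]
  have e4 : 1 / 3 ≤ Real.exp (-1) := by
    rw [Real.exp_neg]; rw [one_div]; exact inv_anti₀ (Real.exp_pos 1) e3
  have e5 : Real.exp (-1) ≤ Real.exp (-σ) := Real.exp_le_exp.2 (by linarith)
  rcases hk with rfl | rfl | rfl
  · unfold wt; norm_num
  · unfold wt; norm_num; linarith
  · unfold wt; norm_num; linarith

theorem str_open (σ : ℝ) : IsOpen (Str σ) := by
  unfold Str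
  exact isOpen_lt (by fun_prop) continuous_const

theorem str_mono {σ' σ : ℝ} (h : σ' ≤ σ) : Str σ' ⊆ Str σ := fun _ hz => lt_of_lt_of_le hz h

theorem str_conj {σ : ℝ} {z : ℂ} (hz : z ∈ Str σ) : (starRingEnd ℂ) z ∈ Str σ := by
  unfold Str at *; simpa using hz

theorem norm_sinh_le (z : ℂ) : ‖Complex.sinh z‖ ≤ Real.exp |z.re| := by
  unfold Complex.sinh
  have h1 : ‖Complex.exp z‖ ≤ Real.exp |z.re| := by
    rw [Complex.norm_exp]; exact Real.exp_le_exp.2 (le_abs_self _)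
  have h2 : ‖Complex.exp (-z)‖ ≤ Real.exp |z.re| := by
    rw [Complex.norm_exp]; exact Real.exp_le_exp.2 (by simpa using neg_le_abs _)
  rw [norm_div]
  have := norm_sub_le (Complex.exp z) (Complex.exp (-z))
  norm_num
  linarith

theorem norm_cosh_le (z : ℂ) : ‖Complex.cosh z‖ ≤ Real.exp |z.re| := by
  unfold Complex.cosh
  have h1 : ‖Complex.exp z‖ ≤ Real.exp |z.re| := by
    rw [Complex.norm_exp]; exact Real.exp_le_exp.2 (le_abs_self _)
  have h2 : ‖Complex.exp (-z)‖ ≤ Real.exp |z.re| := by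
    rw [Complex.norm_exp]; exact Real.exp_le_exp.2 (by simpa using neg_le_abs _)
  rw [norm_div]
  have := norm_add_le (Complex.exp z) (Complex.exp (-z))
  norm_num
  linarith

/-- bounded products with the exponential -/
theorem base_bound : ∃ C : ℝ, 1 ≤ C ∧ ∀ z ∈ Str 1, ∀ a b : ℕ, a + b ≤ 2 →
    ‖Complex.exp (-Complex.cosh z)‖ * (‖Complex.sinh z‖ ^ a * ‖Complex.cosh z‖ ^ b) ≤ C := by
  obtain ⟨C, hC, h⟩ := E_bound
  refine ⟨C + 1, by linarith, fun z hz a b hab => ?_⟩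
  have h1 := h z hz
  have hx := abs_nonneg z.re
  have e1 : ‖Complex.sinh z‖ ^ a ≤ Real.exp |z.re| ^ a :=
    pow_le_pow_left₀ (norm_nonneg _) (norm_sinh_le z) _
  have e2 : ‖Complex.cosh z‖ ^ b ≤ Real.exp |z.re| ^ b :=
    pow_le_pow_left₀ (norm_nonneg _) (norm_cosh_le z) _
  have e3 : ‖Complex.sinh z‖ ^ a * ‖Complex.cosh z‖ ^ b ≤ Real.exp (20 * |z.re|) := by
    calc ‖Complex.sinh z‖ ^ a * ‖Complex.cosh z‖ ^ b ≤ Real.exp |z.re| ^ a * Real.exp |z.re| ^ b := by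
          gcongr
      _ = Real.exp ((a + b : ℕ) * |z.re|) := by
          rw [← pow_add, ← Real.exp_nat_mul]
      _ ≤ Real.exp (20 * |z.re|) := by
          apply Real.exp_le_exp.2
          have : ((a + b : ℕ) : ℝ) ≤ 20 := by exact_mod_cast (by omega : a + b ≤ 20)
          exact mul_le_mul_of_nonneg_right this hx
  calc _ ≤ ‖Complex.exp (-Complex.cosh z)‖ * Real.exp (20 * |z.re|) := by gcongr
    _ ≤ C + 1 := by linarith

theorem hasDerivAt_Ob1 (z : ℂ) : HasDerivAt Ob1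
    (Complex.exp (-2 * Complex.cosh z) * (4 * Complex.sinh z ^ 2 - 2 * Complex.cosh z)) z := by
  have h1 : HasDerivAt (fun z => Complex.exp (-2 * Complex.cosh z))
      (Complex.exp (-2 * Complex.cosh z) * (-2 * Complex.sinh z)) z :=
    ((Complex.hasDerivAt_cosh z).const_mul (-2)).cexp
  have h2 : HasDerivAt (fun z => -2 * Complex.sinh z) (-2 * Complex.cosh z) z :=
    (Complex.hasDerivAt_sinh z).const_mul (-2)
  have h3 := h2.mul h1
  refine HasDerivAt.congr_deriv (f := Ob1) h3 ?_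
  ring

theorem Ob1_bound : ∃ C : ℝ, 1 ≤ C ∧ (∀ z ∈ Str 1, ‖Ob1 z‖ ≤ C) ∧ (∀ z ∈ Str 1, ‖deriv Ob1 z‖ ≤ C) ∧
    (∀ z ∈ Str 1, |(Ob1 z).im| ≤ C * |z.im|) := by
  obtain ⟨C, hC, h⟩ := base_bound
  have hexp : ∀ z : ℂ, Complex.exp (-2 * Complex.cosh z) =
      Complex.exp (-Complex.cosh z) * Complex.exp (-Complex.cosh z) := by
    intro z; rw [← Complex.exp_add]; congr 1; ring
  have hd : ∀ z ∈ Str 1, ‖deriv Ob1 z‖ ≤ 6 * C ^ 2 := by
    intro z hz
    rw [(hasDerivAt_Ob1 z).deriv, hexp]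
    have a0 := h z hz 0 0 (by norm_num)
    have a2 := h z hz 2 0 (by norm_num)
    have a1 := h z hz 0 1 (by norm_num)
    simp only [pow_zero, mul_one, one_mul, pow_one] at a0 a1 a2
    have n1 : ‖4 * Complex.sinh z ^ 2 - 2 * Complex.cosh z‖ ≤ 4 * ‖Complex.sinh z‖ ^ 2 + 2 * ‖Complex.cosh z‖ := by
      refine (norm_sub_le _ _).trans ?_
      simp
    set E := ‖Complex.exp (-Complex.cosh z)‖ with hE
    have hE0 : 0 ≤ E := norm_nonneg _
    rw [norm_mul, norm_mul]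
    calc E * E * ‖4 * Complex.sinh z ^ 2 - 2 * Complex.cosh z‖
        ≤ E * E * (4 * ‖Complex.sinh z‖ ^ 2 + 2 * ‖Complex.cosh z‖) := by gcongr
      _ = E * (4 * (E * ‖Complex.sinh z‖ ^ 2) + 2 * (E * ‖Complex.cosh z‖)) := by ring
      _ ≤ C * (4 * C + 2 * C) := by gcongr
      _ = 6 * C ^ 2 := by ring
  refine ⟨6 * C ^ 2, by nlinarith, ?_, hd, ?_⟩
  · intro z hz
    have a0 := h z hz 0 0 (by norm_num)
    have a1 := h z hz 1 0 (by norm_num)
    simp only [pow_zero, mul_one, one_mul, pow_one] at a0 a1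
    unfold Ob1
    rw [hexp]
    set E := ‖Complex.exp (-Complex.cosh z)‖ with hE
    have hE0 : 0 ≤ E := norm_nonneg _
    rw [norm_mul, norm_mul, norm_mul]
    calc ‖(-2 : ℂ)‖ * ‖Complex.sinh z‖ * (E * E) = 2 * (E * ‖Complex.sinh z‖) * E := by simp; ring
      _ ≤ 2 * C * C := by gcongr
      _ ≤ 6 * C ^ 2 := by nlinarith
  · intro z hz
    have hconv : Convex ℝ (Str 1) := by
      have : Str 1 = Complex.imLm ⁻¹' (Set.Ioo (-1) 1) := by
        ext w; simp [Str, abs_lt]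
      rw [this]
      exact (convex_Ioo _ _).linear_preimage _
    have hre : ((z.re : ℝ) : ℂ) ∈ Str 1 := by simp [Str]
    have key := Convex.norm_image_sub_le_of_norm_deriv_le (f := Ob1) (s := Str 1) (C := 6 * C ^ 2)
      (fun x _ => (hasDerivAt_Ob1 x).differentiableAt) hd hconv hre hz
    have r1 : (Ob1 (z.re : ℂ)).im = 0 := by
      have : Ob1 (z.re : ℂ) = ((-2 * Real.sinh z.re * Real.exp (-2 * Real.cosh z.re) : ℝ) : ℂ) := by
        unfold Ob1; push_cast; ring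
      rw [this]; exact Complex.ofReal_im _
    have r2 : (Ob1 z).im = (Ob1 z - Ob1 (z.re : ℂ)).im := by simp [r1]
    rw [r2]
    refine (Complex.abs_im_le_norm _).trans (key.trans ?_)
    have r3 : z - (z.re : ℂ) = z.im * I := by
      apply Complex.ext <;> simp
    rw [r3, norm_mul]; simp

theorem w0_zero (c : ℝ) (z : ℂ) : w0 c 0 z = c * (Complex.exp (-Complex.cosh z) * (2 - 2 * Complex.sinh z)) := by
  unfold w0 Obw Ob Ob1
  have : Complex.exp (-2 * Complex.cosh z) =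
      Complex.exp (-Complex.cosh z) * Complex.exp (-Complex.cosh z) := by
    rw [← Complex.exp_add]; congr 1; ring
  have h2 : Complex.exp (Complex.cosh z) * Complex.exp (-Complex.cosh z) = 1 := by
    rw [← Complex.exp_add]; simp
  rw [if_pos rfl, this]
  calc (c : ℂ) * (Complex.exp (Complex.cosh z) * (2 * (Complex.exp (-Complex.cosh z) * Complex.exp (-Complex.cosh z)) +
      -2 * Complex.sinh z * (Complex.exp (-Complex.cosh z) * Complex.exp (-Complex.cosh z))))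
      = (c : ℂ) * ((Complex.exp (Complex.cosh z) * Complex.exp (-Complex.cosh z)) * (Complex.exp (-Complex.cosh z) * (2 - 2 * Complex.sinh z))) := by ring
    _ = _ := by rw [h2, one_mul]

theorem hasDerivAt_expcosh (z : ℂ) : HasDerivAt (fun z => Complex.exp (-Complex.cosh z))
    (Complex.exp (-Complex.cosh z) * (-Complex.sinh z)) z :=
  (Complex.hasDerivAt_cosh z).neg.cexp

/-- initial data: holomorphy and bounds -/
theorem w0_bound : ∃ M : ℝ, 1 ≤ M ∧ ∀ c : ℝ, 0 ≤ c → c ≤ 1 → ∀ k : ℤ,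
    Differentiable ℂ (w0 c k) ∧ ∀ σ : ℝ, 0 < σ → σ ≤ 1 → ∀ z ∈ Str σ,
      ‖w0 c k z‖ ≤ M * wt 3 k σ ∧ ‖deriv (w0 c k) z‖ ≤ M * wt 2 k σ := by
  obtain ⟨C, hC, h⟩ := base_bound
  have gen : ∀ (k : ℤ), (k = 0 ∨ k = 1 ∨ k = -1) → ∀ (f : ℂ → ℂ) (f' : ℂ → ℂ), (∀ z, HasDerivAt f (f' z) z) →
      (∀ z ∈ Str 1, ‖f z‖ ≤ 6 * C) → (∀ z ∈ Str 1, ‖f' z‖ ≤ 6 * C) →
      Differentiable ℂ f ∧ ∀ σ : ℝ, 0 < σ → σ ≤ 1 → ∀ z ∈ Str σ,
      ‖f z‖ ≤ (144 * C) * wt 3 k σ ∧ ‖deriv f z‖ ≤ (144 * C) * wt 2 k σ := by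
    intro k hk f f' hf h1 h2
    refine ⟨fun z => (hf z).differentiableAt, fun σ h0 hs z hz => ?_⟩
    have hz1 : z ∈ Str 1 := str_mono hs hz
    have w := wt_low k hk hs
    have w' := wt_32 k σ
    rw [(hf z).deriv]
    have q1 := h1 z hz1
    have q2 := h2 z hz1
    constructor
    · nlinarith
    · nlinarith
  refine ⟨144 * C, by linarith, fun c hc0 hc1 k => ?_⟩
  by_cases hk0 : k = 0
  · subst hk0
    have e : w0 c 0 = fun z => (c : ℂ) * (Complex.exp (-Complex.cosh z) * (2 - 2 * Complex.sinh z)) := by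
      funext z; exact w0_zero c z
    rw [e]
    refine gen 0 (Or.inl rfl) _ (fun z => (c : ℂ) * ((Complex.exp (-Complex.cosh z) * (-Complex.sinh z)) * (2 - 2 * Complex.sinh z)
      + Complex.exp (-Complex.cosh z) * (-(2 * Complex.cosh z)))) ?_ ?_ ?_
    · intro z
      exact ((hasDerivAt_expcosh z).mul (((Complex.hasDerivAt_sinh z).const_mul 2).const_sub 2)).const_mul (c : ℂ)
    · intro z hz
      have a0 := h z hz 0 0 (by norm_num)
      have a1 := h z hz 1 0 (by norm_num)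
      simp only [pow_zero, mul_one, one_mul, pow_one] at a0 a1
      set E := ‖Complex.exp (-Complex.cosh z)‖ with hE
      have hE0 : 0 ≤ E := norm_nonneg _
      have n1 : ‖2 - 2 * Complex.sinh z‖ ≤ 2 + 2 * ‖Complex.sinh z‖ := by
        refine (norm_sub_le _ _).trans ?_
        simp
      rw [norm_mul, norm_mul]
      have n2 : ‖(c : ℂ)‖ ≤ 1 := by rw [Complex.norm_real, Real.norm_eq_abs, abs_of_nonneg hc0]; exact hc1
      calc ‖(c : ℂ)‖ * (E * ‖2 - 2 * Complex.sinh z‖) ≤ 1 * (E * (2 + 2 * ‖Complex.sinh z‖)) := by gcongr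
        _ = 2 * E + 2 * (E * ‖Complex.sinh z‖) := by ring
        _ ≤ 6 * C := by linarith
    · intro z hz
      have a0 := h z hz 0 0 (by norm_num)
      have a1 := h z hz 1 0 (by norm_num)
      have a2 := h z hz 2 0 (by norm_num)
      have a3 := h z hz 0 1 (by norm_num)
      simp only [pow_zero, mul_one, one_mul, pow_one] at a0 a1 a2 a3
      set E := ‖Complex.exp (-Complex.cosh z)‖ with hE
      have hE0 : 0 ≤ E := norm_nonneg _
      have n1 : ‖2 - 2 * Complex.sinh z‖ ≤ 2 + 2 * ‖Complex.sinh z‖ := by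
        refine (norm_sub_le _ _).trans ?_
        simp
      have n2 : ‖(c : ℂ)‖ ≤ 1 := by rw [Complex.norm_real, Real.norm_eq_abs, abs_of_nonneg hc0]; exact hc1
      rw [norm_mul]
      have n3 : ‖Complex.exp (-Complex.cosh z) * -Complex.sinh z * (2 - 2 * Complex.sinh z) +
          Complex.exp (-Complex.cosh z) * -(2 * Complex.cosh z)‖ ≤
          E * ‖Complex.sinh z‖ * (2 + 2 * ‖Complex.sinh z‖) + E * (2 * ‖Complex.cosh z‖) := by
        refine (norm_add_le _ _).trans ?_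
        rw [norm_mul, norm_mul, norm_mul, norm_neg, norm_neg, norm_mul]
        have : ‖(2 : ℂ)‖ = 2 := by simp
        rw [this]
        gcongr
      calc _ ≤ 1 * (E * ‖Complex.sinh z‖ * (2 + 2 * ‖Complex.sinh z‖) + E * (2 * ‖Complex.cosh z‖)) := by gcongr
        _ = 2 * (E * ‖Complex.sinh z‖) + 2 * (E * ‖Complex.sinh z‖ ^ 2) + 2 * (E * ‖Complex.cosh z‖) := by ring
        _ ≤ 6 * C := by linarith
  · by_cases hk1 : k = 1 ∨ k = -1
    · have e : w0 c k = fun z => Complex.exp (-Complex.cosh z) := by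
        funext z; unfold w0; rw [if_neg hk0, if_pos hk1]
      rw [e]
      refine gen k (Or.inr hk1) _ _ hasDerivAt_expcosh ?_ ?_
      · intro z hz
        have a0 := h z hz 0 0 (by norm_num)
        simp only [pow_zero, mul_one] at a0
        linarith
      · intro z hz
        have a1 := h z hz 1 0 (by norm_num)
        simp only [pow_zero, mul_one, pow_one] at a1
        rw [norm_mul, norm_neg]
        linarith
    · have e : w0 c k = fun _ => 0 := by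
        funext z; unfold w0; rw [if_neg hk0, if_neg hk1]
      rw [e]
      refine ⟨differentiable_const _, fun σ h0 hs z hz => ?_⟩
      have := wt_pos 3 k σ
      have := wt_pos 2 k σ
      simp only [norm_zero, deriv_const]
      constructor <;> positivity

theorem w0_symm (c : ℝ) (k : ℤ) (z : ℂ) : w0 c (-k) ((starRingEnd ℂ) z) = (starRingEnd ℂ) (w0 c k z) := by
  by_cases hk0 : k = 0
  · subst hk0
    rw [neg_zero, w0_zero, w0_zero]
    have h2 : (starRingEnd ℂ) 2 = 2 := Complex.conj_ofNat 2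
    rw [map_mul, map_mul, Complex.conj_ofReal, map_sub, map_mul, ← Complex.exp_conj, map_neg, Complex.cosh_conj,
      Complex.sinh_conj, h2]
  · have hk0' : -k ≠ 0 := by simpa using hk0
    by_cases hk1 : k = 1 ∨ k = -1
    · have hk1' : -k = 1 ∨ -k = -1 := by omega
      unfold w0
      rw [if_neg hk0, if_neg hk0', if_pos hk1, if_pos hk1', ← Complex.exp_conj, map_neg, Complex.cosh_conj]
    · have hk1' : ¬ (-k = 1 ∨ -k = -1) := by omega
      unfold w0
      rw [if_neg hk0, if_neg hk0', if_neg hk1, if_neg hk1', map_zero]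

theorem Ob1_symm (z : ℂ) : Ob1 ((starRingEnd ℂ) z) = (starRingEnd ℂ) (Ob1 z) := by
  unfold Ob1
  have h2 : (starRingEnd ℂ) (-2) = -2 := by rw [map_neg, Complex.conj_ofNat]
  rw [map_mul, map_mul, ← Complex.exp_conj, map_mul, Complex.cosh_conj, Complex.sinh_conj, h2]

/-! #### the abstract system -/

noncomputable def W0 : (ℤ ⊕ Bool) → ℝ → ℝ
  | Sum.inl k, σ => wt 3 k σ
  | Sum.inr _, _ => 1

noncomputable def W1 : (ℤ ⊕ Bool) → ℝ → ℝ
  | Sum.inl k, σ => wt 2 k σ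
  | Sum.inr _, _ => 1

noncomputable def bet (t : ℝ) (U : (ℤ ⊕ Bool) → ℂ → ℂ) : ℂ → ℂ := fun z => (t : ℂ) * Ob1 z + U (Sum.inr true) z

noncomputable def wf (c : ℝ) (U : (ℤ ⊕ Bool) → ℂ → ℂ) : ℤ → ℂ → ℂ := fun k z => w0 c k z + U (Sum.inl k) z

noncomputable def NN (m : ℕ) (c t : ℝ) (U : (ℤ ⊕ Bool) → ℂ → ℂ) : (ℤ ⊕ Bool) → ℂ → ℂ
  | Sum.inl k => NW m (bet t U) (wf c U) k
  | Sum.inr false => NT m (bet t U) (wf c U)
  | Sum.inr true => deriv (U (Sum.inr false))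

def pp : (ℤ ⊕ Bool) → (ℤ ⊕ Bool)
  | Sum.inl k => Sum.inl (-k)
  | Sum.inr b => Sum.inr b

theorem diffAt_of {σ : ℝ} {f : ℂ → ℂ} (h : DifferentiableOn ℂ f (Str σ)) {z : ℂ} (hz : z ∈ Str σ) :
    DifferentiableAt ℂ f z := h.differentiableAt ((str_open σ).mem_nhds hz)

theorem deriv_bet (t : ℝ) (U : (ℤ ⊕ Bool) → ℂ → ℂ) {σ : ℝ} (h : DifferentiableOn ℂ (U (Sum.inr true)) (Str σ))
    {z : ℂ} (hz : z ∈ Str σ) : deriv (bet t U) z = (t : ℂ) * deriv Ob1 z + deriv (U (Sum.inr true)) z := by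
  have h1 : HasDerivAt (bet t U) ((t : ℂ) * deriv Ob1 z + deriv (U (Sum.inr true)) z) z :=
    ((hasDerivAt_Ob1 z).differentiableAt.hasDerivAt.const_mul (t : ℂ)).add (diffAt_of h hz).hasDerivAt
  exact h1.deriv

theorem deriv_wf (c : ℝ) (U : (ℤ ⊕ Bool) → ℂ → ℂ) (k : ℤ) (hw : Differentiable ℂ (w0 c k)) {σ : ℝ}
    (h : DifferentiableOn ℂ (U (Sum.inl k)) (Str σ))
    {z : ℂ} (hz : z ∈ Str σ) : deriv (wf c U k) z = deriv (w0 c k) z + deriv (U (Sum.inl k)) z := by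
  have h1 : HasDerivAt (wf c U k) (deriv (w0 c k) z + deriv (U (Sum.inl k)) z) z :=
    (hw z).hasDerivAt.add (diffAt_of h hz).hasDerivAt
  exact h1.deriv

theorem good_of {T C M : ℝ} (hT : 0 ≤ T) (hC : 1 ≤ C)
    (h1 : ∀ z ∈ Str 1, ‖Ob1 z‖ ≤ C) (h2 : ∀ z ∈ Str 1, ‖deriv Ob1 z‖ ≤ C)
    (h3 : ∀ z ∈ Str 1, |(Ob1 z).im| ≤ C * |z.im|) {c : ℝ}
    (hM : ∀ k : ℤ, Differentiable ℂ (w0 c k) ∧ ∀ σ : ℝ, 0 < σ → σ ≤ 1 → ∀ z ∈ Str σ,
      ‖w0 c k z‖ ≤ M * wt 3 k σ ∧ ‖deriv (w0 c k) z‖ ≤ M * wt 2 k σ)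
    {σ : ℝ} (h0 : 0 < σ) (hs1 : σ ≤ 1) (hs : T * C * σ ≤ 1 / 4) {t : ℝ} (ht : t ∈ Icc 0 T)
    {U : (ℤ ⊕ Bool) → ℂ → ℂ} (hU : Bd W0 W1 σ (1 / 4) U) :
    Good σ (T * C + 1) (M + 1) (bet t U) (wf c U) := by
  obtain ⟨u1, u2, u3⟩ := hU
  have ht0 : 0 ≤ t := ht.1
  have htT : t ≤ T := ht.2
  have nt : ‖(t : ℂ)‖ = t := by rw [Complex.norm_real, Real.norm_eq_abs, abs_of_nonneg ht0]
  refine ⟨?_, ?_, ?_, ?_, ?_, ?_, ?_⟩
  · have hO : DifferentiableOn ℂ Ob1 (Str σ) := fun z _ => (hasDerivAt_Ob1 z).differentiableAt.differentiableWithinAt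
    exact (hO.const_mul (t : ℂ)).add (u1 (Sum.inr true))
  · intro z hz
    have e1 := h1 z (str_mono hs1 hz)
    have e2 : ‖U (Sum.inr true) z‖ ≤ 1 / 4 * 1 := u2 (Sum.inr true) z hz
    refine (norm_add_le _ _).trans ?_
    rw [norm_mul, nt]
    have : t * ‖Ob1 z‖ ≤ T * C := by gcongr
    linarith
  · intro z hz
    have e1 := h3 z (str_mono hs1 hz)
    have e2 : ‖U (Sum.inr true) z‖ ≤ 1 / 4 * 1 := u2 (Sum.inr true) z hz
    have e3 : (bet t U z).im = t * (Ob1 z).im + (U (Sum.inr true) z).im := by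
      unfold bet; simp
    rw [e3]
    refine (abs_add_le _ _).trans ?_
    have e4 := (Complex.abs_im_le_norm (U (Sum.inr true) z)).trans e2
    have e5 : |t * (Ob1 z).im| ≤ T * (C * σ) := by
      rw [abs_mul, abs_of_nonneg ht0]
      have : |z.im| ≤ σ := le_of_lt hz
      have : |(Ob1 z).im| ≤ C * σ := e1.trans (by gcongr)
      gcongr
    nlinarith
  · intro z hz
    rw [deriv_bet t U (u1 _) hz]
    have e1 := h2 z (str_mono hs1 hz)
    have e2 : ‖deriv (U (Sum.inr true)) z‖ ≤ 1 / 4 * 1 := u3 (Sum.inr true) z hz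
    refine (norm_add_le _ _).trans ?_
    rw [norm_mul, nt]
    have : t * ‖deriv Ob1 z‖ ≤ T * C := by gcongr
    linarith
  · intro k
    exact (hM k).1.differentiableOn.add (u1 (Sum.inl k))
  · intro k z hz
    have e1 := ((hM k).2 σ h0 hs1 z hz).1
    have e2 : ‖U (Sum.inl k) z‖ ≤ 1 / 4 * wt 3 k σ := u2 (Sum.inl k) z hz
    have e3 := wt_pos 3 k σ
    refine (norm_add_le _ _).trans ?_
    nlinarith
  · intro k z hz
    rw [deriv_wf c U k (hM k).1 (u1 _) hz]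
    have e1 := ((hM k).2 σ h0 hs1 z hz).2
    have e2 : ‖deriv (U (Sum.inl k)) z‖ ≤ 1 / 4 * wt 2 k σ := u3 (Sum.inl k) z hz
    have e3 := wt_pos 2 k σ
    refine (norm_add_le _ _).trans ?_
    nlinarith

theorem good_mono {σ B M B' M' : ℝ} (hB : B ≤ B') (hM : M ≤ M') {β : ℂ → ℂ} {w : ℤ → ℂ → ℂ} (h : Good σ B M β w) :
    Good σ B' M' β w := by
  refine ⟨h.bd, fun z hz => (h.b0 z hz).trans hB, h.bi, fun z hz => (h.b1 z hz).trans hB, h.wd,
    fun k z hz => (h.w0 k z hz).trans ?_, fun k z hz => (h.w1 k z hz).trans ?_⟩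
  · exact mul_le_mul_of_nonneg_right hM (wt_pos _ _ _).le
  · exact mul_le_mul_of_nonneg_right hM (wt_pos _ _ _).le

theorem deriv_sub_of {σ : ℝ} {f g : ℂ → ℂ} (hf : DifferentiableOn ℂ f (Str σ)) (hg : DifferentiableOn ℂ g (Str σ))
    {z : ℂ} (hz : z ∈ Str σ) : deriv (fun z => f z - g z) z = deriv f z - deriv g z := by
  have h1 : HasDerivAt (fun z => f z - g z) (deriv f z - deriv g z) z :=
    (diffAt_of hf hz).hasDerivAt.sub (diffAt_of hg hz).hasDerivAt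
  exact h1.deriv

theorem close_of {C : ℝ}
    (h1 : ∀ z ∈ Str 1, ‖Ob1 z‖ ≤ C) (h2 : ∀ z ∈ Str 1, ‖deriv Ob1 z‖ ≤ C) {c : ℝ}
    (hM : ∀ k : ℤ, Differentiable ℂ (w0 c k))
    {σ : ℝ} (hs1 : σ ≤ 1) {t s : ℝ} {U V : (ℤ ⊕ Bool) → ℂ → ℂ} {D : ℝ}
    (hU : ∀ i, DifferentiableOn ℂ (U i) (Str σ)) (hV : ∀ i, DifferentiableOn ℂ (V i) (Str σ))
    (hUV : Bd W0 W1 σ D (fun i z => U i z - V i z)) :
    Close σ (C * |t - s| + D) (bet t U) (wf c U) (bet s V) (wf c V) := by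
  obtain ⟨u1, u2, u3⟩ := hUV
  have nt : ‖(t : ℂ) - s‖ = |t - s| := by rw [← Complex.ofReal_sub, Complex.norm_real, Real.norm_eq_abs]
  have hC : 0 ≤ C := (norm_nonneg _).trans (h1 0 (by simp [Str]))
  refine ⟨?_, ?_, ?_, ?_⟩
  · intro z hz
    have e1 := h1 z (str_mono hs1 hz)
    have e2 : ‖U (Sum.inr true) z - V (Sum.inr true) z‖ ≤ D * 1 := u2 (Sum.inr true) z hz
    have e3 : bet t U z - bet s V z = ((t : ℂ) - s) * Ob1 z + (U (Sum.inr true) z - V (Sum.inr true) z) := by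
      unfold bet; ring
    rw [e3]
    refine (norm_add_le _ _).trans ?_
    rw [norm_mul, nt]
    have : |t - s| * ‖Ob1 z‖ ≤ |t - s| * C := by gcongr
    linarith
  · intro z hz
    have e1 := h2 z (str_mono hs1 hz)
    have e2 : ‖deriv (fun z => U (Sum.inr true) z - V (Sum.inr true) z) z‖ ≤ D * 1 := u3 (Sum.inr true) z hz
    rw [deriv_sub_of (hU _) (hV _) hz] at e2
    have e3 : deriv (bet t U) z - deriv (bet s V) z = ((t : ℂ) - s) * deriv Ob1 z +
        (deriv (U (Sum.inr true)) z - deriv (V (Sum.inr true)) z) := by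
      rw [deriv_bet t U (hU _) hz, deriv_bet s V (hV _) hz]; ring
    rw [e3]
    refine (norm_add_le _ _).trans ?_
    rw [norm_mul, nt]
    have : |t - s| * ‖deriv Ob1 z‖ ≤ |t - s| * C := by gcongr
    linarith
  · intro k z hz
    have e2 : ‖U (Sum.inl k) z - V (Sum.inl k) z‖ ≤ D * wt 3 k σ := u2 (Sum.inl k) z hz
    have e3 : wf c U k z - wf c V k z = U (Sum.inl k) z - V (Sum.inl k) z := by
      unfold wf; ring
    rw [e3]
    have e4 := wt_pos 3 k σ
    have : 0 ≤ C * |t - s| * wt 3 k σ := by positivity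
    linarith [add_mul (C * |t - s|) D (wt 3 k σ)]
  · intro k z hz
    have e2 : ‖deriv (fun z => U (Sum.inl k) z - V (Sum.inl k) z) z‖ ≤ D * wt 2 k σ := u3 (Sum.inl k) z hz
    rw [deriv_sub_of (hU _) (hV _) hz] at e2
    have e3 : deriv (wf c U k) z - deriv (wf c V k) z = deriv (U (Sum.inl k)) z - deriv (V (Sum.inl k)) z := by
      rw [deriv_wf c U k (hM k) (hU _) hz, deriv_wf c V k (hM k) (hV _) hz]; ring
    rw [e3]
    have e4 := wt_pos 2 k σ
    have : 0 ≤ C * |t - s| * wt 2 k σ := by positivity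
    linarith [add_mul (C * |t - s|) D (wt 2 k σ)]

theorem NN_symm (m : ℕ) (c t σ : ℝ) (hσ : 0 < σ) (V : (ℤ ⊕ Bool) → ℂ → ℂ) (hV : Sym pp σ V) :
    Sym pp σ (NN m c t V) := by
  have hβ : ∀ z ∈ Str σ, bet t V ((starRingEnd ℂ) z) = (starRingEnd ℂ) (bet t V z) := by
    intro z hz
    have e := hV (Sum.inr true) z hz
    unfold bet
    rw [map_add, map_mul, Complex.conj_ofReal, Ob1_symm]
    simp only [pp] at e
    rw [e]
  have hw : ∀ k, ∀ z ∈ Str σ, wf c V (-k) ((starRingEnd ℂ) z) = (starRingEnd ℂ) (wf c V k z) := by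
    intro k z hz
    have e := hV (Sum.inl k) z hz
    unfold wf
    rw [map_add, w0_symm]
    simp only [pp] at e
    rw [e]
  obtain ⟨-, -, q1, q2⟩ := N_symm m σ hσ (bet t V) (wf c V) hβ hw
  rintro (k | b) z hz
  · exact q1 k z hz
  · cases b
    · exact q2 z hz
    · show deriv (V (Sum.inr false)) ((starRingEnd ℂ) z) = (starRingEnd ℂ) (deriv (V (Sum.inr false)) z)
      have hz' := str_conj hz
      have ev : (V (Sum.inr false)) =ᶠ[𝓝 ((starRingEnd ℂ) z)]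
          (fun x => (starRingEnd ℂ) (V (Sum.inr false) ((starRingEnd ℂ) x))) := by
        filter_upwards [(str_open σ).mem_nhds hz'] with x hx
        have e := hV (Sum.inr false) x hx
        simp only [pp] at e
        rw [e]; simp
      rw [ev.deriv_eq]
      have := congrFun (deriv_conj_conj (f := V (Sum.inr false))) ((starRingEnd ℂ) z)
      simpa [Function.comp_def] using this

theorem Bd_mono {σ D D' : ℝ} (h : D ≤ D') {U : (ℤ ⊕ Bool) → ℂ → ℂ} (hU : Bd W0 W1 σ D U) : Bd W0 W1 σ D' U := by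
  have p0 : ∀ i, 0 ≤ W0 i σ := by
    rintro (k | b)
    · exact (wt_pos 3 k σ).le
    · exact zero_le_one
  have p1 : ∀ i, 0 ≤ W1 i σ := by
    rintro (k | b)
    · exact (wt_pos 2 k σ).le
    · exact zero_le_one
  exact ⟨hU.1, fun i z hz => (hU.2.1 i z hz).trans (mul_le_mul_of_nonneg_right h (p0 i)),
    fun i z hz => (hU.2.2 i z hz).trans (mul_le_mul_of_nonneg_right h (p1 i))⟩

theorem exists_sol (T : ℝ) (hT : 1 ≤ T) : ∃ σ B : ℝ, 0 < σ ∧ σ ≤ 1 / 2 ∧ 1 ≤ B ∧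
    ∀ (m : ℕ) (Λ : ℝ), 40 ≤ m → 1 ≤ Λ → B * Λ ≤ m → Nonempty (Sol T m Λ σ B) := by
  have hT0 : 0 < T := by linarith
  obtain ⟨C1, hC1, o1, o2, o3⟩ := Ob1_bound
  obtain ⟨M, hM1, hM⟩ := w0_bound
  have hTC : 1 ≤ T * C1 := by nlinarith
  obtain ⟨σ0, hσ0⟩ : ∃ σ0 : ℝ, σ0 = 1 / (4 * (T * C1)) := ⟨_, rfl⟩
  have hσ0p : 0 < σ0 := by rw [hσ0]; positivity
  have hσ01 : σ0 ≤ 1 := by rw [hσ0, div_le_one (by positivity)]; linarith
  have hσ0T : T * C1 * σ0 = 1 / 4 := by rw [hσ0]; field_simp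
  have hσT : ∀ σ, σ ≤ σ0 → T * C1 * σ ≤ 1 / 4 := by
    intro σ h
    rw [← hσ0T]
    exact mul_le_mul_of_nonneg_left h (by positivity)
  obtain ⟨K', hK', hN⟩ := N_est (T * C1 + 1) (M + 1) (by positivity) (by linarith)
  obtain ⟨K, hK⟩ : ∃ K : ℝ, K = K' * (C1 + 1) + 1 := ⟨_, rfl⟩
  have hKK : K' ≤ K := by rw [hK]; nlinarith
  have hKC : K' * C1 ≤ K := by rw [hK]; nlinarith
  have hK1 : 1 ≤ K := by rw [hK]; nlinarith
  have hK0 : 0 < K := by linarith
  have P0 : ∀ i σ, 0 < W0 i σ := by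
    rintro (k | b) σ
    · exact wt_pos 3 k σ
    · exact zero_lt_one
  have P1 : ∀ i σ, 0 < W1 i σ := by
    rintro (k | b) σ
    · exact wt_pos 2 k σ
    · exact zero_lt_one
  obtain ⟨C, hC, hck⟩ := abstract_ck W0 W1 2 σ0 K (1 / 4) (by norm_num) hσ0p hK0 (by norm_num) P0 P1
    (by
      rintro (k | b) σ' σ h1 h2 h3
      · exact wt_anti 3 k h2
      · exact le_refl _)
    (by
      rintro (k | b) σ' σ h1 h2 h3
      · exact wt_anti 2 k h2
      · exact le_refl _)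
    (by
      rintro (k | b) σ' σ h1 h2 h3
      · exact wt_loss k h2 (by linarith)
      · show (1 : ℝ) ≤ 2 / (σ - σ') * 1
        rw [mul_one, one_le_div (by linarith)]
        linarith)
  have hCT : 0 < C * T := by positivity
  obtain ⟨B, hB⟩ : ∃ B : ℝ, B = T * C1 + 1 + (M + 1) + C * T + C + C1 := ⟨_, rfl⟩
  have hB1 : 1 ≤ B := by rw [hB]; linarith
  refine ⟨σ0 / 2, B, by positivity, by linarith, hB1, ?_⟩
  intro m Λ hm hΛ hBΛ
  have hm0 : (0 : ℝ) < m := by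
    have : 0 < m := by omega
    exact_mod_cast this
  have hη0 : 0 ≤ Λ / (m : ℝ) := by positivity
  have hBη : B * (Λ / (m : ℝ)) ≤ 1 := by
    rw [← mul_div_assoc, div_le_one hm0]; exact hBΛ
  have hη1 : Λ / (m : ℝ) ≤ 1 := by nlinarith
  have hc0 : 0 ≤ Λ⁻¹ := by positivity
  have hc1 : Λ⁻¹ ≤ 1 := inv_le_one_of_one_le₀ hΛ
  have hM' := hM Λ⁻¹ hc0 hc1
  have hCη : C * (Λ / (m : ℝ) * T) ≤ 1 := by
    have : C * T ≤ B := by rw [hB]; linarith
    calc C * (Λ / (m : ℝ) * T) = (C * T) * (Λ / (m : ℝ)) := by ring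
      _ ≤ B * (Λ / (m : ℝ)) := mul_le_mul_of_nonneg_right this hη0
      _ ≤ 1 := hBη
  have hgood : ∀ t ∈ Icc 0 T, ∀ σ, 0 < σ → σ ≤ σ0 → ∀ U, Bd W0 W1 σ (1 / 4) U →
      Good σ (T * C1 + 1) (M + 1) (bet t U) (wf Λ⁻¹ U) := by
    intro t ht σ h0 hs U hU
    exact good_of hT0.le hC1 o1 o2 o3 hM' h0 (hs.trans hσ01) (hσT σ hs) ht hU
  obtain ⟨U, hU1, hU2, hU3, hU4⟩ := hck (NN m Λ⁻¹) T (Λ / (m : ℝ)) hT0 hη0 hCη
    (by
      intro t ht σ h0 hs U hU
      obtain ⟨n1, n2, -, -, n3, n4, -⟩ := hN m hm σ h0 (hs.trans hσ01) _ _ (hgood t ht σ h0 hs U hU)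
      refine ⟨?_, ?_⟩
      · rintro (k | b)
        · exact n1 k
        · cases b
          · exact n2
          · exact (hU.1 (Sum.inr false)).deriv (str_open σ)
      · rintro (k | b) z hz
        · exact (n3 k z hz).trans (mul_le_mul_of_nonneg_right hKK (wt_pos 2 k σ).le)
        · cases b
          · have e1 : Real.exp (-(10 * |z.re|)) ≤ 1 := by
              rw [Real.exp_le_one_iff]; have := abs_nonneg z.re; linarith
            refine (n4 z hz).trans ?_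
            show _ ≤ K * 1
            exact mul_le_mul hKK e1 (Real.exp_pos _).le hK0.le
          · have e1 : ‖deriv (U (Sum.inr false)) z‖ ≤ 1 / 4 * 1 := hU.2.2 (Sum.inr false) z hz
            show ‖deriv (U (Sum.inr false)) z‖ ≤ K * 1
            linarith)
    (by
      intro t ht σ h0 hs U V D hD hU hV hUV
      obtain ⟨-, -, -, -, -, -, n5⟩ := hN m hm σ h0 (hs.trans hσ01) _ _ (hgood t ht σ h0 hs U hU)
      have hcl := close_of (t := t) (s := t) o1 o2 (fun k => (hM' k).1) (hs.trans hσ01) hU.1 hV.1 hUV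
      simp only [sub_self, abs_zero, mul_zero, zero_add] at hcl
      obtain ⟨q1, q2⟩ := n5 _ _ D hD (hgood t ht σ h0 hs V hV) hcl
      rintro (k | b) z hz
      · refine (q1 k z hz).trans ?_
        have := wt_pos 2 k σ
        show _ ≤ K * D * wt 2 k σ
        gcongr
      · cases b
        · refine (q2 z hz).trans ?_
          show _ ≤ K * D * 1
          rw [mul_one]
          gcongr
        · have e2 : ‖deriv (fun z => U (Sum.inr false) z - V (Sum.inr false) z) z‖ ≤ D * 1 :=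
            hUV.2.2 (Sum.inr false) z hz
          rw [deriv_sub_of (hU.1 _) (hV.1 _) hz] at e2
          refine e2.trans ?_
          show _ ≤ K * D * 1
          nlinarith)
    (by
      intro t ht s hs' σ h0 hs U hU
      obtain ⟨-, -, -, -, -, -, n5⟩ := hN m hm σ h0 (hs.trans hσ01) _ _ (hgood t ht σ h0 hs U hU)
      have hUU : Bd W0 W1 σ 0 (fun i z => U i z - U i z) := by
        refine ⟨fun i => ?_, fun i z hz => ?_, fun i z hz => ?_⟩
        · simp only [sub_self]; exact differentiableOn_const _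
        · simp
        · simp
      have hcl := close_of (t := t) (s := s) o1 o2 (fun k => (hM' k).1) (hs.trans hσ01) hU.1 hU.1 hUU
      rw [add_zero] at hcl
      obtain ⟨q1, q2⟩ := n5 _ _ (C1 * |t - s|) (by positivity) (hgood s hs' σ h0 hs U hU) hcl
      rintro (k | b) z hz
      · refine (q1 k z hz).trans ?_
        have := wt_pos 2 k σ
        show _ ≤ K * |t - s| * wt 2 k σ
        rw [← mul_assoc]
        gcongr
      · cases b
        · refine (q2 z hz).trans ?_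
          show _ ≤ K * |t - s| * 1
          rw [mul_one, ← mul_assoc]
          gcongr
        · show ‖deriv (U (Sum.inr false)) z - deriv (U (Sum.inr false)) z‖ ≤ K * |t - s| * 1
          rw [sub_self, norm_zero]; positivity)
  have hsym := hU4 pp (fun t ht σ h0 hs V hV hsymV => NN_symm m Λ⁻¹ t σ h0 V hsymV)
  have hUb : ∀ t ∈ Icc 0 T, Bd W0 W1 (σ0 / 2) (1 / 4) (U t) := by
    intro t ht
    refine Bd_mono ?_ (hU1 t ht)
    linarith
  have hsub : 1 / 4 * (C * (Λ / (m : ℝ) * T)) ≤ B * (Λ / (m : ℝ)) := by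
    have : 1 / 4 * (C * T) ≤ B := by rw [hB]; linarith
    calc 1 / 4 * (C * (Λ / (m : ℝ) * T)) = (1 / 4 * (C * T)) * (Λ / (m : ℝ)) := by ring
      _ ≤ _ := mul_le_mul_of_nonneg_right this hη0
  have hσ0' : 0 < σ0 / 2 := by positivity
  have hσ2 : σ0 / 2 ≤ σ0 := by linarith
  have hgoodU : ∀ t ∈ Icc 0 T, Good (σ0 / 2) B B (bet t (U t)) (wf Λ⁻¹ (U t)) := by
    intro t ht
    exact good_mono (by rw [hB]; linarith) (by rw [hB]; linarith) (hgood t ht _ hσ0' hσ2 (U t) (hUb t ht))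
  refine ⟨{ w := fun t => wf Λ⁻¹ (U t), Th := fun t => U t (Sum.inr false), a := fun t => U t (Sum.inr true),
            good := hgoodU, thd := fun t ht => (hUb t ht).1 _, close_w := ?_, close_Th := ?_, close_a := ?_,
            lip := ?_, lip_Th := ?_, eq_w := ?_, eq_Th := ?_, eq_a := ?_, symm_w := ?_, symm_Th := ?_, symm_a := ?_ }⟩
  · intro t ht k z hz
    have e := (hU1 t ht).2.1 (Sum.inl k) z hz
    have e2 : wf Λ⁻¹ (U t) k z - w0 Λ⁻¹ k z = U t (Sum.inl k) z := by unfold wf; ring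
    rw [e2]
    exact e.trans (mul_le_mul_of_nonneg_right hsub (wt_pos 3 k _).le)
  · intro t ht z hz
    have e : ‖U t (Sum.inr false) z‖ ≤ 1 / 4 * (C * (Λ / (m : ℝ) * T)) * 1 := (hU1 t ht).2.1 (Sum.inr false) z hz
    show ‖U t (Sum.inr false) z‖ ≤ _
    linarith
  · intro t ht z hz
    have e : ‖U t (Sum.inr true) z‖ ≤ 1 / 4 * (C * (Λ / (m : ℝ) * T)) * 1 := (hU1 t ht).2.1 (Sum.inr true) z hz
    show ‖U t (Sum.inr true) z‖ ≤ _
    linarith
  · intro t ht s hs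
    have hcl := close_of (t := t) (s := s) o1 o2 (fun k => (hM' k).1) (hσ2.trans hσ01) (hUb t ht).1 (hUb s hs).1
      (hU2 t ht s hs)
    have hle : C1 * |t - s| + C * (Λ / (m : ℝ)) * |t - s| ≤ B * |t - s| := by
      have : C1 + C * (Λ / (m : ℝ)) ≤ B := by
        have h1 : C * (Λ / (m : ℝ)) ≤ C := by nlinarith
        rw [hB]; linarith
      rw [← add_mul]
      exact mul_le_mul_of_nonneg_right this (abs_nonneg _)
    exact ⟨fun z hz => (hcl.b0 z hz).trans hle, fun z hz => (hcl.b1 z hz).trans hle,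
      fun k z hz => (hcl.w0 k z hz).trans (mul_le_mul_of_nonneg_right hle (wt_pos 3 k _).le),
      fun k z hz => (hcl.w1 k z hz).trans (mul_le_mul_of_nonneg_right hle (wt_pos 2 k _).le)⟩
  · intro t ht s hs z hz
    have hle : C * (Λ / (m : ℝ)) * |t - s| * 1 ≤ B * |t - s| := by
      have : C * (Λ / (m : ℝ)) ≤ B := by
        have h1 : C * (Λ / (m : ℝ)) ≤ C := by nlinarith
        rw [hB]; linarith
      rw [mul_one]
      exact mul_le_mul_of_nonneg_right this (abs_nonneg _)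
    obtain ⟨u1, u2, u3⟩ := hU2 t ht s hs
    refine ⟨(u2 (Sum.inr false) z hz).trans hle, ?_⟩
    have e2 := u3 (Sum.inr false) z hz
    rw [deriv_sub_of ((hUb t ht).1 _) ((hUb s hs).1 _) hz] at e2
    exact e2.trans hle
  · intro t ht k z hz
    have e := hU3 t ht (Sum.inl k) z hz
    show w0 Λ⁻¹ k z + U t (Sum.inl k) z = _
    rw [e]
    rfl
  · intro t ht z hz
    exact hU3 t ht (Sum.inr false) z hz
  · intro t ht z hz
    exact hU3 t ht (Sum.inr true) z hz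
  · intro t ht k z hz
    have e := hsym t ht (Sum.inl k) z hz
    show w0 Λ⁻¹ (-k) _ + U t (Sum.inl (-k)) _ = (starRingEnd ℂ) (w0 Λ⁻¹ k z + U t (Sum.inl k) z)
    rw [map_add, w0_symm]
    simp only [pp] at e
    rw [e]
  · intro t ht z hz
    exact hsym t ht (Sum.inr false) z hz
  · intro t ht z hz
    exact hsym t ht (Sum.inr true) z hz

end JD3

end Pool.Agent.Helper383.NI
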