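import Mathlib

/-! Definitions for the norm inflation project (2D Euler, H^s, 0<s<1). -/

open Complex MeasureTheory Set Filter Topology

namespace Pool.Agent.Helper383.NI

noncomputable section

/-- open horizontal strip -/
def Str (σ : ℝ) : Set ℂ := {z | |z.im| < σ}

/-- base angular velocity in the variable `x = log r` and its derivative -/
def Ob (z : ℂ) : ℂ := Complex.exp (-2 * Complex.cosh z)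
def Ob1 (z : ℂ) : ℂ := -2 * Complex.sinh z * Complex.exp (-2 * Complex.cosh z)
/-- base vorticity `(d/dx + 2) Ob` -/
def Obw (z : ℂ) : ℂ := 2 * Ob z + Ob1 z

/-- weights -/
def wt (p : ℕ) (k : ℤ) (σ : ℝ) : ℝ := Real.exp (-(σ * |(k : ℝ)|)) / (1 + |(k : ℝ)|) ^ p

/-- initial value of the rescaled vorticity modes (`c = 1/Λ`) -/
def w0 (c : ℝ) (k : ℤ) (z : ℂ) : ℂ :=
  if k = 0 then (c : ℂ) * (Complex.exp (Complex.cosh z) * Obw z)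
  else if k = 1 ∨ k = -1 then Complex.exp (-Complex.cosh z) else 0

/-- vorticity modes `W = e^{-cosh} w` -/
def Ws (w : ℤ → ℂ → ℂ) (k : ℤ) (z : ℂ) : ℂ := Complex.exp (-Complex.cosh z) * w k z

/-- the one-sided kernel operator -/
def Qop (n ς τ : ℝ) (β f : ℂ → ℂ) (x : ℂ) : ℂ :=
  ∫ y in Ioi (0 : ℝ), Complex.exp (((-y + 2 * ς * y / n : ℝ) : ℂ)
      - I * ((ς * τ : ℝ) : ℂ) * ∫ s in (0 : ℝ)..y, β (x + ((ς * s / n : ℝ) : ℂ)))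
    * f (x + ((ς * y / n : ℝ) : ℂ))

def sg (k : ℤ) : ℝ := if 0 < k then 1 else -1
def nk (m : ℕ) (k : ℤ) : ℝ := (m : ℝ) * |(k : ℝ)|

/-- stream function modes, velocity modes -/
def Gk (m : ℕ) (β : ℂ → ℂ) (w : ℤ → ℂ → ℂ) (k : ℤ) (z : ℂ) : ℂ :=
  if k = 0 then 0 else
  -(1 / (2 * (k : ℂ) ^ 2)) * (Qop (nk m k) 1 (sg k) β (Ws w k) z
    + Qop (nk m k) (-1) (sg k) β (Ws w k) z)
def Hk (m : ℕ) (β : ℂ → ℂ) (w : ℤ → ℂ → ℂ) (k : ℤ) (z : ℂ) : ℂ :=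
  if k = 0 then 0 else
  -(1 / (2 * ((|(k : ℝ)| : ℝ) : ℂ))) * (Qop (nk m k) 1 (sg k) β (Ws w k) z
    - Qop (nk m k) (-1) (sg k) β (Ws w k) z)
def gk (m : ℕ) (β : ℂ → ℂ) (w : ℤ → ℂ → ℂ) (k : ℤ) (z : ℂ) : ℂ :=
  deriv (Gk m β w k) z + 2 * Gk m β w k z
def hk (m : ℕ) (β : ℂ → ℂ) (w : ℤ → ℂ → ℂ) (k : ℤ) (z : ℂ) : ℂ :=
  I * (k : ℂ) * Gk m β w k z

/-- right-hand sides of the evolution system -/
def NW (m : ℕ) (β : ℂ → ℂ) (w : ℤ → ℂ → ℂ) (k : ℤ) (z : ℂ) : ℂ :=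
  -∑' j : ℤ, (gk m β w j z * (I * ((k - j : ℤ) : ℂ) * w (k - j) z)
    - hk m β w j z * (deriv (w (k - j)) z - Complex.sinh z * w (k - j) z))
def NT (m : ℕ) (β : ℂ → ℂ) (w : ℤ → ℂ → ℂ) (z : ℂ) : ℂ :=
  ∑' j : ℤ, ((deriv (hk m β w j) z + 2 * hk m β w j z) * Hk m β w (-j) z
    + hk m β w j z * (deriv (Hk m β w (-j)) z + 2 * Hk m β w (-j) z))

/-- bounds on a strip -/
structure Good (σ B M : ℝ) (β : ℂ → ℂ) (w : ℤ → ℂ → ℂ) : Prop where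
  bd : DifferentiableOn ℂ β (Str σ)
  b0 : ∀ z ∈ Str σ, ‖β z‖ ≤ B
  bi : ∀ z ∈ Str σ, |(β z).im| ≤ 1 / 2
  b1 : ∀ z ∈ Str σ, ‖deriv β z‖ ≤ B
  wd : ∀ k, DifferentiableOn ℂ (w k) (Str σ)
  w0 : ∀ k, ∀ z ∈ Str σ, ‖w k z‖ ≤ M * wt 3 k σ
  w1 : ∀ k, ∀ z ∈ Str σ, ‖deriv (w k) z‖ ≤ M * wt 2 k σ

structure Close (σ δ : ℝ) (β : ℂ → ℂ) (w : ℤ → ℂ → ℂ) (β' : ℂ → ℂ) (w' : ℤ → ℂ → ℂ) : Prop where
  b0 : ∀ z ∈ Str σ, ‖β z - β' z‖ ≤ δ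
  b1 : ∀ z ∈ Str σ, ‖deriv β z - deriv β' z‖ ≤ δ
  w0 : ∀ k, ∀ z ∈ Str σ, ‖w k z - w' k z‖ ≤ δ * wt 3 k σ
  w1 : ∀ k, ∀ z ∈ Str σ, ‖deriv (w k) z - deriv (w' k) z‖ ≤ δ * wt 2 k σ

/-- abstract weighted bounds used in the abstract Cauchy-Kovalevskaya theorem -/
def Bd {ι : Type} (wt0 wt1 : ι → ℝ → ℝ) (σ M : ℝ) (u : ι → ℂ → ℂ) : Prop :=
  (∀ i, DifferentiableOn ℂ (u i) (Str σ)) ∧
  (∀ i, ∀ z ∈ Str σ, ‖u i z‖ ≤ M * wt0 i σ) ∧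
  (∀ i, ∀ z ∈ Str σ, ‖deriv (u i) z‖ ≤ M * wt1 i σ)

/-- A solution of the model system on `[0,T]` in the strip of half-width `σ`.
`eta = Λ / m`. -/
structure Sol (T : ℝ) (m : ℕ) (Λ σ B : ℝ) where
  w : ℝ → ℤ → ℂ → ℂ
  Th : ℝ → ℂ → ℂ
  a : ℝ → ℂ → ℂ
  good : ∀ t ∈ Icc 0 T, Good σ B B (fun z => (t : ℂ) * Ob1 z + a t z) (w t)
  thd : ∀ t ∈ Icc 0 T, DifferentiableOn ℂ (Th t) (Str σ)
  close_w : ∀ t ∈ Icc 0 T, ∀ k, ∀ z ∈ Str σ, ‖w t k z - w0 (Λ⁻¹) k z‖ ≤ B * (Λ / m) * wt 3 k σ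
  close_Th : ∀ t ∈ Icc 0 T, ∀ z ∈ Str σ, ‖Th t z‖ ≤ B * (Λ / m)
  close_a : ∀ t ∈ Icc 0 T, ∀ z ∈ Str σ, ‖a t z‖ ≤ B * (Λ / m)
  lip : ∀ t ∈ Icc 0 T, ∀ s ∈ Icc 0 T, Close σ (B * |t - s|)
    (fun z => (t : ℂ) * Ob1 z + a t z) (w t) (fun z => (s : ℂ) * Ob1 z + a s z) (w s)
  lip_Th : ∀ t ∈ Icc 0 T, ∀ s ∈ Icc 0 T, ∀ z ∈ Str σ,
    ‖Th t z - Th s z‖ ≤ B * |t - s| ∧ ‖deriv (Th t) z - deriv (Th s) z‖ ≤ B * |t - s|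
  eq_w : ∀ t ∈ Icc 0 T, ∀ k, ∀ z ∈ Str σ, w t k z = w0 (Λ⁻¹) k z
    + ((Λ / m : ℝ) : ℂ) * ∫ τ in (0 : ℝ)..t, NW m (fun z => (τ : ℂ) * Ob1 z + a τ z) (w τ) k z
  eq_Th : ∀ t ∈ Icc 0 T, ∀ z ∈ Str σ, Th t z =
    ((Λ / m : ℝ) : ℂ) * ∫ τ in (0 : ℝ)..t, NT m (fun z => (τ : ℂ) * Ob1 z + a τ z) (w τ) z
  eq_a : ∀ t ∈ Icc 0 T, ∀ z ∈ Str σ, a t z =
    ((Λ / m : ℝ) : ℂ) * ∫ τ in (0 : ℝ)..t, deriv (Th τ) z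
  symm_w : ∀ t ∈ Icc 0 T, ∀ k, ∀ z ∈ Str σ,
    w t (-k) ((starRingEnd ℂ) z) = (starRingEnd ℂ) (w t k z)
  symm_Th : ∀ t ∈ Icc 0 T, ∀ z ∈ Str σ, Th t ((starRingEnd ℂ) z) = (starRingEnd ℂ) (Th t z)
  symm_a : ∀ t ∈ Icc 0 T, ∀ z ∈ Str σ, a t ((starRingEnd ℂ) z) = (starRingEnd ℂ) (a t z)

/-- mean flux series -/
def PP (m : ℕ) (β : ℂ → ℂ) (w : ℤ → ℂ → ℂ) (z : ℂ) : ℂ :=
  ∑' j : ℤ, hk m β w j z * Ws w (-j) z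

namespace Sol

variable {T : ℝ} {m : ℕ} {Λ σ B : ℝ}

/-- `β = ∂_x α` -/
def be (S : Sol T m Λ σ B) (t : ℝ) (z : ℂ) : ℂ := (t : ℂ) * Ob1 z + S.a t z
/-- mean angular velocity -/
def Om (S : Sol T m Λ σ B) (t : ℝ) (z : ℂ) : ℂ := Ob z + ((Λ / m : ℝ) : ℂ) * S.Th t z
/-- accumulated mean angle -/
def al (S : Sol T m Λ σ B) (t : ℝ) (z : ℂ) : ℂ :=
  (t : ℂ) * Ob z + ((Λ / m : ℝ) : ℂ) * ∫ τ in (0 : ℝ)..t, S.Th τ z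

/-- modes (index `n`, multiples of `m`) of the vorticity in the plane -/
def cw (S : Sol T m Λ σ B) (t : ℝ) (n : ℤ) (z : ℂ) : ℂ :=
  if (m : ℤ) ∣ n then (Λ : ℂ) * Ws (S.w t) (n / m) z * Complex.exp (-(I * (n : ℂ) * S.al t z)) else 0
/-- modes of its time derivative -/
def ct (S : Sol T m Λ σ B) (t : ℝ) (n : ℤ) (z : ℂ) : ℂ :=
  if (m : ℤ) ∣ n then (Λ : ℂ) * (((Λ / m : ℝ) : ℂ) * (Complex.exp (-Complex.cosh z)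
      * NW m (S.be t) (S.w t) (n / m) z) - I * (n : ℂ) * S.Om t z * Ws (S.w t) (n / m) z)
    * Complex.exp (-(I * (n : ℂ) * S.al t z)) else 0
/-- modes of `U = z * conj u` -/
def cu (S : Sol T m Λ σ B) (t : ℝ) (n : ℤ) (z : ℂ) : ℂ :=
  if n = 0 then -(I * Complex.exp (2 * z) * S.Om t z)
  else if (m : ℤ) ∣ n then -((Λ / m : ℝ) : ℂ) * Complex.exp (2 * z)
      * (hk m (S.be t) (S.w t) (n / m) z + I * Hk m (S.be t) (S.w t) (n / m) z)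
      * Complex.exp (-(I * (n : ℂ) * S.al t z)) else 0

end Sol

/-- plane function with given angular modes (as functions of `x = log r`), zero at the origin -/
def hc (c : ℤ → ℝ → ℂ) (z : ℂ) : ℂ :=
  if z = 0 then 0 else ∑' k : ℤ, c k (Real.log ‖z‖) * (z / ‖z‖) ^ k

/-- modes of `∂_z` and `∂_{\bar z}` of `hc c` -/
def dz (c : ℤ → ℝ → ℂ) (k : ℤ) (x : ℝ) : ℂ :=
  (1 / 2) * Real.exp (-x) * (deriv (c (k + 1)) x + ((k + 1 : ℤ) : ℂ) * c (k + 1) x)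
def dzb (c : ℤ → ℝ → ℂ) (k : ℤ) (x : ℝ) : ℂ :=
  (1 / 2) * Real.exp (-x) * (deriv (c (k - 1)) x - ((k - 1 : ℤ) : ℂ) * c (k - 1) x)

/-- rapidly decreasing families of modes (uniformly on `[0,T]`) -/
structure RDt (T : ℝ) (c : ℝ → ℤ → ℝ → ℂ) : Prop where
  smooth : ∀ t ∈ Icc 0 T, ∀ k, ContDiff ℝ (⊤ : ℕ∞) (c t k)
  bound : ∀ j N : ℕ, ∃ C : ℝ, ∀ t ∈ Icc 0 T, ∀ k x,
    ‖iteratedDeriv j (c t k) x‖ ≤ C * Real.exp (-(N * |x|)) / (1 + |(k : ℝ)|) ^ N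
  cont : ∀ j : ℕ, ∀ k x, ContinuousOn (fun t => iteratedDeriv j (c t k) x) (Icc 0 T)

/-- real-linear map `w ↦ A w + B conj w` -/
def dfm (A B : ℂ) : ℂ →L[ℝ] ℂ :=
  A • (ContinuousLinearMap.id ℝ ℂ) + B • (Complex.conjCLE : ℂ →L[ℝ] ℂ)

/-- Cauchy transform: solves `∂_{\bar z} (CT g) = g` -/
def CT (g : ℂ → ℂ) (z : ℂ) : ℂ := (1 / (Real.pi : ℂ)) * ∫ w : ℂ, g (z - w) / w

/-- squared Sobolev norm of a plane vector field (`ℂ = ℝ²`), by the Fourier transform of the two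
real components -/
def hsq (s : ℝ) (f : ℂ → ℂ) : ENNReal :=
  ∫⁻ ξ : ℂ, ENNReal.ofReal ((1 + ‖ξ‖ ^ 2) ^ s) *
    (‖FourierTransform.fourier (fun z : ℂ => ((f z).re : ℂ)) ξ‖ₑ ^ 2
      + ‖FourierTransform.fourier (fun z : ℂ => ((f z).im : ℂ)) ξ‖ₑ ^ 2)

/-- squared homogeneous Sobolev norm -/
def hdot (s : ℝ) (f : ℂ → ℂ) : ENNReal :=
  ∫⁻ ξ : ℂ, ENNReal.ofReal (‖ξ‖ ^ (2 * s)) *
    (‖FourierTransform.fourier (fun z : ℂ => ((f z).re : ℂ)) ξ‖ₑ ^ 2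
      + ‖FourierTransform.fourier (fun z : ℂ => ((f z).im : ℂ)) ξ‖ₑ ^ 2)

/-- base vorticity and base complex velocity in the plane -/
def wb : ℂ → ℂ := hc (fun n (x : ℝ) => if n = 0 then Obw (x : ℂ) else 0)
def vb : ℂ → ℂ := hc (fun n (x : ℝ) => if n = -1 then -(I * (Real.exp x : ℂ) * Ob (x : ℂ)) else 0)

/-- smooth solutions of the planar incompressible Euler equations on `[0,T]`
(`ℂ = ℝ²`, velocity `u`, pressure `p`) -/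
structure IsEulerSolution (T : ℝ) (u : ℝ → ℂ → ℂ) (p : ℝ → ℂ → ℝ) : Prop where
  smooth : ∀ t ∈ Icc 0 T, ContDiff ℝ (⊤ : ℕ∞) (u t)
  integrable : ∀ t ∈ Icc 0 T, Integrable (u t)
  sobolev : ∀ t ∈ Icc 0 T, ∀ n : ℕ, MemLp (iteratedFDeriv ℝ n (u t)) 2
  cont : ContinuousOn (fun q : ℝ × ℂ => u q.1 q.2) (Icc 0 T ×ˢ univ)
  cont_space : ContinuousOn (fun q : ℝ × ℂ => fderiv ℝ (u q.1) q.2) (Icc 0 T ×ˢ univ)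
  bound : ∃ C : ℝ, ∀ t ∈ Icc 0 T, ∀ z, ‖u t z‖ ≤ C / (1 + ‖z‖) ^ 2 ∧
    ‖fderiv ℝ (u t) z‖ ≤ C / (1 + ‖z‖) ^ 2
  pressure : ∀ t ∈ Icc 0 T, ContDiff ℝ 1 (p t)
  divfree : ∀ t ∈ Icc 0 T, ∀ z, (fderiv ℝ (u t) z 1).re + (fderiv ℝ (u t) z I).im = 0
  momentum : ∀ t ∈ Icc 0 T, ∀ z, HasDerivWithinAt (fun τ => u τ z)
    (-(fderiv ℝ (u t) z (u t z)) - gradient (p t) z) (Icc 0 T) t
  cont_time : ContinuousOn (fun q : ℝ × ℂ =>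
    -(fderiv ℝ (u q.1) q.2 (u q.1 q.2)) - gradient (p q.1) q.2) (Icc 0 T ×ˢ univ)

namespace Sol

variable {T : ℝ} {m : ℕ} {Λ σ B : ℝ}

/-- vorticity, its time derivative, and complex velocity `v = u₁ - i u₂` in the plane -/
def om (S : Sol T m Λ σ B) (t : ℝ) : ℂ → ℂ := hc (fun n (x : ℝ) => S.cw t n (x : ℂ))
def omt (S : Sol T m Λ σ B) (t : ℝ) : ℂ → ℂ := hc (fun n (x : ℝ) => S.ct t n (x : ℂ))
def vel (S : Sol T m Λ σ B) (t : ℝ) (z : ℂ) : ℂ := -(I / 2) * CT (S.om t) z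

end Sol

end

end Pool.Agent.Helper383.NI
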