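import Pool.Agent.Helper383.NI.Defs
import Pool.Agent.Helper383.NI.D0
import Pool.Agent.Helper383.NI.B1
import Pool.Agent.Helper383.NI.B3

open Complex MeasureTheory Set Filter Topology

namespace Pool.Agent.Helper383.NI

open JD0 (E_bound)
open JB1 (Qop_basic)
open JB3 (Qop_ode)

namespace JE1

theorem e1_isOpen_Str (σ : ℝ) : IsOpen (Str σ) := by
  unfold Str
  exact isOpen_lt (continuous_abs.comp Complex.continuous_im) continuous_const

theorem e1_wt_le (p : ℕ) (k : ℤ) (σ : ℝ) (hσ : 0 < σ) : wt p k σ ≤ 1 := by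
  unfold wt
  have h1 : Real.exp (-(σ * |(k : ℝ)|)) ≤ 1 := by
    rw [Real.exp_le_one_iff]
    have := mul_nonneg hσ.le (abs_nonneg (k : ℝ))
    linarith
  have h2 : (1 : ℝ) ≤ (1 + |(k : ℝ)|) ^ p := one_le_pow₀ (by linarith [abs_nonneg (k : ℝ)])
  rw [div_le_one (by linarith)]
  linarith

theorem e1_sinh (z : ℂ) : ‖Complex.sinh z‖ ≤ Real.exp |z.re| := by
  rw [Complex.sinh]
  have h1 : ‖Complex.exp z‖ ≤ Real.exp |z.re| := by
    rw [Complex.norm_exp]
    exact Real.exp_le_exp.2 (le_abs_self _)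
  have h2 : ‖Complex.exp (-z)‖ ≤ Real.exp |z.re| := by
    rw [Complex.norm_exp]
    exact Real.exp_le_exp.2 (by rw [Complex.neg_re]; exact neg_le_abs _)
  have h3 : ‖Complex.exp z - Complex.exp (-z)‖ ≤ Real.exp |z.re| + Real.exp |z.re| :=
    (norm_sub_le _ _).trans (add_le_add h1 h2)
  rw [norm_div]
  have h4 : ‖(2 : ℂ)‖ = 2 := by simp
  rw [h4]
  linarith

theorem e1_Ws (σ B M : ℝ) (β : ℂ → ℂ) (w : ℤ → ℂ → ℂ) (hσ : 0 < σ)
    (hσ1 : σ ≤ 1) (hM : 0 ≤ M) (hg : Good σ B M β w) : ∃ C : ℝ, 0 ≤ C ∧ ∀ k,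
    DifferentiableOn ℂ (Ws w k) (Str σ) ∧
    (∀ z ∈ Str σ, ‖Ws w k z‖ ≤ C * Real.exp (-(5 * |z.re|))) ∧
    (∀ z ∈ Str σ, ‖deriv (Ws w k) z‖ ≤ C * Real.exp (-(5 * |z.re|))) := by
  obtain ⟨C, hC, hE⟩ := E_bound
  have hCM : 0 ≤ C * M := mul_nonneg hC.le hM
  have hE' : ∀ z ∈ Str σ, ‖Complex.exp (-Complex.cosh z)‖ ≤ C * Real.exp (-(20 * |z.re|)) := by
    intro z hz
    have hz1 : z ∈ Str 1 := lt_of_lt_of_le hz hσ1
    have h1 := hE z hz1
    have h2 : 0 < Real.exp (20 * |z.re|) := Real.exp_pos _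
    rw [Real.exp_neg, ← div_eq_mul_inv, le_div_iff₀ h2]
    exact h1
  have hdE : ∀ z : ℂ, HasDerivAt (fun z => Complex.exp (-Complex.cosh z))
      (Complex.exp (-Complex.cosh z) * (-Complex.sinh z)) z := by
    intro z
    exact (Complex.hasDerivAt_cosh z).neg.cexp
  have hx : ∀ z : ℂ, Real.exp (-(20 * |z.re|)) * Real.exp |z.re| ≤ Real.exp (-(5 * |z.re|)) := by
    intro z
    rw [← Real.exp_add]
    exact Real.exp_le_exp.2 (by linarith [abs_nonneg z.re])
  have hx1 : ∀ z : ℂ, Real.exp (-(20 * |z.re|)) ≤ Real.exp (-(5 * |z.re|)) := by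
    intro z
    exact Real.exp_le_exp.2 (by linarith [abs_nonneg z.re])
  refine ⟨2 * (C * M), by linarith, fun k => ⟨?_, ?_, ?_⟩⟩
  · intro z hz
    exact (((hdE z).differentiableAt).differentiableWithinAt).mul (hg.wd k z hz)
  · intro z hz
    unfold Ws
    rw [norm_mul]
    have h1 := hE' z hz
    have h2 : ‖w k z‖ ≤ M := (hg.w0 k z hz).trans (by
      have := mul_le_mul_of_nonneg_left (e1_wt_le 3 k σ hσ) hM
      linarith)
    calc ‖Complex.exp (-Complex.cosh z)‖ * ‖w k z‖ ≤ (C * Real.exp (-(20 * |z.re|))) * M :=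
          mul_le_mul h1 h2 (norm_nonneg _) (mul_nonneg hC.le (Real.exp_pos _).le)
      _ = (C * M) * Real.exp (-(20 * |z.re|)) := by ring
      _ ≤ (C * M) * Real.exp (-(5 * |z.re|)) := mul_le_mul_of_nonneg_left (hx1 z) hCM
      _ ≤ 2 * (C * M) * Real.exp (-(5 * |z.re|)) := by
          have := mul_nonneg hCM (Real.exp_pos (-(5 * |z.re|))).le
          linarith
  · intro z hz
    have hwd : DifferentiableAt ℂ (w k) z := (hg.wd k).differentiableAt ((e1_isOpen_Str σ).mem_nhds hz)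
    have h0 : HasDerivAt (Ws w k) (Complex.exp (-Complex.cosh z) * (-Complex.sinh z) * w k z
        + Complex.exp (-Complex.cosh z) * deriv (w k) z) z :=
      (hdE z).mul hwd.hasDerivAt
    rw [h0.deriv]
    have h1 := hE' z hz
    have h2 : ‖w k z‖ ≤ M := (hg.w0 k z hz).trans (by
      have := mul_le_mul_of_nonneg_left (e1_wt_le 3 k σ hσ) hM
      linarith)
    have h3 : ‖deriv (w k) z‖ ≤ M := (hg.w1 k z hz).trans (by
      have := mul_le_mul_of_nonneg_left (e1_wt_le 2 k σ hσ) hM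
      linarith)
    have h4 := e1_sinh z
    refine (norm_add_le _ _).trans ?_
    rw [norm_mul, norm_mul, norm_mul, norm_neg]
    have h5 : ‖Complex.exp (-Complex.cosh z)‖ * ‖Complex.sinh z‖ * ‖w k z‖ ≤
        (C * Real.exp (-(20 * |z.re|))) * Real.exp |z.re| * M :=
      mul_le_mul (mul_le_mul h1 h4 (norm_nonneg _) (mul_nonneg hC.le (Real.exp_pos _).le)) h2
        (norm_nonneg _) (mul_nonneg (mul_nonneg hC.le (Real.exp_pos _).le) (Real.exp_pos _).le)
    have h6 : ‖Complex.exp (-Complex.cosh z)‖ * ‖deriv (w k) z‖ ≤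
        (C * Real.exp (-(20 * |z.re|))) * M :=
      mul_le_mul h1 h3 (norm_nonneg _) (mul_nonneg hC.le (Real.exp_pos _).le)
    have h7 : (C * Real.exp (-(20 * |z.re|))) * Real.exp |z.re| * M ≤
        (C * M) * Real.exp (-(5 * |z.re|)) := by
      have := mul_le_mul_of_nonneg_left (hx z) hCM
      calc (C * Real.exp (-(20 * |z.re|))) * Real.exp |z.re| * M
          = C * M * (Real.exp (-(20 * |z.re|)) * Real.exp |z.re|) := by ring
        _ ≤ _ := this
    have h8 : (C * Real.exp (-(20 * |z.re|))) * M ≤ (C * M) * Real.exp (-(5 * |z.re|)) := by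
      have := mul_le_mul_of_nonneg_left (hx1 z) hCM
      calc (C * Real.exp (-(20 * |z.re|))) * M = C * M * (Real.exp (-(20 * |z.re|))) := by ring
        _ ≤ _ := this
    linarith

theorem GH_ode (m : ℕ) (σ B M : ℝ) (β : ℂ → ℂ) (w : ℤ → ℂ → ℂ) (hm : 40 ≤ m) (hσ : 0 < σ)
    (hσ1 : σ ≤ 1) (hB : 0 ≤ B) (hM : 0 ≤ M) (hg : Good σ B M β w) :
    ∀ k, ∀ z ∈ Str σ,
      gk m β w k z = (m : ℂ) * (Hk m β w k z + β z * hk m β w k z) ∧
      (k ≠ 0 → deriv (Hk m β w k) z + 2 * Hk m β w k z =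
        (m : ℂ) * ((k : ℂ) ^ 2 * Gk m β w k z + Ws w k z)
        + I * (k : ℂ) * (m : ℂ) * β z * Hk m β w k z) := by
  intro k z hz
  by_cases hk : k = 0
  · subst hk
    refine ⟨?_, fun h => absurd rfl h⟩
    have h1 : Gk m β w 0 = fun _ => 0 := by
      funext z
      simp [Gk]
    have h2 : Hk m β w 0 z = 0 := by simp [Hk]
    unfold gk NI.hk
    rw [h1, h2]
    simp
  · obtain ⟨C, hC, hW⟩ := e1_Ws σ B M β w hσ hσ1 hM hg
    obtain ⟨hWd, hW0, hW1⟩ := hW k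
    have hk1 : (1 : ℝ) ≤ |(k : ℝ)| := by
      have h1 : (1 : ℤ) ≤ |k| := Int.one_le_abs hk
      have h2 : ((1 : ℤ) : ℝ) ≤ ((|k| : ℤ) : ℝ) := by exact_mod_cast h1
      rw [Int.cast_abs] at h2
      simpa using h2
    have hn : (40 : ℝ) ≤ nk m k := by
      unfold nk
      have h1 : (40 : ℝ) ≤ (m : ℝ) := by exact_mod_cast hm
      nlinarith
    have hτ : sg k = 1 ∨ sg k = -1 := by
      unfold sg
      split_ifs
      · exact Or.inl rfl
      · exact Or.inr rfl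
    obtain ⟨dP, -, fP, -⟩ := Qop_basic (nk m k) 1 (sg k) σ B C C β (Ws w k) hn (Or.inl rfl) hτ hσ hB
      hC hC hg.bd hg.b0 hg.bi hg.b1 hWd hW0 hW1
    obtain ⟨dN, -, fN, -⟩ := Qop_basic (nk m k) (-1) (sg k) σ B C C β (Ws w k) hn (Or.inr rfl) hτ hσ hB
      hC hC hg.bd hg.b0 hg.bi hg.b1 hWd hW0 hW1
    have oP := Qop_ode (nk m k) 1 (sg k) σ B C C β (Ws w k) hn (Or.inl rfl) hτ hσ hB
      hC hC hg.bd hg.b0 hg.bi hg.b1 hWd hW0 hW1 fP z hz
    have oN := Qop_ode (nk m k) (-1) (sg k) σ B C C β (Ws w k) hn (Or.inr rfl) hτ hσ hB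
      hC hC hg.bd hg.b0 hg.bi hg.b1 hWd hW0 hW1 fN z hz
    have hP : DifferentiableAt ℂ (Qop (nk m k) 1 (sg k) β (Ws w k)) z :=
      dP.differentiableAt ((e1_isOpen_Str σ).mem_nhds hz)
    have hN : DifferentiableAt ℂ (Qop (nk m k) (-1) (sg k) β (Ws w k)) z :=
      dN.differentiableAt ((e1_isOpen_Str σ).mem_nhds hz)
    have hG : Gk m β w k = fun z => -(1 / (2 * (k : ℂ) ^ 2)) *
        (Qop (nk m k) 1 (sg k) β (Ws w k) z + Qop (nk m k) (-1) (sg k) β (Ws w k) z) := by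
      funext z
      simp only [Gk, if_neg hk]
    have hH : Hk m β w k = fun z => -(1 / (2 * ((|(k : ℝ)| : ℝ) : ℂ))) *
        (Qop (nk m k) 1 (sg k) β (Ws w k) z - Qop (nk m k) (-1) (sg k) β (Ws w k) z) := by
      funext z
      simp only [Hk, if_neg hk]
    have dG : deriv (Gk m β w k) z = -(1 / (2 * (k : ℂ) ^ 2)) *
        (deriv (Qop (nk m k) 1 (sg k) β (Ws w k)) z +
          deriv (Qop (nk m k) (-1) (sg k) β (Ws w k)) z) := by
      rw [hG]
      exact ((hP.hasDerivAt.add hN.hasDerivAt).const_mul _).deriv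
    have dH : deriv (Hk m β w k) z = -(1 / (2 * ((|(k : ℝ)| : ℝ) : ℂ))) *
        (deriv (Qop (nk m k) 1 (sg k) β (Ws w k)) z -
          deriv (Qop (nk m k) (-1) (sg k) β (Ws w k)) z) := by
      rw [hH]
      exact ((hP.hasDerivAt.sub hN.hasDerivAt).const_mul _).deriv
    unfold gk NI.hk
    rw [dG, dH, hG, hH]
    simp only
    have e1 : deriv (Qop (nk m k) 1 (sg k) β (Ws w k)) z =
        -(2 * Qop (nk m k) 1 (sg k) β (Ws w k) z) + (((1 : ℝ) : ℂ) * ((nk m k : ℝ) : ℂ) *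
        (Qop (nk m k) 1 (sg k) β (Ws w k) z - Ws w k z)
        + I * ((sg k : ℝ) : ℂ) * ((nk m k : ℝ) : ℂ) * β z * Qop (nk m k) 1 (sg k) β (Ws w k) z) := by
      linear_combination oP
    have e2 : deriv (Qop (nk m k) (-1) (sg k) β (Ws w k)) z =
        -(2 * Qop (nk m k) (-1) (sg k) β (Ws w k) z) + (((-1 : ℝ) : ℂ) * ((nk m k : ℝ) : ℂ) *
        (Qop (nk m k) (-1) (sg k) β (Ws w k) z - Ws w k z)
        + I * ((sg k : ℝ) : ℂ) * ((nk m k : ℝ) : ℂ) * β z * Qop (nk m k) (-1) (sg k) β (Ws w k) z) := by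
      linear_combination oN
    rw [e1, e2]
    have hnk : ((nk m k : ℝ) : ℂ) = (m : ℂ) * ((|(k : ℝ)| : ℝ) : ℂ) := by
      unfold nk
      push_cast
      ring
    have ha0 : ((|(k : ℝ)| : ℝ) : ℂ) ≠ 0 := by
      rw [Ne, Complex.ofReal_eq_zero]
      linarith
    have hkk : (k : ℂ) = ((sg k : ℝ) : ℂ) * ((|(k : ℝ)| : ℝ) : ℂ) := by
      rw [← Complex.ofReal_mul]
      have h1 : (k : ℝ) = sg k * |(k : ℝ)| := by
        unfold sg
        split_ifs with h
        · rw [abs_of_pos (by exact_mod_cast h), one_mul]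
        · have h2 : k < 0 := lt_of_le_of_ne (not_lt.1 h) hk
          rw [abs_of_neg (by exact_mod_cast h2)]
          ring
      rw [← h1]
      simp
    have hss : ((sg k : ℝ) : ℂ) ^ 2 = 1 := by
      rcases hτ with h | h <;> rw [h] <;> simp
    have hs0 : ((sg k : ℝ) : ℂ) ≠ 0 := by
      rcases hτ with h | h <;> rw [h] <;> simp
    generalize hQP : Qop (nk m k) 1 (sg k) β (Ws w k) z = P
    generalize hQN : Qop (nk m k) (-1) (sg k) β (Ws w k) z = N
    generalize hF : Ws w k z = f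
    rw [hnk, hkk]
    generalize ((|(k : ℝ)| : ℝ) : ℂ) = a at *
    generalize ((sg k : ℝ) : ℂ) = s at *
    have hk2 : (s * a) ^ 2 = a ^ 2 := by rw [mul_pow, hss, one_mul]
    constructor
    · rw [hk2]
      push_cast
      field_simp
      ring_nf
    · intro _
      rw [hk2]
      push_cast
      field_simp
      ring_nf

end JE1

end Pool.Agent.Helper383.NI
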