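import Pool.Agent.Helper383.NI.Defs
import Pool.Agent.Helper383.NI.D0
import Pool.Agent.Helper383.NI.D1
import Pool.Agent.Helper383.NI.D2
import Pool.Agent.Helper383.NI.E1

open Complex MeasureTheory Set Filter Topology

namespace Pool.Agent.Helper383.NI

open JD0 (E_bound)
open JD1 (GH_est)
open JD2 (N_est)
open JE1 (GH_ode)

namespace JE2

theorem wt_nonneg (p : ℕ) (k : ℤ) (σ : ℝ) : 0 ≤ wt p k σ := by
  unfold wt; positivity

theorem one_le_abs (k : ℤ) : (1 : ℝ) ≤ 1 + |(k : ℝ)| := by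
  have := abs_nonneg (k : ℝ)
  linarith

theorem exp_le_one_k {σ : ℝ} (hσ : 0 < σ) (k : ℤ) : Real.exp (-(σ * |(k : ℝ)|)) ≤ 1 := by
  rw [Real.exp_le_one_iff, neg_nonpos]
  positivity

theorem wt_le_one {σ : ℝ} (hσ : 0 < σ) (p : ℕ) (k : ℤ) : wt p k σ ≤ 1 := by
  unfold wt
  rw [div_le_one (by positivity)]
  exact (exp_le_one_k hσ k).trans (one_le_pow₀ (one_le_abs k))

/-- summable majorant -/
noncomputable def bq (k : ℤ) : ℝ := 1 / (1 + |(k : ℝ)|) ^ 2

theorem bq_nonneg (k : ℤ) : 0 ≤ bq k := by unfold bq; positivity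

theorem abs_wt_le {σ : ℝ} (hσ : 0 < σ) (k : ℤ) : |(k : ℝ)| * wt 5 k σ ≤ bq k := by
  unfold wt bq
  have h1 := one_le_abs k
  have h2 := exp_le_one_k hσ k
  have h3 : (0 : ℝ) < 1 + |(k : ℝ)| := by linarith
  rw [← mul_div_assoc, div_le_div_iff₀ (by positivity) (by positivity)]
  have h4 : |(k : ℝ)| * Real.exp (-(σ * |(k : ℝ)|)) ≤ (1 + |(k : ℝ)|) * 1 :=
    mul_le_mul (by linarith) h2 (Real.exp_pos _).le h3.le
  have h5 : (1 + |(k : ℝ)|) ^ 3 ≤ (1 + |(k : ℝ)|) ^ 5 := pow_le_pow_right₀ h1 (by norm_num)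
  calc |(k : ℝ)| * Real.exp (-(σ * |(k : ℝ)|)) * (1 + |(k : ℝ)|) ^ 2
      ≤ (1 + |(k : ℝ)|) * 1 * (1 + |(k : ℝ)|) ^ 2 :=
        mul_le_mul_of_nonneg_right h4 (by positivity)
    _ = (1 + |(k : ℝ)|) ^ 3 := by ring
    _ ≤ 1 * (1 + |(k : ℝ)|) ^ 5 := by rw [one_mul]; exact h5

theorem summable_bq : Summable bq := by
  rw [summable_int_iff_summable_nat_and_neg]
  have h0 : Summable (fun n : ℕ => 1 / (((n + 1 : ℕ) : ℝ)) ^ 2) :=
    (summable_nat_add_iff (f := fun n : ℕ => 1 / (n : ℝ) ^ 2) 1).2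
      (Real.summable_one_div_nat_pow.2 (by norm_num))
  have e : ∀ n : ℕ, 1 / (((n + 1 : ℕ) : ℝ)) ^ 2 = bq n := fun n => by
    unfold bq
    push_cast
    rw [abs_of_nonneg n.cast_nonneg, add_comm]
  have e' : ∀ n : ℕ, 1 / (((n + 1 : ℕ) : ℝ)) ^ 2 = bq (-n) := fun n => by
    unfold bq
    push_cast
    rw [abs_neg, abs_of_nonneg n.cast_nonneg, add_comm]
  exact ⟨h0.congr e, h0.congr e'⟩

theorem N_identities (m : ℕ) (σ B M : ℝ) (β : ℂ → ℂ) (w : ℤ → ℂ → ℂ) (hm : 40 ≤ m) (hσ : 0 < σ)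
    (hσ1 : σ ≤ 1) (hB : 0 ≤ B) (hM : 0 ≤ M) (hg : Good σ B M β w) :
    DifferentiableOn ℂ (PP m β w) (Str σ) ∧
    (∀ z ∈ Str σ, NT m β w z = (m : ℂ) * PP m β w z) ∧
    (∀ z ∈ Str σ, Complex.exp (-Complex.cosh z) * NW m β w 0 z
      = deriv (PP m β w) z + 2 * PP m β w z) ∧
    (∃ K : ℝ, ∀ z ∈ Str σ, ‖PP m β w z‖ ≤ K * ‖Complex.exp (-Complex.cosh z)‖) ∧
    (∀ k, ∀ z ∈ Str σ, Complex.exp (-Complex.cosh z) * NW m β w k z =
      -∑' j : ℤ, (gk m β w j z * (I * ((k - j : ℤ) : ℂ) * Ws w (k - j) z)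
        - hk m β w j z * deriv (Ws w (k - j)) z)) := by
  obtain ⟨K, hK, hKall⟩ := GH_est B M hB hM
  obtain ⟨hGd, hHd, hbd, -⟩ := hKall m hm σ hσ hσ1 β w hg
  obtain ⟨CE, hCE, hE⟩ := E_bound
  obtain ⟨K2, hK2, hNall⟩ := N_est B M hB hM
  obtain ⟨-, -, -, hsT, -⟩ := hNall m hm σ hσ hσ1 β w hg
  have hode := GH_ode m σ B M β w hm hσ hσ1 hB hM hg
  have hopen : IsOpen (Str σ) := isOpen_lt Complex.continuous_im.abs continuous_const
  have hGda : ∀ k, ∀ z ∈ Str σ, DifferentiableAt ℂ (Gk m β w k) z := fun k z hz =>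
    (hGd k).differentiableAt (hopen.mem_nhds hz)
  have hwda : ∀ k, ∀ z ∈ Str σ, DifferentiableAt ℂ (w k) z := fun k z hz =>
    (hg.wd k).differentiableAt (hopen.mem_nhds hz)
  have hk_eq : ∀ k, hk m β w k = fun z => I * (k : ℂ) * Gk m β w k z := fun k => rfl
  have hhda : ∀ k, ∀ z ∈ Str σ, DifferentiableAt ℂ (hk m β w k) z := fun k z hz => by
    rw [hk_eq]; exact (hGda k z hz).const_mul _
  have hhderiv : ∀ k, ∀ z ∈ Str σ, deriv (hk m β w k) z = I * (k : ℂ) * deriv (Gk m β w k) z :=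
    fun k z hz => by rw [hk_eq, deriv_const_mul _ (hGda k z hz)]
  have hhg : ∀ k, ∀ z ∈ Str σ, deriv (hk m β w k) z + 2 * hk m β w k z =
      I * (k : ℂ) * gk m β w k z := fun k z hz => by
    rw [hhderiv k z hz, gk, hk]; ring
  have hWhas : ∀ k, ∀ z ∈ Str σ, HasDerivAt (Ws w k)
      (Complex.exp (-Complex.cosh z) * (deriv (w k) z - Complex.sinh z * w k z)) z := by
    intro k z hz
    have h1 : HasDerivAt (fun z => Complex.exp (-Complex.cosh z))
        (Complex.exp (-Complex.cosh z) * -Complex.sinh z) z :=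
      (Complex.hasDerivAt_cosh z).neg.cexp
    have h2 := h1.mul (hwda k z hz).hasDerivAt
    have h3 : Complex.exp (-Complex.cosh z) * -Complex.sinh z * w k z
        + Complex.exp (-Complex.cosh z) * deriv (w k) z =
        Complex.exp (-Complex.cosh z) * (deriv (w k) z - Complex.sinh z * w k z) := by ring
    rw [h3] at h2
    exact h2
  have hWderiv : ∀ k, ∀ z ∈ Str σ, deriv (Ws w k) z =
      Complex.exp (-Complex.cosh z) * (deriv (w k) z - Complex.sinh z * w k z) :=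
    fun k z hz => (hWhas k z hz).deriv
  -- bounds
  have hEb : ∀ z ∈ Str σ, ‖Complex.exp (-Complex.cosh z)‖ ≤ CE := fun z hz => by
    have hz1 : z ∈ Str 1 := lt_of_lt_of_le hz hσ1
    have h1 := hE z hz1
    have h2 : 1 ≤ Real.exp (20 * |z.re|) := Real.one_le_exp (by positivity)
    exact (le_mul_of_one_le_right (norm_nonneg _) h2).trans h1
  have hhb : ∀ k, ∀ z ∈ Str σ, ‖hk m β w k z‖ ≤ K * bq k := fun k z hz => by
    have h1 := (hbd k z hz).1
    have h2 : Real.exp (-(5 * |z.re|)) ≤ 1 := by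
      rw [Real.exp_le_one_iff, neg_nonpos]; positivity
    have h3 : K * wt 5 k σ * Real.exp (-(5 * |z.re|)) ≤ K * wt 5 k σ :=
      mul_le_of_le_one_right (mul_nonneg hK.le (wt_nonneg _ _ _)) h2
    have h4 : ‖hk m β w k z‖ = |(k : ℝ)| * ‖Gk m β w k z‖ := by
      rw [hk, norm_mul, norm_mul, Complex.norm_I, one_mul, Complex.norm_intCast]
    rw [h4]
    calc |(k : ℝ)| * ‖Gk m β w k z‖ ≤ |(k : ℝ)| * (K * wt 5 k σ) :=
          mul_le_mul_of_nonneg_left (h1.trans h3) (abs_nonneg _)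
      _ = K * (|(k : ℝ)| * wt 5 k σ) := by ring
      _ ≤ K * bq k := mul_le_mul_of_nonneg_left (abs_wt_le hσ k) hK.le
  have hWb : ∀ k, ∀ z ∈ Str σ, ‖Ws w k z‖ ≤ ‖Complex.exp (-Complex.cosh z)‖ * M :=
    fun k z hz => by
    rw [Ws, norm_mul]
    refine mul_le_mul_of_nonneg_left ?_ (norm_nonneg _)
    exact (hg.w0 k z hz).trans (mul_le_of_le_one_right hM (wt_le_one hσ 3 k))
  have hFb : ∀ j, ∀ z ∈ Str σ, ‖hk m β w j z * Ws w (-j) z‖ ≤
      K * M * ‖Complex.exp (-Complex.cosh z)‖ * bq j := fun j z hz => by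
    rw [norm_mul]
    refine (mul_le_mul (hhb j z hz) (hWb (-j) z hz) (norm_nonneg _)
      (mul_nonneg hK.le (bq_nonneg j))).trans (le_of_eq ?_)
    ring
  have hFb' : ∀ j, ∀ z ∈ Str σ, ‖hk m β w j z * Ws w (-j) z‖ ≤ K * M * CE * bq j :=
    fun j z hz => (hFb j z hz).trans (mul_le_mul_of_nonneg_right
      (mul_le_mul_of_nonneg_left (hEb z hz) (mul_nonneg hK.le hM)) (bq_nonneg j))
  have hFd : ∀ j, DifferentiableOn ℂ (fun z => hk m β w j z * Ws w (-j) z) (Str σ) :=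
    fun j z hz => ((hhda j z hz).mul (hWhas (-j) z hz).differentiableAt).differentiableWithinAt
  have hsum : ∀ z ∈ Str σ, Summable (fun j : ℤ => hk m β w j z * Ws w (-j) z) := fun z hz =>
    Summable.of_norm_bounded (summable_bq.mul_left (K * M * CE)) fun j => hFb' j z hz
  have hPPeq : PP m β w = fun z => ∑' j : ℤ, hk m β w j z * Ws w (-j) z := rfl
  -- distributing the weight
  have hW5 : ∀ k, ∀ z ∈ Str σ, Complex.exp (-Complex.cosh z) * NW m β w k z =
      -∑' j : ℤ, (gk m β w j z * (I * ((k - j : ℤ) : ℂ) * Ws w (k - j) z)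
        - hk m β w j z * deriv (Ws w (k - j)) z) := by
    intro k z hz
    rw [NW, mul_neg, ← tsum_mul_left]
    congr 1
    refine tsum_congr fun j => ?_
    rw [hWderiv (k - j) z hz, Ws]
    ring
  refine ⟨?_, ?_, ?_, ?_, hW5⟩
  · rw [hPPeq]
    exact Complex.differentiableOn_tsum_of_summable_norm (summable_bq.mul_left (K * M * CE)) hFd
      hopen fun j z hz => hFb' j z hz
  · intro z hz
    obtain ⟨hs1, hs2⟩ := hsT z hz
    set A : ℤ → ℂ := fun j => I * (j : ℂ) * Hk m β w j z * Hk m β w (-j) z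
      + (j : ℂ) ^ 2 * hk m β w j z * Gk m β w (-j) z with hA
    have hterm : ∀ j : ℤ, (deriv (hk m β w j) z + 2 * hk m β w j z) * Hk m β w (-j) z
        + hk m β w j z * (deriv (Hk m β w (-j)) z + 2 * Hk m β w (-j) z) =
        (m : ℂ) * (hk m β w j z * Ws w (-j) z + A j) := by
      intro j
      rw [hhg j z hz, (hode j z hz).1]
      rcases eq_or_ne j 0 with rfl | hj
      · simp [hA, hk]
      · rw [(hode (-j) z hz).2 (neg_ne_zero.2 hj)]
        simp only [hA]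
        push_cast
        ring
    have hAodd : ∀ j, A (-j) = -A j := by
      intro j
      simp only [hA, hk]
      push_cast
      rw [neg_neg]
      ring
    have hm0 : (m : ℂ) ≠ 0 := by
      have : m ≠ 0 := by omega
      exact_mod_cast this
    have hAsum : Summable A := by
      have h1 : Summable (fun j : ℤ => (deriv (hk m β w j) z + 2 * hk m β w j z) * Hk m β w (-j) z
        + hk m β w j z * (deriv (Hk m β w (-j)) z + 2 * Hk m β w (-j) z)) :=
        hs1.of_norm.add hs2.of_norm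
      have h2 := (h1.mul_left (m : ℂ)⁻¹).sub (hsum z hz)
      refine h2.congr fun j => ?_
      rw [hterm, ← mul_assoc, inv_mul_cancel₀ hm0, one_mul]
      ring
    have hA0 : ∑' j, A j = 0 := by
      have h1 : ∑' j, A j = ∑' j, A (-j) := ((Equiv.neg ℤ).tsum_eq A).symm
      have h2 : ∑' j, A (-j) = -∑' j, A j := by
        rw [← tsum_neg]
        exact tsum_congr hAodd
      rw [h2] at h1
      have h3 : (2 : ℂ) * ∑' j, A j = 0 := by linear_combination h1
      exact (mul_eq_zero.1 h3).resolve_left two_ne_zero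
    rw [NT, tsum_congr hterm, tsum_mul_left, (hsum z hz).tsum_add hAsum, hA0, add_zero]
    rfl
  · intro z hz
    have hD := Complex.hasSum_deriv_of_summable_norm (summable_bq.mul_left (K * M * CE)) hFd
      hopen (fun j z hz => hFb' j z hz) hz
    rw [← hPPeq] at hD
    have h2 : HasSum (fun j : ℤ => 2 * (hk m β w j z * Ws w (-j) z)) (2 * PP m β w z) :=
      (hsum z hz).hasSum.mul_left 2
    have h3 := hD.add h2
    rw [hW5 0 z hz, ← tsum_neg, ← h3.tsum_eq]
    refine tsum_congr fun j => ?_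
    have h4 : deriv (fun z => hk m β w j z * Ws w (-j) z) z =
        deriv (hk m β w j) z * Ws w (-j) z + hk m β w j z * deriv (Ws w (-j)) z :=
      deriv_fun_mul (hhda j z hz) (hWhas (-j) z hz).differentiableAt
    rw [h4, zero_sub]
    have h5 := hhg j z hz
    push_cast
    linear_combination (-Ws w (-j) z) * h5
  · refine ⟨K * M * ∑' j, bq j, fun z hz => ?_⟩
    have h1 : Summable (fun j => K * M * ‖Complex.exp (-Complex.cosh z)‖ * bq j) :=
      summable_bq.mul_left _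
    have h2 := tsum_of_norm_bounded h1.hasSum fun j => hFb j z hz
    rw [tsum_mul_left] at h2
    rw [hPPeq]
    refine h2.trans (le_of_eq ?_)
    ring

end JE2

end Pool.Agent.Helper383.NI
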