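import Pool.Agent.Helper383.NI.Defs
import Pool.Agent.Helper383.NI.D0
import Pool.Agent.Helper383.NI.D1
import Pool.Agent.Helper383.NI.D2
import Pool.Agent.Helper383.NI.E2

open Complex MeasureTheory Set Filter Topology

namespace Pool.Agent.Helper383.NI

open JD0 (E_bound)
open JD1 (GH_est)
open JD2 (N_est)
open JE2 (N_identities)

namespace JE3

theorem sb_open (σ : ℝ) : IsOpen (Str σ) := by
  unfold Str
  exact isOpen_lt Complex.continuous_im.abs continuous_const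

theorem sb_contOn {T L : ℝ} {f : ℝ → ℂ}
    (h : ∀ t ∈ Icc 0 T, ∀ s ∈ Icc 0 T, ‖f t - f s‖ ≤ L * |t - s|) :
    ContinuousOn f (Icc 0 T) := by
  have : LipschitzOnWith L.toNNReal f (Icc 0 T) := by
    refine LipschitzOnWith.of_dist_le_mul fun t ht s hs => ?_
    rw [dist_eq_norm, Real.dist_eq]
    exact (h t ht s hs).trans
      (mul_le_mul_of_nonneg_right (Real.le_coe_toNNReal L) (abs_nonneg _))
  exact this.continuousOn

theorem sb_diffInt {T σ C : ℝ} (F : ℝ → ℂ → ℂ)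
    (hd : ∀ t ∈ Icc 0 T, DifferentiableOn ℂ (F t) (Str σ))
    (hC : ∀ t ∈ Icc 0 T, ∀ z ∈ Str σ, ‖deriv (F t) z‖ ≤ C)
    (hc : ∀ z ∈ Str σ, ContinuousOn (fun t => F t z) (Icc 0 T))
    (hc' : ∀ z ∈ Str σ, ContinuousOn (fun t => deriv (F t) z) (Icc 0 T))
    {t : ℝ} (ht : t ∈ Icc 0 T) {z : ℂ} (hz : z ∈ Str σ) :
    HasDerivAt (fun z => ∫ τ in (0:ℝ)..t, F τ z) (∫ τ in (0:ℝ)..t, deriv (F τ) z) z := by
  have hsub : Set.uIoc 0 t ⊆ Icc 0 T := by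
    rw [uIoc_of_le ht.1]
    intro τ hτ
    exact ⟨hτ.1.le, hτ.2.trans ht.2⟩
  have hsub2 : Set.uIcc 0 t ⊆ Icc 0 T := by
    rw [uIcc_of_le ht.1]
    exact Icc_subset_Icc_right ht.2
  refine (intervalIntegral.hasDerivAt_integral_of_dominated_loc_of_deriv_le (μ := volume)
    (F := fun z τ => F τ z) (F' := fun z τ => deriv (F τ) z) (s := Str σ) (bound := fun _ => C)
    ((sb_open σ).mem_nhds hz) ?_ ?_ ?_ ?_ ?_ ?_).2
  · filter_upwards [(sb_open σ).mem_nhds hz] with x hx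
    exact ((hc x hx).mono hsub).aestronglyMeasurable measurableSet_uIoc
  · exact ((hc z hz).mono hsub2).intervalIntegrable
  · exact ((hc' z hz).mono hsub).aestronglyMeasurable measurableSet_uIoc
  · exact Filter.Eventually.of_forall fun τ hτ x hx => hC τ (hsub hτ) x hx
  · exact intervalIntegrable_const
  · exact Filter.Eventually.of_forall fun τ hτ x hx =>
      ((hd τ (hsub hτ)).differentiableAt ((sb_open σ).mem_nhds hx)).hasDerivAt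

theorem sb_ftc {T : ℝ} {f : ℝ → ℂ} (hf : ContinuousOn f (Icc 0 T)) {t : ℝ} (ht : t ∈ Icc 0 T) :
    HasDerivWithinAt (fun u => ∫ τ in (0:ℝ)..u, f τ) (f t) (Icc 0 T) t := by
  have : Fact (t ∈ Icc (0:ℝ) T) := ⟨ht⟩
  refine intervalIntegral.integral_hasDerivWithinAt_right (t := Icc 0 T) ?_ ?_ ?_
  · refine (hf.mono ?_).intervalIntegrable
    rw [uIcc_of_le ht.1]
    exact Icc_subset_Icc_right ht.2
  · exact hf.stronglyMeasurableAtFilter_nhdsWithin measurableSet_Icc t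
  · exact hf t ht

theorem sb_intble {T : ℝ} {f : ℝ → ℂ} (hf : ContinuousOn f (Icc 0 T)) {t : ℝ} (ht : t ∈ Icc 0 T) :
    IntervalIntegrable f volume 0 t := by
  refine (hf.mono ?_).intervalIntegrable
  rw [uIcc_of_le ht.1]
  exact Icc_subset_Icc_right ht.2

theorem sb_Ob (z : ℂ) : HasDerivAt Ob (Ob1 z) z := by
  have h := ((Complex.hasDerivAt_cosh z).const_mul (-2 : ℂ)).cexp
  have h2 : Ob1 z = Complex.exp (-2 * Complex.cosh z) * (-2 * Complex.sinh z) := by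
    unfold Ob1; ring
  rw [h2]
  exact h

theorem sb_Ob1_diff : Differentiable ℂ Ob1 := by
  unfold Ob1
  exact ((Complex.differentiable_sinh.const_mul _)).mul
    ((Complex.differentiable_cosh.const_mul _).cexp)

section SB

variable {T : ℝ} {m : ℕ} {Λ σ B : ℝ}

theorem sb_good (S : Sol T m Λ σ B) {t : ℝ} (ht : t ∈ Icc 0 T) :
    Good σ B B (S.be t) (S.w t) := S.good t ht

theorem sb_close (S : Sol T m Λ σ B) {t s : ℝ} (ht : t ∈ Icc 0 T) (hs : s ∈ Icc 0 T) :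
    Close σ (B * |t - s|) (S.be t) (S.w t) (S.be s) (S.w s) := S.lip t ht s hs

theorem sb_N (S : Sol T m Λ σ B) (hm : 40 ≤ m) (hσ : 0 < σ) (hσ1 : σ ≤ 1) (hB : 0 ≤ B) :
    ∃ K > 0,
    (∀ t ∈ Icc 0 T, ∀ k, ∀ z ∈ Str σ, ‖NW m (S.be t) (S.w t) k z‖ ≤ K * wt 2 k σ) ∧
    (∀ t ∈ Icc 0 T, ∀ z ∈ Str σ,
      ‖NT m (S.be t) (S.w t) z‖ ≤ K * Real.exp (-(10 * |z.re|))) ∧
    (∀ t ∈ Icc 0 T, ∀ s ∈ Icc 0 T, ∀ k, ∀ z ∈ Str σ,
      ‖NW m (S.be t) (S.w t) k z - NW m (S.be s) (S.w s) k z‖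
        ≤ K * (B * |t - s|) * wt 2 k σ) ∧
    (∀ t ∈ Icc 0 T, ∀ s ∈ Icc 0 T, ∀ z ∈ Str σ,
      ‖NT m (S.be t) (S.w t) z - NT m (S.be s) (S.w s) z‖ ≤ K * (B * |t - s|)) := by
  obtain ⟨K, hK, h⟩ := N_est B B hB hB
  refine ⟨K, hK, ?_, ?_, ?_, ?_⟩
  · intro t ht k z hz
    exact (h m hm σ hσ hσ1 _ _ (sb_good S ht)).2.2.2.2.1 k z hz
  · intro t ht z hz
    exact (h m hm σ hσ hσ1 _ _ (sb_good S ht)).2.2.2.2.2.1 z hz
  · intro t ht s hs k z hz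
    exact ((h m hm σ hσ hσ1 _ _ (sb_good S ht)).2.2.2.2.2.2 _ _ _
      (mul_nonneg hB (abs_nonneg _)) (sb_good S hs) (sb_close S ht hs)).1 k z hz
  · intro t ht s hs z hz
    exact ((h m hm σ hσ hσ1 _ _ (sb_good S ht)).2.2.2.2.2.2 _ _ _
      (mul_nonneg hB (abs_nonneg _)) (sb_good S hs) (sb_close S ht hs)).2 z hz

theorem sb_contNW (S : Sol T m Λ σ B) (hm : 40 ≤ m) (hσ : 0 < σ) (hσ1 : σ ≤ 1) (hB : 0 ≤ B)
    (k : ℤ) {z : ℂ} (hz : z ∈ Str σ) :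
    ContinuousOn (fun t => NW m (S.be t) (S.w t) k z) (Icc 0 T) := by
  obtain ⟨K, hK, -, -, h, -⟩ := sb_N S hm hσ hσ1 hB
  refine sb_contOn (L := K * B * wt 2 k σ) fun t ht s hs => ?_
  refine (h t ht s hs k z hz).trans (le_of_eq ?_)
  ring

theorem sb_contNT (S : Sol T m Λ σ B) (hm : 40 ≤ m) (hσ : 0 < σ) (hσ1 : σ ≤ 1) (hB : 0 ≤ B)
    {z : ℂ} (hz : z ∈ Str σ) :
    ContinuousOn (fun t => NT m (S.be t) (S.w t) z) (Icc 0 T) := by
  obtain ⟨K, hK, -, -, -, h⟩ := sb_N S hm hσ hσ1 hB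
  refine sb_contOn (L := K * B) fun t ht s hs => ?_
  refine (h t ht s hs z hz).trans (le_of_eq ?_)
  ring

theorem sb_contTh (S : Sol T m Λ σ B) {z : ℂ} (hz : z ∈ Str σ) :
    ContinuousOn (fun t => S.Th t z) (Icc 0 T) :=
  sb_contOn (L := B) fun t ht s hs => (S.lip_Th t ht s hs z hz).1

theorem sb_contTh' (S : Sol T m Λ σ B) {z : ℂ} (hz : z ∈ Str σ) :
    ContinuousOn (fun t => deriv (S.Th t) z) (Icc 0 T) :=
  sb_contOn (L := B) fun t ht s hs => (S.lip_Th t ht s hs z hz).2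

theorem sb_Th0 (S : Sol T m Λ σ B) (hT : 0 ≤ T) {z : ℂ} (hz : z ∈ Str σ) : S.Th 0 z = 0 := by
  rw [S.eq_Th 0 ⟨le_refl _, hT⟩ z hz, intervalIntegral.integral_same, mul_zero]

theorem sb_dTh0 (S : Sol T m Λ σ B) (hT : 0 ≤ T) {z : ℂ} (hz : z ∈ Str σ) :
    deriv (S.Th 0) z = 0 := by
  have h : S.Th 0 =ᶠ[𝓝 z] fun _ => (0 : ℂ) := by
    filter_upwards [(sb_open σ).mem_nhds hz] with x hx
    exact sb_Th0 S hT hx
  rw [h.deriv_eq, deriv_const]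

theorem sb_dTh (S : Sol T m Λ σ B) (hT : 0 ≤ T) (hB : 0 ≤ B) :
    ∀ t ∈ Icc 0 T, ∀ z ∈ Str σ, ‖deriv (S.Th t) z‖ ≤ B * T := by
  intro t ht z hz
  have h := (S.lip_Th t ht 0 ⟨le_refl _, hT⟩ z hz).2
  rw [sb_dTh0 S hT hz, sub_zero, sub_zero, abs_of_nonneg ht.1] at h
  exact h.trans (mul_le_mul_of_nonneg_left ht.2 hB)

theorem sb_al (S : Sol T m Λ σ B) (hT : 0 ≤ T) (hB : 0 ≤ B) {t : ℝ} (ht : t ∈ Icc 0 T)
    {z : ℂ} (hz : z ∈ Str σ) : HasDerivAt (S.al t) (S.be t z) z := by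
  have h1 := sb_diffInt S.Th S.thd (sb_dTh S hT hB) (fun z hz => sb_contTh S hz)
    (fun z hz => sb_contTh' S hz) ht hz
  have h2 := ((sb_Ob z).const_mul (t : ℂ)).add (h1.const_mul (((Λ / m : ℝ) : ℂ)))
  have h3 : S.be t z = (t : ℂ) * Ob1 z +
      ((Λ / m : ℝ) : ℂ) * ∫ τ in (0 : ℝ)..t, deriv (S.Th τ) z := by
    unfold Sol.be
    rw [S.eq_a t ht z hz]
  rw [h3]
  exact h2

theorem sb_Om (S : Sol T m Λ σ B) {t : ℝ} (ht : t ∈ Icc 0 T) {z : ℂ} (hz : z ∈ Str σ) :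
    HasDerivAt (S.Om t) (Ob1 z + ((Λ / m : ℝ) : ℂ) * deriv (S.Th t) z) z :=
  (sb_Ob z).add ((((S.thd t ht).differentiableAt ((sb_open σ).mem_nhds hz)).hasDerivAt).const_mul _)

theorem sb_wder (S : Sol T m Λ σ B) (hm : 40 ≤ m) (hσ : 0 < σ) (hσ1 : σ ≤ 1) (hB : 0 ≤ B)
    {t : ℝ} (ht : t ∈ Icc 0 T) (k : ℤ) {z : ℂ} (hz : z ∈ Str σ) :
    HasDerivWithinAt (fun τ => S.w τ k z)
      (((Λ / m : ℝ) : ℂ) * NW m (S.be t) (S.w t) k z) (Icc 0 T) t := by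
  have h := ((sb_ftc (sb_contNW S hm hσ hσ1 hB k hz) ht).const_mul
    (((Λ / m : ℝ) : ℂ))).const_add (w0 (Λ⁻¹) k z)
  refine h.congr (fun τ hτ => ?_) ?_
  · exact S.eq_w τ hτ k z hz
  · exact S.eq_w t ht k z hz

theorem sb_alder (S : Sol T m Λ σ B) {t : ℝ} (ht : t ∈ Icc 0 T) {z : ℂ} (hz : z ∈ Str σ) :
    HasDerivWithinAt (fun τ => S.al τ z) (S.Om t z) (Icc 0 T) t := by
  have h := ((sb_ftc (sb_contTh S hz) ht).const_mul (((Λ / m : ℝ) : ℂ)))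
  have h1 : HasDerivWithinAt (fun τ : ℝ => (τ : ℂ) * Ob z) (1 * Ob z) (Icc 0 T) t :=
    ((Complex.ofRealCLM.hasDerivAt (x := t)).hasDerivWithinAt).mul_const _
  have h2 := h1.add h
  rw [one_mul] at h2
  exact h2

theorem sb_contOm (S : Sol T m Λ σ B) {z : ℂ} (hz : z ∈ Str σ) :
    ContinuousOn (fun t => S.Om t z) (Icc 0 T) :=
  continuousOn_const.add (continuousOn_const.mul (sb_contTh S hz))

/-- the flux series -/
theorem sb_P (S : Sol T m Λ σ B) (hm : 40 ≤ m) (hσ : 0 < σ) (hσ1 : σ ≤ 1) (hB : 0 ≤ B) :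
    (∀ t ∈ Icc 0 T, DifferentiableOn ℂ (PP m (S.be t) (S.w t)) (Str σ)) ∧
    (∀ t ∈ Icc 0 T, ∀ z ∈ Str σ,
      NT m (S.be t) (S.w t) z = (m : ℂ) * PP m (S.be t) (S.w t) z) ∧
    (∀ t ∈ Icc 0 T, ∀ z ∈ Str σ, Complex.exp (-Complex.cosh z) * NW m (S.be t) (S.w t) 0 z
      = deriv (PP m (S.be t) (S.w t)) z + 2 * PP m (S.be t) (S.w t) z) :=
  ⟨fun t ht => (N_identities m σ B B _ _ hm hσ hσ1 hB hB (sb_good S ht)).1,
   fun t ht => (N_identities m σ B B _ _ hm hσ hσ1 hB hB (sb_good S ht)).2.1,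
   fun t ht => (N_identities m σ B B _ _ hm hσ hσ1 hB hB (sb_good S ht)).2.2.1⟩

theorem sb_contP (S : Sol T m Λ σ B) (hm : 40 ≤ m) (hσ : 0 < σ) (hσ1 : σ ≤ 1) (hB : 0 ≤ B)
    {z : ℂ} (hz : z ∈ Str σ) :
    ContinuousOn (fun t => PP m (S.be t) (S.w t) z) (Icc 0 T) := by
  have h1 : ContinuousOn (fun t => (m : ℂ)⁻¹ * NT m (S.be t) (S.w t) z) (Icc 0 T) :=
    continuousOn_const.mul (sb_contNT S hm hσ hσ1 hB hz)
  refine h1.congr fun t ht => ?_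
  have hm0 : (m : ℂ) ≠ 0 := by
    have : m ≠ 0 := by omega
    exact_mod_cast this
  show PP m (S.be t) (S.w t) z = (m : ℂ)⁻¹ * NT m (S.be t) (S.w t) z
  rw [(sb_P S hm hσ hσ1 hB).2.1 t ht z hz, inv_mul_cancel_left₀ hm0]

theorem sb_contP' (S : Sol T m Λ σ B) (hm : 40 ≤ m) (hσ : 0 < σ) (hσ1 : σ ≤ 1) (hB : 0 ≤ B)
    {z : ℂ} (hz : z ∈ Str σ) :
    ContinuousOn (fun t => deriv (PP m (S.be t) (S.w t)) z) (Icc 0 T) := by
  have h1 : ContinuousOn (fun t => Complex.exp (-Complex.cosh z) * NW m (S.be t) (S.w t) 0 z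
      - 2 * PP m (S.be t) (S.w t) z) (Icc 0 T) :=
    (continuousOn_const.mul (sb_contNW S hm hσ hσ1 hB 0 hz)).sub
      (continuousOn_const.mul (sb_contP S hm hσ hσ1 hB hz))
  refine h1.congr fun t ht => ?_
  show deriv (PP m (S.be t) (S.w t)) z =
    Complex.exp (-Complex.cosh z) * NW m (S.be t) (S.w t) 0 z - 2 * PP m (S.be t) (S.w t) z
  rw [(sb_P S hm hσ hσ1 hB).2.2 t ht z hz]
  ring

theorem sb_E (hσ1 : σ ≤ 1) : ∃ C > 0, ∀ z ∈ Str σ, ‖Complex.exp (-Complex.cosh z)‖ ≤ C := by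
  obtain ⟨C, hC, h⟩ := E_bound
  refine ⟨C, hC, fun z hz => ?_⟩
  have h1 := h z (lt_of_lt_of_le hz hσ1)
  have h2 : 1 ≤ Real.exp (20 * |z.re|) := Real.one_le_exp (by positivity)
  have h3 := norm_nonneg (Complex.exp (-Complex.cosh z))
  calc ‖Complex.exp (-Complex.cosh z)‖ = ‖Complex.exp (-Complex.cosh z)‖ * 1 := (mul_one _).symm
    _ ≤ ‖Complex.exp (-Complex.cosh z)‖ * Real.exp (20 * |z.re|) :=
        mul_le_mul_of_nonneg_left h2 h3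
    _ ≤ C := h1

theorem sb_wt0 (p : ℕ) : wt p 0 σ = 1 := by
  unfold wt
  simp

theorem sb_dP (S : Sol T m Λ σ B) (hm : 40 ≤ m) (hσ : 0 < σ) (hσ1 : σ ≤ 1) (hB : 0 ≤ B) :
    ∃ C : ℝ, ∀ t ∈ Icc 0 T, ∀ z ∈ Str σ, ‖deriv (PP m (S.be t) (S.w t)) z‖ ≤ C := by
  obtain ⟨K, hK, hNW, hNT, -, -⟩ := sb_N S hm hσ hσ1 hB
  obtain ⟨C, hC, hE⟩ := sb_E (σ := σ) hσ1
  refine ⟨C * K + 2 * K, fun t ht z hz => ?_⟩
  have hm1 : (1 : ℝ) ≤ m := by
    have : 1 ≤ m := by omega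
    exact_mod_cast this
  have e1 : deriv (PP m (S.be t) (S.w t)) z =
      Complex.exp (-Complex.cosh z) * NW m (S.be t) (S.w t) 0 z
        - 2 * PP m (S.be t) (S.w t) z := by
    rw [(sb_P S hm hσ hσ1 hB).2.2 t ht z hz]; ring
  have e2 : ‖PP m (S.be t) (S.w t) z‖ ≤ K := by
    have h1 := hNT t ht z hz
    rw [(sb_P S hm hσ hσ1 hB).2.1 t ht z hz, norm_mul, Complex.norm_natCast] at h1
    have h2 : Real.exp (-(10 * |z.re|)) ≤ 1 := by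
      rw [Real.exp_le_one_iff]
      have := abs_nonneg z.re
      linarith
    have h3 : K * Real.exp (-(10 * |z.re|)) ≤ K * 1 := mul_le_mul_of_nonneg_left h2 hK.le
    have h4 : 1 * ‖PP m (S.be t) (S.w t) z‖ ≤ m * ‖PP m (S.be t) (S.w t) z‖ :=
      mul_le_mul_of_nonneg_right hm1 (norm_nonneg _)
    linarith
  have e3 : ‖NW m (S.be t) (S.w t) 0 z‖ ≤ K := by
    have h1 := hNW t ht 0 z hz
    rwa [sb_wt0, mul_one] at h1
  rw [e1]
  refine (norm_sub_le _ _).trans ?_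
  rw [norm_mul, norm_mul, Complex.norm_ofNat]
  exact add_le_add (mul_le_mul (hE z hz) e3 (norm_nonneg _) hC.le)
    (mul_le_mul_of_nonneg_left e2 (by norm_num))

theorem sb_ThP (S : Sol T m Λ σ B) (hm : 40 ≤ m) (hσ : 0 < σ) (hσ1 : σ ≤ 1) (hB : 0 ≤ B)
    {t : ℝ} (ht : t ∈ Icc 0 T) {z : ℂ} (hz : z ∈ Str σ) :
    S.Th t z = (Λ : ℂ) * ∫ τ in (0 : ℝ)..t, PP m (S.be τ) (S.w τ) z := by
  have hm0 : (m : ℂ) ≠ 0 := by
    have : m ≠ 0 := by omega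
    exact_mod_cast this
  have h1 : S.Th t z = ((Λ / m : ℝ) : ℂ) * ∫ τ in (0 : ℝ)..t, NT m (S.be τ) (S.w τ) z :=
    S.eq_Th t ht z hz
  have h2 : ∫ τ in (0 : ℝ)..t, NT m (S.be τ) (S.w τ) z =
      ∫ τ in (0 : ℝ)..t, (m : ℂ) * PP m (S.be τ) (S.w τ) z := by
    refine intervalIntegral.integral_congr fun τ hτ => ?_
    rw [uIcc_of_le ht.1] at hτ
    exact (sb_P S hm hσ hσ1 hB).2.1 τ ⟨hτ.1, hτ.2.trans ht.2⟩ z hz
  rw [h1, h2, intervalIntegral.integral_const_mul, ← mul_assoc]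
  congr 1
  push_cast
  field_simp

theorem sb_dThP (S : Sol T m Λ σ B) (hm : 40 ≤ m) (hσ : 0 < σ) (hσ1 : σ ≤ 1) (hB : 0 ≤ B)
    {t : ℝ} (ht : t ∈ Icc 0 T) {z : ℂ} (hz : z ∈ Str σ) :
    deriv (S.Th t) z = (Λ : ℂ) * ∫ τ in (0 : ℝ)..t, deriv (PP m (S.be τ) (S.w τ)) z := by
  obtain ⟨C, hC⟩ := sb_dP S hm hσ hσ1 hB
  have h1 := sb_diffInt (fun τ => PP m (S.be τ) (S.w τ)) (sb_P S hm hσ hσ1 hB).1 hC
    (fun z hz => sb_contP S hm hσ hσ1 hB hz) (fun z hz => sb_contP' S hm hσ hσ1 hB hz) ht hz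
  have h2 : S.Th t =ᶠ[𝓝 z] fun z => (Λ : ℂ) * ∫ τ in (0 : ℝ)..t, PP m (S.be τ) (S.w τ) z := by
    filter_upwards [(sb_open σ).mem_nhds hz] with x hx
    exact sb_ThP S hm hσ hσ1 hB ht hx
  rw [h2.deriv_eq]
  exact (h1.const_mul (Λ : ℂ)).deriv

theorem sb_mean (S : Sol T m Λ σ B) (hm : 40 ≤ m) (hΛ : 1 ≤ Λ) (hσ : 0 < σ) (hσ1 : σ ≤ 1)
    (hB : 0 ≤ B) {t : ℝ} (ht : t ∈ Icc 0 T) {z : ℂ} (hz : z ∈ Str σ) :
    (Λ : ℂ) * Ws (S.w t) 0 z = 2 * S.Om t z + deriv (S.Om t) z := by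
  have hm0 : (m : ℂ) ≠ 0 := by
    have : m ≠ 0 := by omega
    exact_mod_cast this
  have hΛ0 : (Λ : ℂ) ≠ 0 := by
    have : Λ ≠ 0 := by linarith
    exact_mod_cast this
  rw [(sb_Om S ht hz).deriv]
  have e1 : S.w t 0 z = w0 (Λ⁻¹) 0 z +
      ((Λ / m : ℝ) : ℂ) * ∫ τ in (0 : ℝ)..t, NW m (S.be τ) (S.w τ) 0 z := S.eq_w t ht 0 z hz
  have e2 : w0 (Λ⁻¹) 0 z = (Λ : ℂ)⁻¹ * (Complex.exp (Complex.cosh z) * Obw z) := by
    unfold w0
    rw [if_pos rfl, Complex.ofReal_inv]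
  have e3 : Complex.exp (-Complex.cosh z) * ∫ τ in (0 : ℝ)..t, NW m (S.be τ) (S.w τ) 0 z =
      (∫ τ in (0 : ℝ)..t, deriv (PP m (S.be τ) (S.w τ)) z) +
        2 * ∫ τ in (0 : ℝ)..t, PP m (S.be τ) (S.w τ) z := by
    rw [← intervalIntegral.integral_const_mul, ← intervalIntegral.integral_const_mul,
      ← intervalIntegral.integral_add (sb_intble (sb_contP' S hm hσ hσ1 hB hz) ht)
        ((sb_intble (sb_contP S hm hσ hσ1 hB hz) ht).const_mul 2)]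
    refine intervalIntegral.integral_congr fun τ hτ => ?_
    rw [uIcc_of_le ht.1] at hτ
    exact (sb_P S hm hσ hσ1 hB).2.2 τ ⟨hτ.1, hτ.2.trans ht.2⟩ z hz
  have e4 : S.Om t z = Ob z + ((Λ / m : ℝ) : ℂ) * S.Th t z := rfl
  have e5 : Complex.exp (-Complex.cosh z) * Complex.exp (Complex.cosh z) = 1 := by
    rw [← Complex.exp_add, neg_add_cancel, Complex.exp_zero]
  unfold Ws
  rw [e4, e1, e2, sb_ThP S hm hσ hσ1 hB ht hz, sb_dThP S hm hσ hσ1 hB ht hz]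
  have e6 : (Λ : ℂ) * (Complex.exp (-Complex.cosh z) *
      ((Λ : ℂ)⁻¹ * (Complex.exp (Complex.cosh z) * Obw z) +
        ((Λ / m : ℝ) : ℂ) * ∫ τ in (0 : ℝ)..t, NW m (S.be τ) (S.w τ) 0 z)) =
      ((Λ : ℂ) * (Λ : ℂ)⁻¹) * (Complex.exp (-Complex.cosh z) * Complex.exp (Complex.cosh z)) *
        Obw z + ((Λ / m : ℝ) : ℂ) * (Λ : ℂ) * (Complex.exp (-Complex.cosh z) *
          ∫ τ in (0 : ℝ)..t, NW m (S.be τ) (S.w τ) 0 z) := by ring
  rw [e6, e5, e3, mul_inv_cancel₀ hΛ0]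
  unfold Obw
  ring

theorem sb_Ob_conj (z : ℂ) : Ob ((starRingEnd ℂ) z) = (starRingEnd ℂ) (Ob z) := by
  unfold Ob
  rw [Complex.cosh_conj, ← Complex.exp_conj, map_mul, map_neg, Complex.conj_ofNat]

theorem sb_Ob1_conj (z : ℂ) : Ob1 ((starRingEnd ℂ) z) = (starRingEnd ℂ) (Ob1 z) := by
  unfold Ob1
  rw [Complex.cosh_conj, Complex.sinh_conj, map_mul, ← Complex.exp_conj, map_mul, map_mul, map_neg,
    Complex.conj_ofNat]

theorem sb_sym (S : Sol T m Λ σ B) {t : ℝ} (ht : t ∈ Icc 0 T) {z : ℂ} (hz : z ∈ Str σ) :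
    S.be t ((starRingEnd ℂ) z) = (starRingEnd ℂ) (S.be t z) ∧
      S.Om t ((starRingEnd ℂ) z) = (starRingEnd ℂ) (S.Om t z) ∧
      S.al t ((starRingEnd ℂ) z) = (starRingEnd ℂ) (S.al t z) := by
  refine ⟨?_, ?_, ?_⟩
  · unfold Sol.be
    rw [map_add, map_mul, Complex.conj_ofReal, sb_Ob1_conj, S.symm_a t ht z hz]
  · unfold Sol.Om
    rw [map_add, map_mul, Complex.conj_ofReal, sb_Ob_conj, S.symm_Th t ht z hz]
  · unfold Sol.al
    have h1 : ∫ τ in (0 : ℝ)..t, S.Th τ ((starRingEnd ℂ) z) =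
        ∫ τ in (0 : ℝ)..t, (starRingEnd ℂ) (S.Th τ z) := by
      refine intervalIntegral.integral_congr fun τ hτ => ?_
      rw [uIcc_of_le ht.1] at hτ
      exact S.symm_Th τ ⟨hτ.1, hτ.2.trans ht.2⟩ z hz
    rw [h1, intervalIntegral.intervalIntegral_conj, map_add, map_mul, map_mul, Complex.conj_ofReal,
      Complex.conj_ofReal, sb_Ob_conj]

theorem sb_sum4 : Summable (fun j : ℤ => 1 / (1 + |(j : ℝ)|) ^ 4) := by
  have h0 : Summable (fun n : ℕ => 1 / (1 + (n : ℝ)) ^ 4) := by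
    have h1 := (summable_nat_add_iff 1).2 (Real.summable_one_div_nat_pow.2 (by norm_num : 1 < 4))
    refine h1.congr fun n => ?_
    push_cast
    rw [add_comm]
  refine Summable.of_nat_of_neg ?_ ?_
  · refine h0.congr fun n => ?_
    simp
  · refine h0.congr fun n => ?_
    simp

theorem sb_PPbound (S : Sol T m Λ σ B) (hm : 40 ≤ m) (hσ : 0 < σ) (hσ1 : σ ≤ 1) (hB : 0 ≤ B) :
    ∃ K : ℝ, ∀ t ∈ Icc 0 T, ∀ z ∈ Str σ,
      ‖PP m (S.be t) (S.w t) z‖ ≤ K * ‖Complex.exp (-Complex.cosh z)‖ := by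
  obtain ⟨K, hK, h⟩ := GH_est B B hB hB
  refine ⟨K * B * ∑' j : ℤ, 1 / (1 + |(j : ℝ)|) ^ 4, fun t ht z hz => ?_⟩
  have hG := (h m hm σ hσ hσ1 _ _ (sb_good S ht)).2.2.1
  have hw := (sb_good S ht).w0
  have hs : HasSum (fun j : ℤ => K * B * ‖Complex.exp (-Complex.cosh z)‖ *
      (1 / (1 + |(j : ℝ)|) ^ 4)) (K * B * ‖Complex.exp (-Complex.cosh z)‖ *
      ∑' j : ℤ, 1 / (1 + |(j : ℝ)|) ^ 4) := sb_sum4.hasSum.mul_left _
  have h1 : ‖PP m (S.be t) (S.w t) z‖ ≤ K * B * ‖Complex.exp (-Complex.cosh z)‖ *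
      ∑' j : ℤ, 1 / (1 + |(j : ℝ)|) ^ 4 := by
    unfold PP
    refine tsum_of_norm_bounded hs fun j => ?_
    have hj0 : 0 ≤ |(j : ℝ)| := abs_nonneg _
    have hp : 0 < 1 + |(j : ℝ)| := by linarith
    have hexp1 : Real.exp (-(σ * |(j : ℝ)|)) ≤ 1 := by
      rw [Real.exp_le_one_iff]
      have := mul_nonneg hσ.le hj0
      linarith
    have hexp2 : Real.exp (-(5 * |z.re|)) ≤ 1 := by
      rw [Real.exp_le_one_iff]
      have := abs_nonneg z.re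
      linarith
    -- bound on hk
    have hwt5 : wt 5 j σ ≤ 1 / (1 + |(j : ℝ)|) ^ 5 := by
      unfold wt
      exact div_le_div_of_nonneg_right hexp1 (by positivity)
    have hg1 : ‖Gk m (S.be t) (S.w t) j z‖ ≤ K * (1 / (1 + |(j : ℝ)|) ^ 5) := by
      refine (hG j z hz).1.trans ?_
      calc K * wt 5 j σ * Real.exp (-(5 * |z.re|)) ≤ K * wt 5 j σ * 1 := by
            refine mul_le_mul_of_nonneg_left hexp2 ?_
            unfold wt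
            positivity
        _ = K * wt 5 j σ := mul_one _
        _ ≤ _ := mul_le_mul_of_nonneg_left hwt5 hK.le
    have hh : ‖hk m (S.be t) (S.w t) j z‖ ≤ K * (1 / (1 + |(j : ℝ)|) ^ 4) := by
      unfold hk
      rw [norm_mul, norm_mul, Complex.norm_I, one_mul, Complex.norm_intCast]
      calc |(j : ℝ)| * ‖Gk m (S.be t) (S.w t) j z‖
          ≤ (1 + |(j : ℝ)|) * (K * (1 / (1 + |(j : ℝ)|) ^ 5)) :=
            mul_le_mul (by linarith) hg1 (norm_nonneg _) hp.le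
        _ = K * (1 / (1 + |(j : ℝ)|) ^ 4) := by
            field_simp
    have hW : ‖Ws (S.w t) (-j) z‖ ≤ ‖Complex.exp (-Complex.cosh z)‖ * B := by
      unfold Ws
      rw [norm_mul]
      refine mul_le_mul_of_nonneg_left ?_ (norm_nonneg _)
      refine (hw (-j) z hz).trans ?_
      have hwt3 : wt 3 (-j) σ ≤ 1 := by
        unfold wt
        rw [Int.cast_neg, abs_neg]
        rw [div_le_one (by positivity)]
        refine hexp1.trans ?_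
        exact one_le_pow₀ (by linarith)
      calc B * wt 3 (-j) σ ≤ B * 1 := mul_le_mul_of_nonneg_left hwt3 hB
        _ = B := mul_one _
    rw [norm_mul]
    calc ‖hk m (S.be t) (S.w t) j z‖ * ‖Ws (S.w t) (-j) z‖
        ≤ (K * (1 / (1 + |(j : ℝ)|) ^ 4)) * (‖Complex.exp (-Complex.cosh z)‖ * B) :=
          mul_le_mul hh hW (norm_nonneg _) (by positivity)
      _ = _ := by ring
  refine h1.trans (le_of_eq ?_)
  ring

theorem sb_bounds (S : Sol T m Λ σ B) (hT : 0 < T) (hm : 40 ≤ m) (hΛ : 1 ≤ Λ) (hη : Λ ≤ m)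
    (hσ : 0 < σ) (hσ1 : σ ≤ 1) (hB : 0 ≤ B) :
    ∃ K : ℝ, ∀ t ∈ Icc 0 T, ∀ z ∈ Str σ, ‖S.Om t z‖ ≤ K * ‖Complex.exp (-Complex.cosh z)‖ ∧
      ‖S.al t z‖ ≤ K ∧ ∀ k, ‖NW m (S.be t) (S.w t) k z‖ ≤ K * wt 2 k σ := by
  obtain ⟨K1, hK1, hNW, -, -, -⟩ := sb_N S hm hσ hσ1 hB
  obtain ⟨C, hC, hE⟩ := sb_E (σ := σ) hσ1
  obtain ⟨K2, hK2⟩ := sb_PPbound S hm hσ hσ1 hB
  have hm0 : (0 : ℝ) < m := by
    have : 0 < m := by omega
    exact_mod_cast this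
  have heta0 : 0 ≤ Λ / m := div_nonneg (by linarith) hm0.le
  have heta1 : Λ / m ≤ 1 := (div_le_one hm0).2 hη
  have hnorm : ‖((Λ / m : ℝ) : ℂ)‖ = Λ / m := by
    rw [Complex.norm_real, Real.norm_eq_abs, abs_of_nonneg heta0]
  have hObn : ∀ z ∈ Str σ, ‖Ob z‖ ≤ C * ‖Complex.exp (-Complex.cosh z)‖ := by
    intro z hz
    have h1 : Ob z = Complex.exp (-Complex.cosh z) * Complex.exp (-Complex.cosh z) := by
      unfold Ob
      rw [← Complex.exp_add]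
      congr 1
      ring
    rw [h1, norm_mul]
    exact mul_le_mul_of_nonneg_right (hE z hz) (norm_nonneg _)
  have hObn2 : ∀ z ∈ Str σ, ‖Ob z‖ ≤ C * C := fun z hz =>
    (hObn z hz).trans (mul_le_mul_of_nonneg_left (hE z hz) hC.le)
  have hThn : ∀ t ∈ Icc 0 T, ∀ z ∈ Str σ,
      ‖S.Th t z‖ ≤ Λ * (|K2| * ‖Complex.exp (-Complex.cosh z)‖ * T) := by
    intro t ht z hz
    rw [sb_ThP S hm hσ hσ1 hB ht hz, norm_mul, Complex.norm_real, Real.norm_eq_abs,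
      abs_of_nonneg (by linarith : 0 ≤ Λ)]
    refine mul_le_mul_of_nonneg_left ?_ (by linarith)
    have h1 := intervalIntegral.norm_integral_le_of_norm_le_const (a := 0) (b := t)
      (f := fun τ => PP m (S.be τ) (S.w τ) z)
      (C := |K2| * ‖Complex.exp (-Complex.cosh z)‖) (fun τ hτ => by
        rw [uIoc_of_le ht.1] at hτ
        refine (hK2 τ ⟨hτ.1.le, hτ.2.trans ht.2⟩ z hz).trans ?_
        exact mul_le_mul_of_nonneg_right (le_abs_self _) (norm_nonneg _))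
    refine h1.trans ?_
    rw [sub_zero, abs_of_nonneg ht.1]
    exact mul_le_mul_of_nonneg_left ht.2 (by positivity)
  have hThn2 : ∀ t ∈ Icc 0 T, ∀ z ∈ Str σ, ‖S.Th t z‖ ≤ B := by
    intro t ht z hz
    refine (S.close_Th t ht z hz).trans ?_
    calc B * (Λ / m) ≤ B * 1 := mul_le_mul_of_nonneg_left heta1 hB
      _ = B := mul_one _
  set KO : ℝ := C + Λ * (|K2| * T) with hKO
  have hKO0 : 0 ≤ KO := by
    have : 0 ≤ Λ := by linarith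
    positivity
  set KA : ℝ := T * (C * C) + B * T with hKA
  have hKA0 : 0 ≤ KA := by positivity
  refine ⟨KO + KA + K1, fun t ht z hz => ⟨?_, ?_, fun k => ?_⟩⟩
  · have h1 : ‖S.Om t z‖ ≤ KO * ‖Complex.exp (-Complex.cosh z)‖ := by
      have e4 : S.Om t z = Ob z + ((Λ / m : ℝ) : ℂ) * S.Th t z := rfl
      rw [e4]
      refine (norm_add_le _ _).trans ?_
      rw [norm_mul, hnorm]
      have h2 : Λ / m * ‖S.Th t z‖ ≤ 1 * (Λ * (|K2| * ‖Complex.exp (-Complex.cosh z)‖ * T)) :=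
        mul_le_mul heta1 (hThn t ht z hz) (norm_nonneg _) zero_le_one
      have h3 := hObn z hz
      have h4 : KO * ‖Complex.exp (-Complex.cosh z)‖ = C * ‖Complex.exp (-Complex.cosh z)‖ +
          1 * (Λ * (|K2| * ‖Complex.exp (-Complex.cosh z)‖ * T)) := by
        rw [hKO]; ring
      rw [h4]
      exact add_le_add h3 h2
    refine h1.trans (mul_le_mul_of_nonneg_right ?_ (norm_nonneg _))
    linarith
  · have h1 : ‖S.al t z‖ ≤ KA := by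
      have e4 : S.al t z = (t : ℂ) * Ob z + ((Λ / m : ℝ) : ℂ) * ∫ τ in (0 : ℝ)..t, S.Th τ z := rfl
      rw [e4]
      refine (norm_add_le _ _).trans ?_
      rw [norm_mul, norm_mul, hnorm, Complex.norm_real, Real.norm_eq_abs, abs_of_nonneg ht.1]
      have h2 : t * ‖Ob z‖ ≤ T * (C * C) :=
        mul_le_mul ht.2 (hObn2 z hz) (norm_nonneg _) hT.le
      have h3 : ‖∫ τ in (0 : ℝ)..t, S.Th τ z‖ ≤ B * T := by
        have h1 := intervalIntegral.norm_integral_le_of_norm_le_const (a := 0) (b := t)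
          (f := fun τ => S.Th τ z) (C := B) (fun τ hτ => by
            rw [uIoc_of_le ht.1] at hτ
            exact hThn2 τ ⟨hτ.1.le, hτ.2.trans ht.2⟩ z hz)
        refine h1.trans ?_
        rw [sub_zero, abs_of_nonneg ht.1]
        exact mul_le_mul_of_nonneg_left ht.2 hB
      have h4 : Λ / m * ‖∫ τ in (0 : ℝ)..t, S.Th τ z‖ ≤ 1 * (B * T) :=
        mul_le_mul heta1 h3 (norm_nonneg _) zero_le_one
      rw [one_mul] at h4
      exact add_le_add h2 h4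
    linarith
  · refine (hNW t ht k z hz).trans (mul_le_mul_of_nonneg_right ?_ ?_)
    · linarith
    · unfold wt
      positivity

end SB

theorem sol_basic (T : ℝ) (m : ℕ) (Λ σ B : ℝ) (hT : 0 < T) (hm : 40 ≤ m) (hΛ : 1 ≤ Λ)
    (hη : Λ ≤ m) (hσ : 0 < σ) (hσ1 : σ ≤ 1 / 2) (hB : 1 ≤ B) (S : Sol T m Λ σ B) :
    -- holomorphy
    (∀ t ∈ Icc 0 T, DifferentiableOn ℂ (S.be t) (Str σ) ∧ DifferentiableOn ℂ (S.Om t) (Str σ) ∧
      DifferentiableOn ℂ (S.al t) (Str σ)) ∧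
    -- `α' = β`
    (∀ t ∈ Icc 0 T, ∀ z ∈ Str σ, deriv (S.al t) z = S.be t z) ∧
    -- time derivatives
    (∀ t ∈ Icc 0 T, ∀ k, ∀ z ∈ Str σ, HasDerivWithinAt (fun τ => S.w τ k z)
      (((Λ / m : ℝ) : ℂ) * NW m (S.be t) (S.w t) k z) (Icc 0 T) t) ∧
    (∀ t ∈ Icc 0 T, ∀ z ∈ Str σ, HasDerivWithinAt (fun τ => S.al τ z) (S.Om t z) (Icc 0 T) t) ∧
    (∀ z ∈ Str σ, ContinuousOn (fun t => S.Om t z) (Icc 0 T)) ∧
    (∀ k, ∀ z ∈ Str σ, ContinuousOn (fun t => NW m (S.be t) (S.w t) k z) (Icc 0 T)) ∧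
    -- mean vorticity and mean angular velocity
    (∀ t ∈ Icc 0 T, ∀ z ∈ Str σ,
      (Λ : ℂ) * Ws (S.w t) 0 z = 2 * S.Om t z + deriv (S.Om t) z) ∧
    -- symmetry
    (∀ t ∈ Icc 0 T, ∀ z ∈ Str σ, S.be t ((starRingEnd ℂ) z) = (starRingEnd ℂ) (S.be t z) ∧
      S.Om t ((starRingEnd ℂ) z) = (starRingEnd ℂ) (S.Om t z) ∧
      S.al t ((starRingEnd ℂ) z) = (starRingEnd ℂ) (S.al t z)) ∧
    -- bounds
    (∃ K : ℝ, ∀ t ∈ Icc 0 T, ∀ z ∈ Str σ, ‖S.Om t z‖ ≤ K * ‖Complex.exp (-Complex.cosh z)‖ ∧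
      ‖S.al t z‖ ≤ K ∧ ∀ k, ‖NW m (S.be t) (S.w t) k z‖ ≤ K * wt 2 k σ) := by
  have hσ2 : σ ≤ 1 := by linarith
  have hB0 : 0 ≤ B := by linarith
  refine ⟨?_, ?_, ?_, ?_, ?_, ?_, ?_, ?_, ?_⟩
  · intro t ht
    refine ⟨(sb_good S ht).bd, fun z hz => ?_, fun z hz => ?_⟩
    · exact (sb_Om S ht hz).differentiableAt.differentiableWithinAt
    · exact (sb_al S hT.le hB0 ht hz).differentiableAt.differentiableWithinAt
  · intro t ht z hz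
    exact (sb_al S hT.le hB0 ht hz).deriv
  · intro t ht k z hz
    exact sb_wder S hm hσ hσ2 hB0 ht k hz
  · intro t ht z hz
    exact sb_alder S ht hz
  · intro z hz
    exact sb_contOm S hz
  · intro k z hz
    exact sb_contNW S hm hσ hσ2 hB0 k hz
  · intro t ht z hz
    exact sb_mean S hm hΛ hσ hσ2 hB0 ht hz
  · intro t ht z hz
    exact sb_sym S ht hz
  · exact sb_bounds S hT hm hΛ hη hσ hσ2 hB0

/-- quantitative decay of `Th` (constant independent of `m`, `Λ`) -/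
theorem sol_Th_decay (T σ B : ℝ) (hT : 0 < T) (hσ : 0 < σ) (hσ1 : σ ≤ 1 / 2) (hB : 1 ≤ B) :
    ∃ K > 0, ∀ (m : ℕ) (Λ : ℝ), 40 ≤ m → 1 ≤ Λ → Λ ≤ m → ∀ S : Sol T m Λ σ B,
      ∀ t ∈ Icc 0 T, ∀ z ∈ Str σ, ‖S.Th t z‖ ≤ K * (Λ / m) * Real.exp (-(10 * |z.re|)) := by
  have hσ2 : σ ≤ 1 := by linarith
  have hB0 : 0 ≤ B := by linarith
  obtain ⟨K, hK, h⟩ := N_est B B hB0 hB0
  refine ⟨K * T, mul_pos hK hT, fun m Λ hm hΛ hη S t ht z hz => ?_⟩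
  have hm0 : (0 : ℝ) < m := by
    have : 0 < m := by omega
    exact_mod_cast this
  have heta0 : 0 ≤ Λ / m := div_nonneg (by linarith) hm0.le
  have h1 : S.Th t z = ((Λ / m : ℝ) : ℂ) * ∫ τ in (0 : ℝ)..t, NT m (S.be τ) (S.w τ) z :=
    S.eq_Th t ht z hz
  rw [h1, norm_mul, Complex.norm_real, Real.norm_eq_abs, abs_of_nonneg heta0]
  have h2 : ‖∫ τ in (0 : ℝ)..t, NT m (S.be τ) (S.w τ) z‖ ≤
      K * Real.exp (-(10 * |z.re|)) * T := by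
    have h1 := intervalIntegral.norm_integral_le_of_norm_le_const (a := 0) (b := t)
      (f := fun τ => NT m (S.be τ) (S.w τ) z) (C := K * Real.exp (-(10 * |z.re|)))
      (fun τ hτ => by
        rw [uIoc_of_le ht.1] at hτ
        exact (h m hm σ hσ hσ2 _ _ (sb_good S ⟨hτ.1.le, hτ.2.trans ht.2⟩)).2.2.2.2.2.1 z hz)
    refine h1.trans ?_
    rw [sub_zero, abs_of_nonneg ht.1]
    exact mul_le_mul_of_nonneg_left ht.2 (by positivity)
  refine (mul_le_mul_of_nonneg_left h2 heta0).trans (le_of_eq ?_)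
  ring

end JE3

end Pool.Agent.Helper383.NI
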