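import Pool.Agent.Helper383.NI.Defs
import Pool.Agent.Helper383.NI.D4

open Complex MeasureTheory Set Filter Topology

namespace Pool.Agent.Helper383.NI

open JD4 (N_symm)

namespace JE4

/-- reality of the modes of the vorticity and angular structure -/
theorem modes_real (T : ℝ) (m : ℕ) (Λ σ B : ℝ) (hT : 0 < T) (hm : 40 ≤ m) (hσ : 0 < σ)
    (S : Sol T m Λ σ B)
    (hsym : ∀ t ∈ Icc 0 T, ∀ z ∈ Str σ, S.be t ((starRingEnd ℂ) z) = (starRingEnd ℂ) (S.be t z) ∧
      S.Om t ((starRingEnd ℂ) z) = (starRingEnd ℂ) (S.Om t z) ∧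
      S.al t ((starRingEnd ℂ) z) = (starRingEnd ℂ) (S.al t z)) :
    ∀ t ∈ Icc 0 T, ∀ n : ℤ, ∀ x : ℝ,
      S.cw t (-n) x = (starRingEnd ℂ) (S.cw t n x) ∧
      S.ct t (-n) x = (starRingEnd ℂ) (S.ct t n x) ∧
      Gk m (S.be t) (S.w t) (-n) x = (starRingEnd ℂ) (Gk m (S.be t) (S.w t) n x) ∧
      Hk m (S.be t) (S.w t) (-n) x = (starRingEnd ℂ) (Hk m (S.be t) (S.w t) n x) := by
  intro t ht n x
  have hx : (x : ℂ) ∈ Str σ := by
    change |(x : ℂ).im| < σ
    rw [Complex.ofReal_im, abs_zero]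
    exact hσ
  have hcx : (starRingEnd ℂ) (x : ℂ) = (x : ℂ) := Complex.conj_ofReal x
  obtain ⟨hG, hH, hN, -⟩ := N_symm m σ hσ (S.be t) (S.w t) (fun z hz => (hsym t ht z hz).1)
    (S.symm_w t ht)
  have hG' := hG n x hx
  have hH' := hH n x hx
  rw [hcx] at hG' hH'
  obtain ⟨-, hOm, hal⟩ := hsym t ht x hx
  rw [hcx] at hOm hal
  have hch : (starRingEnd ℂ) (Complex.exp (-Complex.cosh (x : ℂ))) = Complex.exp (-Complex.cosh (x : ℂ)) := by
    rw [← Complex.exp_conj, map_neg, ← Complex.cosh_conj, hcx]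
  have hWs : ∀ k, (starRingEnd ℂ) (Ws (S.w t) k x) = Ws (S.w t) (-k) x := by
    intro k
    have h1 := S.symm_w t ht k x hx
    rw [hcx] at h1
    unfold Ws
    rw [map_mul, hch, h1]
  have hNW : ∀ k, (starRingEnd ℂ) (NW m (S.be t) (S.w t) k x) = NW m (S.be t) (S.w t) (-k) x := by
    intro k
    have h1 := hN k x hx
    rw [hcx] at h1
    exact h1.symm
  have hexp : (starRingEnd ℂ) (Complex.exp (-(I * (n : ℂ) * S.al t x)))
      = Complex.exp (-(I * ((-n : ℤ) : ℂ) * S.al t x)) := by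
    rw [← Complex.exp_conj, map_neg, map_mul, map_mul, Complex.conj_I, ← hal]
    have : (starRingEnd ℂ) (n : ℂ) = (n : ℂ) := by
      rw [← Complex.ofReal_intCast, Complex.conj_ofReal]
    rw [this]
    push_cast
    congr 1
    ring
  have hint : (starRingEnd ℂ) (n : ℂ) = (n : ℂ) := by
    rw [← Complex.ofReal_intCast, Complex.conj_ofReal]
  refine ⟨?_, ?_, hG', hH'⟩
  · unfold Sol.cw
    by_cases hd : (m : ℤ) ∣ n
    · rw [if_pos hd, if_pos ((dvd_neg).2 hd), Int.neg_ediv_of_dvd hd, map_mul, map_mul, hexp, hWs,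
        Complex.conj_ofReal]
    · rw [if_neg hd, if_neg (fun h => hd ((dvd_neg).1 h)), map_zero]
  · unfold Sol.ct
    by_cases hd : (m : ℤ) ∣ n
    · rw [if_pos hd, if_pos ((dvd_neg).2 hd), Int.neg_ediv_of_dvd hd, map_mul, map_mul, map_sub,
        map_mul, map_mul, map_mul, map_mul, map_mul, hexp, hWs, hNW, hch, ← hOm,
        Complex.conj_ofReal, Complex.conj_ofReal, Complex.conj_I, hint]
      push_cast
      ring
    · rw [if_neg hd, if_neg (fun h => hd ((dvd_neg).1 h)), map_zero]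

end JE4

end Pool.Agent.Helper383.NI
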