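import Pool.Agent.Helper383.NI.Defs

open Complex MeasureTheory Set Filter Topology

namespace Pool.Agent.Helper383.NI


namespace JF0

theorem RDA_isOpen_Str (σ : ℝ) : IsOpen (Str σ) := by
  have : Str σ = (fun z : ℂ => |z.im|) ⁻¹' (Iio σ) := rfl
  rw [this]
  exact (continuous_abs.comp Complex.continuous_im).isOpen_preimage _ isOpen_Iio

theorem RDA_real_mem_Str {σ : ℝ} (hσ : 0 < σ) (x : ℝ) : (x : ℂ) ∈ Str σ := by
  simp only [Str, Set.mem_ofPred_eq, Complex.ofReal_im, abs_zero]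
  exact hσ

theorem RDA_iteratedDeriv_diff {σ : ℝ} {F : ℂ → ℂ} (hF : DifferentiableOn ℂ F (Str σ)) (j : ℕ) :
    DifferentiableOn ℂ (iteratedDeriv j F) (Str σ) := by
  induction j with
  | zero => simpa [iteratedDeriv_zero] using hF
  | succ n ih =>
    rw [iteratedDeriv_succ]
    exact ih.deriv (RDA_isOpen_Str σ)

theorem RDA_iteratedDeriv_real {σ : ℝ} (hσ : 0 < σ) {F : ℂ → ℂ}
    (hF : DifferentiableOn ℂ F (Str σ)) (j : ℕ) :
    iteratedDeriv j (fun x : ℝ => F (x : ℂ)) = fun x : ℝ => iteratedDeriv j F (x : ℂ) := by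
  induction j with
  | zero => simp [iteratedDeriv_zero]
  | succ n ih =>
    rw [iteratedDeriv_succ, ih]
    funext x
    have h1 : DifferentiableAt ℂ (iteratedDeriv n F) (x : ℂ) :=
      (RDA_iteratedDeriv_diff hF n).differentiableAt
        ((RDA_isOpen_Str σ).mem_nhds (RDA_real_mem_Str hσ x))
    rw [iteratedDeriv_succ]
    exact h1.hasDerivAt.comp_ofReal.deriv

theorem RDA_smooth {σ : ℝ} (hσ : 0 < σ) {F : ℂ → ℂ}
    (hF : DifferentiableOn ℂ F (Str σ)) : ContDiff ℝ (⊤ : ℕ∞) (fun x : ℝ => F (x : ℂ)) := by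
  refine contDiff_of_differentiable_iteratedDeriv (fun n _ => ?_)
  rw [RDA_iteratedDeriv_real hσ hF n]
  intro x
  have h1 : DifferentiableAt ℂ (iteratedDeriv n F) (x : ℂ) :=
    (RDA_iteratedDeriv_diff hF n).differentiableAt
      ((RDA_isOpen_Str σ).mem_nhds (RDA_real_mem_Str hσ x))
  exact h1.hasDerivAt.comp_ofReal.differentiableAt

theorem RDA_closedBall {σ ρ : ℝ} (hρ : ρ < σ) (x : ℝ) :
    Metric.closedBall (x : ℂ) ρ ⊆ Str σ := by
  intro w hw
  rw [Metric.mem_closedBall, dist_eq_norm] at hw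
  have h1 : |(w - (x : ℂ)).im| ≤ ‖w - (x : ℂ)‖ := Complex.abs_im_le_norm _
  simp only [Complex.sub_im, Complex.ofReal_im, sub_zero] at h1
  exact lt_of_le_of_lt (h1.trans hw) hρ

theorem RDA_diffCont {σ ρ : ℝ} (hρ : ρ < σ) (x : ℝ) {F : ℂ → ℂ}
    (hF : DifferentiableOn ℂ F (Str σ)) : DiffContOnCl ℂ F (Metric.ball (x : ℂ) ρ) :=
  hF.diffContOnCl_ball (RDA_closedBall hρ x)

/-- scalar bound in `x` -/
theorem RDA_cosh_bound (N : ℕ) (r x : ℝ) (h : |x| - 1 ≤ |r|) :
    Real.exp (-(Real.cosh r / 4)) ≤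
      (N.factorial * 8 ^ N * Real.exp N) * Real.exp (-(N * |x|)) := by
  have h1 : Real.exp |r| / 2 ≤ Real.cosh r := by
    rw [← Real.cosh_abs, Real.cosh_eq]
    have := Real.exp_pos (-|r|)
    linarith
  have h2 : Real.exp (|x| - 1) / 8 ≤ Real.cosh r / 4 := by
    have := Real.exp_le_exp.mpr h
    linarith
  have hy : 0 < Real.exp (|x| - 1) / 8 := by positivity
  have h3 : (Real.exp (|x| - 1) / 8) ^ N / N.factorial ≤ Real.exp (Real.exp (|x| - 1) / 8) :=
    Real.pow_div_factorial_le_exp _ hy.le N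
  have h4 : (Real.exp (|x| - 1) / 8) ^ N / N.factorial ≤ Real.exp (Real.cosh r / 4) :=
    h3.trans (Real.exp_le_exp.mpr h2)
  have h5 : 0 < (Real.exp (|x| - 1) / 8) ^ N / N.factorial := by positivity
  have h6 : Real.exp (-(Real.cosh r / 4)) ≤ ((Real.exp (|x| - 1) / 8) ^ N / N.factorial)⁻¹ := by
    rw [Real.exp_neg]
    exact inv_anti₀ h5 h4
  refine h6.trans (le_of_eq ?_)
  have e1 : Real.exp (|x| - 1) ^ N = Real.exp (N * |x|) / Real.exp N := by
    rw [← Real.exp_nat_mul, ← Real.exp_sub]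
    congr 1
    ring
  rw [div_pow, e1, Real.exp_neg]
  have p1 := Real.exp_pos (N * |x|)
  have p2 := Real.exp_pos (N : ℝ)
  field_simp

/-- scalar bound in `k` -/
theorem RDA_k_bound (N : ℕ) (s κ : ℝ) (hs : 0 < s) (hκ : 0 ≤ κ) :
    Real.exp (-(s * κ)) ≤ (Real.exp s * N.factorial / s ^ N) / (1 + κ) ^ N := by
  have hy : 0 < s * (1 + κ) := by positivity
  have h3 : (s * (1 + κ)) ^ N / N.factorial ≤ Real.exp (s * (1 + κ)) :=
    Real.pow_div_factorial_le_exp _ hy.le N
  have h5 : 0 < (s * (1 + κ)) ^ N / N.factorial := by positivity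
  have h6 : Real.exp (-(s * (1 + κ))) ≤ ((s * (1 + κ)) ^ N / N.factorial)⁻¹ := by
    rw [Real.exp_neg]
    exact inv_anti₀ h5 h3
  have e1 : Real.exp (-(s * κ)) = Real.exp s * Real.exp (-(s * (1 + κ))) := by
    rw [← Real.exp_add]
    congr 1
    ring
  rw [e1]
  have h7 := mul_le_mul_of_nonneg_left h6 (Real.exp_pos s).le
  refine h7.trans (le_of_eq ?_)
  rw [mul_pow]
  have p1 := Real.exp_pos s
  have p2 : (0:ℝ) < 1 + κ := by linarith
  field_simp

theorem RDt_of_analytic (T σ A s : ℝ) (hσ : 0 < σ) (hs : 0 < s) (c : ℝ → ℤ → ℂ → ℂ)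
    (hd : ∀ t ∈ Icc 0 T, ∀ k, DifferentiableOn ℂ (c t k) (Str σ))
    (hb : ∀ t ∈ Icc 0 T, ∀ k, ∀ z ∈ Str σ,
      ‖c t k z‖ ≤ A * Real.exp (-(s * |(k : ℝ)|)) * Real.exp (-(Real.cosh z.re / 4)))
    (hc : ∀ k, ∀ z ∈ Str σ, ContinuousOn (fun t => c t k z) (Icc 0 T)) :
    RDt T (fun t k (x : ℝ) => c t k (x : ℂ)) := by
  obtain ⟨ρ, hρ0, hρσ, hρ1⟩ : ∃ ρ : ℝ, 0 < ρ ∧ ρ < σ ∧ ρ ≤ 1 := by
    refine ⟨min σ 1 / 2, ?_, ?_, ?_⟩
    · have : 0 < min σ 1 := lt_min hσ one_pos
      linarith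
    · have h1 : 0 < min σ 1 := lt_min hσ one_pos
      have h2 := min_le_left σ 1
      linarith
    · have h1 : 0 < min σ 1 := lt_min hσ one_pos
      have h2 := min_le_right σ 1
      linarith
  refine ⟨?_, ?_, ?_⟩
  · intro t ht k
    exact RDA_smooth hσ (hd t ht k)
  · intro j N
    refine ⟨j.factorial * (|A| * (Real.exp s * N.factorial / s ^ N) *
      (N.factorial * 8 ^ N * Real.exp N)) / ρ ^ j, ?_⟩
    intro t ht k x
    rw [RDA_iteratedDeriv_real hσ (hd t ht k) j]
    have hk0 : (0:ℝ) ≤ |(k : ℝ)| := abs_nonneg _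
    have hkb := RDA_k_bound N s |(k : ℝ)| hs hk0
    have hC : ∀ z ∈ Metric.sphere (x : ℂ) ρ, ‖c t k z‖ ≤
        |A| * ((Real.exp s * N.factorial / s ^ N) / (1 + |(k : ℝ)|) ^ N) *
          ((N.factorial * 8 ^ N * Real.exp N) * Real.exp (-(N * |x|))) := by
      intro z hz
      have hzS : z ∈ Str σ := RDA_closedBall hρσ x (Metric.sphere_subset_closedBall hz)
      have h0 := hb t ht k z hzS
      have hzre : |x| - 1 ≤ |z.re| := by
        rw [Metric.mem_sphere, dist_eq_norm] at hz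
        have h1 : |(z - (x : ℂ)).re| ≤ ‖z - (x : ℂ)‖ := Complex.abs_re_le_norm _
        simp only [Complex.sub_re, Complex.ofReal_re] at h1
        have h2 : |x| - |z.re| ≤ |x - z.re| := abs_sub_abs_le_abs_sub x z.re
        rw [abs_sub_comm] at h2
        linarith
      have hcb := RDA_cosh_bound N z.re x hzre
      refine h0.trans ?_
      have hA : A ≤ |A| := le_abs_self A
      have hp1 := Real.exp_pos (-(s * |(k : ℝ)|))
      have hp2 := Real.exp_pos (-(Real.cosh z.re / 4))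
      calc A * Real.exp (-(s * |(k : ℝ)|)) * Real.exp (-(Real.cosh z.re / 4))
          ≤ |A| * Real.exp (-(s * |(k : ℝ)|)) * Real.exp (-(Real.cosh z.re / 4)) := by
            gcongr
        _ ≤ _ := by
            gcongr
    have hmain := Complex.norm_iteratedDeriv_le_of_forall_mem_sphere_norm_le j hρ0
      (RDA_diffCont hρσ x (hd t ht k)) hC
    refine hmain.trans (le_of_eq ?_)
    have p2 : (0:ℝ) < 1 + |(k : ℝ)| := by linarith
    have p3 := Real.exp_pos (-(N * |x|))
    field_simp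
  · intro j k x
    have hform : ∀ t ∈ Icc 0 T, iteratedDeriv j (fun x : ℝ => c t k (x : ℂ)) x =
        (2 * Real.pi * I / j.factorial)⁻¹ •
          ∮ z in C((x : ℂ), ρ), (1 / (z - (x : ℂ)) ^ (j + 1)) • c t k z := by
      intro t ht
      rw [RDA_iteratedDeriv_real hσ (hd t ht k) j]
      have h1 := DiffContOnCl.circleIntegral_one_div_sub_center_pow_smul hρ0 j
        (RDA_diffCont hρσ x (hd t ht k))
      rw [h1, inv_smul_smul₀]
      have h2 : (2 * (Real.pi : ℂ) * I) ≠ 0 := Complex.two_pi_I_ne_zero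
      have h3 : ((j.factorial : ℕ) : ℂ) ≠ 0 := by exact_mod_cast Nat.factorial_ne_zero j
      exact div_ne_zero h2 h3
    refine ContinuousOn.congr ?_ hform
    suffices hmain : ContinuousOn (fun t : ℝ =>
        ∮ z in C((x : ℂ), ρ), (1 / (z - (x : ℂ)) ^ (j + 1)) • c t k z) (Icc 0 T) from
      hmain.const_smul ((2 * Real.pi * I / j.factorial)⁻¹ : ℂ)
    have hsph : ∀ θ : ℝ, circleMap (x : ℂ) ρ θ ∈ Str σ := fun θ =>
      RDA_closedBall hρσ x (Metric.sphere_subset_closedBall (circleMap_mem_sphere _ hρ0.le θ))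
    intro t₀ ht₀
    unfold circleIntegral
    refine intervalIntegral.continuousWithinAt_of_dominated_interval
      (bound := fun _ => ρ * ((1 / ρ ^ (j + 1)) * (|A| * 1 * 1))) ?_ ?_ ?_ ?_
    · filter_upwards [self_mem_nhdsWithin] with t ht
      have hcirc : Continuous (fun θ : ℝ => c t k (circleMap (x : ℂ) ρ θ)) := by
        have h1 : ContinuousOn (c t k) (Str σ) := (hd t ht k).continuousOn
        exact h1.comp_continuous (continuous_circleMap _ _) hsph
      have hne : ∀ θ : ℝ, circleMap (x : ℂ) ρ θ - (x : ℂ) ≠ 0 := by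
        intro θ
        rw [sub_ne_zero]
        exact circleMap_ne_center hρ0.ne'
      have hcont : Continuous (fun θ : ℝ => deriv (circleMap (x : ℂ) ρ) θ •
          (1 / (circleMap (x : ℂ) ρ θ - (x : ℂ)) ^ (j + 1)) • c t k (circleMap (x : ℂ) ρ θ)) := by
        simp only [deriv_circleMap, smul_eq_mul]
        refine Continuous.mul ?_ (Continuous.mul ?_ hcirc)
        · exact (continuous_circleMap _ _).mul continuous_const
        · refine Continuous.div continuous_const ?_ (fun θ => pow_ne_zero _ (hne θ))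
          exact ((continuous_circleMap _ _).sub continuous_const).pow _
      exact hcont.aestronglyMeasurable
    · filter_upwards [self_mem_nhdsWithin] with t ht
      refine Filter.Eventually.of_forall (fun θ _ => ?_)
      have hz : circleMap (x : ℂ) ρ θ ∈ Str σ := hsph θ
      have hb1 := hb t ht k _ hz
      have hb2 : ‖c t k (circleMap (x : ℂ) ρ θ)‖ ≤ |A| * 1 * 1 := by
        refine hb1.trans ?_
        have e1 : Real.exp (-(s * |(k : ℝ)|)) ≤ 1 := by
          rw [Real.exp_le_one_iff]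
          have := mul_nonneg hs.le (abs_nonneg (k : ℝ))
          linarith
        have e2 : Real.exp (-(Real.cosh (circleMap (x : ℂ) ρ θ).re / 4)) ≤ 1 := by
          rw [Real.exp_le_one_iff]
          have := Real.cosh_pos (circleMap (x : ℂ) ρ θ).re
          linarith
        have e3 := Real.exp_pos (-(s * |(k : ℝ)|))
        have e4 := Real.exp_pos (-(Real.cosh (circleMap (x : ℂ) ρ θ).re / 4))
        calc A * Real.exp (-(s * |(k : ℝ)|)) * Real.exp (-(Real.cosh (circleMap (x : ℂ) ρ θ).re / 4))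
            ≤ |A| * Real.exp (-(s * |(k : ℝ)|)) *
                Real.exp (-(Real.cosh (circleMap (x : ℂ) ρ θ).re / 4)) := by
              have := le_abs_self A
              gcongr
          _ ≤ _ := by gcongr
      have hn1 : ‖deriv (circleMap (x : ℂ) ρ) θ‖ = ρ := by
        rw [deriv_circleMap, norm_mul, Complex.norm_I, mul_one, circleMap_zero]
        rw [norm_mul, Complex.norm_exp_ofReal_mul_I, mul_one, Complex.norm_real, Real.norm_eq_abs,
          abs_of_pos hρ0]
      have hn2 : ‖circleMap (x : ℂ) ρ θ - (x : ℂ)‖ = ρ := by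
        have := circleMap_mem_sphere (x : ℂ) hρ0.le θ
        rwa [Metric.mem_sphere, dist_eq_norm] at this
      rw [norm_smul, norm_smul, norm_div, norm_one, norm_pow, hn1, hn2]
      gcongr
    · exact intervalIntegrable_const
    · refine Filter.Eventually.of_forall (fun θ _ => ?_)
      have h1 := hc k _ (hsph θ) t₀ ht₀
      exact continuousWithinAt_const.mul (continuousWithinAt_const.mul h1)

end JF0

end Pool.Agent.Helper383.NI
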