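import Pool.Agent.Helper383.NI.Defs
import Pool.Agent.Helper383.NI.D0
import Pool.Agent.Helper383.NI.D2
import Pool.Agent.Helper383.NI.E3
import Pool.Agent.Helper383.NI.F0

open Complex MeasureTheory Set Filter Topology

namespace Pool.Agent.Helper383.NI

open JD0 (E_bound)
open JD2 (N_est)
open JE3 (sol_basic sol_Th_decay)
open JF0 (RDt_of_analytic)

namespace JF1

theorem cosh_re' (z : ℂ) : (Complex.cosh z).re = Real.cosh z.re * Real.cos z.im := by
  conv_lhs => rw [← Complex.re_add_im z]
  rw [Complex.cosh_add, Complex.cosh_mul_I, Complex.sinh_mul_I, ← Complex.ofReal_cosh,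
    ← Complex.ofReal_sinh, ← Complex.ofReal_cos, ← Complex.ofReal_sin]
  simp [Complex.cos_ofReal_re]

theorem E_half {σ : ℝ} (hσ1 : σ ≤ 1 / 2) (z : ℂ) (hz : z ∈ Str σ) :
    ‖Complex.exp (-Complex.cosh z)‖ ≤ Real.exp (-(Real.cosh z.re / 2)) := by
  rw [Complex.norm_exp, Complex.neg_re, cosh_re']
  apply Real.exp_le_exp.2
  have h1 : |z.im| < 1 / 2 := lt_of_lt_of_le hz hσ1
  have h2 : z.im ^ 2 ≤ 1 / 4 := by
    rw [← sq_abs]
    nlinarith [abs_nonneg z.im]
  have h3 := Real.one_sub_sq_div_two_le_cos (x := z.im)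
  have h4 : 1 ≤ Real.cosh z.re := Real.one_le_cosh _
  nlinarith

theorem str_open (σ : ℝ) : IsOpen (Str σ) := by
  unfold Str
  exact isOpen_lt (by fun_prop) continuous_const

theorem str_convex (σ : ℝ) : Convex ℝ (Str σ) := by
  have : Str σ = Complex.imLm ⁻¹' (Ioo (-σ) σ) := by
    ext z
    simp only [Str, mem_setOf_eq, mem_preimage, mem_Ioo, abs_lt]
    rfl
  rw [this]
  exact (convex_Ioo _ _).linear_preimage _

theorem str_mono {σ σ' : ℝ} (h : σ' ≤ σ) : Str σ' ⊆ Str σ := fun _ hz => lt_of_lt_of_le hz h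

theorem wt_le (p : ℕ) (k : ℤ) (σ : ℝ) : wt p k σ ≤ Real.exp (-(σ * |(k : ℝ)|)) := by
  unfold wt
  apply div_le_self (Real.exp_pos _).le
  apply one_le_pow₀
  linarith [abs_nonneg (k : ℝ)]

theorem modes_RDt (T : ℝ) (m : ℕ) (Λ σ B : ℝ) (hT : 0 < T) (hm : 40 ≤ m) (hΛ : 1 ≤ Λ)
    (hη : Λ ≤ m) (hσ : 0 < σ) (hσ1 : σ ≤ 1 / 2) (hB : 1 ≤ B) (S : Sol T m Λ σ B) :
    RDt T (fun t n (x : ℝ) => S.cw t n (x : ℂ)) ∧ RDt T (fun t n (x : ℝ) => S.ct t n (x : ℂ)) ∧
    (∀ t ∈ Icc 0 T, ∀ n : ℤ, ∀ x : ℝ, HasDerivWithinAt (fun τ => S.cw τ n (x : ℂ))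
      (S.ct t n (x : ℂ)) (Icc 0 T) t) := by
  obtain ⟨hhol, hder, hwt, halt, hOmc, hNWc, -, hsym, K, hK⟩ :=
    sol_basic T m Λ σ B hT hm hΛ hη hσ hσ1 hB S
  obtain ⟨K0, hK0, hN⟩ := N_est B B (by linarith) (by linarith)
  have hNW : ∀ t ∈ Icc 0 T, ∀ k, DifferentiableOn ℂ (NW m (S.be t) (S.w t) k) (Str σ) := by
    intro t ht k
    exact (hN m hm σ hσ (by linarith) (S.be t) (S.w t) (S.good t ht)).1 k
  have hm0 : (0 : ℝ) < m := by
    have : 0 < m := by omega
    exact_mod_cast this
  have hmz : (m : ℤ) ≠ 0 := by omega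
  have hKnn : 0 ≤ K := by
    have h0 : (0 : ℝ) ∈ Icc 0 T := ⟨le_refl _, hT.le⟩
    have hz0 : (0 : ℂ) ∈ Str σ := by simp [Str, hσ]
    exact (norm_nonneg _).trans (hK 0 h0 0 hz0).2.1
  -- imaginary part of al
  have him : ∀ t ∈ Icc 0 T, ∀ z ∈ Str σ, |(S.al t z).im| ≤ B * |z.im| := by
    intro t ht z hz
    have hx : ((z.re : ℝ) : ℂ) ∈ Str σ := by simp [Str, hσ]
    have h1 := (hsym t ht _ hx).2.2
    rw [Complex.conj_ofReal] at h1
    have h2 : (S.al t (z.re : ℂ)).im = 0 := Complex.conj_eq_iff_im.1 h1.symm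
    have h3 : ‖S.al t z - S.al t (z.re : ℂ)‖ ≤ B * ‖z - (z.re : ℂ)‖ := by
      refine Convex.norm_image_sub_le_of_norm_deriv_le (𝕜 := ℂ) (s := Str σ) ?_ ?_ (str_convex σ) hx hz
      · intro y hy
        exact ((hhol t ht).2.2 y hy).differentiableAt ((str_open σ).mem_nhds hy)
      · intro y hy
        rw [hder t ht y hy]
        exact (S.good t ht).b0 y hy
    have h4 : ‖z - (z.re : ℂ)‖ = |z.im| := by
      have : z - (z.re : ℂ) = (z.im : ℂ) * I := by
        apply Complex.ext <;> simp
      rw [this, norm_mul, Complex.norm_I, mul_one, Complex.norm_real, Real.norm_eq_abs]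
    rw [h4] at h3
    calc |(S.al t z).im| = |(S.al t z - S.al t (z.re : ℂ)).im| := by
          rw [Complex.sub_im, h2, sub_zero]
      _ ≤ ‖S.al t z - S.al t (z.re : ℂ)‖ := Complex.abs_im_le_norm _
      _ ≤ _ := h3
  set σ' : ℝ := σ / (2 * m * B) with hσ'
  have hσ'pos : 0 < σ' := by positivity
  have hσ'le : σ' ≤ σ := by
    rw [hσ']
    apply div_le_self hσ.le
    have : (1 : ℝ) ≤ m := by
      have : 1 ≤ m := by omega
      exact_mod_cast this
    nlinarith
  have hss : Str σ' ⊆ Str σ := str_mono hσ'le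
  -- the exponential factor
  have hex : ∀ t ∈ Icc 0 T, ∀ k : ℤ, ∀ z ∈ Str σ',
      ‖Complex.exp (-(I * (((m : ℤ) * k : ℤ) : ℂ) * S.al t z))‖ ≤ Real.exp (σ * |(k : ℝ)| / 2) := by
    intro t ht k z hz
    rw [Complex.norm_exp]
    apply Real.exp_le_exp.2
    have h1 : (-(I * (((m : ℤ) * k : ℤ) : ℂ) * S.al t z)).re = (m * k : ℝ) * (S.al t z).im := by
      push_cast
      simp [Complex.mul_re, Complex.mul_im]
    rw [h1]
    have h2 := him t ht z (hss hz)
    have h3 : |z.im| ≤ σ' := le_of_lt hz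
    calc (m * k : ℝ) * (S.al t z).im ≤ |(m * k : ℝ) * (S.al t z).im| := le_abs_self _
      _ = m * |(k : ℝ)| * |(S.al t z).im| := by rw [abs_mul, abs_mul, abs_of_pos hm0]
      _ ≤ m * |(k : ℝ)| * (B * σ') := by
          apply mul_le_mul_of_nonneg_left _ (by positivity)
          exact h2.trans (mul_le_mul_of_nonneg_left h3 (by linarith))
      _ = σ * |(k : ℝ)| / 2 := by
          rw [hσ']
          field_simp
  have hEc : ∀ z ∈ Str σ', ‖Complex.exp (-Complex.cosh z)‖ ≤ Real.exp (-(Real.cosh z.re / 4)) := by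
    intro z hz
    refine (E_half hσ1 z (hss hz)).trans (Real.exp_le_exp.2 ?_)
    have : 1 ≤ Real.cosh z.re := Real.one_le_cosh _
    linarith
  have hE1 : ∀ z ∈ Str σ', ‖Complex.exp (-Complex.cosh z)‖ ≤ 1 := by
    intro z hz
    refine (hEc z hz).trans (Real.exp_le_one_iff.2 ?_)
    have : 1 ≤ Real.cosh z.re := Real.one_le_cosh _
    linarith
  have hw : ∀ t ∈ Icc 0 T, ∀ k : ℤ, ∀ z ∈ Str σ', ‖S.w t k z‖ ≤ B * Real.exp (-(σ * |(k : ℝ)|)) := by
    intro t ht k z hz
    exact ((S.good t ht).w0 k z (hss hz)).trans (mul_le_mul_of_nonneg_left (wt_le _ _ _) (by linarith))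
  have hwc : ∀ k, ∀ z ∈ Str σ, ContinuousOn (fun t => S.w t k z) (Icc 0 T) := by
    intro k z hz t ht
    exact (hwt t ht k z hz).continuousWithinAt
  have halc : ∀ z ∈ Str σ, ContinuousOn (fun t => S.al t z) (Icc 0 T) := by
    intro z hz t ht
    exact (halt t ht z hz).continuousWithinAt
  have hexp_cont : ∀ n : ℤ, ∀ z ∈ Str σ,
      ContinuousOn (fun t => Complex.exp (-(I * (n : ℂ) * S.al t z))) (Icc 0 T) := by
    intro n z hz
    exact (Complex.continuous_exp.comp_continuousOn ((continuousOn_const.mul (halc z hz)).neg))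
  have hpowk : ∀ k : ℤ, |(k : ℝ)| * Real.exp (-(σ / 4 * |(k : ℝ)|)) ≤ 4 / σ := by
    intro k
    have h1 := Real.add_one_le_exp (σ / 4 * |(k : ℝ)|)
    have h2 : Real.exp (σ / 4 * |(k : ℝ)|) * Real.exp (-(σ / 4 * |(k : ℝ)|)) = 1 := by
      rw [← Real.exp_add]; simp
    have h3 : 0 < Real.exp (-(σ / 4 * |(k : ℝ)|)) := Real.exp_pos _
    have h4 : σ / 4 * |(k : ℝ)| * Real.exp (-(σ / 4 * |(k : ℝ)|)) ≤ 1 := by
      calc σ / 4 * |(k : ℝ)| * Real.exp (-(σ / 4 * |(k : ℝ)|))
          ≤ Real.exp (σ / 4 * |(k : ℝ)|) * Real.exp (-(σ / 4 * |(k : ℝ)|)) :=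
            mul_le_mul_of_nonneg_right (by linarith) h3.le
        _ = 1 := h2
    rw [le_div_iff₀ hσ]
    nlinarith
  refine ⟨?_, ?_, ?_⟩
  · -- cw
    refine RDt_of_analytic T σ' (Λ * B) (σ / (4 * m)) hσ'pos (by positivity) S.cw ?_ ?_ ?_
    · intro t ht n
      unfold Sol.cw
      by_cases hn : (m : ℤ) ∣ n
      · simp only [if_pos hn]
        have h1 : DifferentiableOn ℂ (fun z => Ws (S.w t) (n / m) z) (Str σ') := by
          unfold Ws
          exact ((Complex.differentiable_exp.comp (Complex.differentiable_cosh.neg)).differentiableOn).mul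
            (((S.good t ht).wd _).mono hss)
        have h2 : DifferentiableOn ℂ (fun z => Complex.exp (-(I * (n : ℂ) * S.al t z))) (Str σ') :=
          ((((hhol t ht).2.2.mono hss).const_mul _).neg).cexp
        exact (h1.const_mul _).mul h2
      · simp only [if_neg hn]
        exact differentiableOn_const _
    · intro t ht n z hz
      unfold Sol.cw
      by_cases hn : (m : ℤ) ∣ n
      · rw [if_pos hn]
        obtain ⟨k, rfl⟩ := hn
        rw [Int.mul_ediv_cancel_left _ hmz]
        unfold Ws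
        rw [norm_mul, norm_mul, norm_mul, Complex.norm_real, Real.norm_eq_abs, abs_of_pos (by linarith : 0 < Λ)]
        have h1 := hex t ht k z hz
        have h2 := hw t ht k z hz
        have h3 := hEc z hz
        calc Λ * (‖Complex.exp (-Complex.cosh z)‖ * ‖S.w t k z‖) * ‖Complex.exp (-(I * (((m : ℤ) * k : ℤ) : ℂ) * S.al t z))‖
            ≤ Λ * (Real.exp (-(Real.cosh z.re / 4)) * (B * Real.exp (-(σ * |(k : ℝ)|)))) * Real.exp (σ * |(k : ℝ)| / 2) := by
              gcongr
          _ = Λ * B * (Real.exp (-(σ * |(k : ℝ)|)) * Real.exp (σ * |(k : ℝ)| / 2)) * Real.exp (-(Real.cosh z.re / 4)) := by ring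
          _ ≤ Λ * B * Real.exp (-(σ / (4 * m) * |(((m : ℤ) * k : ℤ) : ℝ)|)) * Real.exp (-(Real.cosh z.re / 4)) := by
              have h5 : Real.exp (-(σ * |(k : ℝ)|)) * Real.exp (σ * |(k : ℝ)| / 2)
                  ≤ Real.exp (-(σ / (4 * m) * |(((m : ℤ) * k : ℤ) : ℝ)|)) := by
                rw [← Real.exp_add]
                apply Real.exp_le_exp.2
                push_cast
                rw [abs_mul, abs_of_pos hm0]
                have h6 : σ / (4 * m) * (m * |(k : ℝ)|) = σ * |(k : ℝ)| / 4 := by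
                  field_simp
                rw [h6]
                have := mul_nonneg hσ.le (abs_nonneg (k : ℝ))
                linarith
              gcongr
      · rw [if_neg hn, norm_zero]
        positivity
    · intro n z hz
      unfold Sol.cw
      by_cases hn : (m : ℤ) ∣ n
      · simp only [if_pos hn]
        unfold Ws
        exact ((continuousOn_const.mul (continuousOn_const.mul (hwc _ z (hss hz))))).mul
          (hexp_cont n z (hss hz))
      · simp only [if_neg hn]
        exact continuousOn_const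
  · -- ct
    refine RDt_of_analytic T σ' (Λ * (K * (1 + m * B * (4 / σ)))) (σ / (4 * m)) hσ'pos (by positivity) S.ct ?_ ?_ ?_
    · intro t ht n
      unfold Sol.ct
      by_cases hn : (m : ℤ) ∣ n
      · simp only [if_pos hn]
        have h0 : DifferentiableOn ℂ (fun z => Complex.exp (-Complex.cosh z)) (Str σ') :=
          (Complex.differentiable_exp.comp (Complex.differentiable_cosh.neg)).differentiableOn
        have h1 : DifferentiableOn ℂ (fun z => Ws (S.w t) (n / m) z) (Str σ') := by
          unfold Ws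
          exact h0.mul (((S.good t ht).wd _).mono hss)
        have h2 : DifferentiableOn ℂ (fun z => Complex.exp (-(I * (n : ℂ) * S.al t z))) (Str σ') :=
          ((((hhol t ht).2.2.mono hss).const_mul _).neg).cexp
        have h3 : DifferentiableOn ℂ (S.Om t) (Str σ') := (hhol t ht).2.1.mono hss
        have h4 := (hNW t ht (n / m)).mono hss
        exact ((((h0.mul h4).const_mul _).sub ((h3.const_mul _).mul h1)).const_mul _).mul h2
      · simp only [if_neg hn]
        exact differentiableOn_const _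
    · intro t ht n z hz
      unfold Sol.ct
      by_cases hn : (m : ℤ) ∣ n
      · rw [if_pos hn]
        obtain ⟨k, rfl⟩ := hn
        rw [Int.mul_ediv_cancel_left _ hmz]
        unfold Ws
        rw [norm_mul, norm_mul, Complex.norm_real, Real.norm_eq_abs, abs_of_pos (by linarith : 0 < Λ)]
        have h1 := hex t ht k z hz
        have h2 := hw t ht k z hz
        have h3 := hEc z hz
        have h31 := hE1 z hz
        have hOm : ‖S.Om t z‖ ≤ K := by
          refine ((hK t ht z (hss hz)).1).trans ?_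
          calc K * ‖Complex.exp (-Complex.cosh z)‖ ≤ K * 1 := mul_le_mul_of_nonneg_left h31 hKnn
            _ = K := mul_one _
        have hNb : ‖NW m (S.be t) (S.w t) k z‖ ≤ K * Real.exp (-(σ * |(k : ℝ)|)) :=
          ((hK t ht z (hss hz)).2.2 k).trans (mul_le_mul_of_nonneg_left (wt_le _ _ _) hKnn)
        have hη1 : ‖((Λ / m : ℝ) : ℂ)‖ ≤ 1 := by
          rw [Complex.norm_real, Real.norm_eq_abs, abs_of_pos (by positivity), div_le_one hm0]
          exact hη
        have hA : ‖((Λ / m : ℝ) : ℂ) * (Complex.exp (-Complex.cosh z) * NW m (S.be t) (S.w t) k z)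
            - I * (((m : ℤ) * k : ℤ) : ℂ) * S.Om t z * (Complex.exp (-Complex.cosh z) * S.w t k z)‖
            ≤ Real.exp (-(Real.cosh z.re / 4)) * (K * (1 + m * |(k : ℝ)| * B) * Real.exp (-(σ * |(k : ℝ)|))) := by
          refine (norm_sub_le _ _).trans ?_
          have e1 : ‖((Λ / m : ℝ) : ℂ) * (Complex.exp (-Complex.cosh z) * NW m (S.be t) (S.w t) k z)‖
              ≤ 1 * (Real.exp (-(Real.cosh z.re / 4)) * (K * Real.exp (-(σ * |(k : ℝ)|)))) := by
            rw [norm_mul, norm_mul]
            gcongr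
          have e2 : ‖I * (((m : ℤ) * k : ℤ) : ℂ) * S.Om t z * (Complex.exp (-Complex.cosh z) * S.w t k z)‖
              ≤ (m * |(k : ℝ)|) * K * (Real.exp (-(Real.cosh z.re / 4)) * (B * Real.exp (-(σ * |(k : ℝ)|)))) := by
            rw [norm_mul, norm_mul, norm_mul, norm_mul, Complex.norm_I, one_mul]
            have e3 : ‖(((m : ℤ) * k : ℤ) : ℂ)‖ = m * |(k : ℝ)| := by
              rw [Complex.norm_intCast]
              push_cast
              rw [abs_mul, abs_of_pos hm0]
            rw [e3]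
            gcongr
          refine (add_le_add e1 e2).trans (le_of_eq ?_)
          ring
        calc Λ * ‖((Λ / m : ℝ) : ℂ) * (Complex.exp (-Complex.cosh z) * NW m (S.be t) (S.w t) k z)
            - I * (((m : ℤ) * k : ℤ) : ℂ) * S.Om t z * (Complex.exp (-Complex.cosh z) * S.w t k z)‖
              * ‖Complex.exp (-(I * (((m : ℤ) * k : ℤ) : ℂ) * S.al t z))‖
            ≤ Λ * (Real.exp (-(Real.cosh z.re / 4)) * (K * (1 + m * |(k : ℝ)| * B) * Real.exp (-(σ * |(k : ℝ)|))))
              * Real.exp (σ * |(k : ℝ)| / 2) := by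
              gcongr
          _ = Λ * K * ((1 + m * |(k : ℝ)| * B) * (Real.exp (-(σ * |(k : ℝ)|)) * Real.exp (σ * |(k : ℝ)| / 2)))
              * Real.exp (-(Real.cosh z.re / 4)) := by ring
          _ ≤ Λ * K * ((1 + m * B * (4 / σ)) * Real.exp (-(σ / (4 * m) * |(((m : ℤ) * k : ℤ) : ℝ)|)))
              * Real.exp (-(Real.cosh z.re / 4)) := by
              have h6 : σ / (4 * m) * |(((m : ℤ) * k : ℤ) : ℝ)| = σ / 4 * |(k : ℝ)| := by
                push_cast
                rw [abs_mul, abs_of_pos hm0]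
                field_simp
              have h7 : (1 + m * |(k : ℝ)| * B) * (Real.exp (-(σ * |(k : ℝ)|)) * Real.exp (σ * |(k : ℝ)| / 2))
                  ≤ (1 + m * B * (4 / σ)) * Real.exp (-(σ / (4 * m) * |(((m : ℤ) * k : ℤ) : ℝ)|)) := by
                rw [h6]
                have h8 : Real.exp (-(σ * |(k : ℝ)|)) * Real.exp (σ * |(k : ℝ)| / 2)
                    = Real.exp (-(σ / 4 * |(k : ℝ)|)) * Real.exp (-(σ / 4 * |(k : ℝ)|)) := by
                  rw [← Real.exp_add, ← Real.exp_add]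
                  congr 1
                  ring
                rw [h8]
                set X := Real.exp (-(σ / 4 * |(k : ℝ)|)) with hX
                have hX0 : 0 < X := Real.exp_pos _
                have hX1 : X ≤ 1 := by
                  rw [hX]
                  apply Real.exp_le_one_iff.2
                  have := mul_nonneg (by positivity : 0 ≤ σ / 4) (abs_nonneg (k : ℝ))
                  linarith
                have h9 := hpowk k
                rw [← hX] at h9
                have h10 : (1 + m * |(k : ℝ)| * B) * X ≤ 1 + m * B * (4 / σ) := by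
                  have h11 : (m * B) * (|(k : ℝ)| * X) ≤ (m * B) * (4 / σ) :=
                    mul_le_mul_of_nonneg_left h9 (by positivity)
                  nlinarith
                calc (1 + m * |(k : ℝ)| * B) * (X * X) = ((1 + m * |(k : ℝ)| * B) * X) * X := by ring
                  _ ≤ (1 + m * B * (4 / σ)) * X := mul_le_mul_of_nonneg_right h10 hX0.le
              gcongr
          _ = _ := by ring
      · rw [if_neg hn, norm_zero]
        positivity
    · intro n z hz
      unfold Sol.ct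
      by_cases hn : (m : ℤ) ∣ n
      · simp only [if_pos hn]
        unfold Ws
        exact (continuousOn_const.mul ((continuousOn_const.mul (continuousOn_const.mul (hNWc _ z (hss hz)))).sub
          ((continuousOn_const.mul (hOmc z (hss hz))).mul (continuousOn_const.mul (hwc _ z (hss hz)))))).mul
          (hexp_cont n z (hss hz))
      · simp only [if_neg hn]
        exact continuousOn_const
  · intro t ht n x
    have hx : ((x : ℝ) : ℂ) ∈ Str σ := by simp [Str, hσ]
    unfold Sol.cw Sol.ct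
    by_cases hn : (m : ℤ) ∣ n
    · simp only [if_pos hn]
      unfold Ws
      have h1 := hwt t ht (n / m) _ hx
      have h2 := halt t ht _ hx
      have h3 : HasDerivWithinAt (fun τ => Complex.exp (-(I * (n : ℂ) * S.al τ (x : ℂ))))
          (Complex.exp (-(I * (n : ℂ) * S.al t (x : ℂ))) * (-(I * (n : ℂ) * S.Om t (x : ℂ)))) (Icc 0 T) t :=
        ((h2.const_mul (I * (n : ℂ))).neg).cexp
      have h4 := ((h1.const_mul (Complex.exp (-Complex.cosh (x : ℂ)))).const_mul (Λ : ℂ)).mul h3
      refine h4.congr_deriv ?_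
      ring
    · simp only [if_neg hn]
      exact hasDerivWithinAt_const _ _ _

end JF1

end Pool.Agent.Helper383.NI
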