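import Pool.Agent.Helper383.NI.Defs

open Complex MeasureTheory Set Filter Topology

namespace Pool.Agent.Helper383.NI


namespace JG2

theorem g2_sum_sq : Summable (fun k : ℤ => 1 / (1 + |(k : ℝ)|) ^ 2) := by
  have h : Summable (fun n : ℕ => 1 / (1 + (n : ℝ)) ^ 2) := by
    have h1 := (summable_nat_add_iff 1).2 (Real.summable_one_div_nat_pow.2 (by norm_num : 1 < 2))
    refine h1.congr (fun n => ?_)
    push_cast
    rw [add_comm]
  refine Summable.of_nat_of_neg ?_ ?_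
  · refine h.congr (fun n => ?_)
    simp
  · refine h.congr (fun n => ?_)
    simp

noncomputable def g2A (c : ℤ → ℝ → ℂ) (k : ℤ) (z : ℂ) : ℂ :=
  (1 / 2) * (deriv (c k) (Real.log ‖z‖) + (k : ℂ) * c k (Real.log ‖z‖)) * z⁻¹ * (z / ‖z‖) ^ k
noncomputable def g2B (c : ℤ → ℝ → ℂ) (k : ℤ) (z : ℂ) : ℂ :=
  (1 / 2) * (deriv (c k) (Real.log ‖z‖) - (k : ℂ) * c k (Real.log ‖z‖)) *
    ((starRingEnd ℂ) z)⁻¹ * (z / ‖z‖) ^ k

theorem g2_log_fderiv (z : ℂ) (hz : z ≠ 0) :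
    HasFDerivAt (fun z : ℂ => Real.log ‖z‖) ((‖z‖ ^ 2)⁻¹ • innerSL ℝ z) z := by
  have hn : ‖z‖ ≠ 0 := norm_ne_zero_iff.2 hz
  have h2 : HasFDerivAt (fun z : ℂ => ‖z‖ ^ 2) (2 • innerSL ℝ z) z :=
    (hasStrictFDerivAt_norm_sq z).hasFDerivAt
  have h3 := (h2.log (by positivity)).const_mul (1/2 : ℝ)
  have e : (fun z : ℂ => Real.log ‖z‖) = fun z : ℂ => (1/2 : ℝ) * Real.log (‖z‖ ^ 2) := by
    funext w
    rw [Real.log_pow]; push_cast; ring
  rw [e]
  refine h3.congr_fderiv ?_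
  ext w
  simp
  ring

theorem g2_zpow_eq (z : ℂ) (hz : z ≠ 0) (k : ℤ) :
    (z / ‖z‖) ^ k = z ^ k * Complex.exp (-(k : ℂ) * (Real.log ‖z‖ : ℝ)) := by
  have hn : (0 : ℝ) < ‖z‖ := norm_pos_iff.2 hz
  rw [div_zpow, div_eq_mul_inv]
  congr 1
  have : -(k : ℂ) * (Real.log ‖z‖ : ℝ) = ((-k : ℤ) : ℂ) * ((Real.log ‖z‖ : ℝ) : ℂ) := by
    push_cast; ring
  rw [this, Complex.exp_int_mul, ← Complex.ofReal_exp, Real.exp_log hn, zpow_neg]

theorem g2_term (c : ℤ → ℝ → ℂ) (hc1 : ∀ k, Differentiable ℝ (c k)) (k : ℤ) (z : ℂ) (hz : z ≠ 0) :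
    HasFDerivAt (fun z : ℂ => c k (Real.log ‖z‖) * (z / ‖z‖) ^ k) (dfm (g2A c k z) (g2B c k z)) z := by
  have hn : ‖z‖ ≠ 0 := norm_ne_zero_iff.2 hz
  have h1 := g2_log_fderiv z hz
  have hg : HasDerivAt (fun x : ℝ => c k x * Complex.exp (-(k : ℂ) * (x : ℂ)))
      (deriv (c k) (Real.log ‖z‖) * Complex.exp (-(k : ℂ) * (Real.log ‖z‖ : ℝ)) +
        c k (Real.log ‖z‖) * (Complex.exp (-(k : ℂ) * (Real.log ‖z‖ : ℝ)) * (-(k : ℂ) * 1)))
      (Real.log ‖z‖) := by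
    refine ((hc1 k (Real.log ‖z‖)).hasDerivAt).mul ?_
    exact ((Complex.ofRealCLM.hasDerivAt (x := Real.log ‖z‖)).const_mul (-(k : ℂ))).cexp
  have h2 := HasFDerivAt.comp (g := fun x : ℝ => c k x * Complex.exp (-(k : ℂ) * (x : ℂ))) z
    hg.hasFDerivAt h1
  have h3 := ((hasDerivAt_zpow k z (Or.inl hz)).complexToReal_fderiv)
  have h4 := h2.mul h3
  have ev : (fun z : ℂ => c k (Real.log ‖z‖) * (z / ‖z‖) ^ k) =ᶠ[𝓝 z]
      fun z : ℂ => (c k (Real.log ‖z‖) * Complex.exp (-(k : ℂ) * (Real.log ‖z‖ : ℝ))) * z ^ k := by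
    filter_upwards [isOpen_ne.mem_nhds hz] with w hw
    rw [g2_zpow_eq w hw k]; ring
  refine (h4.congr_of_eventuallyEq ev).congr_fderiv ?_
  ext1 w
  have hcz : (starRingEnd ℂ) z ≠ 0 := by
    intro h0; exact hz (by simpa using h0)
  have hr : ((((‖z‖ ^ 2)⁻¹ * ((starRingEnd ℂ) z * w).re : ℝ)) : ℂ)
      = (w * z⁻¹ + (starRingEnd ℂ) w * ((starRingEnd ℂ) z)⁻¹) / 2 := by
    rw [Complex.ofReal_mul, Complex.re_eq_add_conj, Complex.ofReal_inv, Complex.ofReal_pow,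
      ← Complex.mul_conj']
    rw [map_mul, Complex.conj_conj]
    field_simp
  have hE := g2_zpow_eq z hz k
  simp only [dfm, g2A, g2B, ContinuousLinearMap.add_apply, ContinuousLinearMap.smul_apply,
    ContinuousLinearMap.id_apply, smul_eq_mul]
  rw [hE, zpow_sub_one₀ hz]
  simp only [ContinuousLinearMap.comp_apply, ContinuousLinearMap.one_apply, Function.comp_apply,
    ContinuousLinearMap.toSpanSingleton_apply]
  have hL : ((‖z‖ ^ 2)⁻¹ • (innerSL ℝ) z) w = (‖z‖ ^ 2)⁻¹ * ((starRingEnd ℂ) z * w).re := by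
    rw [ContinuousLinearMap.smul_apply, innerSL_apply_apply, Complex.inner, smul_eq_mul]
    ring_nf
  have hcw : (Complex.conjCLE : ℂ →L[ℝ] ℂ) w = (starRingEnd ℂ) w := rfl
  rw [hL, Complex.real_smul, hr, hcw]
  ring

/-- differentiation of a plane series away from the origin -/
theorem hc_fderiv_ne (c : ℤ → ℝ → ℂ) (hc1 : ∀ k, Differentiable ℝ (c k))
    (hc2 : ∀ k, Continuous (deriv (c k)))
    (hb : ∀ R : ℝ, ∃ C : ℝ, ∀ k : ℤ, ∀ x : ℝ, |x| ≤ R →
      ‖c k x‖ ≤ C / (1 + |(k : ℝ)|) ^ 3 ∧ ‖deriv (c k) x‖ ≤ C / (1 + |(k : ℝ)|) ^ 2) :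
    ∀ z : ℂ, z ≠ 0 → HasFDerivAt (hc c) (dfm (hc (dz c) z) (hc (dzb c) z)) z := by
  intro z hz
  have hn : (0 : ℝ) < ‖z‖ := norm_pos_iff.2 hz
  set R : ℝ := |Real.log (‖z‖ / 2)| + |Real.log (3 * ‖z‖ / 2)| with hR
  obtain ⟨C, hC⟩ := hb R
  have hC0 : 0 ≤ C := by
    have := (hC 0 0 (by rw [abs_zero]; positivity)).2
    simp at this
    exact (norm_nonneg _).trans this
  have hball : ∀ w ∈ Metric.ball z (‖z‖ / 2), w ≠ 0 ∧ ‖z‖ / 2 ≤ ‖w‖ ∧ |Real.log ‖w‖| ≤ R := by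
    intro w hw
    rw [Metric.mem_ball, dist_eq_norm] at hw
    have l1 : ‖z‖ ≤ ‖w‖ + ‖w - z‖ := by
      have := norm_sub_norm_le z w
      rw [norm_sub_rev] at this
      linarith
    have l2 : ‖w‖ ≤ ‖z‖ + ‖w - z‖ := by
      have := norm_sub_norm_le w z
      linarith
    have l3 : ‖z‖ / 2 ≤ ‖w‖ := by linarith
    have l4 : ‖w‖ ≤ 3 * ‖z‖ / 2 := by linarith
    have l5 : 0 < ‖w‖ := by linarith
    refine ⟨norm_pos_iff.1 l5, l3, ?_⟩
    have m1 := Real.log_le_log (by positivity) l3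
    have m2 := Real.log_le_log l5 l4
    rw [abs_le]
    have n1 := neg_abs_le (Real.log (‖z‖ / 2))
    have n2 := le_abs_self (Real.log (3 * ‖z‖ / 2))
    have n3 := abs_nonneg (Real.log (‖z‖ / 2))
    have n4 := abs_nonneg (Real.log (3 * ‖z‖ / 2))
    constructor <;> linarith
  have hunit : ∀ w : ℂ, w ≠ 0 → ∀ k : ℤ, ‖(w / ‖w‖) ^ k‖ = 1 := by
    intro w hw k
    rw [norm_zpow, norm_div, Complex.norm_real, norm_norm, div_self (norm_ne_zero_iff.2 hw), one_zpow]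
  have hkk : ∀ k : ℤ, |(k : ℝ)| * (C / (1 + |(k : ℝ)|) ^ 3) ≤ C / (1 + |(k : ℝ)|) ^ 2 := by
    intro k
    have hk0 := abs_nonneg (k : ℝ)
    rw [mul_div_assoc', div_le_div_iff₀ (by positivity) (by positivity)]
    have : 0 ≤ C * (1 + |(k : ℝ)|) ^ 2 := by positivity
    nlinarith
  have hnA : ∀ k : ℤ, ∀ w ∈ Metric.ball z (‖z‖ / 2),
      ‖g2A c k w‖ ≤ 2 * C / ‖z‖ * (1 / (1 + |(k : ℝ)|) ^ 2) ∧
      ‖g2B c k w‖ ≤ 2 * C / ‖z‖ * (1 / (1 + |(k : ℝ)|) ^ 2) := by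
    intro k w hw
    obtain ⟨w0, w1, w2⟩ := hball w hw
    obtain ⟨b1, b2⟩ := hC k _ w2
    have hwn : 0 < ‖w‖ := norm_pos_iff.2 w0
    have e1 : ‖(k : ℂ) * c k (Real.log ‖w‖)‖ ≤ C / (1 + |(k : ℝ)|) ^ 2 := by
      rw [norm_mul, Complex.norm_intCast]
      exact (mul_le_mul_of_nonneg_left b1 (abs_nonneg _)).trans (hkk k)
    have e2 : ‖w‖⁻¹ ≤ 2 / ‖z‖ := by
      rw [inv_eq_one_div, div_le_div_iff₀ hwn hn]; linarith
    have e3 : ‖deriv (c k) (Real.log ‖w‖) + (k : ℂ) * c k (Real.log ‖w‖)‖ ≤ 2 * (C / (1 + |(k : ℝ)|) ^ 2) :=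
      (norm_add_le _ _).trans (by linarith)
    have e4 : ‖deriv (c k) (Real.log ‖w‖) - (k : ℂ) * c k (Real.log ‖w‖)‖ ≤ 2 * (C / (1 + |(k : ℝ)|) ^ 2) :=
      (norm_sub_le _ _).trans (by linarith)
    have e5 : (0 : ℝ) ≤ C / (1 + |(k : ℝ)|) ^ 2 := by positivity
    have fin : ∀ u : ℝ, 0 ≤ u → u ≤ 2 * (C / (1 + |(k : ℝ)|) ^ 2) →
        1 / 2 * u * ‖w‖⁻¹ * 1 ≤ 2 * C / ‖z‖ * (1 / (1 + |(k : ℝ)|) ^ 2) := by
      intro u hu0 hu
      calc 1 / 2 * u * ‖w‖⁻¹ * 1 ≤ 1 / 2 * (2 * (C / (1 + |(k : ℝ)|) ^ 2)) * (2 / ‖z‖) * 1 := by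
            gcongr
        _ = _ := by ring
    constructor
    · unfold g2A
      rw [norm_mul, norm_mul, norm_mul, hunit w w0 k, norm_inv]
      have : ‖(1 / 2 : ℂ)‖ = 1 / 2 := by norm_num
      rw [this]
      exact fin _ (norm_nonneg _) e3
    · unfold g2B
      rw [norm_mul, norm_mul, norm_mul, hunit w w0 k, norm_inv, RCLike.norm_conj]
      have : ‖(1 / 2 : ℂ)‖ = 1 / 2 := by norm_num
      rw [this]
      exact fin _ (norm_nonneg _) e4
  have hdfm : ∀ A B : ℂ, ‖dfm A B‖ ≤ ‖A‖ + ‖B‖ := by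
    intro A B
    refine ContinuousLinearMap.opNorm_le_bound _ (by positivity) (fun w => ?_)
    have : dfm A B w = A * w + B * (starRingEnd ℂ) w := rfl
    rw [this, add_mul]
    refine (norm_add_le _ _).trans ?_
    rw [norm_mul, norm_mul, RCLike.norm_conj]
  have hzb : z ∈ Metric.ball z (‖z‖ / 2) := Metric.mem_ball_self (by positivity)
  have hs0 : Summable (fun k : ℤ => c k (Real.log ‖z‖) * (z / ‖z‖) ^ k) := by
    refine Summable.of_norm_bounded (g := fun k : ℤ => C * (1 / (1 + |(k : ℝ)|) ^ 2))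
      (g2_sum_sq.mul_left C) (fun k => ?_)
    rw [norm_mul, hunit z hz k, mul_one]
    refine ((hC k _ (hball z hzb).2.2).1).trans ?_
    rw [mul_one_div]
    gcongr
    · linarith [abs_nonneg (k : ℝ)]
    · norm_num
  have hsumA : Summable (fun k : ℤ => g2A c k z) :=
    Summable.of_norm_bounded (g2_sum_sq.mul_left (2 * C / ‖z‖)) (fun k => (hnA k z hzb).1)
  have hsumB : Summable (fun k : ℤ => g2B c k z) :=
    Summable.of_norm_bounded (g2_sum_sq.mul_left (2 * C / ‖z‖)) (fun k => (hnA k z hzb).2)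
  have key := hasFDerivAt_tsum_of_isPreconnected
    (u := fun k : ℤ => 4 * C / ‖z‖ * (1 / (1 + |(k : ℝ)|) ^ 2))
    (f := fun (k : ℤ) (z : ℂ) => c k (Real.log ‖z‖) * (z / ‖z‖) ^ k)
    (f' := fun (k : ℤ) (z : ℂ) => dfm (g2A c k z) (g2B c k z))
    (s := Metric.ball z (‖z‖ / 2)) (x₀ := z) (x := z)
    (g2_sum_sq.mul_left _) Metric.isOpen_ball (convex_ball z _).isPreconnected
    (fun k w hw => g2_term c hc1 k w (hball w hw).1)
    (fun k w hw => by
      refine (hdfm _ _).trans ?_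
      obtain ⟨q1, q2⟩ := hnA k w hw
      calc ‖g2A c k w‖ + ‖g2B c k w‖ ≤ 2 * C / ‖z‖ * (1 / (1 + |(k : ℝ)|) ^ 2)
            + 2 * C / ‖z‖ * (1 / (1 + |(k : ℝ)|) ^ 2) := add_le_add q1 q2
        _ = 4 * C / ‖z‖ * (1 / (1 + |(k : ℝ)|) ^ 2) := by ring) hzb hs0 hzb
  have hA : hc (dz c) z = ∑' k : ℤ, g2A c k z := by
    rw [hc, if_neg hz, ← (Equiv.addRight (1 : ℤ)).tsum_eq (fun k => g2A c k z)]
    refine tsum_congr (fun k => ?_)
    simp only [Equiv.coe_addRight, dz, g2A]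
    rw [zpow_add₀ (by
      intro h0
      have := hunit z hz 1
      rw [zpow_one, h0] at this
      simp at this), zpow_one, Real.exp_neg, Real.exp_log hn]
    have hn' : ((‖z‖ : ℝ) : ℂ) ≠ 0 := by exact_mod_cast hn.ne'
    push_cast
    field_simp
  have hB : hc (dzb c) z = ∑' k : ℤ, g2B c k z := by
    rw [hc, if_neg hz, ← (Equiv.subRight (1 : ℤ)).tsum_eq (fun k => g2B c k z)]
    refine tsum_congr (fun k => ?_)
    have hsr : (Equiv.subRight (1 : ℤ)) k = k - 1 := rfl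
    simp only [hsr, dzb, g2B]
    rw [zpow_sub₀ (by
      intro h0
      have := hunit z hz 1
      rw [zpow_one, h0] at this
      simp at this), zpow_one, Real.exp_neg, Real.exp_log hn]
    have hn' : ((‖z‖ : ℝ) : ℂ) ≠ 0 := by exact_mod_cast hn.ne'
    have hcz : (starRingEnd ℂ) z ≠ 0 := by
      intro h0; exact hz (by simpa using h0)
    have hzz : (starRingEnd ℂ) z * z = (‖z‖ : ℂ) ^ 2 := Complex.conj_mul' z
    push_cast
    rw [show ((starRingEnd ℂ) z)⁻¹ = z / (‖z‖ : ℂ) ^ 2 by rw [← hzz]; field_simp]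
    field_simp
  have hsum : (∑' k : ℤ, dfm (g2A c k z) (g2B c k z)) = dfm (hc (dz c) z) (hc (dzb c) z) := by
    rw [hA, hB]
    unfold dfm
    exact ((hsumA.hasSum.smul_const _).add (hsumB.hasSum.smul_const _)).tsum_eq
  rw [hsum] at key
  refine key.congr_of_eventuallyEq ?_
  filter_upwards [isOpen_ne.mem_nhds hz] with w hw
  rw [hc, if_neg hw]

/-- the same for rapidly decreasing families, including the origin -/
theorem hc_fderiv (T : ℝ) (c : ℝ → ℤ → ℝ → ℂ) (h : RDt T c) :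
    ∀ t ∈ Icc 0 T, ∀ z : ℂ, HasFDerivAt (hc (c t)) (dfm (hc (dz (c t)) z) (hc (dzb (c t)) z)) z := by
  intro t ht z
  by_cases hz : z = 0
  · subst hz
    have h0 : ∀ d : ℤ → ℝ → ℂ, hc d 0 = 0 := fun d => by rw [hc, if_pos rfl]
    rw [h0, h0]
    have hd0 : dfm 0 0 = 0 := by
      apply ContinuousLinearMap.ext
      intro w
      show (0 : ℂ) * w + 0 * (starRingEnd ℂ) w = 0
      ring
    rw [hd0]
    obtain ⟨C, hC⟩ := h.bound 0 2
    have hC0 : 0 ≤ C := by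
      have := hC t ht 0 0
      simp at this
      exact (norm_nonneg _).trans this
    have hO : hc (c t) =O[𝓝 0] fun w : ℂ => ‖w - 0‖ ^ 2 := by
      refine Asymptotics.IsBigO.of_bound (C * ∑' k : ℤ, 1 / (1 + |(k : ℝ)|) ^ 2) ?_
      filter_upwards [Metric.ball_mem_nhds (0 : ℂ) one_pos] with w hw
      by_cases hw0 : w = 0
      · subst hw0
        rw [h0]; simp
      · have hwn : 0 < ‖w‖ := norm_pos_iff.2 hw0
        have hw1 : ‖w‖ < 1 := by simpa using hw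
        rw [hc, if_neg hw0]
        have hbd : ∀ k : ℤ, ‖c t k (Real.log ‖w‖) * (w / ‖w‖) ^ k‖
            ≤ (C * ‖w‖ ^ 2) * (1 / (1 + |(k : ℝ)|) ^ 2) := by
          intro k
          have := hC t ht k (Real.log ‖w‖)
          rw [iteratedDeriv_zero] at this
          rw [norm_mul, norm_zpow, norm_div, Complex.norm_real, norm_norm, div_self hwn.ne', one_zpow,
            mul_one]
          refine this.trans (le_of_eq ?_)
          have hneg : Real.log ‖w‖ < 0 := Real.log_neg hwn hw1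
          rw [abs_of_neg hneg]
          have : Real.exp (-(((2 : ℕ) : ℝ) * -Real.log ‖w‖)) = ‖w‖ ^ 2 := by
            rw [show -(((2 : ℕ) : ℝ) * -Real.log ‖w‖) = ((2 : ℕ) : ℝ) * Real.log ‖w‖ by ring,
              Real.exp_nat_mul, Real.exp_log hwn]
          rw [this]
          ring
        have hsm := g2_sum_sq.mul_left (C * ‖w‖ ^ 2)
        refine (tsum_of_norm_bounded hsm.hasSum hbd).trans (le_of_eq ?_)
        rw [tsum_mul_left]
        simp
        ring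
    exact hO.hasFDerivAt (by norm_num)
  · refine hc_fderiv_ne (c t) (fun k => (h.smooth t ht k).differentiable (by simp))
      (fun k => (h.smooth t ht k).continuous_deriv (by simp)) ?_ z hz
    intro R
    obtain ⟨C, hC⟩ := h.bound 0 3
    obtain ⟨D, hD⟩ := h.bound 1 3
    have hC0 : 0 ≤ C := by
      have := hC t ht 0 0
      simp at this
      exact (norm_nonneg _).trans this
    have hD0 : 0 ≤ D := by
      have := hD t ht 0 0
      simp at this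
      exact (norm_nonneg _).trans this
    refine ⟨C + D, fun k x _ => ⟨?_, ?_⟩⟩
    · have h1 := hC t ht k x
      rw [iteratedDeriv_zero] at h1
      refine h1.trans ?_
      have he : Real.exp (-(((3 : ℕ) : ℝ) * |x|)) ≤ 1 := by
        rw [Real.exp_le_one_iff]
        have := abs_nonneg x
        push_cast
        nlinarith
      gcongr
      calc C * Real.exp (-(((3 : ℕ) : ℝ) * |x|)) ≤ C * 1 := by gcongr
        _ ≤ C + D := by linarith
    · have h1 := hD t ht k x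
      rw [iteratedDeriv_one] at h1
      refine h1.trans ?_
      have he : Real.exp (-(((3 : ℕ) : ℝ) * |x|)) ≤ 1 := by
        rw [Real.exp_le_one_iff]
        have := abs_nonneg x
        push_cast
        nlinarith
      have hk1 : (1 : ℝ) ≤ 1 + |(k : ℝ)| := by linarith [abs_nonneg (k : ℝ)]
      have hpow : (1 + |(k : ℝ)|) ^ 2 ≤ (1 + |(k : ℝ)|) ^ 3 := pow_le_pow_right₀ hk1 (by norm_num)
      calc D * Real.exp (-(((3 : ℕ) : ℝ) * |x|)) / (1 + |(k : ℝ)|) ^ 3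
          ≤ (C + D) / (1 + |(k : ℝ)|) ^ 3 := by
            gcongr
            calc D * Real.exp (-(((3 : ℕ) : ℝ) * |x|)) ≤ D * 1 := by gcongr
              _ ≤ C + D := by linarith
        _ ≤ (C + D) / (1 + |(k : ℝ)|) ^ 2 := by gcongr

end JG2

end Pool.Agent.Helper383.NI
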