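import Pool.Agent.Helper383.NI.Defs
import Pool.Agent.Helper383.NI.D0
import Pool.Agent.Helper383.NI.D1
import Pool.Agent.Helper383.NI.E1
import Pool.Agent.Helper383.NI.E3
import Pool.Agent.Helper383.NI.G2

open Complex MeasureTheory Set Filter Topology

namespace Pool.Agent.Helper383.NI

open JD0 (E_bound)
open JD1 (GH_est)
open JE1 (GH_ode)
open JE3 (sol_basic sol_Th_decay)
open JG2 (hc_fderiv_ne hc_fderiv)

namespace JF2

lemma Str_isOpen (σ : ℝ) : IsOpen (Str σ) := by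
  unfold Str
  exact isOpen_lt (continuous_abs.comp Complex.continuous_im) continuous_const

lemma real_mem_Str {σ : ℝ} (hσ : 0 < σ) (x : ℝ) : (x : ℂ) ∈ Str σ := by
  simp [Str, hσ]

lemma dfm_apply (A B w : ℂ) : dfm A B w = A * w + B * (starRingEnd ℂ) w := by
  simp [dfm]

lemma cu_hasDerivAt (T : ℝ) (m : ℕ) (Λ σ B : ℝ) (hT : 0 < T) (hm : 40 ≤ m) (hΛ : 1 ≤ Λ)
    (hη : Λ ≤ m) (hσ : 0 < σ) (hσ1 : σ ≤ 1 / 2) (hB : 1 ≤ B) (S : Sol T m Λ σ B)
    (t : ℝ) (ht : t ∈ Icc 0 T) (n : ℤ) (z : ℂ) (hz : z ∈ Str σ) :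
    HasDerivAt (S.cu t n) ((n : ℂ) * S.cu t n z - I * Complex.exp (2 * z) * S.cw t n z) z := by
  obtain ⟨b1, b2, b3, b4, b5, b6, b7, b8, b9⟩ := sol_basic T m Λ σ B hT hm hΛ hη hσ hσ1 hB S
  have hnhds : Str σ ∈ 𝓝 z := (Str_isOpen σ).mem_nhds hz
  have hexp : HasDerivAt (fun z : ℂ => Complex.exp (2 * z)) (Complex.exp (2 * z) * 2) z := by
    have := ((hasDerivAt_id z).const_mul (2:ℂ)).cexp
    simpa using this
  have hm0 : (m : ℤ) ≠ 0 := by exact_mod_cast (by omega : m ≠ 0)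
  have hmC : (m : ℂ) ≠ 0 := by exact_mod_cast (by omega : m ≠ 0)
  by_cases hn : n = 0
  · subst hn
    have hf : S.cu t 0 = fun z => -(I * Complex.exp (2 * z) * S.Om t z) := by
      funext z; simp [Sol.cu]
    have hOm : HasDerivAt (S.Om t) (deriv (S.Om t) z) z :=
      ((b1 t ht).2.1.differentiableAt hnhds).hasDerivAt
    have h1 : HasDerivAt (fun z => -(I * Complex.exp (2 * z) * S.Om t z)) _ z := ((hexp.const_mul I).mul hOm).neg
    have h2 := b7 t ht z hz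
    have hcw : S.cw t 0 z = (Λ : ℂ) * Ws (S.w t) 0 z := by
      simp [Sol.cw]
    rw [hcw, h2, hf]
    refine h1.congr_deriv ?_
    push_cast
    ring
  · by_cases hd : (m : ℤ) ∣ n
    · obtain ⟨k, rfl⟩ := hd
      have hk0 : k ≠ 0 := by rintro rfl; simp at hn
      have hdiv : ((m : ℤ) * k) / m = k := Int.mul_ediv_cancel_left k hm0
      have hgood : Good σ B B (S.be t) (S.w t) := S.good t ht
      obtain ⟨K, hK, hGH⟩ := GH_est B B (by linarith) (by linarith)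
      obtain ⟨g1, g2, g3, -⟩ := hGH m hm σ hσ (by linarith) _ _ hgood
      have hG : HasDerivAt (Gk m (S.be t) (S.w t) k) (deriv (Gk m (S.be t) (S.w t) k) z) z :=
        ((g1 k).differentiableAt hnhds).hasDerivAt
      have hH : HasDerivAt (Hk m (S.be t) (S.w t) k) (deriv (Hk m (S.be t) (S.w t) k) z) z :=
        ((g2 k).differentiableAt hnhds).hasDerivAt
      have hal : HasDerivAt (S.al t) (S.be t z) z := by
        have := ((b1 t ht).2.2.differentiableAt hnhds).hasDerivAt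
        rwa [b2 t ht z hz] at this
      obtain ⟨o1, o2⟩ := GH_ode m σ B B (S.be t) (S.w t) hm hσ (by linarith) (by linarith) (by linarith) hgood k z hz
      have o2 := o2 hk0
      have hE : HasDerivAt (fun z => Complex.exp (-(I * (((m : ℤ) * k : ℤ) : ℂ) * S.al t z)))
          (Complex.exp (-(I * (((m : ℤ) * k : ℤ) : ℂ) * S.al t z)) * (-(I * (((m : ℤ) * k : ℤ) : ℂ) * S.be t z))) z :=
        ((hal.const_mul _).neg).cexp
      have hf : S.cu t ((m : ℤ) * k) = fun z => -((Λ / m : ℝ) : ℂ) * Complex.exp (2 * z)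
          * (I * (k : ℂ) * Gk m (S.be t) (S.w t) k z + I * Hk m (S.be t) (S.w t) k z)
          * Complex.exp (-(I * (((m : ℤ) * k : ℤ) : ℂ) * S.al t z)) := by
        funext z
        simp only [Sol.cu, hn, if_false, dvd_mul_right, if_true, hdiv]
        rfl
      have hcw : S.cw t ((m : ℤ) * k) z = (Λ : ℂ) * Ws (S.w t) k z * Complex.exp (-(I * (((m : ℤ) * k : ℤ) : ℂ) * S.al t z)) := by
        simp only [Sol.cw, dvd_mul_right, if_true, hdiv]
      have h1 : HasDerivAt (fun z => -((Λ / m : ℝ) : ℂ) * Complex.exp (2 * z)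
          * (I * (k : ℂ) * Gk m (S.be t) (S.w t) k z + I * Hk m (S.be t) (S.w t) k z)
          * Complex.exp (-(I * (((m : ℤ) * k : ℤ) : ℂ) * S.al t z))) _ z := ((hexp.const_mul (-((Λ / m : ℝ) : ℂ))).mul ((hG.const_mul (I * (k:ℂ))).add (hH.const_mul I))).mul hE
      rw [hcw, hf]
      refine h1.congr_deriv ?_
      have e1 : deriv (Gk m (S.be t) (S.w t) k) z = (m : ℂ) * (Hk m (S.be t) (S.w t) k z + S.be t z * (I * k * Gk m (S.be t) (S.w t) k z)) - 2 * Gk m (S.be t) (S.w t) k z := by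
        have : gk m (S.be t) (S.w t) k z = deriv (Gk m (S.be t) (S.w t) k) z + 2 * Gk m (S.be t) (S.w t) k z := rfl
        rw [this] at o1
        have h' : hk m (S.be t) (S.w t) k z = I * k * Gk m (S.be t) (S.w t) k z := rfl
        rw [h'] at o1
        linear_combination o1
      have e2 : deriv (Hk m (S.be t) (S.w t) k) z = (m : ℂ) * ((k : ℂ) ^ 2 * Gk m (S.be t) (S.w t) k z + Ws (S.w t) k z)
        + I * (k : ℂ) * (m : ℂ) * S.be t z * Hk m (S.be t) (S.w t) k z - 2 * Hk m (S.be t) (S.w t) k z := by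
        linear_combination o2
      have hΛm : (Λ : ℂ) = ((Λ / m : ℝ) : ℂ) * m := by
        push_cast; field_simp
      simp only [Pi.add_apply, Pi.mul_apply]
      rw [e1, e2, hΛm]
      generalize Complex.exp (-(I * (((m : ℤ) * k : ℤ) : ℂ) * S.al t z)) = E
      generalize Gk m (S.be t) (S.w t) k z = G
      generalize Hk m (S.be t) (S.w t) k z = H
      generalize Ws (S.w t) k z = W
      generalize S.be t z = b
      generalize ((Λ / m : ℝ) : ℂ) = e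
      rw [Int.cast_mul, Int.cast_natCast]
      ring
    · have hf : S.cu t n = fun z => 0 := by
        funext z; simp [Sol.cu, hn, hd]
      have hcw : S.cw t n z = 0 := by simp [Sol.cw, hd]
      rw [hf, hcw]
      simpa using hasDerivAt_const z (0:ℂ)

lemma E_norm_one {a : ℂ} (ha : (starRingEnd ℂ) a = a) (n : ℤ) :
    ‖Complex.exp (-(I * (n : ℂ) * a))‖ = 1 := by
  have him : a.im = 0 := by
    have := congrArg Complex.im ha
    rw [Complex.conj_im] at this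
    linarith
  rw [Complex.norm_exp]
  have : (-(I * (n : ℂ) * a)).re = 0 := by
    simp [him]
  rw [this, Real.exp_zero]

lemma wt_le (p q : ℕ) (hpq : q ≤ p) (m : ℕ) (hm : 1 ≤ m) (k : ℤ) (σ : ℝ) (hσ : 0 < σ) :
    wt p k σ ≤ (m : ℝ) ^ q / (1 + |(((m : ℤ) * k : ℤ) : ℝ)|) ^ q := by
  unfold wt
  have hm' : (1:ℝ) ≤ m := by exact_mod_cast hm
  have hk : 0 ≤ |(k:ℝ)| := abs_nonneg _
  have h1 : Real.exp (-(σ * |(k : ℝ)|)) ≤ 1 := by
    rw [Real.exp_le_one_iff]; have := mul_nonneg hσ.le hk; linarith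
  have h2 : (1 + |(k:ℝ)|) ^ q ≤ (1 + |(k:ℝ)|) ^ p := pow_le_pow_right₀ (by linarith) hpq
  have h3 : |(((m : ℤ) * k : ℤ) : ℝ)| = m * |(k:ℝ)| := by
    push_cast; rw [abs_mul, abs_of_nonneg (by linarith : (0:ℝ) ≤ m)]
  have h4 : (1 + m * |(k:ℝ)|) ^ q ≤ (m : ℝ) ^ q * (1 + |(k:ℝ)|) ^ q := by
    rw [← mul_pow]
    apply pow_le_pow_left₀ (by positivity)
    nlinarith
  rw [h3]
  rw [div_le_div_iff₀ (by positivity) (by positivity)]
  calc Real.exp (-(σ * |(k : ℝ)|)) * (1 + m * |(k:ℝ)|) ^ q ≤ 1 * ((m : ℝ) ^ q * (1 + |(k:ℝ)|) ^ q) := by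
        gcongr
    _ ≤ (m : ℝ) ^ q * (1 + |(k:ℝ)|) ^ p := by
        rw [one_mul]; gcongr

lemma exp_cosh_le : ∃ C > 0, ∀ x : ℝ, ‖Complex.exp (-Complex.cosh (x:ℂ))‖ ≤ C * Real.exp (-(5 * |x|)) := by
  obtain ⟨C, hC, h⟩ := E_bound
  refine ⟨C, hC, fun x => ?_⟩
  have h1 := h (x:ℂ) (real_mem_Str one_pos x)
  rw [Complex.ofReal_re] at h1
  have h2 : Real.exp (20 * |x|) * Real.exp (-(20 * |x|)) = 1 := by
    rw [← Real.exp_add]; simp
  have h3 : ‖Complex.exp (-Complex.cosh (x:ℂ))‖ ≤ C * Real.exp (-(20 * |x|)) := by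
    calc ‖Complex.exp (-Complex.cosh (x:ℂ))‖ = (‖Complex.exp (-Complex.cosh (x:ℂ))‖ * Real.exp (20 * |x|)) * Real.exp (-(20 * |x|)) := by
          rw [mul_assoc, h2, mul_one]
      _ ≤ _ := by gcongr
  refine h3.trans ?_
  have : Real.exp (-(20 * |x|)) ≤ Real.exp (-(5 * |x|)) := by
    apply Real.exp_le_exp.2; have := abs_nonneg x; linarith
  gcongr

lemma cu_bound (T : ℝ) (m : ℕ) (Λ σ B : ℝ) (hT : 0 < T) (hm : 40 ≤ m) (hΛ : 1 ≤ Λ)
    (hη : Λ ≤ m) (hσ : 0 < σ) (hσ1 : σ ≤ 1 / 2) (hB : 1 ≤ B) (S : Sol T m Λ σ B) :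
    ∃ C > 0, ∀ t ∈ Icc 0 T, ∀ n : ℤ, ∀ x : ℝ, ‖S.cu t n (x:ℂ)‖ ≤
      C * Real.exp (2 * x - 5 * |x|) / (1 + |(n:ℝ)|) ^ 3 := by
  obtain ⟨b1, b2, b3, b4, b5, b6, b7, b8, ⟨K0, b9⟩⟩ := sol_basic T m Λ σ B hT hm hΛ hη hσ hσ1 hB S
  obtain ⟨C1, hC1, hexp⟩ := exp_cosh_le
  obtain ⟨K, hK, hGH⟩ := GH_est B B (by linarith) (by linarith)
  have hm0 : (m : ℤ) ≠ 0 := by exact_mod_cast (by omega : m ≠ 0)
  have hmR : (0:ℝ) < m := by exact_mod_cast (by omega : 0 < m)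
  have hη0 : 0 ≤ Λ / m := by positivity
  refine ⟨|K0| * C1 + 2 * (Λ / m) * K * (m:ℝ) ^ 3 + 1, by positivity, ?_⟩
  intro t ht n x
  have hx := real_mem_Str hσ x
  have hal : (starRingEnd ℂ) (S.al t x) = S.al t x := by
    have := (b8 t ht x hx).2.2
    rw [Complex.conj_ofReal] at this
    exact this.symm
  have he2 : ‖Complex.exp (2 * (x:ℂ))‖ = Real.exp (2 * x) := by
    rw [Complex.norm_exp]; simp
  have hexp2 : Real.exp (2 * x - 5 * |x|) = Real.exp (2 * x) * Real.exp (-(5 * |x|)) := by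
    rw [← Real.exp_add]; ring_nf
  have hpos : 0 < Real.exp (2 * x - 5 * |x|) := Real.exp_pos _
  by_cases hn : n = 0
  · subst hn
    have h1 : ‖S.cu t 0 x‖ = Real.exp (2 * x) * ‖S.Om t x‖ := by
      simp [Sol.cu, he2]
    rw [h1]
    have h2 := (b9 t ht x hx).1
    have h3 : ‖S.Om t x‖ ≤ |K0| * (C1 * Real.exp (-(5 * |x|))) := by
      refine h2.trans ?_
      refine mul_le_mul (le_abs_self _) (hexp x) (norm_nonneg _) (abs_nonneg _)
    calc Real.exp (2 * x) * ‖S.Om t x‖ ≤ Real.exp (2 * x) * (|K0| * (C1 * Real.exp (-(5 * |x|)))) := by gcongr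
      _ = (|K0| * C1) * Real.exp (2 * x - 5 * |x|) := by rw [hexp2]; ring
      _ ≤ (|K0| * C1 + 2 * (Λ / m) * K * (m:ℝ) ^ 3 + 1) * Real.exp (2 * x - 5 * |x|) := by
        apply mul_le_mul_of_nonneg_right _ hpos.le
        have : 0 ≤ 2 * (Λ / m) * K * (m:ℝ) ^ 3 := by positivity
        linarith
      _ = _ := by simp
  · by_cases hd : (m : ℤ) ∣ n
    · obtain ⟨k, rfl⟩ := hd
      have hk0 : k ≠ 0 := by rintro rfl; simp at hn
      have hdiv : ((m : ℤ) * k) / m = k := Int.mul_ediv_cancel_left k hm0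
      have hgood : Good σ B B (S.be t) (S.w t) := S.good t ht
      obtain ⟨g1, g2, g3, -⟩ := hGH m hm σ hσ (by linarith) _ _ hgood
      obtain ⟨i1, i2, i3, i4⟩ := g3 k x hx
      rw [Complex.ofReal_re] at i1 i2 i3 i4
      have h1 : S.cu t ((m:ℤ) * k) x = -((Λ / m : ℝ) : ℂ) * Complex.exp (2 * x)
          * (I * (k : ℂ) * Gk m (S.be t) (S.w t) k x + I * Hk m (S.be t) (S.w t) k x)
          * Complex.exp (-(I * (((m : ℤ) * k : ℤ) : ℂ) * S.al t x)) := by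
        simp only [Sol.cu, hn, if_false, dvd_mul_right, if_true, hdiv]
        rfl
      have hE := E_norm_one hal ((m:ℤ) * k)
      have hG : ‖I * (k : ℂ) * Gk m (S.be t) (S.w t) k x‖ ≤ K * wt 4 k σ * Real.exp (-(5 * |x|)) := by
        rw [norm_mul, norm_mul, Complex.norm_I, one_mul, Complex.norm_intCast]
        calc |(k:ℝ)| * ‖Gk m (S.be t) (S.w t) k x‖ ≤ |(k:ℝ)| * (K * wt 5 k σ * Real.exp (-(5 * |x|))) := by gcongr
          _ = K * (|(k:ℝ)| * wt 5 k σ) * Real.exp (-(5 * |x|)) := by ring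
          _ ≤ K * wt 4 k σ * Real.exp (-(5 * |x|)) := by
            have : |(k:ℝ)| * wt 5 k σ ≤ wt 4 k σ := by
              unfold wt
              have hk := abs_nonneg (k:ℝ)
              rw [mul_div_assoc', div_le_div_iff₀ (by positivity) (by positivity)]
              have e0 := Real.exp_pos (-(σ * |(k:ℝ)|))
              have e1 : 0 ≤ Real.exp (-(σ * |(k:ℝ)|)) * (1 + |(k:ℝ)|) ^ 4 := by positivity
              nlinarith
            gcongr
      have hH : ‖I * Hk m (S.be t) (S.w t) k x‖ ≤ K * wt 4 k σ * Real.exp (-(5 * |x|)) := by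
        rw [norm_mul, Complex.norm_I, one_mul]; exact i3
      have hw := wt_le 4 3 (by norm_num) m (by omega) k σ hσ
      rw [h1, norm_mul, norm_mul, norm_mul, hE, mul_one, he2, norm_neg, Complex.norm_real, Real.norm_of_nonneg hη0]
      calc Λ / m * Real.exp (2 * x) * ‖I * (k : ℂ) * Gk m (S.be t) (S.w t) k x + I * Hk m (S.be t) (S.w t) k x‖
          ≤ Λ / m * Real.exp (2 * x) * (K * wt 4 k σ * Real.exp (-(5 * |x|)) + K * wt 4 k σ * Real.exp (-(5 * |x|))) := by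
            gcongr
            exact (norm_add_le _ _).trans (add_le_add hG hH)
        _ = 2 * (Λ / m) * K * wt 4 k σ * Real.exp (2 * x - 5 * |x|) := by rw [hexp2]; ring
        _ ≤ 2 * (Λ / m) * K * ((m : ℝ) ^ 3 / (1 + |(((m : ℤ) * k : ℤ) : ℝ)|) ^ 3) * Real.exp (2 * x - 5 * |x|) := by gcongr
        _ = (2 * (Λ / m) * K * (m : ℝ) ^ 3) * Real.exp (2 * x - 5 * |x|) / (1 + |(((m : ℤ) * k : ℤ) : ℝ)|) ^ 3 := by ring
        _ ≤ _ := by
          gcongr
          have : 0 ≤ |K0| * C1 := by positivity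
          linarith
    · have h1 : S.cu t n x = 0 := by simp [Sol.cu, hn, hd]
      rw [h1, norm_zero]
      positivity

lemma cw_bound (T : ℝ) (m : ℕ) (Λ σ B : ℝ) (hT : 0 < T) (hm : 40 ≤ m) (hΛ : 1 ≤ Λ)
    (hη : Λ ≤ m) (hσ : 0 < σ) (hσ1 : σ ≤ 1 / 2) (hB : 1 ≤ B) (S : Sol T m Λ σ B) :
    ∃ C > 0, ∀ t ∈ Icc 0 T, ∀ n : ℤ, ∀ x : ℝ, ‖S.cw t n (x:ℂ)‖ ≤
      C / (1 + |(n:ℝ)|) ^ 2 := by
  obtain ⟨b1, b2, b3, b4, b5, b6, b7, b8, ⟨K0, b9⟩⟩ := sol_basic T m Λ σ B hT hm hΛ hη hσ hσ1 hB S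
  obtain ⟨C1, hC1, hexp⟩ := exp_cosh_le
  have hm0 : (m : ℤ) ≠ 0 := by exact_mod_cast (by omega : m ≠ 0)
  have hmR : (0:ℝ) < m := by exact_mod_cast (by omega : 0 < m)
  refine ⟨Λ * C1 * B * (m:ℝ) ^ 2, by positivity, ?_⟩
  intro t ht n x
  have hx := real_mem_Str hσ x
  have hal : (starRingEnd ℂ) (S.al t x) = S.al t x := by
    have := (b8 t ht x hx).2.2
    rw [Complex.conj_ofReal] at this
    exact this.symm
  by_cases hd : (m : ℤ) ∣ n
  · obtain ⟨k, rfl⟩ := hd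
    have hdiv : ((m : ℤ) * k) / m = k := Int.mul_ediv_cancel_left k hm0
    have hgood : Good σ B B (S.be t) (S.w t) := S.good t ht
    have h1 : S.cw t ((m:ℤ) * k) x = (Λ : ℂ) * Ws (S.w t) k x * Complex.exp (-(I * (((m : ℤ) * k : ℤ) : ℂ) * S.al t x)) := by
      simp only [Sol.cw, dvd_mul_right, if_true, hdiv]
    have hE := E_norm_one hal ((m:ℤ) * k)
    have hw := wt_le 3 2 (by norm_num) m (by omega) k σ hσ
    have h2 : ‖Ws (S.w t) k x‖ ≤ C1 * (B * wt 3 k σ) := by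
      unfold Ws
      rw [norm_mul]
      have e1 : ‖Complex.exp (-Complex.cosh (x:ℂ))‖ ≤ C1 := by
        refine (hexp x).trans ?_
        have : Real.exp (-(5 * |x|)) ≤ 1 := by
          rw [Real.exp_le_one_iff]; have := abs_nonneg x; linarith
        nlinarith
      exact mul_le_mul e1 (hgood.w0 k x hx) (norm_nonneg _) hC1.le
    rw [h1, norm_mul, norm_mul, hE, mul_one, Complex.norm_real, Real.norm_of_nonneg (by linarith)]
    calc Λ * ‖Ws (S.w t) k x‖ ≤ Λ * (C1 * (B * wt 3 k σ)) := by gcongr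
      _ ≤ Λ * (C1 * (B * ((m : ℝ) ^ 2 / (1 + |(((m : ℤ) * k : ℤ) : ℝ)|) ^ 2))) := by gcongr
      _ = _ := by ring
  · have h1 : S.cw t n x = 0 := by simp [Sol.cw, hd]
    rw [h1, norm_zero]
    positivity

lemma cw_continuous (T : ℝ) (m : ℕ) (Λ σ B : ℝ) (hT : 0 < T) (hm : 40 ≤ m) (hΛ : 1 ≤ Λ)
    (hη : Λ ≤ m) (hσ : 0 < σ) (hσ1 : σ ≤ 1 / 2) (hB : 1 ≤ B) (S : Sol T m Λ σ B)
    (t : ℝ) (ht : t ∈ Icc 0 T) (n : ℤ) : Continuous (fun x : ℝ => S.cw t n (x:ℂ)) := by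
  obtain ⟨b1, -, -, -, -, -, -, -, -⟩ := sol_basic T m Λ σ B hT hm hΛ hη hσ hσ1 hB S
  have hgood : Good σ B B (S.be t) (S.w t) := S.good t ht
  by_cases hd : (m : ℤ) ∣ n
  · have h1 : (fun x : ℝ => S.cw t n (x:ℂ)) = fun x : ℝ => (Λ : ℂ) * (Complex.exp (-Complex.cosh (x:ℂ)) * S.w t (n / m) x)
        * Complex.exp (-(I * (n : ℂ) * S.al t x)) := by
      funext x
      simp only [Sol.cw, hd, if_true, Ws]
    rw [h1]
    have hw : Continuous (fun x : ℝ => S.w t (n / m) (x:ℂ)) :=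
      (hgood.wd (n / m)).continuousOn.comp_continuous Complex.continuous_ofReal (real_mem_Str hσ)
    have hal : Continuous (fun x : ℝ => S.al t (x:ℂ)) :=
      (b1 t ht).2.2.continuousOn.comp_continuous Complex.continuous_ofReal (real_mem_Str hσ)
    have hc : Continuous (fun x : ℝ => Complex.exp (-Complex.cosh (x:ℂ))) := by
      simp only [Complex.cosh]
      fun_prop
    fun_prop
  · have h1 : (fun x : ℝ => S.cw t n (x:ℂ)) = fun x : ℝ => 0 := by
      funext x; simp [Sol.cw, hd]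
    rw [h1]; exact continuous_const

lemma hc_shift (c : ℤ → ℝ → ℂ) (z : ℂ) (hz : z ≠ 0) :
    hc (fun k x => -(I / 2) * Real.exp x * c (k - 1) x) z = -(I / 2) * z * hc c z := by
  unfold hc
  rw [if_neg hz, if_neg hz]
  have hn : (0:ℝ) < ‖z‖ := norm_pos_iff.2 hz
  have hn' : (‖z‖ : ℂ) ≠ 0 := by exact_mod_cast hn.ne'
  have hu : z / ‖z‖ ≠ 0 := div_ne_zero hz hn'
  beta_reduce
  rw [Real.exp_log hn]
  rw [← (Equiv.addRight (1:ℤ)).tsum_eq (fun k : ℤ => -(I / 2) * ((‖z‖:ℝ) : ℂ) * c (k - 1) (Real.log ‖z‖) * (z / ‖z‖) ^ k)]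
  rw [← tsum_mul_left]
  refine tsum_congr fun k => ?_
  simp only [Equiv.coe_addRight, add_sub_cancel_right]
  rw [zpow_add_one₀ hu]
  field_simp

lemma dfm_div {F : ℂ → ℂ} {a b z : ℂ} (hz : z ≠ 0) (hF : HasFDerivAt F (dfm a b) z) :
    HasFDerivAt (fun y => F y / y) (dfm (a / z - F z / z ^ 2) (b / z)) z := by
  have h1 : HasDerivAt (fun y : ℂ => y⁻¹) (-(z ^ 2)⁻¹) z := hasDerivAt_inv hz
  have h2 : HasFDerivAt (fun y : ℂ => y⁻¹) (ContinuousLinearMap.restrictScalars ℝ (ContinuousLinearMap.toSpanSingleton ℂ (-(z ^ 2)⁻¹))) z := by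
    exact h1.hasFDerivAt.restrictScalars ℝ
  have h3 := hF.mul h2
  simp only [div_eq_mul_inv]
  refine h3.congr_fderiv ?_
  ext w
  all_goals
    simp only [ContinuousLinearMap.add_apply, ContinuousLinearMap.smul_apply, dfm_apply,
      ContinuousLinearMap.coe_restrictScalars', ContinuousLinearMap.toSpanSingleton_apply, smul_eq_mul]
    ring


lemma summable_cube : Summable (fun n : ℤ => 1 / (1 + |(n:ℝ)|) ^ 3) := by
  have h1 : Summable (fun n : ℤ => 1 / (n:ℝ) ^ 2) := Real.summable_one_div_int_pow.2 (by norm_num)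
  have h2 : Summable (fun n : ℤ => if n = 0 then (1:ℝ) else 0) := (hasSum_ite_eq 0 1).summable
  refine Summable.of_nonneg_of_le (fun n => by positivity) (fun n => ?_) (h1.add h2)
  by_cases hn : n = 0
  · subst hn; simp
  · simp only [hn, if_false, add_zero]
    have hn' : (1:ℝ) ≤ |(n:ℝ)| := by
      have : (1:ℤ) ≤ |n| := Int.one_le_abs hn
      exact_mod_cast this
    have h3 : (0:ℝ) < (n:ℝ) ^ 2 := by rw [← sq_abs]; positivity
    apply one_div_le_one_div_of_le h3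
    rw [← sq_abs]
    nlinarith [pow_le_pow_left₀ (by linarith : (0:ℝ) ≤ |(n:ℝ)|) (by linarith : |(n:ℝ)| ≤ 1 + |(n:ℝ)|) 2, sq_nonneg (1 + |(n:ℝ)|)]

lemma final_real {r : ℝ} (hr : 0 < r) : Real.exp (2 * Real.log r - 5 * |Real.log r|) / r ≤ 16 / (1 + r) ^ 4 := by
  rcases le_total r 1 with h | h
  · have hl : Real.log r ≤ 0 := Real.log_nonpos hr.le h
    rw [abs_of_nonpos hl]
    have e1 : Real.exp (2 * Real.log r - 5 * -Real.log r) = r ^ 7 := by
      rw [show 2 * Real.log r - 5 * -Real.log r = (7:ℕ) * Real.log r by push_cast; ring, Real.exp_nat_mul, Real.exp_log hr]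
    rw [e1, div_le_div_iff₀ hr (by positivity)]
    have h1 : (1 + r) ^ 4 ≤ 2 ^ 4 := pow_le_pow_left₀ (by linarith) (by linarith) 4
    have h2 : r ^ 6 ≤ 1 := pow_le_one₀ hr.le h
    calc r ^ 7 * (1 + r) ^ 4 ≤ r ^ 7 * 2 ^ 4 := by gcongr
      _ = 16 * (r ^ 6 * r) := by ring
      _ ≤ 16 * (1 * r) := by gcongr
      _ = 16 * r := by ring
  · have hl : 0 ≤ Real.log r := Real.log_nonneg h
    rw [abs_of_nonneg hl]
    have e1 : Real.exp (2 * Real.log r - 5 * Real.log r) = (r ^ 3)⁻¹ := by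
      rw [show 2 * Real.log r - 5 * Real.log r = -((3:ℕ) * Real.log r) by push_cast; ring, Real.exp_neg, Real.exp_nat_mul, Real.exp_log hr]
    rw [e1, inv_eq_one_div, div_div, div_le_div_iff₀ (by positivity) (by positivity)]
    have h1 : (1 + r) ^ 4 ≤ (2 * r) ^ 4 := pow_le_pow_left₀ (by linarith) (by linarith) 4
    calc 1 * (1 + r) ^ 4 ≤ (2 * r) ^ 4 := by rw [one_mul]; exact h1
      _ = 16 * (r ^ 3 * r) := by ring

/-- the complex velocity `V = U / z` away from the origin: d-bar equation and bound -/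
theorem V_props (T : ℝ) (m : ℕ) (Λ σ B : ℝ) (hT : 0 < T) (hm : 40 ≤ m) (hΛ : 1 ≤ Λ)
    (hη : Λ ≤ m) (hσ : 0 < σ) (hσ1 : σ ≤ 1 / 2) (hB : 1 ≤ B) (S : Sol T m Λ σ B) :
    (∀ t ∈ Icc 0 T, ∀ z : ℂ, z ≠ 0 → ∃ A : ℂ,
      HasFDerivAt (fun y : ℂ => hc (fun n (x : ℝ) => S.cu t n (x : ℂ)) y / y)
        (dfm A (-(I / 2) * hc (fun n (x : ℝ) => S.cw t n (x : ℂ)) z)) z) ∧
    (∃ C : ℝ, ∀ t ∈ Icc 0 T, ∀ z : ℂ, z ≠ 0 →
      ‖hc (fun n (x : ℝ) => S.cu t n (x : ℂ)) z / z‖ ≤ C / (1 + ‖z‖) ^ 4) := by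
  obtain ⟨Cu, hCu, hcu⟩ := cu_bound T m Λ σ B hT hm hΛ hη hσ hσ1 hB S
  obtain ⟨Cw, hCw, hcw⟩ := cw_bound T m Λ σ B hT hm hΛ hη hσ hσ1 hB S
  constructor
  · intro t ht z hz
    set c : ℤ → ℝ → ℂ := fun n x => S.cu t n (x:ℂ) with hcdef
    have hd : ∀ (n : ℤ) (x : ℝ), HasDerivAt (c n) ((n : ℂ) * c n x - I * Complex.exp (2 * (x:ℂ)) * S.cw t n x) x := by
      intro n x
      exact (cu_hasDerivAt T m Λ σ B hT hm hΛ hη hσ hσ1 hB S t ht n x (real_mem_Str hσ x)).comp_ofReal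
    have hderiv : ∀ n, deriv (c n) = fun x : ℝ => (n : ℂ) * c n x - I * Complex.exp (2 * (x:ℂ)) * S.cw t n x := by
      intro n; funext x; exact (hd n x).deriv
    have hdiff : ∀ n, Differentiable ℝ (c n) := fun n x => (hd n x).differentiableAt
    have hcont : ∀ n, Continuous (deriv (c n)) := by
      intro n
      rw [hderiv]
      have h1 : Continuous (c n) := (hdiff n).continuous
      have h2 := cw_continuous T m Λ σ B hT hm hΛ hη hσ hσ1 hB S t ht n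
      fun_prop
    have hexp_le : ∀ x : ℝ, Real.exp (2 * x - 5 * |x|) ≤ 1 := by
      intro x
      rw [Real.exp_le_one_iff]
      have := le_abs_self x
      have := abs_nonneg x
      linarith
    have hbound : ∀ R : ℝ, ∃ C : ℝ, ∀ k : ℤ, ∀ x : ℝ, |x| ≤ R →
      ‖c k x‖ ≤ C / (1 + |(k : ℝ)|) ^ 3 ∧ ‖deriv (c k) x‖ ≤ C / (1 + |(k : ℝ)|) ^ 2 := by
      intro R
      refine ⟨Cu + Real.exp (2 * R) * Cw, fun k x hx => ?_⟩
      have hk := abs_nonneg (k:ℝ)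
      have h1 : ‖c k x‖ ≤ Cu / (1 + |(k:ℝ)|) ^ 3 := by
        refine (hcu t ht k x).trans ?_
        gcongr
        have := hexp_le x
        nlinarith
      refine ⟨h1.trans ?_, ?_⟩
      · gcongr
        have : 0 ≤ Real.exp (2 * R) * Cw := by positivity
        linarith
      · rw [hderiv]
        have h2 : ‖(k : ℂ) * c k x‖ ≤ Cu / (1 + |(k:ℝ)|) ^ 2 := by
          rw [norm_mul, Complex.norm_intCast]
          calc |(k:ℝ)| * ‖c k x‖ ≤ (1 + |(k:ℝ)|) * (Cu / (1 + |(k:ℝ)|) ^ 3) := by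
                gcongr; linarith
            _ = Cu / (1 + |(k:ℝ)|) ^ 2 := by field_simp
        have h3 : ‖I * Complex.exp (2 * (x:ℂ)) * S.cw t k x‖ ≤ Real.exp (2 * R) * (Cw / (1 + |(k:ℝ)|) ^ 2) := by
          rw [norm_mul, norm_mul, Complex.norm_I, one_mul, Complex.norm_exp]
          have e1 : (2 * (x:ℂ)).re = 2 * x := by simp
          rw [e1]
          have e2 : Real.exp (2 * x) ≤ Real.exp (2 * R) := by
            apply Real.exp_le_exp.2; have := le_abs_self x; linarith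
          exact mul_le_mul e2 (hcw t ht k x) (norm_nonneg _) (Real.exp_pos _).le
        calc _ ≤ ‖(k : ℂ) * c k x‖ + ‖I * Complex.exp (2 * (x:ℂ)) * S.cw t k x‖ := norm_sub_le _ _
          _ ≤ Cu / (1 + |(k:ℝ)|) ^ 2 + Real.exp (2 * R) * (Cw / (1 + |(k:ℝ)|) ^ 2) := add_le_add h2 h3
          _ = _ := by ring
    have hF := hc_fderiv_ne c hdiff hcont hbound z hz
    have hdzb : dzb c = fun k x => -(I / 2) * Real.exp x * S.cw t (k - 1) (x : ℂ) := by
      funext k x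
      unfold dzb
      rw [hderiv]
      have e1 : Complex.exp (2 * (x:ℂ)) = (Real.exp x : ℂ) * (Real.exp x : ℂ) := by
        rw [Complex.ofReal_exp, ← Complex.exp_add]; congr 1; ring
      have e2 : (Real.exp (-x) : ℂ) * (Real.exp x : ℂ) = 1 := by
        rw [← Complex.ofReal_mul, ← Real.exp_add]; simp
      beta_reduce
      rw [e1]
      linear_combination (-(I / 2) * (Real.exp x : ℂ) * S.cw t (k - 1) x) * e2
    have hsh := hc_shift (fun (n : ℤ) (x : ℝ) => S.cw t n (x : ℂ)) z hz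
    rw [hdzb, hsh] at hF
    have hG := dfm_div hz hF
    have hb : -(I / 2) * z * hc (fun (n : ℤ) (x : ℝ) => S.cw t n (x : ℂ)) z / z = -(I / 2) * hc (fun (n : ℤ) (x : ℝ) => S.cw t n (x : ℂ)) z := by
      field_simp
    rw [hb] at hG
    exact ⟨_, hG⟩
  · refine ⟨Cu * (∑' n : ℤ, 1 / (1 + |(n:ℝ)|) ^ 3) * 16, ?_⟩
    intro t ht z hz
    have hzn : 0 < ‖z‖ := norm_pos_iff.2 hz
    have hS0 : 0 ≤ ∑' n : ℤ, 1 / (1 + |(n:ℝ)|) ^ 3 := tsum_nonneg fun n => by positivity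
    have h1 : ‖hc (fun n (x : ℝ) => S.cu t n (x : ℂ)) z‖ ≤
        Cu * Real.exp (2 * Real.log ‖z‖ - 5 * |Real.log ‖z‖|) * ∑' n : ℤ, 1 / (1 + |(n:ℝ)|) ^ 3 := by
      unfold hc
      rw [if_neg hz]
      refine tsum_of_norm_bounded (summable_cube.hasSum.mul_left _) fun n => ?_
      have hu : ‖z / (‖z‖ : ℂ)‖ = 1 := by
        rw [norm_div, Complex.norm_real, norm_norm, div_self hzn.ne']
      rw [norm_mul, norm_zpow, hu, one_zpow, mul_one, mul_one_div]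
      exact hcu t ht n _
    rw [norm_div]
    calc ‖hc (fun n (x : ℝ) => S.cu t n (x : ℂ)) z‖ / ‖z‖ ≤
        (Cu * Real.exp (2 * Real.log ‖z‖ - 5 * |Real.log ‖z‖|) * ∑' n : ℤ, 1 / (1 + |(n:ℝ)|) ^ 3) / ‖z‖ := by gcongr
      _ = Cu * (∑' n : ℤ, 1 / (1 + |(n:ℝ)|) ^ 3) * (Real.exp (2 * Real.log ‖z‖ - 5 * |Real.log ‖z‖|) / ‖z‖) := by ring
      _ ≤ Cu * (∑' n : ℤ, 1 / (1 + |(n:ℝ)|) ^ 3) * (16 / (1 + ‖z‖) ^ 4) := by
        exact mul_le_mul_of_nonneg_left (final_real hzn) (by positivity)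
      _ = _ := by ring

end JF2

end Pool.Agent.Helper383.NI
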