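import Pool.Agent.Helper383.NI.Defs
import Pool.Agent.Helper383.NI.D0
import Pool.Agent.Helper383.NI.D1
import Pool.Agent.Helper383.NI.D2
import Pool.Agent.Helper383.NI.E1
import Pool.Agent.Helper383.NI.E2
import Pool.Agent.Helper383.NI.E3
import Pool.Agent.Helper383.NI.E4
import Pool.Agent.Helper383.NI.F1

open Complex MeasureTheory Set Filter Topology

namespace Pool.Agent.Helper383.NI

open JD0 (E_bound)
open JD1 (GH_est)
open JD2 (N_est)
open JE1 (GH_ode)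
open JE2 (N_identities)
open JE3 (sol_basic sol_Th_decay)
open JE4 (modes_real)
open JF1 (modes_RDt)

namespace JF3

lemma conj_tsum833 (f : ℤ → ℂ) (h : ∀ k, (starRingEnd ℂ) (f k) = f (-k)) :
    (starRingEnd ℂ) (∑' k, f k) = ∑' k, f k := by
  rw [Complex.conj_tsum, ← (Equiv.neg ℤ).tsum_eq f]
  exact tsum_congr h

lemma conj_zpow833 {ζ : ℂ} (hζ : ‖ζ‖ = 1) (n : ℤ) : (starRingEnd ℂ) (ζ ^ n) = ζ ^ (-n) := by
  rw [map_zpow₀, ← Complex.inv_eq_conj hζ, inv_zpow, zpow_neg]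

/-- the algebra of the double sums -/
lemma alg833 (F : ℤ → ℂ) (hF : ∀ j l, F (j + l) = F j * F l) (hF1 : ∀ k, ‖F k‖ = 1)
    (h H g W W' : ℤ → ℂ) (β μ : ℂ) (hg : ∀ j, g j = μ * (H j + β * h j))
    (sh : Summable fun k => ‖h k‖) (sH : Summable fun k => ‖H k‖)
    (sW : Summable fun l : ℤ => ‖(l : ℂ) * W l‖) (sW' : Summable fun l => ‖W' l‖) :
    (Summable fun k : ℤ => h k * F k) ∧ (Summable fun k : ℤ => H k * F k) ∧
    (Summable fun l : ℤ => I * (μ * (l : ℂ)) * W l * F l) ∧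
    (Summable fun l : ℤ => (W' l - I * (μ * (l : ℂ)) * β * W l) * F l) ∧
    (Summable fun k : ℤ => (-∑' j, (g j * (I * ((k - j : ℤ) : ℂ) * W (k - j)) - h j * W' (k - j))) * F k) ∧
    (∑' k, (-∑' j, (g j * (I * ((k - j : ℤ) : ℂ) * W (k - j)) - h j * W' (k - j))) * F k)
      = (∑' k, h k * F k) * (∑' l : ℤ, (W' l - I * (μ * (l : ℂ)) * β * W l) * F l)
        - (∑' k, H k * F k) * (∑' l : ℤ, I * (μ * (l : ℂ)) * W l * F l) := by
  have n1 : Summable fun k => ‖h k * F k‖ := by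
    refine sh.congr (fun k => ?_); rw [norm_mul, hF1, mul_one]
  have n2 : Summable fun k => ‖H k * F k‖ := by
    refine sH.congr (fun k => ?_); rw [norm_mul, hF1, mul_one]
  have n4 : Summable fun l : ℤ => ‖I * (μ * (l : ℂ)) * W l * F l‖ := by
    refine (sW.mul_left ‖μ‖).congr (fun l => ?_)
    rw [norm_mul _ (F l), hF1, mul_one, norm_mul, norm_mul, norm_mul, norm_mul, Complex.norm_I]
    ring
  have n3 : Summable fun l : ℤ => ‖(W' l - I * (μ * (l : ℂ)) * β * W l) * F l‖ := by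
    have : Summable fun l : ℤ => ‖W' l‖ + ‖μ‖ * ‖β‖ * ‖(l : ℂ) * W l‖ :=
      sW'.add (sW.mul_left (‖μ‖ * ‖β‖))
    refine Summable.of_nonneg_of_le (fun _ => norm_nonneg _) (fun l => ?_) this
    rw [norm_mul, hF1, mul_one]
    refine (norm_sub_le _ _).trans (le_of_eq ?_)
    rw [norm_mul (I * (μ * (l : ℂ)) * β), norm_mul (I * (μ * (l : ℂ))), norm_mul I, norm_mul μ,
      norm_mul (l : ℂ), Complex.norm_I]
    ring
  have hs := (summable_mul_of_summable_norm n1 n3).sub (summable_mul_of_summable_norm n2 n4)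
  let A : ℤ × ℤ → ℂ := fun p => (h p.1 * W' p.2 - g p.1 * (I * (p.2 : ℂ) * W p.2)) * F (p.1 + p.2)
  have hA : (fun z : ℤ × ℤ => h z.1 * F z.1 * ((W' z.2 - I * (μ * (z.2 : ℂ)) * β * W z.2) * F z.2)
      - H z.1 * F z.1 * (I * (μ * (z.2 : ℂ)) * W z.2 * F z.2)) = A := by
    funext z
    show _ = (h z.1 * W' z.2 - g z.1 * (I * (z.2 : ℂ) * W z.2)) * F (z.1 + z.2)
    rw [hF, hg]
    ring
  rw [hA] at hs
  let e : ℤ × ℤ ≃ ℤ × ℤ :=
    { toFun := fun p => (p.2, p.1 - p.2)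
      invFun := fun q => (q.1 + q.2, q.1)
      left_inv := fun p => by ext <;> simp
      right_inv := fun q => by ext <;> simp }
  have hs2 : Summable (fun p => A (e p)) := (Equiv.summable_iff e).mpr hs
  have hk : ∀ k : ℤ, (∑' j, A (e (k, j)))
      = (-∑' j, (g j * (I * ((k - j : ℤ) : ℂ) * W (k - j)) - h j * W' (k - j))) * F k := by
    intro k
    rw [← tsum_neg, ← tsum_mul_right]
    refine tsum_congr (fun j => ?_)
    show (h j * W' (k - j) - g j * (I * ((k - j : ℤ) : ℂ) * W (k - j))) * F (j + (k - j))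
      = -(g j * (I * ((k - j : ℤ) : ℂ) * W (k - j)) - h j * W' (k - j)) * F k
    rw [add_sub_cancel]
    ring
  refine ⟨n1.of_norm, n2.of_norm, n4.of_norm, n3.of_norm, ?_, ?_⟩
  · exact hs2.prod.congr hk
  · rw [tsum_mul_tsum_of_summable_norm n1 n3, tsum_mul_tsum_of_summable_norm n2 n4,
      ← (summable_mul_of_summable_norm n1 n3).tsum_sub (summable_mul_of_summable_norm n2 n4)]
    rw [hA, ← e.tsum_eq A, hs2.tsum_prod]
    exact (tsum_congr hk).symm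

lemma summ833 {s : ℝ} (hs : 0 < s) : Summable fun k : ℤ => Real.exp (-(s * |(k : ℝ)|)) := by
  have h1 : Summable fun n : ℕ => Real.exp (-s) ^ n :=
    summable_geometric_of_lt_one (Real.exp_pos _).le (by rw [Real.exp_lt_one_iff]; linarith)
  refine Summable.of_nat_of_neg ?_ ?_
  · refine h1.congr (fun n => ?_)
    rw [← Real.exp_nat_mul]
    congr 1
    simp
    ring
  · refine h1.congr (fun n => ?_)
    rw [← Real.exp_nat_mul]
    congr 1
    simp
    ring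


lemma tsum_mult833 {m : ℤ} (hm : m ≠ 0) (f : ℤ → ℂ) (hf : ∀ n, ¬ m ∣ n → f n = 0) :
    ∑' n, f n = ∑' k, f (m * k) := by
  symm
  refine Function.Injective.tsum_eq (g := fun k : ℤ => m * k) ?_ ?_
  · intro a b hab
    exact mul_left_cancel₀ hm hab
  · intro n hn
    by_contra hcon
    apply hn
    apply hf
    rintro ⟨k, hk⟩
    exact hcon ⟨k, hk.symm⟩

lemma hc_dzb833 (c : ℤ → ℝ → ℂ) {z : ℂ} (hz : z ≠ 0) :
    hc (dzb c) z = (1 / 2) * Real.exp (-(Real.log ‖z‖)) * (z / ‖z‖) *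
      ∑' n : ℤ, (deriv (c n) (Real.log ‖z‖) - (n : ℂ) * c n (Real.log ‖z‖)) * (z / ‖z‖) ^ n := by
  have hζ0 : z / (‖z‖ : ℂ) ≠ 0 := by
    have : (‖z‖ : ℂ) ≠ 0 := by
      exact_mod_cast (norm_ne_zero_iff.mpr hz)
    exact div_ne_zero hz this
  unfold hc
  rw [if_neg hz, ← (Equiv.addRight (1 : ℤ)).tsum_eq
    (fun k : ℤ => dzb c k (Real.log ‖z‖) * (z / ‖z‖) ^ k), ← tsum_mul_left]
  refine tsum_congr (fun n => ?_)
  show dzb c (n + 1) (Real.log ‖z‖) * (z / ‖z‖) ^ (n + 1) = _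
  unfold dzb
  rw [add_sub_cancel_right, zpow_add_one₀ hζ0]
  ring

lemma Str_open833 (σ : ℝ) : IsOpen (Str σ) := by
  have : Continuous fun z : ℂ => |z.im| := Complex.continuous_im.abs
  exact this.isOpen_preimage _ isOpen_Iio

lemma real_mem833 {σ : ℝ} (hσ : 0 < σ) (x : ℝ) : (x : ℂ) ∈ Str σ := by
  show |(x : ℂ).im| < σ
  simpa using hσ

lemma Ws_diff833 {σ : ℝ} {w : ℤ → ℂ → ℂ} (hw : ∀ k, DifferentiableOn ℂ (w k) (Str σ)) (k : ℤ)
    {z : ℂ} (hz : z ∈ Str σ) : HasDerivAt (Ws w k)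
      (-Complex.sinh z * Complex.exp (-Complex.cosh z) * w k z
        + Complex.exp (-Complex.cosh z) * deriv (w k) z) z := by
  have h1 : HasDerivAt (w k) (deriv (w k) z) z :=
    ((hw k z hz).differentiableAt ((Str_open833 σ).mem_nhds hz)).hasDerivAt
  have h2 : HasDerivAt (fun y => Complex.exp (-Complex.cosh y))
      (Complex.exp (-Complex.cosh z) * -Complex.sinh z) z := by
    have := (Complex.hasDerivAt_cosh z).neg.cexp
    exact this
  have h3 := h2.mul h1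
  have e : (fun y => Complex.exp (-Complex.cosh y)) * w k = Ws w k := by
    funext y
    rfl
  rw [e] at h3
  have e4 : -Complex.sinh z * Complex.exp (-Complex.cosh z) * w k z
        + Complex.exp (-Complex.cosh z) * deriv (w k) z
      = Complex.exp (-Complex.cosh z) * -Complex.sinh z * w k z
        + Complex.exp (-Complex.cosh z) * deriv (w k) z := by ring
  rw [e4]
  exact h3

/-- the vorticity is real -/
theorem vort_real (T : ℝ) (m : ℕ) (Λ σ B : ℝ) (hT : 0 < T) (hm : 40 ≤ m) (hΛ : 1 ≤ Λ)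
    (hη : Λ ≤ m) (hσ : 0 < σ) (hσ1 : σ ≤ 1 / 2) (hB : 1 ≤ B) (S : Sol T m Λ σ B) :
    ∀ t ∈ Icc 0 T, ∀ z : ℂ, (hc (fun n (x : ℝ) => S.cw t n (x : ℂ)) z).im = 0 ∧
      (hc (fun n (x : ℝ) => S.ct t n (x : ℂ)) z).im = 0 := by
  obtain ⟨hol, hal, -, -, -, -, -, hsym, -⟩ := sol_basic T m Λ σ B hT hm hΛ hη hσ hσ1 hB S
  have hr := modes_real T m Λ σ B hT hm hσ S hsym
  intro t ht z
  by_cases hz : z = 0
  · subst hz
    unfold hc
    simp
  have hζ : ‖z / (‖z‖ : ℂ)‖ = 1 := by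
    rw [norm_div, Complex.norm_real, norm_norm, div_self (norm_ne_zero_iff.mpr hz)]
  constructor
  · rw [← Complex.conj_eq_iff_im]
    unfold hc
    rw [if_neg hz]
    refine conj_tsum833 _ (fun k => ?_)
    rw [map_mul, conj_zpow833 hζ]
    show (starRingEnd ℂ) (S.cw t k ((Real.log ‖z‖ : ℝ) : ℂ)) * _ = S.cw t (-k) ((Real.log ‖z‖ : ℝ) : ℂ) * _
    rw [(hr t ht k (Real.log ‖z‖)).1]
  · rw [← Complex.conj_eq_iff_im]
    unfold hc
    rw [if_neg hz]
    refine conj_tsum833 _ (fun k => ?_)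
    rw [map_mul, conj_zpow833 hζ]
    show (starRingEnd ℂ) (S.ct t k ((Real.log ‖z‖ : ℝ) : ℂ)) * _ = S.ct t (-k) ((Real.log ‖z‖ : ℝ) : ℂ) * _
    rw [(hr t ht k (Real.log ‖z‖)).2.1]

/-- bounds needed for summability at a real point -/
lemma sums_at833 (m : ℕ) (σ B : ℝ) (hm : 40 ≤ m) (hσ : 0 < σ) (hσ1 : σ ≤ 1 / 2) (hB : 1 ≤ B)
    (β : ℂ → ℂ) (w : ℤ → ℂ → ℂ) (hg : Good σ B B β w) (x : ℝ) :
    (Summable fun k : ℤ => ‖hk m β w k x‖) ∧ (Summable fun k : ℤ => ‖Hk m β w k x‖) ∧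
    (Summable fun l : ℤ => ‖(l : ℂ) * Ws w l x‖) ∧
    (Summable fun l : ℤ => ‖deriv (Ws w l) x‖) := by
  obtain ⟨K, hK, hKK⟩ := GH_est B B (by linarith) (by linarith)
  have hG := (hKK m hm σ hσ (by linarith) β w hg).2.2.1
  have hx := real_mem833 hσ x
  have hs := summ833 hσ
  have habs : ∀ k : ℤ, 0 ≤ |(k : ℝ)| := fun k => abs_nonneg _
  have hB0 : 0 ≤ B := by linarith
  have wt_nonneg : ∀ (p : ℕ) (k : ℤ), 0 ≤ wt p k σ := fun p k => by unfold wt; positivity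
  have wt_le : ∀ (p : ℕ) (k : ℤ), wt p k σ ≤ Real.exp (-(σ * |(k : ℝ)|)) := fun p k => by
    unfold wt
    refine div_le_self (Real.exp_pos _).le ?_
    exact one_le_pow₀ (by linarith [habs k])
  have wt_mul : ∀ (p : ℕ) (k : ℤ), |(k : ℝ)| * wt (p + 1) k σ ≤ Real.exp (-(σ * |(k : ℝ)|)) := by
    intro p k
    have h1 : 0 < 1 + |(k : ℝ)| := by linarith [habs k]
    have h2 : |(k : ℝ)| * wt (p + 1) k σ ≤ wt p k σ := by
      unfold wt
      rw [pow_succ, ← mul_div_assoc, div_le_div_iff₀ (by positivity) (by positivity)]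
      have h3 : 0 < (1 + |(k : ℝ)|) ^ p := by positivity
      have h4 := Real.exp_pos (-(σ * |(k : ℝ)|))
      have : |(k : ℝ)| * Real.exp (-(σ * |(k : ℝ)|)) * (1 + |(k : ℝ)|) ^ p
          ≤ (1 + |(k : ℝ)|) * Real.exp (-(σ * |(k : ℝ)|)) * (1 + |(k : ℝ)|) ^ p := by
        gcongr
        linarith
      calc _ ≤ _ := this
        _ = _ := by ring
    exact h2.trans (wt_le p k)
  have hnc : ∀ k : ℤ, ‖(k : ℂ)‖ = |(k : ℝ)| := fun k => by
    rw [Complex.norm_intCast]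
  refine ⟨?_, ?_, ?_, ?_⟩
  · refine Summable.of_nonneg_of_le (fun _ => norm_nonneg _) (fun k => ?_)
      (hs.mul_left (K * Real.exp (-(5 * |((x : ℂ)).re|))))
    unfold hk
    rw [norm_mul, norm_mul, Complex.norm_I, one_mul, hnc]
    calc |(k : ℝ)| * ‖Gk m β w k x‖
        ≤ |(k : ℝ)| * (K * wt 5 k σ * Real.exp (-(5 * |((x : ℂ)).re|))) :=
          mul_le_mul_of_nonneg_left (hG k x hx).1 (habs k)
      _ = (K * Real.exp (-(5 * |((x : ℂ)).re|))) * (|(k : ℝ)| * wt (4 + 1) k σ) := by ring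
      _ ≤ _ := mul_le_mul_of_nonneg_left (wt_mul 4 k) (by positivity)
  · refine Summable.of_nonneg_of_le (fun _ => norm_nonneg _) (fun k => ?_)
      (hs.mul_left (K * Real.exp (-(5 * |((x : ℂ)).re|))))
    calc ‖Hk m β w k x‖ ≤ K * wt 4 k σ * Real.exp (-(5 * |((x : ℂ)).re|)) := (hG k x hx).2.2.1
      _ = (K * Real.exp (-(5 * |((x : ℂ)).re|))) * wt 4 k σ := by ring
      _ ≤ _ := mul_le_mul_of_nonneg_left (wt_le 4 k) (by positivity)
  · refine Summable.of_nonneg_of_le (fun _ => norm_nonneg _) (fun k => ?_)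
      (hs.mul_left (‖Complex.exp (-Complex.cosh (x : ℂ))‖ * B))
    unfold Ws
    rw [norm_mul, norm_mul, hnc]
    calc |(k : ℝ)| * (‖Complex.exp (-Complex.cosh (x : ℂ))‖ * ‖w k x‖)
        ≤ |(k : ℝ)| * (‖Complex.exp (-Complex.cosh (x : ℂ))‖ * (B * wt 3 k σ)) := by
          gcongr
          exact hg.w0 k x hx
      _ = (‖Complex.exp (-Complex.cosh (x : ℂ))‖ * B) * (|(k : ℝ)| * wt (2 + 1) k σ) := by ring
      _ ≤ _ := mul_le_mul_of_nonneg_left (wt_mul 2 k) (by positivity)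
  · refine Summable.of_nonneg_of_le (fun _ => norm_nonneg _) (fun k => ?_)
      ((hs.mul_left (‖-Complex.sinh (x : ℂ) * Complex.exp (-Complex.cosh (x : ℂ))‖ * B)).add
       (hs.mul_left (‖Complex.exp (-Complex.cosh (x : ℂ))‖ * B)))
    rw [(Ws_diff833 hg.wd k hx).deriv]
    refine (norm_add_le _ _).trans (add_le_add ?_ ?_)
    · rw [norm_mul _ (w k x)]
      calc ‖-Complex.sinh (x : ℂ) * Complex.exp (-Complex.cosh (x : ℂ))‖ * ‖w k x‖
          ≤ ‖-Complex.sinh (x : ℂ) * Complex.exp (-Complex.cosh (x : ℂ))‖ * (B * wt 3 k σ) :=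
            mul_le_mul_of_nonneg_left (hg.w0 k x hx) (norm_nonneg _)
        _ = (‖-Complex.sinh (x : ℂ) * Complex.exp (-Complex.cosh (x : ℂ))‖ * B) * wt 3 k σ := by
            ring
        _ ≤ _ := mul_le_mul_of_nonneg_left (wt_le 3 k) (by positivity)
    · rw [norm_mul]
      calc ‖Complex.exp (-Complex.cosh (x : ℂ))‖ * ‖deriv (w k) x‖
          ≤ ‖Complex.exp (-Complex.cosh (x : ℂ))‖ * (B * wt 2 k σ) :=
            mul_le_mul_of_nonneg_left (hg.w1 k x hx) (norm_nonneg _)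
        _ = (‖Complex.exp (-Complex.cosh (x : ℂ))‖ * B) * wt 2 k σ := by ring
        _ ≤ _ := mul_le_mul_of_nonneg_left (wt_le 2 k) (by positivity)

/-- vorticity transport in the plane, away from the origin -/
theorem transport (T : ℝ) (m : ℕ) (Λ σ B : ℝ) (hT : 0 < T) (hm : 40 ≤ m) (hΛ : 1 ≤ Λ)
    (hη : Λ ≤ m) (hσ : 0 < σ) (hσ1 : σ ≤ 1 / 2) (hB : 1 ≤ B) (S : Sol T m Λ σ B) :
    ∀ t ∈ Icc 0 T, ∀ z : ℂ, z ≠ 0 →
      hc (fun n (x : ℝ) => S.ct t n (x : ℂ)) z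
      + (hc (fun n (x : ℝ) => S.cu t n (x : ℂ)) z / z)
          * hc (dzb (fun n (x : ℝ) => S.cw t n (x : ℂ))) z
      + (starRingEnd ℂ) ((hc (fun n (x : ℝ) => S.cu t n (x : ℂ)) z / z)
          * hc (dzb (fun n (x : ℝ) => S.cw t n (x : ℂ))) z) = 0 := by
  obtain ⟨hol, hal, -, -, -, -, -, hsym, -⟩ := sol_basic T m Λ σ B hT hm hΛ hη hσ hσ1 hB S
  have hr := modes_real T m Λ σ B hT hm hσ S hsym
  intro t ht z hz
  have hzn : (‖z‖ : ℝ) ≠ 0 := norm_ne_zero_iff.mpr hz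
  have hζ : ‖z / (‖z‖ : ℂ)‖ = 1 := by
    rw [norm_div, Complex.norm_real, norm_norm, div_self hzn]
  obtain ⟨x, hx⟩ : ∃ x : ℝ, x = Real.log ‖z‖ := ⟨_, rfl⟩
  obtain ⟨ζ, hζd⟩ : ∃ ζ : ℂ, ζ = z / (‖z‖ : ℂ) := ⟨_, rfl⟩
  have hzx : z = Complex.exp (x : ℂ) * ζ := by
    rw [hζd, hx, ← Complex.ofReal_exp, Real.exp_log (norm_pos_iff.mpr hz)]
    have : (‖z‖ : ℂ) ≠ 0 := by exact_mod_cast hzn
    field_simp
  have hm0 : (m : ℤ) ≠ 0 := by
    have : (40 : ℤ) ≤ m := by exact_mod_cast hm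
    omega
  have hX := real_mem833 hσ x
  have hgood : Good σ B B (S.be t) (S.w t) := S.good t ht
  obtain ⟨sh, sH, sW, sW'⟩ := sums_at833 m σ B hm hσ hσ1 hB (S.be t) (S.w t) hgood x
  have hode := GH_ode m σ B B (S.be t) (S.w t) hm hσ (by linarith) (by linarith) (by linarith) hgood
  have hNid := (N_identities m σ B B (S.be t) (S.w t) hm hσ (by linarith) (by linarith)
    (by linarith) hgood).2.2.2.2
  have hdvd : ∀ k : ℤ, (m : ℤ) ∣ (m : ℤ) * k := fun k => dvd_mul_right _ _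
  have hdiv : ∀ k : ℤ, ((m : ℤ) * k) / (m : ℤ) = k := fun k => Int.mul_ediv_cancel_left k hm0
  rw [← hζd] at hζ
  have hζ0 : ζ ≠ 0 := by
    intro h
    rw [h, norm_zero] at hζ
    exact zero_ne_one hζ
  have hcX : (starRingEnd ℂ) (x : ℂ) = (x : ℂ) := Complex.conj_ofReal x
  obtain ⟨hsb, hsO, hsa⟩ := hsym t ht x hX
  rw [hcX] at hsb hsO hsa
  -- names
  obtain ⟨al, hald⟩ : ∃ al : ℂ, al = S.al t x := ⟨_, rfl⟩
  obtain ⟨Om, hOmd⟩ : ∃ Om : ℂ, Om = S.Om t x := ⟨_, rfl⟩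
  obtain ⟨be, hbed⟩ : ∃ be : ℂ, be = S.be t x := ⟨_, rfl⟩
  obtain ⟨η, hηd⟩ : ∃ η : ℂ, η = ((Λ / m : ℝ) : ℂ) := ⟨_, rfl⟩
  rw [← hald] at hsa
  rw [← hOmd] at hsO
  obtain ⟨E, hE⟩ : ∃ E : ℤ → ℂ, E = fun k : ℤ => Complex.exp (-(I * (((m : ℤ) * k : ℤ) : ℂ) * al)) :=
    ⟨_, rfl⟩
  obtain ⟨F, hFd⟩ : ∃ F : ℤ → ℂ, F = fun k : ℤ => E k * ζ ^ ((m : ℤ) * k) := ⟨_, rfl⟩
  have hFk : ∀ k, F k = E k * ζ ^ ((m : ℤ) * k) := fun k => by rw [hFd]
  have hEk : ∀ k, E k = Complex.exp (-(I * (((m : ℤ) * k : ℤ) : ℂ) * al)) := fun k => by rw [hE]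
  have hFadd : ∀ j l, F (j + l) = F j * F l := by
    intro j l
    rw [hFk, hFk, hFk, hEk, hEk, hEk, mul_add, zpow_add₀ hζ0]
    have : Complex.exp (-(I * (((m : ℤ) * j + (m : ℤ) * l : ℤ) : ℂ) * al))
        = Complex.exp (-(I * (((m : ℤ) * j : ℤ) : ℂ) * al))
          * Complex.exp (-(I * (((m : ℤ) * l : ℤ) : ℂ) * al)) := by
      rw [← Complex.exp_add]
      congr 1
      push_cast
      ring
    rw [this]
    ring
  have halim : al.im = 0 := by
    rw [← Complex.conj_eq_iff_im]; exact hsa.symm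
  have hE1 : ∀ k, ‖E k‖ = 1 := by
    intro k
    rw [hEk, Complex.norm_exp]
    have : (-(I * (((m : ℤ) * k : ℤ) : ℂ) * al)).re = 0 := by
      simp [halim]
    rw [this, Real.exp_zero]
  have hF1 : ∀ k, ‖F k‖ = 1 := by
    intro k
    rw [hFk, norm_mul, hE1, norm_zpow, hζ, one_zpow, one_mul]
  have hEc : ∀ k, (starRingEnd ℂ) (E k) = E (-k) := by
    intro k
    rw [hEk, hEk, ← Complex.exp_conj]
    congr 1
    rw [map_neg, map_mul, map_mul, Complex.conj_I, ← hsa, map_intCast]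
    push_cast
    ring
  have hFc : ∀ k, (starRingEnd ℂ) (F k) = F (-k) := by
    intro k
    rw [hFk, hFk, map_mul, hEc, conj_zpow833 hζ, mul_neg]
  -- modes at multiples of m
  have hcw : ∀ (k : ℤ) (y : ℂ), S.cw t ((m : ℤ) * k) y
      = (Λ : ℂ) * Ws (S.w t) k y * Complex.exp (-(I * (((m : ℤ) * k : ℤ) : ℂ) * S.al t y)) := by
    intro k y
    unfold Sol.cw
    rw [if_pos (hdvd k), hdiv]
  have hcwx : ∀ k : ℤ, S.cw t ((m : ℤ) * k) x = (Λ : ℂ) * Ws (S.w t) k x * E k := by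
    intro k
    rw [hcw, hEk, hald]
  have hald' : HasDerivAt (S.al t) be x := by
    have h1 : DifferentiableAt ℂ (S.al t) x :=
      ((hol t ht).2.2 x hX).differentiableAt ((Str_open833 σ).mem_nhds hX)
    have h2 := h1.hasDerivAt
    rw [hal t ht x hX, ← hbed] at h2
    exact h2
  have hWd : ∀ k, HasDerivAt (Ws (S.w t) k) (deriv (Ws (S.w t) k) x) x := fun k =>
    (Ws_diff833 hgood.wd k hX).differentiableAt.hasDerivAt
  have hder : ∀ k : ℤ, HasDerivAt (fun y : ℝ => S.cw t ((m : ℤ) * k) (y : ℂ))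
      ((Λ : ℂ) * (deriv (Ws (S.w t) k) x - I * ((m : ℂ) * (k : ℂ)) * be * Ws (S.w t) k x) * E k) x := by
    intro k
    have h1 : HasDerivAt (fun y : ℂ => Complex.exp (-(I * (((m : ℤ) * k : ℤ) : ℂ) * S.al t y)))
        (Complex.exp (-(I * (((m : ℤ) * k : ℤ) : ℂ) * S.al t x)) *
          (-(I * (((m : ℤ) * k : ℤ) : ℂ) * be))) x := by
      have := (hald'.const_mul (I * (((m : ℤ) * k : ℤ) : ℂ))).neg.cexp
      exact this
    have h2 := (((hWd k).const_mul (Λ : ℂ)).mul h1).comp_ofReal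
    have e1 : (fun y : ℝ => ((fun y => (Λ : ℂ) * Ws (S.w t) k y) *
        fun y : ℂ => Complex.exp (-(I * (((m : ℤ) * k : ℤ) : ℂ) * S.al t y))) (y : ℂ))
        = fun y : ℝ => S.cw t ((m : ℤ) * k) (y : ℂ) := by
      funext y
      rw [hcw]
      rfl
    rw [e1] at h2
    convert h2 using 1
    rw [hEk, hald]
    push_cast
    ring
  -- the main series
  obtain ⟨Sh, hSh⟩ : ∃ s, s = ∑' k, hk m (S.be t) (S.w t) k x * F k := ⟨_, rfl⟩
  obtain ⟨SH, hSH⟩ : ∃ s, s = ∑' k, Hk m (S.be t) (S.w t) k x * F k := ⟨_, rfl⟩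
  obtain ⟨ox, hox⟩ : ∃ s, s = ∑' l : ℤ, (deriv (Ws (S.w t) l) x
    - I * ((m : ℂ) * (l : ℂ)) * be * Ws (S.w t) l x) * F l := ⟨_, rfl⟩
  obtain ⟨oth, hoth⟩ : ∃ s, s = ∑' l : ℤ, I * ((m : ℂ) * (l : ℂ)) * Ws (S.w t) l x * F l :=
    ⟨_, rfl⟩
  obtain ⟨a1, a2, a3, a4, a5, a6⟩ := alg833 F hFadd hF1 (fun k => hk m (S.be t) (S.w t) k x)
    (fun k => Hk m (S.be t) (S.w t) k x) (fun k => gk m (S.be t) (S.w t) k x)
    (fun k => Ws (S.w t) k x) (fun k => deriv (Ws (S.w t) k) x) be (m : ℂ)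
    (fun j => by rw [hbed]; exact (hode j x hX).1) sh sH sW sW'
  rw [← hSh, ← hSH, ← hox, ← hoth] at a6
  -- time derivative part
  have hct : hc (fun n (x : ℝ) => S.ct t n (x : ℂ)) z = (Λ : ℂ) * η * (Sh * ox - SH * oth)
      - (Λ : ℂ) * Om * oth := by
    have e0 : hc (fun n (x : ℝ) => S.ct t n (x : ℂ)) z
        = ∑' n : ℤ, S.ct t n (x : ℂ) * ζ ^ n := by
      unfold hc
      rw [if_neg hz, hx, hζd]
    rw [e0, tsum_mult833 hm0 (fun n => S.ct t n (x : ℂ) * ζ ^ n) (fun n hn => by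
      unfold Sol.ct
      rw [if_neg hn, zero_mul]), ← a6, hoth, ← tsum_mul_left, ← tsum_mul_left,
      ← (a5.mul_left _).tsum_sub (a3.mul_left _)]
    refine tsum_congr (fun k => ?_)
    show S.ct t ((m : ℤ) * k) (x : ℂ) * ζ ^ ((m : ℤ) * k) = _
    unfold Sol.ct
    rw [if_pos (hdvd k), hdiv, hNid k x hX, ← hald, ← hOmd, ← hηd, hFk, hEk]
    push_cast
    ring
  -- velocity part
  have hcu : hc (fun n (x : ℝ) => S.cu t n (x : ℂ)) z
      = Complex.exp (2 * x) * (-(η * Sh) - I * (Om + η * SH)) := by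
    have e0 : hc (fun n (x : ℝ) => S.cu t n (x : ℂ)) z
        = ∑' n : ℤ, S.cu t n (x : ℂ) * ζ ^ n := by
      unfold hc
      rw [if_neg hz, hx, hζd]
    rw [e0, tsum_mult833 hm0 (fun n => S.cu t n (x : ℂ) * ζ ^ n) (fun n hn => by
      have hn0 : n ≠ 0 := by
        rintro rfl
        exact hn (dvd_zero _)
      unfold Sol.cu
      rw [if_neg hn0, if_neg hn, zero_mul])]
    have e1 : ∀ k : ℤ, S.cu t ((m : ℤ) * k) (x : ℂ) * ζ ^ ((m : ℤ) * k)
        = (if k = 0 then -(I * Complex.exp (2 * x) * Om) else 0)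
          + -(η * Complex.exp (2 * x)) * (hk m (S.be t) (S.w t) k x * F k
            + I * (Hk m (S.be t) (S.w t) k x * F k)) := by
      intro k
      unfold Sol.cu
      by_cases hk0 : k = 0
      · subst hk0
        rw [mul_zero, if_pos rfl, if_pos rfl, zpow_zero, ← hOmd]
        have h1 : hk m (S.be t) (S.w t) 0 x = 0 := by
          unfold hk Gk
          simp
        have h2 : Hk m (S.be t) (S.w t) 0 x = 0 := by
          unfold Hk
          simp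
        rw [h1, h2]
        ring
      · have hmk : (m : ℤ) * k ≠ 0 := mul_ne_zero hm0 hk0
        rw [if_neg hmk, if_pos (hdvd k), hdiv, if_neg hk0, ← hald, ← hηd, hFk, hEk]
        ring
    rw [tsum_congr e1]
    have s1 : Summable (fun k : ℤ => if k = 0 then -(I * Complex.exp (2 * x) * Om) else 0) :=
      (hasSum_ite_eq (0 : ℤ) (-(I * Complex.exp (2 * x) * Om))).summable
    have s2 : Summable (fun k : ℤ => -(η * Complex.exp (2 * x)) *
        (hk m (S.be t) (S.w t) k x * F k + I * (Hk m (S.be t) (S.w t) k x * F k))) :=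
      (a1.add (a2.mul_left I)).mul_left _
    rw [s1.tsum_add s2, tsum_ite_eq, tsum_mul_left, a1.tsum_add (a2.mul_left I), tsum_mul_left,
      ← hSh, ← hSH]
    ring
  -- gradient part
  have hgr : hc (dzb (fun n (x : ℝ) => S.cw t n (x : ℂ))) z
      = (1 / 2) * Complex.exp (-x) * ζ * ((Λ : ℂ) * (ox + I * oth)) := by
    rw [hc_dzb833 _ hz, ← hx, ← hζd, Complex.ofReal_exp, Complex.ofReal_neg]
    congr 1
    rw [tsum_mult833 hm0 _ (fun n hn => by
      have h0 : ∀ y : ℝ, S.cw t n (y : ℂ) = 0 := fun y => by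
        unfold Sol.cw
        rw [if_neg hn]
      have h1 : (fun y : ℝ => S.cw t n (y : ℂ)) = fun _ => 0 := funext h0
      rw [h1]
      simp [h0 x]), hox, hoth, ← tsum_mul_left, ← a4.tsum_add (a3.mul_left I), ← tsum_mul_left]
    refine tsum_congr (fun k => ?_)
    rw [(hder k).deriv, hcwx, hFk]
    push_cast
    have hI2 : I * (I * ((m : ℂ) * (k : ℂ)) * Ws (S.w t) k x * (E k * ζ ^ ((m : ℤ) * k)))
        = -(((m : ℂ) * (k : ℂ)) * Ws (S.w t) k x * (E k * ζ ^ ((m : ℤ) * k))) := by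
      have : I * I = -1 := Complex.I_mul_I
      linear_combination (((m : ℂ) * (k : ℂ)) * Ws (S.w t) k x * (E k * ζ ^ ((m : ℤ) * k))) * this
    rw [hI2]
    ring
  -- reality
  have cSh : (starRingEnd ℂ) Sh = Sh := by
    rw [hSh]
    refine conj_tsum833 _ (fun k => ?_)
    rw [map_mul, hFc]
    congr 1
    unfold hk
    rw [(hr t ht k x).2.2.1, map_mul, map_mul, Complex.conj_I, map_intCast]
    push_cast
    ring
  have cSH : (starRingEnd ℂ) SH = SH := by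
    rw [hSH]
    refine conj_tsum833 _ (fun k => ?_)
    rw [map_mul, hFc, (hr t ht k x).2.2.2]
  have cox : (starRingEnd ℂ) ((Λ : ℂ) * ox) = (Λ : ℂ) * ox := by
    rw [hox, ← tsum_mul_left]
    refine conj_tsum833 _ (fun k => ?_)
    have h1 := hder k
    have h2 := hder (-k)
    have h3 := (Complex.conjCLE.toContinuousLinearMap.hasFDerivAt.comp_hasDerivAt x h1)
    have e3 : (Complex.conjCLE.toContinuousLinearMap ∘ fun y : ℝ => S.cw t ((m : ℤ) * k) (y : ℂ))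
        = fun y : ℝ => S.cw t ((m : ℤ) * (-k)) (y : ℂ) := by
      funext y
      show (starRingEnd ℂ) (S.cw t ((m : ℤ) * k) (y : ℂ)) = S.cw t ((m : ℤ) * (-k)) (y : ℂ)
      rw [mul_neg, (hr t ht ((m : ℤ) * k) y).1]
    rw [e3] at h3
    have h4 := h3.unique h2
    have h5 : (starRingEnd ℂ) ((Λ : ℂ) * (deriv (Ws (S.w t) k) x
        - I * ((m : ℂ) * (k : ℂ)) * be * Ws (S.w t) k x) * E k)
        = (Λ : ℂ) * (deriv (Ws (S.w t) (-k)) x
        - I * ((m : ℂ) * ((-k : ℤ) : ℂ)) * be * Ws (S.w t) (-k) x) * E (-k) := h4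
    have h6 : (Λ : ℂ) * ((deriv (Ws (S.w t) k) x - I * ((m : ℂ) * (k : ℂ)) * be * Ws (S.w t) k x) * F k)
        = ((Λ : ℂ) * (deriv (Ws (S.w t) k) x
        - I * ((m : ℂ) * (k : ℂ)) * be * Ws (S.w t) k x) * E k) * ζ ^ ((m : ℤ) * k) := by
      rw [hFk]; ring
    rw [h6, map_mul, h5, conj_zpow833 hζ, hFk, mul_neg]
    ring
  have coth : (starRingEnd ℂ) ((Λ : ℂ) * oth) = (Λ : ℂ) * oth := by
    rw [hoth, ← tsum_mul_left]
    refine conj_tsum833 _ (fun k => ?_)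
    have h1 := (hr t ht ((m : ℤ) * k) x).1
    rw [← mul_neg, hcwx, hcwx] at h1
    have h6 : (Λ : ℂ) * (I * ((m : ℂ) * (k : ℂ)) * Ws (S.w t) k x * F k)
        = (I * ((m : ℂ) * (k : ℂ))) * ((Λ : ℂ) * Ws (S.w t) k x * E k) * ζ ^ ((m : ℤ) * k) := by
      rw [hFk]; ring
    rw [h6, map_mul, map_mul, ← h1, conj_zpow833 hζ, map_mul, map_mul, Complex.conj_I,
      map_intCast, map_natCast, hFk, mul_neg]
    push_cast
    ring
  have hηc : (starRingEnd ℂ) η = η := by rw [hηd]; exact Complex.conj_ofReal _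
  -- assembling
  have hterm : (hc (fun n (x : ℝ) => S.cu t n (x : ℂ)) z / z)
          * hc (dzb (fun n (x : ℝ) => S.cw t n (x : ℂ))) z
      = (1 / 2) * (-(η * Sh) - I * (Om + η * SH)) * ((Λ : ℂ) * ox + I * ((Λ : ℂ) * oth)) := by
    rw [hcu, hgr]
    have e2 : Complex.exp (2 * x) = Complex.exp x * Complex.exp x := by
      rw [← Complex.exp_add]; congr 1; ring
    have e3 : Complex.exp (-x) = (Complex.exp (x : ℂ))⁻¹ := Complex.exp_neg _
    have e4 : Complex.exp (x : ℂ) ≠ 0 := Complex.exp_ne_zero _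
    rw [e2, e3]
    have e5 : Complex.exp (x : ℂ) * Complex.exp (x : ℂ) * (-(η * Sh) - I * (Om + η * SH)) / z
        = Complex.exp (x : ℂ) * (-(η * Sh) - I * (Om + η * SH)) / ζ := by
      rw [hzx]
      field_simp
    rw [e5]
    field_simp
  rw [hterm, hct]
  have hc2 : (starRingEnd ℂ) ((1 / 2) * (-(η * Sh) - I * (Om + η * SH)) *
      ((Λ : ℂ) * ox + I * ((Λ : ℂ) * oth)))
      = (1 / 2) * (-(η * Sh) + I * (Om + η * SH)) * ((Λ : ℂ) * ox - I * ((Λ : ℂ) * oth)) := by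
    have g1 : (starRingEnd ℂ) ((Λ : ℂ) * ox + I * ((Λ : ℂ) * oth))
        = (Λ : ℂ) * ox - I * ((Λ : ℂ) * oth) := by
      rw [map_add, cox, map_mul (starRingEnd ℂ) I, coth, Complex.conj_I]
      ring
    have g2 : (starRingEnd ℂ) (-(η * Sh) - I * (Om + η * SH)) = -(η * Sh) + I * (Om + η * SH) := by
      rw [map_sub, map_neg, map_mul, map_mul, map_add, map_mul, hηc, cSh, cSH, ← hsO,
        Complex.conj_I]
      ring
    have g3 : (starRingEnd ℂ) (1 / 2 : ℂ) = 1 / 2 := by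
      rw [map_div₀, map_one, map_ofNat _ 2]
    rw [map_mul, map_mul, g1, g2, g3]
  rw [hc2]
  have hI : I * I = -1 := Complex.I_mul_I
  linear_combination (-(Om + η * SH) * ((Λ : ℂ) * oth)) * hI

end JF3

end Pool.Agent.Helper383.NI
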