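import Pool.Agent.Helper383.NI.Defs

open Complex MeasureTheory Set Filter Topology

namespace Pool.Agent.Helper383.NI


namespace JG1

theorem _root_.Pool.Agent.Helper383.NI.RDt.congr {T : ℝ} {c d : ℝ → ℤ → ℝ → ℂ} (h : RDt T c) (hcd : ∀ t k x, c t k x = d t k x) :
    RDt T d := by
  have : c = d := by
    funext t k x; exact hcd t k x
  rw [← this]; exact h

theorem _root_.Pool.Agent.Helper383.NI.RDt.deriv' {T : ℝ} {c : ℝ → ℤ → ℝ → ℂ} (h : RDt T c) :
    RDt T (fun t k x => deriv (c t k) x) := by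
  have key : ∀ j t k, iteratedDeriv j (fun x => deriv (c t k) x) = iteratedDeriv (j + 1) (c t k) := by
    intro j t k
    rw [iteratedDeriv_succ']
  refine ⟨?_, ?_, ?_⟩
  · intro t ht k
    have h1 := h.smooth t ht k
    exact (contDiff_infty_iff_deriv.1 h1).2
  · intro j N
    obtain ⟨C, hC⟩ := h.bound (j + 1) N
    refine ⟨C, fun t ht k x => ?_⟩
    have := hC t ht k x
    rw [key]; exact this
  · intro j k x
    have := h.cont (j + 1) k x
    simpa only [key] using this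

theorem _root_.Pool.Agent.Helper383.NI.RDt.add' {T : ℝ} {c d : ℝ → ℤ → ℝ → ℂ} (h : RDt T c) (h' : RDt T d) :
    RDt T (fun t k x => c t k x + d t k x) := by
  have key : ∀ j, ∀ t ∈ Icc 0 T, ∀ k x, iteratedDeriv j (fun x => c t k x + d t k x) x
      = iteratedDeriv j (c t k) x + iteratedDeriv j (d t k) x := by
    intro j t ht k x
    have h1 : ContDiffAt ℝ (j : ℕ∞) (c t k) x :=
      ((h.smooth t ht k).of_le (by exact_mod_cast le_top)).contDiffAt
    have h2 : ContDiffAt ℝ (j : ℕ∞) (d t k) x :=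
      ((h'.smooth t ht k).of_le (by exact_mod_cast le_top)).contDiffAt
    have := iteratedDeriv_add (n := j) (f := c t k) (g := d t k) (x := x) (by exact_mod_cast h1)
      (by exact_mod_cast h2)
    exact this
  refine ⟨?_, ?_, ?_⟩
  · intro t ht k
    exact (h.smooth t ht k).add (h'.smooth t ht k)
  · intro j N
    obtain ⟨C, hC⟩ := h.bound j N
    obtain ⟨D, hD⟩ := h'.bound j N
    refine ⟨C + D, fun t ht k x => ?_⟩
    rw [key j t ht k x]
    have h1 := hC t ht k x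
    have h2 := hD t ht k x
    calc _ ≤ ‖iteratedDeriv j (c t k) x‖ + ‖iteratedDeriv j (d t k) x‖ := norm_add_le _ _
      _ ≤ _ := by
        have := add_le_add h1 h2
        refine this.trans (le_of_eq ?_)
        ring
  · intro j k x
    refine ((h.cont j k x).add (h'.cont j k x)).congr ?_
    intro t ht
    exact key j t ht k x

theorem _root_.Pool.Agent.Helper383.NI.RDt.idx {T : ℝ} {c : ℝ → ℤ → ℝ → ℂ} (h : RDt T c) (a b : ℂ) :
    RDt T (fun (t : ℝ) (k : ℤ) (x : ℝ) => (a + b * (k : ℂ)) * c t k x) := by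
  have key : ∀ (j : ℕ) (t : ℝ) (k : ℤ) (x : ℝ),
      iteratedDeriv j (fun x : ℝ => (a + b * (k : ℂ)) * c t k x) x
      = (a + b * (k : ℂ)) * iteratedDeriv j (c t k) x := by
    intro j t k x
    exact iteratedDeriv_const_mul_field _ _
  refine ⟨?_, ?_, ?_⟩
  · intro t ht k
    exact contDiff_const.mul (h.smooth t ht k)
  · intro j N
    obtain ⟨C, hC⟩ := h.bound j (N + 1)
    refine ⟨(‖a‖ + ‖b‖) * |C|, fun t ht k x => ?_⟩
    rw [key j t k x, norm_mul]
    have h1 := hC t ht k x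
    have hk : (0 : ℝ) < 1 + |(k : ℝ)| := by positivity
    have h2 : ‖a + b * (k : ℂ)‖ ≤ (‖a‖ + ‖b‖) * (1 + |(k : ℝ)|) := by
      calc _ ≤ ‖a‖ + ‖b * (k : ℂ)‖ := norm_add_le _ _
        _ = ‖a‖ + ‖b‖ * |(k : ℝ)| := by
          rw [norm_mul]
          congr 2
          rw [Complex.norm_intCast]
        _ ≤ _ := by nlinarith [norm_nonneg a, norm_nonneg b, abs_nonneg (k : ℝ)]
    have h3 : ‖iteratedDeriv j (c t k) x‖ ≤ |C| * Real.exp (-(N * |x|)) / (1 + |(k : ℝ)|) ^ (N + 1) := by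
      refine h1.trans ?_
      have e1 : Real.exp (-(((N + 1 : ℕ) : ℝ) * |x|)) ≤ Real.exp (-(N * |x|)) := by
        apply Real.exp_le_exp.2
        push_cast
        nlinarith [abs_nonneg x]
      have e2 : C * Real.exp (-(((N + 1 : ℕ) : ℝ) * |x|)) ≤ |C| * Real.exp (-(N * |x|)) :=
        (mul_le_mul_of_nonneg_right (le_abs_self C) (Real.exp_pos _).le).trans
          (mul_le_mul_of_nonneg_left e1 (abs_nonneg C))
      exact div_le_div_of_nonneg_right e2 (by positivity)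
    calc _ ≤ ((‖a‖ + ‖b‖) * (1 + |(k : ℝ)|)) *
        (|C| * Real.exp (-(N * |x|)) / (1 + |(k : ℝ)|) ^ (N + 1)) :=
          mul_le_mul h2 h3 (norm_nonneg _) (by positivity)
      _ = _ := by
        rw [pow_succ]
        field_simp
  · intro j k x
    refine ((continuousOn_const (c := a + b * (k : ℂ))).mul (h.cont j k x)).congr ?_
    intro t ht
    exact key j t k x

theorem _root_.Pool.Agent.Helper383.NI.RDt.shift {T : ℝ} {c : ℝ → ℤ → ℝ → ℂ} (h : RDt T c) (s : ℤ) (hs : |(s : ℝ)| ≤ 1) :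
    RDt T (fun t k => c t (k + s)) := by
  refine ⟨fun t ht k => h.smooth t ht _, ?_, fun j k x => h.cont j _ x⟩
  intro j N
  obtain ⟨C, hC⟩ := h.bound j N
  refine ⟨|C| * 2 ^ N, fun t ht k x => ?_⟩
  have h1 := hC t ht (k + s) x
  refine h1.trans ?_
  have hk : (0 : ℝ) < 1 + |(k : ℝ)| := by positivity
  have hk2 : (0 : ℝ) < 1 + |((k + s : ℤ) : ℝ)| := by positivity
  have h2 : 1 + |(k : ℝ)| ≤ 2 * (1 + |((k + s : ℤ) : ℝ)|) := by
    push_cast
    have : |(k : ℝ)| ≤ |(k : ℝ) + s| + |(s : ℝ)| := by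
      have := abs_sub ((k : ℝ) + s) (s : ℝ)
      simpa using this
    linarith [abs_nonneg ((k : ℝ) + s)]
  have h3 : (1 + |(k : ℝ)|) ^ N ≤ 2 ^ N * (1 + |((k + s : ℤ) : ℝ)|) ^ N := by
    rw [← mul_pow]
    exact pow_le_pow_left₀ hk.le h2 N
  rw [div_le_div_iff₀ (by positivity) (by positivity)]
  have e0 := Real.exp_pos (-((N : ℝ) * |x|))
  calc C * Real.exp (-(N * |x|)) * (1 + |(k : ℝ)|) ^ N
      ≤ |C| * Real.exp (-(N * |x|)) * (1 + |(k : ℝ)|) ^ N := by
        gcongr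
        exact le_abs_self C
    _ ≤ |C| * Real.exp (-(N * |x|)) * (2 ^ N * (1 + |((k + s : ℤ) : ℝ)|) ^ N) := by
        gcongr
    _ = _ := by ring

/-- the operator D - 1 -/
noncomputable def Dm (c : ℝ → ℤ → ℝ → ℂ) : ℝ → ℤ → ℝ → ℂ := fun t k x => deriv (c t k) x + (-1 + 0 * (k : ℂ)) * c t k x

theorem _root_.Pool.Agent.Helper383.NI.RDt.Dm' {T : ℝ} {c : ℝ → ℤ → ℝ → ℂ} (h : RDt T c) : RDt T (Dm c) :=
  h.deriv'.add' (h.idx (-1) 0)

theorem _root_.Pool.Agent.Helper383.NI.RDt.Dmj {T : ℝ} {c : ℝ → ℤ → ℝ → ℂ} (h : RDt T c) (j : ℕ) : RDt T (Dm^[j] c) := by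
  induction j generalizing c with
  | zero => exact h
  | succ j ih =>
    rw [Function.iterate_succ_apply]
    exact ih h.Dm'

theorem _root_.Pool.Agent.Helper383.NI.RDt.iterExp {T : ℝ} (j : ℕ) {c : ℝ → ℤ → ℝ → ℂ} (h : RDt T c) (t : ℝ) (ht : t ∈ Icc 0 T)
    (k : ℤ) : iteratedDeriv j (fun x : ℝ => ((Real.exp (-x) : ℝ) : ℂ) * c t k x)
      = fun x : ℝ => ((Real.exp (-x) : ℝ) : ℂ) * (Dm^[j] c) t k x := by
  induction j generalizing c with
  | zero => simp [iteratedDeriv_zero]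
  | succ j ih =>
    rw [iteratedDeriv_succ']
    have hd : (deriv fun x : ℝ => ((Real.exp (-x) : ℝ) : ℂ) * c t k x)
        = fun x : ℝ => ((Real.exp (-x) : ℝ) : ℂ) * (Dm c) t k x := by
      funext x
      have h1 : HasDerivAt (fun x : ℝ => ((Real.exp (-x) : ℝ) : ℂ)) ((-(Real.exp (-x)) : ℝ) : ℂ) x := by
        have := ((hasDerivAt_neg x).exp)
        have h2 := this.ofReal_comp
        simpa using h2
      have h2 : HasDerivAt (c t k) (deriv (c t k) x) x :=
        ((h.smooth t ht k).differentiable (by simp) x).hasDerivAt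
      have h3 := h1.mul h2
      have h4 := h3.deriv
      have h5 : (fun x : ℝ => ((Real.exp (-x) : ℝ) : ℂ) * c t k x)
        = (fun x : ℝ => ((Real.exp (-x) : ℝ) : ℂ)) * (c t k) := rfl
      rw [h5, h4]
      unfold Dm
      push_cast
      ring
    rw [hd, ih h.Dm']
    funext x
    rw [Function.iterate_succ_apply]

theorem _root_.Pool.Agent.Helper383.NI.RDt.mulExp {T : ℝ} {c : ℝ → ℤ → ℝ → ℂ} (h : RDt T c) :
    RDt T (fun t k x => ((Real.exp (-x) : ℝ) : ℂ) * c t k x) := by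
  refine ⟨?_, ?_, ?_⟩
  · intro t ht k
    refine ContDiff.mul ?_ (h.smooth t ht k)
    exact Complex.ofRealCLM.contDiff.comp (Real.contDiff_exp.comp contDiff_neg)
  · intro j N
    obtain ⟨C, hC⟩ := (h.Dmj j).bound 0 (N + 1)
    refine ⟨|C|, fun t ht k x => ?_⟩
    have h1 := hC t ht k x
    rw [iteratedDeriv_zero] at h1
    rw [RDt.iterExp j h t ht k]
    simp only [norm_mul]
    rw [Complex.norm_real, Real.norm_eq_abs, abs_of_pos (Real.exp_pos _)]
    have hk : (1 : ℝ) ≤ 1 + |(k : ℝ)| := by linarith [abs_nonneg (k : ℝ)]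
    have e1 : Real.exp (-x) * Real.exp (-(((N + 1 : ℕ) : ℝ) * |x|)) ≤ Real.exp (-(N * |x|)) := by
      rw [← Real.exp_add]
      apply Real.exp_le_exp.2
      push_cast
      have := neg_abs_le x
      nlinarith
    calc Real.exp (-x) * ‖(Dm^[j] c) t k x‖
        ≤ Real.exp (-x) * (|C| * Real.exp (-(((N + 1 : ℕ) : ℝ) * |x|)) / (1 + |(k : ℝ)|) ^ (N + 1)) := by
          gcongr
          refine h1.trans ?_
          gcongr
          exact le_abs_self C
      _ = |C| * (Real.exp (-x) * Real.exp (-(((N + 1 : ℕ) : ℝ) * |x|))) / (1 + |(k : ℝ)|) ^ (N + 1) := by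
          ring
      _ ≤ |C| * Real.exp (-(N * |x|)) / (1 + |(k : ℝ)|) ^ (N + 1) := by
          gcongr
      _ ≤ |C| * Real.exp (-(N * |x|)) / (1 + |(k : ℝ)|) ^ N := by
          gcongr
          omega
  · intro j k x
    refine ((continuousOn_const (c := ((Real.exp (-x) : ℝ) : ℂ))).mul
      ((h.Dmj j).cont 0 k x)).congr ?_
    intro t ht
    show iteratedDeriv j (fun x => ((Real.exp (-x) : ℝ) : ℂ) * c t k x) x = _
    rw [RDt.iterExp j h t ht k]
    simp only [Pi.mul_apply, iteratedDeriv_zero]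

theorem RDt_dz (T : ℝ) (c : ℝ → ℤ → ℝ → ℂ) (h : RDt T c) :
    RDt T (fun t => dz (c t)) ∧ RDt T (fun t => dzb (c t)) := by
  constructor
  · have h1 := ((h.deriv'.add' (h.idx 0 1)).shift 1 (by norm_num)).mulExp.idx (1 / 2) 0
    refine h1.congr ?_
    intro t k x
    unfold dz
    push_cast
    ring
  · have h1 := ((h.deriv'.add' (h.idx 0 (-1))).shift (-1) (by norm_num)).mulExp.idx (1 / 2) 0
    refine h1.congr ?_
    intro t k x
    unfold dzb
    have e : k + -1 = k - 1 := by ring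
    rw [e]
    push_cast
    ring

end JG1

end Pool.Agent.Helper383.NI
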