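import Pool.Agent.Helper383.NI.Defs
import Pool.Agent.Helper383.NI.G1
import Pool.Agent.Helper383.NI.G2

open Complex MeasureTheory Set Filter Topology

namespace Pool.Agent.Helper383.NI

open JG1 (RDt_dz)
open JG2 (hc_fderiv_ne hc_fderiv)

namespace JG3

theorem h170_sumZ : Summable (fun k : ℤ => 1 / (1 + |(k : ℝ)|) ^ 2) := by
  have h : Summable (fun n : ℕ => 1 / (1 + (n : ℝ)) ^ 2) := by
    have h1 := (summable_nat_add_iff 1).2 (Real.summable_one_div_nat_pow.2 (by norm_num : 1 < 2))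
    refine h1.congr ?_
    intro n
    push_cast
    rw [add_comm (n : ℝ) 1]
  refine Summable.of_nat_of_neg ?_ ?_
  · refine h.congr ?_
    intro n
    simp
  · refine h.congr ?_
    intro n
    simp

theorem h170_q (r : ℝ) (hr : 0 < r) : Real.exp (-|Real.log r|) ≤ 2 / (1 + r) ∧ Real.exp (-|Real.log r|) ≤ r := by
  have h1 : Real.exp (-|Real.log r|) ≤ r := by
    have := neg_abs_le (Real.log r)
    calc Real.exp (-|Real.log r|) ≤ Real.exp (Real.log r) := Real.exp_le_exp.2 this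
      _ = r := Real.exp_log hr
  have h2 : Real.exp (-|Real.log r|) * r ≤ 1 := by
    have := le_abs_self (Real.log r)
    calc Real.exp (-|Real.log r|) * r = Real.exp (-|Real.log r|) * Real.exp (Real.log r) := by rw [Real.exp_log hr]
      _ = Real.exp (-|Real.log r| + Real.log r) := by rw [Real.exp_add]
      _ ≤ 1 := by rw [Real.exp_le_one_iff]; linarith
  have h3 : Real.exp (-|Real.log r|) ≤ 1 := by
    rw [Real.exp_le_one_iff]
    have := abs_nonneg (Real.log r)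
    linarith
  refine ⟨?_, h1⟩
  rw [le_div_iff₀ (by linarith)]
  linarith

/-- decay at infinity and flatness at the origin, uniformly in `t` -/
theorem hc_decay (T : ℝ) (c : ℝ → ℤ → ℝ → ℂ) (h : RDt T c) (N : ℕ) :
    ∃ C : ℝ, 0 < C ∧ ∀ t ∈ Icc 0 T, ∀ z : ℂ, ‖hc (c t) z‖ ≤ C / (1 + ‖z‖) ^ N ∧
      ‖hc (c t) z‖ ≤ C * ‖z‖ ^ N := by
  obtain ⟨C, hC⟩ := h.bound 0 (N + 2)
  set S : ℝ := ∑' k : ℤ, 1 / (1 + |(k : ℝ)|) ^ 2 with hS
  have hS0 : 0 ≤ S := tsum_nonneg fun k => by positivity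
  have hD0 : 0 < |C| * S * 2 ^ N + 1 := by positivity
  refine ⟨|C| * S * 2 ^ N + 1, hD0, ?_⟩
  intro t ht z
  by_cases hz : z = 0
  · subst hz
    have h1 : hc (c t) 0 = 0 := by unfold hc; rw [if_pos rfl]
    rw [h1, norm_zero]
    constructor
    · positivity
    · positivity
  have hr : 0 < ‖z‖ := norm_pos_iff.2 hz
  set q : ℝ := Real.exp (-|Real.log ‖z‖|) with hq
  obtain ⟨hq1, hq2⟩ := h170_q ‖z‖ hr
  rw [← hq] at hq1 hq2
  have hq0 : 0 < q := Real.exp_pos _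
  have hqle : q ≤ 1 := by
    rw [hq, Real.exp_le_one_iff]
    have := abs_nonneg (Real.log ‖z‖)
    linarith
  have hb : ‖hc (c t) z‖ ≤ |C| * q ^ N * S := by
    unfold hc
    rw [if_neg hz]
    have hs : HasSum (fun k : ℤ => |C| * q ^ N * (1 / (1 + |(k : ℝ)|) ^ 2)) (|C| * q ^ N * S) :=
      h170_sumZ.hasSum.mul_left _
    refine tsum_of_norm_bounded hs ?_
    intro k
    have h1 := hC t ht k (Real.log ‖z‖)
    rw [iteratedDeriv_zero] at h1
    have hu : ‖z / ((‖z‖ : ℝ) : ℂ)‖ = 1 := by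
      rw [norm_div, Complex.norm_real, norm_norm, div_self hr.ne']
    rw [norm_mul, norm_zpow, hu, one_zpow, mul_one]
    refine h1.trans ?_
    have e1 : Real.exp (-(((N + 2 : ℕ) : ℝ) * |Real.log ‖z‖|)) = q ^ (N + 2) := by
      rw [hq, ← Real.exp_nat_mul]; congr 1; ring
    rw [e1]
    have hk : (1:ℝ) ≤ 1 + |(k : ℝ)| := by have := abs_nonneg (k : ℝ); linarith
    have hk0 : (0:ℝ) < 1 + |(k : ℝ)| := by linarith
    have h2 : q ^ (N + 2) ≤ q ^ N := pow_le_pow_of_le_one hq0.le hqle (by omega)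
    have h3 : (1 + |(k : ℝ)|) ^ 2 ≤ (1 + |(k : ℝ)|) ^ (N + 2) := pow_le_pow_right₀ hk (by omega)
    calc C * q ^ (N + 2) / (1 + |(k : ℝ)|) ^ (N + 2) ≤ |C| * q ^ N / (1 + |(k : ℝ)|) ^ 2 := by
          refine div_le_div₀ (by positivity) ?_ (by positivity) h3
          exact mul_le_mul (le_abs_self C) h2 (by positivity) (abs_nonneg _)
      _ = _ := by ring
  constructor
  · refine hb.trans ?_
    have h1 : q ^ N ≤ 2 ^ N / (1 + ‖z‖) ^ N := by
      rw [← div_pow]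
      exact pow_le_pow_left₀ hq0.le hq1 N
    calc |C| * q ^ N * S ≤ |C| * (2 ^ N / (1 + ‖z‖) ^ N) * S := by
          exact mul_le_mul_of_nonneg_right (mul_le_mul_of_nonneg_left h1 (abs_nonneg _)) hS0
      _ = (|C| * S * 2 ^ N) / (1 + ‖z‖) ^ N := by ring
      _ ≤ _ := by
          refine div_le_div_of_nonneg_right ?_ (by positivity)
          linarith
  · refine hb.trans ?_
    have h1 : q ^ N ≤ ‖z‖ ^ N := pow_le_pow_left₀ hq0.le hq2 N
    have h2 : (1:ℝ) ≤ 2 ^ N := one_le_pow₀ one_le_two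
    have h3 : 0 ≤ |C| * S := by positivity
    have h4 : |C| * S ≤ |C| * S * 2 ^ N + 1 := by nlinarith
    calc |C| * q ^ N * S = |C| * S * q ^ N := by ring
      _ ≤ |C| * S * ‖z‖ ^ N := mul_le_mul_of_nonneg_left h1 h3
      _ ≤ _ := mul_le_mul_of_nonneg_right h4 (by positivity)

/-- the two real-linear maps in `dfm` -/
noncomputable def h170L1 : ℂ →L[ℝ] (ℂ →L[ℝ] ℂ) := ContinuousLinearMap.mul ℝ ℂ

noncomputable def h170L2 : ℂ →L[ℝ] (ℂ →L[ℝ] ℂ) :=
  (ContinuousLinearMap.precomp ℂ (Complex.conjCLE : ℂ →L[ℝ] ℂ)).comp (ContinuousLinearMap.mul ℝ ℂ)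

theorem h170_dfm (A B : ℂ) : dfm A B = h170L1 A + h170L2 B := by
  ext v
  simp [dfm, h170L1, h170L2]

theorem h170_smooth (T : ℝ) (n : ℕ) : ∀ c : ℝ → ℤ → ℝ → ℂ, RDt T c → ∀ t ∈ Icc 0 T,
    ContDiff ℝ n (hc (c t)) := by
  induction n with
  | zero =>
    intro c h t ht
    rw [Nat.cast_zero, contDiff_zero]
    rw [continuous_iff_continuousAt]
    intro z
    exact (hc_fderiv T c h t ht z).continuousAt
  | succ n ih =>
    intro c h t ht
    rw [Nat.cast_succ, contDiff_succ_iff_hasFDerivAt]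
    obtain ⟨h1, h2⟩ := RDt_dz T c h
    refine ⟨fun z => dfm (hc (dz (c t)) z) (hc (dzb (c t)) z), ?_, fun z => hc_fderiv T c h t ht z⟩
    have i1 := ih _ h1 t ht
    have i2 := ih _ h2 t ht
    simp only [h170_dfm]
    exact (h170L1.contDiff.comp i1).add (h170L2.contDiff.comp i2)

theorem h170_dec (T : ℝ) (n : ℕ) : ∀ c : ℝ → ℤ → ℝ → ℂ, RDt T c → ∀ t ∈ Icc 0 T, ∀ k : ℕ,
    ∃ C : ℝ, ∀ x : ℂ, ‖x‖ ^ k * ‖iteratedFDeriv ℝ n (hc (c t)) x‖ ≤ C := by
  induction n with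
  | zero =>
    intro c h t ht k
    obtain ⟨C, hC0, hC⟩ := hc_decay T c h k
    refine ⟨C, fun x => ?_⟩
    rw [norm_iteratedFDeriv_zero]
    have h1 := (hC t ht x).1
    have h2 : 0 ≤ ‖x‖ := norm_nonneg x
    have h3 : ‖x‖ ^ k ≤ (1 + ‖x‖) ^ k := pow_le_pow_left₀ h2 (by linarith) k
    have h4 : 0 < (1 + ‖x‖) ^ k := by positivity
    calc ‖x‖ ^ k * ‖hc (c t) x‖ ≤ (1 + ‖x‖) ^ k * (C / (1 + ‖x‖) ^ k) :=
          mul_le_mul h3 h1 (norm_nonneg _) h4.le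
      _ = C := by field_simp
  | succ n ih =>
    intro c h t ht k
    obtain ⟨h1, h2⟩ := RDt_dz T c h
    obtain ⟨C1, hC1⟩ := ih _ h1 t ht k
    obtain ⟨C2, hC2⟩ := ih _ h2 t ht k
    refine ⟨‖h170L1‖ * C1 + ‖h170L2‖ * C2, fun x => ?_⟩
    rw [← norm_iteratedFDeriv_fderiv]
    have e1 : fderiv ℝ (hc (c t)) = (fun z => h170L1 (hc (dz (c t)) z)) + fun z => h170L2 (hc (dzb (c t)) z) := by
      funext z
      rw [(hc_fderiv T c h t ht z).fderiv, h170_dfm]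
      rfl
    have s1 := h170_smooth T n _ h1 t ht
    have s2 := h170_smooth T n _ h2 t ht
    have c1 : ContDiff ℝ n (fun z => h170L1 (hc (dz (c t)) z)) := h170L1.contDiff.comp s1
    have c2 : ContDiff ℝ n (fun z => h170L2 (hc (dzb (c t)) z)) := h170L2.contDiff.comp s2
    rw [e1, iteratedFDeriv_add_apply c1.contDiffAt c2.contDiffAt]
    have b1 : ‖iteratedFDeriv ℝ n (fun z => h170L1 (hc (dz (c t)) z)) x‖ ≤
        ‖h170L1‖ * ‖iteratedFDeriv ℝ n (hc (dz (c t))) x‖ :=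
      ContinuousLinearMap.norm_iteratedFDeriv_comp_left h170L1 s1.contDiffAt le_rfl
    have b2 : ‖iteratedFDeriv ℝ n (fun z => h170L2 (hc (dzb (c t)) z)) x‖ ≤
        ‖h170L2‖ * ‖iteratedFDeriv ℝ n (hc (dzb (c t))) x‖ :=
      ContinuousLinearMap.norm_iteratedFDeriv_comp_left h170L2 s2.contDiffAt le_rfl
    have hx : 0 ≤ ‖x‖ ^ k := by positivity
    calc ‖x‖ ^ k * ‖iteratedFDeriv ℝ n (fun z => h170L1 (hc (dz (c t)) z)) x +
          iteratedFDeriv ℝ n (fun z => h170L2 (hc (dzb (c t)) z)) x‖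
        ≤ ‖x‖ ^ k * (‖h170L1‖ * ‖iteratedFDeriv ℝ n (hc (dz (c t))) x‖ +
          ‖h170L2‖ * ‖iteratedFDeriv ℝ n (hc (dzb (c t))) x‖) :=
          mul_le_mul_of_nonneg_left ((norm_add_le _ _).trans (add_le_add b1 b2)) hx
      _ = ‖h170L1‖ * (‖x‖ ^ k * ‖iteratedFDeriv ℝ n (hc (dz (c t))) x‖) +
          ‖h170L2‖ * (‖x‖ ^ k * ‖iteratedFDeriv ℝ n (hc (dzb (c t))) x‖) := by ring
      _ ≤ _ := add_le_add (mul_le_mul_of_nonneg_left (hC1 x) (norm_nonneg h170L1))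
          (mul_le_mul_of_nonneg_left (hC2 x) (norm_nonneg h170L2))

/-- the plane function is a Schwartz function -/
theorem hc_schwartz (T : ℝ) (c : ℝ → ℤ → ℝ → ℂ) (h : RDt T c) :
    ∀ t ∈ Icc 0 T, ∃ f : SchwartzMap ℂ ℂ, ∀ z, f z = hc (c t) z := by
  intro t ht
  refine ⟨⟨hc (c t), ?_, ?_⟩, fun z => rfl⟩
  · rw [contDiff_infty]
    intro n
    exact h170_smooth T n c h t ht
  · intro k n
    exact h170_dec T n c h t ht k

end JG3

end Pool.Agent.Helper383.NI
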