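import Pool.Agent.Helper383.NI.Defs

open Complex MeasureTheory Set Filter Topology

namespace Pool.Agent.Helper383.NI


namespace JG4

theorem G4_sum : Summable (fun k : ℤ => 1 / (1 + |(k : ℝ)|) ^ 2) := by
  have h : Summable (fun n : ℕ => 1 / (1 + (n : ℝ)) ^ 2) := by
    have h1 := (summable_nat_add_iff 1).2 (Real.summable_one_div_nat_pow.2 (show 1 < 2 by norm_num))
    refine h1.congr ?_
    intro n
    push_cast
    rw [add_comm]
  refine Summable.of_nat_of_neg ?_ ?_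
  · refine h.congr ?_
    intro n
    simp
  · refine h.congr ?_
    intro n
    simp

theorem G4_bd {T : ℝ} {c : ℝ → ℤ → ℝ → ℂ} (h : RDt T c) :
    ∃ C : ℝ, 0 ≤ C ∧ ∀ t ∈ Icc 0 T, ∀ k x, ‖c t k x‖ ≤ C * (1 / (1 + |(k : ℝ)|) ^ 2) := by
  obtain ⟨C, hC⟩ := h.bound 0 2
  refine ⟨|C|, abs_nonneg C, ?_⟩
  intro t ht k x
  have h1 := hC t ht k x
  rw [iteratedDeriv_zero] at h1
  refine h1.trans ?_
  rw [← mul_div_assoc, mul_one]
  refine div_le_div_of_nonneg_right ?_ (by positivity)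
  have h2 : Real.exp (-(((2 : ℕ) : ℝ) * |x|)) ≤ 1 := by
    apply Real.exp_le_one_iff.2
    have := abs_nonneg x
    push_cast
    linarith
  have h3 : C * Real.exp (-(((2 : ℕ) : ℝ) * |x|)) ≤ |C| * Real.exp (-(((2 : ℕ) : ℝ) * |x|)) :=
    mul_le_mul_of_nonneg_right (le_abs_self C) (Real.exp_pos _).le
  have h4 : |C| * Real.exp (-(((2 : ℕ) : ℝ) * |x|)) ≤ |C| * 1 :=
    mul_le_mul_of_nonneg_left h2 (abs_nonneg C)
  linarith

theorem G4_bd1 {T : ℝ} {c : ℝ → ℤ → ℝ → ℂ} (h : RDt T c) :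
    ∃ C : ℝ, 0 ≤ C ∧ ∀ t ∈ Icc 0 T, ∀ k x, ‖c t k x‖ ≤ C * Real.exp x := by
  obtain ⟨C, hC⟩ := h.bound 0 1
  refine ⟨|C|, abs_nonneg C, ?_⟩
  intro t ht k x
  have h1 := hC t ht k x
  rw [iteratedDeriv_zero] at h1
  refine h1.trans ?_
  have h5 : (1 : ℝ) ≤ (1 + |(k : ℝ)|) ^ 1 := by
    have := abs_nonneg (k : ℝ)
    linarith
  have h2 : Real.exp (-(((1 : ℕ) : ℝ) * |x|)) ≤ Real.exp x := by
    apply Real.exp_le_exp.2
    have := neg_abs_le x
    push_cast
    linarith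
  have h3 : C * Real.exp (-(((1 : ℕ) : ℝ) * |x|)) ≤ |C| * Real.exp x :=
    (mul_le_mul_of_nonneg_right (le_abs_self C) (Real.exp_pos _).le).trans
      (mul_le_mul_of_nonneg_left h2 (abs_nonneg C))
  rw [div_le_iff₀ (by linarith)]
  refine h3.trans ?_
  exact le_mul_of_one_le_right (by positivity) h5

theorem G4_joint {T : ℝ} {c : ℝ → ℤ → ℝ → ℂ} (h : RDt T c) (k : ℤ) :
    ContinuousOn (fun p : ℝ × ℝ => c p.1 k p.2) (Icc 0 T ×ˢ univ) := by
  obtain ⟨C, hC⟩ := h.bound 1 0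
  apply continuousOn_prod_of_continuousOn_lipschitzOnWith' _ (Real.toNNReal |C|)
  · intro t ht
    rw [lipschitzOnWith_univ]
    apply lipschitzWith_of_nnnorm_deriv_le
    · exact (h.smooth t ht k).differentiable (by simp)
    · intro x
      have h1 := hC t ht k x
      rw [iteratedDeriv_one] at h1
      rw [← NNReal.coe_le_coe, coe_nnnorm, Real.coe_toNNReal _ (abs_nonneg C)]
      refine h1.trans ?_
      simp [le_abs_self]
  · intro x _
    have h1 := h.cont 0 k x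
    simp only [iteratedDeriv_zero] at h1
    exact h1

/-- joint continuity -/
theorem hc_cont (T : ℝ) (c : ℝ → ℤ → ℝ → ℂ) (h : RDt T c) :
    ContinuousOn (fun p : ℝ × ℂ => hc (c p.1) p.2) (Icc 0 T ×ˢ univ) := by
  obtain ⟨C, hC0, hC⟩ := G4_bd h
  obtain ⟨C1, hC10, hC1⟩ := G4_bd1 h
  have hu : ∀ (z : ℂ) (k : ℤ), z ≠ 0 → ‖(z / (‖z‖ : ℂ)) ^ k‖ = 1 := by
    intro z k hz
    have h0 : ‖z‖ ≠ 0 := norm_ne_zero_iff.2 hz
    rw [norm_zpow, norm_div, Complex.norm_real, norm_norm, div_self h0, one_zpow]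
  have e : (fun p : ℝ × ℂ => hc (c p.1) p.2) = fun p : ℝ × ℂ => ∑' k : ℤ,
      (if p.2 = 0 then 0 else c p.1 k (Real.log ‖p.2‖) * (p.2 / ‖p.2‖) ^ k) := by
    funext p
    unfold hc
    split_ifs
    · rw [tsum_zero]
    · rfl
  rw [e]
  apply continuousOn_tsum (u := fun k : ℤ => C * (1 / (1 + |(k : ℝ)|) ^ 2)) _ (G4_sum.mul_left C)
  · rintro k ⟨t, z⟩ hp
    simp only
    split_ifs with hz
    · rw [norm_zero]
      positivity
    · rw [norm_mul, hu z k hz, mul_one]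
      exact hC t hp.1 k _
  · rintro k ⟨t, z⟩ hp
    have ht : t ∈ Icc 0 T := hp.1
    by_cases hz : z = 0
    · subst hz
      unfold ContinuousWithinAt
      simp only [if_true]
      rw [tendsto_zero_iff_norm_tendsto_zero]
      have h1 : Tendsto (fun p : ℝ × ℂ => C1 * ‖p.2‖) (𝓝[Icc 0 T ×ˢ univ] (t, 0)) (𝓝 0) := by
        have : Continuous (fun p : ℝ × ℂ => C1 * ‖p.2‖) := by fun_prop
        have h2 := (this.tendsto (t, 0)).mono_left
          (nhdsWithin_le_nhds (s := Icc 0 T ×ˢ (univ : Set ℂ)))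
        simpa using h2
      refine squeeze_zero' (Eventually.of_forall fun _ => norm_nonneg _) ?_ h1
      filter_upwards [self_mem_nhdsWithin] with p hp2
      split_ifs with hz2
      · rw [norm_zero]
        positivity
      · rw [norm_mul, hu _ k hz2, mul_one]
        have h3 := hC1 p.1 hp2.1 k (Real.log ‖p.2‖)
        rwa [Real.exp_log (norm_pos_iff.2 hz2)] at h3
    · have hev : ∀ᶠ p : ℝ × ℂ in 𝓝[Icc 0 T ×ˢ univ] (t, z), p.2 ≠ 0 := by
        have : {p : ℝ × ℂ | p.2 ≠ 0} ∈ 𝓝 (t, z) :=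
          (isOpen_ne.preimage continuous_snd).mem_nhds hz
        exact mem_nhdsWithin_of_mem_nhds this
      have h1 : ContinuousWithinAt (fun p : ℝ × ℂ => c p.1 k (Real.log ‖p.2‖) *
          (p.2 / ‖p.2‖) ^ k) (Icc 0 T ×ˢ univ) (t, z) := by
        have hn : ‖z‖ ≠ 0 := norm_ne_zero_iff.2 hz
        refine ContinuousWithinAt.mul ?_ ?_
        · have h2 := G4_joint h k (t, Real.log ‖z‖) ⟨ht, mem_univ _⟩
          have h3 : ContinuousWithinAt (fun p : ℝ × ℂ => (p.1, Real.log ‖p.2‖))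
              (Icc 0 T ×ˢ univ) (t, z) := by
            refine ContinuousWithinAt.prodMk continuousWithinAt_fst ?_
            have h4 : ContinuousAt (fun p : ℝ × ℂ => ‖p.2‖) (t, z) := by fun_prop
            exact (h4.log hn).continuousWithinAt
          exact ContinuousWithinAt.comp (g := fun p : ℝ × ℝ => c p.1 k p.2)
            (f := fun p : ℝ × ℂ => (p.1, Real.log ‖p.2‖)) (x := (t, z)) h2 h3
            (fun p hp2 => ⟨hp2.1, mem_univ _⟩)
        · refine ContinuousAt.continuousWithinAt ?_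
          refine ContinuousAt.zpow₀ ?_ k (Or.inl ?_)
          · refine ContinuousAt.div (by fun_prop) (by fun_prop) ?_
            exact_mod_cast hn
          · simp only
            exact div_ne_zero hz (by exact_mod_cast hn)
      refine h1.congr_of_eventuallyEq ?_ ?_
      · filter_upwards [hev] with p hp2
        rw [if_neg hp2]
      · simp only
        rw [if_neg hz]

/-- time derivative of the plane function -/
theorem hc_time (T : ℝ) (c c' : ℝ → ℤ → ℝ → ℂ) (h : RDt T c) (h' : RDt T c')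
    (hd : ∀ t ∈ Icc 0 T, ∀ k, ∀ x : ℝ, HasDerivWithinAt (fun τ => c τ k x) (c' t k x) (Icc 0 T) t) :
    ∀ t ∈ Icc 0 T, ∀ z : ℂ, HasDerivWithinAt (fun τ => hc (c τ) z) (hc (c' t) z) (Icc 0 T) t := by
  intro t ht z
  by_cases hz : z = 0
  · have e : (fun τ => hc (c τ) z) = fun _ => (0 : ℂ) := by
      funext τ
      unfold hc
      rw [if_pos hz]
    have e' : hc (c' t) z = 0 := by
      unfold hc
      rw [if_pos hz]
    rw [e, e']
    exact hasDerivWithinAt_const _ _ _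
  obtain ⟨C, hC0, hC⟩ := G4_bd h
  obtain ⟨C', hC0', hC'⟩ := G4_bd h'
  obtain ⟨x, hx⟩ : ∃ x, x = Real.log ‖z‖ := ⟨_, rfl⟩
  obtain ⟨u, hu⟩ : ∃ u : ℂ, u = z / (‖z‖ : ℂ) := ⟨_, rfl⟩
  have hun : ∀ k : ℤ, ‖u ^ k‖ = 1 := by
    intro k
    have h0 : ‖z‖ ≠ 0 := norm_ne_zero_iff.2 hz
    rw [hu, norm_zpow, norm_div, Complex.norm_real, norm_norm, div_self h0, one_zpow]
  have e : ∀ d : ℤ → ℝ → ℂ, hc d z = ∑' k : ℤ, d k x * u ^ k := by
    intro d
    unfold hc
    rw [if_neg hz, ← hx, ← hu]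
  simp only [e]
  have hs : ∀ s ∈ Icc 0 T, Summable (fun k : ℤ => c s k x * u ^ k) := by
    intro s hs
    refine Summable.of_norm_bounded (G4_sum.mul_left C) ?_
    intro k
    rw [norm_mul, hun, mul_one]
    exact hC s hs k x
  rw [hasDerivWithinAt_iff_tendsto_slope]
  have h1 : ∀ k : ℤ, Tendsto (fun s => slope (fun τ => c τ k x) t s * u ^ k)
      (𝓝[Icc 0 T \ {t}] t) (𝓝 (c' t k x * u ^ k)) := by
    intro k
    exact ((hasDerivWithinAt_iff_tendsto_slope.1 (hd t ht k x))).mul_const _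
  have h2 : ∀ᶠ s in 𝓝[Icc 0 T \ {t}] t, ∀ k : ℤ,
      ‖slope (fun τ => c τ k x) t s * u ^ k‖ ≤ C' * (1 / (1 + |(k : ℝ)|) ^ 2) := by
    filter_upwards [self_mem_nhdsWithin] with s hs2 k
    rw [norm_mul, hun, mul_one, slope_def_module, norm_smul]
    have h3 := (convex_Icc (0 : ℝ) T).norm_image_sub_le_of_norm_hasDerivWithin_le
      (f := fun τ => c τ k x) (f' := fun τ => c' τ k x) (C := C' * (1 / (1 + |(k : ℝ)|) ^ 2))
      (fun τ hτ => hd τ hτ k x) (fun τ hτ => hC' τ hτ k x) ht hs2.1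
    have h4 : 0 < ‖s - t‖ := norm_pos_iff.2 (sub_ne_zero.2 hs2.2)
    rw [norm_inv]
    rw [inv_mul_le_iff₀ h4, mul_comm ‖s - t‖]
    exact h3
  have h3 := tendsto_tsum_of_dominated_convergence (G4_sum.mul_left C') h1 h2
  refine h3.congr' ?_
  filter_upwards [self_mem_nhdsWithin] with s hs2
  rw [slope_def_module, ← (hs s hs2.1).tsum_sub (hs t ht), ← tsum_const_smul'']
  apply tsum_congr
  intro k
  rw [slope_def_module, smul_mul_assoc, sub_mul]

end JG4

end Pool.Agent.Helper383.NI
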