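import Pool.Agent.Helper383.NI.Defs

open Complex MeasureTheory Set Filter Topology

namespace Pool.Agent.Helper383.NI


namespace JH1

theorem pe_dfm_apply (A B w : ℂ) : dfm A B w = A * w + B * (starRingEnd ℂ) w := by
  simp [dfm]

/-- `a ↦ (y ↦ -Re (a y))` -/
noncomputable def peL : ℂ →L[ℝ] ℂ →L[ℝ] ℝ :=
  -((ContinuousLinearMap.compL ℝ ℂ ℂ ℝ Complex.reCLM).comp (ContinuousLinearMap.mul ℝ ℂ))

theorem peL_apply (a y : ℂ) : peL a y = -(a * y).re := by
  simp [peL]

/-- closed one-forms on the plane are exact (real-valued), applied to the Lamb form of 2D Euler -/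
theorem pressure_exists (v vt ω ωt : ℂ → ℂ) (Av Avt : ℂ → ℂ) (ω' : ℂ → ℂ →L[ℝ] ℂ)
    (hv : ∀ z, HasFDerivAt v (dfm (Av z) (-(I / 2) * ω z)) z)
    (hvt : ∀ z, HasFDerivAt vt (dfm (Avt z) (-(I / 2) * ωt z)) z)
    (hω : ∀ z, HasFDerivAt ω (ω' z) z)
    (cAv : Continuous Av) (cAvt : Continuous Avt) (cω' : Continuous ω') (cωt : Continuous ωt)
    (rω : ∀ z, (ω z).im = 0) (rωt : ∀ z, (ωt z).im = 0)
    (htr : ∀ z, ωt z + v z * ((ω' z 1 + I * ω' z I) / 2)
      + (starRingEnd ℂ) (v z * ((ω' z 1 + I * ω' z I) / 2)) = 0) :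
    ∃ p : ℂ → ℝ, ContDiff ℝ 1 p ∧
      (∀ z, (fderiv ℝ (fun y => (starRingEnd ℂ) (v y)) z 1).re
        + (fderiv ℝ (fun y => (starRingEnd ℂ) (v y)) z I).im = 0) ∧
      (∀ z, (starRingEnd ℂ) (vt z)
        + fderiv ℝ (fun y => (starRingEnd ℂ) (v y)) z ((starRingEnd ℂ) (v z))
        + gradient p z = 0) ∧
      (∀ z, (fderiv ℝ (fun y => (starRingEnd ℂ) (v y)) z 1).im
        - (fderiv ℝ (fun y => (starRingEnd ℂ) (v y)) z I).re = (ω z).re) := by
  have hωc : ∀ z, (starRingEnd ℂ) (ω z) = ω z := fun z => Complex.conj_eq_iff_im.2 (rω z)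
  have hω'im : ∀ z w, (ω' z w).im = 0 := by
    intro z w
    have h1 : HasFDerivAt (fun z => (ω z).im) (Complex.imCLM.comp (ω' z)) z :=
      Complex.imCLM.hasFDerivAt.comp z (hω z)
    have h2 : (fun z => (ω z).im) = fun _ => 0 := funext rω
    rw [h2] at h1
    have h3 := h1.unique (hasFDerivAt_const (0 : ℝ) z)
    have h4 := congrArg (fun L : ℂ →L[ℝ] ℝ => L w) h3
    simpa using h4
  have hω'ap : ∀ z w, ω' z w = (w.re : ℂ) * ω' z 1 + (w.im : ℂ) * ω' z I := by
    intro z w
    have h1 : w = w.re • (1 : ℂ) + w.im • I := by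
      apply Complex.ext <;> simp
    conv_lhs => rw [h1]
    rw [map_add, map_smul, map_smul]
    simp
  -- derivative of the velocity
  have hu : ∀ z, HasFDerivAt (fun y => (starRingEnd ℂ) (v y))
      ((Complex.conjCLE : ℂ →L[ℝ] ℂ).comp (dfm (Av z) (-(I / 2) * ω z))) z := fun z =>
    (Complex.conjCLE : ℂ →L[ℝ] ℂ).hasFDerivAt.comp z (hv z)
  have hDu : ∀ z w, fderiv ℝ (fun y => (starRingEnd ℂ) (v y)) z w =
      (starRingEnd ℂ) (Av z * w + (-(I / 2) * ω z) * (starRingEnd ℂ) w) := by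
    intro z w
    rw [(hu z).fderiv]
    simp [pe_dfm_apply]
  -- the one-form
  set q : ℂ → ℂ := fun z => vt z - I * (ω z * v z) with hq
  have hqd : ∀ z, HasFDerivAt q (dfm (Avt z) (-(I / 2) * ωt z) -
      I • (ω z • dfm (Av z) (-(I / 2) * ω z) + v z • ω' z)) z := by
    intro z
    exact (hvt z).fun_sub (((hω z).fun_mul (hv z)).const_mul I)
  obtain ⟨P, hP⟩ : ∃ P : ℂ → ℝ, ∀ a ∈ (univ : Set ℂ), HasFDerivWithinAt P (peL (q a)) univ a := by
    refine (convex_univ (𝕜 := ℝ) (E := ℂ)).exists_forall_hasFDerivWithinAt_of_hasFDerivWithinAt_symmetric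
      (ω := fun z => peL (q z))
      (dω := fun z => peL.comp (dfm (Avt z) (-(I / 2) * ωt z) -
      I • (ω z • dfm (Av z) (-(I / 2) * ω z) + v z • ω' z))) ?_ ?_
    · intro z _
      exact (peL.hasFDerivAt.comp z (hqd z)).hasFDerivWithinAt
    · intro z _ x _ y _
      have e1 := hω'im z 1
      have e2 := hω'im z I
      have e3 := rω z
      have e4 := rωt z
      simp only [ContinuousLinearMap.comp_apply, peL_apply, ContinuousLinearMap.sub_apply,
        ContinuousLinearMap.smul_apply, ContinuousLinearMap.add_apply, pe_dfm_apply,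
        smul_eq_mul, hω'ap z x, hω'ap z y]
      have h2 : ((ωt z).re + ((v z).re * ((ω' z 1).re) - (v z).im * ((ω' z I).re))) = 0 := by
        have h5 : ωt z + v z * ((ω' z 1 + I * ω' z I) / 2) +
          (starRingEnd ℂ) (v z * ((ω' z 1 + I * ω' z I) / 2)) = 0 := htr z
        have h6 := congrArg Complex.re h5
        rw [Complex.add_re, Complex.add_re, Complex.conj_re] at h6
        simp [Complex.mul_re, Complex.mul_im, e1, e2] at h6
        linarith
      simp [Complex.mul_re, Complex.mul_im, e1, e2, e3, e4]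
      linear_combination (-(x.re * y.im - x.im * y.re)) * h2
  have hP' : ∀ z, HasFDerivAt P (peL (q z)) z := fun z =>
    hasFDerivWithinAt_univ.1 (hP z (mem_univ z))
  set s : ℂ → ℂ := fun z => vt z + (starRingEnd ℂ) (v z) * Av z - (I / 2) * (ω z * v z) with hs
  have hp' : ∀ z, HasFDerivAt (fun y => P y - (1 / 2 : ℝ) * ‖v y‖ ^ 2) (peL (s z)) z := by
    intro z
    refine ((hP' z).fun_sub (((hv z).norm_sq).const_mul (1 / 2 : ℝ))).congr_fderiv ?_
    ext w
    have e3 := rω z
    simp only [ContinuousLinearMap.sub_apply, ContinuousLinearMap.smul_apply, peL_apply,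
      ContinuousLinearMap.comp_apply, innerSL_apply_apply, Complex.inner, pe_dfm_apply, hq, hs]
    simp [Complex.mul_re, Complex.mul_im, e3]
    ring
  have hcv : Continuous v := continuous_iff_continuousAt.2 fun z => (hv z).continuousAt
  have hcvt : Continuous vt := continuous_iff_continuousAt.2 fun z => (hvt z).continuousAt
  have hcω : Continuous ω := continuous_iff_continuousAt.2 fun z => (hω z).continuousAt
  have hcs : Continuous s := by
    have h1 : Continuous fun z => (starRingEnd ℂ) (v z) := Complex.continuous_conj.comp hcv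
    exact (hcvt.add (h1.mul cAv)).sub (continuous_const.mul (hcω.mul hcv))
  refine ⟨fun y => P y - (1 / 2 : ℝ) * ‖v y‖ ^ 2, ?_, ?_, ?_, ?_⟩
  · rw [contDiff_one_iff_fderiv]
    refine ⟨fun z => (hp' z).differentiableAt, ?_⟩
    have h1 : fderiv ℝ (fun y => P y - (1 / 2 : ℝ) * ‖v y‖ ^ 2) = fun z => peL (s z) :=
      funext fun z => (hp' z).fderiv
    rw [h1]
    exact peL.continuous.comp hcs
  · intro z
    rw [hDu, hDu, Complex.conj_re, Complex.conj_im]
    have e3 := rω z
    simp [Complex.mul_re, Complex.mul_im, e3]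
  · intro z
    have hg : HasGradientAt (fun y => P y - (1 / 2 : ℝ) * ‖v y‖ ^ 2) (-(starRingEnd ℂ) (s z)) z := by
      rw [hasGradientAt_iff_hasFDerivAt]
      refine (hp' z).congr_fderiv ?_
      ext w
      rw [peL_apply, InnerProductSpace.toDual_apply_apply, Complex.inner]
      simp [Complex.mul_re]
      ring
    rw [hg.gradient, hDu]
    simp only [hs, map_add, map_sub, map_mul, map_neg, Complex.conj_conj, hωc]
    simp
    ring
  · intro z
    rw [hDu, hDu, Complex.conj_re, Complex.conj_im]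
    have e3 := rω z
    simp [Complex.mul_re, Complex.mul_im, e3]
    ring

end JH1

end Pool.Agent.Helper383.NI
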