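import Pool.Agent.Helper383.NI.Defs
import Pool.Agent.Helper383.NI.F0
import Pool.Agent.Helper383.NI.G1
import Pool.Agent.Helper383.NI.G2
import Pool.Agent.Helper383.NI.G3
import Pool.Agent.Helper383.NI.G4

open Complex MeasureTheory Set Filter Topology

namespace Pool.Agent.Helper383.NI

open JF0 (RDt_of_analytic)
open JG1 (RDt_dz)
open JG2 (hc_fderiv_ne hc_fderiv)
open JG3 (hc_decay hc_schwartz)
open JG4 (hc_cont hc_time)

namespace JK0

theorem k0_cosh_re (z : ℂ) : (Complex.cosh z).re = Real.cosh z.re * Real.cos z.im := by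
  rw [Complex.cosh, Real.cosh_eq]
  rw [show (Complex.exp z + Complex.exp (-z)) / 2 = (1 / 2 : ℝ) * (Complex.exp z + Complex.exp (-z)) by
    push_cast; ring]
  rw [Complex.re_ofReal_mul, Complex.add_re, Complex.exp_re, Complex.exp_re, Complex.neg_re,
    Complex.neg_im, Real.cos_neg]
  ring

theorem k0_norm (z : ℂ) (hz : z ∈ Str (1 / 2)) :
    ‖Complex.exp (-2 * Complex.cosh z)‖ ≤ Real.exp (-Real.cosh z.re) := by
  have h : |z.im| < 1 / 2 := hz
  have h1 := Real.one_sub_sq_div_two_le_cos (x := z.im)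
  have h2 : z.im ^ 2 ≤ 1 / 4 := by
    rw [← sq_abs]
    nlinarith [abs_nonneg z.im]
  have h3 := Real.one_le_cosh z.re
  rw [Complex.norm_exp]
  apply Real.exp_le_exp.2
  have h4 : (-2 * Complex.cosh z).re = -2 * (Complex.cosh z).re := by
    rw [show (-2 : ℂ) = ((-2 : ℝ) : ℂ) by push_cast; ring, Complex.re_ofReal_mul]
  rw [h4, k0_cosh_re]
  nlinarith

theorem k0_exp_le (x : ℝ) : Real.exp x ≤ 2 * Real.cosh x := by
  rw [Real.cosh_eq]
  have := Real.exp_pos (-x)
  linarith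

theorem k0_exp_neg_le (x : ℝ) : Real.exp (-x) ≤ 2 * Real.cosh x := by
  rw [Real.cosh_eq]
  have := Real.exp_pos x
  linarith

theorem static_RDt (c : ℤ → ℂ → ℂ) (A : ℝ) (hd : ∀ k, DifferentiableOn ℂ (c k) (Str (1 / 2)))
    (hb : ∀ k, ∀ z ∈ Str (1 / 2),
      ‖c k z‖ ≤ A * Real.exp (-(1 * |(k : ℝ)|)) * Real.exp (-(Real.cosh z.re / 4))) :
    RDt 1 (fun _ k (x : ℝ) => c k (x : ℂ)) :=
  RDt_of_analytic 1 (1 / 2) A 1 (by norm_num) one_pos (fun _ => c) (fun _ _ => hd)
    (fun _ _ => hb) (fun _ _ _ => continuousOn_const)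

theorem dfm_apply (a b w : ℂ) : dfm a b w = a * w + b * (starRingEnd ℂ) w := by
  unfold dfm
  simp

theorem dfm_norm (a b : ℂ) : ‖dfm a b‖ ≤ ‖a‖ + ‖b‖ := by
  refine ContinuousLinearMap.opNorm_le_bound _ (by positivity) fun w => ?_
  rw [dfm_apply]
  refine (norm_add_le _ _).trans ?_
  rw [norm_mul, norm_mul, RCLike.norm_conj]
  linarith

theorem static_cont (c : ℤ → ℝ → ℂ) (h : RDt 1 (fun _ => c)) : Continuous (hc c) := by
  have h1 := hc_cont 1 (fun _ => c) h
  have h2 : Continuous (fun z : ℂ => ((0 : ℝ), z)) := by fun_prop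
  exact h1.comp_continuous h2 (fun z => ⟨⟨le_rfl, zero_le_one⟩, mem_univ _⟩)

theorem static_pack (c : ℤ → ℝ → ℂ) (h : RDt 1 (fun _ => c)) :
    ∃ (P' : ℂ → ℂ →L[ℝ] ℂ) (C : ℝ), (∀ z, HasFDerivAt (hc c) (P' z) z) ∧ Continuous P' ∧
      (∀ z, (P' z 1 + I * P' z I) / 2 = hc (dzb c) z) ∧
      (∀ z, ‖hc c z‖ ≤ C / (1 + ‖z‖) ^ 4) ∧ (∀ z, ‖P' z‖ ≤ C / (1 + ‖z‖) ^ 4) ∧
      Continuous (hc (dzb c)) ∧ (∀ z, ‖hc (dzb c) z‖ ≤ C / (1 + ‖z‖) ^ 4) := by
  have h0 : (0 : ℝ) ∈ Icc (0 : ℝ) 1 := ⟨le_rfl, zero_le_one⟩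
  obtain ⟨h1, h2⟩ := RDt_dz 1 (fun _ => c) h
  obtain ⟨C1, hC1, d1⟩ := hc_decay 1 (fun _ => c) h 4
  obtain ⟨C2, hC2, d2⟩ := hc_decay 1 (fun _ => dz c) h1 4
  obtain ⟨C3, hC3, d3⟩ := hc_decay 1 (fun _ => dzb c) h2 4
  have c2 := static_cont (dz c) h1
  have c3 := static_cont (dzb c) h2
  have aux : ∀ z : ℂ, (0 : ℝ) < (1 + ‖z‖) ^ 4 := fun z => by positivity
  refine ⟨fun z => dfm (hc (dz c) z) (hc (dzb c) z), C1 + C2 + C3,
    fun z => hc_fderiv 1 (fun _ => c) h 0 h0 z, ?_, ?_, ?_, ?_, c3, ?_⟩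
  · unfold dfm
    exact (c2.smul continuous_const).add (c3.smul continuous_const)
  · intro z
    rw [dfm_apply, dfm_apply]
    simp only [map_one, Complex.conj_I]
    have hI := Complex.I_mul_I
    linear_combination ((hc (dz c) z - hc (dzb c) z) / 2) * hI
  · intro z
    refine (d1 0 h0 z).1.trans ?_
    exact div_le_div_of_nonneg_right (by linarith) (aux z).le
  · intro z
    refine (dfm_norm _ _).trans ?_
    have e1 := (d2 0 h0 z).1
    have e2 := (d3 0 h0 z).1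
    calc ‖hc (dz c) z‖ + ‖hc (dzb c) z‖ ≤ C2 / (1 + ‖z‖) ^ 4 + C3 / (1 + ‖z‖) ^ 4 := add_le_add e1 e2
      _ = (C2 + C3) / (1 + ‖z‖) ^ 4 := by ring
      _ ≤ (C1 + C2 + C3) / (1 + ‖z‖) ^ 4 := div_le_div_of_nonneg_right (by linarith) (aux z).le
  · intro z
    refine (d3 0 h0 z).1.trans ?_
    exact div_le_div_of_nonneg_right (by linarith) (aux z).le

theorem hc_smul (a : ℂ) (d : ℤ → ℝ → ℂ) (z : ℂ) :
    hc (fun k x => a * d k x) z = a * hc d z := by
  unfold hc
  by_cases hz : z = 0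
  · simp [hz]
  · rw [if_neg hz, if_neg hz, ← tsum_mul_left]
    refine tsum_congr fun k => ?_
    ring

theorem hc_finite (d : ℤ → ℝ → ℂ) (F : Finset ℤ) (h : ∀ k, k ∉ F → ∀ x, d k x = 0) (z : ℂ)
    (hz : z ≠ 0) : hc d z = ∑ k ∈ F, d k (Real.log ‖z‖) * (z / ‖z‖) ^ k := by
  unfold hc
  rw [if_neg hz]
  refine tsum_eq_sum fun k hk => ?_
  rw [h k hk, zero_mul]

theorem hc_zero_at (d : ℤ → ℝ → ℂ) : hc d 0 = 0 := by
  unfold hc
  simp

theorem Ob_deriv (x : ℝ) : HasDerivAt (fun x : ℝ => Ob (x : ℂ)) (Ob1 (x : ℂ)) x := by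
  have h1 : HasDerivAt Ob (Ob1 (x : ℂ)) (x : ℂ) := by
    unfold Ob Ob1
    have := ((Complex.hasDerivAt_cosh (x : ℂ)).const_mul (-2)).cexp
    refine this.congr_deriv ?_
    ring
  exact h1.comp_ofReal

theorem diff_Ob : Differentiable ℂ Ob := by
  unfold Ob
  fun_prop

theorem w_norm (z : ℂ) (hz : z ≠ 0) : ‖z / (‖z‖ : ℂ)‖ = 1 := by
  rw [norm_div, Complex.norm_real, norm_norm]
  exact div_self (norm_ne_zero_iff.2 hz)

/-- base flow: the velocity `vb` solves the d-bar equation with the vorticity `wb` -/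
theorem base_flow : ∃ (v' : ℂ → ℂ →L[ℝ] ℂ) (C : ℝ), (∀ z, HasFDerivAt vb (v' z) z) ∧
    Continuous v' ∧ (∀ z, (v' z 1 + I * v' z I) / 2 = -(I / 2) * wb z) ∧
    (∀ z, ‖vb z‖ ≤ C / (1 + ‖z‖) ^ 4) ∧ (∀ z, ‖v' z‖ ≤ C / (1 + ‖z‖) ^ 4) ∧ Continuous wb ∧
    (∀ z, ‖wb z‖ ≤ C / (1 + ‖z‖) ^ 4) := by
  set c : ℤ → ℝ → ℂ := fun n x => if n = -1 then -(I * (Real.exp x : ℂ) * Ob (x : ℂ)) else 0 with hcdef
  have hvb : vb = hc c := rfl
  have hR : RDt 1 (fun _ => c) := by
    have h := static_RDt (fun n z => if n = -1 then -(I * Complex.exp z * Ob z) else 0)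
      (3 * Real.exp 1) ?_ ?_
    · have e : (fun (_ : ℝ) => c) = (fun (_ : ℝ) (k : ℤ) (x : ℝ) =>
          (fun (n : ℤ) (z : ℂ) => if n = -1 then -(I * Complex.exp z * Ob z) else 0) k (x : ℂ)) := by
        funext t k x
        simp only [hcdef, Complex.ofReal_exp]
      rw [e]
      exact h
    · intro k
      by_cases hk : k = -1
      · simp only [hk, if_true]
        have := diff_Ob
        exact (by fun_prop : Differentiable ℂ (fun z => -(I * Complex.exp z * Ob z))).differentiableOn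
      · simp only [hk, if_false]
        exact differentiableOn_const _
    · intro k z hz
      by_cases hk : k = -1
      · simp only [hk, if_true]
        rw [norm_neg, norm_mul, norm_mul, Complex.norm_I, one_mul, Complex.norm_exp]
        have h1 := k0_norm z hz
        have h2 := k0_exp_le z.re
        have h3 := Real.one_le_cosh z.re
        set u := Real.cosh z.re with hu
        have h4 : Real.exp (-(1 * |((-1 : ℤ) : ℝ)|)) = Real.exp (-1) := by norm_num
        rw [h4]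
        have h5 : 3 * Real.exp 1 * Real.exp (-1) = 3 := by
          rw [mul_assoc, ← Real.exp_add]
          norm_num
        rw [h5]
        have h6 : 3 * u / 4 + 1 ≤ Real.exp (3 * u / 4) := Real.add_one_le_exp _
        have h7 : Real.exp (-(u / 4)) = Real.exp (3 * u / 4) * Real.exp (-u) := by
          rw [← Real.exp_add]
          congr 1
          ring
        rw [h7]
        calc Real.exp z.re * ‖Ob z‖ ≤ (2 * u) * Real.exp (-u) :=
              mul_le_mul h2 h1 (norm_nonneg _) (by linarith)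
          _ ≤ (3 * Real.exp (3 * u / 4)) * Real.exp (-u) :=
              mul_le_mul_of_nonneg_right (by linarith) (Real.exp_pos _).le
          _ = 3 * (Real.exp (3 * u / 4) * Real.exp (-u)) := by ring
      · simp only [hk, if_false]
        rw [norm_zero]
        positivity
  obtain ⟨P', C, p1, p2, p3, p4, p5, p6, p7⟩ := static_pack c hR
  have hdzb : dzb c = fun k x => (-(I / 2)) * (fun (n : ℤ) (x : ℝ) => if n = 0 then Obw (x : ℂ) else 0) k x := by
    funext k x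
    unfold dzb
    by_cases hk : k = 0
    · subst hk
      have hcm : c (0 - 1) = fun x : ℝ => -(I * (Real.exp x : ℂ) * Ob (x : ℂ)) := by
        funext y
        simp [hcdef]
      rw [hcm]
      have hde : HasDerivAt (fun x : ℝ => ((Real.exp x : ℝ) : ℂ)) ((Real.exp x : ℝ) : ℂ) x :=
        (Real.hasDerivAt_exp x).ofReal_comp
      have hd : HasDerivAt (fun x : ℝ => -(I * (Real.exp x : ℂ) * Ob (x : ℂ)))
          (-(I * (Real.exp x : ℂ) * Ob (x : ℂ) + I * (Real.exp x : ℂ) * Ob1 (x : ℂ))) x :=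
        ((hde.const_mul I).mul (Ob_deriv x)).neg
      rw [hd.deriv]
      simp only [if_true, Obw]
      have he : ((Real.exp (-x) : ℝ) : ℂ) * ((Real.exp x : ℝ) : ℂ) = 1 := by
        rw [← Complex.ofReal_mul, ← Real.exp_add]
        simp
      push_cast at he ⊢
      linear_combination (-(I / 2) * (2 * Ob (x : ℂ) + Ob1 (x : ℂ))) * he
    · have hcm : c (k - 1) = fun _ => 0 := by
        funext y
        simp only [hcdef]
        rw [if_neg (by omega)]
      rw [hcm]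
      simp [hk]
  have hwb : ∀ z, hc (dzb c) z = -(I / 2) * wb z := by
    intro z
    rw [hdzb, hc_smul]
    rfl
  have hwb2 : ∀ z, wb z = (2 * I) * hc (dzb c) z := by
    intro z
    rw [hwb]
    have hI := Complex.I_mul_I
    linear_combination (wb z) * hI
  have hwb3 : wb = fun z => (2 * I) * hc (dzb c) z := funext hwb2
  refine ⟨P', 2 * C, ?_, p2, ?_, ?_, ?_, ?_, ?_⟩
  · rw [hvb]; exact p1
  · intro z
    rw [p3, hwb]
  all_goals have hCz : ∀ z : ℂ, 0 ≤ C / (1 + ‖z‖) ^ 4 := fun z => (norm_nonneg _).trans (p4 z)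
  · intro z
    rw [hvb, mul_div_assoc]
    linarith [p4 z, hCz z]
  · intro z
    rw [mul_div_assoc]
    linarith [p5 z, hCz z]
  · rw [hwb3]
    exact continuous_const.mul p6
  · intro z
    rw [hwb2, norm_mul, norm_mul, Complex.norm_I, Complex.norm_ofNat, mul_div_assoc, mul_one]
    linarith [p7 z]

/-- profile of the perturbation of the initial vorticity -/
noncomputable def Pm (m : ℕ) : ℂ → ℂ := hc (fun n (x : ℝ) =>
  if n = (m : ℤ) ∨ n = -(m : ℤ) then ((Real.exp (-(2 * Real.cosh x)) : ℝ) : ℂ) else 0)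

/-- initial vorticity of the model solution -/
theorem om_zero (T : ℝ) (m : ℕ) (Λ σ B : ℝ) (hT : 0 < T) (hm : 40 ≤ m) (hΛ : 1 ≤ Λ)
    (hσ : 0 < σ) (S : Sol T m Λ σ B) : ∀ z, S.om 0 z = wb z + (Λ : ℂ) * Pm m z := by
  intro z
  have hm0 : (m : ℤ) ≠ 0 := by omega
  have hΛ0 : (Λ : ℂ) ≠ 0 := by
    have : Λ ≠ 0 := by linarith
    exact_mod_cast this
  have key : ∀ n (x : ℝ), S.cw 0 n (x : ℂ) = (if n = 0 then Obw (x : ℂ) else 0) +
      (Λ : ℂ) * (if n = (m : ℤ) ∨ n = -(m : ℤ) then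
        ((Real.exp (-(2 * Real.cosh x)) : ℝ) : ℂ) else 0) := by
    intro n x
    have hx : (x : ℂ) ∈ Str σ := by
      show |((x : ℂ)).im| < σ
      rw [Complex.ofReal_im, abs_zero]
      exact hσ
    have h0 : (0 : ℝ) ∈ Icc 0 T := ⟨le_rfl, hT.le⟩
    have hal : S.al 0 (x : ℂ) = 0 := by
      unfold Sol.al
      rw [intervalIntegral.integral_same]
      simp
    have hw : ∀ k, S.w 0 k (x : ℂ) = w0 (Λ⁻¹) k (x : ℂ) := by
      intro k
      rw [S.eq_w 0 h0 k _ hx, intervalIntegral.integral_same]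
      simp
    unfold Sol.cw
    rw [hal, mul_zero, neg_zero, Complex.exp_zero, mul_one]
    unfold Ws
    rw [hw]
    have hee : Complex.exp (-Complex.cosh (x : ℂ)) * Complex.exp (Complex.cosh (x : ℂ)) = 1 := by
      rw [← Complex.exp_add]
      simp
    have hee2 : Complex.exp (-Complex.cosh (x : ℂ)) * Complex.exp (-Complex.cosh (x : ℂ)) =
        ((Real.exp (-(2 * Real.cosh x)) : ℝ) : ℂ) := by
      rw [← Complex.exp_add]
      push_cast
      congr 1
      ring
    by_cases hn : n = 0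
    · subst hn
      rw [if_pos (dvd_zero _), if_pos rfl, if_neg (by omega)]
      rw [Int.zero_ediv]
      unfold w0
      rw [if_pos rfl]
      push_cast
      have : (Λ : ℂ) * (Λ : ℂ)⁻¹ = 1 := mul_inv_cancel₀ hΛ0
      linear_combination (Obw (x : ℂ) * Complex.exp (-Complex.cosh (x : ℂ)) *
        Complex.exp (Complex.cosh (x : ℂ))) * this + Obw (x : ℂ) * hee
    · rw [if_neg hn]
      by_cases hnm : n = (m : ℤ) ∨ n = -(m : ℤ)
      · rw [if_pos hnm]
        have hdvd : (m : ℤ) ∣ n := by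
          rcases hnm with h | h
          · exact ⟨1, by rw [h]; ring⟩
          · exact ⟨-1, by rw [h]; ring⟩
        have hq : n / (m : ℤ) = 1 ∨ n / (m : ℤ) = -1 := by
          rcases hnm with h | h
          · left; rw [h]; exact Int.ediv_self hm0
          · right; rw [h, Int.neg_ediv_self _ hm0]
        rw [if_pos hdvd]
        unfold w0
        rw [if_neg (by omega), if_pos hq]
        rw [hee2]
        ring
      · rw [if_neg hnm]
        by_cases hdvd : (m : ℤ) ∣ n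
        · rw [if_pos hdvd]
          obtain ⟨q, hq⟩ := hdvd
          have hq2 : n / (m : ℤ) = q := by rw [hq]; exact Int.mul_ediv_cancel_left _ hm0
          rw [hq2]
          unfold w0
          have hq0 : q ≠ 0 := by
            rintro rfl
            apply hn
            rw [hq, mul_zero]
          have hq1 : ¬ (q = 1 ∨ q = -1) := by
            rintro (rfl | rfl)
            · exact hnm (Or.inl (by rw [hq, mul_one]))
            · exact hnm (Or.inr (by rw [hq]; ring))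
          rw [if_neg hq0, if_neg hq1]
          ring
        · rw [if_neg hdvd]
          ring
  by_cases hz : z = 0
  · subst hz
    unfold Sol.om wb Pm
    rw [hc_zero_at, hc_zero_at, hc_zero_at]
    ring
  · unfold Sol.om wb Pm
    rw [hc_finite (fun n (x : ℝ) => S.cw 0 n (x : ℂ)) {0, (m : ℤ), -(m : ℤ)} ?_ z hz,
      hc_finite (fun n (x : ℝ) => if n = 0 then Obw (x : ℂ) else 0) {0, (m : ℤ), -(m : ℤ)} ?_ z hz,
      hc_finite (fun n (x : ℝ) => if n = (m : ℤ) ∨ n = -(m : ℤ) then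
        ((Real.exp (-(2 * Real.cosh x)) : ℝ) : ℂ) else 0) {0, (m : ℤ), -(m : ℤ)} ?_ z hz,
      Finset.mul_sum, ← Finset.sum_add_distrib]
    · refine Finset.sum_congr rfl fun n _ => ?_
      rw [key]
      ring
    · intro k hk x
      simp only [Finset.mem_insert, Finset.mem_singleton, not_or] at hk
      simp [hk.2.1, hk.2.2]
    · intro k hk x
      simp only [Finset.mem_insert, Finset.mem_singleton, not_or] at hk
      simp [hk.1]
    · intro k hk x
      simp only [Finset.mem_insert, Finset.mem_singleton, not_or] at hk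
      rw [key]
      simp [hk.1, hk.2.1, hk.2.2]


theorem Pm_RDt (m : ℕ) (hm : 40 ≤ m) : RDt 1 (fun _ (n : ℤ) (x : ℝ) =>
    if n = (m : ℤ) ∨ n = -(m : ℤ) then ((Real.exp (-(2 * Real.cosh x)) : ℝ) : ℂ) else 0) := by
  have h := static_RDt (fun n z => if n = (m : ℤ) ∨ n = -(m : ℤ) then
    Complex.exp (-2 * Complex.cosh z) else 0) (Real.exp m) ?_ ?_
  · have e : (fun (_ : ℝ) (n : ℤ) (x : ℝ) =>
        if n = (m : ℤ) ∨ n = -(m : ℤ) then ((Real.exp (-(2 * Real.cosh x)) : ℝ) : ℂ) else 0) =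
        (fun (_ : ℝ) (k : ℤ) (x : ℝ) => (fun (n : ℤ) (z : ℂ) => if n = (m : ℤ) ∨ n = -(m : ℤ) then
          Complex.exp (-2 * Complex.cosh z) else 0) k (x : ℂ)) := by
      funext t k x
      simp only []
      congr 1
      push_cast
      congr 1
      ring
    rw [e]
    exact h
  · intro k
    by_cases hk : k = (m : ℤ) ∨ k = -(m : ℤ)
    · simp only [hk, if_true]
      exact (by fun_prop : Differentiable ℂ
        (fun z => Complex.exp (-2 * Complex.cosh z))).differentiableOn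
    · simp only [hk, if_false]
      exact differentiableOn_const _
  · intro k z hz
    by_cases hk : k = (m : ℤ) ∨ k = -(m : ℤ)
    · simp only [hk, if_true]
      have h1 := k0_norm z hz
      have h3 := Real.one_le_cosh z.re
      have hk2 : |(k : ℝ)| = m := by
        rcases hk with h | h <;> rw [h] <;> simp
      rw [hk2, ← Real.exp_add, one_mul, add_neg_cancel, Real.exp_zero, one_mul]
      exact h1.trans (Real.exp_le_exp.2 (by linarith))
    · simp only [hk, if_false]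
      rw [norm_zero]
      positivity

theorem u4_bound (u : ℝ) (hu : 0 ≤ u) : u ^ 4 * Real.exp (-(2 * u)) ≤ 16 := by
  have h1 : u / 2 ≤ Real.exp (u / 2) := by
    have := Real.add_one_le_exp (u / 2)
    linarith
  have h2 : (u / 2) ^ 4 ≤ Real.exp (u / 2) ^ 4 := pow_le_pow_left₀ (by linarith) h1 4
  have h3 : Real.exp (u / 2) ^ 4 = Real.exp (2 * u) := by
    rw [← Real.exp_nat_mul]
    congr 1
    push_cast
    ring
  rw [h3] at h2
  have h4 : u ^ 4 ≤ 16 * Real.exp (2 * u) := by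
    have : (u / 2) ^ 4 = u ^ 4 / 16 := by ring
    rw [this] at h2
    linarith
  calc u ^ 4 * Real.exp (-(2 * u)) ≤ (16 * Real.exp (2 * u)) * Real.exp (-(2 * u)) :=
        mul_le_mul_of_nonneg_right h4 (Real.exp_pos _).le
    _ = 16 := by rw [mul_assoc, ← Real.exp_add]; simp

theorem Pm_dzb_bound (m : ℕ) (hm : 40 ≤ m) (z : ℂ) :
    ‖hc (dzb (fun (n : ℤ) (x : ℝ) =>
    if n = (m : ℤ) ∨ n = -(m : ℤ) then ((Real.exp (-(2 * Real.cosh x)) : ℝ) : ℂ) else 0)) z‖ ≤
      864 * m / (1 + ‖z‖) ^ 2 := by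
  set c : ℤ → ℝ → ℂ := fun (n : ℤ) (x : ℝ) =>
    if n = (m : ℤ) ∨ n = -(m : ℤ) then ((Real.exp (-(2 * Real.cosh x)) : ℝ) : ℂ) else 0 with hcdef
  by_cases hz : z = 0
  · rw [hz, hc_zero_at, norm_zero]
    positivity
  have hm1 : (1 : ℝ) ≤ m := by
    have : 1 ≤ m := by omega
    exact_mod_cast this
  have hcz : ∀ k, ¬ (k = (m : ℤ) ∨ k = -(m : ℤ)) → c k = fun _ => 0 := by
    intro k hk
    funext x
    simp only [hcdef]
    rw [if_neg hk]
  have hc1 : ∀ k, (k = (m : ℤ) ∨ k = -(m : ℤ)) →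
      c k = fun x : ℝ => ((Real.exp (-(2 * Real.cosh x)) : ℝ) : ℂ) := by
    intro k hk
    funext x
    simp only [hcdef]
    rw [if_pos hk]
  have hfin : ∀ k, k ∉ ({(m : ℤ) + 1, -(m : ℤ) + 1} : Finset ℤ) → ∀ x, dzb c k x = 0 := by
    intro k hk x
    simp only [Finset.mem_insert, Finset.mem_singleton, not_or] at hk
    unfold dzb
    rw [hcz (k - 1) (by omega)]
    simp
  rw [hc_finite _ _ hfin z hz]
  set x := Real.log ‖z‖ with hx
  have hr : Real.exp x = ‖z‖ := Real.exp_log (norm_pos_iff.2 hz)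
  set u := Real.cosh x with hu
  have hu1 : 1 ≤ u := Real.one_le_cosh x
  have hsinh : |Real.sinh x| ≤ u := by
    rw [abs_le]
    constructor
    · have := Real.exp_pos x
      have e1 : Real.cosh x + Real.sinh x = Real.exp x := Real.cosh_add_sinh x
      linarith
    · exact (Real.sinh_lt_cosh x).le
  have hb : ∀ k, (k - 1 = (m : ℤ) ∨ k - 1 = -(m : ℤ)) →
      ‖dzb c k x * (z / ‖z‖) ^ k‖ ≤ (1 / 2) * Real.exp (-x) * ((2 * |Real.sinh x| + m) *
        Real.exp (-(2 * u))) := by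
    intro k hk
    rw [norm_mul, norm_zpow, w_norm z hz, one_zpow, mul_one]
    unfold dzb
    rw [hc1 _ hk]
    have hd : HasDerivAt (fun x : ℝ => ((Real.exp (-(2 * Real.cosh x)) : ℝ) : ℂ))
        (((Real.exp (-(2 * Real.cosh x)) * (-(2 * Real.sinh x)) : ℝ)) : ℂ) x :=
      (((Real.hasDerivAt_cosh x).const_mul 2).neg.exp).ofReal_comp
    rw [hd.deriv]
    have e1 : ((1 : ℂ) / 2) * ((Real.exp (-x) : ℝ) : ℂ) *
        (((Real.exp (-(2 * Real.cosh x)) * (-(2 * Real.sinh x)) : ℝ) : ℂ) -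
          ((k - 1 : ℤ) : ℂ) * ((Real.exp (-(2 * Real.cosh x)) : ℝ) : ℂ)) =
        (((1 / 2) * Real.exp (-x) * ((-(2 * Real.sinh x) - ((k - 1 : ℤ) : ℝ)) *
          Real.exp (-(2 * Real.cosh x))) : ℝ) : ℂ) := by
      push_cast
      ring
    rw [e1, Complex.norm_real, Real.norm_eq_abs, abs_mul, abs_mul, abs_mul, Real.abs_exp,
      Real.abs_exp, abs_of_pos (by norm_num : (0 : ℝ) < 1 / 2)]
    refine mul_le_mul_of_nonneg_left ?_ (by positivity)
    refine mul_le_mul_of_nonneg_right ?_ (Real.exp_pos _).le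
    have e2 : |((k - 1 : ℤ) : ℝ)| = m := by
      rcases hk with h | h <;> rw [h] <;> simp
    calc |-(2 * Real.sinh x) - ((k - 1 : ℤ) : ℝ)| ≤ |-(2 * Real.sinh x)| + |((k - 1 : ℤ) : ℝ)| :=
          abs_sub _ _
      _ = 2 * |Real.sinh x| + m := by
          rw [abs_neg, abs_mul, e2, abs_of_pos (by norm_num : (0 : ℝ) < 2)]
  refine (norm_sum_le _ _).trans ?_
  rw [Finset.sum_insert (by
    rw [Finset.mem_singleton]
    omega), Finset.sum_singleton]
  have b1 := hb ((m : ℤ) + 1) (by left; ring)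
  have b2 := hb (-(m : ℤ) + 1) (by right; ring)
  refine (add_le_add b1 b2).trans ?_
  rw [le_div_iff₀ (by positivity)]
  have hr1 : 1 + ‖z‖ ≤ 3 * u := by
    rw [← hr]
    have := k0_exp_le x
    linarith
  have hex : Real.exp (-x) ≤ 2 * u := k0_exp_neg_le x
  have hsum : 2 * |Real.sinh x| + m ≤ m * (3 * u) := by nlinarith
  have h4 := u4_bound u (by linarith)
  have hpos := Real.exp_pos (-(2 * u))
  calc (1 / 2 * Real.exp (-x) * ((2 * |Real.sinh x| + ↑m) * Real.exp (-(2 * u))) +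
        1 / 2 * Real.exp (-x) * ((2 * |Real.sinh x| + ↑m) * Real.exp (-(2 * u)))) * (1 + ‖z‖) ^ 2
      = Real.exp (-x) * ((2 * |Real.sinh x| + ↑m) * Real.exp (-(2 * u))) * (1 + ‖z‖) ^ 2 := by ring
    _ ≤ (2 * u) * ((m * (3 * u)) * Real.exp (-(2 * u))) * (3 * u) ^ 2 := by
        gcongr
    _ = 54 * m * (u ^ 4 * Real.exp (-(2 * u))) := by ring
    _ ≤ 54 * m * 16 := mul_le_mul_of_nonneg_left h4 (by positivity)
    _ = 864 * m := by ring

theorem Pm_sym (m : ℕ) (hm : 40 ≤ m) (ρ z : ℂ) (hρ : ‖ρ‖ = 1) (hρm : ρ ^ m = I) (hz : z ≠ 0) :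
    ‖Pm m z‖ ^ 2 + ‖Pm m (ρ * z)‖ ^ 2 = 4 * Real.exp (-(2 * Real.cosh (Real.log ‖z‖))) ^ 2 := by
  have hρ0 : ρ ≠ 0 := by
    intro h
    rw [h, norm_zero] at hρ
    exact zero_ne_one hρ
  have hval : ∀ y : ℂ, y ≠ 0 → Pm m y = ((Real.exp (-(2 * Real.cosh (Real.log ‖y‖))) : ℝ) : ℂ) *
      ((y / ‖y‖) ^ (m : ℤ) + (y / ‖y‖) ^ (-(m : ℤ))) := by
    intro y hy
    unfold Pm
    rw [hc_finite _ {(m : ℤ), -(m : ℤ)} ?_ y hy]
    · rw [Finset.sum_insert (by rw [Finset.mem_singleton]; omega), Finset.sum_singleton]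
      simp only [true_or, or_true, if_true]
      ring
    · intro k hk x
      simp only [Finset.mem_insert, Finset.mem_singleton, not_or] at hk
      simp [hk.1, hk.2]
  rw [hval z hz, hval (ρ * z) (mul_ne_zero hρ0 hz)]
  have hn : ‖ρ * z‖ = ‖z‖ := by rw [norm_mul, hρ, one_mul]
  rw [hn]
  set w := z / (‖z‖ : ℂ) with hw
  have hww : ρ * z / (‖z‖ : ℂ) = ρ * w := by rw [hw]; ring
  rw [hww]
  have hwn : ‖w‖ = 1 := w_norm z hz
  rw [mul_zpow, mul_zpow]
  have h1 : ρ ^ (m : ℤ) = I := by rw [zpow_natCast]; exact hρm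
  have h2 : ρ ^ (-(m : ℤ)) = -I := by rw [zpow_neg, h1, Complex.inv_I]
  rw [h1, h2, norm_mul, norm_mul, Complex.norm_real, Real.norm_of_nonneg (Real.exp_pos _).le]
  have h3 : I * w ^ (m : ℤ) + -I * w ^ (-(m : ℤ)) = I * (w ^ (m : ℤ) - w ^ (-(m : ℤ))) := by ring
  rw [h3, norm_mul, Complex.norm_I, one_mul, mul_pow, mul_pow, ← mul_add]
  have h4 := parallelogram_law_with_norm ℝ (w ^ (m : ℤ)) (w ^ (-(m : ℤ)))
  have h5 : ‖w ^ (m : ℤ)‖ = 1 := by rw [norm_zpow, hwn, one_zpow]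
  have h6 : ‖w ^ (-(m : ℤ))‖ = 1 := by rw [norm_zpow, hwn, one_zpow]
  rw [h5, h6] at h4
  rw [mul_comm]
  congr 1
  rw [sq, sq]
  linarith

/-- norms of the perturbation profile -/
theorem Pm_props : ∃ c C : ℝ, 0 < c ∧ 0 < C ∧ ∀ m : ℕ, 40 ≤ m →
    ∃ (P' : ℂ → ℂ →L[ℝ] ℂ) (Cm : ℝ), (∀ z, HasFDerivAt (Pm m) (P' z) z) ∧ Continuous P' ∧
      (∀ z, ‖Pm m z‖ ≤ Cm / (1 + ‖z‖) ^ 4) ∧ (∀ z, ‖P' z‖ ≤ Cm / (1 + ‖z‖) ^ 4) ∧
      ENNReal.ofReal c ≤ ∫⁻ z : ℂ, ‖Pm m z‖ₑ ^ 2 ∧
      ∫⁻ z : ℂ, ‖(P' z 1 + I * P' z I) / 2‖ₑ ^ 2 ≤ ENNReal.ofReal (C * (m : ℝ) ^ 2) := by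
  set J : ℝ := ∫ z : ℂ, (1 + ‖z‖) ^ (-(4 : ℝ)) with hJ
  have hJi : Integrable (fun z : ℂ => (1 + ‖z‖) ^ (-(4 : ℝ))) := by
    refine integrable_one_add_norm ?_
    rw [Complex.finrank_real_complex]
    norm_num
  have hJ0 : 0 ≤ J := integral_nonneg fun z => by positivity
  set B : Set ℂ := Metric.ball (3 / 2 : ℂ) (1 / 2) with hB
  have hBpos : 0 < volume B := Metric.measure_ball_pos _ _ (by norm_num)
  have hBfin : volume B ≠ ⊤ := measure_ball_lt_top.ne
  have hBr : 0 < (volume B).toReal := ENNReal.toReal_pos hBpos.ne' hBfin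
  set e0 : ℝ := 4 * Real.exp (-(2 * Real.cosh (Real.log 2))) ^ 2 with he0
  have he0p : 0 < e0 := by positivity
  refine ⟨e0 * (volume B).toReal / 2, 864 ^ 2 * J + 1, by positivity, by positivity, ?_⟩
  intro m hm
  obtain ⟨P', C, p1, p2, p3, p4, p5, p6, p7⟩ := static_pack _ (Pm_RDt m hm)
  refine ⟨P', C, p1, p2, p4, p5, ?_, ?_⟩
  · -- lower bound
    have hPc : Continuous (Pm m) := continuous_iff_continuousAt.2 fun z => (p1 z).continuousAt
    have hm0 : (m : ℂ) ≠ 0 := by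
      have : m ≠ 0 := by omega
      exact_mod_cast this
    set θ : ℝ := Real.pi / (2 * m) with hθ
    set ρ : Circle := Circle.exp θ with hρ
    have hρm : (ρ : ℂ) ^ m = I := by
      rw [hρ, Circle.coe_exp, ← Complex.exp_nat_mul]
      have : (m : ℂ) * ((θ : ℂ) * I) = (Real.pi : ℂ) / 2 * I := by
        rw [hθ]
        push_cast
        field_simp
      rw [this, Complex.exp_pi_div_two_mul_I]
    have hmp : MeasurePreserving (rotation ρ) (volume : Measure ℂ) volume :=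
      (rotation ρ).measurePreserving
    have hrot : ∫⁻ z : ℂ, ‖Pm m ((ρ : ℂ) * z)‖ₑ ^ 2 = ∫⁻ z : ℂ, ‖Pm m z‖ₑ ^ 2 := by
      have := hmp.lintegral_comp (f := fun z => ‖Pm m z‖ₑ ^ 2)
        ((hPc.enorm.measurable).pow_const 2)
      rw [← this]
      rfl
    have hsum : ENNReal.ofReal e0 * volume B ≤
        (∫⁻ z : ℂ, ‖Pm m z‖ₑ ^ 2) + ∫⁻ z : ℂ, ‖Pm m ((ρ : ℂ) * z)‖ₑ ^ 2 := by
      rw [← lintegral_add_left ((hPc.enorm.measurable).pow_const 2)]
      calc ENNReal.ofReal e0 * volume B = ∫⁻ _z in B, ENNReal.ofReal e0 := by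
            rw [setLIntegral_const]
        _ ≤ ∫⁻ z in B, (‖Pm m z‖ₑ ^ 2 + ‖Pm m ((ρ : ℂ) * z)‖ₑ ^ 2) := by
            refine setLIntegral_mono' measurableSet_ball fun z hz => ?_
            rw [hB, Metric.mem_ball, dist_eq_norm] at hz
            have hn32 : ‖(3 / 2 : ℂ)‖ = 3 / 2 := by
              rw [show (3 / 2 : ℂ) = ((3 / 2 : ℝ) : ℂ) by push_cast; ring, Complex.norm_real,
                Real.norm_of_nonneg (by norm_num)]
            have hz1 : 1 < ‖z‖ := by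
              have := norm_sub_norm_le (3 / 2 : ℂ) z
              rw [hn32, norm_sub_rev] at this
              linarith
            have hz2 : ‖z‖ < 2 := by
              have := norm_sub_norm_le z (3 / 2 : ℂ)
              rw [hn32] at this
              linarith
            have hz0 : z ≠ 0 := by
              intro h
              rw [h, norm_zero] at hz1
              linarith
            have hs := Pm_sym m hm (ρ : ℂ) z (Circle.norm_coe ρ) hρm hz0
            have hlog : |Real.log ‖z‖| ≤ |Real.log 2| := by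
              rw [abs_of_nonneg (Real.log_nonneg hz1.le), abs_of_nonneg (Real.log_nonneg (by norm_num))]
              exact Real.log_le_log (by linarith) hz2.le
            have hcosh : Real.cosh (Real.log ‖z‖) ≤ Real.cosh (Real.log 2) :=
              Real.cosh_le_cosh.2 hlog
            have hle : e0 ≤ ‖Pm m z‖ ^ 2 + ‖Pm m ((ρ : ℂ) * z)‖ ^ 2 := by
              rw [hs, he0]
              gcongr
            have h1 : ∀ y : ℂ, ‖y‖ₑ ^ 2 = ENNReal.ofReal (‖y‖ ^ 2) := by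
              intro y
              rw [ENNReal.ofReal_pow (norm_nonneg _), ofReal_norm_eq_enorm]
            rw [h1, h1, ← ENNReal.ofReal_add (by positivity) (by positivity)]
            exact ENNReal.ofReal_le_ofReal hle
        _ ≤ ∫⁻ z, (‖Pm m z‖ₑ ^ 2 + ‖Pm m ((ρ : ℂ) * z)‖ₑ ^ 2) := setLIntegral_le_lintegral _ _
    rw [hrot, ← two_mul] at hsum
    have h2 : ENNReal.ofReal (e0 * (volume B).toReal / 2) = (ENNReal.ofReal e0 * volume B) / 2 := by
      rw [ENNReal.ofReal_div_of_pos (by norm_num), ENNReal.ofReal_mul he0p.le,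
        ENNReal.ofReal_toReal hBfin]
      norm_num
    rw [h2]
    rw [ENNReal.div_le_iff (by norm_num) (by norm_num)]
    exact hsum.trans (le_of_eq (mul_comm _ _))
  · -- upper bound
    have hpt : ∀ z : ℂ, ‖(P' z 1 + I * P' z I) / 2‖ₑ ^ 2 ≤
        ENNReal.ofReal ((864 * m) ^ 2 * (1 + ‖z‖) ^ (-(4 : ℝ))) := by
      intro z
      rw [p3]
      have hb := Pm_dzb_bound m hm z
      rw [← ofReal_norm_eq_enorm, ← ENNReal.ofReal_pow (norm_nonneg _)]
      refine ENNReal.ofReal_le_ofReal ?_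
      refine (pow_le_pow_left₀ (norm_nonneg _) hb 2).trans (le_of_eq ?_)
      rw [Real.rpow_neg (by positivity), show (4 : ℝ) = ((4 : ℕ) : ℝ) by norm_num,
        Real.rpow_natCast, div_pow, ← pow_mul]
      rw [div_eq_mul_inv]
    refine (lintegral_mono hpt).trans ?_
    rw [← ofReal_integral_eq_lintegral_ofReal (hJi.const_mul _)
      (Filter.Eventually.of_forall fun z => by positivity), integral_const_mul]
    refine ENNReal.ofReal_le_ofReal ?_
    rw [← hJ]
    nlinarith [sq_nonneg (m : ℝ)]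

end JK0

end Pool.Agent.Helper383.NI
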