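import Pool.Agent.Helper383.NI.Defs
import Pool.Agent.Helper383.NI.D0
import Pool.Agent.Helper383.NI.B4
import Pool.Agent.Helper383.NI.E3

open Complex MeasureTheory Set Filter Topology

namespace Pool.Agent.Helper383.NI

open JD0 (E_bound)
open JB4 (Qop_symm Qop_real_bound)
open JE3 (sol_basic sol_Th_decay)

namespace JK1

/-- remaining energy of the sheared perturbation -/
noncomputable def RT (T : ℝ) : ℝ :=
  ∫ x : ℝ, Real.exp (4 * x - 4 * Real.cosh x) / (1 + T ^ 2 * ‖Ob1 (x : ℂ)‖ ^ 2)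

theorem K1_exp_int : Integrable (fun x : ℝ => Real.exp (-|x|)) := by
  have h1 : Integrable (fun x : ℝ => 2 * (1 + x ^ 2)⁻¹) := integrable_inv_one_add_sq.const_mul 2
  refine h1.mono' (by fun_prop) (Eventually.of_forall ?_)
  intro x
  rw [Real.norm_eq_abs, abs_of_pos (Real.exp_pos _), Real.exp_neg]
  have h2 := Real.quadratic_le_exp_of_nonneg (abs_nonneg x)
  rw [sq_abs] at h2
  have h3 : (1 + x ^ 2) / 2 ≤ Real.exp |x| := by
    have := abs_nonneg x
    linarith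
  have h4 : 2 * (1 + x ^ 2)⁻¹ = ((1 + x ^ 2) / 2)⁻¹ := by
    rw [inv_div]; ring
  rw [h4]
  apply inv_anti₀ (by positivity) h3

theorem K1_cosh : ∃ C > 0, ∀ x : ℝ, Real.exp (-Real.cosh x) ≤ C * Real.exp (-(20 * |x|)) := by
  obtain ⟨C, hC, h⟩ := E_bound
  refine ⟨C, hC, fun x => ?_⟩
  have h1 := h (x : ℂ) (by simp [Str])
  rw [Complex.norm_exp, Complex.neg_re, Complex.cosh_ofReal_re, Complex.ofReal_re] at h1
  rw [Real.exp_neg (20 * |x|), ← div_eq_mul_inv, le_div_iff₀ (Real.exp_pos _)]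
  exact h1

theorem K1_int1 : Integrable (fun x : ℝ => Real.exp (4 * x - 4 * Real.cosh x)) := by
  obtain ⟨C, hC, h⟩ := K1_cosh
  refine (K1_exp_int.const_mul (C ^ 4)).mono' (by fun_prop) (Eventually.of_forall ?_)
  intro x
  rw [Real.norm_eq_abs, abs_of_pos (Real.exp_pos _)]
  have h1 : Real.exp (4 * x - 4 * Real.cosh x) = Real.exp (4 * x) * Real.exp (-Real.cosh x) ^ 4 := by
    rw [← Real.exp_nat_mul, ← Real.exp_add]
    congr 1
    push_cast
    ring
  have h2 : Real.exp (-Real.cosh x) ^ 4 ≤ (C * Real.exp (-(20 * |x|))) ^ 4 :=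
    pow_le_pow_left₀ (Real.exp_pos _).le (h x) 4
  rw [h1]
  refine (mul_le_mul_of_nonneg_left h2 (Real.exp_pos _).le).trans ?_
  rw [mul_pow, ← Real.exp_nat_mul, ← mul_assoc, mul_comm (Real.exp (4 * x)), mul_assoc,
    ← Real.exp_add]
  apply mul_le_mul_of_nonneg_left _ (by positivity)
  apply Real.exp_le_exp.mpr
  have := le_abs_self x
  have := abs_nonneg x
  push_cast
  linarith

theorem K1_int2 : Integrable (fun x : ℝ => Real.exp (4 * x - 10 * |x|)) := by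
  refine K1_exp_int.mono' (by fun_prop) (Eventually.of_forall ?_)
  intro x
  rw [Real.norm_eq_abs, abs_of_pos (Real.exp_pos _)]
  apply Real.exp_le_exp.mpr
  have := le_abs_self x
  have := abs_nonneg x
  linarith

theorem K1_Ob1_cont : Continuous (fun x : ℝ => Ob1 (x : ℂ)) := by
  unfold Ob1
  fun_prop

theorem K1_RT_int (T : ℝ) : Integrable
    (fun x : ℝ => Real.exp (4 * x - 4 * Real.cosh x) / (1 + T ^ 2 * ‖Ob1 (x : ℂ)‖ ^ 2)) := by
  refine K1_int1.mono' ?_ (Eventually.of_forall ?_)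
  · apply Continuous.aestronglyMeasurable
    apply Continuous.div (by fun_prop) (by have := K1_Ob1_cont; fun_prop)
    intro x
    positivity
  · intro x
    rw [Real.norm_eq_abs, abs_of_pos (by positivity)]
    apply div_le_self (Real.exp_pos _).le
    have : 0 ≤ T ^ 2 * ‖Ob1 (x : ℂ)‖ ^ 2 := by positivity
    linarith

theorem RT_tendsto : Tendsto RT atTop (𝓝 0) := by
  have h0 : (0 : ℝ) = ∫ _ : ℝ, (0 : ℝ) := by simp
  rw [h0]
  unfold RT
  apply tendsto_integral_filter_of_dominated_convergence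
    (fun x : ℝ => Real.exp (4 * x - 4 * Real.cosh x))
  · exact Eventually.of_forall (fun T => (K1_RT_int T).aestronglyMeasurable)
  · refine Eventually.of_forall (fun T => Eventually.of_forall (fun x => ?_))
    rw [Real.norm_eq_abs, abs_of_pos (by positivity)]
    apply div_le_self (Real.exp_pos _).le
    have : 0 ≤ T ^ 2 * ‖Ob1 (x : ℂ)‖ ^ 2 := by positivity
    linarith
  · exact K1_int1
  · have hae : ∀ᵐ x : ℝ, x ≠ 0 := by
      rw [ae_iff]
      simp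
    filter_upwards [hae] with x hx
    have hpos : 0 < ‖Ob1 (x : ℂ)‖ ^ 2 := by
      apply pow_pos
      rw [norm_pos_iff]
      unfold Ob1
      refine mul_ne_zero (mul_ne_zero (by norm_num) ?_) (Complex.exp_ne_zero _)
      rw [← Complex.ofReal_sinh]
      intro h
      have h1 : Real.sinh x = 0 := by exact_mod_cast h
      exact hx (Real.sinh_eq_zero.mp h1)
    have h1 : Tendsto (fun T : ℝ => 1 + T ^ 2 * ‖Ob1 (x : ℂ)‖ ^ 2) atTop atTop := by
      apply tendsto_atTop_add_const_left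
      exact (tendsto_pow_atTop (by norm_num : (2 : ℕ) ≠ 0)).atTop_mul_const hpos
    exact Tendsto.div_atTop tendsto_const_nhds h1

theorem RT_nonneg (T : ℝ) : 0 ≤ RT T := by
  unfold RT
  apply integral_nonneg
  intro x
  show 0 ≤ Real.exp (4 * x - 4 * Real.cosh x) / (1 + T ^ 2 * ‖Ob1 (x : ℂ)‖ ^ 2)
  positivity

/-- polar coordinates for radial functions -/
theorem K1_polar (G : ℝ → ENNReal) (hG : Measurable G) :
    ∫⁻ z : ℂ, G (Real.log ‖z‖) = ENNReal.ofReal (2 * Real.pi) *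
      ∫⁻ x : ℝ, ENNReal.ofReal (Real.exp (2 * x)) * G x := by
  rw [← Complex.lintegral_comp_polarCoord_symm]
  have h1 : ∫⁻ p : ℝ × ℝ in polarCoord.target, ENNReal.ofReal p.1 •
      G (Real.log ‖(Complex.polarCoord.symm p : ℂ)‖)
      = ∫⁻ p : ℝ × ℝ in (Ioi (0 : ℝ)) ×ˢ (Ioo (-Real.pi) Real.pi),
        ENNReal.ofReal p.1 * G (Real.log p.1) := by
    rw [polarCoord_target]
    apply setLIntegral_congr_fun (measurableSet_Ioi.prod measurableSet_Ioo)
    intro p hp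
    have hp0 : 0 < p.1 := hp.1
    show ENNReal.ofReal p.1 • G (Real.log ‖(Complex.polarCoord.symm p : ℂ)‖)
      = ENNReal.ofReal p.1 * G (Real.log p.1)
    rw [Complex.norm_polarCoord_symm, abs_of_pos hp0, smul_eq_mul]
  rw [h1, Measure.volume_eq_prod, setLIntegral_prod _ (by
    apply Measurable.aemeasurable
    apply Measurable.mul
    · exact ENNReal.measurable_ofReal.comp measurable_fst
    · exact hG.comp (Real.measurable_log.comp measurable_fst))]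
  simp only [lintegral_const, MeasurableSet.univ, Measure.restrict_apply, univ_inter,
    Real.volume_Ioo]
  rw [lintegral_mul_const _ (by
    apply Measurable.mul
    · exact ENNReal.measurable_ofReal
    · exact hG.comp Real.measurable_log), mul_comm]
  congr 1
  · congr 1; ring
  · have h2 := lintegral_image_eq_lintegral_abs_deriv_mul (s := univ) (f := Real.exp)
      (f' := Real.exp) MeasurableSet.univ (fun x _ => (Real.hasDerivAt_exp x).hasDerivWithinAt)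
      Real.exp_injective.injOn (fun r => ENNReal.ofReal r * G (Real.log r))
    rw [image_univ, Real.range_exp] at h2
    rw [h2, setLIntegral_univ]
    apply lintegral_congr
    intro x
    rw [Real.log_exp, abs_of_pos (Real.exp_pos x), ← mul_assoc, ← ENNReal.ofReal_mul (Real.exp_pos x).le,
      ← Real.exp_add]
    congr 3
    ring

theorem K1_Str_open (σ : ℝ) : IsOpen (Str σ) :=
  isOpen_lt (Complex.continuous_im.abs) continuous_const

theorem K1_real_mem (σ : ℝ) (hσ : 0 < σ) (x : ℝ) : (x : ℂ) ∈ Str σ := by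
  show |(x : ℂ).im| < σ
  rw [Complex.ofReal_im, abs_zero]; exact hσ

theorem K1_wt_nonneg (p : ℕ) (k : ℤ) (σ : ℝ) : 0 ≤ wt p k σ := by
  unfold wt; positivity

theorem K1_wt_le (k : ℤ) (σ : ℝ) : wt 3 k σ ≤ wt 2 k σ := by
  unfold wt
  apply div_le_div_of_nonneg_left (Real.exp_pos _).le (by positivity)
  apply pow_le_pow_right₀ _ (by norm_num)
  have := abs_nonneg (k : ℝ)
  linarith

theorem K1_wt_le' (k : ℤ) (σ : ℝ) (hσ : 0 < σ) : wt 2 k σ ≤ 1 / (1 + |(k : ℝ)|) ^ 2 := by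
  unfold wt
  apply div_le_div_of_nonneg_right _ (by positivity)
  rw [Real.exp_le_one_iff]
  have := mul_nonneg hσ.le (abs_nonneg (k : ℝ))
  linarith

theorem K1_sinh (z : ℂ) : ‖Complex.sinh z‖ ≤ Real.exp |z.re| := by
  rw [Complex.sinh, norm_div]
  have h1 : ‖Complex.exp z - Complex.exp (-z)‖ ≤ Real.exp z.re + Real.exp (-z.re) := by
    refine (norm_sub_le _ _).trans ?_
    rw [Complex.norm_exp, Complex.norm_exp, Complex.neg_re]
  have h2 : Real.exp z.re ≤ Real.exp |z.re| := Real.exp_le_exp.mpr (le_abs_self _)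
  have h3 : Real.exp (-z.re) ≤ Real.exp |z.re| := Real.exp_le_exp.mpr (neg_le_abs _)
  rw [Complex.norm_ofNat]
  linarith

theorem K1_hH_norm (m : ℕ) (β : ℂ → ℂ) (w : ℤ → ℂ → ℂ) (k : ℤ) (hk0 : k ≠ 0) (z : ℂ) (R : ℝ)
    (hp : ‖Qop (nk m k) 1 (sg k) β (Ws w k) z‖ ≤ R)
    (hm : ‖Qop (nk m k) (-1) (sg k) β (Ws w k) z‖ ≤ R) :
    ‖hk m β w k z + I * Hk m β w k z‖ ≤ R := by
  unfold hk Gk Hk
  rw [if_neg hk0, if_neg hk0]
  set Q1 := Qop (nk m k) 1 (sg k) β (Ws w k) z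
  set Q2 := Qop (nk m k) (-1) (sg k) β (Ws w k) z
  have hkC : (k : ℂ) ≠ 0 := by exact_mod_cast hk0
  have h1k : 1 ≤ |(k : ℝ)| := by
    have : (1 : ℤ) ≤ |k| := Int.one_le_abs hk0
    exact_mod_cast this
  have hnk : 1 ≤ ‖(k : ℂ)‖ := by
    rw [Complex.norm_intCast]; exact h1k
  have fin : ∀ (Q : ℂ) (c : ℂ), ‖c‖ = 1 → ‖Q‖ ≤ R → ‖c * Q / (k : ℂ)‖ ≤ R := by
    intro Q c hc hQ
    rw [norm_div, norm_mul, hc, one_mul]
    exact (div_le_self (norm_nonneg _) hnk).trans hQ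
  rcases lt_or_gt_of_ne hk0 with hneg | hpos
  · have habs : |(k : ℝ)| = -(k : ℝ) := abs_of_neg (by exact_mod_cast hneg)
    have h2 : I * (k : ℂ) * (-(1 / (2 * (k : ℂ) ^ 2)) * (Q1 + Q2))
        + I * (-(1 / (2 * ((|(k : ℝ)| : ℝ) : ℂ))) * (Q1 - Q2)) = (-I) * Q2 / (k : ℂ) := by
      rw [habs]
      push_cast
      field_simp
      ring
    rw [h2]
    exact fin _ _ (by simp) hm
  · have habs : |(k : ℝ)| = (k : ℝ) := abs_of_pos (by exact_mod_cast hpos)
    have h2 : I * (k : ℂ) * (-(1 / (2 * (k : ℂ) ^ 2)) * (Q1 + Q2))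
        + I * (-(1 / (2 * ((|(k : ℝ)| : ℝ) : ℂ))) * (Q1 - Q2)) = (-I) * Q1 / (k : ℂ) := by
      rw [habs]
      push_cast
      field_simp
      ring
    rw [h2]
    exact fin _ _ (by simp) hp

theorem K1_Q {C0 : ℝ} (hC0p : 0 < C0)
    (hC0 : ∀ z ∈ Str 1, ‖Complex.exp (-Complex.cosh z)‖ ≤ C0 * Real.exp (-(20 * |z.re|)))
    {T : ℝ} {m : ℕ} {Λ σ B : ℝ} (hT : 0 < T) (hm : 40 ≤ m) (hΛ : 1 ≤ Λ)
    (hη : Λ ≤ m) (hσ : 0 < σ) (hσ1 : σ ≤ 1 / 2) (hB : 1 ≤ B) (S : Sol T m Λ σ B)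
    (k : ℤ) (hk0 : k ≠ 0) (ς : ℝ) (hς : ς = 1 ∨ ς = -1) (x : ℝ) :
    ‖Qop (nk m k) ς (sg k) (S.be T) (Ws (S.w T) k) x‖
      ≤ ‖Ws (S.w T) k x‖ / Real.sqrt (1 + ‖S.be T x‖ ^ 2)
        + 120 * (1 + B) * C0 * B * (Λ / m) / (1 + |(k : ℝ)|) ^ 2 * Real.exp (-(5 * |x|)) := by
  have hTI : T ∈ Icc 0 T := ⟨hT.le, le_refl T⟩
  have hgood := S.good T hTI
  have hm0 : (0 : ℝ) < m := by
    have : (0 : ℕ) < m := by omega
    exact_mod_cast this
  have h1k : 1 ≤ |(k : ℝ)| := by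
    have : (1 : ℤ) ≤ |k| := Int.one_le_abs hk0
    exact_mod_cast this
  have hbas := sol_basic T m Λ σ B hT hm hΛ hη hσ hσ1 hB S
  have hsym := hbas.2.2.2.2.2.2.2.1 T hTI
  have hsub : ∀ z ∈ Str σ, z ∈ Str 1 := by
    intro z hz
    have h1 : |z.im| < σ := hz
    show |z.im| < 1
    linarith
  have hW0 := K1_wt_nonneg 3 k σ
  have hW2 := K1_wt_nonneg 2 k σ
  have hWle := K1_wt_le k σ
  have hn : 40 ≤ nk m k := by
    unfold nk
    have h2 : (40 : ℝ) ≤ m := by exact_mod_cast hm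
    nlinarith
  have hQ := Qop_real_bound (nk m k) ς (sg k) σ B (C0 * B * wt 3 k σ) (2 * C0 * B * wt 2 k σ)
    (S.be T) (Ws (S.w T) k) hn hς (by unfold sg; split_ifs; exact Or.inl rfl; exact Or.inr rfl)
    hσ (by linarith) (by positivity) (by positivity) hgood.bd hgood.b0
    (by
      intro x
      have h1 := (hsym (x : ℂ) (K1_real_mem σ hσ x)).1
      rw [Complex.conj_ofReal] at h1
      exact Complex.conj_eq_iff_im.mp h1.symm)
    hgood.b1
    (by
      unfold Ws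
      exact ((Complex.differentiable_cosh.neg.cexp).differentiableOn).mul (hgood.wd k))
    (by
      intro z hz
      unfold Ws
      rw [norm_mul]
      have h1 := hC0 z (hsub z hz)
      have h2 := hgood.w0 k z hz
      have h3 : Real.exp (-(20 * |z.re|)) ≤ Real.exp (-(5 * |z.re|)) := by
        apply Real.exp_le_exp.mpr
        have := abs_nonneg z.re
        linarith
      calc ‖Complex.exp (-Complex.cosh z)‖ * ‖S.w T k z‖
          ≤ (C0 * Real.exp (-(20 * |z.re|))) * (B * wt 3 k σ) :=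
            mul_le_mul h1 h2 (norm_nonneg _) (by positivity)
        _ ≤ (C0 * Real.exp (-(5 * |z.re|))) * (B * wt 3 k σ) := by
            apply mul_le_mul_of_nonneg_right _ (by positivity)
            exact mul_le_mul_of_nonneg_left h3 hC0p.le
        _ = C0 * B * wt 3 k σ * Real.exp (-(5 * |z.re|)) := by ring)
    (by
      intro z hz
      have hd : HasDerivAt (S.w T k) (deriv (S.w T k) z) z :=
        ((hgood.wd k).differentiableAt ((K1_Str_open σ).mem_nhds hz)).hasDerivAt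
      have hd2 : HasDerivAt (fun z => Complex.exp (-Complex.cosh z))
          (Complex.exp (-Complex.cosh z) * (-Complex.sinh z)) z :=
        ((Complex.hasDerivAt_cosh z).neg).cexp
      have hd3 : deriv (Ws (S.w T) k) z = Complex.exp (-Complex.cosh z) * (-Complex.sinh z)
          * S.w T k z + Complex.exp (-Complex.cosh z) * deriv (S.w T k) z := by
        have := (hd2.mul hd).deriv
        exact this
      rw [hd3]
      have h1 := hC0 z (hsub z hz)
      have h2 := hgood.w0 k z hz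
      have h3 := hgood.w1 k z hz
      have h4 := K1_sinh z
      have h5 : ‖Complex.exp (-Complex.cosh z) * (-Complex.sinh z) * S.w T k z
          + Complex.exp (-Complex.cosh z) * deriv (S.w T k) z‖
          ≤ ‖Complex.exp (-Complex.cosh z)‖ * (‖Complex.sinh z‖ * ‖S.w T k z‖
            + ‖deriv (S.w T k) z‖) := by
        refine (norm_add_le _ _).trans ?_
        rw [norm_mul, norm_mul, norm_mul, norm_neg]
        apply le_of_eq
        ring
      have h6 : ‖Complex.sinh z‖ * ‖S.w T k z‖ + ‖deriv (S.w T k) z‖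
          ≤ 2 * Real.exp |z.re| * (B * wt 2 k σ) := by
        have a1 : ‖Complex.sinh z‖ * ‖S.w T k z‖ ≤ Real.exp |z.re| * (B * wt 2 k σ) := by
          apply mul_le_mul h4 _ (norm_nonneg _) (Real.exp_pos _).le
          exact h2.trans (mul_le_mul_of_nonneg_left hWle (by linarith))
        have a2 : ‖deriv (S.w T k) z‖ ≤ Real.exp |z.re| * (B * wt 2 k σ) := by
          refine h3.trans ?_
          apply le_mul_of_one_le_left (by positivity)
          exact Real.one_le_exp (abs_nonneg _)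
        linarith
      refine h5.trans ?_
      calc ‖Complex.exp (-Complex.cosh z)‖ * (‖Complex.sinh z‖ * ‖S.w T k z‖
            + ‖deriv (S.w T k) z‖)
          ≤ (C0 * Real.exp (-(20 * |z.re|))) * (2 * Real.exp |z.re| * (B * wt 2 k σ)) :=
            mul_le_mul h1 h6 (by positivity) (by positivity)
        _ = (2 * C0 * B * wt 2 k σ) * (Real.exp (-(20 * |z.re|)) * Real.exp |z.re|) := by ring
        _ ≤ (2 * C0 * B * wt 2 k σ) * Real.exp (-(5 * |z.re|)) := by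
            apply mul_le_mul_of_nonneg_left _ (by positivity)
            rw [← Real.exp_add]
            apply Real.exp_le_exp.mpr
            have := abs_nonneg z.re
            linarith)
    x
  refine hQ.trans ?_
  apply add_le_add le_rfl
  apply mul_le_mul_of_nonneg_right _ (Real.exp_pos _).le
  have h1 : C0 * B * wt 3 k σ + 2 * C0 * B * wt 2 k σ ≤ 3 * C0 * B * (1 / (1 + |(k : ℝ)|) ^ 2) := by
    have h2 : C0 * B * wt 3 k σ ≤ C0 * B * wt 2 k σ :=
      mul_le_mul_of_nonneg_left hWle (by positivity)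
    have h3 : C0 * B * wt 2 k σ ≤ C0 * B * (1 / (1 + |(k : ℝ)|) ^ 2) :=
      mul_le_mul_of_nonneg_left (K1_wt_le' k σ hσ) (by positivity)
    linarith
  have h4 : (m : ℝ) ≤ nk m k := by
    unfold nk
    exact le_mul_of_one_le_right hm0.le h1k
  have h5 : 0 ≤ 3 * C0 * B * (1 / (1 + |(k : ℝ)|) ^ 2) := by positivity
  calc 40 * (1 + B) * (C0 * B * wt 3 k σ + 2 * C0 * B * wt 2 k σ) / nk m k
      ≤ 40 * (1 + B) * (3 * C0 * B * (1 / (1 + |(k : ℝ)|) ^ 2)) / nk m k := by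
        apply div_le_div_of_nonneg_right _ (by linarith)
        exact mul_le_mul_of_nonneg_left h1 (by positivity)
    _ ≤ 40 * (1 + B) * (3 * C0 * B * (1 / (1 + |(k : ℝ)|) ^ 2)) / m := by
        apply div_le_div_of_nonneg_left (by positivity) hm0 h4
    _ ≤ 40 * (1 + B) * (3 * C0 * B * (1 / (1 + |(k : ℝ)|) ^ 2)) * (Λ / m) := by
        rw [div_eq_mul_one_div]
        apply mul_le_mul_of_nonneg_left _ (by positivity)
        exact div_le_div_of_nonneg_right hΛ hm0.le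
    _ = 120 * (1 + B) * C0 * B * (Λ / m) / (1 + |(k : ℝ)|) ^ 2 := by ring

theorem K1_cu {C0 : ℝ} (hC0p : 0 < C0)
    (hC0 : ∀ z ∈ Str 1, ‖Complex.exp (-Complex.cosh z)‖ ≤ C0 * Real.exp (-(20 * |z.re|)))
    {T : ℝ} {m : ℕ} {Λ σ B : ℝ} (hT : 0 < T) (hm : 40 ≤ m) (hΛ : 1 ≤ Λ)
    (hη : Λ ≤ m) (hσ : 0 < σ) (hσ1 : σ ≤ 1 / 2) (hB : 1 ≤ B) (S : Sol T m Λ σ B)
    (k : ℤ) (hk0 : k ≠ 0) (x : ℝ) :
    ‖S.cu T (m * k) (x : ℂ)‖
      ≤ (if k = 1 then (Λ / m) * Real.exp (2 * x) *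
          (Real.exp (-(2 * Real.cosh x)) / Real.sqrt (1 + ‖S.be T x‖ ^ 2)) else 0)
        + (if k = -1 then (Λ / m) * Real.exp (2 * x) *
          (Real.exp (-(2 * Real.cosh x)) / Real.sqrt (1 + ‖S.be T x‖ ^ 2)) else 0)
        + (Λ / m) * Real.exp (2 * x) * ((C0 * B + 120 * (1 + B) * C0 * B) * (Λ / m)
          * Real.exp (-(5 * |x|))) * (1 / (1 + |(k : ℝ)|) ^ 2) := by
  have hTI : T ∈ Icc 0 T := ⟨hT.le, le_refl T⟩
  have hm0 : (0 : ℝ) < m := by
    have : (0 : ℕ) < m := by omega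
    exact_mod_cast this
  have hmZ : (m : ℤ) ≠ 0 := by
    have : m ≠ 0 := by omega
    exact_mod_cast this
  have hη0 : 0 < Λ / m := by positivity
  have hbas := sol_basic T m Λ σ B hT hm hΛ hη hσ hσ1 hB S
  have hsym := hbas.2.2.2.2.2.2.2.1 T hTI (x : ℂ) (K1_real_mem σ hσ x)
  rw [Complex.conj_ofReal] at hsym
  have hal : (S.al T x).im = 0 := Complex.conj_eq_iff_im.mp hsym.2.2.symm
  have hx1 : (x : ℂ) ∈ Str 1 := K1_real_mem 1 one_pos x
  have hE := hC0 x hx1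
  rw [Complex.norm_exp, Complex.neg_re, Complex.cosh_ofReal_re, Complex.ofReal_re] at hE
  -- the mode
  have hcu : S.cu T (m * k) (x : ℂ) = -((Λ / m : ℝ) : ℂ) * Complex.exp (2 * (x : ℂ))
      * (hk m (S.be T) (S.w T) k x + I * Hk m (S.be T) (S.w T) k x)
      * Complex.exp (-(I * ((m * k : ℤ) : ℂ) * S.al T x)) := by
    unfold Sol.cu
    rw [if_neg (mul_ne_zero hmZ hk0), if_pos (dvd_mul_right _ _), Int.mul_ediv_cancel_left k hmZ]
  have hexp1 : ‖Complex.exp (-(I * ((m * k : ℤ) : ℂ) * S.al T x))‖ = 1 := by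
    have h1 : S.al T x = (((S.al T x).re : ℝ) : ℂ) := by
      apply Complex.ext
      · simp
      · simp [hal]
    rw [h1, Complex.norm_exp]
    have h2 : (-(I * ((m * k : ℤ) : ℂ) * (((S.al T x).re : ℝ) : ℂ))).re = 0 := by
      have h3 : ((m * k : ℤ) : ℂ) = (((m * k : ℤ) : ℝ) : ℂ) := by push_cast; rfl
      rw [h3]
      simp [Complex.mul_re, Complex.mul_im]
    rw [h2, Real.exp_zero]
  have hexp2 : ‖Complex.exp (2 * (x : ℂ))‖ = Real.exp (2 * x) := by
    rw [Complex.norm_exp]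
    congr 1
    simp
  have hnorm : ‖S.cu T (m * k) (x : ℂ)‖ = (Λ / m) * Real.exp (2 * x) *
      ‖hk m (S.be T) (S.w T) k x + I * Hk m (S.be T) (S.w T) k x‖ := by
    rw [hcu, norm_mul, norm_mul, norm_mul, hexp1, hexp2, norm_neg, Complex.norm_real,
      Real.norm_eq_abs, abs_of_pos hη0, mul_one]
  -- size of the profile
  set sq := Real.sqrt (1 + ‖S.be T x‖ ^ 2) with hsq
  have hsq1 : 1 ≤ sq := by
    rw [hsq, Real.one_le_sqrt]
    have := sq_nonneg ‖S.be T x‖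
    linarith
  have hsq0 : 0 < sq := by linarith
  have hw0 : ‖w0 (Λ⁻¹) k (x : ℂ)‖ = (if k = 1 then Real.exp (-Real.cosh x) else 0)
      + (if k = -1 then Real.exp (-Real.cosh x) else 0) := by
    have hee : ‖Complex.exp (-Complex.cosh (x : ℂ))‖ = Real.exp (-Real.cosh x) := by
      rw [Complex.norm_exp, Complex.neg_re, Complex.cosh_ofReal_re]
    unfold w0
    rw [if_neg hk0]
    by_cases h1 : k = 1
    · subst h1
      rw [if_pos (Or.inl rfl), hee]
      norm_num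
    · by_cases h2 : k = -1
      · subst h2
        rw [if_pos (Or.inr rfl), hee]
        norm_num
      · rw [if_neg (by tauto), if_neg h1, if_neg h2, norm_zero, add_zero]
  have hWs : ‖Ws (S.w T) k x‖ ≤ Real.exp (-Real.cosh x) * (((if k = 1 then Real.exp (-Real.cosh x) else 0)
      + (if k = -1 then Real.exp (-Real.cosh x) else 0)) + B * (Λ / m) * wt 3 k σ) := by
    unfold Ws
    rw [norm_mul, Complex.norm_exp, Complex.neg_re, Complex.cosh_ofReal_re]
    apply mul_le_mul_of_nonneg_left _ (Real.exp_pos _).le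
    rw [← hw0]
    have h1 := S.close_w T hTI k x (K1_real_mem σ hσ x)
    have h2 : ‖S.w T k x‖ ≤ ‖w0 (Λ⁻¹) k (x : ℂ)‖ + ‖S.w T k x - w0 (Λ⁻¹) k x‖ := by
      have := norm_add_le (w0 (Λ⁻¹) k (x : ℂ)) (S.w T k x - w0 (Λ⁻¹) k x)
      rwa [add_sub_cancel] at this
    linarith
  have hR := K1_hH_norm m (S.be T) (S.w T) k hk0 x _
    (K1_Q hC0p hC0 hT hm hΛ hη hσ hσ1 hB S k hk0 1 (Or.inl rfl) x)
    (K1_Q hC0p hC0 hT hm hΛ hη hσ hσ1 hB S k hk0 (-1) (Or.inr rfl) x)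
  rw [← hsq] at hR
  rw [hnorm]
  -- bound of the profile divided by the square root
  have hW3 : wt 3 k σ ≤ 1 / (1 + |(k : ℝ)|) ^ 2 := (K1_wt_le k σ).trans (K1_wt_le' k σ hσ)
  have hW30 := K1_wt_nonneg 3 k σ
  have hex : Real.exp (-(20 * |x|)) ≤ Real.exp (-(5 * |x|)) := by
    apply Real.exp_le_exp.mpr
    have := abs_nonneg x
    linarith
  have h2c : Real.exp (-Real.cosh x) * Real.exp (-Real.cosh x) = Real.exp (-(2 * Real.cosh x)) := by
    rw [← Real.exp_add]; congr 1; ring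
  have hdiv : ‖Ws (S.w T) k x‖ / sq ≤
      ((if k = 1 then Real.exp (-(2 * Real.cosh x)) / sq else 0)
      + (if k = -1 then Real.exp (-(2 * Real.cosh x)) / sq else 0))
      + C0 * B * (Λ / m) * Real.exp (-(5 * |x|)) * (1 / (1 + |(k : ℝ)|) ^ 2) := by
    have h1 : ‖Ws (S.w T) k x‖ / sq ≤ (Real.exp (-Real.cosh x) *
      (((if k = 1 then Real.exp (-Real.cosh x) else 0)
      + (if k = -1 then Real.exp (-Real.cosh x) else 0)) + B * (Λ / m) * wt 3 k σ)) / sq :=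
      div_le_div_of_nonneg_right hWs hsq0.le
    refine h1.trans ?_
    rw [mul_add, add_div]
    apply add_le_add
    · apply le_of_eq
      rw [mul_add, add_div]
      congr 1
      · split_ifs
        · rw [h2c]
        · simp
      · split_ifs
        · rw [h2c]
        · simp
    · have h2 : 0 ≤ Real.exp (-Real.cosh x) * (B * (Λ / m) * wt 3 k σ) := by positivity
      refine (div_le_self h2 hsq1).trans ?_
      calc Real.exp (-Real.cosh x) * (B * (Λ / m) * wt 3 k σ)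
          ≤ (C0 * Real.exp (-(5 * |x|))) * (B * (Λ / m) * (1 / (1 + |(k : ℝ)|) ^ 2)) := by
            apply mul_le_mul _ _ (by positivity) (by positivity)
            · exact hE.trans (mul_le_mul_of_nonneg_left hex hC0p.le)
            · exact mul_le_mul_of_nonneg_left hW3 (by positivity)
        _ = C0 * B * (Λ / m) * Real.exp (-(5 * |x|)) * (1 / (1 + |(k : ℝ)|) ^ 2) := by ring
  have hmain : ‖hk m (S.be T) (S.w T) k x + I * Hk m (S.be T) (S.w T) k x‖ ≤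
      ((if k = 1 then Real.exp (-(2 * Real.cosh x)) / sq else 0)
      + (if k = -1 then Real.exp (-(2 * Real.cosh x)) / sq else 0))
      + (C0 * B + 120 * (1 + B) * C0 * B) * (Λ / m) * Real.exp (-(5 * |x|)) *
        (1 / (1 + |(k : ℝ)|) ^ 2) := by
    refine hR.trans ?_
    have e1 : 120 * (1 + B) * C0 * B * (Λ / m) / (1 + |(k : ℝ)|) ^ 2 * Real.exp (-(5 * |x|))
        = 120 * (1 + B) * C0 * B * (Λ / m) * Real.exp (-(5 * |x|)) * (1 / (1 + |(k : ℝ)|) ^ 2) := by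
      ring
    rw [e1]
    have e2 : (C0 * B + 120 * (1 + B) * C0 * B) * (Λ / m) * Real.exp (-(5 * |x|)) *
        (1 / (1 + |(k : ℝ)|) ^ 2) = C0 * B * (Λ / m) * Real.exp (-(5 * |x|)) * (1 / (1 + |(k : ℝ)|) ^ 2)
        + 120 * (1 + B) * C0 * B * (Λ / m) * Real.exp (-(5 * |x|)) * (1 / (1 + |(k : ℝ)|) ^ 2) := by
      ring
    rw [e2]
    linarith
  have hpos : 0 ≤ (Λ / m) * Real.exp (2 * x) := by positivity
  refine (mul_le_mul_of_nonneg_left hmain hpos).trans (le_of_eq ?_)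
  rw [mul_add, mul_add]
  congr 1
  · congr 1
    · split_ifs
      · rfl
      · simp
    · split_ifs
      · rfl
      · simp
  · ring

theorem K1_Zsum : Summable (fun k : ℤ => 1 / (1 + |(k : ℝ)|) ^ 2) := by
  have h1 : Summable (fun n : ℕ => 1 / (1 + (n : ℝ)) ^ 2) := by
    have h2 : Summable (fun n : ℕ => 1 / ((n : ℝ)) ^ 2) := Real.summable_one_div_nat_pow.mpr (by norm_num)
    have h3 := (summable_nat_add_iff 1).mpr h2
    refine h3.congr (fun n => ?_)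
    push_cast
    rw [add_comm (n : ℝ) 1]
  apply Summable.of_nat_of_neg
  · refine h1.congr (fun n => ?_)
    rw [Int.cast_natCast, Nat.abs_cast]
  · refine h1.congr (fun n => ?_)
    rw [Int.cast_neg, abs_neg, Int.cast_natCast, Nat.abs_cast]

/-- the pointwise bound of the perturbation of the velocity -/
theorem K1_point {C0 : ℝ} (hC0p : 0 < C0)
    (hC0 : ∀ z ∈ Str 1, ‖Complex.exp (-Complex.cosh z)‖ ≤ C0 * Real.exp (-(20 * |z.re|)))
    {T : ℝ} {m : ℕ} {Λ σ B K0 : ℝ} (hT : 0 < T) (hm : 40 ≤ m) (hΛ : 1 ≤ Λ)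
    (hη : Λ ≤ m) (hσ : 0 < σ) (hσ1 : σ ≤ 1 / 2) (hB : 1 ≤ B) (S : Sol T m Λ σ B)
    (hK0p : 0 < K0)
    (hK0 : ∀ z ∈ Str σ, ‖S.Th T z‖ ≤ K0 * (Λ / m) * Real.exp (-(10 * |z.re|)))
    (z : ℂ) (hz : z ≠ 0) :
    ‖hc (fun n (x : ℝ) => S.cu T n (x : ℂ)) z / z - vb z‖ ≤
      (Λ / m) * Real.exp (Real.log ‖z‖) *
        (2 * (Real.exp (-(2 * Real.cosh (Real.log ‖z‖))) /
            Real.sqrt (1 + ‖S.be T (Real.log ‖z‖ : ℝ)‖ ^ 2))
          + (K0 + (C0 * B + 120 * (1 + B) * C0 * B) * ∑' k : ℤ, 1 / (1 + |(k : ℝ)|) ^ 2) * (Λ / m)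
            * Real.exp (-(5 * |Real.log ‖z‖|))) := by
  have hm0 : (0 : ℝ) < m := by
    have : (0 : ℕ) < m := by omega
    exact_mod_cast this
  have hmZ : (m : ℤ) ≠ 0 := by
    have : m ≠ 0 := by omega
    exact_mod_cast this
  have hη0 : 0 < Λ / m := by positivity
  have hzn : 0 < ‖z‖ := norm_pos_iff.mpr hz
  set x := Real.log ‖z‖ with hx
  have hex : Real.exp x = ‖z‖ := Real.exp_log hzn
  set u : ℂ := z / ‖z‖ with hu
  have hzC : (‖z‖ : ℂ) ≠ 0 := by exact_mod_cast hzn.ne'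
  have hun : ‖u‖ = 1 := by
    rw [hu, norm_div, Complex.norm_real, norm_norm, div_self hzn.ne']
  set a : ℤ → ℂ := fun k => S.cu T (m * k) (x : ℂ) * u ^ ((m : ℤ) * k) with ha
  set A := (Λ / m) * Real.exp (2 * x) *
          (Real.exp (-(2 * Real.cosh x)) / Real.sqrt (1 + ‖S.be T x‖ ^ 2)) with hA
  set R := (Λ / m) * Real.exp (2 * x) * ((C0 * B + 120 * (1 + B) * C0 * B) * (Λ / m)
          * Real.exp (-(5 * |x|))) with hR
  set Z := ∑' k : ℤ, 1 / (1 + |(k : ℝ)|) ^ 2 with hZ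
  have hA0 : 0 ≤ A := by positivity
  have hR0 : 0 ≤ R := by positivity
  set b : ℤ → ℝ := fun k => (if k = 1 then A else 0) + (if k = -1 then A else 0)
    + R * (1 / (1 + |(k : ℝ)|) ^ 2) with hb
  have hbs : HasSum b (A + A + R * Z) := by
    apply HasSum.add
    · exact (hasSum_ite_eq (1 : ℤ) A).add (hasSum_ite_eq (-1 : ℤ) A)
    · exact K1_Zsum.hasSum.mul_left R
  have hb0 : ∀ k, 0 ≤ b k := by
    intro k
    have h1 : 0 ≤ R * (1 / (1 + |(k : ℝ)|) ^ 2) := by positivity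
    have h2 : (0 : ℝ) ≤ (if k = 1 then A else 0) := by split_ifs <;> [exact hA0; exact le_refl _]
    have h3 : (0 : ℝ) ≤ (if k = -1 then A else 0) := by split_ifs <;> [exact hA0; exact le_refl _]
    show 0 ≤ (if k = 1 then A else 0) + (if k = -1 then A else 0) + R * (1 / (1 + |(k : ℝ)|) ^ 2)
    linarith
  have hab : ∀ k, k ≠ 0 → ‖a k‖ ≤ b k := by
    intro k hk0
    show ‖S.cu T (m * k) (x : ℂ) * u ^ ((m : ℤ) * k)‖ ≤ b k
    rw [norm_mul, norm_zpow, hun, one_zpow, mul_one]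
    exact K1_cu hC0p hC0 hT hm hΛ hη hσ hσ1 hB S k hk0 x
  have has : Summable a := by
    apply Summable.of_norm_bounded_eventually hbs.summable
    have h1 : ({0}ᶜ : Set ℤ) ∈ (cofinite : Filter ℤ) := by
      rw [mem_cofinite, compl_compl]
      exact Set.finite_singleton 0
    filter_upwards [h1] with k hk
    exact hab k hk
  have hsplit := has.tsum_eq_add_tsum_ite 0
  set Sg : ℂ := ∑' k : ℤ, (if k = 0 then 0 else a k) with hSg
  have hSgn : ‖Sg‖ ≤ A + A + R * Z := by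
    apply tsum_of_norm_bounded hbs
    intro k
    split_ifs with h
    · rw [norm_zero]; exact hb0 k
    · exact hab k h
  -- the sum over all modes
  have hhc : hc (fun n (x : ℝ) => S.cu T n (x : ℂ)) z = ∑' k, a k := by
    unfold hc
    rw [if_neg hz]
    have hinj : Function.Injective (fun k : ℤ => (m : ℤ) * k) := by
      intro p q hpq
      exact mul_left_cancel₀ hmZ hpq
    have h1 := hinj.tsum_eq (f := fun n : ℤ => S.cu T n (x : ℂ) * u ^ n) (by
      intro n hn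
      rw [Function.mem_support] at hn
      by_contra hc
      apply hn
      have hn0 : n ≠ 0 := by
        rintro rfl
        exact hc ⟨0, by simp⟩
      have hnd : ¬ (m : ℤ) ∣ n := by
        rintro ⟨k, rfl⟩
        exact hc ⟨k, rfl⟩
      unfold Sol.cu
      rw [if_neg hn0, if_neg hnd, zero_mul])
    exact h1.symm
  have ha0 : a 0 = -(I * Complex.exp (2 * (x : ℂ)) * (Ob x + ((Λ / m : ℝ) : ℂ) * S.Th T x)) := by
    show S.cu T (m * 0) (x : ℂ) * u ^ ((m : ℤ) * 0) = _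
    rw [mul_zero, zpow_zero, mul_one]
    unfold Sol.cu Sol.Om
    rw [if_pos rfl]
  have hvb : vb z = -(I * Complex.exp (2 * (x : ℂ)) * Ob x) / z := by
    unfold vb hc
    rw [if_neg hz, tsum_eq_single (-1 : ℤ) (by
      intro n hn
      show (if n = -1 then -(I * (Real.exp (Real.log ‖z‖) : ℂ) * Ob (Real.log ‖z‖ : ℝ)) else 0)
        * (z / ‖z‖) ^ n = 0
      rw [if_neg hn, zero_mul])]
    show (if (-1 : ℤ) = -1 then -(I * (Real.exp (Real.log ‖z‖) : ℂ) * Ob (Real.log ‖z‖ : ℝ)) else 0)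
        * (z / ‖z‖) ^ (-1 : ℤ) = _
    rw [if_pos rfl, zpow_neg_one, ← hx, inv_div]
    have h1 : Complex.exp (2 * (x : ℂ)) = (Real.exp x : ℂ) * (‖z‖ : ℂ) := by
      rw [← hex, ← Complex.ofReal_mul, ← Real.exp_add, ← two_mul]
      push_cast
      rfl
    rw [h1]
    ring
  have hD : hc (fun n (x : ℝ) => S.cu T n (x : ℂ)) z / z - vb z
      = (-(I * Complex.exp (2 * (x : ℂ)) * (((Λ / m : ℝ) : ℂ) * S.Th T x)) + Sg) / z := by
    rw [hhc, hsplit, ha0, hvb]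
    field_simp
    ring
  rw [hD, norm_div]
  have hTh := hK0 x (K1_real_mem σ hσ x)
  rw [Complex.ofReal_re] at hTh
  have hexp2 : ‖Complex.exp (2 * (x : ℂ))‖ = Real.exp (2 * x) := by
    rw [Complex.norm_exp]
    congr 1
    simp
  have h10 : Real.exp (-(10 * |x|)) ≤ Real.exp (-(5 * |x|)) := by
    apply Real.exp_le_exp.mpr
    have := abs_nonneg x
    linarith
  have hn1 : ‖-(I * Complex.exp (2 * (x : ℂ)) * (((Λ / m : ℝ) : ℂ) * S.Th T x)) + Sg‖
      ≤ Real.exp (2 * x) * ((Λ / m) * (K0 * (Λ / m) * Real.exp (-(5 * |x|)))) + (A + A + R * Z) := by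
    refine (norm_add_le _ _).trans ?_
    apply add_le_add _ hSgn
    rw [norm_neg, norm_mul, norm_mul, norm_mul, Complex.norm_I, one_mul, hexp2, Complex.norm_real,
      Real.norm_eq_abs, abs_of_pos hη0]
    apply mul_le_mul_of_nonneg_left _ (Real.exp_pos _).le
    apply mul_le_mul_of_nonneg_left _ hη0.le
    exact hTh.trans (mul_le_mul_of_nonneg_left h10 (by positivity))
  rw [div_le_iff₀ hzn]
  refine hn1.trans (le_of_eq ?_)
  have h2x : Real.exp (2 * x) = Real.exp x * ‖z‖ := by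
    rw [← hex, ← Real.exp_add, ← two_mul]
  rw [hA, hR, h2x]
  ring

theorem K1_lip (a b δ : ℝ) (ha : 0 ≤ a) (hb : 0 ≤ b) (h : |a - b| ≤ δ) :
    1 / (1 + a ^ 2) ≤ 1 / (1 + b ^ 2) + δ := by
  have h1 : 1 / (1 + a ^ 2) - 1 / (1 + b ^ 2) = (b - a) * ((b + a) / ((1 + a ^ 2) * (1 + b ^ 2))) := by
    field_simp
    ring
  have h2 : (b + a) / ((1 + a ^ 2) * (1 + b ^ 2)) ≤ 1 := by
    rw [div_le_one (by positivity)]
    nlinarith [sq_nonneg (a - 1), sq_nonneg (b - 1), mul_nonneg (sq_nonneg a) (sq_nonneg b)]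
  have h3 : 0 ≤ (b + a) / ((1 + a ^ 2) * (1 + b ^ 2)) := by positivity
  have h4 : (b - a) * ((b + a) / ((1 + a ^ 2) * (1 + b ^ 2))) ≤ |b - a| := by
    calc (b - a) * ((b + a) / ((1 + a ^ 2) * (1 + b ^ 2)))
        ≤ |b - a| * ((b + a) / ((1 + a ^ 2) * (1 + b ^ 2))) :=
          mul_le_mul_of_nonneg_right (le_abs_self _) h3
      _ ≤ |b - a| := mul_le_of_le_one_right (abs_nonneg _) h2
  rw [abs_sub_comm] at h4
  linarith

theorem K1_sq {C0 : ℝ} (hC0p : 0 < C0)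
    (hC0 : ∀ z ∈ Str 1, ‖Complex.exp (-Complex.cosh z)‖ ≤ C0 * Real.exp (-(20 * |z.re|)))
    {T : ℝ} {m : ℕ} {Λ σ B K0 C2 : ℝ} (hT : 0 < T) (hm : 40 ≤ m) (hΛ : 1 ≤ Λ)
    (hη : Λ ≤ m) (hσ : 0 < σ) (hσ1 : σ ≤ 1 / 2) (hB : 1 ≤ B) (S : Sol T m Λ σ B)
    (hK0p : 0 < K0)
    (hK0 : ∀ z ∈ Str σ, ‖S.Th T z‖ ≤ K0 * (Λ / m) * Real.exp (-(10 * |z.re|)))
    (hC2 : C2 = K0 + (C0 * B + 120 * (1 + B) * C0 * B) * ∑' k : ℤ, 1 / (1 + |(k : ℝ)|) ^ 2)
    (z : ℂ) (hz : z ≠ 0) :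
    ‖hc (fun n (x : ℝ) => S.cu T n (x : ℂ)) z / z - vb z‖ ^ 2 ≤
      (Λ / m) ^ 2 * Real.exp (2 * Real.log ‖z‖) *
        (8 * (Real.exp (-(4 * Real.cosh (Real.log ‖z‖))) /
            (1 + T ^ 2 * ‖Ob1 (Real.log ‖z‖ : ℝ)‖ ^ 2))
          + 8 * B * (Λ / m) * Real.exp (-(4 * Real.cosh (Real.log ‖z‖)))
          + 2 * C2 ^ 2 * (Λ / m) ^ 2 * Real.exp (-(10 * |Real.log ‖z‖|))) := by
  have hTI : T ∈ Icc 0 T := ⟨hT.le, le_refl T⟩
  have hm0 : (0 : ℝ) < m := by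
    have : (0 : ℕ) < m := by omega
    exact_mod_cast this
  have hη0 : 0 < Λ / m := by positivity
  have h1 := K1_point hC0p hC0 hT hm hΛ hη hσ hσ1 hB S hK0p hK0 z hz
  rw [← hC2] at h1
  set x := Real.log ‖z‖ with hx
  set P := Real.exp (-(2 * Real.cosh x)) with hP
  set sq := Real.sqrt (1 + ‖S.be T x‖ ^ 2) with hsq
  have hsq2 : sq ^ 2 = 1 + ‖S.be T x‖ ^ 2 := Real.sq_sqrt (by positivity)
  have hsq0 : 0 < sq := Real.sqrt_pos.mpr (by positivity)
  have hP0 : 0 < P := Real.exp_pos _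
  have hP2 : P ^ 2 = Real.exp (-(4 * Real.cosh x)) := by
    rw [hP, ← Real.exp_nat_mul]
    congr 1
    push_cast
    ring
  set Q := C2 * (Λ / m) * Real.exp (-(5 * |x|)) with hQ
  have hQ2 : Q ^ 2 = C2 ^ 2 * (Λ / m) ^ 2 * Real.exp (-(10 * |x|)) := by
    rw [hQ, mul_pow, mul_pow, ← Real.exp_nat_mul]
    congr 2
    push_cast
    ring
  have h2 : ‖hc (fun n (x : ℝ) => S.cu T n (x : ℂ)) z / z - vb z‖ ^ 2
      ≤ ((Λ / m) * Real.exp x * (2 * (P / sq) + Q)) ^ 2 :=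
    pow_le_pow_left₀ (norm_nonneg _) h1 2
  have h3 : ((Λ / m) * Real.exp x * (2 * (P / sq) + Q)) ^ 2
      = (Λ / m) ^ 2 * Real.exp (2 * x) * (2 * (P / sq) + Q) ^ 2 := by
    rw [mul_pow, mul_pow, ← Real.exp_nat_mul]
    congr 3
  have h4 : (2 * (P / sq) + Q) ^ 2 ≤ 8 * (P ^ 2 / sq ^ 2) + 2 * Q ^ 2 := by
    rw [← div_pow]
    nlinarith [sq_nonneg (2 * (P / sq) - Q)]
  -- comparison of the weights
  have h5 : 1 / sq ^ 2 ≤ 1 / (1 + T ^ 2 * ‖Ob1 (x : ℂ)‖ ^ 2) + B * (Λ / m) := by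
    rw [hsq2]
    have h6 : T ^ 2 * ‖Ob1 (x : ℂ)‖ ^ 2 = ‖(T : ℂ) * Ob1 (x : ℂ)‖ ^ 2 := by
      rw [norm_mul, mul_pow, Complex.norm_real, Real.norm_eq_abs, sq_abs]
    rw [h6]
    apply K1_lip _ _ _ (norm_nonneg _) (norm_nonneg _)
    refine (abs_norm_sub_norm_le _ _).trans ?_
    have h7 : S.be T x - (T : ℂ) * Ob1 (x : ℂ) = S.a T x := by
      unfold Sol.be
      ring
    rw [h7]
    exact S.close_a T hTI x (K1_real_mem σ hσ x)
  have h6 : P ^ 2 / sq ^ 2 ≤ P ^ 2 / (1 + T ^ 2 * ‖Ob1 (x : ℂ)‖ ^ 2) + B * (Λ / m) * P ^ 2 := by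
    rw [div_eq_mul_one_div, div_eq_mul_one_div (P ^ 2) (1 + T ^ 2 * ‖Ob1 (x : ℂ)‖ ^ 2)]
    have h7 := mul_le_mul_of_nonneg_left h5 (sq_nonneg P)
    linarith
  refine h2.trans ?_
  rw [h3]
  apply mul_le_mul_of_nonneg_left _ (by positivity)
  rw [← hP2, mul_assoc (2 : ℝ), mul_assoc (2 : ℝ), ← hQ2]
  linarith

/-- energy of the velocity perturbation at time `T` -/
theorem energy_T (T σ B : ℝ) (hT : 1 ≤ T) (hσ : 0 < σ) (hσ1 : σ ≤ 1 / 2) (hB : 1 ≤ B) :
    ∃ K > 0, ∀ (m : ℕ) (Λ : ℝ), 40 ≤ m → 1 ≤ Λ → Λ ≤ m → ∀ S : Sol T m Λ σ B,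
      ∫⁻ z : ℂ, ‖hc (fun n (x : ℝ) => S.cu T n (x : ℂ)) z / z - vb z‖ₑ ^ 2
        ≤ ENNReal.ofReal ((Λ / m) ^ 2 * (200 * RT T + K * (Λ / m))) := by
  have hT0 : 0 < T := by linarith
  have hTI : T ∈ Icc 0 T := ⟨hT0.le, le_refl T⟩
  obtain ⟨C0, hC0p, hE⟩ := E_bound
  have hC0 : ∀ z ∈ Str 1, ‖Complex.exp (-Complex.cosh z)‖ ≤ C0 * Real.exp (-(20 * |z.re|)) := by
    intro z hz
    rw [Real.exp_neg (20 * |z.re|), ← div_eq_mul_inv, le_div_iff₀ (Real.exp_pos _)]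
    exact hE z hz
  obtain ⟨K0, hK0p, hK0⟩ := sol_Th_decay T σ B hT0 hσ hσ1 hB
  set C2 := K0 + (C0 * B + 120 * (1 + B) * C0 * B) * ∑' k : ℤ, 1 / (1 + |(k : ℝ)|) ^ 2 with hC2
  set J1 := ∫ x : ℝ, Real.exp (4 * x - 4 * Real.cosh x) with hJ1
  set J2 := ∫ x : ℝ, Real.exp (4 * x - 10 * |x|) with hJ2
  have hJ1p : 0 ≤ J1 := integral_nonneg (fun x => (Real.exp_pos _).le)
  have hJ2p : 0 ≤ J2 := integral_nonneg (fun x => (Real.exp_pos _).le)
  refine ⟨2 * Real.pi * (8 * B * J1 + 2 * C2 ^ 2 * J2) + 1, by positivity, ?_⟩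
  intro m Λ hm hΛ hη S
  have hm0 : (0 : ℝ) < m := by
    have : (0 : ℕ) < m := by omega
    exact_mod_cast this
  have hη0 : 0 < Λ / m := by positivity
  have hη1 : Λ / m ≤ 1 := by rw [div_le_one hm0]; exact hη
  set G : ℝ → ℝ := fun x => (Λ / m) ^ 2 * Real.exp (2 * x) *
        (8 * (Real.exp (-(4 * Real.cosh x)) / (1 + T ^ 2 * ‖Ob1 (x : ℂ)‖ ^ 2))
          + 8 * B * (Λ / m) * Real.exp (-(4 * Real.cosh x))
          + 2 * C2 ^ 2 * (Λ / m) ^ 2 * Real.exp (-(10 * |x|))) with hG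
  have hGc : Continuous G := by
    have := K1_Ob1_cont
    rw [hG]
    apply Continuous.mul (by fun_prop)
    apply Continuous.add
    · apply Continuous.add
      · apply Continuous.mul continuous_const
        apply Continuous.div (by fun_prop) (by fun_prop)
        intro x
        positivity
      · fun_prop
    · fun_prop
  have hG0 : ∀ x, 0 ≤ G x := by
    intro x
    show 0 ≤ (Λ / m) ^ 2 * Real.exp (2 * x) *
        (8 * (Real.exp (-(4 * Real.cosh x)) / (1 + T ^ 2 * ‖Ob1 (x : ℂ)‖ ^ 2))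
          + 8 * B * (Λ / m) * Real.exp (-(4 * Real.cosh x))
          + 2 * C2 ^ 2 * (Λ / m) ^ 2 * Real.exp (-(10 * |x|)))
    positivity
  have step1 : ∫⁻ z : ℂ, ‖hc (fun n (x : ℝ) => S.cu T n (x : ℂ)) z / z - vb z‖ₑ ^ 2
      ≤ ∫⁻ z : ℂ, ENNReal.ofReal (G (Real.log ‖z‖)) := by
    apply lintegral_mono_ae
    have hae : ∀ᵐ z : ℂ, z ≠ 0 := by
      rw [ae_iff]
      simp
    filter_upwards [hae] with z hz
    rw [← ofReal_norm, ← ENNReal.ofReal_pow (norm_nonneg _)]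
    apply ENNReal.ofReal_le_ofReal
    exact K1_sq hC0p hC0 hT0 hm hΛ hη hσ hσ1 hB S hK0p (hK0 m Λ hm hΛ hη S T hTI) hC2 z hz
  have step2 := K1_polar (fun x => ENNReal.ofReal (G x)) hGc.measurable.ennreal_ofReal
  -- the integrand on the line
  have hexp : ∀ x : ℝ, Real.exp (2 * x) * G x = (Λ / m) ^ 2 *
      (8 * (Real.exp (4 * x - 4 * Real.cosh x) / (1 + T ^ 2 * ‖Ob1 (x : ℂ)‖ ^ 2))
        + 8 * B * (Λ / m) * Real.exp (4 * x - 4 * Real.cosh x)
        + 2 * C2 ^ 2 * (Λ / m) ^ 2 * Real.exp (4 * x - 10 * |x|)) := by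
    intro x
    show Real.exp (2 * x) * ((Λ / m) ^ 2 * Real.exp (2 * x) *
        (8 * (Real.exp (-(4 * Real.cosh x)) / (1 + T ^ 2 * ‖Ob1 (x : ℂ)‖ ^ 2))
          + 8 * B * (Λ / m) * Real.exp (-(4 * Real.cosh x))
          + 2 * C2 ^ 2 * (Λ / m) ^ 2 * Real.exp (-(10 * |x|)))) = _
    have e1 : Real.exp (4 * x - 4 * Real.cosh x)
        = Real.exp (2 * x) * Real.exp (2 * x) * Real.exp (-(4 * Real.cosh x)) := by
      rw [← Real.exp_add, ← Real.exp_add]; congr 1; ring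
    have e2 : Real.exp (4 * x - 10 * |x|)
        = Real.exp (2 * x) * Real.exp (2 * x) * Real.exp (-(10 * |x|)) := by
      rw [← Real.exp_add, ← Real.exp_add]; congr 1; ring
    rw [e1, e2]
    ring
  have hi1 := (K1_RT_int T).const_mul 8
  have hi2 := K1_int1.const_mul (8 * B * (Λ / m))
  have hi3 := K1_int2.const_mul (2 * C2 ^ 2 * (Λ / m) ^ 2)
  have hint : Integrable (fun x : ℝ => Real.exp (2 * x) * G x) := by
    have := ((hi1.add hi2).add hi3).const_mul ((Λ / m) ^ 2)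
    refine this.congr (Eventually.of_forall (fun x => ?_))
    exact (hexp x).symm
  have hval : ∫ x : ℝ, Real.exp (2 * x) * G x = (Λ / m) ^ 2 *
      (8 * RT T + 8 * B * (Λ / m) * J1 + 2 * C2 ^ 2 * (Λ / m) ^ 2 * J2) := by
    rw [integral_congr_ae (Eventually.of_forall hexp), integral_const_mul]
    congr 1
    have e1 : ∫ x : ℝ, (8 * (Real.exp (4 * x - 4 * Real.cosh x) / (1 + T ^ 2 * ‖Ob1 (x : ℂ)‖ ^ 2))
        + 8 * B * (Λ / m) * Real.exp (4 * x - 4 * Real.cosh x)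
        + 2 * C2 ^ 2 * (Λ / m) ^ 2 * Real.exp (4 * x - 10 * |x|))
        = (∫ x : ℝ, (8 * (Real.exp (4 * x - 4 * Real.cosh x) / (1 + T ^ 2 * ‖Ob1 (x : ℂ)‖ ^ 2))
        + 8 * B * (Λ / m) * Real.exp (4 * x - 4 * Real.cosh x)))
        + ∫ x : ℝ, 2 * C2 ^ 2 * (Λ / m) ^ 2 * Real.exp (4 * x - 10 * |x|) :=
      integral_add (hi1.add hi2) hi3
    rw [e1, integral_add hi1 hi2, integral_const_mul, integral_const_mul, integral_const_mul]
    rfl
  have step3 : ∫⁻ x : ℝ, ENNReal.ofReal (Real.exp (2 * x)) * ENNReal.ofReal (G x)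
      = ENNReal.ofReal (∫ x : ℝ, Real.exp (2 * x) * G x) := by
    rw [ofReal_integral_eq_lintegral_ofReal hint
      (Eventually.of_forall (fun x => mul_nonneg (Real.exp_pos _).le (hG0 x)))]
    apply lintegral_congr
    intro x
    rw [← ENNReal.ofReal_mul (Real.exp_pos _).le]
  refine step1.trans ?_
  rw [step2, step3, ← ENNReal.ofReal_mul (by positivity)]
  apply ENNReal.ofReal_le_ofReal
  rw [hval]
  have hRT := RT_nonneg T
  have hpi : Real.pi ≤ 4 := Real.pi_le_four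
  have hpi0 := Real.pi_pos
  have f1 : 2 * Real.pi * (8 * RT T) ≤ 200 * RT T := by nlinarith
  have f2 : 2 * Real.pi * (8 * B * (Λ / m) * J1) = (2 * Real.pi * (8 * B * J1)) * (Λ / m) := by ring
  have f3 : 2 * Real.pi * (2 * C2 ^ 2 * (Λ / m) ^ 2 * J2)
      ≤ (2 * Real.pi * (2 * C2 ^ 2 * J2)) * (Λ / m) := by
    have g1 : (Λ / m) ^ 2 ≤ Λ / m := by nlinarith
    have g2 : 0 ≤ 2 * Real.pi * (2 * C2 ^ 2 * J2) := by positivity
    calc 2 * Real.pi * (2 * C2 ^ 2 * (Λ / m) ^ 2 * J2)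
        = (2 * Real.pi * (2 * C2 ^ 2 * J2)) * (Λ / m) ^ 2 := by ring
      _ ≤ _ := mul_le_mul_of_nonneg_left g1 g2
  have f4 : 2 * Real.pi * (8 * RT T + 8 * B * (Λ / m) * J1 + 2 * C2 ^ 2 * (Λ / m) ^ 2 * J2)
      ≤ 200 * RT T + (2 * Real.pi * (8 * B * J1 + 2 * C2 ^ 2 * J2) + 1) * (Λ / m) := by
    have g3 : 2 * Real.pi * (8 * RT T + 8 * B * (Λ / m) * J1 + 2 * C2 ^ 2 * (Λ / m) ^ 2 * J2)
      = 2 * Real.pi * (8 * RT T) + 2 * Real.pi * (8 * B * (Λ / m) * J1)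
        + 2 * Real.pi * (2 * C2 ^ 2 * (Λ / m) ^ 2 * J2) := by ring
    rw [g3, f2]
    linarith
  calc 2 * Real.pi * ((Λ / m) ^ 2 *
      (8 * RT T + 8 * B * (Λ / m) * J1 + 2 * C2 ^ 2 * (Λ / m) ^ 2 * J2))
      = (Λ / m) ^ 2 * (2 * Real.pi *
        (8 * RT T + 8 * B * (Λ / m) * J1 + 2 * C2 ^ 2 * (Λ / m) ^ 2 * J2)) := by ring
    _ ≤ _ := mul_le_mul_of_nonneg_left f4 (by positivity)

end JK1

end Pool.Agent.Helper383.NI
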