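import Pool.Agent.Helper383.NI.Defs
import Pool.Agent.Helper383.NI.E3

open Complex MeasureTheory Set Filter Topology

namespace Pool.Agent.Helper383.NI

open JE3 (sol_basic sol_Th_decay)

namespace JK2

theorem wsum7545 : Summable (fun k : ℤ => 1 / (1 + |(k : ℝ)|) ^ 3) ∧
    ∑' k : ℤ, 1 / (1 + |(k : ℝ)|) ^ 3 ≤ 4 := by
  have h2 : HasSum (fun n : ℕ => 1 / ((n : ℝ) + 1) ^ 2) (Real.pi ^ 2 / 6) := by
    have := (hasSum_nat_add_iff' 1).2 hasSum_zeta_two
    simpa using this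
  have hle : ∀ n : ℕ, 1 / (1 + |(((n : ℤ)) : ℝ)|) ^ 3 ≤ 1 / ((n : ℝ) + 1) ^ 2 := by
    intro n
    have h0 : (0 : ℝ) ≤ n := Nat.cast_nonneg n
    have e1 : |(((n : ℤ)) : ℝ)| = n := by simp
    rw [e1]
    apply one_div_le_one_div_of_le (by positivity)
    have : (1:ℝ) ≤ 1 + n := by linarith
    nlinarith [sq_nonneg (1 + (n:ℝ))]
  have hle' : ∀ n : ℕ, 1 / (1 + |(((-((n : ℤ) + 1) : ℤ)) : ℝ)|) ^ 3 ≤ 1 / ((n : ℝ) + 1) ^ 2 := by
    intro n
    have h0 : (0 : ℝ) ≤ n := Nat.cast_nonneg n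
    have e1 : |(((-((n : ℤ) + 1) : ℤ)) : ℝ)| = n + 1 := by
      push_cast
      rw [abs_neg, abs_of_nonneg (by positivity)]
    rw [e1]
    apply one_div_le_one_div_of_le (by positivity)
    nlinarith [sq_nonneg (1 + (n:ℝ)), pow_pos (show (0:ℝ) < 1 + n by positivity) 3]
  have hs3 : Summable (fun n : ℕ => 1 / (1 + |(((n : ℤ)) : ℝ)|) ^ 3) :=
    Summable.of_nonneg_of_le (fun n => by positivity) hle h2.summable
  have hs4 : Summable (fun n : ℕ => 1 / (1 + |(((-((n : ℤ) + 1) : ℤ)) : ℝ)|) ^ 3) :=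
    Summable.of_nonneg_of_le (fun n => by positivity) hle' h2.summable
  have h := HasSum.of_nat_of_neg_add_one (f := fun k : ℤ => 1 / (1 + |(k : ℝ)|) ^ 3)
    hs3.hasSum hs4.hasSum
  refine ⟨h.summable, ?_⟩
  rw [h.tsum_eq]
  have h3 := hs3.tsum_le_tsum hle h2.summable
  have h4 := hs4.tsum_le_tsum hle' h2.summable
  rw [h2.tsum_eq] at h3 h4
  have hpi : Real.pi ^ 2 ≤ 12 := by nlinarith [Real.pi_lt_d2, Real.pi_pos]
  linarith

theorem expint7545 : Integrable (fun z : ℂ => Real.exp (-‖z‖)) := by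
  have h1 : Integrable (fun z : ℂ => (1 + ‖z‖) ^ (-(3 : ℝ))) :=
    integrable_one_add_norm (by simp [Complex.finrank_real_complex]; norm_num)
  refine (h1.const_mul (6 * Real.exp 1)).mono' (by fun_prop) ?_
  refine Filter.Eventually.of_forall (fun z => ?_)
  have h0 : 0 ≤ ‖z‖ := norm_nonneg z
  rw [Real.norm_of_nonneg (Real.exp_pos _).le]
  rw [Real.rpow_neg (by positivity)]
  have h3 : (1 + ‖z‖) ^ (3 : ℝ) = (1 + ‖z‖) ^ (3 : ℕ) := by
    rw [← Real.rpow_natCast]; norm_num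
  rw [h3]
  have h4 := Real.pow_div_factorial_le_exp (1 + ‖z‖) (by positivity) 3
  have h5 : (Nat.factorial 3 : ℝ) = 6 := by norm_num [Nat.factorial]
  rw [h5, Real.exp_add] at h4
  rw [Real.exp_neg, ← div_eq_mul_inv, ← one_div, div_le_div_iff₀ (Real.exp_pos _) (by positivity)]
  linarith

theorem ptwise7545 (T : ℝ) (m : ℕ) (Λ σ B : ℝ) (hT : 0 < T) (hm : 40 ≤ m) (hΛ : 1 ≤ Λ)
    (hη : B * Λ ≤ m) (hσ : 0 < σ) (hσ1 : σ ≤ 1 / 2) (hB : 1 ≤ B) (S : Sol T m Λ σ B)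
    (t : ℝ) (ht : t ∈ Icc 0 T) (z : ℂ) (hz : z ≠ 0) :
    ‖S.om t z - wb z‖ ≤ 7 * Λ * Real.exp (-(Real.cosh (Real.log ‖z‖))) := by
  have hΛm : Λ ≤ m := by nlinarith
  have hm0 : (0 : ℝ) < m := by
    have : (40 : ℝ) ≤ m := by exact_mod_cast hm
    linarith
  have hmz : (m : ℤ) ≠ 0 := by
    have : 0 < m := by omega
    exact_mod_cast this.ne'
  obtain ⟨-, -, -, -, -, -, -, hsym, -⟩ := sol_basic T m Λ σ B hT hm hΛ hΛm hσ hσ1 hB S
  generalize hx : Real.log ‖z‖ = x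
  have hxs : (x : ℂ) ∈ Str σ := by simp [Str, hσ]
  have hal : (S.al t (x : ℂ)).im = 0 := by
    have h1 := (hsym t ht x hxs).2.2
    rw [Complex.conj_ofReal] at h1
    exact Complex.conj_eq_iff_im.1 h1.symm
  have he : ‖z / (‖z‖ : ℂ)‖ = 1 := by
    rw [norm_div, Complex.norm_real, norm_norm]
    exact div_self (norm_ne_zero_iff.2 hz)
  have hcosh : ‖Complex.exp (-Complex.cosh (x : ℂ))‖ = Real.exp (-Real.cosh x) := by
    rw [Complex.norm_exp, ← Complex.ofReal_cosh]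
    simp
  have hBm : B * (Λ / m) ≤ 1 := by
    rw [← mul_div_assoc, div_le_one hm0]; exact hη
  have hwt : ∀ k : ℤ, wt 3 k σ ≤ 1 / (1 + |(k : ℝ)|) ^ 3 := by
    intro k
    unfold wt
    gcongr
    rw [Real.exp_le_one_iff]
    have : 0 ≤ σ * |(k : ℝ)| := by positivity
    linarith
  have hwt0 : ∀ k : ℤ, 0 ≤ wt 3 k σ := by
    intro k
    unfold wt
    positivity
  have hclose : ∀ k : ℤ, ‖S.w t k x - w0 (Λ⁻¹) k x‖ ≤ 1 / (1 + |(k : ℝ)|) ^ 3 := by
    intro k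
    refine (S.close_w t ht k x hxs).trans ?_
    calc B * (Λ / m) * wt 3 k σ ≤ 1 * wt 3 k σ := mul_le_mul_of_nonneg_right hBm (hwt0 k)
      _ ≤ _ := by rw [one_mul]; exact hwt k
  set e : ℂ := z / (‖z‖ : ℂ) with hedef
  have hepow : ∀ n : ℤ, ‖e ^ n‖ = 1 := by
    intro n; rw [norm_zpow, he, one_zpow]
  set G : ℤ → ℂ := fun n => (if n = 0 then Obw (x : ℂ) else 0) * e ^ n with hG
  set F : ℤ → ℂ := fun n => S.cw t n (x : ℂ) * e ^ n with hF
  set D : ℤ → ℂ := fun n => F n - G n with hD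
  have hwb : wb z = ∑' n, G n := by
    simp only [wb, hc, if_neg hz, hx, hG, hedef]
  have hom : S.om t z = ∑' n, F n := by
    simp only [Sol.om, hc, if_neg hz, hx, hF, hedef]
  -- bound for D (m k)
  set cc : ℤ → ℝ := fun k => (if k = 1 then 1 else 0) + (if k = -1 then 1 else 0) with hcc
  have hcc0 : ∀ k, 0 ≤ cc k := by
    intro k; simp only [hcc]; positivity
  have hDb : ∀ k : ℤ, ‖D (m * k)‖ ≤
      Λ * Real.exp (-Real.cosh x) * (cc k + 1 / (1 + |(k : ℝ)|) ^ 3) := by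
    intro k
    have hdvd : (m : ℤ) ∣ m * k := dvd_mul_right _ _
    have hdiv : (m : ℤ) * k / m = k := Int.mul_ediv_cancel_left k hmz
    by_cases hk : k = 0
    · subst hk
      have e1 : D (m * 0) = Λ * Complex.exp (-Complex.cosh x) * (S.w t 0 x - w0 (Λ⁻¹) 0 x) := by
        have hΛ0 : (Λ : ℂ) ≠ 0 := by
          have : Λ ≠ 0 := by positivity
          exact_mod_cast this
        simp only [hD, hF, hG, Sol.cw, Ws, mul_zero, dvd_zero, if_true, Int.zero_ediv, zpow_zero,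
          mul_one, w0, Int.cast_zero, zero_mul, neg_zero, Complex.exp_zero]
        rw [mul_sub]
        push_cast
        have h2 : (Λ : ℂ) * Complex.exp (-Complex.cosh x) *
            ((Λ : ℂ)⁻¹ * (Complex.exp (Complex.cosh x) * Obw x)) = Obw x := by
          rw [Complex.exp_neg]
          have := Complex.exp_ne_zero (Complex.cosh x)
          field_simp
        rw [h2]
        ring
      rw [e1, norm_mul, norm_mul, hcosh, Complex.norm_real, Real.norm_of_nonneg (by positivity)]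
      refine mul_le_mul_of_nonneg_left ?_ (by positivity)
      exact (hclose 0).trans (le_add_of_nonneg_left (hcc0 0))
    · have hmk : (m : ℤ) * k ≠ 0 := mul_ne_zero hmz hk
      have e1 : D (m * k) = Λ * (Complex.exp (-Complex.cosh x) * S.w t k x) *
          Complex.exp (-(I * ((m * k : ℤ) : ℂ) * S.al t x)) * e ^ ((m : ℤ) * k) := by
        simp only [hD, hF, hG, Sol.cw, Ws, if_neg hmk, if_pos hdvd, hdiv, zero_mul, sub_zero]
      have e2 : ‖Complex.exp (-(I * ((m * k : ℤ) : ℂ) * S.al t x))‖ = 1 := by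
        rw [Complex.norm_exp, Real.exp_eq_one_iff]
        have e3 : ((m * k : ℤ) : ℂ) = (((m * k : ℤ) : ℝ) : ℂ) := by push_cast; rfl
        rw [e3]
        generalize (((m * k : ℤ) : ℝ)) = N
        simp [Complex.mul_re, Complex.mul_im, hal]
      rw [e1, norm_mul, norm_mul, hepow, mul_one, e2, mul_one, norm_mul, norm_mul, hcosh,
        Complex.norm_real, Real.norm_of_nonneg (by positivity), mul_assoc]
      refine mul_le_mul_of_nonneg_left ?_ (by positivity)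
      refine mul_le_mul_of_nonneg_left ?_ (by positivity)
      have h3 : ‖w0 (Λ⁻¹) k x‖ ≤ cc k := by
        simp only [w0, if_neg hk, hcc]
        have h4 : ‖Complex.exp (-Complex.cosh (x : ℂ))‖ ≤ 1 := by
          rw [hcosh, Real.exp_le_one_iff]
          linarith [Real.cosh_pos x]
        rcases eq_or_ne k 1 with h | h
        · subst h; simp at h4 ⊢; exact h4
        · rcases eq_or_ne k (-1) with h' | h'
          · subst h'; simp at h4 ⊢; exact h4
          · simp [h, h']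
      have h5 : ‖S.w t k x‖ ≤ ‖w0 (Λ⁻¹) k x‖ + ‖S.w t k x - w0 (Λ⁻¹) k x‖ := by
        have := norm_add_le (w0 (Λ⁻¹) k x) (S.w t k x - w0 (Λ⁻¹) k x)
        simpa using this
      linarith [hclose k]
  have hD0 : ∀ n : ℤ, n ∉ Set.range (fun k : ℤ => (m : ℤ) * k) → D n = 0 := by
    intro n hn
    have h1 : ¬ (m : ℤ) ∣ n := by
      rintro ⟨k, hk⟩
      exact hn ⟨k, hk.symm⟩
    have h2 : n ≠ 0 := by
      rintro rfl
      exact h1 (dvd_zero _)
    simp only [hD, hF, hG, Sol.cw, if_neg h1, if_neg h2, zero_mul, sub_zero]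
  have hinj : Function.Injective (fun k : ℤ => (m : ℤ) * k) := by
    intro a b hab
    exact mul_left_cancel₀ hmz hab
  have hccs : HasSum cc 2 := by
    have h1 := (hasSum_ite_eq (1 : ℤ) (1 : ℝ)).add (hasSum_ite_eq (-1 : ℤ) (1 : ℝ))
    have h2 : (1 : ℝ) + 1 = 2 := by norm_num
    rw [h2] at h1
    exact h1
  have hmaj : Summable (fun k : ℤ => Λ * Real.exp (-Real.cosh x) *
      (cc k + 1 / (1 + |(k : ℝ)|) ^ 3)) :=
    (hccs.summable.add wsum7545.1).mul_left _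
  have hDs' : Summable (fun k : ℤ => ‖D (m * k)‖) :=
    Summable.of_nonneg_of_le (fun _ => norm_nonneg _) hDb hmaj
  have hDs : Summable D := (hinj.summable_iff hD0).1 hDs'.of_norm
  have hGs : Summable G := by
    refine summable_of_ne_finset_zero (s := {0}) (fun n hn => ?_)
    simp only [Finset.mem_singleton] at hn
    simp only [hG, if_neg hn, zero_mul]
  have hFs : Summable F := by
    have : F = fun n => D n + G n := by funext n; simp [hD]
    rw [this]; exact hDs.add hGs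
  have hsub : S.om t z - wb z = ∑' n, D n := by
    rw [hom, hwb, ← hFs.tsum_sub hGs]
  have hre : ∑' n, D n = ∑' k : ℤ, D (m * k) := by
    refine (hinj.tsum_eq (f := D) ?_).symm
    intro n hn
    by_contra h
    exact hn (hD0 n h)
  rw [hsub, hre]
  calc ‖∑' k : ℤ, D (m * k)‖ ≤ ∑' k : ℤ, ‖D (m * k)‖ := norm_tsum_le_tsum_norm hDs'
    _ ≤ ∑' k : ℤ, Λ * Real.exp (-Real.cosh x) * (cc k + 1 / (1 + |(k : ℝ)|) ^ 3) :=
        hDs'.tsum_le_tsum hDb hmaj
    _ = Λ * Real.exp (-Real.cosh x) * (2 + ∑' k : ℤ, 1 / (1 + |(k : ℝ)|) ^ 3) := by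
        rw [tsum_mul_left, hccs.summable.tsum_add wsum7545.1, hccs.tsum_eq]
    _ ≤ Λ * Real.exp (-Real.cosh x) * 7 := by
        refine mul_le_mul_of_nonneg_left ?_ (by positivity)
        linarith [wsum7545.2]
    _ = 7 * Λ * Real.exp (-Real.cosh x) := by ring

/-- closeness of the vorticity to the base vorticity -/
theorem enstrophy_close : ∃ C0 > 0, ∀ (T : ℝ) (m : ℕ) (Λ σ B : ℝ), 0 < T → 40 ≤ m → 1 ≤ Λ →
    B * Λ ≤ m → 0 < σ → σ ≤ 1 / 2 → 1 ≤ B → ∀ S : Sol T m Λ σ B, ∀ t ∈ Icc 0 T,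
      (∀ z : ℂ, z ≠ 0 →
        ‖S.om t z - wb z‖ ≤ 7 * Λ * Real.exp (-(Real.cosh (Real.log ‖z‖)))) ∧
      ∫⁻ z : ℂ, ‖S.om t z - wb z‖ₑ ^ 2 ≤ ENNReal.ofReal (C0 * Λ ^ 2) := by
  have hIn : 0 ≤ ∫ z : ℂ, Real.exp (-‖z‖) := integral_nonneg (fun z => (Real.exp_pos _).le)
  refine ⟨49 * (∫ z : ℂ, Real.exp (-‖z‖)) + 1, by positivity, ?_⟩
  intro T m Λ σ B hT hm hΛ hη hσ hσ1 hB S t ht
  have hpt := ptwise7545 T m Λ σ B hT hm hΛ hη hσ hσ1 hB S t ht
  refine ⟨hpt, ?_⟩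
  have hb : ∀ z : ℂ, ‖S.om t z - wb z‖ₑ ^ 2 ≤ ENNReal.ofReal (49 * Λ ^ 2 * Real.exp (-‖z‖)) := by
    intro z
    rcases eq_or_ne z 0 with rfl | hz
    · have : S.om t 0 - wb 0 = 0 := by simp [Sol.om, wb, hc]
      rw [this]; simp
    · have h1 := hpt z hz
      have hr : 0 < ‖z‖ := norm_pos_iff.2 hz
      rw [← ofReal_norm_eq_enorm, ← ENNReal.ofReal_pow (norm_nonneg _)]
      apply ENNReal.ofReal_le_ofReal
      have h2 : ‖S.om t z - wb z‖ ^ 2 ≤ (7 * Λ * Real.exp (-(Real.cosh (Real.log ‖z‖)))) ^ 2 :=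
        pow_le_pow_left₀ (norm_nonneg _) h1 2
      refine h2.trans ?_
      rw [mul_pow, ← Real.exp_nat_mul]
      have h3 : Real.cosh (Real.log ‖z‖) = (‖z‖ + ‖z‖⁻¹) / 2 := Real.cosh_log hr
      rw [h3]
      have h4 : ((2 : ℕ) : ℝ) * -((‖z‖ + ‖z‖⁻¹) / 2) ≤ -‖z‖ := by
        have : 0 < ‖z‖⁻¹ := inv_pos.2 hr
        push_cast
        linarith
      have h5 := Real.exp_le_exp.2 h4
      have h6 : (7 * Λ) ^ 2 = 49 * Λ ^ 2 := by ring
      rw [h6]
      exact mul_le_mul_of_nonneg_left h5 (by positivity)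
  calc ∫⁻ z : ℂ, ‖S.om t z - wb z‖ₑ ^ 2
      ≤ ∫⁻ z : ℂ, ENNReal.ofReal (49 * Λ ^ 2 * Real.exp (-‖z‖)) := lintegral_mono hb
    _ = ENNReal.ofReal (∫ z : ℂ, 49 * Λ ^ 2 * Real.exp (-‖z‖)) := by
        rw [ofReal_integral_eq_lintegral_ofReal (expint7545.const_mul _)
          (Filter.Eventually.of_forall (fun z => by positivity))]
    _ ≤ ENNReal.ofReal ((49 * (∫ z : ℂ, Real.exp (-‖z‖)) + 1) * Λ ^ 2) := by
        apply ENNReal.ofReal_le_ofReal
        rw [integral_const_mul]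
        nlinarith [sq_nonneg Λ]

end JK2

end Pool.Agent.Helper383.NI
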