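import Pool.Agent.Helper383.NI.Defs
import Pool.Agent.Helper383.NI.D0
import Pool.Agent.Helper383.NI.D1
import Pool.Agent.Helper383.NI.D2
import Pool.Agent.Helper383.NI.E1
import Pool.Agent.Helper383.NI.E2
import Pool.Agent.Helper383.NI.E3
import Pool.Agent.Helper383.NI.E4
import Pool.Agent.Helper383.NI.F1
import Pool.Agent.Helper383.NI.G1
import Pool.Agent.Helper383.NI.G2
import Pool.Agent.Helper383.NI.G3
import Pool.Agent.Helper383.NI.G4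
import Pool.Agent.Helper383.NI.F2
import Pool.Agent.Helper383.NI.F3
import Pool.Agent.Helper383.NI.CA
import Pool.Agent.Helper383.NI.CB
import Pool.Agent.Helper383.NI.CC
import Pool.Agent.Helper383.NI.H1

open Complex MeasureTheory Set Filter Topology

namespace Pool.Agent.Helper383.NI

open JD0 (E_bound)
open JD1 (GH_est)
open JD2 (N_est)
open JE1 (GH_ode)
open JE2 (N_identities)
open JE3 (sol_basic sol_Th_decay)
open JE4 (modes_real)
open JF1 (modes_RDt)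
open JG1 (RDt_dz)
open JG2 (hc_fderiv_ne hc_fderiv)
open JG3 (hc_decay hc_schwartz)
open JG4 (hc_cont hc_time)
open JF2 (V_props)
open JF3 (transport vort_real)
open JCA (CT_deriv CT_decay)
open JCB (CT_smooth CT_time CT_unique)
open JCC (CT_cont deriv_mean_zero)
open JH1 (pressure_exists)

namespace JL1

theorem h170_dfm_apply (A B w : ℂ) : dfm A B w = A * w + B * (starRingEnd ℂ) w := by
  simp [dfm]

theorem h170_dfm_dz (A B : ℂ) : (dfm A B 1 - I * dfm A B I) / 2 = A := by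
  rw [h170_dfm_apply, h170_dfm_apply, map_one, Complex.conj_I]
  have h : I * I = -1 := Complex.I_mul_I
  linear_combination (-A / 2 + B / 2) * h

theorem h170_dfm_dzb (A B : ℂ) : (dfm A B 1 + I * dfm A B I) / 2 = B := by
  rw [h170_dfm_apply, h170_dfm_apply, map_one, Complex.conj_I]
  have h : I * I = -1 := Complex.I_mul_I
  linear_combination (A / 2 - B / 2) * h

theorem h170_dfm_norm (A B : ℂ) : ‖dfm A B‖ ≤ ‖A‖ + ‖B‖ := by
  refine ContinuousLinearMap.opNorm_le_bound _ (by positivity) ?_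
  intro w
  rw [h170_dfm_apply]
  refine (norm_add_le _ _).trans ?_
  rw [norm_mul, norm_mul, RCLike.norm_conj]
  exact le_of_eq (by ring)

theorem h170_dfm_smul (a A B : ℂ) : a • dfm A B = dfm (a * A) (a * B) := by
  ext w
  simp [dfm]
  ring

theorem h170_dfm_contOn {X : Type} [TopologicalSpace X] {s : Set X} {A B : X → ℂ}
    (hA : ContinuousOn A s) (hB : ContinuousOn B s) : ContinuousOn (fun x => dfm (A x) (B x)) s := by
  unfold dfm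
  exact (hA.smul continuousOn_const).add (hB.smul continuousOn_const)

theorem h170_dfm_cont {X : Type} [TopologicalSpace X] {A B : X → ℂ}
    (hA : Continuous A) (hB : Continuous B) : Continuous (fun x => dfm (A x) (B x)) := by
  unfold dfm
  exact (hA.smul continuous_const).add (hB.smul continuous_const)

theorem h170_pow_le (C : ℝ) (hC : 0 ≤ C) (z : ℂ) (a b : ℕ) (hab : a ≤ b) :
    C / (1 + ‖z‖) ^ b ≤ C / (1 + ‖z‖) ^ a := by
  have h1 : 0 ≤ ‖z‖ := norm_nonneg z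
  have h2 : (1 + ‖z‖) ^ a ≤ (1 + ‖z‖) ^ b := pow_le_pow_right₀ (by linarith) hab
  exact div_le_div_of_nonneg_left hC (by positivity) h2

/-- integrability from decay -/
theorem h170_int4 {E : Type} [NormedAddCommGroup E] (C : ℝ) (f : ℂ → E) (hf : AEStronglyMeasurable f)
    (hb : ∀ z, ‖f z‖ ≤ C / (1 + ‖z‖) ^ 4) : Integrable f := by
  have h1 : Integrable (fun z : ℂ => (1 + ‖z‖) ^ (-(4:ℝ))) := by
    refine integrable_one_add_norm ?_
    rw [Complex.finrank_real_complex]; norm_num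
  have h2 := h1.const_mul C
  refine Integrable.mono' h2 hf (Filter.Eventually.of_forall fun z => ?_)
  refine (hb z).trans (le_of_eq ?_)
  have h3 : 0 ≤ 1 + ‖z‖ := by positivity
  rw [Real.rpow_neg h3, div_eq_mul_inv]
  congr 2
  norm_cast

theorem h170_l2 {E : Type} [NormedAddCommGroup E] (C : ℝ) (f : ℂ → E) (hf : AEStronglyMeasurable f)
    (hb : ∀ z, ‖f z‖ ≤ C / (1 + ‖z‖) ^ 2) : MemLp f 2 := by
  rw [memLp_two_iff_integrable_sq_norm hf]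
  refine h170_int4 (C ^ 2) _ ((continuous_pow 2).comp_aestronglyMeasurable hf.norm) ?_
  intro z
  have h1 : 0 ≤ ‖f z‖ := norm_nonneg _
  rw [Real.norm_of_nonneg (by positivity)]
  calc ‖f z‖ ^ 2 ≤ (C / (1 + ‖z‖) ^ 2) ^ 2 := pow_le_pow_left₀ h1 (hb z) 2
    _ = C ^ 2 / (1 + ‖z‖) ^ 4 := by rw [div_pow, ← pow_mul]

section fam

variable {T : ℝ} {c : ℝ → ℤ → ℝ → ℂ}

theorem h170_hc_cont (h : RDt T c) (t : ℝ) (ht : t ∈ Icc 0 T) : Continuous (hc (c t)) := by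
  rw [continuous_iff_continuousAt]
  intro z
  exact (hc_fderiv T c h t ht z).continuousAt

theorem h170_g'_cont (h : RDt T c) (t : ℝ) (ht : t ∈ Icc 0 T) :
    Continuous (fun z => dfm (hc (dz (c t)) z) (hc (dzb (c t)) z)) := by
  obtain ⟨h1, h2⟩ := RDt_dz T c h
  exact h170_dfm_cont (h170_hc_cont h1 t ht) (h170_hc_cont h2 t ht)

theorem h170_bounds (h : RDt T c) : ∃ C : ℝ, 0 < C ∧ ∀ t ∈ Icc 0 T, ∀ z : ℂ,
    ‖hc (c t) z‖ ≤ C / (1 + ‖z‖) ^ 4 ∧ ‖hc (dz (c t)) z‖ ≤ C / (1 + ‖z‖) ^ 4 ∧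
    ‖dfm (hc (dz (c t)) z) (hc (dzb (c t)) z)‖ ≤ C / (1 + ‖z‖) ^ 4 := by
  obtain ⟨h1, h2⟩ := RDt_dz T c h
  obtain ⟨C0, hC0, b0⟩ := hc_decay T c h 4
  obtain ⟨C1, hC1, b1⟩ := hc_decay T _ h1 4
  obtain ⟨C2, hC2, b2⟩ := hc_decay T _ h2 4
  refine ⟨C0 + C1 + C2, by positivity, ?_⟩
  intro t ht z
  have a0 := (b0 t ht z).1
  have a1 := (b1 t ht z).1
  have a2 := (b2 t ht z).1
  have p0 : 0 ≤ C0 / (1 + ‖z‖) ^ 4 := by positivity
  have p1 : 0 ≤ C1 / (1 + ‖z‖) ^ 4 := by positivity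
  have p2 : 0 ≤ C2 / (1 + ‖z‖) ^ 4 := by positivity
  have e : (C0 + C1 + C2) / (1 + ‖z‖) ^ 4 = C0 / (1 + ‖z‖) ^ 4 + C1 / (1 + ‖z‖) ^ 4 + C2 / (1 + ‖z‖) ^ 4 := by
    ring
  rw [e]
  refine ⟨by linarith, by linarith, ?_⟩
  have := h170_dfm_norm (hc (dz (c t)) z) (hc (dzb (c t)) z)
  linarith

theorem h170_CT_fderiv (h : RDt T c) (t : ℝ) (ht : t ∈ Icc 0 T) (z : ℂ) :
    HasFDerivAt (CT (hc (c t))) (dfm (CT (hc (dz (c t))) z) (hc (c t) z)) z := by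
  obtain ⟨C, hC, hb⟩ := h170_bounds h
  have h1 := (CT_deriv (hc (c t)) (fun z => dfm (hc (dz (c t)) z) (hc (dzb (c t)) z)) C
    (hc_fderiv T c h t ht) (h170_g'_cont h t ht) (fun z => (hb t ht z).1) (fun z => (hb t ht z).2.2)).2.1 z
  have e : (fun y => (dfm (hc (dz (c t)) y) (hc (dzb (c t)) y) 1 - I * dfm (hc (dz (c t)) y) (hc (dzb (c t)) y) I) / 2) =
      hc (dz (c t)) := by
    funext y
    exact h170_dfm_dz _ _
  rw [e] at h1
  exact h1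

theorem h170_CT_cont1 (h : RDt T c) (t : ℝ) (ht : t ∈ Icc 0 T) : Continuous (CT (hc (c t))) := by
  rw [continuous_iff_continuousAt]
  intro z
  exact (h170_CT_fderiv h t ht z).continuousAt

theorem h170_CT_joint (h : RDt T c) :
    ContinuousOn (fun p : ℝ × ℂ => CT (hc (c p.1)) p.2) (Icc 0 T ×ˢ univ) := by
  obtain ⟨C, hC, hb⟩ := hc_decay T c h 4
  exact CT_cont T C (fun t => hc (c t)) (hc_cont T c h) (fun t ht z => (hb t ht z).1)

theorem h170_mean (h : RDt T c) (t : ℝ) (ht : t ∈ Icc 0 T) : (∫ z, hc (dz (c t)) z) = 0 := by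
  obtain ⟨C, hC, hb⟩ := h170_bounds h
  have hcg := h170_g'_cont h t ht
  have m1 := fun a => deriv_mean_zero (hc (c t)) (fun z => dfm (hc (dz (c t)) z) (hc (dzb (c t)) z)) C
    (hc_fderiv T c h t ht) hcg (fun z => (hb t ht z).1) (fun z => (hb t ht z).2.2) a
  have hi : ∀ a : ℂ, ‖a‖ ≤ 1 → Integrable (fun z => dfm (hc (dz (c t)) z) (hc (dzb (c t)) z) a) := by
    intro a ha
    refine h170_int4 C _ (hcg.clm_apply continuous_const).aestronglyMeasurable ?_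
    intro z
    have h1 := (hb t ht z).2.2
    calc ‖dfm (hc (dz (c t)) z) (hc (dzb (c t)) z) a‖ ≤ ‖dfm (hc (dz (c t)) z) (hc (dzb (c t)) z)‖ * ‖a‖ :=
          ContinuousLinearMap.le_opNorm _ _
      _ ≤ ‖dfm (hc (dz (c t)) z) (hc (dzb (c t)) z)‖ * 1 := mul_le_mul_of_nonneg_left ha (norm_nonneg _)
      _ ≤ _ := by rw [mul_one]; exact h1
  have e : (fun y => hc (dz (c t)) y) =
    (fun y => (dfm (hc (dz (c t)) y) (hc (dzb (c t)) y) 1 - I * dfm (hc (dz (c t)) y) (hc (dzb (c t)) y) I) / 2) := by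
    funext y
    exact (h170_dfm_dz _ _).symm
  have hI : ‖(I : ℂ)‖ ≤ 1 := by rw [Complex.norm_I]
  have h1 : ‖(1 : ℂ)‖ ≤ 1 := by rw [norm_one]
  rw [e, integral_div, integral_sub (hi 1 h1) ((hi I hI).const_mul I), integral_const_mul, m1 1, m1 I]
  simp

theorem h170_CT_dec (h : RDt T c) : ∃ C : ℝ, 0 < C ∧ ∀ t ∈ Icc 0 T, ∀ z : ℂ,
    ‖CT (hc (c t)) z‖ ≤ C / (1 + ‖z‖) ∧ ‖CT (hc (dz (c t))) z‖ ≤ C / (1 + ‖z‖) ^ 2 := by
  obtain ⟨K, hK, hd⟩ := CT_decay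
  obtain ⟨C, hC, hb⟩ := h170_bounds h
  obtain ⟨h1, h2⟩ := RDt_dz T c h
  refine ⟨K * C, by positivity, ?_⟩
  intro t ht z
  exact ⟨(hd (hc (c t)) C (h170_hc_cont h t ht) (fun z => (hb t ht z).1)).1 z,
    (hd (hc (dz (c t))) C (h170_hc_cont h1 t ht) (fun z => (hb t ht z).2.1)).2 (h170_mean h t ht) z⟩

theorem h170_v_fderiv (h : RDt T c) (t : ℝ) (ht : t ∈ Icc 0 T) (z : ℂ) :
    HasFDerivAt (fun z => -(I / 2) * CT (hc (c t)) z)
      (dfm (-(I / 2) * CT (hc (dz (c t))) z) (-(I / 2) * hc (c t) z)) z := by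
  have h1 := (h170_CT_fderiv h t ht z).const_mul (-(I / 2))
  rw [h170_dfm_smul] at h1
  exact h1

end fam

/-- conj as a real-linear map after multiplication by `-(I/2)` -/
noncomputable def h170M : ℂ →L[ℝ] ℂ :=
  (Complex.conjCLE : ℂ →L[ℝ] ℂ).comp (ContinuousLinearMap.mul ℝ ℂ (-(I / 2)))

theorem h170M_apply (w : ℂ) : h170M w = (starRingEnd ℂ) (-(I / 2) * w) := rfl

/-- velocity of a family -/
noncomputable def h170v (c : ℝ → ℤ → ℝ → ℂ) (t : ℝ) (z : ℂ) : ℂ := -(I / 2) * CT (hc (c t)) z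

theorem h170_mulI (w : ℂ) : ‖-(I / 2) * w‖ ≤ ‖w‖ := by
  have hnI : ‖(-(I / 2) : ℂ)‖ ≤ 1 := by
    rw [norm_neg, norm_div, Complex.norm_I]; norm_num
  rw [norm_mul]
  calc ‖(-(I / 2) : ℂ)‖ * ‖w‖ ≤ 1 * ‖w‖ := mul_le_mul_of_nonneg_right hnI (norm_nonneg _)
    _ = _ := one_mul _

section main

variable {T : ℝ} {cw ct : ℝ → ℤ → ℝ → ℂ} {W : ℝ → ℂ → ℂ}

theorem h170_P1 (hcw : RDt T cw)
    (V1 : ∀ t ∈ Icc 0 T, ∀ z : ℂ, z ≠ 0 → ∃ A : ℂ, HasFDerivAt (W t) (dfm A (-(I / 2) * hc (cw t) z)) z)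
    (CV : ℝ) (V2 : ∀ t ∈ Icc 0 T, ∀ z : ℂ, z ≠ 0 → ‖W t z‖ ≤ CV / (1 + ‖z‖) ^ 4)
    (t : ℝ) (ht : t ∈ Icc 0 T) (z : ℂ) (hz : z ≠ 0) : h170v cw t z = W t z := by
  obtain ⟨Cb, hCb, hb⟩ := h170_bounds hcw
  have hC0 : 0 ≤ max Cb |CV| := le_trans (abs_nonneg _) (le_max_right _ _)
  have b1 : ∀ z : ℂ, Cb / (1 + ‖z‖) ^ 4 ≤ max Cb |CV| / (1 + ‖z‖) ^ 4 := fun z =>
    div_le_div_of_nonneg_right (le_max_left _ _) (by positivity)
  have h1 := CT_unique (hc (cw t)) (W t)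
    (fun z => dfm (hc (dz (cw t)) z) (hc (dzb (cw t)) z)) (max Cb |CV|) (hc_fderiv T _ hcw t ht)
    (h170_g'_cont hcw t ht) (fun z => ((hb t ht z).1).trans (b1 z))
    (fun z => ((hb t ht z).2.2).trans (b1 z)) (V1 t ht) (by
      intro y hy
      refine (V2 t ht y hy).trans ?_
      have h2 : CV / (1 + ‖y‖) ^ 4 ≤ max Cb |CV| / (1 + ‖y‖) ^ 4 :=
        div_le_div_of_nonneg_right ((le_abs_self _).trans (le_max_right _ _)) (by positivity)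
      refine h2.trans ?_
      have h3 := h170_pow_le (max Cb |CV|) hC0 y 1 4 (by norm_num)
      rwa [pow_one] at h3) z hz
  unfold h170v
  exact h1.symm

theorem h170_P3 (hcw : RDt T cw)
    (V1 : ∀ t ∈ Icc 0 T, ∀ z : ℂ, z ≠ 0 → ∃ A : ℂ, HasFDerivAt (W t) (dfm A (-(I / 2) * hc (cw t) z)) z)
    (CV : ℝ) (V2 : ∀ t ∈ Icc 0 T, ∀ z : ℂ, z ≠ 0 → ‖W t z‖ ≤ CV / (1 + ‖z‖) ^ 4) :
    ∃ C : ℝ, 0 < C ∧ ∀ t ∈ Icc 0 T, ∀ z, ‖h170v cw t z‖ ≤ C / (1 + ‖z‖) ^ 4 := by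
  obtain ⟨Cc, hCc, hcb⟩ := h170_CT_dec hcw
  refine ⟨Cc + |CV|, by positivity, ?_⟩
  intro t ht z
  by_cases hz : z = 0
  · subst hz
    have h1 := (hcb t ht 0).1
    have h2 := h170_mulI (CT (hc (cw t)) 0)
    unfold h170v
    simp only [norm_zero, add_zero, one_pow, div_one] at h1 ⊢
    have := abs_nonneg CV
    linarith
  · rw [h170_P1 hcw V1 CV V2 t ht z hz]
    refine (V2 t ht z hz).trans ?_
    refine div_le_div_of_nonneg_right ?_ (by positivity)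
    have := le_abs_self CV
    linarith

theorem h170_hsm (hcw : RDt T cw) : ∀ t ∈ Icc 0 T, ContDiff ℝ (⊤ : ℕ∞) (CT (hc (cw t))) ∧
      ∀ n : ℕ, 1 ≤ n → ∃ C : ℝ, ∀ z, ‖iteratedFDeriv ℝ n (CT (hc (cw t))) z‖ ≤ C / (1 + ‖z‖) ^ 2 := by
  intro t ht
  obtain ⟨f, hf⟩ := hc_schwartz T _ hcw t ht
  have h1 := CT_smooth f
  have h2 : (f : ℂ → ℂ) = hc (cw t) := funext hf
  rwa [h2] at h1

theorem h170_husm (hcw : RDt T cw) : ∀ t ∈ Icc 0 T,
    ContDiff ℝ (⊤ : ℕ∞) (fun z => (starRingEnd ℂ) (h170v cw t z)) := by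
  intro t ht
  exact h170M.contDiff.comp (h170_hsm hcw t ht).1

theorem h170_huf (hcw : RDt T cw) : ∀ t ∈ Icc 0 T, ∀ z, HasFDerivAt (fun z => (starRingEnd ℂ) (h170v cw t z))
      ((Complex.conjCLE : ℂ →L[ℝ] ℂ).comp
        (dfm (-(I / 2) * CT (hc (dz (cw t))) z) (-(I / 2) * hc (cw t) z))) z := by
  intro t ht z
  exact (Complex.conjCLE : ℂ →L[ℝ] ℂ).hasFDerivAt.comp z (h170_v_fderiv hcw t ht z)

theorem h170_sob (hcw : RDt T cw) (C : ℝ) (hC0 : 0 ≤ C)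
    (hb : ∀ t ∈ Icc 0 T, ∀ z, ‖h170v cw t z‖ ≤ C / (1 + ‖z‖) ^ 4) (t : ℝ) (ht : t ∈ Icc 0 T) (n : ℕ) :
    MemLp (iteratedFDeriv ℝ n (fun z => (starRingEnd ℂ) (h170v cw t z))) 2 := by
  have hcn : Continuous (iteratedFDeriv ℝ n (fun z => (starRingEnd ℂ) (h170v cw t z))) :=
    (h170_husm hcw t ht).continuous_iteratedFDeriv (by exact_mod_cast le_top)
  rcases Nat.eq_zero_or_pos n with hn | hn
  · subst hn
    refine h170_l2 C _ hcn.aestronglyMeasurable ?_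
    intro z
    rw [norm_iteratedFDeriv_zero, RCLike.norm_conj]
    exact (hb t ht z).trans (h170_pow_le C hC0 z 2 4 (by norm_num))
  · obtain ⟨C', hC'⟩ := (h170_hsm hcw t ht).2 n hn
    refine h170_l2 (‖h170M‖ * C') _ hcn.aestronglyMeasurable ?_
    intro z
    have h1 : ‖iteratedFDeriv ℝ n (h170M ∘ (CT (hc (cw t)))) z‖ ≤
        ‖h170M‖ * ‖iteratedFDeriv ℝ n (CT (hc (cw t))) z‖ :=
      ContinuousLinearMap.norm_iteratedFDeriv_comp_left h170M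
        ((h170_hsm hcw t ht).1.contDiffAt) (by exact_mod_cast le_top)
    refine h1.trans ?_
    rw [mul_div_assoc]
    exact mul_le_mul_of_nonneg_left (hC' z) (norm_nonneg _)

theorem h170_conj_contOn {X : Type} [TopologicalSpace X] {s : Set X} {A B : X → ℂ}
    (hA : ContinuousOn A s) (hB : ContinuousOn B s) :
    ContinuousOn (fun x => (Complex.conjCLE : ℂ →L[ℝ] ℂ).comp (dfm (A x) (B x))) s := by
  have h1 : ContinuousOn (fun x => dfm (A x) (B x)) s := h170_dfm_contOn hA hB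
  have h2 : Continuous (fun M : ℂ →L[ℝ] ℂ => (Complex.conjCLE : ℂ →L[ℝ] ℂ).comp M) :=
    (ContinuousLinearMap.compL ℝ ℂ ℂ ℂ (Complex.conjCLE : ℂ →L[ℝ] ℂ)).continuous
  exact h2.comp_continuousOn h1

theorem h170_contspace (hcw : RDt T cw) :
    ContinuousOn (fun q : ℝ × ℂ => fderiv ℝ (fun z => (starRingEnd ℂ) (h170v cw q.1 z)) q.2) (Icc 0 T ×ˢ univ) := by
  obtain ⟨hcw1, hcw2⟩ := RDt_dz T _ hcw
  have e1 : ContinuousOn (fun q : ℝ × ℂ => CT (hc (dz (cw q.1))) q.2) (Icc 0 T ×ˢ univ) :=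
    h170_CT_joint (c := fun t => dz (cw t)) hcw1
  have e2 : ContinuousOn (fun q : ℝ × ℂ => -(I / 2) * CT (hc (dz (cw q.1))) q.2) (Icc 0 T ×ˢ univ) :=
    ContinuousOn.mul continuousOn_const e1
  have e3 : ContinuousOn (fun q : ℝ × ℂ => hc (cw q.1) q.2) (Icc 0 T ×ˢ univ) := hc_cont T _ hcw
  have e4 : ContinuousOn (fun q : ℝ × ℂ => -(I / 2) * hc (cw q.1) q.2) (Icc 0 T ×ˢ univ) :=
    ContinuousOn.mul continuousOn_const e3
  have h1 := h170_conj_contOn e2 e4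
  refine h1.congr ?_
  intro q hq
  exact (h170_huf hcw q.1 hq.1 q.2).fderiv

theorem h170_dbound (hcw : RDt T cw) : ∃ C : ℝ, 0 < C ∧ ∀ t ∈ Icc 0 T, ∀ z,
    ‖fderiv ℝ (fun z => (starRingEnd ℂ) (h170v cw t z)) z‖ ≤ C / (1 + ‖z‖) ^ 2 := by
  obtain ⟨Cb, hCb, hb⟩ := h170_bounds hcw
  obtain ⟨Cc, hCc, hcb⟩ := h170_CT_dec hcw
  refine ⟨Cc + Cb, by positivity, ?_⟩
  intro t ht z
  rw [(h170_huf hcw t ht z).fderiv]
  have n1 : ‖(Complex.conjCLE : ℂ →L[ℝ] ℂ).comp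
    (dfm (-(I / 2) * CT (hc (dz (cw t))) z) (-(I / 2) * hc (cw t) z))‖ ≤
    ‖dfm (-(I / 2) * CT (hc (dz (cw t))) z) (-(I / 2) * hc (cw t) z)‖ := by
    refine ContinuousLinearMap.opNorm_le_bound _ (norm_nonneg _) ?_
    intro w
    have : ‖((Complex.conjCLE : ℂ →L[ℝ] ℂ).comp
      (dfm (-(I / 2) * CT (hc (dz (cw t))) z) (-(I / 2) * hc (cw t) z))) w‖ =
      ‖dfm (-(I / 2) * CT (hc (dz (cw t))) z) (-(I / 2) * hc (cw t) z) w‖ := by
      rw [ContinuousLinearMap.comp_apply]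
      exact RCLike.norm_conj _
    rw [this]
    exact ContinuousLinearMap.le_opNorm _ _
  have n2 := h170_dfm_norm (-(I / 2) * CT (hc (dz (cw t))) z) (-(I / 2) * hc (cw t) z)
  have n3 := h170_mulI (CT (hc (dz (cw t))) z)
  have n4 := h170_mulI (hc (cw t) z)
  have n5 := (hcb t ht z).2
  have n6 := ((hb t ht z).1).trans (h170_pow_le Cb hCb.le z 2 4 (by norm_num))
  rw [add_div]
  linarith

theorem h170_press (hcw : RDt T cw) (hct : RDt T ct)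
    (hvr : ∀ t ∈ Icc 0 T, ∀ z : ℂ, (hc (cw t) z).im = 0 ∧ (hc (ct t) z).im = 0)
    (htr : ∀ t ∈ Icc 0 T, ∀ z : ℂ, z ≠ 0 → hc (ct t) z + h170v cw t z * hc (dzb (cw t)) z +
      (starRingEnd ℂ) (h170v cw t z * hc (dzb (cw t)) z) = 0) :
    ∀ t ∈ Icc 0 T, ∃ p : ℂ → ℝ, ContDiff ℝ 1 p ∧
      (∀ z, (fderiv ℝ (fun y => (starRingEnd ℂ) (h170v cw t y)) z 1).re
        + (fderiv ℝ (fun y => (starRingEnd ℂ) (h170v cw t y)) z I).im = 0) ∧
      (∀ z, (starRingEnd ℂ) (h170v ct t z)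
        + fderiv ℝ (fun y => (starRingEnd ℂ) (h170v cw t y)) z ((starRingEnd ℂ) (h170v cw t z))
        + gradient p z = 0) := by
  intro t ht
  obtain ⟨hcw1, hcw2⟩ := RDt_dz T _ hcw
  obtain ⟨hct1, hct2⟩ := RDt_dz T _ hct
  have hAc : Continuous (fun z => -(I / 2) * CT (hc (dz (cw t))) z) :=
    continuous_const.mul (h170_CT_cont1 hcw1 t ht)
  have hAct : Continuous (fun z => -(I / 2) * CT (hc (dz (ct t))) z) :=
    continuous_const.mul (h170_CT_cont1 hct1 t ht)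
  obtain ⟨p, hp1, hp2, hp3, -⟩ := pressure_exists (h170v cw t) (h170v ct t)
    (hc (cw t)) (hc (ct t)) (fun z => -(I / 2) * CT (hc (dz (cw t))) z)
    (fun z => -(I / 2) * CT (hc (dz (ct t))) z) (fun z => dfm (hc (dz (cw t)) z) (hc (dzb (cw t)) z))
    (fun z => h170_v_fderiv hcw t ht z) (fun z => h170_v_fderiv hct t ht z) (hc_fderiv T _ hcw t ht) hAc
    hAct (h170_g'_cont hcw t ht) (h170_hc_cont hct t ht)
    (fun z => (hvr t ht z).1) (fun z => (hvr t ht z).2) (by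
      intro z
      rw [h170_dfm_dzb]
      by_cases hz : z = 0
      · subst hz
        have e1 : hc (ct t) 0 = 0 := by unfold hc; rw [if_pos rfl]
        have e2 : hc (dzb (cw t)) 0 = 0 := by unfold hc; rw [if_pos rfl]
        rw [e1, e2, mul_zero, map_zero, add_zero, add_zero]
      · exact htr t ht z hz)
  exact ⟨p, hp1, hp2, hp3⟩

theorem h170_time (hcw : RDt T cw) (hct : RDt T ct)
    (hdt : ∀ t ∈ Icc 0 T, ∀ n, ∀ x : ℝ, HasDerivWithinAt (fun τ => cw τ n x) (ct t n x) (Icc 0 T) t) :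
    ∀ t ∈ Icc 0 T, ∀ z, HasDerivWithinAt (fun τ => (starRingEnd ℂ) (h170v cw τ z))
      ((starRingEnd ℂ) (h170v ct t z)) (Icc 0 T) t := by
  obtain ⟨Cb, hCb, hb⟩ := h170_bounds hcw
  obtain ⟨Cb2, hCb2, hb2⟩ := h170_bounds hct
  have hCTt := CT_time T (max Cb Cb2) (fun t => hc (cw t)) (fun t => hc (ct t)) (hc_cont T _ hcw)
    (hc_cont T _ hct)
    (fun t ht z => ((hb t ht z).1).trans (div_le_div_of_nonneg_right (le_max_left _ _) (by positivity)))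
    (fun t ht z => ((hb2 t ht z).1).trans (div_le_div_of_nonneg_right (le_max_right _ _) (by positivity)))
    (hc_time T _ _ hcw hct hdt)
  intro t ht z
  have h2 := (hCTt.2 t ht z).const_mul (-(I / 2))
  exact ((Complex.conjCLE : ℂ →L[ℝ] ℂ).hasFDerivAt.comp_hasDerivWithinAt t h2)

theorem h170_euler (hcw : RDt T cw) (hct : RDt T ct)
    (hdt : ∀ t ∈ Icc 0 T, ∀ n, ∀ x : ℝ, HasDerivWithinAt (fun τ => cw τ n x) (ct t n x) (Icc 0 T) t)
    (V1 : ∀ t ∈ Icc 0 T, ∀ z : ℂ, z ≠ 0 → ∃ A : ℂ, HasFDerivAt (W t) (dfm A (-(I / 2) * hc (cw t) z)) z)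
    (CV : ℝ) (V2 : ∀ t ∈ Icc 0 T, ∀ z : ℂ, z ≠ 0 → ‖W t z‖ ≤ CV / (1 + ‖z‖) ^ 4)
    (hvr : ∀ t ∈ Icc 0 T, ∀ z : ℂ, (hc (cw t) z).im = 0 ∧ (hc (ct t) z).im = 0)
    (htr : ∀ t ∈ Icc 0 T, ∀ z : ℂ, z ≠ 0 → hc (ct t) z + W t z * hc (dzb (cw t)) z +
      (starRingEnd ℂ) (W t z * hc (dzb (cw t)) z) = 0) :
    ∃ p : ℝ → ℂ → ℝ, IsEulerSolution T (fun t z => (starRingEnd ℂ) (h170v cw t z)) p := by
  have htr' : ∀ t ∈ Icc 0 T, ∀ z : ℂ, z ≠ 0 → hc (ct t) z + h170v cw t z * hc (dzb (cw t)) z +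
      (starRingEnd ℂ) (h170v cw t z * hc (dzb (cw t)) z) = 0 := by
    intro t ht z hz
    rw [h170_P1 hcw V1 CV V2 t ht z hz]
    exact htr t ht z hz
  have hP := h170_press hcw hct hvr htr'
  choose! p hp using hP
  have hmom : ∀ t ∈ Icc 0 T, ∀ z,
      -(fderiv ℝ (fun y => (starRingEnd ℂ) (h170v cw t y)) z ((starRingEnd ℂ) (h170v cw t z))) - gradient (p t) z =
      (starRingEnd ℂ) (h170v ct t z) := by
    intro t ht z
    have h1 := (hp t ht).2.2 z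
    rw [← sub_eq_zero]
    rw [← neg_eq_zero, ← h1]
    abel
  obtain ⟨CC, hCC, P3⟩ := h170_P3 hcw V1 CV V2
  obtain ⟨CD, hCD, P4⟩ := h170_dbound hcw
  have hbd2 : ∀ t ∈ Icc 0 T, ∀ z, ‖(starRingEnd ℂ) (h170v cw t z)‖ ≤ CC / (1 + ‖z‖) ^ 4 := by
    intro t ht z
    rw [RCLike.norm_conj]
    exact P3 t ht z
  refine ⟨p, ⟨h170_husm hcw, ?_, h170_sob hcw CC hCC.le P3, ?_, h170_contspace hcw, ?_, fun t ht => (hp t ht).1,
    fun t ht z => (hp t ht).2.1 z, ?_, ?_⟩⟩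
  · intro t ht
    exact h170_int4 CC _ (h170_husm hcw t ht).continuous.aestronglyMeasurable (hbd2 t ht)
  · have hjv : ContinuousOn (fun q : ℝ × ℂ => h170v cw q.1 q.2) (Icc 0 T ×ˢ univ) :=
      continuousOn_const.mul (h170_CT_joint (c := cw) hcw)
    exact Complex.continuous_conj.comp_continuousOn hjv
  · refine ⟨CC + CD, ?_⟩
    intro t ht z
    have q1 : 0 ≤ CC / (1 + ‖z‖) ^ 2 := by positivity
    have q2 : 0 ≤ CD / (1 + ‖z‖) ^ 2 := by positivity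
    rw [add_div]
    constructor
    · have := (hbd2 t ht z).trans (h170_pow_le CC hCC.le z 2 4 (by norm_num))
      linarith
    · have := P4 t ht z
      linarith
  · intro t ht z
    have h1 := hmom t ht z
    show HasDerivWithinAt (fun τ => (starRingEnd ℂ) (h170v cw τ z))
      (-(fderiv ℝ (fun y => (starRingEnd ℂ) (h170v cw t y)) z ((starRingEnd ℂ) (h170v cw t z))) - gradient (p t) z) (Icc 0 T) t
    rw [h1]
    exact h170_time hcw hct hdt t ht z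
  · have hjv : ContinuousOn (fun q : ℝ × ℂ => h170v ct q.1 q.2) (Icc 0 T ×ˢ univ) :=
      continuousOn_const.mul (h170_CT_joint (c := ct) hct)
    have h1 := Complex.continuous_conj.comp_continuousOn hjv
    refine h1.congr ?_
    intro q hq
    exact hmom q.1 hq.1 q.2

end main

/-- the model solution yields a smooth Euler solution -/
theorem euler_of_sol (T : ℝ) (m : ℕ) (Λ σ B : ℝ) (hT : 0 < T) (hm : 40 ≤ m) (hΛ : 1 ≤ Λ)
    (hη : Λ ≤ m) (hσ : 0 < σ) (hσ1 : σ ≤ 1 / 2) (hB : 1 ≤ B) (S : Sol T m Λ σ B) :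
    (∀ t ∈ Icc 0 T, ∀ z : ℂ, z ≠ 0 →
      S.vel t z = hc (fun n (x : ℝ) => S.cu t n (x : ℂ)) z / z) ∧
    (∀ t ∈ Icc 0 T, ∃ Av : ℂ → ℂ, Continuous Av ∧
      ∀ z, HasFDerivAt (S.vel t) (dfm (Av z) (-(I / 2) * S.om t z)) z) ∧
    (∃ C : ℝ, ∀ t ∈ Icc 0 T, ∀ z, ‖S.vel t z‖ ≤ C / (1 + ‖z‖) ^ 4) ∧
    ∃ p : ℝ → ℂ → ℝ, IsEulerSolution T (fun t z => (starRingEnd ℂ) (S.vel t z)) p := by
  obtain ⟨hcw, hct, hdt⟩ := modes_RDt T m Λ σ B hT hm hΛ hη hσ hσ1 hB S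
  obtain ⟨V1, CV, V2⟩ := V_props T m Λ σ B hT hm hΛ hη hσ hσ1 hB S
  have hvr := vort_real T m Λ σ B hT hm hΛ hη hσ hσ1 hB S
  have htr := transport T m Λ σ B hT hm hΛ hη hσ hσ1 hB S
  obtain ⟨hcw1, hcw2⟩ := RDt_dz T _ hcw
  refine ⟨fun t ht z hz => h170_P1 (W := fun t z => hc (fun n (x : ℝ) => S.cu t n (x : ℂ)) z / z) hcw V1 CV V2 t ht z hz,
    fun t ht => ⟨fun z => -(I / 2) * CT (hc (dz (fun n (x : ℝ) => S.cw t n (x : ℂ)))) z,
      continuous_const.mul (h170_CT_cont1 hcw1 t ht), fun z => h170_v_fderiv hcw t ht z⟩, ?_, ?_⟩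
  · obtain ⟨C, hC, h⟩ := h170_P3 (W := fun t z => hc (fun n (x : ℝ) => S.cu t n (x : ℂ)) z / z) hcw V1 CV V2
    exact ⟨C, h⟩
  · exact h170_euler (W := fun t z => hc (fun n (x : ℝ) => S.cu t n (x : ℂ)) z / z) hcw hct hdt V1 CV V2 hvr htr

end JL1

end Pool.Agent.Helper383.NI
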