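import Pool.Agent.Helper383.NI.Defs

open Complex MeasureTheory Set Filter Topology

namespace Pool.Agent.Helper383.NI


namespace JS1

theorem fou_eq (g : ℂ → ℂ) (ξ : ℂ) :
    FourierTransform.fourier g ξ = ∫ v, Real.fourierChar (-(inner ℝ v ξ)) • g v :=
  Real.fourier_eq g ξ

theorem fou_integrable (g : ℂ → ℂ) (hg : Integrable g) (ξ : ℂ) :
    Integrable (fun v : ℂ => Real.fourierChar (-(inner ℝ v ξ)) • g v) := by
  have := (VectorFourier.fourierIntegral_convergent_iff (μ := (volume : Measure ℂ))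
    (L := innerₗ ℂ) Real.continuous_fourierChar continuous_inner (f := g) ξ).2 hg
  exact this

theorem fou_neg (g : ℂ → ℂ) (ξ : ℂ) :
    FourierTransform.fourier (fun z => -(g z)) ξ = -FourierTransform.fourier g ξ := by
  rw [fou_eq, fou_eq, ← integral_neg]
  simp only [smul_neg]

theorem fou_add (g h : ℂ → ℂ) (hg : Integrable g) (hh : Integrable h) (ξ : ℂ) :
    FourierTransform.fourier (fun z => g z + h z) ξ
      = FourierTransform.fourier g ξ + FourierTransform.fourier h ξ := by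
  rw [fou_eq, fou_eq, fou_eq, ← integral_add (fou_integrable g hg ξ) (fou_integrable h hh ξ)]
  simp only [smul_add]

theorem fou_const_mul (c : ℂ) (g : ℂ → ℂ) (ξ : ℂ) :
    FourierTransform.fourier (fun z => c * g z) ξ = c * FourierTransform.fourier g ξ := by
  rw [fou_eq, fou_eq, ← integral_const_mul]
  congr 1
  ext v
  rw [Circle.smul_def, Circle.smul_def, smul_eq_mul, smul_eq_mul]
  ring

theorem fou_real_neg (r : ℂ → ℝ) (ξ : ℂ) :
    FourierTransform.fourier (fun z => ((r z : ℝ) : ℂ)) (-ξ)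
      = (starRingEnd ℂ) (FourierTransform.fourier (fun z => ((r z : ℝ) : ℂ)) ξ) := by
  rw [fou_eq, fou_eq, ← integral_conj]
  congr 1
  ext v
  rw [Circle.smul_def, Circle.smul_def, smul_eq_mul, smul_eq_mul, map_mul, Complex.conj_ofReal,
    inner_neg_right]
  congr 1
  rw [neg_neg, AddChar.map_neg_eq_inv, Circle.coe_inv_eq_conj, Complex.conj_conj]

theorem fou_cont (g : ℂ → ℂ) (hg : Integrable g) :
    Continuous (FourierTransform.fourier g : ℂ → ℂ) := by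
  have := VectorFourier.fourierIntegral_continuous (μ := (volume : Measure ℂ))
    (L := innerₗ ℂ) Real.continuous_fourierChar continuous_inner hg
  exact this

theorem en_sq (x : ℂ) : ‖x‖ₑ ^ 2 = ENNReal.ofReal (‖x‖ ^ 2) := by
  rw [← ofReal_norm, ENNReal.ofReal_pow (norm_nonneg _)]

theorem par_aux (a b : ℂ) :
    ‖a + I * b‖ ^ 2 + ‖(starRingEnd ℂ) a + I * (starRingEnd ℂ) b‖ ^ 2 = 2 * (‖a‖ ^ 2 + ‖b‖ ^ 2) := by
  rw [Complex.sq_norm, Complex.sq_norm, Complex.sq_norm, Complex.sq_norm]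
  simp only [Complex.normSq_apply, Complex.add_re, Complex.add_im, Complex.mul_re, Complex.mul_im,
    Complex.I_re, Complex.I_im, Complex.conj_re, Complex.conj_im]
  ring

theorem fou_decomp (f : ℂ → ℂ) (hf : Integrable f) (ξ : ℂ) :
    FourierTransform.fourier f ξ = FourierTransform.fourier (fun z : ℂ => ((f z).re : ℂ)) ξ
      + I * FourierTransform.fourier (fun z : ℂ => ((f z).im : ℂ)) ξ := by
  have h1 : Integrable (fun z : ℂ => ((f z).re : ℂ)) := hf.re.ofReal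
  have h2 : Integrable (fun z : ℂ => ((f z).im : ℂ)) := hf.im.ofReal
  rw [← fou_const_mul, ← fou_add _ _ h1 (h2.const_mul I)]
  have h3 : f = fun z : ℂ => ((f z).re : ℂ) + I * ((f z).im : ℂ) := by
    funext z
    rw [mul_comm I, Complex.re_add_im]
  exact congrArg (fun g : ℂ → ℂ => FourierTransform.fourier g ξ) h3

theorem fourier_split (W : ℂ → ENNReal) (hW : Measurable W) (hsymm : ∀ ξ, W (-ξ) = W ξ)
    (f : ℂ → ℂ) (hf : Integrable f) :
    ∫⁻ ξ : ℂ, W ξ * (‖FourierTransform.fourier (fun z : ℂ => ((f z).re : ℂ)) ξ‖ₑ ^ 2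
      + ‖FourierTransform.fourier (fun z : ℂ => ((f z).im : ℂ)) ξ‖ₑ ^ 2)
    = ∫⁻ ξ : ℂ, W ξ * ‖FourierTransform.fourier f ξ‖ₑ ^ 2 := by
  have h1 : Integrable (fun z : ℂ => ((f z).re : ℂ)) := hf.re.ofReal
  have h2 : Integrable (fun z : ℂ => ((f z).im : ℂ)) := hf.im.ofReal
  have hpt : ∀ ξ : ℂ, ‖FourierTransform.fourier f ξ‖ₑ ^ 2 + ‖FourierTransform.fourier f (-ξ)‖ₑ ^ 2
      = 2 * (‖FourierTransform.fourier (fun z : ℂ => ((f z).re : ℂ)) ξ‖ₑ ^ 2
      + ‖FourierTransform.fourier (fun z : ℂ => ((f z).im : ℂ)) ξ‖ₑ ^ 2) := by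
    intro ξ
    rw [fou_decomp f hf ξ, fou_decomp f hf (-ξ), fou_real_neg, fou_real_neg]
    rw [en_sq, en_sq, en_sq, en_sq, ← ENNReal.ofReal_add (by positivity) (by positivity), par_aux,
      ← ENNReal.ofReal_add (by positivity) (by positivity), ENNReal.ofReal_mul (by norm_num)]
    simp
  have hm : Measurable (fun ξ : ℂ => W ξ * ‖FourierTransform.fourier f ξ‖ₑ ^ 2) := by
    refine hW.mul ?_
    exact ((fou_cont f hf).measurable.enorm.pow_const 2)
  have hneg : ∫⁻ ξ : ℂ, W ξ * ‖FourierTransform.fourier f (-ξ)‖ₑ ^ 2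
      = ∫⁻ ξ : ℂ, W ξ * ‖FourierTransform.fourier f ξ‖ₑ ^ 2 := by
    have h := lintegral_map_equiv (μ := (volume : Measure ℂ))
      (fun ξ : ℂ => W ξ * ‖FourierTransform.fourier f ξ‖ₑ ^ 2) (MeasurableEquiv.neg ℂ)
    have hmap : Measure.map (MeasurableEquiv.neg ℂ) (volume : Measure ℂ) = volume := by
      have := (Measure.measurePreserving_neg (volume : Measure ℂ)).map_eq
      exact this
    rw [hmap] at h
    rw [h]
    congr 1
    ext ξ
    simp only [MeasurableEquiv.neg_apply]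
    rw [hsymm]
  have hsum : 2 * ∫⁻ ξ : ℂ, W ξ * (‖FourierTransform.fourier (fun z : ℂ => ((f z).re : ℂ)) ξ‖ₑ ^ 2
      + ‖FourierTransform.fourier (fun z : ℂ => ((f z).im : ℂ)) ξ‖ₑ ^ 2)
      = 2 * ∫⁻ ξ : ℂ, W ξ * ‖FourierTransform.fourier f ξ‖ₑ ^ 2 := by
    rw [← lintegral_const_mul' _ _ (by simp)]
    have : ∀ ξ : ℂ, 2 * (W ξ * (‖FourierTransform.fourier (fun z : ℂ => ((f z).re : ℂ)) ξ‖ₑ ^ 2
      + ‖FourierTransform.fourier (fun z : ℂ => ((f z).im : ℂ)) ξ‖ₑ ^ 2))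
      = W ξ * ‖FourierTransform.fourier f ξ‖ₑ ^ 2 + W ξ * ‖FourierTransform.fourier f (-ξ)‖ₑ ^ 2 := by
      intro ξ
      rw [← mul_add, hpt]
      ring
    simp_rw [this]
    rw [lintegral_add_left hm, hneg, two_mul]
  exact (ENNReal.mul_right_inj (by norm_num) (by simp)).1 hsum

theorem hsq_eq (s : ℝ) (f : ℂ → ℂ) (hf : Integrable f) :
    hsq s f = ∫⁻ ξ : ℂ, ENNReal.ofReal ((1 + ‖ξ‖ ^ 2) ^ s) * ‖FourierTransform.fourier f ξ‖ₑ ^ 2 := by
  unfold hsq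
  refine fourier_split (fun ξ : ℂ => ENNReal.ofReal ((1 + ‖ξ‖ ^ 2) ^ s)) ?_ ?_ f hf
  · refine ENNReal.measurable_ofReal.comp ?_
    exact ((measurable_norm.pow_const 2).const_add 1).pow_const s
  · intro ξ
    simp only [norm_neg]

theorem hdot_eq (s : ℝ) (f : ℂ → ℂ) (hf : Integrable f) :
    hdot s f = ∫⁻ ξ : ℂ, ENNReal.ofReal (‖ξ‖ ^ (2 * s)) * ‖FourierTransform.fourier f ξ‖ₑ ^ 2 := by
  unfold hdot
  refine fourier_split (fun ξ : ℂ => ENNReal.ofReal (‖ξ‖ ^ (2 * s))) ?_ ?_ f hf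
  · refine ENNReal.measurable_ofReal.comp ?_
    exact measurable_norm.pow_const (2 * s)
  · intro ξ
    simp only [norm_neg]

theorem hsq_conj (s : ℝ) (f : ℂ → ℂ) : hsq s (fun z => (starRingEnd ℂ) (f z)) = hsq s f ∧
    hdot s (fun z => (starRingEnd ℂ) (f z)) = hdot s f := by
  have h : ∀ ξ : ℂ, FourierTransform.fourier (fun z : ℂ => ((-(f z).im : ℝ) : ℂ)) ξ
      = -FourierTransform.fourier (fun z : ℂ => ((f z).im : ℂ)) ξ := by
    intro ξ
    rw [← fou_neg]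
    simp only [Complex.ofReal_neg]
  constructor
  · unfold hsq
    simp only [Complex.conj_re, Complex.conj_im, h, enorm_neg]
  · unfold hdot
    simp only [Complex.conj_re, Complex.conj_im, h, enorm_neg]

theorem hsq_neg (s : ℝ) (f : ℂ → ℂ) : hsq s (fun z => -(f z)) = hsq s f ∧
    hdot s (fun z => -(f z)) = hdot s f := by
  have h : ∀ ξ : ℂ, FourierTransform.fourier (fun z : ℂ => ((-(f z).im : ℝ) : ℂ)) ξ
      = -FourierTransform.fourier (fun z : ℂ => ((f z).im : ℂ)) ξ := by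
    intro ξ
    rw [← fou_neg]
    simp only [Complex.ofReal_neg]
  have h' : ∀ ξ : ℂ, FourierTransform.fourier (fun z : ℂ => ((-(f z).re : ℝ) : ℂ)) ξ
      = -FourierTransform.fourier (fun z : ℂ => ((f z).re : ℂ)) ξ := by
    intro ξ
    rw [← fou_neg]
    simp only [Complex.ofReal_neg]
  constructor
  · unfold hsq
    simp only [Complex.neg_re, Complex.neg_im, h, h', enorm_neg]
  · unfold hdot
    simp only [Complex.neg_re, Complex.neg_im, h, h', enorm_neg]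

theorem sq_add_aux (x y : ℂ) : ‖x + y‖ₑ ^ 2 ≤ 2 * ‖x‖ₑ ^ 2 + 2 * ‖y‖ₑ ^ 2 := by
  have h2 : (2 : ENNReal) = ENNReal.ofReal 2 := by simp
  rw [en_sq, en_sq, en_sq, h2, ← ENNReal.ofReal_mul (by norm_num),
    ← ENNReal.ofReal_mul (by norm_num), ← ENNReal.ofReal_add (by positivity) (by positivity)]
  apply ENNReal.ofReal_le_ofReal
  have := norm_add_le x y
  have h1 := norm_nonneg x
  have h2 := norm_nonneg y
  have h3 := norm_nonneg (x + y)
  nlinarith [sq_nonneg (‖x‖ - ‖y‖)]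

theorem add_aux (W : ℂ → ENNReal) (hW : Measurable W) (f g : ℂ → ℂ) (hf : Integrable f)
    (hg : Integrable g) :
    ∫⁻ ξ : ℂ, W ξ * (‖FourierTransform.fourier (fun z : ℂ => ((f z + g z).re : ℂ)) ξ‖ₑ ^ 2
      + ‖FourierTransform.fourier (fun z : ℂ => ((f z + g z).im : ℂ)) ξ‖ₑ ^ 2)
    ≤ 2 * (∫⁻ ξ : ℂ, W ξ * (‖FourierTransform.fourier (fun z : ℂ => ((f z).re : ℂ)) ξ‖ₑ ^ 2
      + ‖FourierTransform.fourier (fun z : ℂ => ((f z).im : ℂ)) ξ‖ₑ ^ 2))
    + 2 * (∫⁻ ξ : ℂ, W ξ * (‖FourierTransform.fourier (fun z : ℂ => ((g z).re : ℂ)) ξ‖ₑ ^ 2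
      + ‖FourierTransform.fourier (fun z : ℂ => ((g z).im : ℂ)) ξ‖ₑ ^ 2)) := by
  have h1 : Integrable (fun z : ℂ => ((f z).re : ℂ)) := hf.re.ofReal
  have h2 : Integrable (fun z : ℂ => ((f z).im : ℂ)) := hf.im.ofReal
  have h3 : Integrable (fun z : ℂ => ((g z).re : ℂ)) := hg.re.ofReal
  have h4 : Integrable (fun z : ℂ => ((g z).im : ℂ)) := hg.im.ofReal
  rw [← lintegral_const_mul' _ _ (by simp), ← lintegral_const_mul' _ _ (by simp)]
  rw [← lintegral_add_left]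
  · apply lintegral_mono
    intro ξ
    have e1 : FourierTransform.fourier (fun z : ℂ => ((f z + g z).re : ℂ)) ξ
        = FourierTransform.fourier (fun z : ℂ => ((f z).re : ℂ)) ξ
          + FourierTransform.fourier (fun z : ℂ => ((g z).re : ℂ)) ξ := by
      rw [← fou_add _ _ h1 h3]
      simp only [Complex.add_re, Complex.ofReal_add]
    have e2 : FourierTransform.fourier (fun z : ℂ => ((f z + g z).im : ℂ)) ξ
        = FourierTransform.fourier (fun z : ℂ => ((f z).im : ℂ)) ξ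
          + FourierTransform.fourier (fun z : ℂ => ((g z).im : ℂ)) ξ := by
      rw [← fou_add _ _ h2 h4]
      simp only [Complex.add_im, Complex.ofReal_add]
    simp only [e1, e2]
    calc W ξ * (‖FourierTransform.fourier (fun z : ℂ => ((f z).re : ℂ)) ξ
          + FourierTransform.fourier (fun z : ℂ => ((g z).re : ℂ)) ξ‖ₑ ^ 2
          + ‖FourierTransform.fourier (fun z : ℂ => ((f z).im : ℂ)) ξ
          + FourierTransform.fourier (fun z : ℂ => ((g z).im : ℂ)) ξ‖ₑ ^ 2)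
        ≤ W ξ * ((2 * ‖FourierTransform.fourier (fun z : ℂ => ((f z).re : ℂ)) ξ‖ₑ ^ 2
          + 2 * ‖FourierTransform.fourier (fun z : ℂ => ((g z).re : ℂ)) ξ‖ₑ ^ 2)
          + (2 * ‖FourierTransform.fourier (fun z : ℂ => ((f z).im : ℂ)) ξ‖ₑ ^ 2
          + 2 * ‖FourierTransform.fourier (fun z : ℂ => ((g z).im : ℂ)) ξ‖ₑ ^ 2)) := by
          gcongr
          · exact sq_add_aux _ _
          · exact sq_add_aux _ _
      _ = _ := by ring
  · refine (Measurable.const_mul ?_ 2)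
    refine hW.mul ?_
    exact ((fou_cont _ h1).measurable.enorm.pow_const 2).add
      ((fou_cont _ h2).measurable.enorm.pow_const 2)

theorem hsq_add_le (s : ℝ) (f g : ℂ → ℂ) (hf : Integrable f) (hg : Integrable g) :
    hsq s (fun z => f z + g z) ≤ 2 * hsq s f + 2 * hsq s g ∧
    hdot s (fun z => f z + g z) ≤ 2 * hdot s f + 2 * hdot s g := by
  constructor
  · unfold hsq
    refine add_aux (fun ξ : ℂ => ENNReal.ofReal ((1 + ‖ξ‖ ^ 2) ^ s)) ?_ f g hf hg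
    refine ENNReal.measurable_ofReal.comp ?_
    exact ((measurable_norm.pow_const 2).const_add 1).pow_const s
  · unfold hdot
    refine add_aux (fun ξ : ℂ => ENNReal.ofReal (‖ξ‖ ^ (2 * s))) ?_ f g hf hg
    refine ENNReal.measurable_ofReal.comp ?_
    exact measurable_norm.pow_const (2 * s)

theorem hdot_le_hsq (s : ℝ) (hs : 0 ≤ s) (f : ℂ → ℂ) : hdot s f ≤ hsq s f := by
  unfold hdot hsq
  apply lintegral_mono
  intro ξ
  simp only
  gcongr
  rw [Real.rpow_mul (norm_nonneg _)]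
  apply Real.rpow_le_rpow (by positivity) _ hs
  rw [Real.rpow_two]
  linarith

theorem fou_scale (a b : ℝ) (hb : 0 < b) (g : ℂ → ℂ) (ξ : ℂ) :
    FourierTransform.fourier (fun z : ℂ => (a : ℂ) * g ((b : ℂ) * z)) ξ
      = ((a * (b ^ 2)⁻¹ : ℝ) : ℂ) * FourierTransform.fourier g (b⁻¹ • ξ) := by
  rw [fou_const_mul, fou_eq, fou_eq]
  have h := Measure.integral_comp_smul (volume : Measure ℂ)
    (fun u : ℂ => Real.fourierChar (-(inner ℝ u (b⁻¹ • ξ))) • g u) b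
  have h2 : (∫ v : ℂ, Real.fourierChar (-(inner ℝ v ξ)) • g ((b : ℂ) * v))
      = ∫ x : ℂ, Real.fourierChar (-(inner ℝ (b • x) (b⁻¹ • ξ))) • g (b • x) := by
    congr 1
    ext v
    rw [real_inner_smul_left, real_inner_smul_right, Complex.real_smul]
    congr 3
    field_simp
  rw [h2, h, Complex.finrank_real_complex, abs_of_pos (by positivity), Complex.real_smul]
  push_cast
  ring

theorem lint_scale (b : ℝ) (hb : 0 < b) (φ : ℂ → ENNReal) :
    ∫⁻ ξ : ℂ, φ (b⁻¹ • ξ) = ENNReal.ofReal (b ^ 2) * ∫⁻ ξ : ℂ, φ ξ := by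
  have hb' : b⁻¹ ≠ 0 := by positivity
  let e : ℂ ≃ᵐ ℂ := (Homeomorph.smul (Units.mk0 b⁻¹ hb')).toMeasurableEquiv
  have h := lintegral_map_equiv (μ := (volume : Measure ℂ)) φ e
  have hmap : Measure.map e (volume : Measure ℂ) = ENNReal.ofReal (b ^ 2) • volume := by
    have h3 := Measure.map_addHaar_smul (volume : Measure ℂ) hb'
    rw [Complex.finrank_real_complex] at h3
    have h4 : |((b⁻¹) ^ 2)⁻¹| = b ^ 2 := by
      rw [abs_of_pos (by positivity), inv_pow, inv_inv]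
    rw [h4] at h3
    exact h3
  rw [hmap, lintegral_smul_measure] at h
  rw [← smul_eq_mul, h]
  rfl

theorem hsq_scale_eq (s a b : ℝ) (ha : 0 < a) (hb : 0 < b) (f : ℂ → ℂ) :
    hsq s (fun z => (a : ℂ) * f ((b : ℂ) * z)) = ENNReal.ofReal (a ^ 2 * (b ^ 2)⁻¹) *
      ∫⁻ ξ : ℂ, ENNReal.ofReal ((1 + b ^ 2 * ‖ξ‖ ^ 2) ^ s) *
        (‖FourierTransform.fourier (fun z : ℂ => ((f z).re : ℂ)) ξ‖ₑ ^ 2
      + ‖FourierTransform.fourier (fun z : ℂ => ((f z).im : ℂ)) ξ‖ₑ ^ 2) := by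
  unfold hsq
  have e1 : ∀ ξ : ℂ, FourierTransform.fourier
      (fun z : ℂ => ((((a : ℂ) * f ((b : ℂ) * z)).re : ℝ) : ℂ)) ξ
      = ((a * (b ^ 2)⁻¹ : ℝ) : ℂ) * FourierTransform.fourier (fun z : ℂ => ((f z).re : ℂ)) (b⁻¹ • ξ) := by
    intro ξ
    rw [← fou_scale a b hb (fun z : ℂ => ((f z).re : ℂ)) ξ]
    simp only [Complex.re_ofReal_mul, Complex.ofReal_mul]
  have e2 : ∀ ξ : ℂ, FourierTransform.fourier
      (fun z : ℂ => ((((a : ℂ) * f ((b : ℂ) * z)).im : ℝ) : ℂ)) ξ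
      = ((a * (b ^ 2)⁻¹ : ℝ) : ℂ) * FourierTransform.fourier (fun z : ℂ => ((f z).im : ℂ)) (b⁻¹ • ξ) := by
    intro ξ
    rw [← fou_scale a b hb (fun z : ℂ => ((f z).im : ℂ)) ξ]
    simp only [Complex.im_ofReal_mul, Complex.ofReal_mul]
  simp only [e1, e2]
  have hc : ‖((a * (b ^ 2)⁻¹ : ℝ) : ℂ)‖ₑ ^ 2 = ENNReal.ofReal ((a * (b ^ 2)⁻¹) ^ 2) := by
    rw [en_sq, Complex.norm_real, Real.norm_eq_abs, sq_abs]
  have hpt : ∀ ξ : ℂ, ENNReal.ofReal ((1 + ‖ξ‖ ^ 2) ^ s) *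
      (‖((a * (b ^ 2)⁻¹ : ℝ) : ℂ) * FourierTransform.fourier (fun z : ℂ => ((f z).re : ℂ)) (b⁻¹ • ξ)‖ₑ ^ 2
      + ‖((a * (b ^ 2)⁻¹ : ℝ) : ℂ) * FourierTransform.fourier (fun z : ℂ => ((f z).im : ℂ)) (b⁻¹ • ξ)‖ₑ ^ 2)
      = (fun ζ : ℂ => ENNReal.ofReal ((a * (b ^ 2)⁻¹) ^ 2) *
        (ENNReal.ofReal ((1 + b ^ 2 * ‖ζ‖ ^ 2) ^ s) *
        (‖FourierTransform.fourier (fun z : ℂ => ((f z).re : ℂ)) ζ‖ₑ ^ 2
      + ‖FourierTransform.fourier (fun z : ℂ => ((f z).im : ℂ)) ζ‖ₑ ^ 2))) (b⁻¹ • ξ) := by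
    intro ξ
    simp only [enorm_mul, mul_pow, hc]
    have hn : b ^ 2 * ‖b⁻¹ • ξ‖ ^ 2 = ‖ξ‖ ^ 2 := by
      rw [norm_smul, Real.norm_eq_abs, abs_of_pos (by positivity), mul_pow]
      field_simp
    rw [hn]
    ring
  have hsc := lint_scale b hb (fun ζ : ℂ => ENNReal.ofReal ((a * (b ^ 2)⁻¹) ^ 2) *
        (ENNReal.ofReal ((1 + b ^ 2 * ‖ζ‖ ^ 2) ^ s) *
        (‖FourierTransform.fourier (fun z : ℂ => ((f z).re : ℂ)) ζ‖ₑ ^ 2
      + ‖FourierTransform.fourier (fun z : ℂ => ((f z).im : ℂ)) ζ‖ₑ ^ 2)))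
  refine (lintegral_congr hpt).trans (hsc.trans ?_)
  rw [lintegral_const_mul' _ _ (by simp), ← mul_assoc,
    ← ENNReal.ofReal_mul (by positivity)]
  congr 2
  field_simp

/-- scaling -/
theorem hsq_scale (s a b : ℝ) (hs : 0 < s) (hs1 : s < 1) (ha : 0 < a) (hb : 1 ≤ b) (f : ℂ → ℂ) :
    hsq s (fun z => (a : ℂ) * f ((b : ℂ) * z)) ≤ ENNReal.ofReal (a ^ 2 * b ^ (2 * s - 2)) * hsq s f ∧
    ENNReal.ofReal (a ^ 2 * b ^ (2 * s - 2)) * hdot s f ≤ hsq s (fun z => (a : ℂ) * f ((b : ℂ) * z)) := by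
  have hb0 : 0 < b := by linarith
  have hfac : a ^ 2 * b ^ (2 * s - 2) = a ^ 2 * (b ^ 2)⁻¹ * (b ^ 2) ^ s := by
    rw [Real.rpow_sub hb0, ← Real.rpow_natCast b 2, ← Real.rpow_mul hb0.le]
    push_cast
    field_simp
  rw [hsq_scale_eq s a b ha hb0 f, hfac,
    ENNReal.ofReal_mul (p := a ^ 2 * (b ^ 2)⁻¹) (q := (b ^ 2) ^ s) (by positivity),
    mul_assoc (ENNReal.ofReal (a ^ 2 * (b ^ 2)⁻¹)), mul_assoc (ENNReal.ofReal (a ^ 2 * (b ^ 2)⁻¹))]
  constructor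
  · refine mul_le_mul' le_rfl ?_
    unfold hsq
    rw [← lintegral_const_mul' _ _ (by simp)]
    apply lintegral_mono
    intro ξ
    simp only
    rw [← mul_assoc, ← ENNReal.ofReal_mul (by positivity), ← Real.mul_rpow (by positivity) (by positivity)]
    gcongr
    nlinarith [sq_nonneg ‖ξ‖]
  · refine mul_le_mul' le_rfl ?_
    unfold hdot
    rw [← lintegral_const_mul' _ _ (by simp)]
    apply lintegral_mono
    intro ξ
    simp only
    rw [← mul_assoc, ← ENNReal.ofReal_mul (by positivity), Real.rpow_mul (norm_nonneg _),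
      ← Real.mul_rpow (by positivity) (by positivity), Real.rpow_two]
    gcongr
    linarith

end JS1

end Pool.Agent.Helper383.NI
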