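import Pool.Agent.Helper383.NI.Defs

open Complex MeasureTheory Set Filter Topology

namespace Pool.Agent.Helper383.NI


namespace JS3

theorem fd_parts (f : ℂ → ℂ) (f' : ℂ → ℂ →L[ℝ] ℂ) (hf : ∀ z, HasFDerivAt f (f' z) z)
    (hc : Continuous f') (g : ℂ → ℂ) (g' : ℂ → ℂ →L[ℝ] ℂ) (hg : ∀ z, HasFDerivAt g (g' z) z)
    (hgc : Continuous g') (hs : HasCompactSupport g) (v : ℂ) :
    ∫ z, f z * g' z v = - ∫ z, f' z v * g z := by
  have hfcont : Continuous f := continuous_iff_continuousAt.2 fun z => (hf z).continuousAt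
  have hgcont : Continuous g := continuous_iff_continuousAt.2 fun z => (hg z).continuousAt
  have hg'eq : g' = fderiv ℝ g := by
    funext z
    exact ((hg z).fderiv).symm
  have hs' : HasCompactSupport g' := by
    rw [hg'eq]
    exact hs.fderiv ℝ
  have hs'v : HasCompactSupport (fun z => g' z v) := by
    exact hs'.comp_left (g := fun L : ℂ →L[ℝ] ℂ => L v) (by simp)
  have hfv : Continuous (fun z => f' z v) := hc.clm_apply continuous_const
  have hgv : Continuous (fun z => g' z v) := hgc.clm_apply continuous_const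
  have h := integral_bilinear_hasLineDerivAt_right_eq_neg_left_of_integrable (μ := volume)
    (f := f) (f' := fun z => f' z v) (g := g) (g' := fun z => g' z v) (v := v)
    (B := ContinuousLinearMap.mul ℝ ℂ)
    (by
      simp only [ContinuousLinearMap.mul_apply']
      exact (hfv.mul hgcont).integrable_of_hasCompactSupport hs.mul_left)
    (by
      simp only [ContinuousLinearMap.mul_apply']
      exact (hfcont.mul hgv).integrable_of_hasCompactSupport hs'v.mul_left)
    (by
      simp only [ContinuousLinearMap.mul_apply']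
      exact (hfcont.mul hgcont).integrable_of_hasCompactSupport hs.mul_left)
    (fun z _ => (hf z).hasLineDerivAt v) (fun z _ => (hg z).hasLineDerivAt v)
  simpa only [ContinuousLinearMap.mul_apply'] using h

/-- the exponential -/
noncomputable def fe (ξ z : ℂ) : ℂ := Complex.exp ((((-2 * Real.pi * (z.re * ξ.re + z.im * ξ.im) : ℝ) : ℂ)) * I)

noncomputable def fe' (ξ z : ℂ) : ℂ →L[ℝ] ℂ :=
  (fe ξ z * I * (-2 * Real.pi : ℝ)) •
    (Complex.ofRealCLM.comp (ξ.re • Complex.reCLM + ξ.im • Complex.imCLM))

theorem fe_deriv (ξ z : ℂ) : HasFDerivAt (fe ξ) (fe' ξ z) z := by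
  have h1 : HasFDerivAt (fun z : ℂ => (((-2 * Real.pi * (z.re * ξ.re + z.im * ξ.im) : ℝ) : ℂ)) * I)
      (((-2 * Real.pi : ℝ) * I : ℂ) •
        (Complex.ofRealCLM.comp (ξ.re • Complex.reCLM + ξ.im • Complex.imCLM))) z := by
    have h2 : (fun z : ℂ => (((-2 * Real.pi * (z.re * ξ.re + z.im * ξ.im) : ℝ) : ℂ)) * I) =
        ⇑(((-2 * Real.pi : ℝ) * I : ℂ) •
        (Complex.ofRealCLM.comp (ξ.re • Complex.reCLM + ξ.im • Complex.imCLM))) := by
      funext z
      simp
      ring
    rw [h2]
    exact ContinuousLinearMap.hasFDerivAt _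
  have h3 := h1.cexp
  refine h3.congr_fderiv ?_
  unfold fe' fe
  rw [smul_smul]
  congr 1
  push_cast
  ring

theorem fe_cont (ξ : ℂ) : Continuous (fe ξ) :=
  continuous_iff_continuousAt.2 fun z => (fe_deriv ξ z).continuousAt

theorem fe'_cont (ξ : ℂ) : Continuous (fe' ξ) := by
  unfold fe'
  have := fe_cont ξ
  fun_prop

theorem fe_norm (ξ z : ℂ) : ‖fe ξ z‖ = 1 := by
  unfold fe
  exact Complex.norm_exp_ofReal_mul_I _

theorem fe_fourier (f : ℂ → ℂ) (ξ : ℂ) : FourierTransform.fourier f ξ = ∫ z, f z * fe ξ z := by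
  rw [Real.fourier_eq']
  refine integral_congr_ae (Filter.Eventually.of_forall fun z => ?_)
  simp only [smul_eq_mul]
  rw [mul_comm]
  unfold fe
  congr 4
  rw [Complex.inner]
  simp [Complex.mul_re]
  try ring

theorem exists_cutoff : ∃ (χ : ℂ → ℝ) (C : ℝ), ContDiff ℝ 1 χ ∧ HasCompactSupport χ ∧
    (∀ z, 0 ≤ χ z) ∧ (∀ z, χ z ≤ 1) ∧ (∀ z, ‖z‖ ≤ 1 → χ z = 1) ∧ (∀ z, ‖fderiv ℝ χ z‖ ≤ C) := by
  let b : ContDiffBump (0 : ℂ) := ⟨1, 2, one_pos, one_lt_two⟩
  have hb : ContDiff ℝ 1 (b : ℂ → ℝ) := b.contDiff
  obtain ⟨C, hC⟩ := (hb.continuous_fderiv (by norm_num)).bounded_above_of_compact_support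
    (b.hasCompactSupport.fderiv ℝ)
  refine ⟨b, C, hb, b.hasCompactSupport, fun z => b.nonneg, fun z => b.le_one, fun z hz => ?_, hC⟩
  exact b.one_of_mem_closedBall (by simpa [b] using hz)

/-- Fourier transform and `∂_{\bar z}` -/
theorem fourier_dbar (f : ℂ → ℂ) (f' : ℂ → ℂ →L[ℝ] ℂ) (hf : ∀ z, HasFDerivAt f (f' z) z)
    (hc : Continuous f') (hi : Integrable f)
    (hg : Integrable (fun z => (f' z 1 + I * f' z I) / 2)) (ξ : ℂ) :
    FourierTransform.fourier (fun z => (f' z 1 + I * f' z I) / 2) ξ
      = (Real.pi : ℂ) * I * ξ * FourierTransform.fourier f ξ := by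
  obtain ⟨χ, C, h1, h2, h3, h4, h5, h6⟩ := exists_cutoff
  have hC0 : 0 ≤ C := (norm_nonneg _).trans (h6 0)
  have hfcont : Continuous f := continuous_iff_continuousAt.2 fun z => (hf z).continuousAt
  set G : ℂ → ℂ := fun z => (f' z 1 + I * f' z I) / 2 with hG
  have hGc : Continuous G := by
    have e1 : Continuous (fun z => f' z 1) := hc.clm_apply continuous_const
    have e2 : Continuous (fun z => f' z I) := hc.clm_apply continuous_const
    simp only [hG]
    fun_prop
  set r : ℕ → ℝ := fun n => ((n : ℝ) + 1)⁻¹ with hr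
  have hr0 : ∀ n, 0 < r n := fun n => by simp only [hr]; positivity
  have hr1 : ∀ n, r n ≤ 1 := fun n => by
    simp only [hr]
    exact inv_le_one_of_one_le₀ (by linarith [(Nat.cast_nonneg n : (0:ℝ) ≤ n)])
  have hrt : Tendsto r atTop (𝓝 0) := by
    simp only [hr]
    exact tendsto_inv_atTop_zero.comp
      (tendsto_atTop_add_const_right _ _ tendsto_natCast_atTop_atTop)
  -- cutoff functions
  set X : ℕ → ℂ → ℂ := fun n z => ((χ (r n • z) : ℝ) : ℂ) with hX
  set X' : ℕ → ℂ → ℂ →L[ℝ] ℂ := fun n z =>
    Complex.ofRealCLM.comp ((fderiv ℝ χ (r n • z)).comp (r n • ContinuousLinearMap.id ℝ ℂ)) with hX'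
  have hXd : ∀ n z, HasFDerivAt (X n) (X' n z) z := by
    intro n z
    have e1 : HasFDerivAt (fun z : ℂ => r n • z) (r n • ContinuousLinearMap.id ℝ ℂ) z :=
      (hasFDerivAt_id z).const_smul (r n)
    have e2 : HasFDerivAt χ (fderiv ℝ χ (r n • z)) (r n • z) :=
      ((h1.differentiable (by norm_num)) _).hasFDerivAt
    exact Complex.ofRealCLM.hasFDerivAt.comp z (e2.comp z e1)
  have hX'c : ∀ n, Continuous (X' n) := by
    intro n
    have e1 : Continuous (fun z : ℂ => fderiv ℝ χ (r n • z)) :=
      (h1.continuous_fderiv (by norm_num)).comp (continuous_const_smul (r n))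
    simp only [hX']
    exact continuous_const.clm_comp (e1.clm_comp continuous_const)
  have hXc : ∀ n, Continuous (X n) := fun n =>
    continuous_iff_continuousAt.2 fun z => (hXd n z).continuousAt
  have hXs : ∀ n, HasCompactSupport (X n) := by
    intro n
    have e1 : HasCompactSupport (fun z : ℂ => χ (r n • z)) := by
      have := h2.comp_homeomorph (Homeomorph.smulOfNeZero (α := ℂ) (r n) (hr0 n).ne')
      exact this
    exact e1.comp_left (g := fun x : ℝ => (x : ℂ)) (by simp)
  have hXn : ∀ n z, ‖X n z‖ ≤ 1 := by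
    intro n z
    simp only [hX]
    rw [Complex.norm_real, Real.norm_of_nonneg (h3 _)]
    exact h4 _
  have hX'n : ∀ n z v, ‖v‖ ≤ 1 → ‖X' n z v‖ ≤ C * r n := by
    intro n z v hv
    simp only [hX', ContinuousLinearMap.comp_apply, ContinuousLinearMap.smul_apply,
      ContinuousLinearMap.id_apply, Complex.ofRealCLM_apply]
    rw [Complex.norm_real]
    refine (ContinuousLinearMap.le_opNorm _ _).trans ?_
    refine mul_le_mul (h6 _) ?_ (norm_nonneg _) hC0
    rw [norm_smul, Real.norm_of_nonneg (hr0 n).le]
    calc r n * ‖v‖ ≤ r n * 1 := mul_le_mul_of_nonneg_left hv (hr0 n).le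
      _ = r n := mul_one _
  have hX1 : ∀ z, Tendsto (fun n => X n z) atTop (𝓝 1) := by
    intro z
    have e1 : Tendsto (fun n => r n * ‖z‖) atTop (𝓝 (0 * ‖z‖)) := hrt.mul_const _
    rw [zero_mul] at e1
    refine tendsto_const_nhds.congr' ?_
    filter_upwards [e1.eventually (ge_mem_nhds one_pos)] with n hn
    simp only [hX]
    rw [h5 (r n • z) (by rw [norm_smul, Real.norm_of_nonneg (hr0 n).le]; exact hn)]
    simp
  -- the dbar derivative of the cutoff
  set Y : ℕ → ℂ → ℂ := fun n z => (X' n z 1 + I * X' n z I) / 2 with hY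
  have hYc : ∀ n, Continuous (Y n) := by
    intro n
    have e1 : Continuous (fun z => X' n z 1) := (hX'c n).clm_apply continuous_const
    have e2 : Continuous (fun z => X' n z I) := (hX'c n).clm_apply continuous_const
    simp only [hY]
    fun_prop
  have hYn : ∀ n z, ‖Y n z‖ ≤ C * r n := by
    intro n z
    simp only [hY]
    rw [norm_div, Complex.norm_ofNat]
    have e1 := hX'n n z 1 (by simp)
    have e2 := hX'n n z I (by simp)
    have e3 := norm_add_le (X' n z 1) (I * X' n z I)
    rw [norm_mul, Complex.norm_I, one_mul] at e3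
    linarith
  -- identity for each n
  have key : ∀ n, ∫ z, G z * (fe ξ z * X n z) =
      ((Real.pi : ℂ) * I * ξ) * (∫ z, f z * (fe ξ z * X n z)) - ∫ z, f z * (fe ξ z * Y n z) := by
    intro n
    set g : ℂ → ℂ := fun z => fe ξ z * X n z with hgdef
    set g' : ℂ → ℂ →L[ℝ] ℂ := fun z => fe ξ z • X' n z + X n z • fe' ξ z with hg'def
    have hgd : ∀ z, HasFDerivAt g (g' z) z := fun z => (fe_deriv ξ z).mul (hXd n z)
    have hfec := fe_cont ξ
    have hfe'c := fe'_cont ξ
    have hg'c : Continuous g' := by
      simp only [hg'def]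
      exact (hfec.smul (hX'c n)).add ((hXc n).smul hfe'c)
    have hgs : HasCompactSupport g := (hXs n).mul_left
    have hgc : Continuous g := hfec.mul (hXc n)
    have p1 := fd_parts f f' hf hc g g' hgd hg'c hgs 1
    have p2 := fd_parts f f' hf hc g g' hgd hg'c hgs I
    have hs' : HasCompactSupport g' := by
      have : g' = fderiv ℝ g := by
        funext z
        exact ((hgd z).fderiv).symm
      rw [this]
      exact hgs.fderiv ℝ
    have hsv : ∀ v : ℂ, HasCompactSupport (fun z => g' z v) := fun v =>
      hs'.comp_left (g := fun L : ℂ →L[ℝ] ℂ => L v) (by simp)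
    have i1 : ∀ v, Integrable (fun z => f z * g' z v) := fun v =>
      (hfcont.mul (hg'c.clm_apply continuous_const)).integrable_of_hasCompactSupport
        (hsv v).mul_left
    have i2 : ∀ v, Integrable (fun z => f' z v * g z) := fun v =>
      ((hc.clm_apply continuous_const).mul hgc).integrable_of_hasCompactSupport hgs.mul_left
    have q1 : ∫ z, G z * g z = ((∫ z, f' z 1 * g z) + I * ∫ z, f' z I * g z) / 2 := by
      rw [← integral_const_mul, ← integral_add (i2 1) ((i2 I).const_mul I), ← integral_div]
      refine integral_congr_ae (Filter.Eventually.of_forall fun z => ?_)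
      simp only [hG]
      ring
    have q2 : ((∫ z, f z * g' z 1) + I * ∫ z, f z * g' z I) / 2 =
        ∫ z, f z * ((g' z 1 + I * g' z I) / 2) := by
      rw [← integral_const_mul, ← integral_add (i1 1) ((i1 I).const_mul I), ← integral_div]
      refine integral_congr_ae (Filter.Eventually.of_forall fun z => ?_)
      simp only []
      ring
    have q3 : ∀ z, (g' z 1 + I * g' z I) / 2 = fe ξ z * Y n z -
        ((Real.pi : ℂ) * I * ξ) * (fe ξ z * X n z) := by
      intro z
      have hI := Complex.I_mul_I
      have hξ : ξ = (ξ.re : ℂ) + (ξ.im : ℂ) * I := (Complex.re_add_im ξ).symm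
      simp only [hg'def, ContinuousLinearMap.add_apply, ContinuousLinearMap.smul_apply, smul_eq_mul,
        fe', hY, ContinuousLinearMap.comp_apply, Complex.ofRealCLM_apply, Complex.reCLM_apply,
        Complex.imCLM_apply, Complex.one_re, Complex.one_im, Complex.I_re, Complex.I_im,
        mul_one, mul_zero, add_zero, zero_add]
      generalize fe ξ z = E
      conv_rhs => rw [hξ]
      push_cast
      ring
    have q4 : ∫ z, f z * ((g' z 1 + I * g' z I) / 2) = (∫ z, f z * (fe ξ z * Y n z)) -
        ((Real.pi : ℂ) * I * ξ) * ∫ z, f z * (fe ξ z * X n z) := by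
      have j1 : Integrable (fun z => f z * (fe ξ z * Y n z)) := by
        have : Integrable (fun z => (fe ξ z * Y n z) * f z) := by
          refine hi.bdd_mul (c := C * r n) (hfec.mul (hYc n)).aestronglyMeasurable
            (Filter.Eventually.of_forall fun z => ?_)
          rw [norm_mul, fe_norm, one_mul]
          exact hYn n z
        refine this.congr (Filter.Eventually.of_forall fun z => ?_)
        simp only []
        ring
      have j2 : Integrable (fun z => f z * (fe ξ z * X n z)) := by
        have : Integrable (fun z => (fe ξ z * X n z) * f z) := by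
          refine hi.bdd_mul (c := 1) (hfec.mul (hXc n)).aestronglyMeasurable
            (Filter.Eventually.of_forall fun z => ?_)
          rw [norm_mul, fe_norm, one_mul]
          exact hXn n z
        refine this.congr (Filter.Eventually.of_forall fun z => ?_)
        simp only []
        ring
      rw [← integral_const_mul, ← integral_sub j1 (j2.const_mul _)]
      refine integral_congr_ae (Filter.Eventually.of_forall fun z => ?_)
      simp only []
      rw [q3]
      ring
    have q5 : ∫ z, G z * g z = -(((∫ z, f z * g' z 1) + I * ∫ z, f z * g' z I) / 2) := by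
      rw [q1, p1, p2]
      ring
    rw [q5, q2, q4]
    ring
  -- limits
  have hfec := fe_cont ξ
  have L1 : Tendsto (fun n => ∫ z, G z * (fe ξ z * X n z)) atTop (𝓝 (∫ z, G z * fe ξ z)) := by
    refine tendsto_integral_of_dominated_convergence (fun z => ‖G z‖)
      (fun n => (hGc.mul (hfec.mul (hXc n))).aestronglyMeasurable) hg.norm
      (fun n => Filter.Eventually.of_forall fun z => ?_) (Filter.Eventually.of_forall fun z => ?_)
    · rw [norm_mul, norm_mul, fe_norm, one_mul]
      exact mul_le_of_le_one_right (norm_nonneg _) (hXn n z)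
    · have := ((hX1 z).const_mul (fe ξ z)).const_mul (G z)
      rwa [mul_one] at this
  have L2 : Tendsto (fun n => ∫ z, f z * (fe ξ z * X n z)) atTop (𝓝 (∫ z, f z * fe ξ z)) := by
    refine tendsto_integral_of_dominated_convergence (fun z => ‖f z‖)
      (fun n => (hfcont.mul (hfec.mul (hXc n))).aestronglyMeasurable) hi.norm
      (fun n => Filter.Eventually.of_forall fun z => ?_) (Filter.Eventually.of_forall fun z => ?_)
    · rw [norm_mul, norm_mul, fe_norm, one_mul]
      exact mul_le_of_le_one_right (norm_nonneg _) (hXn n z)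
    · have := ((hX1 z).const_mul (fe ξ z)).const_mul (f z)
      rwa [mul_one] at this
  have L3 : Tendsto (fun n => ∫ z, f z * (fe ξ z * Y n z)) atTop (𝓝 0) := by
    have : Tendsto (fun n => ∫ z, f z * (fe ξ z * Y n z)) atTop (𝓝 (∫ _z : ℂ, (0 : ℂ))) := by
      refine tendsto_integral_of_dominated_convergence (fun z => C * ‖f z‖)
        (fun n => (hfcont.mul (hfec.mul (hYc n))).aestronglyMeasurable) (hi.norm.const_mul C)
        (fun n => Filter.Eventually.of_forall fun z => ?_) (Filter.Eventually.of_forall fun z => ?_)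
      · rw [norm_mul, norm_mul, fe_norm, one_mul, mul_comm]
        refine mul_le_mul_of_nonneg_right ((hYn n z).trans ?_) (norm_nonneg _)
        exact mul_le_of_le_one_right hC0 (hr1 n)
      · have hY0 : Tendsto (fun n => Y n z) atTop (𝓝 0) := by
          refine squeeze_zero_norm (hYn · z) ?_
          have := hrt.const_mul C
          rwa [mul_zero] at this
        have := (hY0.const_mul (fe ξ z)).const_mul (f z)
        rwa [mul_zero, mul_zero] at this
    rwa [integral_zero] at this
  have L4 := (L2.const_mul ((Real.pi : ℂ) * I * ξ)).sub L3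
  rw [sub_zero] at L4
  rw [fe_fourier, fe_fourier]
  refine tendsto_nhds_unique L1 ?_
  refine L4.congr fun n => ?_
  exact (key n).symm

end JS3

end Pool.Agent.Helper383.NI
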