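import Pool.Agent.Helper383.NI.Defs
import Pool.Agent.Helper383.NI.D3
import Pool.Agent.Helper383.NI.F1
import Pool.Agent.Helper383.NI.G2
import Pool.Agent.Helper383.NI.G3
import Pool.Agent.Helper383.NI.G4
import Pool.Agent.Helper383.NI.L1
import Pool.Agent.Helper383.NI.K0
import Pool.Agent.Helper383.NI.K1
import Pool.Agent.Helper383.NI.K2
import Pool.Agent.Helper383.NI.S1
import Pool.Agent.Helper383.NI.S3
import Pool.Agent.Helper383.NI.S4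

open Complex MeasureTheory Set Filter Topology

namespace Pool.Agent.Helper383.NI

open JD3 (exists_sol)
open JF1 (modes_RDt)
open JG2 (hc_fderiv_ne hc_fderiv)
open JG3 (hc_decay hc_schwartz)
open JG4 (hc_cont hc_time)
open JL1 (euler_of_sol)
open JK0 (base_flow Pm om_zero Pm_props)
open JK1 (RT RT_tendsto RT_nonneg energy_T)
open JK2 (enstrophy_close)
open JS1 (fourier_split hsq_eq hdot_eq hsq_conj hsq_neg hsq_add_le hdot_le_hsq hsq_scale)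
open JS3 (fourier_dbar)
open JS4 (hsq_upper hdot_lower)

namespace JK5

theorem gr_int (f : ℂ → ℂ) (hf : Continuous f) (C : ℝ) (hC : ∀ z, ‖f z‖ ≤ C / (1 + ‖z‖) ^ 4) :
    Integrable f ∧ MemLp f 2 := by
  have h1 : Integrable (fun z : ℂ => (1 + ‖z‖) ^ (-(4 : ℝ))) :=
    integrable_one_add_norm (by rw [Complex.finrank_real_complex]; norm_num)
  have hrp : ∀ z : ℂ, (1 + ‖z‖) ^ (-(4 : ℝ)) = 1 / (1 + ‖z‖) ^ 4 := by
    intro z
    rw [Real.rpow_neg (by positivity), one_div]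
    congr 1
    exact_mod_cast Real.rpow_natCast (1 + ‖z‖) 4
  have hC0 : 0 ≤ C := by
    have := (norm_nonneg _).trans (hC 0)
    simpa using this
  refine ⟨?_, ?_⟩
  · refine (h1.const_mul C).mono' hf.aestronglyMeasurable (ae_of_all _ fun z => ?_)
    rw [hrp, mul_one_div]
    exact hC z
  · rw [memLp_two_iff_integrable_sq_norm hf.aestronglyMeasurable]
    refine (h1.const_mul (C ^ 2)).mono' (hf.norm.pow 2).aestronglyMeasurable (ae_of_all _ fun z => ?_)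
    rw [hrp, mul_one_div, Real.norm_of_nonneg (by positivity)]
    have h2 : (1 : ℝ) ≤ (1 + ‖z‖) ^ 4 := one_le_pow₀ (by linarith [norm_nonneg z])
    calc ‖f z‖ ^ 2 ≤ (C / (1 + ‖z‖) ^ 4) ^ 2 := pow_le_pow_left₀ (norm_nonneg _) (hC z) 2
      _ = C ^ 2 / ((1 + ‖z‖) ^ 4 * (1 + ‖z‖) ^ 4) := by rw [div_pow]; ring
      _ ≤ C ^ 2 / (1 + ‖z‖) ^ 4 := by
        apply div_le_div_of_nonneg_left (by positivity) (by positivity)
        nlinarith

theorem gr_dfm (A B : ℂ) : (dfm A B 1 + I * dfm A B I) / 2 = B := by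
  have h1 : dfm A B 1 = A + B := by simp [dfm]
  have h2 : dfm A B I = A * I - B * I := by simp [dfm]; ring
  rw [h1, h2]
  linear_combination ((A - B) / 2) * Complex.I_mul_I

theorem gr_cont_dfm (A B : ℂ → ℂ) (hA : Continuous A) (hB : Continuous B) :
    Continuous (fun z => dfm (A z) (B z)) := by
  unfold dfm
  exact (hA.smul continuous_const).add (hB.smul continuous_const)

/-- the perturbation of the velocity -/
theorem gr_vel (T : ℝ) (m : ℕ) (Λ σ B : ℝ) (hT : 0 < T) (hm : 40 ≤ m) (hΛ : 1 ≤ Λ)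
    (hη : Λ ≤ m) (hσ : 0 < σ) (hσ1 : σ ≤ 1 / 2) (hB : 1 ≤ B) (S : Sol T m Λ σ B)
    (t : ℝ) (ht : t ∈ Icc 0 T) :
    Integrable (fun z => S.vel t z - vb z) ∧ MemLp (fun z => S.vel t z - vb z) 2 ∧
    Integrable (fun z => -(I / 2) * (S.om t z - wb z)) ∧
    MemLp (fun z => -(I / 2) * (S.om t z - wb z)) 2 ∧
    Integrable (S.vel t) ∧
    (∀ ξ : ℂ, FourierTransform.fourier (fun z => -(I / 2) * (S.om t z - wb z)) ξ
      = (Real.pi : ℂ) * I * ξ * FourierTransform.fourier (fun z => S.vel t z - vb z) ξ) := by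
  obtain ⟨v', Cb, hb1, hb2, hb3, hb4, hb5, hb6, hb7⟩ := base_flow
  obtain ⟨_, hE2, ⟨Cv, hE3⟩, _⟩ := euler_of_sol T m Λ σ B hT hm hΛ hη hσ hσ1 hB S
  obtain ⟨Av, hAc, hAd⟩ := hE2 t ht
  obtain ⟨hR, _, _⟩ := modes_RDt T m Λ σ B hT hm hΛ hη hσ hσ1 hB S
  have hom : Continuous (S.om t) := by
    have h1 : Differentiable ℝ (S.om t) := fun z => (hc_fderiv T _ hR t ht z).differentiableAt
    exact h1.continuous
  obtain ⟨Co, _, hCo⟩ := hc_decay T _ hR 4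
  have hcv : Continuous (S.vel t) := by
    have h1 : Differentiable ℝ (S.vel t) := fun z => (hAd z).differentiableAt
    exact h1.continuous
  have hcb : Continuous vb := by
    have h1 : Differentiable ℝ vb := fun z => (hb1 z).differentiableAt
    exact h1.continuous
  have d1 : ∀ z, ‖S.vel t z - vb z‖ ≤ (Cv + Cb) / (1 + ‖z‖) ^ 4 := by
    intro z
    refine (norm_sub_le _ _).trans ?_
    rw [add_div]
    exact add_le_add (hE3 t ht z) (hb4 z)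
  have d2 : ∀ z, ‖-(I / 2) * (S.om t z - wb z)‖ ≤ (Co + Cb) / (1 + ‖z‖) ^ 4 := by
    intro z
    rw [norm_mul, norm_neg, norm_div, Complex.norm_I]
    have h1 : ‖S.om t z - wb z‖ ≤ (Co + Cb) / (1 + ‖z‖) ^ 4 := by
      refine (norm_sub_le _ _).trans ?_
      rw [add_div]
      exact add_le_add (hCo t ht z).1 (hb7 z)
    have h2 : ‖(2 : ℂ)‖ = 2 := by simp
    rw [h2]
    nlinarith [norm_nonneg (S.om t z - wb z)]
  have c1 : Continuous (fun z => S.vel t z - vb z) := hcv.sub hcb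
  have c2 : Continuous (fun z => -(I / 2) * (S.om t z - wb z)) := continuous_const.mul (hom.sub hb6)
  obtain ⟨i1, m1⟩ := gr_int _ c1 _ d1
  obtain ⟨i2, m2⟩ := gr_int _ c2 _ d2
  obtain ⟨i3, _⟩ := gr_int _ hcv Cv (fun z => hE3 t ht z)
  refine ⟨i1, m1, i2, m2, i3, ?_⟩
  have hid : ∀ z, ((dfm (Av z) (-(I / 2) * S.om t z) - v' z) 1 +
      I * (dfm (Av z) (-(I / 2) * S.om t z) - v' z) I) / 2 = -(I / 2) * (S.om t z - wb z) := by
    intro z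
    have h1 := gr_dfm (Av z) (-(I / 2) * S.om t z)
    have h2 := hb3 z
    rw [sub_apply, sub_apply]
    linear_combination h1 - h2
  have hfd := fourier_dbar (fun z => S.vel t z - vb z)
    (fun z => dfm (Av z) (-(I / 2) * S.om t z) - v' z)
    (fun z => (hAd z).sub (hb1 z))
    ((gr_cont_dfm _ _ hAc (continuous_const.mul hom)).sub hb2) i1
    (by simp only [hid]; exact i2)
  intro ξ
  have h3 := hfd ξ
  simp only [hid] at h3
  exact h3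

theorem gr_vb (s : ℝ) (hs : 0 < s) (hs1 : s < 1) :
    Integrable vb ∧ ∃ Vb : ℝ, 0 ≤ Vb ∧ hsq s vb ≤ ENNReal.ofReal Vb := by
  obtain ⟨v', Cb, hb1, hb2, hb3, hb4, hb5, hb6, hb7⟩ := base_flow
  have hcb : Continuous vb := by
    have h1 : Differentiable ℝ vb := fun z => (hb1 z).differentiableAt
    exact h1.continuous
  obtain ⟨i1, m1⟩ := gr_int _ hcb _ hb4
  have d2 : ∀ z, ‖-(I / 2) * wb z‖ ≤ Cb / (1 + ‖z‖) ^ 4 := by
    intro z
    rw [norm_mul, norm_neg, norm_div, Complex.norm_I]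
    have h1 := hb7 z
    have h2 : ‖(2 : ℂ)‖ = 2 := by simp
    rw [h2]
    nlinarith [norm_nonneg (wb z)]
  obtain ⟨i2, m2⟩ := gr_int _ (continuous_const.mul hb6) _ d2
  have hfd := fourier_dbar vb v' hb1 hb2 i1 (by simp only [hb3]; exact i2)
  simp only [hb3] at hfd
  have hup := hsq_upper s hs hs1 vb (fun z => -(I / 2) * wb z) i1 m1 i2 m2 hfd
  have hfin : ∀ f : ℂ → ℂ, MemLp f 2 → ∫⁻ z : ℂ, ‖f z‖ₑ ^ 2 ≠ ⊤ := by
    intro f hf
    have h1 := hf.eLpNorm_lt_top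
    rw [eLpNorm_lt_top_iff_lintegral_rpow_enorm_lt_top (by norm_num) (by norm_num)] at h1
    have h2 : ∫⁻ z : ℂ, ‖f z‖ₑ ^ 2 = ∫⁻ z : ℂ, ‖f z‖ₑ ^ (ENNReal.toReal 2) := by
      refine lintegral_congr fun z => ?_
      rw [ENNReal.toReal_ofNat]
      norm_cast
    rw [h2]
    exact h1.ne
  have hne : hsq s vb ≠ ⊤ := by
    refine ne_top_of_le_ne_top ?_ hup
    refine ENNReal.mul_ne_top ?_ ?_
    · exact ENNReal.rpow_ne_top_of_nonneg (by linarith) (hfin _ m1)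
    · exact ENNReal.rpow_ne_top_of_nonneg hs.le (ENNReal.add_ne_top.2 ⟨hfin _ m1, hfin _ m2⟩)
  exact ⟨i1, (hsq s vb).toReal, ENNReal.toReal_nonneg, (ENNReal.ofReal_toReal hne).ge⟩

/-- half of a function has smaller energy -/
theorem gr_half (c : ℂ) (r : ℝ) (hr : 0 ≤ r) (hc : ‖c‖ = r) (f : ℂ → ℂ) :
    ∫⁻ z : ℂ, ‖c * f z‖ₑ ^ 2 = ENNReal.ofReal (r ^ 2) * ∫⁻ z : ℂ, ‖f z‖ₑ ^ 2 := by
  rw [← lintegral_const_mul' _ _ ENNReal.ofReal_ne_top]
  refine lintegral_congr fun z => ?_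
  rw [enorm_mul, mul_pow]
  congr 1
  rw [← ofReal_norm, hc, ENNReal.ofReal_pow hr]

theorem gr_upper (s : ℝ) (hs : 0 < s) (hs1 : s < 1) (T : ℝ) (m : ℕ) (Λ σ B : ℝ) (hT : 0 < T)
    (hm : 40 ≤ m) (hΛ : 1 ≤ Λ) (hη : Λ ≤ m) (hσ : 0 < σ) (hσ1 : σ ≤ 1 / 2) (hB : 1 ≤ B)
    (S : Sol T m Λ σ B) (a1 a2 : ℝ) (ha1 : 0 ≤ a1) (ha2 : 0 ≤ a2)
    (hE : ∫⁻ z : ℂ, ‖hc (fun n (x : ℝ) => S.cu T n (x : ℂ)) z / z - vb z‖ₑ ^ 2 ≤ ENNReal.ofReal a1)
    (hZ : ∫⁻ z : ℂ, ‖S.om T z - wb z‖ₑ ^ 2 ≤ ENNReal.ofReal a2) :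
    hsq s (fun z => S.vel T z - vb z) ≤ ENNReal.ofReal (a1 ^ (1 - s) * (a1 + a2) ^ s) := by
  have hTm : T ∈ Icc 0 T := ⟨hT.le, le_refl _⟩
  obtain ⟨i1, m1, i2, m2, _, hF⟩ := gr_vel T m Λ σ B hT hm hΛ hη hσ hσ1 hB S T hTm
  obtain ⟨hE1, _, _, _⟩ := euler_of_sol T m Λ σ B hT hm hΛ hη hσ hσ1 hB S
  have hE' : ∫⁻ z : ℂ, ‖S.vel T z - vb z‖ₑ ^ 2 ≤ ENNReal.ofReal a1 := by
    refine le_trans (le_of_eq ?_) hE
    apply lintegral_congr_ae
    have h0 : ∀ᵐ z : ℂ, z ≠ 0 := by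
      rw [ae_iff]
      simp
    filter_upwards [h0] with z hz
    rw [hE1 T hTm z hz]
  have hZ' : ∫⁻ z : ℂ, ‖-(I / 2) * (S.om T z - wb z)‖ₑ ^ 2 ≤ ENNReal.ofReal a2 := by
    rw [gr_half (-(I / 2)) (1 / 2) (by norm_num) (by simp)]
    refine le_trans ?_ hZ
    refine mul_le_of_le_one_left zero_le ?_
    rw [ENNReal.ofReal_le_one]
    norm_num
  have hup := hsq_upper s hs hs1 _ _ i1 m1 i2 m2 hF
  refine hup.trans ?_
  rw [ENNReal.ofReal_mul (Real.rpow_nonneg ha1 _), ← ENNReal.ofReal_rpow_of_nonneg ha1 (by linarith),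
    ← ENNReal.ofReal_rpow_of_nonneg (add_nonneg ha1 ha2) hs.le, ENNReal.ofReal_add ha1 ha2]
  exact mul_le_mul' (ENNReal.rpow_le_rpow hE' (by linarith))
    (ENNReal.rpow_le_rpow (add_le_add hE' hZ') hs.le)

theorem gr_lower (s : ℝ) (hs : 0 < s) (hs1 : s < 1) (T : ℝ) (m : ℕ) (Λ σ B : ℝ) (hT : 0 < T)
    (hm : 40 ≤ m) (hΛ : 1 ≤ Λ) (hη : Λ ≤ m) (hσ : 0 < σ) (hσ1 : σ ≤ 1 / 2) (hB : 1 ≤ B)
    (S : Sol T m Λ σ B) (c C : ℝ) (hc0 : 0 < c) (hC0 : 0 < C)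
    (hP : ∃ (P' : ℂ → ℂ →L[ℝ] ℂ) (Cm : ℝ), (∀ z, HasFDerivAt (Pm m) (P' z) z) ∧ Continuous P' ∧
      (∀ z, ‖Pm m z‖ ≤ Cm / (1 + ‖z‖) ^ 4) ∧ (∀ z, ‖P' z‖ ≤ Cm / (1 + ‖z‖) ^ 4) ∧
      ENNReal.ofReal c ≤ ∫⁻ z : ℂ, ‖Pm m z‖ₑ ^ 2 ∧
      ∫⁻ z : ℂ, ‖(P' z 1 + I * P' z I) / 2‖ₑ ^ 2 ≤ ENNReal.ofReal (C * (m : ℝ) ^ 2)) :
    ENNReal.ofReal (((Λ / 2) ^ 2 * c) ^ (2 - s) / (10 * ((Λ / 2) ^ 2 * (C * (m : ℝ) ^ 2)) ^ (1 - s))) ≤
      hdot s (fun z => S.vel 0 z - vb z) := by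
  have h0m : (0 : ℝ) ∈ Icc 0 T := ⟨le_refl _, hT.le⟩
  obtain ⟨i1, m1, i2, m2, _, hF⟩ := gr_vel T m Λ σ B hT hm hΛ hη hσ hσ1 hB S 0 h0m
  obtain ⟨P', Cm, hP1, hP2, hP3, hP4, hP5, hP6⟩ := hP
  have hom := om_zero T m Λ σ B hT hm hΛ hσ S
  have hg : ∀ z, -(I / 2) * (S.om 0 z - wb z) = (-(I / 2) * (Λ : ℂ)) * Pm m z := by
    intro z
    rw [hom z]
    ring
  simp only [hg] at i2 m2 hF
  have hm0 : (0 : ℝ) < m := by
    have : 0 < m := by omega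
    exact_mod_cast this
  have hcnorm : ‖-(I / 2) * (Λ : ℂ)‖ = Λ / 2 := by
    rw [norm_mul, norm_neg, norm_div, Complex.norm_I, Complex.norm_real,
      Real.norm_of_nonneg (by linarith)]
    have h2 : ‖(2 : ℂ)‖ = 2 := by simp
    rw [h2]
    ring
  have hPc1 : Continuous (fun z => P' z 1) := hP2.clm_apply continuous_const
  have hPc2 : Continuous (fun z => P' z I) := hP2.clm_apply continuous_const
  have hPc : Continuous (fun z => (P' z 1 + I * P' z I) / 2) :=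
    (hPc1.add (continuous_const.mul hPc2)).div_const 2
  have hPb : ∀ z, ‖(P' z 1 + I * P' z I) / 2‖ ≤ Cm / (1 + ‖z‖) ^ 4 := by
    intro z
    have h2 : ‖(2 : ℂ)‖ = 2 := by simp
    rw [norm_div, h2]
    have h3 : ‖P' z 1‖ ≤ ‖P' z‖ := by
      simpa using (P' z).le_opNorm 1
    have h4 : ‖P' z I‖ ≤ ‖P' z‖ := by
      simpa using (P' z).le_opNorm I
    have h5 : ‖P' z 1 + I * P' z I‖ ≤ ‖P' z 1‖ + ‖P' z I‖ := by
      refine (norm_add_le _ _).trans ?_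
      rw [norm_mul, Complex.norm_I, one_mul]
    have h6 := hP4 z
    linarith
  obtain ⟨i3, m3⟩ := gr_int _ hPc _ hPb
  have i4 : Integrable (fun z => (-(I / 2) * (Λ : ℂ)) * ((P' z 1 + I * P' z I) / 2)) :=
    i3.const_mul _
  have m4 : MemLp (fun z => (-(I / 2) * (Λ : ℂ)) * ((P' z 1 + I * P' z I) / 2)) 2 :=
    m3.const_mul _
  have hid : ∀ z, (((-(I / 2) * (Λ : ℂ)) • P' z) 1 + I * ((-(I / 2) * (Λ : ℂ)) • P' z) I) / 2 =
      (-(I / 2) * (Λ : ℂ)) * ((P' z 1 + I * P' z I) / 2) := by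
    intro z
    simp only [smul_apply, smul_eq_mul]
    ring
  have hcs : Continuous (fun z => (-(I / 2) * (Λ : ℂ)) • P' z) := by
    exact hP2.const_smul (-(I / 2) * (Λ : ℂ))
  have hfd := fourier_dbar (fun z => (-(I / 2) * (Λ : ℂ)) * Pm m z)
    (fun z => (-(I / 2) * (Λ : ℂ)) • P' z) (fun z => (hP1 z).const_mul _)
    hcs i2 (by simp only [hid]; exact i4)
  simp only [hid] at hfd
  have hlow := hdot_lower s hs hs1 _ _ _ i1 m1 i2 m2 i4 m4 hF hfd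
  have hΛ0 : (0 : ℝ) < Λ := by linarith
  rw [gr_half _ (Λ / 2) (by linarith) hcnorm, gr_half _ (Λ / 2) (by linarith) hcnorm] at hlow
  have hx : ENNReal.ofReal ((Λ / 2) ^ 2 * c) ≤
      ENNReal.ofReal ((Λ / 2) ^ 2) * ∫⁻ z : ℂ, ‖Pm m z‖ₑ ^ 2 := by
    rw [ENNReal.ofReal_mul (by positivity)]
    exact mul_le_mul' (le_refl _) hP5
  have hy : ENNReal.ofReal ((Λ / 2) ^ 2) * ∫⁻ z : ℂ, ‖(P' z 1 + I * P' z I) / 2‖ₑ ^ 2 ≤
      ENNReal.ofReal ((Λ / 2) ^ 2 * (C * (m : ℝ) ^ 2)) := by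
    rw [ENNReal.ofReal_mul (by positivity)]
    exact mul_le_mul' (le_refl _) hP6
  have hx' := ENNReal.rpow_le_rpow hx (show 0 ≤ 2 - s by linarith)
  have hy' := ENNReal.rpow_le_rpow hy (show 0 ≤ 1 - s by linarith)
  rw [ENNReal.ofReal_rpow_of_pos (by positivity)] at hx' hy'
  have hall := hx'.trans (hlow.trans (mul_le_mul' (le_refl _) hy'))
  have h10 : 10 * hdot s (fun z => S.vel 0 z - vb z) *
      ENNReal.ofReal (((Λ / 2) ^ 2 * (C * (m : ℝ) ^ 2)) ^ (1 - s)) =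
      hdot s (fun z => S.vel 0 z - vb z) *
        ENNReal.ofReal (10 * ((Λ / 2) ^ 2 * (C * (m : ℝ) ^ 2)) ^ (1 - s)) := by
    rw [ENNReal.ofReal_mul (by norm_num), ENNReal.ofReal_ofNat]
    ring
  rw [h10] at hall
  rw [ENNReal.ofReal_div_of_pos (by positivity)]
  exact ENNReal.div_le_of_le_mul hall

/-- choice of the frequency -/
theorem gr_choose (s : ℝ) (hs : 0 < s) (a b : ℝ) : ∃ m : ℕ, 40 ≤ m ∧ a ≤ (m : ℝ) ^ (s / 2) ∧
    b ≤ (m : ℝ) ^ s := by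
  have h1 : Tendsto (fun m : ℕ => (m : ℝ) ^ (s / 2)) atTop atTop :=
    (tendsto_rpow_atTop (by linarith)).comp tendsto_natCast_atTop_atTop
  have h2 : Tendsto (fun m : ℕ => (m : ℝ) ^ s) atTop atTop :=
    (tendsto_rpow_atTop hs).comp tendsto_natCast_atTop_atTop
  obtain ⟨m, hm⟩ := ((eventually_ge_atTop 40).and ((h1.eventually_ge_atTop a).and
    (h2.eventually_ge_atTop b))).exists
  exact ⟨m, hm.1, hm.2.1, hm.2.2⟩

/-- growth of the ratio of Sobolev norms along the model solutions -/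
theorem growth (s M : ℝ) (hs : 0 < s) (hs1 : s < 1) (hM : 0 < M) :
    ∃ (T : ℝ) (m : ℕ) (Λ σ B : ℝ) (S : Sol T m Λ σ B) (q : ℝ), 1 ≤ T ∧ 40 ≤ m ∧ 1 ≤ Λ ∧
      Λ ≤ m ∧ 0 < σ ∧ σ ≤ 1 / 2 ∧ 1 ≤ B ∧ 0 < q ∧ hsq s (S.vel T) ≤ ENNReal.ofReal q ∧
      ENNReal.ofReal (M * q) ≤ hdot s (S.vel 0) := by
  obtain ⟨c, C, hc0, hC0, hPm⟩ := Pm_props
  obtain ⟨C0, hC00, hens⟩ := enstrophy_close
  obtain ⟨ivb, Vb, hVb0, hVb⟩ := gr_vb s hs hs1
  have hs1' : 0 < 1 - s := by linarith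
  set κ : ℝ := (1 / 10) * (c / 4) ^ (2 - s) / (C / 4) ^ (1 - s) with hκ
  have hκ0 : 0 < κ := by
    have h1 : 0 < (c / 4) ^ (2 - s) := Real.rpow_pos_of_pos (by linarith) _
    have h2 : 0 < (C / 4) ^ (1 - s) := Real.rpow_pos_of_pos (by linarith) _
    positivity
  have hG0 : 0 < (201 + C0) ^ s := Real.rpow_pos_of_pos (by linarith) _
  set A : ℝ := κ / (16 * M * (201 + C0) ^ s) with hA
  have hA0 : 0 < A := by positivity
  set ρ : ℝ := min 1 (A ^ (1 / (1 - s)) / 201) with hρ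
  have hρ0 : 0 < ρ := by
    have : 0 < A ^ (1 / (1 - s)) := Real.rpow_pos_of_pos hA0 _
    exact lt_min one_pos (by positivity)
  have hρ1 : ρ ≤ 1 := min_le_left _ _
  have hρA : (201 * ρ) ^ (1 - s) ≤ A := by
    have h1 : 201 * ρ ≤ A ^ (1 / (1 - s)) := by
      have := min_le_right (1 : ℝ) (A ^ (1 / (1 - s)) / 201)
      change ρ ≤ _ at this
      linarith
    calc (201 * ρ) ^ (1 - s) ≤ (A ^ (1 / (1 - s))) ^ (1 - s) :=
          Real.rpow_le_rpow (by positivity) h1 hs1'.le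
      _ = A := by
        rw [← Real.rpow_mul hA0.le, one_div, inv_mul_cancel₀ hs1'.ne', Real.rpow_one]
  obtain ⟨T, hT1, hT2⟩ := ((eventually_ge_atTop (1 : ℝ)).and
    (RT_tendsto.eventually (gt_mem_nhds hρ0))).exists
  have hT0 : 0 < T := by linarith
  obtain ⟨σ, B, hσ0, hσ1, hB1, hsol⟩ := exists_sol T hT1
  obtain ⟨K, hK0, hen⟩ := energy_T T σ B hT1 hσ0 hσ1 hB1
  obtain ⟨m, hm40, hma, hmb⟩ := gr_choose s hs (max B (K / ρ)) (max (4 * Vb / κ) (16 * M * Vb / κ))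
  have hm0 : (0 : ℝ) < m := by
    have : 0 < m := by omega
    exact_mod_cast this
  have hm1 : (1 : ℝ) ≤ m := by
    have : 1 ≤ m := by omega
    exact_mod_cast this
  set Y : ℝ := (m : ℝ) ^ (s / 2) with hY
  set X : ℝ := (m : ℝ) ^ s with hX
  set Λ : ℝ := (m : ℝ) ^ (1 - s / 2) with hΛdef
  have hY0 : 0 < Y := Real.rpow_pos_of_pos hm0 _
  have hX0 : 0 < X := Real.rpow_pos_of_pos hm0 _
  have hΛ0 : 0 < Λ := Real.rpow_pos_of_pos hm0 _
  have hΛY : Λ * Y = m := by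
    rw [hΛdef, hY, ← Real.rpow_add hm0]
    simp
  have hΛ1 : 1 ≤ Λ := Real.one_le_rpow hm1 (by linarith)
  have hY1 : 1 ≤ Y := Real.one_le_rpow hm1 (by linarith)
  have hBY : B ≤ Y := (le_max_left _ _).trans hma
  have hKY : K / ρ ≤ Y := (le_max_right _ _).trans hma
  have hBΛ : B * Λ ≤ m := by
    rw [← hΛY, mul_comm]
    exact mul_le_mul_of_nonneg_left hBY hΛ0.le
  have hΛm : Λ ≤ m := by
    rw [← hΛY]
    exact le_mul_of_one_le_right hΛ0.le hY1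
  have hΛdm : Λ / m = 1 / Y := by
    rw [← hΛY]
    field_simp
  obtain ⟨S⟩ := hsol m Λ hm40 hΛ1 hBΛ
  have hV1 : 4 * Vb ≤ κ * X := by
    have h1 : 4 * Vb / κ ≤ X := (le_max_left _ _).trans hmb
    rw [div_le_iff₀ hκ0] at h1
    linarith
  have hV2 : 16 * M * Vb ≤ κ * X := by
    have h1 : 16 * M * Vb / κ ≤ X := (le_max_right _ _).trans hmb
    rw [div_le_iff₀ hκ0] at h1
    linarith
  -- upper bound
  have hE : ∫⁻ z : ℂ, ‖hc (fun n (x : ℝ) => S.cu T n (x : ℂ)) z / z - vb z‖ₑ ^ 2 ≤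
      ENNReal.ofReal (201 * ρ * (Λ / m) ^ 2) := by
    refine (hen m Λ hm40 hΛ1 hΛm S).trans (ENNReal.ofReal_le_ofReal ?_)
    have h1 : K * (Λ / m) ≤ ρ := by
      rw [hΛdm, mul_one_div, div_le_iff₀ hY0]
      rw [div_le_iff₀ hρ0] at hKY
      linarith
    have h2 : 200 * RT T + K * (Λ / m) ≤ 201 * ρ := by
      have := hT2.le
      linarith
    have h3 : 0 ≤ (Λ / m) ^ 2 := sq_nonneg _
    nlinarith
  have hZ : ∫⁻ z : ℂ, ‖S.om T z - wb z‖ₑ ^ 2 ≤ ENNReal.ofReal (C0 * Λ ^ 2) :=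
    (hens T m Λ σ B hT0 hm40 hΛ1 hBΛ hσ0 hσ1 hB1 S T ⟨hT0.le, le_refl _⟩).2
  have hup := gr_upper s hs hs1 T m Λ σ B hT0 hm40 hΛ1 hΛm hσ0 hσ1 hB1 S
    (201 * ρ * (Λ / m) ^ 2) (C0 * Λ ^ 2) (by positivity) (by positivity) hE hZ
  have hΛ2 : Λ ^ 2 = (m : ℝ) ^ (2 - s) := by
    rw [hΛdef, ← Real.rpow_natCast, ← Real.rpow_mul hm0.le]
    congr 1
    push_cast
    ring
  have hΛm2 : (Λ / m) ^ 2 = (m : ℝ) ^ (-s) := by
    rw [div_pow, hΛ2, ← Real.rpow_natCast (m : ℝ) 2, ← Real.rpow_sub hm0]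
    congr 1
    push_cast
    ring
  have hup2 : (201 * ρ * (Λ / m) ^ 2) ^ (1 - s) * (201 * ρ * (Λ / m) ^ 2 + C0 * Λ ^ 2) ^ s ≤
      A * ((201 + C0) ^ s * X) := by
    have h1 : 201 * ρ * (Λ / m) ^ 2 + C0 * Λ ^ 2 ≤ (201 + C0) * Λ ^ 2 := by
      have h2 : (Λ / m) ^ 2 ≤ Λ ^ 2 := by
        apply pow_le_pow_left₀ (by positivity)
        exact div_le_self hΛ0.le hm1
      have h3 : 0 ≤ (Λ / m) ^ 2 := sq_nonneg _
      nlinarith
    have h4 : (201 * ρ * (Λ / m) ^ 2 + C0 * Λ ^ 2) ^ s ≤ ((201 + C0) * Λ ^ 2) ^ s :=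
      Real.rpow_le_rpow (by positivity) h1 hs.le
    have h5 : (201 * ρ * (Λ / m) ^ 2) ^ (1 - s) = (201 * ρ) ^ (1 - s) * ((m : ℝ) ^ (-s)) ^ (1 - s) := by
      rw [Real.mul_rpow (by positivity) (by positivity), hΛm2]
    have h6 : ((201 + C0) * Λ ^ 2) ^ s = (201 + C0) ^ s * ((m : ℝ) ^ (2 - s)) ^ s := by
      rw [Real.mul_rpow (by positivity) (by positivity), hΛ2]
    have h7 : ((m : ℝ) ^ (-s)) ^ (1 - s) * ((m : ℝ) ^ (2 - s)) ^ s = X := by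
      rw [← Real.rpow_mul hm0.le, ← Real.rpow_mul hm0.le, ← Real.rpow_add hm0, hX]
      congr 1
      ring
    calc (201 * ρ * (Λ / m) ^ 2) ^ (1 - s) * (201 * ρ * (Λ / m) ^ 2 + C0 * Λ ^ 2) ^ s
        ≤ ((201 * ρ) ^ (1 - s) * ((m : ℝ) ^ (-s)) ^ (1 - s)) *
          ((201 + C0) ^ s * ((m : ℝ) ^ (2 - s)) ^ s) := by
          rw [← h5, ← h6]
          exact mul_le_mul_of_nonneg_left h4 (by positivity)
      _ = (201 * ρ) ^ (1 - s) * ((201 + C0) ^ s *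
          (((m : ℝ) ^ (-s)) ^ (1 - s) * ((m : ℝ) ^ (2 - s)) ^ s)) := by ring
      _ = (201 * ρ) ^ (1 - s) * ((201 + C0) ^ s * X) := by rw [h7]
      _ ≤ A * ((201 + C0) ^ s * X) := mul_le_mul_of_nonneg_right hρA (by positivity)
  obtain ⟨_, _, _, _, ivT, _⟩ := gr_vel T m Λ σ B hT0 hm40 hΛ1 hΛm hσ0 hσ1 hB1 S T ⟨hT0.le, le_refl _⟩
  obtain ⟨ifT, _, _, _, _, _⟩ := gr_vel T m Λ σ B hT0 hm40 hΛ1 hΛm hσ0 hσ1 hB1 S T ⟨hT0.le, le_refl _⟩
  obtain ⟨_, _, _, _, iv0, _⟩ := gr_vel T m Λ σ B hT0 hm40 hΛ1 hΛm hσ0 hσ1 hB1 S 0 ⟨le_refl _, hT0.le⟩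
  refine ⟨T, m, Λ, σ, B, S, κ * X / (4 * M), hT1, hm40, hΛ1, hΛm, hσ0, hσ1, hB1, by positivity, ?_, ?_⟩
  · have h1 := (hsq_add_le s vb (fun z => S.vel T z - vb z) ivb ifT).1
    have h2 : (fun z => vb z + (S.vel T z - vb z)) = S.vel T := by
      funext z
      ring
    rw [h2] at h1
    refine h1.trans ?_
    have h3 : hsq s (fun z => S.vel T z - vb z) ≤ ENNReal.ofReal (A * ((201 + C0) ^ s * X)) :=
      hup.trans (ENNReal.ofReal_le_ofReal hup2)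
    have h4 : 2 * hsq s vb + 2 * hsq s (fun z => S.vel T z - vb z) ≤
        2 * ENNReal.ofReal Vb + 2 * ENNReal.ofReal (A * ((201 + C0) ^ s * X)) :=
      add_le_add (mul_le_mul' (le_refl _) hVb) (mul_le_mul' (le_refl _) h3)
    refine h4.trans ?_
    have h5 : (2 : ENNReal) = ENNReal.ofReal 2 := by simp
    rw [h5, ← ENNReal.ofReal_mul (by norm_num), ← ENNReal.ofReal_mul (by norm_num),
      ← ENNReal.ofReal_add (by positivity) (by positivity)]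
    apply ENNReal.ofReal_le_ofReal
    have h6 : A * ((201 + C0) ^ s * X) = κ * X / (16 * M) := by
      rw [hA]
      field_simp
    rw [h6]
    have h7 : 2 * Vb ≤ κ * X / (8 * M) := by
      rw [le_div_iff₀ (by positivity)]
      linarith
    have h8 : 2 * (κ * X / (16 * M)) = κ * X / (8 * M) := by
      field_simp
      ring
    have h9 : κ * X / (4 * M) = κ * X / (8 * M) + κ * X / (8 * M) := by
      field_simp
      ring
    rw [h8, h9]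
    linarith
  · have hlow := gr_lower s hs hs1 T m Λ σ B hT0 hm40 hΛ1 hΛm hσ0 hσ1 hB1 S c C hc0 hC0 (hPm m hm40)
    have h1 : ((Λ / 2) ^ 2 * c) ^ (2 - s) / (10 * ((Λ / 2) ^ 2 * (C * (m : ℝ) ^ 2)) ^ (1 - s)) =
        κ * X := by
      have e1 : (Λ / 2) ^ 2 * c = (m : ℝ) ^ (2 - s) * (c / 4) := by
        rw [← hΛ2]; ring
      have e2 : (Λ / 2) ^ 2 * (C * (m : ℝ) ^ 2) = (m : ℝ) ^ (4 - s) * (C / 4) := by
        have : (m : ℝ) ^ (4 - s) = (m : ℝ) ^ (2 - s) * (m : ℝ) ^ 2 := by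
          rw [← Real.rpow_natCast (m : ℝ) 2, ← Real.rpow_add hm0]
          congr 1
          push_cast
          ring
        rw [this, ← hΛ2]; ring
      rw [e1, e2, Real.mul_rpow (by positivity) (by positivity),
        Real.mul_rpow (by positivity) (by positivity), ← Real.rpow_mul hm0.le,
        ← Real.rpow_mul hm0.le]
      have e3 : (m : ℝ) ^ ((2 - s) * (2 - s)) = (m : ℝ) ^ ((4 - s) * (1 - s)) * X := by
        rw [hX, ← Real.rpow_add hm0]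
        congr 1
        ring
      rw [e3, hκ]
      have e4 : (0 : ℝ) < (m : ℝ) ^ ((4 - s) * (1 - s)) := Real.rpow_pos_of_pos hm0 _
      have e5 : (0 : ℝ) < (C / 4) ^ (1 - s) := Real.rpow_pos_of_pos (by linarith) _
      field_simp
    rw [h1] at hlow
    have h2 := (hsq_add_le s (S.vel 0) (fun z => -(vb z)) iv0 ivb.neg).2
    have h3 : (fun z => S.vel 0 z + -(vb z)) = (fun z => S.vel 0 z - vb z) := by
      funext z
      ring
    rw [h3, (hsq_neg s vb).2] at h2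
    have h4 : hdot s vb ≤ ENNReal.ofReal Vb := (hdot_le_hsq s hs.le vb).trans hVb
    have h5 : ENNReal.ofReal (κ * X) ≤ 2 * hdot s (S.vel 0) + ENNReal.ofReal (2 * Vb) := by
      refine hlow.trans (h2.trans ?_)
      rw [ENNReal.ofReal_mul (by norm_num), ENNReal.ofReal_ofNat]
      exact add_le_add (le_refl _) (mul_le_mul' (le_refl _) h4)
    have h6 : ENNReal.ofReal (κ * X - 2 * Vb) ≤ 2 * hdot s (S.vel 0) := by
      rw [ENNReal.ofReal_sub _ (by positivity)]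
      exact tsub_le_iff_right.2 h5
    have h7 : 2 * ENNReal.ofReal (M * (κ * X / (4 * M))) ≤ 2 * hdot s (S.vel 0) := by
      refine le_trans ?_ h6
      have e6 : (2 : ENNReal) = ENNReal.ofReal 2 := by simp
      rw [e6, ← ENNReal.ofReal_mul (by norm_num)]
      apply ENNReal.ofReal_le_ofReal
      have e7 : 2 * (M * (κ * X / (4 * M))) = κ * X / 2 := by
        field_simp
        ring
      rw [e7]
      linarith
    exact (ENNReal.mul_le_mul_iff_right (by norm_num) (by norm_num)).1 h7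

end JK5

end Pool.Agent.Helper383.NI
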