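import Pool.Agent.Helper383.NI.Defs
import Pool.Agent.Helper383.NI.F1
import Pool.Agent.Helper383.NI.G1
import Pool.Agent.Helper383.NI.G2
import Pool.Agent.Helper383.NI.G3
import Pool.Agent.Helper383.NI.G4
import Pool.Agent.Helper383.NI.CA
import Pool.Agent.Helper383.NI.CB
import Pool.Agent.Helper383.NI.CC
import Pool.Agent.Helper383.NI.L1
import Pool.Agent.Helper383.NI.S3

open Complex MeasureTheory Set Filter Topology

namespace Pool.Agent.Helper383.NI

open JF1 (modes_RDt)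
open JG1 (RDt_dz)
open JG2 (hc_fderiv_ne hc_fderiv)
open JG3 (hc_decay hc_schwartz)
open JG4 (hc_cont hc_time)
open JCA (CT_deriv CT_decay)
open JCB (CT_smooth CT_time CT_unique)
open JCC (CT_cont deriv_mean_zero)
open JL1 (euler_of_sol)
open JS3 (fourier_dbar)

namespace JL2

set_option maxHeartbeats 4000000 in
/-- decay of the pressure gradient of the constructed solution -/
theorem pressure_decay (T : ℝ) (m : ℕ) (Λ σ B : ℝ) (hT : 0 < T) (hm : 40 ≤ m) (hΛ : 1 ≤ Λ)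
    (hη : Λ ≤ m) (hσ : 0 < σ) (hσ1 : σ ≤ 1 / 2) (hB : 1 ≤ B) (S : Sol T m Λ σ B)
    (p : ℝ → ℂ → ℝ) (hE : IsEulerSolution T (fun t z => (starRingEnd ℂ) (S.vel t z)) p) :
    ∃ C : ℝ, ∀ t ∈ Icc 0 T, ∀ z, ‖gradient (p t) z‖ ≤ C / (1 + ‖z‖) ^ 2 := by
  obtain ⟨hRw, hRt, hder⟩ := modes_RDt T m Λ σ B hT hm hΛ hη hσ hσ1 hB S
  obtain ⟨_, hdb, ⟨Cv, hCv⟩, _⟩ := euler_of_sol T m Λ σ B hT hm hΛ hη hσ hσ1 hB S
  -- joint continuity
  have hcw : ContinuousOn (fun q : ℝ × ℂ => S.om q.1 q.2) (Icc 0 T ×ˢ univ) :=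
    hc_cont T _ hRw
  have hct : ContinuousOn (fun q : ℝ × ℂ => S.omt q.1 q.2) (Icc 0 T ×ˢ univ) :=
    hc_cont T _ hRt
  have hcw1 : ∀ t ∈ Icc 0 T, Continuous (S.om t) := by
    intro t ht
    have h1 : ContinuousOn (fun z : ℂ => S.om t z) univ :=
      hcw.comp (f := fun z : ℂ => ((t, z) : ℝ × ℂ)) (by fun_prop)
        (fun z _ => Set.mem_prod.mpr ⟨ht, Set.mem_univ _⟩)
    exact continuousOn_univ.mp h1
  have hct1 : ∀ t ∈ Icc 0 T, Continuous (S.omt t) := by
    intro t ht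
    have h1 : ContinuousOn (fun z : ℂ => S.omt t z) univ :=
      hct.comp (f := fun z : ℂ => ((t, z) : ℝ × ℂ)) (by fun_prop)
        (fun z _ => Set.mem_prod.mpr ⟨ht, Set.mem_univ _⟩)
    exact continuousOn_univ.mp h1
  obtain ⟨C1, hC1, hb1⟩ := hc_decay T _ hRw 4
  obtain ⟨C2, hC2, hb2⟩ := hc_decay T _ hRt 4
  have hb1' : ∀ t ∈ Icc 0 T, ∀ z, ‖S.om t z‖ ≤ C1 / (1 + ‖z‖) ^ 4 := fun t ht z => (hb1 t ht z).1
  have hb2' : ∀ t ∈ Icc 0 T, ∀ z, ‖S.omt t z‖ ≤ C2 / (1 + ‖z‖) ^ 4 := fun t ht z => (hb2 t ht z).1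
  have htime : ∀ t ∈ Icc 0 T, ∀ z, HasDerivWithinAt (fun τ => S.om τ z) (S.omt t z) (Icc 0 T) t :=
    hc_time T _ _ hRw hRt hder
  -- integrability of the bound
  have hint0 : ∀ C : ℝ, Integrable (fun z : ℂ => C / (1 + ‖z‖) ^ 4) := by
    intro C
    have h1 : Integrable (fun z : ℂ => (1 + ‖z‖) ^ (-(4 : ℝ))) := by
      apply integrable_one_add_norm
      rw [Complex.finrank_real_complex]
      norm_num
    have h2 := h1.const_mul C
    refine h2.congr (Filter.Eventually.of_forall fun z => ?_)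
    have h3 : (0 : ℝ) ≤ 1 + ‖z‖ := by positivity
    simp only
    rw [Real.rpow_neg h3, div_eq_mul_inv]
    norm_cast
  have hintw : ∀ t ∈ Icc 0 T, Integrable (S.om t) := fun t ht =>
    (hint0 C1).mono' (hcw1 t ht).aestronglyMeasurable (Filter.Eventually.of_forall (hb1' t ht))
  -- zero mean of the vorticity
  have hzero : ∀ t ∈ Icc 0 T, (∫ z, S.om t z) = 0 := by
    intro t ht
    obtain ⟨Av, hAv, hfd⟩ := hdb t ht
    have hcv : Continuous (S.vel t) :=
      continuous_iff_continuousAt.mpr fun z => (hfd z).continuousAt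
    have hiv : Integrable (S.vel t) :=
      (hint0 Cv).mono' hcv.aestronglyMeasurable (Filter.Eventually.of_forall (hCv t ht))
    have hval : ∀ a b : ℂ, (dfm a b 1 + I * dfm a b I) / 2 = b := by
      intro a b
      simp only [dfm, ContinuousLinearMap.add_apply, ContinuousLinearMap.smul_apply,
        ContinuousLinearMap.id_apply, smul_eq_mul, ContinuousLinearEquiv.coe_coe,
        Complex.conjCLE_apply, map_one, Complex.conj_I]
      linear_combination (1 / 2 * a - 1 / 2 * b) * Complex.I_mul_I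
    have hcf : Continuous (fun z => dfm (Av z) (-(I / 2) * S.om t z)) := by
      unfold dfm
      have h1 := hcw1 t ht
      fun_prop
    have hfun : (fun z => (dfm (Av z) (-(I / 2) * S.om t z) 1
        + I * dfm (Av z) (-(I / 2) * S.om t z) I) / 2) = fun z => -(I / 2) * S.om t z := by
      funext z
      exact hval _ _
    have hF := fourier_dbar (S.vel t) (fun z => dfm (Av z) (-(I / 2) * S.om t z)) hfd hcf hiv
      (by rw [hfun]; exact (hintw t ht).const_mul _) 0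
    rw [hfun] at hF
    simp only [mul_zero, zero_mul] at hF
    rw [Real.fourier_eq] at hF
    simp only [inner_zero_right, neg_zero, AddChar.map_zero_eq_one, one_smul] at hF
    rw [integral_const_mul] at hF
    rcases mul_eq_zero.mp hF with h | h
    · exfalso
      have h3 : (I : ℂ) ≠ 0 := Complex.I_ne_zero
      apply h3
      have h4 : I / 2 = 0 := neg_eq_zero.mp h
      have h5 : I = 2 * (I / 2) := by ring
      rw [h5, h4, mul_zero]
    · exact h
  -- zero mean of its time derivative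
  have hzerot : ∀ t ∈ Icc 0 T, (∫ z, S.omt t z) = 0 := by
    intro t ht
    have h1 : HasDerivWithinAt (fun τ => ∫ z, S.om τ z) (∫ z, S.omt t z) (Icc 0 T) t := by
      rw [hasDerivWithinAt_iff_tendsto_slope]
      have h2 : Tendsto (fun s => ∫ z, slope (fun τ => S.om τ z) t s) (𝓝[Icc 0 T \ {t}] t)
          (𝓝 (∫ z, S.omt t z)) := by
        apply tendsto_integral_filter_of_dominated_convergence (fun z : ℂ => C2 / (1 + ‖z‖) ^ 4)
        · refine eventually_nhdsWithin_of_forall fun s hs => ?_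
          have h3 : Continuous (fun z => slope (fun τ => S.om τ z) t s) := by
            simp only [slope_def_module]
            have h4 := hcw1 s hs.1
            have h5 := hcw1 t ht
            fun_prop
          exact h3.aestronglyMeasurable
        · refine eventually_nhdsWithin_of_forall fun s hs => Filter.Eventually.of_forall fun z => ?_
          have hne : s - t ≠ 0 := sub_ne_zero.mpr fun h => hs.2 (by rw [h]; exact Set.mem_singleton _)
          have h6 : ‖S.om s z - S.om t z‖ ≤ C2 / (1 + ‖z‖) ^ 4 * ‖s - t‖ :=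
            Convex.norm_image_sub_le_of_norm_hasDerivWithin_le (f := fun τ => S.om τ z)
              (f' := fun τ => S.omt τ z) (fun τ hτ => htime τ hτ z) (fun τ hτ => hb2' τ hτ z)
              (convex_Icc 0 T) ht hs.1
          have hpos : 0 < ‖s - t‖ := norm_pos_iff.mpr hne
          rw [slope_def_module, norm_smul, norm_inv, inv_mul_le_iff₀ hpos, mul_comm]
          exact h6
        · exact hint0 C2
        · refine Filter.Eventually.of_forall fun z => ?_
          exact hasDerivWithinAt_iff_tendsto_slope.mp (htime t ht z)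
      refine h2.congr' ?_
      refine eventually_nhdsWithin_of_forall fun s hs => ?_
      simp only [slope_def_module]
      rw [integral_smul, integral_sub (hintw s hs.1) (hintw t ht)]
    have h2 : HasDerivWithinAt (fun τ => ∫ z, S.om τ z) 0 (Icc 0 T) t :=
      (hasDerivWithinAt_const t (Icc 0 T) (0 : ℂ)).congr (fun s hs => hzero s hs) (hzero t ht)
    exact (uniqueDiffOn_Icc hT t ht).eq_deriv _ h1 h2
  obtain ⟨K, hK, hKd⟩ := CT_decay
  have hCTb : ∀ t ∈ Icc 0 T, ∀ z, ‖CT (S.omt t) z‖ ≤ K * C2 / (1 + ‖z‖) ^ 2 :=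
    fun t ht => (hKd (S.omt t) C2 (hct1 t ht) (hb2' t ht)).2 (hzerot t ht)
  have hCTt := (CT_time T (max C1 C2) S.om S.omt hcw hct
    (fun t ht z => (hb1' t ht z).trans (by gcongr; exact le_max_left _ _))
    (fun t ht z => (hb2' t ht z).trans (by gcongr; exact le_max_right _ _)) htime).2
  obtain ⟨C3, hC3⟩ := hE.bound
  refine ⟨C3 ^ 2 + K * C2 / 2, fun t ht z => ?_⟩
  have hu : HasDerivWithinAt (fun τ => (starRingEnd ℂ) (S.vel τ z))
      ((starRingEnd ℂ) (-(I / 2) * CT (S.omt t) z)) (Icc 0 T) t :=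
    ((hCTt t ht z).const_mul (-(I / 2))).star
  have hm2 := hE.momentum t ht z
  have heq := (uniqueDiffOn_Icc hT t ht).eq_deriv _ hm2 hu
  set u := (starRingEnd ℂ) (S.vel t z) with hudef
  set D := fderiv ℝ (fun z => (starRingEnd ℂ) (S.vel t z)) z with hDdef
  have hgrad : gradient (p t) z = -(D u) - (starRingEnd ℂ) (-(I / 2) * CT (S.omt t) z) := by
    rw [← heq]; ring
  obtain ⟨hu1, hD1⟩ := hC3 t ht z
  have hr : (1 : ℝ) ≤ 1 + ‖z‖ := by linarith [norm_nonneg z]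
  have hr0 : (0 : ℝ) < (1 + ‖z‖) ^ 2 := by positivity
  have hu1' : ‖u‖ ≤ C3 / (1 + ‖z‖) ^ 2 := hu1
  have hD1' : ‖D‖ ≤ C3 / (1 + ‖z‖) ^ 2 := hD1
  have hq0 : 0 ≤ C3 / (1 + ‖z‖) ^ 2 := (norm_nonneg _).trans hu1'
  have h7 : ‖D u‖ ≤ C3 ^ 2 / (1 + ‖z‖) ^ 2 := by
    calc ‖D u‖ ≤ ‖D‖ * ‖u‖ := D.le_opNorm u
      _ ≤ (C3 / (1 + ‖z‖) ^ 2) * (C3 / (1 + ‖z‖) ^ 2) := by
          exact mul_le_mul hD1' hu1' (norm_nonneg _) hq0
      _ = C3 ^ 2 / (1 + ‖z‖) ^ 2 * (1 / (1 + ‖z‖) ^ 2) := by field_simp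
      _ ≤ C3 ^ 2 / (1 + ‖z‖) ^ 2 * 1 := by
          apply mul_le_mul_of_nonneg_left _ (by positivity)
          rw [div_le_one hr0]
          nlinarith
      _ = C3 ^ 2 / (1 + ‖z‖) ^ 2 := mul_one _
  have h8 : ‖(starRingEnd ℂ) (-(I / 2) * CT (S.omt t) z)‖ ≤ K * C2 / 2 / (1 + ‖z‖) ^ 2 := by
    rw [RCLike.norm_conj, norm_mul, norm_neg, norm_div, Complex.norm_I]
    have h9 := hCTb t ht z
    have h10 : ‖(2 : ℂ)‖ = 2 := by norm_num
    rw [h10]
    calc 1 / 2 * ‖CT (S.omt t) z‖ ≤ 1 / 2 * (K * C2 / (1 + ‖z‖) ^ 2) := by gcongr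
      _ = K * C2 / 2 / (1 + ‖z‖) ^ 2 := by ring
  rw [hgrad]
  calc ‖-(D u) - (starRingEnd ℂ) (-(I / 2) * CT (S.omt t) z)‖
      ≤ ‖-(D u)‖ + ‖(starRingEnd ℂ) (-(I / 2) * CT (S.omt t) z)‖ := norm_sub_le _ _
    _ ≤ C3 ^ 2 / (1 + ‖z‖) ^ 2 + K * C2 / 2 / (1 + ‖z‖) ^ 2 := by
        rw [norm_neg]; exact add_le_add h7 h8
    _ = (C3 ^ 2 + K * C2 / 2) / (1 + ‖z‖) ^ 2 := by ring

end JL2

end Pool.Agent.Helper383.NI
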