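import Pool.Agent.Helper383.NI.Defs

open Complex MeasureTheory Set Filter Topology

namespace Pool.Agent.Helper383.NI


namespace JU0

/-- smooth (`H^∞`) solutions of the planar incompressible Euler equations on `[0,T]`
(`ℂ = ℝ²`, velocity `u`, pressure `p`, pressure gradient square integrable) -/
structure IsHinfEuler (T : ℝ) (u : ℝ → ℂ → ℂ) (p : ℝ → ℂ → ℝ) : Prop where
  smooth : ∀ t ∈ Icc 0 T, ContDiff ℝ (⊤ : ℕ∞) (u t)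
  sobolev : ∀ t ∈ Icc 0 T, ∀ n : ℕ, MemLp (iteratedFDeriv ℝ n (u t)) 2
  bounded : ∃ C : ℝ, ∀ t ∈ Icc 0 T, (∀ z, ‖u t z‖ ≤ C ∧ ‖fderiv ℝ (u t) z‖ ≤ C) ∧
    ∫⁻ z : ℂ, ‖u t z‖ₑ ^ 2 ≤ ENNReal.ofReal C
  cont : ContinuousOn (fun q : ℝ × ℂ => u q.1 q.2) (Icc 0 T ×ˢ univ)
  cont_space : ContinuousOn (fun q : ℝ × ℂ => fderiv ℝ (u q.1) q.2) (Icc 0 T ×ˢ univ)
  pressure : ∀ t ∈ Icc 0 T, ContDiff ℝ 1 (p t)
  pressure_cont : ContinuousOn (fun q : ℝ × ℂ => gradient (p q.1) q.2) (Icc 0 T ×ˢ univ)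
  pressure_bound : ∃ C : ℝ, ∀ t ∈ Icc 0 T,
    ∫⁻ z : ℂ, ‖gradient (p t) z‖ₑ ^ 2 ≤ ENNReal.ofReal C
  divfree : ∀ t ∈ Icc 0 T, ∀ z, (fderiv ℝ (u t) z 1).re + (fderiv ℝ (u t) z I).im = 0
  momentum : ∀ t ∈ Icc 0 T, ∀ z, HasDerivWithinAt (fun τ => u τ z)
    (-(fderiv ℝ (u t) z (u t z)) - gradient (p t) z) (Icc 0 T) t

end JU0

end Pool.Agent.Helper383.NI
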