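import Pool.Agent.Helper383.NI.Defs
import Pool.Agent.Helper383.NI.U0

open Complex MeasureTheory Set Filter Topology

namespace Pool.Agent.Helper383.NI

open JU0 (IsHinfEuler)

namespace JR1

theorem lint_comp_smul {E : Type*} [NormedAddCommGroup E] (b : ℝ) (hb : 0 < b) (f : ℂ → E) :
    ∫⁻ z : ℂ, ‖f (b • z)‖ₑ ^ 2 = ENNReal.ofReal ((b ^ 2)⁻¹) * ∫⁻ z : ℂ, ‖f z‖ₑ ^ 2 := by
  have h1 : MeasurableEmbedding (fun z : ℂ => b • z) :=
    (Homeomorph.smulOfNeZero b hb.ne').measurableEmbedding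
  have h2 := h1.lintegral_map (μ := volume) (fun z : ℂ => ‖f z‖ₑ ^ 2)
  rw [← h2]
  have h3 := Measure.map_addHaar_smul (volume : Measure ℂ) hb.ne'
  have h4 : Measure.map (fun z : ℂ => b • z) volume = ENNReal.ofReal ((b ^ 2)⁻¹) • (volume : Measure ℂ) := by
    rw [Complex.finrank_real_complex, abs_of_pos (by positivity)] at h3
    exact h3
  rw [h4, lintegral_smul_measure]
  rfl

theorem lint_const_smul {E : Type*} [NormedAddCommGroup E] [NormedSpace ℝ E] (c : ℝ) (f : ℂ → E) :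
    ∫⁻ z : ℂ, ‖c • f z‖ₑ ^ 2 = ENNReal.ofReal (c ^ 2) * ∫⁻ z : ℂ, ‖f z‖ₑ ^ 2 := by
  have e : ∀ z : ℂ, ‖c • f z‖ₑ ^ 2 = ENNReal.ofReal (c ^ 2) * ‖f z‖ₑ ^ 2 := by
    intro z
    rw [enorm_smul, mul_pow]
    congr 1
    rw [← ofReal_norm, ← ENNReal.ofReal_pow (norm_nonneg _), Real.norm_eq_abs, sq_abs]
  simp only [e]
  rw [lintegral_const_mul' _ _ ENNReal.ofReal_ne_top]

theorem gradient_smul_comp (c b : ℝ) (f : ℂ → ℝ) (hf : Differentiable ℝ f) (z : ℂ) :
    gradient (fun z => c * f (b • z)) z = (c * b) • gradient f (b • z) := by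
  have h : fderiv ℝ (fun z => c * f (b • z)) z = (c * b) • fderiv ℝ f (b • z) := by
    have hd : DifferentiableAt ℝ (fun z : ℂ => f (b • z)) z := by
      have := (hf (b • z)).comp z ((differentiableAt_id (𝕜 := ℝ) (x := z)).const_smul b)
      exact this
    rw [fderiv_const_mul hd, fderiv_comp_smul, smul_smul]
  unfold gradient
  rw [h, map_smulₛₗ]
  rfl

/-- time reversal and scaling -/
theorem reverse_scale (T a b : ℝ) (hT : 0 < T) (ha : 0 < a) (hb : 0 < b) (u : ℝ → ℂ → ℂ)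
    (p : ℝ → ℂ → ℝ) (h : IsHinfEuler T u p) :
    IsHinfEuler (T / (a * b)) (fun t z => -((a : ℂ) * u (T - a * b * t) ((b : ℂ) * z)))
      (fun t z => a ^ 2 * p (T - a * b * t) ((b : ℂ) * z)) := by
  have hab : 0 < a * b := mul_pos ha hb
  have e1 : (fun (t : ℝ) (z : ℂ) => -((a : ℂ) * u (T - a * b * t) ((b : ℂ) * z))) =
      fun t z => (-a) • u (T - a * b * t) (b • z) := by
    funext t z
    rw [Complex.real_smul, Complex.real_smul]; push_cast; ring
  have e2 : (fun (t : ℝ) (z : ℂ) => a ^ 2 * p (T - a * b * t) ((b : ℂ) * z)) =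
      fun t z => a ^ 2 * p (T - a * b * t) (b • z) := by
    funext t z
    rw [Complex.real_smul]
  rw [e1, e2]
  have hmap : ∀ t ∈ Icc 0 (T / (a * b)), T - a * b * t ∈ Icc 0 T := by
    intro t ht
    have h1 : a * b * t ≤ T := by
      have := mul_le_mul_of_nonneg_left ht.2 hab.le
      rwa [mul_div_cancel₀ _ hab.ne'] at this
    have h2 : 0 ≤ a * b * t := mul_nonneg hab.le ht.1
    constructor <;> linarith
  have hsm : ∀ t ∈ Icc 0 (T / (a * b)), ContDiff ℝ (⊤ : ℕ∞) (fun z : ℂ => u (T - a * b * t) (b • z)) := by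
    intro t ht
    exact (h.smooth _ (hmap t ht)).comp (contDiff_id.const_smul b)
  have hfd : ∀ t ∈ Icc 0 (T / (a * b)), ∀ z : ℂ, fderiv ℝ (fun z : ℂ => (-a) • u (T - a * b * t) (b • z)) z =
      (-(a * b)) • fderiv ℝ (u (T - a * b * t)) (b • z) := by
    intro t ht z
    have hd : DifferentiableAt ℝ (fun z : ℂ => u (T - a * b * t) (b • z)) z :=
      ((hsm t ht).differentiable (by simp)).differentiableAt
    rw [fderiv_fun_const_smul hd, fderiv_comp_smul (f := u (T - a * b * t)), smul_smul]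
    congr 1; ring
  have hgr : ∀ t ∈ Icc 0 (T / (a * b)), ∀ z : ℂ, gradient (fun z : ℂ => a ^ 2 * p (T - a * b * t) (b • z)) z =
      (a ^ 2 * b) • gradient (p (T - a * b * t)) (b • z) := by
    intro t ht z
    exact gradient_smul_comp _ _ _ ((h.pressure _ (hmap t ht)).differentiable (by norm_num)) z
  have hphi : Continuous (fun q : ℝ × ℂ => ((T - a * b * q.1, b • q.2) : ℝ × ℂ)) := by fun_prop
  have hphim : MapsTo (fun q : ℝ × ℂ => ((T - a * b * q.1, b • q.2) : ℝ × ℂ))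
      (Icc 0 (T / (a * b)) ×ˢ univ) (Icc 0 T ×ˢ univ) := by
    intro q hq
    exact ⟨hmap q.1 hq.1, mem_univ _⟩
  constructor
  · intro t ht
    exact (hsm t ht).const_smul (-a)
  · intro t ht n
    have hs := h.sobolev _ (hmap t ht) n
    have hsm' := h.smooth _ (hmap t ht)
    have e : iteratedFDeriv ℝ n (fun z : ℂ => (-a) • u (T - a * b * t) (b • z)) =
        fun z => (-a * b ^ n) • iteratedFDeriv ℝ n (u (T - a * b * t)) (b • z) := by
      funext z
      rw [iteratedFDeriv_const_smul_apply' ((hsm t ht).contDiffAt.of_le (by exact_mod_cast le_top)),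
        iteratedFDeriv_comp_const_smul b (hsm'.of_le (by exact_mod_cast le_top)), smul_smul]
    show MemLp (iteratedFDeriv ℝ n (fun z : ℂ => (-a) • u (T - a * b * t) (b • z))) 2
    rw [e]
    suffices hsuf : MemLp (fun z : ℂ => iteratedFDeriv ℝ n (u (T - a * b * t)) (b • z)) 2 volume from
      hsuf.const_smul (-a * b ^ n)
    have hc : Continuous (iteratedFDeriv ℝ n (u (T - a * b * t))) :=
      hsm'.continuous_iteratedFDeriv (by exact_mod_cast le_top)
    have hc2 : Continuous fun z : ℂ => iteratedFDeriv ℝ n (u (T - a * b * t)) (b • z) :=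
      hc.comp (continuous_const_smul b)
    rw [memLp_two_iff_integrable_sq_norm hc2.aestronglyMeasurable]
    rw [memLp_two_iff_integrable_sq_norm hc.aestronglyMeasurable] at hs
    exact (integrable_comp_smul_iff volume (fun z : ℂ => ‖iteratedFDeriv ℝ n (u (T - a * b * t)) z‖ ^ 2) hb.ne').mpr hs
  · obtain ⟨C, hC⟩ := h.bounded
    have hC0 : 0 ≤ C := by
      have := (hC 0 ⟨le_rfl, hT.le⟩).1 0
      exact (norm_nonneg _).trans this.1
    refine ⟨a * C + a * b * C + a ^ 2 * (b ^ 2)⁻¹ * C, fun t ht => ⟨fun z => ⟨?_, ?_⟩, ?_⟩⟩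
    · have := ((hC _ (hmap t ht)).1 (b • z)).1
      show ‖(-a) • u (T - a * b * t) (b • z)‖ ≤ _
      rw [norm_smul, norm_neg, Real.norm_eq_abs, abs_of_pos ha]
      have h1 : a * ‖u (T - a * b * t) (b • z)‖ ≤ a * C := by gcongr
      have h2 : 0 ≤ a * b * C := by positivity
      have h3 : 0 ≤ a ^ 2 * (b ^ 2)⁻¹ * C := by positivity
      linarith
    · have := ((hC _ (hmap t ht)).1 (b • z)).2
      show ‖fderiv ℝ (fun z : ℂ => (-a) • u (T - a * b * t) (b • z)) z‖ ≤ _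
      rw [hfd t ht z, norm_smul, norm_neg, Real.norm_eq_abs, abs_of_pos hab]
      have h1 : a * b * ‖fderiv ℝ (u (T - a * b * t)) (b • z)‖ ≤ a * b * C := by gcongr
      have h2 : 0 ≤ a * C := by positivity
      have h3 : 0 ≤ a ^ 2 * (b ^ 2)⁻¹ * C := by positivity
      linarith
    · have := (hC _ (hmap t ht)).2
      show ∫⁻ z : ℂ, ‖(-a) • u (T - a * b * t) (b • z)‖ₑ ^ 2 ≤ _
      rw [lint_const_smul (-a) (fun z : ℂ => u (T - a * b * t) (b • z)), lint_comp_smul b hb (u (T - a * b * t))]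
      calc ENNReal.ofReal ((-a) ^ 2) * (ENNReal.ofReal ((b ^ 2)⁻¹) * ∫⁻ z : ℂ, ‖u (T - a * b * t) z‖ₑ ^ 2)
          ≤ ENNReal.ofReal ((-a) ^ 2) * (ENNReal.ofReal ((b ^ 2)⁻¹) * ENNReal.ofReal C) := by gcongr
        _ = ENNReal.ofReal (a ^ 2 * (b ^ 2)⁻¹ * C) := by
            rw [← ENNReal.ofReal_mul (by positivity), ← ENNReal.ofReal_mul (by positivity)]
            congr 1; ring
        _ ≤ _ := by
            apply ENNReal.ofReal_le_ofReal
            have h2 : 0 ≤ a * b * C := by positivity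
            have h3 : 0 ≤ a * C := by positivity
            linarith
  · have := (h.cont.comp hphi.continuousOn hphim).const_smul (-a)
    exact this
  · have := (h.cont_space.comp hphi.continuousOn hphim).const_smul (-(a * b))
    refine this.congr ?_
    intro q hq
    exact hfd q.1 hq.1 q.2
  · intro t ht
    have := (h.pressure _ (hmap t ht)).comp ((contDiff_id (𝕜 := ℝ) (E := ℂ) (n := 1)).const_smul b)
    exact contDiff_const.mul this
  · have := (h.pressure_cont.comp hphi.continuousOn hphim).const_smul (a ^ 2 * b)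
    refine this.congr ?_
    intro q hq
    exact hgr q.1 hq.1 q.2
  · obtain ⟨C, hC⟩ := h.pressure_bound
    refine ⟨(a ^ 2 * b) ^ 2 * (b ^ 2)⁻¹ * C, fun t ht => ?_⟩
    have hb1 := hC _ (hmap t ht)
    have e : ∫⁻ z : ℂ, ‖gradient (fun z : ℂ => a ^ 2 * p (T - a * b * t) (b • z)) z‖ₑ ^ 2 =
        ∫⁻ z : ℂ, ‖(a ^ 2 * b) • gradient (p (T - a * b * t)) (b • z)‖ₑ ^ 2 := by
      congr 1; funext z; rw [hgr t ht z]
    show ∫⁻ z : ℂ, ‖gradient (fun z : ℂ => a ^ 2 * p (T - a * b * t) (b • z)) z‖ₑ ^ 2 ≤ _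
    rw [e, lint_const_smul (a ^ 2 * b) (fun z : ℂ => gradient (p (T - a * b * t)) (b • z)),
      lint_comp_smul b hb (fun z => gradient (p (T - a * b * t)) z)]
    calc ENNReal.ofReal ((a ^ 2 * b) ^ 2) * (ENNReal.ofReal ((b ^ 2)⁻¹) *
          ∫⁻ z : ℂ, ‖gradient (p (T - a * b * t)) z‖ₑ ^ 2)
        ≤ ENNReal.ofReal ((a ^ 2 * b) ^ 2) * (ENNReal.ofReal ((b ^ 2)⁻¹) * ENNReal.ofReal C) := by gcongr
      _ = ENNReal.ofReal ((a ^ 2 * b) ^ 2 * (b ^ 2)⁻¹ * C) := by
          rw [← ENNReal.ofReal_mul (by positivity), ← ENNReal.ofReal_mul (by positivity)]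
          congr 1; ring
  · intro t ht z
    have hdiv := h.divfree _ (hmap t ht) (b • z)
    show (fderiv ℝ (fun z : ℂ => (-a) • u (T - a * b * t) (b • z)) z 1).re +
      (fderiv ℝ (fun z : ℂ => (-a) • u (T - a * b * t) (b • z)) z I).im = 0
    rw [hfd t ht z]
    simp only [_root_.smul_apply, Complex.smul_re, Complex.smul_im, smul_eq_mul]
    rw [← mul_add, hdiv, mul_zero]
  · intro t ht z
    have hm := h.momentum _ (hmap t ht) (b • z)
    have hin : HasDerivWithinAt (fun τ : ℝ => T - a * b * τ) (-(a * b)) (Icc 0 (T / (a * b))) t := by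
      have := ((hasDerivAt_id t).const_mul (a * b)).const_sub T
      simpa using this.hasDerivWithinAt
    have hc := (HasDerivWithinAt.scomp (h := fun τ : ℝ => T - a * b * τ) t hm hin hmap).const_smul (-a)
    show HasDerivWithinAt (fun τ => (-a) • u (T - a * b * τ) (b • z))
      (-(fderiv ℝ (fun z : ℂ => (-a) • u (T - a * b * t) (b • z)) z ((-a) • u (T - a * b * t) (b • z)))
        - gradient (fun z : ℂ => a ^ 2 * p (T - a * b * t) (b • z)) z) (Icc 0 (T / (a * b))) t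
    rw [hfd t ht z, hgr t ht z]
    refine HasDerivWithinAt.congr_deriv (f := fun τ => (-a) • u (T - a * b * τ) (b • z)) hc ?_
    have e5 : ((-(a * b)) • fderiv ℝ (u (T - a * b * t)) (b • z)) ((-a) • u (T - a * b * t) (b • z)) =
        (a ^ 2 * b) • (fderiv ℝ (u (T - a * b * t)) (b • z)) (u (T - a * b * t) (b • z)) := by
      rw [_root_.smul_apply, map_smul, smul_smul]
      congr 1; ring
    rw [e5]
    module

theorem dec_lint {E : Type*} [NormedAddCommGroup E] (f : ℂ → E) (C : ℝ) (hf : ∀ z, ‖f z‖ ≤ C / (1 + ‖z‖) ^ 2) :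
    ∫⁻ z : ℂ, ‖f z‖ₑ ^ 2 ≤
      ENNReal.ofReal (C ^ 2 * (∫⁻ z : ℂ, ENNReal.ofReal ((1 + ‖z‖) ^ (-(4 : ℝ)))).toReal) := by
  have hfin : (∫⁻ z : ℂ, ENNReal.ofReal ((1 + ‖z‖) ^ (-(4 : ℝ)))) < ⊤ := by
    apply finite_integral_one_add_norm
    rw [Complex.finrank_real_complex]; norm_num
  calc ∫⁻ z : ℂ, ‖f z‖ₑ ^ 2 ≤ ∫⁻ z : ℂ, ENNReal.ofReal (C ^ 2) * ENNReal.ofReal ((1 + ‖z‖) ^ (-(4 : ℝ))) := by
        apply lintegral_mono
        intro z
        simp only
        rw [← ofReal_norm, ← ENNReal.ofReal_pow (norm_nonneg _), ← ENNReal.ofReal_mul (by positivity)]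
        apply ENNReal.ofReal_le_ofReal
        have h1 : 0 < 1 + ‖z‖ := by positivity
        have h2 : (1 + ‖z‖) ^ (-(4 : ℝ)) = ((1 + ‖z‖) ^ 4)⁻¹ := by
          rw [Real.rpow_neg h1.le]
          congr 1
          rw [show (4 : ℝ) = ((4 : ℕ) : ℝ) by norm_num, Real.rpow_natCast]
        rw [h2]
        calc ‖f z‖ ^ 2 ≤ (C / (1 + ‖z‖) ^ 2) ^ 2 := by
              have := hf z
              gcongr
          _ = C ^ 2 * ((1 + ‖z‖) ^ 4)⁻¹ := by
              rw [div_pow, ← pow_mul]; rfl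
    _ = ENNReal.ofReal (C ^ 2) * ∫⁻ z : ℂ, ENNReal.ofReal ((1 + ‖z‖) ^ (-(4 : ℝ))) :=
        lintegral_const_mul' _ _ ENNReal.ofReal_ne_top
    _ = ENNReal.ofReal (C ^ 2 * (∫⁻ z : ℂ, ENNReal.ofReal ((1 + ‖z‖) ^ (-(4 : ℝ)))).toReal) := by
        rw [ENNReal.ofReal_mul (by positivity), ENNReal.ofReal_toReal hfin.ne]

/-- the constructed solutions are smooth solutions in the general class -/
theorem hinf_of_euler (T C : ℝ) (hT : 0 < T) (u : ℝ → ℂ → ℂ) (p : ℝ → ℂ → ℝ)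
    (hE : IsEulerSolution T u p)
    (hp : ∀ t ∈ Icc 0 T, ∀ z, ‖gradient (p t) z‖ ≤ C / (1 + ‖z‖) ^ 2) :
    IsHinfEuler T u p := by
  refine ⟨hE.smooth, hE.sobolev, ?_, hE.cont, hE.cont_space, hE.pressure, ?_, ?_, hE.divfree, hE.momentum⟩
  · obtain ⟨C1, hC1⟩ := hE.bound
    have hC0 : 0 ≤ C1 := by
      have := ((hC1 0 ⟨le_rfl, hT.le⟩) 0).1
      simp at this
      exact (norm_nonneg _).trans this
    set K := (∫⁻ z : ℂ, ENNReal.ofReal ((1 + ‖z‖) ^ (-(4 : ℝ)))).toReal with hK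
    have hK0 : 0 ≤ K := ENNReal.toReal_nonneg
    have hle : ∀ z : ℂ, C1 / (1 + ‖z‖) ^ 2 ≤ C1 := by
      intro z
      apply div_le_self hC0
      have : 1 ≤ 1 + ‖z‖ := by linarith [norm_nonneg z]
      exact one_le_pow₀ this
    have hs : 0 ≤ C1 ^ 2 * K := by positivity
    refine ⟨C1 + C1 ^ 2 * K, fun t ht => ⟨fun z => ⟨?_, ?_⟩, ?_⟩⟩
    · have := ((hC1 t ht) z).1
      have := hle z
      linarith
    · have := ((hC1 t ht) z).2
      have := hle z
      linarith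
    · refine (dec_lint (u t) C1 (fun z => ((hC1 t ht) z).1)).trans ?_
      apply ENNReal.ofReal_le_ofReal
      rw [← hK]
      linarith
  · have h1 : ContinuousOn (fun q : ℝ × ℂ => fderiv ℝ (u q.1) q.2 (u q.1 q.2)) (Icc 0 T ×ˢ univ) :=
      hE.cont_space.clm_apply hE.cont
    have h2 := h1.neg.sub hE.cont_time
    refine h2.congr ?_
    intro q _
    simp
  · exact ⟨C ^ 2 * (∫⁻ z : ℂ, ENNReal.ofReal ((1 + ‖z‖) ^ (-(4 : ℝ)))).toReal,
      fun t ht => dec_lint _ C (hp t ht)⟩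

end JR1

end Pool.Agent.Helper383.NI
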