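import Pool.Agent.Helper383.NI.Defs

open Complex MeasureTheory Set Filter Topology

namespace Pool.Agent.Helper383.NI


namespace JU1

noncomputable def epo (θ : ℝ) : ℂ := Complex.exp (θ * I)

noncomputable def zpo (r θ : ℝ) : ℂ := (r : ℂ) * epo θ

theorem epo_eq (θ : ℝ) : epo θ = (Real.cos θ : ℂ) + (Real.sin θ : ℂ) * I := by
  unfold epo
  rw [Complex.exp_mul_I, Complex.ofReal_cos, Complex.ofReal_sin]

theorem epo_re (θ : ℝ) : (epo θ).re = Real.cos θ := by
  rw [epo_eq]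
  simp [Complex.cos_ofReal_re]

theorem epo_im (θ : ℝ) : (epo θ).im = Real.sin θ := by
  rw [epo_eq]
  simp [Complex.sin_ofReal_re]

theorem norm_epo (θ : ℝ) : ‖epo θ‖ = 1 := by
  unfold epo
  exact Complex.norm_exp_ofReal_mul_I θ

theorem epo_per : epo Real.pi = epo (-Real.pi) := by
  rw [epo_eq, epo_eq]
  simp

theorem epo_cont : Continuous epo := by
  unfold epo
  fun_prop

theorem zpo_cont : Continuous (fun p : ℝ × ℝ => zpo p.1 p.2) := by
  unfold zpo
  exact (Complex.continuous_ofReal.comp continuous_fst).mul (epo_cont.comp continuous_snd)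

theorem epo_deriv (θ : ℝ) : HasDerivAt epo (I * epo θ) θ := by
  have h1 : HasDerivAt (fun θ : ℝ => (θ : ℂ) * I) (1 * I) θ :=
    (HasDerivAt.ofReal_comp (hasDerivAt_id θ)).mul_const I
  have h2 := h1.cexp
  refine h2.congr_deriv ?_
  unfold epo
  ring

theorem zpo_deriv_r (r θ : ℝ) : HasDerivAt (fun r => zpo r θ) (epo θ) r := by
  have h1 : HasDerivAt (fun r : ℝ => (r : ℂ) * epo θ) (1 * epo θ) r :=
    (HasDerivAt.ofReal_comp (hasDerivAt_id r)).mul_const (epo θ)
  rw [one_mul] at h1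
  exact h1

theorem zpo_deriv_t (r θ : ℝ) : HasDerivAt (fun θ => zpo r θ) ((r : ℂ) * (I * epo θ)) θ :=
  (epo_deriv θ).const_mul (r : ℂ)

theorem polar_ho (f : ℂ → ℝ) (hc : Continuous f) (hf : Integrable f) :
    IntegrableOn (fun p : ℝ × ℝ => p.1 * f (zpo p.1 p.2))
      (Ioi (0 : ℝ) ×ˢ Ioo (-Real.pi) Real.pi) ∧
    ∫ z, f z = ∫ r in Ioi (0 : ℝ), ∫ θ in (-Real.pi)..Real.pi, r * f (zpo r θ) ∧
    IntegrableOn (fun r => ∫ θ in (-Real.pi)..Real.pi, r * f (zpo r θ)) (Ioi (0 : ℝ)) := by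
  have hpol : ∀ p : ℝ × ℝ, Complex.polarCoord.symm p = zpo p.1 p.2 := by
    intro p
    rw [Complex.polarCoord_symm_apply, zpo, epo_eq]
  have hcont : Continuous (fun p : ℝ × ℝ => p.1 * f (zpo p.1 p.2)) :=
    continuous_fst.mul (hc.comp zpo_cont)
  have hint : IntegrableOn (fun p : ℝ × ℝ => p.1 * f (zpo p.1 p.2))
      (Ioi (0 : ℝ) ×ˢ Ioo (-Real.pi) Real.pi) := by
    refine ⟨hcont.aestronglyMeasurable, ?_⟩
    rw [hasFiniteIntegral_iff_enorm]
    have h1 := Complex.lintegral_comp_polarCoord_symm (fun z => ‖f z‖ₑ)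
    have h2 : ∫⁻ p in Ioi (0 : ℝ) ×ˢ Ioo (-Real.pi) Real.pi, ‖p.1 * f (zpo p.1 p.2)‖ₑ =
        ∫⁻ z, ‖f z‖ₑ := by
      rw [← h1]
      refine setLIntegral_congr_fun (measurableSet_Ioi.prod measurableSet_Ioo) ?_
      rintro p ⟨hp, _⟩
      have hp' : (0 : ℝ) < p.1 := hp
      simp only [smul_eq_mul]
      rw [hpol, enorm_mul, Real.enorm_of_nonneg hp'.le]
    rw [h2]
    exact hf.2
  have hpi : -Real.pi ≤ Real.pi := by linarith [Real.pi_pos]
  have hint' : IntegrableOn (fun p : ℝ × ℝ => p.1 * f (zpo p.1 p.2))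
      (Ioi (0 : ℝ) ×ˢ Ioo (-Real.pi) Real.pi) (volume.prod volume) := hint
  refine ⟨hint, ?_, ?_⟩
  · rw [← Complex.integral_comp_polarCoord_symm f]
    have h3 : ∫ p in polarCoord.target, p.1 • f (Complex.polarCoord.symm p) =
        ∫ p in Ioi (0 : ℝ) ×ˢ Ioo (-Real.pi) Real.pi, p.1 * f (zpo p.1 p.2)
          ∂(volume.prod volume) := by
      simp only [hpol, smul_eq_mul]
      rfl
    rw [h3, setIntegral_prod _ hint']
    refine setIntegral_congr_fun measurableSet_Ioi fun r _ => ?_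
    simp only
    rw [intervalIntegral.integral_of_le hpi, integral_Ioc_eq_integral_Ioo]
  · have h4 : Integrable (fun r => ∫ θ in Ioo (-Real.pi) Real.pi, r * f (zpo r θ))
        (volume.restrict (Ioi (0 : ℝ))) := by
      have h5 : Integrable (fun p : ℝ × ℝ => p.1 * f (zpo p.1 p.2))
          ((volume.restrict (Ioi (0 : ℝ))).prod (volume.restrict (Ioo (-Real.pi) Real.pi))) := by
        rw [Measure.prod_restrict]
        exact hint'
      exact h5.integral_prod_left
    refine h4.congr (Eventually.of_forall fun r => ?_)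
    simp only
    rw [intervalIntegral.integral_of_le hpi, integral_Ioc_eq_integral_Ioo]


/-- the angular integrand -/
noncomputable def Pho (w : ℂ → ℂ) (q : ℂ → ℝ) (r θ : ℝ) : ℝ :=
  q (zpo r θ) * inner ℝ (w (zpo r θ)) (zpo r θ)

noncomputable def Pho' (w : ℂ → ℂ) (w' : ℂ → ℂ →L[ℝ] ℂ) (q : ℂ → ℝ) (r θ : ℝ) : ℝ :=
  fderiv ℝ q (zpo r θ) (epo θ) * inner ℝ (w (zpo r θ)) (zpo r θ) +
    q (zpo r θ) * (inner ℝ (w (zpo r θ)) (epo θ) + inner ℝ (w' (zpo r θ) (epo θ)) (zpo r θ))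

noncomputable def Kho (w : ℂ → ℂ) (q : ℂ → ℝ) (r θ : ℝ) : ℝ :=
  q (zpo r θ) * inner ℝ (w (zpo r θ)) (I * epo θ)

noncomputable def Kho' (w : ℂ → ℂ) (w' : ℂ → ℂ →L[ℝ] ℂ) (q : ℂ → ℝ) (r θ : ℝ) : ℝ :=
  fderiv ℝ q (zpo r θ) ((r : ℂ) * (I * epo θ)) * inner ℝ (w (zpo r θ)) (I * epo θ) +
    q (zpo r θ) * (inner ℝ (w (zpo r θ)) (I * (I * epo θ)) +
      inner ℝ (w' (zpo r θ) ((r : ℂ) * (I * epo θ))) (I * epo θ))

theorem Pho_deriv (w : ℂ → ℂ) (w' : ℂ → ℂ →L[ℝ] ℂ) (q : ℂ → ℝ)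
    (hw : ∀ z, HasFDerivAt w (w' z) z) (hq : ContDiff ℝ 1 q) (r θ : ℝ) :
    HasDerivAt (fun r => Pho w q r θ) (Pho' w w' q r θ) r := by
  have h1 : HasDerivAt (fun r => q (zpo r θ)) (fderiv ℝ q (zpo r θ) (epo θ)) r :=
    (hq.differentiable one_ne_zero (zpo r θ)).hasFDerivAt.comp_hasDerivAt r (zpo_deriv_r r θ)
  have h2 : HasDerivAt (fun r => w (zpo r θ)) (w' (zpo r θ) (epo θ)) r :=
    (hw (zpo r θ)).comp_hasDerivAt r (zpo_deriv_r r θ)
  exact h1.mul (h2.inner ℝ (zpo_deriv_r r θ))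

theorem Kho_deriv (w : ℂ → ℂ) (w' : ℂ → ℂ →L[ℝ] ℂ) (q : ℂ → ℝ)
    (hw : ∀ z, HasFDerivAt w (w' z) z) (hq : ContDiff ℝ 1 q) (r θ : ℝ) :
    HasDerivAt (fun θ => Kho w q r θ) (Kho' w w' q r θ) θ := by
  have h1 : HasDerivAt (fun θ => q (zpo r θ)) (fderiv ℝ q (zpo r θ) ((r : ℂ) * (I * epo θ))) θ :=
    (hq.differentiable one_ne_zero (zpo r θ)).hasFDerivAt.comp_hasDerivAt θ (zpo_deriv_t r θ)
  have h2 : HasDerivAt (fun θ => w (zpo r θ)) (w' (zpo r θ) ((r : ℂ) * (I * epo θ))) θ :=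
    (hw (zpo r θ)).comp_hasDerivAt θ (zpo_deriv_t r θ)
  exact h1.mul (h2.inner ℝ ((epo_deriv θ).const_mul I))

theorem inner_eq_ho (a b : ℂ) : inner ℝ a b = a.re * b.re + a.im * b.im := by
  rw [Complex.inner, Complex.mul_re, Complex.conj_re, Complex.conj_im]
  ring

theorem grad_inner_ho (q : ℂ → ℝ) (z v : ℂ) : fderiv ℝ q z v = inner ℝ (gradient q z) v := by
  unfold gradient
  rw [InnerProductSpace.toDual_symm_apply]

theorem lin_ho (L : ℂ →L[ℝ] ℂ) (v : ℂ) : L v = (v.re : ℂ) * L 1 + (v.im : ℂ) * L I := by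
  have h1 : v = v.re • (1 : ℂ) + v.im • I := by
    apply Complex.ext <;> simp
  conv_lhs => rw [h1]
  rw [map_add, map_smul, map_smul]
  simp

theorem Pho_Kho (w : ℂ → ℂ) (w' : ℂ → ℂ →L[ℝ] ℂ) (q : ℂ → ℝ)
    (hdiv : ∀ z, (w' z 1).re + (w' z I).im = 0) (r θ : ℝ) :
    Pho' w w' q r θ = r * inner ℝ (w (zpo r θ)) (gradient q (zpo r θ)) - Kho' w w' q r θ := by
  have hd := hdiv (zpo r θ)
  unfold Pho' Kho'
  rw [grad_inner_ho, grad_inner_ho]
  set D := gradient q (zpo r θ) with hD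
  set W := w (zpo r θ) with hW
  rw [lin_ho (w' (zpo r θ)) (epo θ), lin_ho (w' (zpo r θ)) ((r : ℂ) * (I * epo θ))]
  set A := w' (zpo r θ) 1 with hA
  set B := w' (zpo r θ) I with hB
  set Q := q (zpo r θ) with hQ
  have hcs := Real.sin_sq_add_cos_sq θ
  simp only [inner_eq_ho, zpo, Complex.mul_re, Complex.mul_im, Complex.add_re, Complex.add_im,
    Complex.ofReal_re, Complex.ofReal_im, Complex.I_re, Complex.I_im, epo_re, epo_im]
  set c := Real.cos θ with hc
  set s := Real.sin θ with hs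
  linear_combination (r * (W.re * D.re + W.im * D.im) + Q * r * 0) * hcs +
    (Q * r * (c ^ 2 + s ^ 2)) * hd


theorem flux_ho (w : ℂ → ℂ) (w' : ℂ → ℂ →L[ℝ] ℂ) (q : ℂ → ℝ)
    (hw : ∀ z, HasFDerivAt w (w' z) z) (hw' : Continuous w')
    (hdiv : ∀ z, (w' z 1).re + (w' z I).im = 0) (hq : ContDiff ℝ 1 q) (R : ℝ) :
    ∫ θ in (-Real.pi)..Real.pi, Pho w q R θ =
      ∫ r in (0 : ℝ)..R, ∫ θ in (-Real.pi)..Real.pi,
        r * inner ℝ (w (zpo r θ)) (gradient q (zpo r θ)) := by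
  have hwc : Continuous w := continuous_iff_continuousAt.2 fun z => (hw z).continuousAt
  have hqc : Continuous q := hq.continuous
  have hqf : Continuous (fderiv ℝ q) := hq.continuous_fderiv one_ne_zero
  have hgc : Continuous (gradient q) :=
    (InnerProductSpace.toDual ℝ ℂ).symm.continuous.comp hqf
  have hz := zpo_cont
  have he : Continuous (fun p : ℝ × ℝ => epo p.2) := epo_cont.comp continuous_snd
  have hPc : Continuous (fun p : ℝ × ℝ => Pho' w w' q p.1 p.2) := by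
    unfold Pho'
    have h1 : Continuous (fun p : ℝ × ℝ => fderiv ℝ q (zpo p.1 p.2) (epo p.2)) :=
      (hqf.comp hz).clm_apply he
    have h2 : Continuous (fun p : ℝ × ℝ => (inner ℝ (w (zpo p.1 p.2)) (zpo p.1 p.2) : ℝ)) :=
      (hwc.comp hz).inner hz
    have h3 : Continuous (fun p : ℝ × ℝ => (inner ℝ (w (zpo p.1 p.2)) (epo p.2) : ℝ)) :=
      (hwc.comp hz).inner he
    have h4 : Continuous (fun p : ℝ × ℝ =>
        (inner ℝ (w' (zpo p.1 p.2) (epo p.2)) (zpo p.1 p.2) : ℝ)) :=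
      ((hw'.comp hz).clm_apply he).inner hz
    exact (h1.mul h2).add ((hqc.comp hz).mul (h3.add h4))
  have hKc : ∀ r, Continuous (fun θ : ℝ => Kho' w w' q r θ) := by
    intro r
    have hz1 : Continuous (fun θ : ℝ => zpo r θ) :=
      hz.comp (continuous_const.prodMk continuous_id)
    have he1 : Continuous (fun θ : ℝ => (r : ℂ) * (I * epo θ)) :=
      continuous_const.mul (continuous_const.mul epo_cont)
    have he2 : Continuous (fun θ : ℝ => I * epo θ) := continuous_const.mul epo_cont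
    unfold Kho'
    have h1 : Continuous (fun θ : ℝ => fderiv ℝ q (zpo r θ) ((r : ℂ) * (I * epo θ))) :=
      (hqf.comp hz1).clm_apply he1
    have h2 : Continuous (fun θ : ℝ => (inner ℝ (w (zpo r θ)) (I * epo θ) : ℝ)) :=
      (hwc.comp hz1).inner he2
    have h3 : Continuous (fun θ : ℝ => (inner ℝ (w (zpo r θ)) (I * (I * epo θ)) : ℝ)) :=
      (hwc.comp hz1).inner (continuous_const.mul he2)
    have h4 : Continuous (fun θ : ℝ =>
        (inner ℝ (w' (zpo r θ) ((r : ℂ) * (I * epo θ))) (I * epo θ) : ℝ)) :=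
      ((hw'.comp hz1).clm_apply he1).inner he2
    exact (h1.mul h2).add ((hqc.comp hz1).mul (h3.add h4))
  have hGc : ∀ r, Continuous (fun θ : ℝ =>
      r * (inner ℝ (w (zpo r θ)) (gradient q (zpo r θ)) : ℝ)) := by
    intro r
    have hz1 : Continuous (fun θ : ℝ => zpo r θ) :=
      hz.comp (continuous_const.prodMk continuous_id)
    exact continuous_const.mul ((hwc.comp hz1).inner (hgc.comp hz1))
  have h1 : ∀ θ, Pho w q R θ = ∫ r in (0 : ℝ)..R, Pho' w w' q r θ := by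
    intro θ
    rw [intervalIntegral.integral_eq_sub_of_hasDerivAt
      (fun r _ => Pho_deriv w w' q hw hq r θ)
      ((hPc.comp (continuous_id.prodMk continuous_const)).intervalIntegrable 0 R)]
    unfold Pho
    simp [zpo]
  simp only [h1]
  rw [← intervalIntegral_intervalIntegral_swap]
  · refine intervalIntegral.integral_congr fun r _ => ?_
    have h2 : ∫ θ in (-Real.pi)..Real.pi, Kho' w w' q r θ = 0 := by
      rw [intervalIntegral.integral_eq_sub_of_hasDerivAt
        (fun θ _ => Kho_deriv w w' q hw hq r θ) ((hKc r).intervalIntegrable _ _)]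
      unfold Kho zpo
      rw [epo_per, sub_self]
    simp only [Pho_Kho w w' q hdiv]
    rw [intervalIntegral.integral_sub ((hGc r).intervalIntegrable _ _)
      ((hKc r).intervalIntegrable _ _), h2, sub_zero]
  · have h3 : IntegrableOn (fun p : ℝ × ℝ => Pho' w w' q p.1 p.2)
        (uIcc 0 R ×ˢ uIcc (-Real.pi) Real.pi) :=
      hPc.continuousOn.integrableOn_compact (isCompact_uIcc.prod isCompact_uIcc)
    exact h3.mono_set (Set.prod_mono uIoc_subset_uIcc uIoc_subset_uIcc)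

theorem cs_ho (f : ℝ → ℝ) (hf : Continuous f) :
    (∫ θ in (-Real.pi)..Real.pi, f θ) ^ 2 ≤
      2 * Real.pi * ∫ θ in (-Real.pi)..Real.pi, f θ ^ 2 := by
  set m := (∫ θ in (-Real.pi)..Real.pi, f θ) / (2 * Real.pi) with hm
  have hpi := Real.pi_pos
  have h0 : 0 ≤ ∫ θ in (-Real.pi)..Real.pi, (f θ - m) ^ 2 :=
    intervalIntegral.integral_nonneg (by linarith) fun θ _ => sq_nonneg _
  have h1 : ∫ θ in (-Real.pi)..Real.pi, (f θ - m) ^ 2 =
      (∫ θ in (-Real.pi)..Real.pi, f θ ^ 2) - 2 * m * (∫ θ in (-Real.pi)..Real.pi, f θ) +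
        m ^ 2 * (2 * Real.pi) := by
    have e1 : ∀ θ, (f θ - m) ^ 2 = (f θ ^ 2 - 2 * m * f θ) + m ^ 2 := by
      intro θ; ring
    simp only [e1]
    rw [intervalIntegral.integral_add, intervalIntegral.integral_sub,
      intervalIntegral.integral_const_mul, intervalIntegral.integral_const, smul_eq_mul]
    · ring
    · exact (hf.pow 2).intervalIntegrable _ _
    · exact (continuous_const.mul hf).intervalIntegrable _ _
    · exact ((hf.pow 2).sub (continuous_const.mul hf)).intervalIntegrable _ _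
    · exact continuous_const.intervalIntegrable _ _
  have h2 : ∫ θ in (-Real.pi)..Real.pi, f θ = m * (2 * Real.pi) := by
    rw [hm]; field_simp
  rw [h1, h2] at h0
  rw [h2]
  nlinarith


theorem bound_ho (w : ℂ → ℂ) (w' : ℂ → ℂ →L[ℝ] ℂ) (q : ℂ → ℝ)
    (hw : ∀ z, HasFDerivAt w (w' z) z) (hw' : Continuous w')
    (hdiv : ∀ z, (w' z 1).re + (w' z I).im = 0) (hq : ContDiff ℝ 1 q) (R : ℝ) (hR : 0 ≤ R) :
    |∫ θ in (-Real.pi)..Real.pi, Pho w q R θ| ≤ Real.pi * R *
      ∫ θ in (-Real.pi)..Real.pi, R * (‖gradient q (zpo R θ)‖ ^ 2 + ‖w (zpo R θ)‖ ^ 2) := by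
  have hpi := Real.pi_pos
  have hwc : Continuous w := continuous_iff_continuousAt.2 fun z => (hw z).continuousAt
  have hqc : Continuous q := hq.continuous
  have hqf : Continuous (fderiv ℝ q) := hq.continuous_fderiv one_ne_zero
  have hgc : Continuous (gradient q) :=
    (InnerProductSpace.toDual ℝ ℂ).symm.continuous.comp hqf
  have hz1 : Continuous (fun θ : ℝ => zpo R θ) :=
    zpo_cont.comp (continuous_const.prodMk continuous_id)
  have hnD : Continuous (fun θ : ℝ => ‖gradient q (zpo R θ)‖) := (hgc.comp hz1).norm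
  have hnW : Continuous (fun θ : ℝ => ‖w (zpo R θ)‖) := (hwc.comp hz1).norm
  have hiw : Continuous (fun θ : ℝ => (inner ℝ (w (zpo R θ)) (zpo R θ) : ℝ)) :=
    (hwc.comp hz1).inner hz1
  set a := ∫ θ in (-Real.pi)..Real.pi, ‖gradient q (zpo R θ)‖ with ha
  set b := ∫ θ in (-Real.pi)..Real.pi, ‖w (zpo R θ)‖ with hb
  have ha0 : 0 ≤ a := intervalIntegral.integral_nonneg (by linarith) fun θ _ => norm_nonneg _
  have hb0 : 0 ≤ b := intervalIntegral.integral_nonneg (by linarith) fun θ _ => norm_nonneg _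
  -- the flux of `w` is zero
  have hzero : ∫ θ in (-Real.pi)..Real.pi, (inner ℝ (w (zpo R θ)) (zpo R θ) : ℝ) = 0 := by
    have h1 := flux_ho w w' (fun _ => 1) hw hw' hdiv contDiff_const R
    have h2 : ∀ z : ℂ, gradient (fun _ : ℂ => (1 : ℝ)) z = 0 := by
      intro z
      unfold gradient
      simp
    simp only [h2, inner_zero_right, mul_zero, intervalIntegral.integral_zero] at h1
    simpa only [Pho, one_mul] using h1
  have hosc : ∀ θ ∈ Icc (-Real.pi) Real.pi, |q (zpo R θ) - q (zpo R (-Real.pi))| ≤ R * a := by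
    intro θ hθ
    have h1 : ∫ t in (-Real.pi)..θ, fderiv ℝ q (zpo R t) ((R : ℂ) * (I * epo t)) =
        q (zpo R θ) - q (zpo R (-Real.pi)) := by
      apply intervalIntegral.integral_eq_sub_of_hasDerivAt
      · intro t _
        exact (hq.differentiable one_ne_zero (zpo R t)).hasFDerivAt.comp_hasDerivAt t
          (zpo_deriv_t R t)
      · apply Continuous.intervalIntegrable
        exact (hqf.comp hz1).clm_apply
          (continuous_const.mul (continuous_const.mul epo_cont))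
    rw [← h1]
    calc |∫ t in (-Real.pi)..θ, fderiv ℝ q (zpo R t) ((R : ℂ) * (I * epo t))|
        ≤ ∫ t in (-Real.pi)..θ, R * ‖gradient q (zpo R t)‖ := by
          rw [← Real.norm_eq_abs]
          refine intervalIntegral.norm_integral_le_of_norm_le hθ.1
            (Eventually.of_forall fun t _ => ?_) ?_
          · rw [grad_inner_ho]
            refine (norm_inner_le_norm _ _).trans ?_
            rw [norm_mul, norm_mul, Complex.norm_I, norm_epo, Complex.norm_real,
              Real.norm_eq_abs, abs_of_nonneg hR]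
            linarith
          · exact (continuous_const.mul hnD).intervalIntegrable _ _
      _ ≤ ∫ t in (-Real.pi)..Real.pi, R * ‖gradient q (zpo R t)‖ := by
          apply intervalIntegral.integral_mono_interval le_rfl hθ.1 hθ.2
          · exact Eventually.of_forall fun t => mul_nonneg hR (norm_nonneg _)
          · exact (continuous_const.mul hnD).intervalIntegrable _ _
      _ = R * a := by rw [intervalIntegral.integral_const_mul]
  have hmain : |∫ θ in (-Real.pi)..Real.pi, Pho w q R θ| ≤ (R * a) * (R * b) := by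
    have h1 : ∫ θ in (-Real.pi)..Real.pi, Pho w q R θ =
        ∫ θ in (-Real.pi)..Real.pi, (q (zpo R θ) - q (zpo R (-Real.pi))) *
          (inner ℝ (w (zpo R θ)) (zpo R θ) : ℝ) := by
      have h2 : ∀ θ, (q (zpo R θ) - q (zpo R (-Real.pi))) *
          (inner ℝ (w (zpo R θ)) (zpo R θ) : ℝ) = Pho w q R θ - q (zpo R (-Real.pi)) *
            (inner ℝ (w (zpo R θ)) (zpo R θ) : ℝ) := by
        intro θ
        unfold Pho
        ring
      simp only [h2]
      rw [intervalIntegral.integral_sub, intervalIntegral.integral_const_mul, hzero, mul_zero,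
        sub_zero]
      · apply Continuous.intervalIntegrable
        unfold Pho
        exact (hqc.comp hz1).mul hiw
      · exact (continuous_const.mul hiw).intervalIntegrable _ _
    rw [h1, ← Real.norm_eq_abs]
    have h3 : ∫ θ in (-Real.pi)..Real.pi, (R * a) * (R * ‖w (zpo R θ)‖) = (R * a) * (R * b) := by
      rw [intervalIntegral.integral_const_mul, intervalIntegral.integral_const_mul]
    rw [← h3]
    refine intervalIntegral.norm_integral_le_of_norm_le (by linarith)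
      (Eventually.of_forall fun θ hθ => ?_) ?_
    · rw [norm_mul]
      have h4 := hosc θ ⟨hθ.1.le, hθ.2⟩
      have h5 : ‖(inner ℝ (w (zpo R θ)) (zpo R θ) : ℝ)‖ ≤ R * ‖w (zpo R θ)‖ := by
        refine (norm_inner_le_norm _ _).trans ?_
        have h6 : ‖zpo R θ‖ = R := by
          unfold zpo
          rw [norm_mul, norm_epo, Complex.norm_real, Real.norm_eq_abs, abs_of_nonneg hR, mul_one]
        rw [h6, mul_comm]
      exact mul_le_mul h4 h5 (norm_nonneg _) (mul_nonneg hR ha0)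
    · exact (continuous_const.mul (continuous_const.mul hnW)).intervalIntegrable _ _
  have hcs1 := cs_ho _ hnD
  have hcs2 := cs_ho _ hnW
  rw [← ha] at hcs1
  rw [← hb] at hcs2
  have hfin : ∫ θ in (-Real.pi)..Real.pi,
      R * (‖gradient q (zpo R θ)‖ ^ 2 + ‖w (zpo R θ)‖ ^ 2) =
      R * ((∫ θ in (-Real.pi)..Real.pi, ‖gradient q (zpo R θ)‖ ^ 2) +
        ∫ θ in (-Real.pi)..Real.pi, ‖w (zpo R θ)‖ ^ 2) := by
    rw [intervalIntegral.integral_const_mul, intervalIntegral.integral_add]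
    · exact (hnD.pow 2).intervalIntegrable _ _
    · exact (hnW.pow 2).intervalIntegrable _ _
  rw [hfin]
  refine hmain.trans ?_
  have h7 : a * b ≤ Real.pi * ((∫ θ in (-Real.pi)..Real.pi, ‖gradient q (zpo R θ)‖ ^ 2) +
        ∫ θ in (-Real.pi)..Real.pi, ‖w (zpo R θ)‖ ^ 2) := by
    nlinarith [sq_nonneg (a - b)]
  have h8 : 0 ≤ R * R := mul_nonneg hR hR
  have h9 := mul_le_mul_of_nonneg_left h7 h8
  linarith

theorem orth_ho (w : ℂ → ℂ) (w' : ℂ → ℂ →L[ℝ] ℂ) (π : ℂ → ℝ)
    (hw : ∀ z, HasFDerivAt w (w' z) z) (hw' : Continuous w')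
    (hdiv : ∀ z, (w' z 1).re + (w' z I).im = 0) (hw2 : MemLp w 2) (hπ : ContDiff ℝ 1 π)
    (hπ2 : MemLp (fun z => gradient π z) 2) :
    ∫ z, inner ℝ (w z) (gradient π z) = 0 := by
  have hpi := Real.pi_pos
  have hwc : Continuous w := continuous_iff_continuousAt.2 fun z => (hw z).continuousAt
  have hqf : Continuous (fderiv ℝ π) := hπ.continuous_fderiv one_ne_zero
  have hgc : Continuous (gradient π) :=
    (InnerProductSpace.toDual ℝ ℂ).symm.continuous.comp hqf
  have hfc : Continuous (fun z => (inner ℝ (w z) (gradient π z) : ℝ)) := hwc.inner hgc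
  have hsq : Integrable (fun z => ‖gradient π z‖ ^ 2 + ‖w z‖ ^ 2) :=
    (hπ2.integrable_norm_pow two_ne_zero).add (hw2.integrable_norm_pow two_ne_zero)
  have hsqc : Continuous (fun z => ‖gradient π z‖ ^ 2 + ‖w z‖ ^ 2) :=
    (hgc.norm.pow 2).add (hwc.norm.pow 2)
  have hfi : Integrable (fun z => (inner ℝ (w z) (gradient π z) : ℝ)) := by
    refine hsq.mono' hfc.aestronglyMeasurable (Eventually.of_forall fun z => ?_)
    refine (norm_inner_le_norm _ _).trans ?_
    nlinarith [sq_nonneg (‖w z‖ - ‖gradient π z‖), sq_nonneg ‖w z‖, sq_nonneg ‖gradient π z‖]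
  obtain ⟨_, hL, hgi⟩ := polar_ho _ hfc hfi
  obtain ⟨_, _, hGi⟩ := polar_ho _ hsqc hsq
  set g : ℝ → ℝ := fun r => ∫ θ in (-Real.pi)..Real.pi,
    r * (inner ℝ (w (zpo r θ)) (gradient π (zpo r θ)) : ℝ) with hg
  set G : ℝ → ℝ := fun r => ∫ θ in (-Real.pi)..Real.pi,
    r * (‖gradient π (zpo r θ)‖ ^ 2 + ‖w (zpo r θ)‖ ^ 2) with hG
  set L := ∫ z, (inner ℝ (w z) (gradient π z) : ℝ) with hLd
  have hlim : Tendsto (fun R : ℝ => ∫ r in (0 : ℝ)..R, g r) atTop (𝓝 L) := by
    rw [hL]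
    exact intervalIntegral_tendsto_integral_Ioi 0 hgi tendsto_id
  have hbd : ∀ R : ℝ, 0 ≤ R → |∫ r in (0 : ℝ)..R, g r| ≤ Real.pi * R * G R := by
    intro R hR
    have h1 := bound_ho w w' π hw hw' hdiv hπ R hR
    rw [flux_ho w w' π hw hw' hdiv hπ R] at h1
    exact h1
  by_contra hne
  have hLpos : 0 < |L| := abs_pos.2 hne
  have hev : ∀ᶠ R : ℝ in atTop, |L| / 2 < |∫ r in (0 : ℝ)..R, g r| :=
    (hlim.abs).eventually (lt_mem_nhds (by linarith))
  obtain ⟨R0, hR0⟩ := eventually_atTop.1 hev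
  set R1 := max R0 1 with hR1
  have hGlow : ∀ R ∈ Ioi R1, (|L| / (2 * Real.pi)) * R⁻¹ ≤ G R := by
    intro R hR
    have hR' : R1 < R := hR
    have h1 : R0 ≤ R := (le_max_left _ _).trans hR'.le
    have h2 : (1 : ℝ) ≤ R := (le_max_right _ _).trans hR'.le
    have h3 : 0 < R := by linarith
    have h4 := hR0 R h1
    have h5 := hbd R h3.le
    have h6 : |L| / 2 ≤ Real.pi * R * G R := (h4.trans_le h5).le
    have h7 : (|L| / (2 * Real.pi)) * R⁻¹ = (|L| / 2) / (Real.pi * R) := by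
      field_simp
    rw [h7, div_le_iff₀ (by positivity)]
    linarith
  have hGi' : IntegrableOn G (Ioi R1) := by
    refine hGi.mono_set ?_
    intro R hR
    have hR' : R1 < R := hR
    have h2 : (1 : ℝ) ≤ R := (le_max_right _ _).trans hR'.le
    show (0 : ℝ) < R
    linarith
  have hinv : IntegrableOn (fun R : ℝ => (|L| / (2 * Real.pi)) * R⁻¹) (Ioi R1) := by
    refine hGi'.mono' ?_ ?_
    · exact (measurable_inv.const_mul _).aestronglyMeasurable
    · refine (ae_restrict_iff' measurableSet_Ioi).2 (Eventually.of_forall fun R hR => ?_)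
      have h2 : (1 : ℝ) ≤ R := (le_max_right _ _).trans (le_of_lt hR)
      rw [Real.norm_of_nonneg (by positivity)]
      exact hGlow R hR
  have hc : |L| / (2 * Real.pi) ≠ 0 := by positivity
  have hinv2 : IntegrableOn (fun R : ℝ => R⁻¹) (Ioi R1) := by
    have h1 := hinv.const_mul (|L| / (2 * Real.pi))⁻¹
    refine h1.congr (Eventually.of_forall fun R => ?_)
    simp only
    rw [← mul_assoc, inv_mul_cancel₀ hc, one_mul]
  exact not_integrableOn_Ioi_inv hinv2

/-- `L²` orthogonality of divergence-free fields and gradients -/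
theorem helmholtz_orth (w : ℂ → ℂ) (w' : ℂ → ℂ →L[ℝ] ℂ) (π : ℂ → ℝ)
    (hw : ∀ z, HasFDerivAt w (w' z) z) (hw' : Continuous w')
    (hdiv : ∀ z, (w' z 1).re + (w' z I).im = 0) (hw2 : MemLp w 2) (hπ : ContDiff ℝ 1 π)
    (hπ2 : MemLp (fun z => gradient π z) 2) :
    ∫ z, inner ℝ (w z) (gradient π z) = 0 := by
  exact orth_ho w w' π hw hw' hdiv hw2 hπ hπ2

end JU1

end Pool.Agent.Helper383.NI
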