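import Pool.Agent.Helper383.NI.Defs
import Pool.Agent.Helper383.NI.U0
import Pool.Agent.Helper383.NI.U1

open Complex MeasureTheory Set Filter Topology

namespace Pool.Agent.Helper383.NI

open JU0 (IsHinfEuler)
open JU1 (helmholtz_orth)

namespace JU2

theorem EU_cutoff : ∃ (φ : ℕ → ℂ → ℝ) (δ : ℕ → ℝ), (∀ n, ContDiff ℝ 1 (φ n)) ∧
    (∀ n, HasCompactSupport (φ n)) ∧ (∀ n z, 0 ≤ φ n z ∧ φ n z ≤ 1) ∧
    (∀ n z, ‖fderiv ℝ (φ n) z‖ ≤ δ n) ∧ Tendsto δ atTop (𝓝 0) ∧ (∀ n, 0 ≤ δ n ∧ δ n ≤ δ 0) ∧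
    (∀ z, Tendsto (fun n => φ n z) atTop (𝓝 1)) := by
  obtain ⟨χ, hχ⟩ : ∃ χ : ContDiffBump (0 : ℂ), χ = ⟨1, 2, one_pos, one_lt_two⟩ := ⟨_, rfl⟩
  have hin : χ.rIn = 1 := by rw [hχ]
  have hout : χ.rOut = 2 := by rw [hχ]
  have hc1 : ContDiff ℝ 1 (χ : ℂ → ℝ) := χ.contDiff
  obtain ⟨K, hK⟩ : ∃ K, ∀ z, ‖fderiv ℝ (χ : ℂ → ℝ) z‖ ≤ K :=
    (χ.hasCompactSupport.fderiv (𝕜 := ℝ)).exists_bound_of_continuous (hc1.continuous_fderiv one_ne_zero)
  have hK0 : 0 ≤ K := (norm_nonneg _).trans (hK 0)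
  have hpos : ∀ n : ℕ, (0 : ℝ) < (n : ℝ) + 1 := fun n => by positivity
  refine ⟨fun n z => χ (((n : ℝ) + 1)⁻¹ • z), fun n => K * ((n : ℝ) + 1)⁻¹, fun n => ?_, fun n => ?_,
    fun n z => ⟨χ.nonneg, χ.le_one⟩, fun n z => ?_, ?_, fun n => ⟨?_, ?_⟩, fun z => ?_⟩
  · exact ContDiff.comp (g := (χ : ℂ → ℝ)) (f := fun z : ℂ => ((n : ℝ) + 1)⁻¹ • z) hc1
      (contDiff_const_smul _)
  · refine HasCompactSupport.intro (isCompact_closedBall (0 : ℂ) (2 * ((n : ℝ) + 1))) ?_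
    intro z hz
    apply χ.zero_of_le_dist
    rw [hout, dist_zero_right, norm_smul, norm_inv, Real.norm_of_nonneg (hpos n).le]
    rw [mem_closedBall_zero_iff, not_le] at hz
    rw [inv_mul_eq_div, le_div_iff₀ (hpos n)]
    exact hz.le
  · have h1 : HasFDerivAt (fun z : ℂ => χ (((n : ℝ) + 1)⁻¹ • z))
        ((fderiv ℝ (χ : ℂ → ℝ) (((n : ℝ) + 1)⁻¹ • z)).comp
          (((n : ℝ) + 1)⁻¹ • ContinuousLinearMap.id ℝ ℂ)) z := by
      have h2 : HasFDerivAt (fun z : ℂ => ((n : ℝ) + 1)⁻¹ • z)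
        (((n : ℝ) + 1)⁻¹ • ContinuousLinearMap.id ℝ ℂ) z := (hasFDerivAt_id z).fun_const_smul _
      exact HasFDerivAt.comp (g := (χ : ℂ → ℝ)) z
        ((hc1.differentiable one_ne_zero (((n : ℝ) + 1)⁻¹ • z)).hasFDerivAt) h2
    rw [h1.fderiv]
    refine (ContinuousLinearMap.opNorm_comp_le _ _).trans ?_
    have h3 : ‖((n : ℝ) + 1)⁻¹ • ContinuousLinearMap.id ℝ ℂ‖ ≤ ((n : ℝ) + 1)⁻¹ := by
      rw [norm_smul, norm_inv, Real.norm_of_nonneg (hpos n).le]
      exact mul_le_of_le_one_right (inv_nonneg.2 (hpos n).le) ContinuousLinearMap.norm_id_le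
    exact mul_le_mul (hK _) h3 (norm_nonneg _) hK0
  · have h1 : Tendsto (fun n : ℕ => ((n : ℝ) + 1)⁻¹) atTop (𝓝 0) := by
      have := tendsto_one_div_add_atTop_nhds_zero_nat (𝕜 := ℝ)
      simpa only [one_div] using this
    simpa using h1.const_mul K
  · exact mul_nonneg hK0 (inv_nonneg.2 (hpos n).le)
  · refine mul_le_mul_of_nonneg_left ?_ hK0
    apply inv_anti₀
    · norm_num
    · simp
  · apply tendsto_const_nhds.congr'
    filter_upwards [eventually_ge_atTop (Nat.ceil ‖z‖)] with n hn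
    symm
    apply χ.one_of_mem_closedBall
    rw [hin, mem_closedBall_zero_iff, norm_smul, norm_inv, Real.norm_of_nonneg (hpos n).le,
      inv_mul_eq_div, div_le_one (hpos n)]
    have h1 : ‖z‖ ≤ (n : ℝ) := (Nat.le_ceil _).trans (by exact_mod_cast hn)
    linarith

theorem EU_fub (T t : ℝ) (ht : t ∈ Icc 0 T) (F : ℝ → ℂ → ℝ)
    (hF : ContinuousOn (fun q : ℝ × ℂ => F q.1 q.2) (Icc 0 T ×ˢ univ)) (φ : ℂ → ℝ)
    (hφ : Continuous φ) (hφs : HasCompactSupport φ) :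
    AEStronglyMeasurable (fun τ => ∫ z, φ z * F τ z) (volume.restrict (Ioc 0 t)) ∧
      ∫ z, φ z * ∫ τ in (0 : ℝ)..t, F τ z = ∫ τ in (0 : ℝ)..t, ∫ z, φ z * F τ z := by
  have h1 : ContinuousOn (fun q : ℝ × ℂ => φ q.2 * F q.1 q.2) (Icc 0 T ×ˢ univ) :=
    (hφ.comp continuous_snd).continuousOn.mul hF
  have h2 : IntegrableOn (fun q : ℝ × ℂ => φ q.2 * F q.1 q.2) (Icc 0 t ×ˢ tsupport φ) volume := by
    apply ContinuousOn.integrableOn_compact (isCompact_Icc.prod hφs)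
    exact h1.mono (prod_mono (Icc_subset_Icc_right ht.2) (subset_univ _))
  have h3 : IntegrableOn (fun q : ℝ × ℂ => φ q.2 * F q.1 q.2) (Icc 0 t ×ˢ univ) volume := by
    apply h2.of_forall_sdiff_eq_zero (measurableSet_Icc.prod MeasurableSet.univ)
    rintro ⟨τ, z⟩ ⟨h4, h5⟩
    have h6 : z ∉ tsupport φ := fun h => h5 ⟨h4.1, h⟩
    show φ z * F τ z = 0
    rw [image_eq_zero_of_notMem_tsupport h6, zero_mul]
  have h4 : IntegrableOn (fun q : ℝ × ℂ => φ q.2 * F q.1 q.2) (Ioc 0 t ×ˢ univ) volume :=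
    h3.mono_set (prod_mono Ioc_subset_Icc_self subset_rfl)
  have h5 : Integrable (fun q : ℝ × ℂ => φ q.2 * F q.1 q.2)
      ((volume.restrict (Ioc 0 t)).prod volume) := by
    rw [IntegrableOn, Measure.volume_eq_prod, ← Measure.prod_restrict, Measure.restrict_univ] at h4
    exact h4
  refine ⟨h5.integral_prod_left.aestronglyMeasurable, ?_⟩
  rw [intervalIntegral.integral_of_le ht.1]
  rw [integral_integral_swap (f := fun τ z => φ z * F τ z) h5]
  congr 1
  ext z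
  rw [intervalIntegral.integral_of_le ht.1, integral_const_mul]

theorem EU_ftc (T t : ℝ) (ht : t ∈ Icc 0 T) (g g' : ℝ → ℝ)
    (h : ∀ τ ∈ Icc 0 T, HasDerivWithinAt g (g' τ) (Icc 0 T) τ) (hc : ContinuousOn g' (Icc 0 T))
    (h0 : g 0 = 0) : g t = ∫ τ in (0 : ℝ)..t, g' τ := by
  rw [intervalIntegral.integral_eq_sub_of_hasDerivAt_of_le (f := g) ht.1, h0, sub_zero]
  · intro τ hτ
    exact (h τ ⟨hτ.1, hτ.2.trans ht.2⟩).continuousWithinAt.mono (Icc_subset_Icc_right ht.2)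
  · intro τ hτ
    exact (h τ ⟨hτ.1.le, hτ.2.le.trans ht.2⟩).hasDerivAt
      (Icc_mem_nhds hτ.1 (hτ.2.trans_le ht.2))
  · apply ContinuousOn.intervalIntegrable
    rw [uIcc_of_le ht.1]
    exact hc.mono (Icc_subset_Icc_right ht.2)

theorem EU_sq {f : ℂ → ℂ} (hf : Continuous f) {C : ℝ} (hC : 0 ≤ C)
    (h : ∫⁻ z, ‖f z‖ₑ ^ 2 ≤ ENNReal.ofReal C) :
    MemLp f 2 ∧ Integrable (fun z => ‖f z‖ ^ 2) ∧ ∫ z, ‖f z‖ ^ 2 ≤ C := by
  have h1 : ∀ z, ENNReal.ofReal (‖f z‖ ^ 2) = ‖f z‖ₑ ^ 2 := by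
    intro z
    rw [ENNReal.ofReal_pow (norm_nonneg _), ofReal_norm]
  have h2 : Integrable (fun z => ‖f z‖ ^ 2) := by
    refine ⟨(hf.norm.pow 2).aestronglyMeasurable, ?_⟩
    rw [hasFiniteIntegral_iff_ofReal (Eventually.of_forall fun z => by positivity)]
    simp only [h1]
    exact h.trans_lt ENNReal.ofReal_lt_top
  refine ⟨?_, h2, ?_⟩
  · exact (memLp_two_iff_integrable_sq_norm hf.aestronglyMeasurable).2 h2
  · rw [integral_eq_lintegral_of_nonneg_ae (Eventually.of_forall fun z => by positivity)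
      h2.aestronglyMeasurable]
    simp only [h1]
    exact ENNReal.toReal_le_of_le_ofReal hC h

theorem EU_grad_sub {p q : ℂ → ℝ} (hp : ContDiff ℝ 1 p) (hq : ContDiff ℝ 1 q) (z : ℂ) :
    gradient (fun x => q x - p x) z = gradient q z - gradient p z := by
  unfold gradient
  rw [fderiv_fun_sub (hq.differentiable one_ne_zero z) (hp.differentiable one_ne_zero z), map_sub]

theorem EU_grad_cont {p : ℂ → ℝ} (hp : ContDiff ℝ 1 p) : Continuous (fun z => gradient p z) := by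
  unfold gradient
  exact (LinearIsometryEquiv.continuous _).comp (hp.continuous_fderiv one_ne_zero)

theorem EU_inner_grad (p : ℂ → ℝ) (z x : ℂ) : inner ℝ x (gradient p z) = fderiv ℝ p z x := by
  rw [real_inner_comm]
  unfold gradient
  rw [InnerProductSpace.toDual_symm_apply]

theorem EU_sq_sub {f g : ℂ → ℂ} (hf : Continuous f) (hg : Continuous g) {C : ℝ} (hC : 0 ≤ C)
    (h1 : ∫⁻ z, ‖f z‖ₑ ^ 2 ≤ ENNReal.ofReal C) (h2 : ∫⁻ z, ‖g z‖ₑ ^ 2 ≤ ENNReal.ofReal C) :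
    MemLp (fun z => f z - g z) 2 ∧ Integrable (fun z => ‖f z - g z‖ ^ 2) ∧
      ∫ z, ‖f z - g z‖ ^ 2 ≤ 4 * C := by
  obtain ⟨a1, a2, a3⟩ := EU_sq hf hC h1
  obtain ⟨b1, b2, b3⟩ := EU_sq hg hC h2
  have hm : MemLp (fun z => f z - g z) 2 := a1.sub b1
  have hi : Integrable (fun z => ‖f z - g z‖ ^ 2) :=
    (memLp_two_iff_integrable_sq_norm (hf.sub hg).aestronglyMeasurable).1 hm
  refine ⟨hm, hi, ?_⟩
  have h3 : ∫ z, ‖f z - g z‖ ^ 2 ≤ ∫ z, (2 * ‖f z‖ ^ 2 + 2 * ‖g z‖ ^ 2) := by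
    apply integral_mono hi ((a2.const_mul 2).add (b2.const_mul 2))
    intro z
    have h4 := norm_sub_le (f z) (g z)
    have h5 := norm_nonneg (f z - g z)
    show ‖f z - g z‖ ^ 2 ≤ 2 * ‖f z‖ ^ 2 + 2 * ‖g z‖ ^ 2
    nlinarith [sq_nonneg (‖f z‖ - ‖g z‖)]
  rw [integral_add (a2.const_mul 2) (b2.const_mul 2), integral_const_mul, integral_const_mul] at h3
  linarith

/-- the divergence identity with a cutoff -/
theorem EU_identity (u v : ℂ → ℂ) (p q : ℂ → ℝ)
    (hu : ContDiff ℝ 1 u) (hv : ContDiff ℝ 1 v) (hvm : MemLp v 2)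
    (hvd : ∀ z, (fderiv ℝ v z 1).re + (fderiv ℝ v z I).im = 0)
    (hp : ContDiff ℝ 1 p) (hq : ContDiff ℝ 1 q)
    (φ : ℂ → ℝ) (hφ1 : ContDiff ℝ 1 φ) (hφs : HasCompactSupport φ) :
    ∫ z, φ z * (2 * inner ℝ (v z - u z) ((-(fderiv ℝ v z (v z)) - gradient q z)
      - (-(fderiv ℝ u z (u z)) - gradient p z))) =
    ∫ z, (‖v z - u z‖ ^ 2 * fderiv ℝ φ z (v z)
      - 2 * (φ z * inner ℝ (v z - u z) (fderiv ℝ u z (v z - u z)))
      - 2 * (φ z * inner ℝ (v z - u z) (gradient q z - gradient p z))) := by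
  have hw1 : ContDiff ℝ 1 (fun z => v z - u z) := hv.sub hu
  obtain ⟨Ψ, hΨ⟩ : ∃ Ψ : ℂ → ℝ, Ψ = fun z => φ z * ‖v z - u z‖ ^ 2 := ⟨_, rfl⟩
  have hΨ1 : ContDiff ℝ 1 Ψ := by
    rw [hΨ]
    exact hφ1.mul (hw1.norm_sq ℝ)
  have hΨs : HasCompactSupport Ψ := by
    rw [hΨ]
    exact hφs.mul_right
  have hgs : HasCompactSupport (fun z => gradient Ψ z) := by
    unfold gradient
    exact (hΨs.fderiv (𝕜 := ℝ)).comp_left (map_zero _)
  have hgc := EU_grad_cont hΨ1
  have h1 := helmholtz_orth v (fderiv ℝ v) Ψ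
    (fun z => (hv.differentiable one_ne_zero z).hasFDerivAt) (hv.continuous_fderiv one_ne_zero)
    hvd hvm hΨ1 (hgc.memLp_of_hasCompactSupport hgs)
  have hdv := hv.continuous_fderiv one_ne_zero
  have hdu := hu.continuous_fderiv one_ne_zero
  have hvc := hv.continuous
  have huc := hu.continuous
  have hqc := EU_grad_cont hq
  have hpc := EU_grad_cont hp
  have hφc := hφ1.continuous
  have hi1 : Integrable (fun z => φ z * (2 * inner ℝ (v z - u z) ((-(fderiv ℝ v z (v z)) - gradient q z)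
      - (-(fderiv ℝ u z (u z)) - gradient p z)))) := by
    apply Continuous.integrable_of_hasCompactSupport
    · exact hφc.mul (continuous_const.mul ((hvc.sub huc).inner
        (((hdv.clm_apply hvc).neg.sub hqc).sub ((hdu.clm_apply huc).neg.sub hpc))))
    · exact hφs.mul_right
  have hi2 : Integrable (fun z => inner ℝ (v z) (gradient Ψ z)) := by
    apply Continuous.integrable_of_hasCompactSupport
    · exact hvc.inner hgc
    · refine hgs.mono ?_
      intro z hz h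
      apply hz
      have h' : gradient Ψ z = 0 := h
      show inner ℝ (v z) (gradient Ψ z) = 0
      rw [h', inner_zero_right]
  rw [← add_zero (∫ z, φ z * (2 * inner ℝ (v z - u z) ((-(fderiv ℝ v z (v z)) - gradient q z)
      - (-(fderiv ℝ u z (u z)) - gradient p z)))), ← h1, ← integral_add hi1 hi2]
  congr 1
  ext z
  rw [EU_inner_grad]
  have h2 : HasFDerivAt (fun z => v z - u z) (fderiv ℝ v z - fderiv ℝ u z) z :=
    (hv.differentiable one_ne_zero z).hasFDerivAt.sub (hu.differentiable one_ne_zero z).hasFDerivAt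
  have h3 : HasFDerivAt Ψ (φ z • (2 • (innerSL ℝ (v z - u z)).comp (fderiv ℝ v z - fderiv ℝ u z))
      + ‖v z - u z‖ ^ 2 • fderiv ℝ φ z) z := by
    rw [hΨ]
    exact (hφ1.differentiable one_ne_zero z).hasFDerivAt.mul h2.norm_sq
  have h4 : fderiv ℝ u z (v z - u z) = fderiv ℝ u z (v z) - fderiv ℝ u z (u z) := map_sub _ _ _
  rw [h3.fderiv, h4]
  simp only [_root_.add_apply, _root_.smul_apply, ContinuousLinearMap.comp_apply,
    _root_.sub_apply, innerSL_apply_apply, smul_eq_mul, nsmul_eq_mul, inner_sub_right, inner_neg_right,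
    Nat.cast_ofNat]
  ring

/-- limit and uniform bound of the cutoff energy flux at a fixed time -/
theorem EU_slice (u v : ℂ → ℂ) (p q : ℂ → ℝ) (C : ℝ) (hC : 0 ≤ C)
    (hu : ContDiff ℝ 1 u) (hv : ContDiff ℝ 1 v)
    (hub : ∀ z, ‖fderiv ℝ u z‖ ≤ C) (hvb : ∀ z, ‖v z‖ ≤ C)
    (hu2 : ∫⁻ z, ‖u z‖ₑ ^ 2 ≤ ENNReal.ofReal C) (hv2 : ∫⁻ z, ‖v z‖ₑ ^ 2 ≤ ENNReal.ofReal C)
    (hud : ∀ z, (fderiv ℝ u z 1).re + (fderiv ℝ u z I).im = 0)
    (hvd : ∀ z, (fderiv ℝ v z 1).re + (fderiv ℝ v z I).im = 0)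
    (hp : ContDiff ℝ 1 p) (hq : ContDiff ℝ 1 q)
    (hp2 : ∫⁻ z, ‖gradient p z‖ₑ ^ 2 ≤ ENNReal.ofReal C)
    (hq2 : ∫⁻ z, ‖gradient q z‖ₑ ^ 2 ≤ ENNReal.ofReal C)
    (φ : ℕ → ℂ → ℝ) (δ : ℕ → ℝ) (hφ1 : ∀ n, ContDiff ℝ 1 (φ n))
    (hφs : ∀ n, HasCompactSupport (φ n)) (hφb : ∀ n z, 0 ≤ φ n z ∧ φ n z ≤ 1)
    (hφd : ∀ n z, ‖fderiv ℝ (φ n) z‖ ≤ δ n) (hδ : Tendsto δ atTop (𝓝 0))
    (hδ0 : ∀ n, 0 ≤ δ n ∧ δ n ≤ δ 0) (hφt : ∀ z, Tendsto (fun n => φ n z) atTop (𝓝 1)) :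
    Tendsto (fun n => ∫ z, φ n z * (2 * inner ℝ (v z - u z) ((-(fderiv ℝ v z (v z)) - gradient q z)
      - (-(fderiv ℝ u z (u z)) - gradient p z)))) atTop
      (𝓝 (∫ z, -(2 * inner ℝ (v z - u z) (fderiv ℝ u z (v z - u z))))) ∧
    (∀ n, ‖∫ z, φ n z * (2 * inner ℝ (v z - u z) ((-(fderiv ℝ v z (v z)) - gradient q z)
      - (-(fderiv ℝ u z (u z)) - gradient p z)))‖ ≤ (δ 0 * C + 2 * C + 1) * (4 * C) + 4 * C) := by
  obtain ⟨hw2, hw3, hw4⟩ := EU_sq_sub hv.continuous hu.continuous hC hv2 hu2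
  obtain ⟨hg2, hg3, hg4⟩ := EU_sq_sub (EU_grad_cont hq) (EU_grad_cont hp) hC hq2 hp2
  obtain ⟨hvm, -, -⟩ := EU_sq hv.continuous hC hv2
  have hdu := hu.continuous_fderiv one_ne_zero
  have hvc := hv.continuous
  have huc := hu.continuous
  have hqc := EU_grad_cont hq
  have hpc := EU_grad_cont hp
  have hid := fun n => EU_identity u v p q hu hv hvm hvd hp hq (φ n) (hφ1 n) (hφs n)
  have hδ00 : 0 ≤ δ 0 := (hδ0 0).1
  -- bounds of the three terms
  have b1 : ∀ n z, |‖v z - u z‖ ^ 2 * fderiv ℝ (φ n) z (v z)| ≤ δ n * C * ‖v z - u z‖ ^ 2 := by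
    intro n z
    rw [abs_mul, abs_of_nonneg (sq_nonneg _)]
    have h1 : |fderiv ℝ (φ n) z (v z)| ≤ δ n * C := by
      have h2 := (fderiv ℝ (φ n) z).le_opNorm (v z)
      rw [Real.norm_eq_abs] at h2
      exact h2.trans (mul_le_mul (hφd n z) (hvb z) (norm_nonneg _) (hδ0 n).1)
    calc ‖v z - u z‖ ^ 2 * |fderiv ℝ (φ n) z (v z)| ≤ ‖v z - u z‖ ^ 2 * (δ n * C) :=
          mul_le_mul_of_nonneg_left h1 (sq_nonneg _)
      _ = δ n * C * ‖v z - u z‖ ^ 2 := by ring
  have b2' : ∀ z, |inner ℝ (v z - u z) (fderiv ℝ u z (v z - u z))| ≤ C * ‖v z - u z‖ ^ 2 := by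
    intro z
    have h1 := abs_real_inner_le_norm (v z - u z) (fderiv ℝ u z (v z - u z))
    have h2 := (fderiv ℝ u z).le_opNorm (v z - u z)
    have h3 : ‖fderiv ℝ u z‖ * ‖v z - u z‖ ≤ C * ‖v z - u z‖ :=
      mul_le_mul_of_nonneg_right (hub z) (norm_nonneg _)
    calc _ ≤ ‖v z - u z‖ * ‖fderiv ℝ u z (v z - u z)‖ := h1
      _ ≤ ‖v z - u z‖ * (C * ‖v z - u z‖) :=
          mul_le_mul_of_nonneg_left (h2.trans h3) (norm_nonneg _)
      _ = C * ‖v z - u z‖ ^ 2 := by ring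
  have b3' : ∀ z, 2 * |inner ℝ (v z - u z) (gradient q z - gradient p z)| ≤
      ‖v z - u z‖ ^ 2 + ‖gradient q z - gradient p z‖ ^ 2 := by
    intro z
    have h1 := abs_real_inner_le_norm (v z - u z) (gradient q z - gradient p z)
    nlinarith [sq_nonneg (‖v z - u z‖ - ‖gradient q z - gradient p z‖)]
  have hφabs : ∀ n z (x : ℝ), |φ n z * x| ≤ |x| := by
    intro n z x
    rw [abs_mul, abs_of_nonneg (hφb n z).1]
    exact mul_le_of_le_one_left (abs_nonneg _) (hφb n z).2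
  have hB : ∀ n z, ‖‖v z - u z‖ ^ 2 * fderiv ℝ (φ n) z (v z)
      - 2 * (φ n z * inner ℝ (v z - u z) (fderiv ℝ u z (v z - u z)))
      - 2 * (φ n z * inner ℝ (v z - u z) (gradient q z - gradient p z))‖ ≤
      (δ 0 * C + 2 * C + 1) * ‖v z - u z‖ ^ 2 + ‖gradient q z - gradient p z‖ ^ 2 := by
    intro n z
    rw [Real.norm_eq_abs]
    have h1 := b1 n z
    have h2 := (hφabs n z _).trans (b2' z)
    have h3 := hφabs n z (inner ℝ (v z - u z) (gradient q z - gradient p z))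
    have h4 := b3' z
    have h5 : δ n * C * ‖v z - u z‖ ^ 2 ≤ δ 0 * C * ‖v z - u z‖ ^ 2 :=
      mul_le_mul_of_nonneg_right (mul_le_mul_of_nonneg_right (hδ0 n).2 hC) (sq_nonneg _)
    have h6 := abs_le.1 (h1.trans h5)
    have h7 := abs_le.1 h2
    have h8 := abs_le.1 h3
    rw [abs_le]
    constructor <;> nlinarith
  have hBi : Integrable (fun z => (δ 0 * C + 2 * C + 1) * ‖v z - u z‖ ^ 2
      + ‖gradient q z - gradient p z‖ ^ 2) := (hw3.const_mul _).add hg3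
  constructor
  · simp only [hid]
    have hi2 : Integrable (fun z => -(2 * inner ℝ (v z - u z) (fderiv ℝ u z (v z - u z)))) := by
      apply Integrable.mono' (hw3.const_mul (2 * C))
      · exact (continuous_const.mul ((hvc.sub huc).inner
          (hdu.clm_apply (hvc.sub huc)))).neg.aestronglyMeasurable
      · refine Eventually.of_forall fun z => ?_
        rw [norm_neg, norm_mul, Real.norm_eq_abs, Real.norm_eq_abs, abs_two]
        linarith [b2' z]
    have hi3 : Integrable (fun z => inner ℝ (v z - u z) (gradient q z - gradient p z)) := by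
      apply Integrable.mono' (hw3.add hg3)
      · exact ((hvc.sub huc).inner (hqc.sub hpc)).aestronglyMeasurable
      · refine Eventually.of_forall fun z => ?_
        rw [Real.norm_eq_abs]
        show _ ≤ ‖v z - u z‖ ^ 2 + ‖gradient q z - gradient p z‖ ^ 2
        linarith [b3' z, abs_nonneg (inner ℝ (v z - u z) (gradient q z - gradient p z))]
    have h0 : ∫ z, inner ℝ (v z - u z) (gradient q z - gradient p z) = 0 := by
      have h1 := helmholtz_orth (fun z => v z - u z) (fun z => fderiv ℝ v z - fderiv ℝ u z)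
        (fun z => q z - p z)
        (fun z => (hv.differentiable one_ne_zero z).hasFDerivAt.sub
          (hu.differentiable one_ne_zero z).hasFDerivAt)
        ((hv.continuous_fderiv one_ne_zero).sub hdu)
        (fun z => by
          have h2 := hud z
          have h3 := hvd z
          simp only [_root_.sub_apply, Complex.sub_re, Complex.sub_im]
          linarith) hw2 (hq.sub hp) (by
          simp only [EU_grad_sub hp hq]
          exact hg2)
      simp only [EU_grad_sub hp hq] at h1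
      exact h1
    have h1 : ∫ z, -(2 * inner ℝ (v z - u z) (fderiv ℝ u z (v z - u z))) =
        ∫ z, (‖v z - u z‖ ^ 2 * 0
      - 2 * (1 * inner ℝ (v z - u z) (fderiv ℝ u z (v z - u z)))
      - 2 * (1 * inner ℝ (v z - u z) (gradient q z - gradient p z))) := by
      have h2 : ∫ z, (2 * inner ℝ (v z - u z) (gradient q z - gradient p z)) = 0 := by
        rw [integral_const_mul, h0, mul_zero]
      have h4 := integral_sub hi2 (hi3.const_mul 2)
      rw [h2, sub_zero] at h4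
      rw [← h4]
      congr 1
      ext z
      ring
    rw [h1]
    apply tendsto_integral_of_dominated_convergence _ (fun n => ?_) hBi
      (fun n => Eventually.of_forall (hB n)) (Eventually.of_forall fun z => ?_)
    · have hdφ := (hφ1 n).continuous_fderiv one_ne_zero
      have hφc := (hφ1 n).continuous
      exact ((((hvc.sub huc).norm.pow 2).mul (hdφ.clm_apply hvc)).sub
        (continuous_const.mul (hφc.mul ((hvc.sub huc).inner
          (hdu.clm_apply (hvc.sub huc)))))).sub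
        (continuous_const.mul (hφc.mul ((hvc.sub huc).inner (hqc.sub hpc))))
        |>.aestronglyMeasurable
    · have h2 : Tendsto (fun n => fderiv ℝ (φ n) z (v z)) atTop (𝓝 0) := by
        apply squeeze_zero_norm (a := fun n => δ n * C)
        · intro n
          exact ((fderiv ℝ (φ n) z).le_opNorm (v z)).trans
            (mul_le_mul (hφd n z) (hvb z) (norm_nonneg _) (hδ0 n).1)
        · simpa using hδ.mul_const C
      exact ((h2.const_mul _).sub (((hφt z).mul_const _).const_mul _)).sub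
        (((hφt z).mul_const _).const_mul _)
  · intro n
    rw [hid n]
    refine (norm_integral_le_of_norm_le hBi (Eventually.of_forall (hB n))).trans ?_
    rw [integral_add (hw3.const_mul _) hg3, integral_const_mul]
    have h1 : 0 ≤ δ 0 * C + 2 * C + 1 := by positivity
    exact add_le_add (mul_le_mul_of_nonneg_left hw4 h1) hg4

/-- uniqueness of smooth solutions -/
theorem euler_unique (T : ℝ) (hT : 0 < T) (u v : ℝ → ℂ → ℂ) (p q : ℝ → ℂ → ℝ)
    (hu : IsHinfEuler T u p) (hv : IsHinfEuler T v q) (h0 : u 0 = v 0) :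
    ∀ t ∈ Icc 0 T, u t = v t := by
  obtain ⟨φ, δ, hφ1, hφs, hφb, hφd, hδ, hδ0, hφt⟩ := EU_cutoff
  obtain ⟨C1, hC1⟩ := hu.bounded
  obtain ⟨C2, hC2⟩ := hv.bounded
  obtain ⟨C3, hC3⟩ := hu.pressure_bound
  obtain ⟨C4, hC4⟩ := hv.pressure_bound
  obtain ⟨C, hC⟩ : ∃ C, C = |C1| + |C2| + |C3| + |C4| := ⟨_, rfl⟩
  have a1 := abs_nonneg C1
  have a2 := abs_nonneg C2
  have a3 := abs_nonneg C3
  have a4 := abs_nonneg C4
  have hC0 : 0 ≤ C := by rw [hC]; positivity
  have l1 : C1 ≤ C := by linarith [le_abs_self C1]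
  have l2 : C2 ≤ C := by linarith [le_abs_self C2]
  have l3 : C3 ≤ C := by linarith [le_abs_self C3]
  have l4 : C4 ≤ C := by linarith [le_abs_self C4]
  have hu1 : ∀ t ∈ Icc 0 T, ContDiff ℝ 1 (u t) := fun t ht => (hu.smooth t ht).of_le (by exact_mod_cast le_top)
  have hv1 : ∀ t ∈ Icc 0 T, ContDiff ℝ 1 (v t) := fun t ht => (hv.smooth t ht).of_le (by exact_mod_cast le_top)
  have hsl := fun t ht => EU_slice (u t) (v t) (p t) (q t) C hC0 (hu1 t ht) (hv1 t ht)
    (fun z => (((hC1 t ht).1 z).2).trans l1) (fun z => (((hC2 t ht).1 z).1).trans l2)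
    ((hC1 t ht).2.trans (ENNReal.ofReal_le_ofReal l1))
    ((hC2 t ht).2.trans (ENNReal.ofReal_le_ofReal l2)) (hu.divfree t ht) (hv.divfree t ht)
    (hu.pressure t ht) (hv.pressure t ht)
    ((hC3 t ht).trans (ENNReal.ofReal_le_ofReal l3))
    ((hC4 t ht).trans (ENNReal.ofReal_le_ofReal l4)) φ δ hφ1 hφs hφb hφd hδ hδ0 hφt
  obtain ⟨F, hF⟩ : ∃ F : ℝ → ℂ → ℝ, F = fun τ z => 2 * inner ℝ (v τ z - u τ z)
      ((-(fderiv ℝ (v τ) z (v τ z)) - gradient (q τ) z)
      - (-(fderiv ℝ (u τ) z (u τ z)) - gradient (p τ) z)) := ⟨_, rfl⟩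
  have hFc : ContinuousOn (fun r : ℝ × ℂ => F r.1 r.2) (Icc 0 T ×ˢ univ) := by
    rw [hF]
    exact continuousOn_const.mul ((hv.cont.sub hu.cont).inner
      (((hv.cont_space.clm_apply hv.cont).neg.sub hv.pressure_cont).sub
        ((hu.cont_space.clm_apply hu.cont).neg.sub hu.pressure_cont)))
  -- pointwise energy identity
  have hpt : ∀ t ∈ Icc 0 T, ∀ z, ‖v t z - u t z‖ ^ 2 = ∫ τ in (0 : ℝ)..t, F τ z := by
    intro t ht z
    apply EU_ftc T t ht (fun τ => ‖v τ z - u τ z‖ ^ 2) (fun τ => F τ z)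
    · intro τ hτ
      rw [hF]
      exact ((hv.momentum τ hτ z).sub (hu.momentum τ hτ z)).norm_sq
    · have h1 : ContinuousOn (fun τ : ℝ => (τ, z)) (Icc 0 T) := by fun_prop
      exact hFc.comp h1 (fun τ hτ => ⟨hτ, mem_univ _⟩)
    · show ‖v 0 z - u 0 z‖ ^ 2 = 0
      rw [h0, sub_self, norm_zero]
      norm_num
  -- energy identity with cutoff
  have hcut : ∀ t ∈ Icc 0 T, ∀ n, ∫ z, φ n z * ‖v t z - u t z‖ ^ 2 =
      ∫ τ in (0 : ℝ)..t, ∫ z, φ n z * F τ z := by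
    intro t ht n
    simp only [hpt t ht]
    exact (EU_fub T t ht F hFc (φ n) (hφ1 n).continuous (hφs n)).2
  have hE := fun t ht => EU_sq_sub (hv1 t ht).continuous (hu1 t ht).continuous hC0
    ((hC2 t ht).2.trans (ENNReal.ofReal_le_ofReal l2))
    ((hC1 t ht).2.trans (ENNReal.ofReal_le_ofReal l1))
  -- limit
  have hlim : ∀ t ∈ Icc 0 T, ∫ z, ‖v t z - u t z‖ ^ 2 =
      ∫ τ in (0 : ℝ)..t, ∫ z, -(2 * inner ℝ (v τ z - u τ z) (fderiv ℝ (u τ) z (v τ z - u τ z))) := by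
    intro t ht
    have h1 : Tendsto (fun n => ∫ z, φ n z * ‖v t z - u t z‖ ^ 2) atTop
        (𝓝 (∫ z, 1 * ‖v t z - u t z‖ ^ 2)) := by
      apply tendsto_integral_of_dominated_convergence (fun z => ‖v t z - u t z‖ ^ 2) _ (hE t ht).2.1
      · intro n
        refine Eventually.of_forall fun z => ?_
        rw [norm_mul, Real.norm_of_nonneg (hφb n z).1, Real.norm_of_nonneg (sq_nonneg _)]
        exact mul_le_of_le_one_left (sq_nonneg _) (hφb n z).2
      · exact Eventually.of_forall fun z => (hφt z).mul_const _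
      · intro n
        exact ((hφ1 n).continuous.mul (((hv1 t ht).continuous.sub
          (hu1 t ht).continuous).norm.pow 2)).aestronglyMeasurable
    simp only [one_mul] at h1
    refine tendsto_nhds_unique h1 ?_
    simp only [hcut t ht]
    apply intervalIntegral.tendsto_integral_filter_of_dominated_convergence
      (fun _ => (δ 0 * C + 2 * C + 1) * (4 * C) + 4 * C)
    · refine Eventually.of_forall fun n => ?_
      rw [uIoc_of_le ht.1]
      exact (EU_fub T t ht F hFc (φ n) (hφ1 n).continuous (hφs n)).1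
    · refine Eventually.of_forall fun n => Eventually.of_forall fun τ hτ => ?_
      rw [uIoc_of_le ht.1] at hτ
      rw [hF]
      exact (hsl τ ⟨hτ.1.le, hτ.2.trans ht.2⟩).2 n
    · exact intervalIntegrable_const
    · refine Eventually.of_forall fun τ hτ => ?_
      rw [uIoc_of_le ht.1] at hτ
      rw [hF]
      exact (hsl τ ⟨hτ.1.le, hτ.2.trans ht.2⟩).1
  -- pointwise-in-time bound
  have hbd : ∀ τ ∈ Icc 0 T, ‖∫ z, -(2 * inner ℝ (v τ z - u τ z) (fderiv ℝ (u τ) z (v τ z - u τ z)))‖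
      ≤ 2 * C * ∫ z, ‖v τ z - u τ z‖ ^ 2 := by
    intro τ hτ
    rw [← integral_const_mul]
    apply norm_integral_le_of_norm_le ((hE τ hτ).2.1.const_mul _)
    refine Eventually.of_forall fun z => ?_
    rw [norm_neg, norm_mul, Real.norm_eq_abs, Real.norm_eq_abs, abs_two]
    have h1 := abs_real_inner_le_norm (v τ z - u τ z) (fderiv ℝ (u τ) z (v τ z - u τ z))
    have h2 := (fderiv ℝ (u τ) z).le_opNorm (v τ z - u τ z)
    have h3 : ‖fderiv ℝ (u τ) z‖ * ‖v τ z - u τ z‖ ≤ C * ‖v τ z - u τ z‖ :=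
      mul_le_mul_of_nonneg_right ((((hC1 τ hτ).1 z).2).trans l1) (norm_nonneg _)
    have h4 : ‖v τ z - u τ z‖ * ‖fderiv ℝ (u τ) z (v τ z - u τ z)‖ ≤
        ‖v τ z - u τ z‖ * (C * ‖v τ z - u τ z‖) :=
      mul_le_mul_of_nonneg_left (h2.trans h3) (norm_nonneg _)
    calc 2 * |inner ℝ (v τ z - u τ z) (fderiv ℝ (u τ) z (v τ z - u τ z))| ≤
        2 * (‖v τ z - u τ z‖ * (C * ‖v τ z - u τ z‖)) := by linarith
      _ = 2 * C * ‖v τ z - u τ z‖ ^ 2 := by ring
  -- iteration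
  have hit : ∀ n : ℕ, ∀ t ∈ Icc 0 T, ∫ z, ‖v t z - u t z‖ ^ 2 ≤
      4 * C * ((2 * C) ^ n * t ^ n / (n.factorial : ℝ)) := by
    intro n
    induction n with
    | zero =>
      intro t ht
      simpa using (hE t ht).2.2
    | succ n ih =>
      intro t ht
      rw [hlim t ht]
      refine (le_abs_self _).trans ?_
      rw [← Real.norm_eq_abs]
      have h1 : IntervalIntegrable (fun τ : ℝ => 2 * C * (4 * C * ((2 * C) ^ n * τ ^ n /
          (n.factorial : ℝ)))) volume 0 t := Continuous.intervalIntegrable (by fun_prop) _ _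
      refine (intervalIntegral.norm_integral_le_of_norm_le ht.1
        (Eventually.of_forall fun τ hτ => ?_) h1).trans ?_
      · have hτ' : τ ∈ Icc 0 T := ⟨hτ.1.le, hτ.2.trans ht.2⟩
        exact (hbd τ hτ').trans (mul_le_mul_of_nonneg_left (ih τ hτ') (by positivity))
      · apply le_of_eq
        have h2 : ∀ τ : ℝ, 2 * C * (4 * C * ((2 * C) ^ n * τ ^ n / (n.factorial : ℝ))) =
            (4 * C * (2 * C) ^ (n + 1) / (n.factorial : ℝ)) * τ ^ n := by
          intro τ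
          ring
        simp only [h2]
        rw [intervalIntegral.integral_const_mul, integral_pow, Nat.factorial_succ]
        have h3 : (n.factorial : ℝ) ≠ 0 := by positivity
        have h4 : (n : ℝ) + 1 ≠ 0 := by positivity
        push_cast
        field_simp
        simp
  intro t ht
  have hzero : ∫ z, ‖v t z - u t z‖ ^ 2 ≤ 0 := by
    have h1 : Tendsto (fun n : ℕ => 4 * C * ((2 * C) ^ n * t ^ n / (n.factorial : ℝ))) atTop
        (𝓝 (4 * C * 0)) := by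
      apply Tendsto.const_mul
      simp only [← mul_pow]
      exact FloorSemiring.tendsto_pow_div_factorial_atTop _
    rw [mul_zero] at h1
    exact ge_of_tendsto' h1 (fun n => hit n t ht)
  have hzero' : ∫ z, ‖v t z - u t z‖ ^ 2 = 0 :=
    le_antisymm hzero (integral_nonneg fun z => sq_nonneg _)
  rw [integral_eq_zero_iff_of_nonneg (fun z => sq_nonneg _) (hE t ht).2.1] at hzero'
  have hcont : Continuous (fun z => ‖v t z - u t z‖ ^ 2) :=
    (((hv1 t ht).continuous.sub (hu1 t ht).continuous).norm.pow 2)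
  have h5 := (hcont.ae_eq_iff_eq volume continuous_const).1 hzero'
  ext z
  have h6 : ‖v t z - u t z‖ ^ 2 = 0 := congrFun h5 z
  have h7 : ‖v t z - u t z‖ = 0 := by
    exact pow_eq_zero_iff (two_ne_zero) |>.1 h6
  exact (sub_eq_zero.1 (norm_eq_zero.1 h7)).symm

end JU2

end Pool.Agent.Helper383.NI
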