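import Pool.Agent.Helper383.NI.Defs
import Pool.Agent.Helper383.NI.L1
import Pool.Agent.Helper383.NI.L2
import Pool.Agent.Helper383.NI.U0
import Pool.Agent.Helper383.NI.U2
import Pool.Agent.Helper383.NI.R1
import Pool.Agent.Helper383.NI.K5
import Pool.Agent.Helper383.NI.S1

open Complex MeasureTheory Set Filter Topology

namespace Pool.Agent.Helper383.NI

open JL1 (euler_of_sol)
open JL2 (pressure_decay)
open JU0 (IsHinfEuler)
open JU2 (euler_unique)
open JR1 (reverse_scale hinf_of_euler)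
open JK5 (growth)
open JS1 (fourier_split hsq_eq hdot_eq hsq_conj hsq_neg hsq_add_le hdot_le_hsq hsq_scale)

namespace JR2

/-- norm inflation for the planar Euler equations -/
theorem norm_inflation (s : ℝ) (hs : 0 < s) (hs1 : s < 1) : ∀ ε : ℝ, 0 < ε →
    ∃ (u₀ : ℂ → ℂ) (t : ℝ), 0 < t ∧ t < ε ∧ ContDiff ℝ (⊤ : ℕ∞) u₀ ∧ Integrable u₀ ∧
      (∀ n : ℕ, MemLp (iteratedFDeriv ℝ n u₀) 2) ∧
      (∀ z, (fderiv ℝ u₀ z 1).re + (fderiv ℝ u₀ z I).im = 0) ∧
      hsq s u₀ < ENNReal.ofReal (ε ^ 2) ∧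
      (∃ u p, IsHinfEuler t u p ∧ u 0 = u₀) ∧
      (∀ u p, IsHinfEuler t u p → u 0 = u₀ →
        Integrable (u t) ∧ ENNReal.ofReal ((1 / ε) ^ 2) < hsq s (u t)) := by
  intro ε hε
  have hM : 0 < 4 / ε ^ 4 := by positivity
  obtain ⟨T, m, Λ, σ, B, S, q, hT1, hm, hΛ, hη, hσ, hσ1, hB, hq, hq1, hq2⟩ :=
    growth s (4 / ε ^ 4) hs hs1 hM
  have hT : 0 < T := by linarith
  obtain ⟨-, -, -, p, hE⟩ := euler_of_sol T m Λ σ B hT hm hΛ hη hσ hσ1 hB S
  obtain ⟨C, hC⟩ := pressure_decay T m Λ σ B hT hm hΛ hη hσ hσ1 hB S p hE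
  have hH := hinf_of_euler T C hT (fun t z => (starRingEnd ℂ) (S.vel t z)) p hE hC
  set U : ℝ → ℂ → ℂ := fun t z => (starRingEnd ℂ) (S.vel t z) with hU
  -- the scaling parameters
  obtain ⟨Y, hYdef⟩ : ∃ Y : ℝ, Y = ε ^ 2 / (2 * q) := ⟨_, rfl⟩
  have hY : 0 < Y := by rw [hYdef]; positivity
  have hsY : 0 < Real.sqrt Y := Real.sqrt_pos.mpr hY
  obtain ⟨b, hbdef⟩ : ∃ b : ℝ, b = T / (Real.sqrt Y * ε) + 1 := ⟨_, rfl⟩
  have hx0 : 0 < T / (Real.sqrt Y * ε) := by positivity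
  have hb1 : 1 ≤ b := by rw [hbdef]; linarith
  have hb : 0 < b := by linarith
  obtain ⟨a, hadef⟩ : ∃ a : ℝ, a = Real.sqrt Y * b ^ (1 - s) := ⟨_, rfl⟩
  have ha : 0 < a := by rw [hadef]; positivity
  have hab : a * b = Real.sqrt Y * b ^ (2 - s) := by
    rw [hadef, mul_assoc]
    congr 1
    have : b ^ (1 - s) * b = b ^ (1 - s) * b ^ (1 : ℝ) := by rw [Real.rpow_one]
    rw [this, ← Real.rpow_add hb]
    congr 1; ring
  have hpow : b ≤ b ^ (2 - s) := by
    calc b = b ^ (1 : ℝ) := (Real.rpow_one b).symm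
      _ ≤ b ^ (2 - s) := Real.rpow_le_rpow_of_exponent_le hb1 (by linarith)
  have ha2 : a ^ 2 * b ^ (2 * s - 2) = Y := by
    rw [hadef, mul_pow, Real.sq_sqrt hY.le, ← Real.rpow_natCast (b ^ (1 - s)) 2,
      ← Real.rpow_mul hb.le, mul_assoc, ← Real.rpow_add hb]
    have : (1 - s) * ((2 : ℕ) : ℝ) + (2 * s - 2) = 0 := by push_cast; ring
    rw [this, Real.rpow_zero, mul_one]
  have habpos : 0 < a * b := mul_pos ha hb
  have ht0 : 0 < T / (a * b) := div_pos hT habpos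
  have htε : T / (a * b) < ε := by
    rw [div_lt_iff₀ habpos, hab]
    have h1 : T / (Real.sqrt Y * ε) < b ^ (2 - s) := by
      have : T / (Real.sqrt Y * ε) < b := by rw [hbdef]; linarith
      linarith
    rw [div_lt_iff₀ (by positivity)] at h1
    calc T < b ^ (2 - s) * (Real.sqrt Y * ε) := h1
      _ = ε * (Real.sqrt Y * b ^ (2 - s)) := by ring
  have hV := reverse_scale T a b hT ha hb U p hH
  set V : ℝ → ℂ → ℂ := fun t z => -((a : ℂ) * U (T - a * b * t) ((b : ℂ) * z)) with hVdef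
  have m0 : (0 : ℝ) ∈ Icc 0 (T / (a * b)) := ⟨le_refl _, ht0.le⟩
  have m1 : T / (a * b) ∈ Icc 0 (T / (a * b)) := ⟨ht0.le, le_refl _⟩
  have hV0 : V 0 = fun z => -((a : ℂ) * U T ((b : ℂ) * z)) := by
    rw [hVdef]
    funext z
    simp only [mul_zero, sub_zero]
  have hV1 : V (T / (a * b)) = fun z => -((a : ℂ) * U 0 ((b : ℂ) * z)) := by
    rw [hVdef]
    funext z
    have : T - a * b * (T / (a * b)) = 0 := by
      rw [mul_div_cancel₀ _ habpos.ne', sub_self]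
    simp only [this]
  have hint : ∀ τ ∈ Icc 0 T, Integrable (fun z => -((a : ℂ) * U τ ((b : ℂ) * z))) := by
    intro τ hτ
    have h1 : Integrable (U τ) := hE.integrable τ hτ
    have h2 : Integrable (fun z : ℂ => U τ (b • z)) := h1.comp_smul hb.ne'
    have h3 : (fun z : ℂ => U τ (b • z)) = fun z => U τ ((b : ℂ) * z) := by
      funext z
      rw [Complex.real_smul]
    rw [h3] at h2
    exact (h2.const_mul (a : ℂ)).neg
  have hUT : hsq s (U T) ≤ ENNReal.ofReal q := by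
    rw [hU]
    rw [(hsq_conj s (S.vel T)).1]
    exact hq1
  have hU0 : ENNReal.ofReal (4 / ε ^ 4 * q) ≤ hdot s (U 0) := by
    rw [hU]
    rw [(hsq_conj s (S.vel 0)).2]
    exact hq2
  refine ⟨V 0, T / (a * b), ht0, htε, hV.smooth 0 m0, ?_, hV.sobolev 0 m0, hV.divfree 0 m0, ?_,
    ⟨V, _, hV, rfl⟩, ?_⟩
  · rw [hV0]
    exact hint T ⟨hT.le, le_refl _⟩
  · rw [hV0, (hsq_neg s (fun z => (a : ℂ) * U T ((b : ℂ) * z))).1]
    calc hsq s (fun z => (a : ℂ) * U T ((b : ℂ) * z))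
        ≤ ENNReal.ofReal (a ^ 2 * b ^ (2 * s - 2)) * hsq s (U T) :=
          (hsq_scale s a b hs hs1 ha hb1 (U T)).1
      _ ≤ ENNReal.ofReal Y * ENNReal.ofReal q := by
          rw [ha2]
          exact mul_le_mul_right hUT _
      _ = ENNReal.ofReal (Y * q) := (ENNReal.ofReal_mul hY.le).symm
      _ < ENNReal.ofReal (ε ^ 2) := by
          apply (ENNReal.ofReal_lt_ofReal_iff (by positivity)).mpr
          have : Y * q = ε ^ 2 / 2 := by rw [hYdef]; field_simp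
          rw [this]
          have : 0 < ε ^ 2 := by positivity
          linarith
  · intro u p' hu h0
    have hEq := euler_unique (T / (a * b)) ht0 u V p' _ hu hV h0 (T / (a * b)) m1
    rw [hEq, hV1]
    refine ⟨hint 0 ⟨le_refl _, hT.le⟩, ?_⟩
    rw [(hsq_neg s (fun z => (a : ℂ) * U 0 ((b : ℂ) * z))).1]
    calc ENNReal.ofReal ((1 / ε) ^ 2) < ENNReal.ofReal (Y * (4 / ε ^ 4 * q)) := by
          apply (ENNReal.ofReal_lt_ofReal_iff (by positivity)).mpr
          have : Y * (4 / ε ^ 4 * q) = 2 * (1 / ε) ^ 2 := by rw [hYdef]; field_simp; ring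
          rw [this]
          have : 0 < (1 / ε) ^ 2 := by positivity
          linarith
      _ = ENNReal.ofReal Y * ENNReal.ofReal (4 / ε ^ 4 * q) := ENNReal.ofReal_mul hY.le
      _ ≤ ENNReal.ofReal Y * hdot s (U 0) := mul_le_mul_right hU0 _
      _ = ENNReal.ofReal (a ^ 2 * b ^ (2 * s - 2)) * hdot s (U 0) := by rw [ha2]
      _ ≤ hsq s (fun z => (a : ℂ) * U 0 ((b : ℂ) * z)) :=
          (hsq_scale s a b hs hs1 ha hb1 (U 0)).2

end JR2

end Pool.Agent.Helper383.NI
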