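import Pool.Agent.Helper383.NI.Defs

open Complex MeasureTheory Set Filter Topology

namespace Pool.Agent.Helper383.NI


namespace JS2

open scoped FourierTransform SchwartzMap ContDiff in
/-- auxiliary form of `plancherel` -/
theorem plancherel_aux (f : ℂ → ℂ) (hf : Integrable f) (hf2 : MemLp f 2) :
    ∫⁻ ξ : ℂ, ‖FourierTransform.fourier f ξ‖ₑ ^ 2 = ∫⁻ z : ℂ, ‖f z‖ₑ ^ 2 := by
  obtain ⟨F2, hF2⟩ : ∃ F2 : Lp ℂ 2 (volume : Measure ℂ), F2 = hf2.toLp f := ⟨_, rfl⟩
  obtain ⟨G, hG⟩ : ∃ G : Lp ℂ 2 (volume : Measure ℂ), G = 𝓕 F2 := ⟨_, rfl⟩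
  have hF2ae : (F2 : ℂ → ℂ) =ᵐ[volume] f := by rw [hF2]; exact hf2.coeFn_toLp
  have key : ∀ g : 𝓢(ℂ, ℂ), ∫ x, g x • (G x) = ∫ x, g x • FourierTransform.fourier f x := by
    intro g
    have h1 : (𝓕 (F2 : 𝓢'(ℂ, ℂ))) g = ((𝓕 F2 : Lp ℂ 2 (volume : Measure ℂ)) : 𝓢'(ℂ, ℂ)) g := by
      rw [Lp.fourier_toTemperedDistribution_eq]
    rw [TemperedDistribution.fourier_apply, Lp.toTemperedDistribution_apply,
      Lp.toTemperedDistribution_apply, ← hG] at h1
    rw [← h1]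
    have h2 : ∫ x, (𝓕 g) x • F2 x = ∫ x, (𝓕 g) x • f x := by
      apply integral_congr_ae
      filter_upwards [hF2ae] with x hx
      rw [hx]
    rw [h2]
    have h3 := VectorFourier.integral_fourierIntegral_smul_eq_flip (L := innerₗ ℂ)
      (μ := (volume : Measure ℂ)) (ν := (volume : Measure ℂ))
      Real.continuous_fourierChar continuous_inner g.integrable hf
    rw [flip_innerₗ] at h3
    exact h3
  have hGae : (G : ℂ → ℂ) =ᵐ[volume] FourierTransform.fourier f := by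
    have hcont : Continuous (FourierTransform.fourier f : ℂ → ℂ) :=
      VectorFourier.fourierIntegral_continuous Real.continuous_fourierChar continuous_inner hf
    apply ae_eq_of_integral_contDiff_smul_eq
    · exact (Lp.memLp G).locallyIntegrable (by norm_num)
    · exact hcont.locallyIntegrable
    · intro g g_smooth g_cpt
      have hg₁ : HasCompactSupport (Complex.ofRealCLM ∘ g) := g_cpt.comp_left rfl
      have hg₂ : ContDiff ℝ ∞ (Complex.ofRealCLM ∘ g) := by fun_prop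
      have := key (hg₁.toSchwartzMap hg₂)
      simpa using this
  have hnorm : eLpNorm G 2 volume = eLpNorm f 2 volume := by
    have h1 : ‖G‖ = ‖F2‖ := by rw [hG]; exact Lp.norm_fourier_eq F2
    have h2 : eLpNorm G 2 volume = eLpNorm F2 2 volume := by
      rw [Lp.norm_def, Lp.norm_def] at h1
      exact (ENNReal.toReal_eq_toReal_iff' (Lp.eLpNorm_ne_top G) (Lp.eLpNorm_ne_top F2)).1 h1
    rw [h2]
    exact eLpNorm_congr_ae hF2ae
  have h2 : ∀ h : ℂ → ℂ, eLpNorm h 2 volume ^ 2 = ∫⁻ z : ℂ, ‖h z‖ₑ ^ 2 := by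
    intro h
    rw [eLpNorm_eq_lintegral_rpow_enorm_toReal (by norm_num) (by norm_num)]
    simp only [ENNReal.toReal_ofNat, ENNReal.rpow_ofNat, one_div]
    rw [← ENNReal.rpow_natCast, ← ENNReal.rpow_mul]
    norm_num
  rw [← h2, ← h2, ← hnorm, eLpNorm_congr_ae hGae]

/-- Plancherel for the Fourier integral of `L¹ ∩ L²` functions -/
theorem plancherel (f : ℂ → ℂ) (hf : Integrable f) (hf2 : MemLp f 2) :
    ∫⁻ ξ : ℂ, ‖FourierTransform.fourier f ξ‖ₑ ^ 2 = ∫⁻ z : ℂ, ‖f z‖ₑ ^ 2 := by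
  exact plancherel_aux f hf hf2

end JS2

end Pool.Agent.Helper383.NI
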