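import Pool.Agent.Helper383.NI.Defs
import Pool.Agent.Helper383.NI.S1
import Pool.Agent.Helper383.NI.S2

open Complex MeasureTheory Set Filter Topology

namespace Pool.Agent.Helper383.NI

open JS1 (fourier_split hsq_eq hdot_eq hsq_conj hsq_neg hsq_add_le hdot_le_hsq hsq_scale)
open JS2 (plancherel)

namespace JS4

theorem cont_fourier_j7467 (f : ℂ → ℂ) (hf : Integrable f) :
    Continuous (FourierTransform.fourier f : ℂ → ℂ) :=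
  VectorFourier.fourierIntegral_continuous Real.continuous_fourierChar
    (by
      show Continuous fun p : ℂ × ℂ => (innerₗ ℂ) p.1 p.2
      exact continuous_inner) hf

theorem measP_j7467 (f : ℂ → ℂ) (hf : Integrable f) :
    Measurable (fun ξ : ℂ => ‖FourierTransform.fourier f ξ‖ₑ ^ 2) :=
  ((cont_fourier_j7467 f hf).enorm.measurable).pow_const 2

theorem g_eq_j7467 (f g : ℂ → ℂ)
    (hF : ∀ ξ : ℂ, FourierTransform.fourier g ξ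
      = (Real.pi : ℂ) * I * ξ * FourierTransform.fourier f ξ) (ξ : ℂ) :
    ‖FourierTransform.fourier g ξ‖ₑ ^ 2 =
      (ENNReal.ofReal Real.pi) ^ 2 * (‖ξ‖ₑ ^ 2 * ‖FourierTransform.fourier f ξ‖ₑ ^ 2) := by
  rw [hF ξ, enorm_mul, enorm_mul, enorm_mul]
  have h1 : ‖(Real.pi : ℂ)‖ₑ = ENNReal.ofReal Real.pi := by
    rw [← ofReal_norm, Complex.norm_real, Real.norm_eq_abs, abs_of_pos Real.pi_pos]
  have h2 : ‖I‖ₑ = 1 := by
    rw [← ofReal_norm, Complex.norm_I, ENNReal.ofReal_one]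
  rw [h1, h2]
  ring

theorem pi_ge_one_j7467 : (1 : ENNReal) ≤ ENNReal.ofReal Real.pi := by
  rw [← ENNReal.ofReal_one]
  exact ENNReal.ofReal_le_ofReal (by linarith [Real.pi_gt_three])

/-- upper interpolation bound -/
theorem hsq_upper (s : ℝ) (hs : 0 < s) (hs1 : s < 1) (f g : ℂ → ℂ) (hf : Integrable f)
    (hf2 : MemLp f 2) (hg : Integrable g) (hg2 : MemLp g 2)
    (hF : ∀ ξ : ℂ, FourierTransform.fourier g ξ
      = (Real.pi : ℂ) * I * ξ * FourierTransform.fourier f ξ) :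
    hsq s f ≤ (∫⁻ z : ℂ, ‖f z‖ₑ ^ 2) ^ (1 - s)
      * ((∫⁻ z : ℂ, ‖f z‖ₑ ^ 2) + ∫⁻ z : ℂ, ‖g z‖ₑ ^ 2) ^ s := by
  set P : ℂ → ENNReal := fun ξ => ‖FourierTransform.fourier f ξ‖ₑ ^ 2 with hP
  have hPm : Measurable P := measP_j7467 f hf
  set W : ℂ → ENNReal := fun ξ => ENNReal.ofReal (1 + ‖ξ‖ ^ 2) with hW
  have hWm : Measurable W := by
    apply ENNReal.measurable_ofReal.comp
    exact (measurable_const.add (measurable_norm.pow_const 2))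
  have h1 : hsq s f = ∫⁻ ξ : ℂ, P ξ ^ (1 - s) * (W ξ * P ξ) ^ s := by
    rw [hsq_eq s f hf]
    apply lintegral_congr
    intro ξ
    show ENNReal.ofReal ((1 + ‖ξ‖ ^ 2) ^ s) * P ξ = _
    rw [← ENNReal.ofReal_rpow_of_nonneg (by positivity) hs.le, ENNReal.mul_rpow_of_nonneg _ _ hs.le]
    have : P ξ = P ξ ^ (1 - s) * P ξ ^ s := by
      rw [← ENNReal.rpow_add_of_nonneg _ _ (by linarith) hs.le]
      simp
    calc W ξ ^ s * P ξ = W ξ ^ s * (P ξ ^ (1 - s) * P ξ ^ s) := by rw [← this]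
      _ = P ξ ^ (1 - s) * (W ξ ^ s * P ξ ^ s) := by ring
  have h2 := ENNReal.lintegral_mul_norm_pow_le (μ := (volume : Measure ℂ)) hPm.aemeasurable
    (hWm.mul hPm).aemeasurable (p := 1 - s) (q := s) (by linarith) hs.le (by ring)
  have h3 : ∫⁻ ξ : ℂ, P ξ = ∫⁻ z : ℂ, ‖f z‖ₑ ^ 2 := plancherel f hf hf2
  have h4 : ∫⁻ ξ : ℂ, (W * P) ξ ≤ (∫⁻ z : ℂ, ‖f z‖ₑ ^ 2) + ∫⁻ z : ℂ, ‖g z‖ₑ ^ 2 := by
    rw [← plancherel g hg hg2, ← plancherel f hf hf2, ← lintegral_add_left hPm]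
    apply lintegral_mono
    intro ξ
    show W ξ * P ξ ≤ P ξ + ‖FourierTransform.fourier g ξ‖ₑ ^ 2
    rw [g_eq_j7467 f g hF ξ]
    have hWξ : W ξ = 1 + ‖ξ‖ₑ ^ 2 := by
      show ENNReal.ofReal (1 + ‖ξ‖ ^ 2) = _
      rw [ENNReal.ofReal_add (by norm_num) (by positivity), ENNReal.ofReal_one,
        ENNReal.ofReal_pow (norm_nonneg _), ofReal_norm]
    rw [hWξ, add_mul, one_mul]
    have hle : ‖ξ‖ₑ ^ 2 * P ξ ≤ (ENNReal.ofReal Real.pi) ^ 2 * (‖ξ‖ₑ ^ 2 * P ξ) := by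
      calc ‖ξ‖ₑ ^ 2 * P ξ = 1 * (‖ξ‖ₑ ^ 2 * P ξ) := (one_mul _).symm
        _ ≤ _ := mul_le_mul_left (one_le_pow₀ pi_ge_one_j7467) _
    exact add_le_add_right hle _
  rw [h1]
  calc ∫⁻ ξ : ℂ, P ξ ^ (1 - s) * (W ξ * P ξ) ^ s
      ≤ (∫⁻ ξ : ℂ, P ξ) ^ (1 - s) * (∫⁻ ξ : ℂ, (W * P) ξ) ^ s := h2
    _ ≤ _ := by
        rw [h3]
        exact mul_le_mul_right (ENNReal.rpow_le_rpow h4 hs.le) _


/-- lower interpolation bound -/
theorem hdot_lower (s : ℝ) (hs : 0 < s) (hs1 : s < 1) (f g h : ℂ → ℂ) (hf : Integrable f)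
    (hf2 : MemLp f 2) (hg : Integrable g) (hg2 : MemLp g 2) (hh : Integrable h) (hh2 : MemLp h 2)
    (hF : ∀ ξ : ℂ, FourierTransform.fourier g ξ
      = (Real.pi : ℂ) * I * ξ * FourierTransform.fourier f ξ)
    (hG : ∀ ξ : ℂ, FourierTransform.fourier h ξ
      = (Real.pi : ℂ) * I * ξ * FourierTransform.fourier g ξ) :
    (∫⁻ z : ℂ, ‖g z‖ₑ ^ 2) ^ (2 - s) ≤ 10 * hdot s f * (∫⁻ z : ℂ, ‖h z‖ₑ ^ 2) ^ (1 - s) := by
  set P : ℂ → ENNReal := fun ξ => ‖FourierTransform.fourier f ξ‖ₑ ^ 2 with hP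
  have hPm : Measurable P := measP_j7467 f hf
  have hem : Measurable (fun ξ : ℂ => ‖ξ‖ₑ) := measurable_enorm
  set p : ENNReal := ENNReal.ofReal Real.pi with hp
  have hp1 : 1 ≤ p := pi_ge_one_j7467
  have h2s : 0 < 2 - s := by linarith
  set a : ℝ := 1 / (2 - s) with ha
  have ha0 : 0 ≤ a := by positivity
  have ha2 : a * (2 - s) = 1 := by rw [ha]; field_simp
  have ha1 : 1 - a = (1 - s) / (2 - s) := by rw [ha]; field_simp; ring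
  have ha1' : 0 ≤ 1 - a := by rw [ha1]; exact div_nonneg (by linarith) h2s.le
  set Hd : ENNReal := ∫⁻ ξ : ℂ, ‖ξ‖ₑ ^ (2 * s) * P ξ with hHd
  set B' : ENNReal := ∫⁻ ξ : ℂ, ‖ξ‖ₑ ^ (4 : ℕ) * P ξ with hB'
  set A' : ENNReal := ∫⁻ ξ : ℂ, ‖ξ‖ₑ ^ (2 : ℕ) * P ξ with hA'
  have hd : hdot s f = Hd := by
    rw [hdot_eq s f hf]
    apply lintegral_congr
    intro ξ
    show ENNReal.ofReal (‖ξ‖ ^ (2 * s)) * P ξ = ‖ξ‖ₑ ^ (2 * s) * P ξ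
    rw [← ENNReal.ofReal_rpow_of_nonneg (norm_nonneg _) (by linarith), ofReal_norm]
  have hA : ∫⁻ z : ℂ, ‖g z‖ₑ ^ 2 = p ^ 2 * A' := by
    have hm2 : Measurable (fun ξ : ℂ => ‖ξ‖ₑ ^ 2 * P ξ) := (hem.pow_const 2).mul hPm
    rw [← plancherel g hg hg2, hA', ← lintegral_const_mul _ hm2]
    apply lintegral_congr
    intro ξ
    exact g_eq_j7467 f g hF ξ
  have hH : ∫⁻ z : ℂ, ‖h z‖ₑ ^ 2 = p ^ 4 * B' := by
    have hm4 : Measurable (fun ξ : ℂ => ‖ξ‖ₑ ^ 4 * P ξ) := (hem.pow_const 4).mul hPm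
    rw [← plancherel h hh hh2, hB', ← lintegral_const_mul _ hm4]
    apply lintegral_congr
    intro ξ
    rw [g_eq_j7467 g h hG ξ, g_eq_j7467 f g hF ξ]
    show p ^ 2 * (‖ξ‖ₑ ^ 2 * (p ^ 2 * (‖ξ‖ₑ ^ 2 * P ξ))) = p ^ 4 * (‖ξ‖ₑ ^ 4 * P ξ)
    ring
  have hpt : ∀ ξ : ℂ, ‖ξ‖ₑ ^ (2 : ℕ) * P ξ =
      (‖ξ‖ₑ ^ (2 * s) * P ξ) ^ a * (‖ξ‖ₑ ^ (4 : ℕ) * P ξ) ^ (1 - a) := by
    intro ξ
    have e4 : ‖ξ‖ₑ ^ (4 : ℕ) = ‖ξ‖ₑ ^ (4 : ℝ) := by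
      rw [← ENNReal.rpow_natCast]; norm_num
    have e2 : ‖ξ‖ₑ ^ (2 : ℕ) = ‖ξ‖ₑ ^ (2 : ℝ) := by
      rw [← ENNReal.rpow_natCast]; norm_num
    rw [e4, e2, ENNReal.mul_rpow_of_nonneg _ _ ha0, ENNReal.mul_rpow_of_nonneg _ _ ha1',
      ← ENNReal.rpow_mul, ← ENNReal.rpow_mul]
    have hx : ‖ξ‖ₑ ^ (2 * s * a) * ‖ξ‖ₑ ^ (4 * (1 - a)) = ‖ξ‖ₑ ^ (2 : ℝ) := by
      rw [← ENNReal.rpow_add_of_nonneg _ _ (by positivity) (by positivity)]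
      congr 1
      rw [ha1, ha]
      field_simp
      ring
    have hy : P ξ ^ a * P ξ ^ (1 - a) = P ξ := by
      rw [← ENNReal.rpow_add_of_nonneg _ _ ha0 ha1']
      simp
    calc ‖ξ‖ₑ ^ (2 : ℝ) * P ξ
        = (‖ξ‖ₑ ^ (2 * s * a) * ‖ξ‖ₑ ^ (4 * (1 - a))) * (P ξ ^ a * P ξ ^ (1 - a)) := by
          rw [hx, hy]
      _ = _ := by ring
  have hHol : A' ≤ Hd ^ a * B' ^ (1 - a) := by
    have := ENNReal.lintegral_mul_norm_pow_le (μ := (volume : Measure ℂ))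
      (f := fun ξ : ℂ => ‖ξ‖ₑ ^ (2 * s) * P ξ) (g := fun ξ : ℂ => ‖ξ‖ₑ ^ (4 : ℕ) * P ξ)
      ((hem.pow_const (2 * s)).mul hPm).aemeasurable ((hem.pow_const 4).mul hPm).aemeasurable
      ha0 ha1' (by ring)
    calc A' = ∫⁻ ξ : ℂ, (‖ξ‖ₑ ^ (2 * s) * P ξ) ^ a * (‖ξ‖ₑ ^ (4 : ℕ) * P ξ) ^ (1 - a) :=
          lintegral_congr hpt
      _ ≤ _ := this
  have hA2 : A' ^ (2 - s) ≤ Hd * B' ^ (1 - s) := by
    calc A' ^ (2 - s) ≤ (Hd ^ a * B' ^ (1 - a)) ^ (2 - s) := ENNReal.rpow_le_rpow hHol h2s.le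
      _ = Hd * B' ^ (1 - s) := by
          rw [ENNReal.mul_rpow_of_nonneg _ _ h2s.le, ← ENNReal.rpow_mul, ← ENNReal.rpow_mul, ha2,
            ENNReal.rpow_one]
          congr 2
          rw [ha1]
          field_simp
  have hp0 : p ≠ 0 := (lt_of_lt_of_le one_pos hp1).ne'
  have hppow : (p ^ 2) ^ (2 - s) ≤ 10 * (p ^ 4) ^ (1 - s) := by
    have e1 : (p ^ 2) ^ (2 - s) = p ^ (2 * s) * p ^ (4 * (1 - s)) := by
      rw [← ENNReal.rpow_add_of_nonneg _ _ (by linarith) (by linarith), ← ENNReal.rpow_natCast,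
        ← ENNReal.rpow_mul]
      congr 1
      push_cast
      ring
    have e2 : (p ^ 4) ^ (1 - s) = p ^ (4 * (1 - s)) := by
      rw [← ENNReal.rpow_natCast, ← ENNReal.rpow_mul]
      norm_num
    rw [e1, e2]
    apply mul_le_mul_left
    calc p ^ (2 * s) ≤ p ^ (2 : ℝ) := ENNReal.rpow_le_rpow_of_exponent_le hp1 (by linarith)
      _ = ENNReal.ofReal (Real.pi ^ 2) := by
          rw [hp, ENNReal.ofReal_pow Real.pi_pos.le, ← ENNReal.rpow_natCast]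
          norm_num
      _ ≤ ENNReal.ofReal 10 := by
          apply ENNReal.ofReal_le_ofReal
          have h1 := Real.pi_lt_d2
          have h2 := Real.pi_pos
          nlinarith
      _ = 10 := by norm_num
  rw [hA, hH, hd, ENNReal.mul_rpow_of_nonneg _ _ h2s.le, ENNReal.mul_rpow_of_nonneg _ _ (by linarith)]
  calc (p ^ 2) ^ (2 - s) * A' ^ (2 - s)
      ≤ (10 * (p ^ 4) ^ (1 - s)) * (Hd * B' ^ (1 - s)) := mul_le_mul' hppow hA2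
    _ = 10 * Hd * ((p ^ 4) ^ (1 - s) * B' ^ (1 - s)) := by ring

end JS4

end Pool.Agent.Helper383.NI
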